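import Pool.Agent.Lib.MP_830c64_nt.ArLow

namespace Pool.Agent.Lib.MP_830c64_nt

open Polynomial Metric

/-- polynomial doubling on both sheets -/
theorem ardouble_grow {s : ℂ → ℂ} {a b : ℂ} {r ρ ρ' M : ℝ} (hr : 0 < r) (h1 : r ≤ ρ)
    (h2 : ρ ≤ 2 * r) (h3 : 10 * r < ρ') (hb : b ≠ 0)
    (hsb : ∀ z ∈ ball a ρ', ‖s z - b‖ ≤ 3 / 10 * ‖b‖) (A B : ℂ[X]) {d : ℕ}
    (hA : A.natDegree ≤ d) (hB : B.natDegree ≤ d) (hM0 : 0 ≤ M)
    (m1 : ∀ z ∈ sphere a ρ, ‖A.eval z + B.eval z * s z‖ ≤ M)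
    (m2 : ∀ z ∈ sphere a ρ, ‖A.eval z - B.eval z * s z‖ ≤ M) :
    ∀ z ∈ closedBall a (10 * r),
      ‖A.eval z‖ + ‖B.eval z * s z‖ ≤ 3 * ((d : ℝ) + 1) * 10 ^ d * M := by
  have hρ : 0 < ρ := hr.trans_le h1
  have hb0 : 0 < ‖b‖ := norm_pos_iff.2 hb
  have ht1 : 1 ≤ 10 * r / ρ := (one_le_div hρ).2 (by linarith)
  have ht2 : 10 * r / ρ ≤ 10 := (div_le_iff₀ hρ).2 (by linarith)
  have a1 : ∀ z ∈ sphere a ρ, ‖A.eval z‖ ≤ M := fun z hz => by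
    have e : (2 : ℂ) * A.eval z = (A.eval z + B.eval z * s z) + (A.eval z - B.eval z * s z) := by
      ring
    have := norm_add_le (A.eval z + B.eval z * s z) (A.eval z - B.eval z * s z)
    rw [← e, norm_mul, Complex.norm_two] at this
    linarith [m1 z hz, m2 z hz]
  have a2 : ∀ z ∈ sphere a ρ, ‖B.eval z‖ ≤ M / (7 / 10 * ‖b‖) := fun z hz => by
    have e : (2 : ℂ) * (B.eval z * s z) =
        (A.eval z + B.eval z * s z) - (A.eval z - B.eval z * s z) := by ring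
    have h4 := norm_sub_le (A.eval z + B.eval z * s z) (A.eval z - B.eval z * s z)
    rw [← e, norm_mul, Complex.norm_two, norm_mul] at h4
    have h5 := hsb z (sphere_subset_ball (by linarith) hz)
    have h6 := norm_sub_norm_le b (s z)
    rw [norm_sub_rev] at h6
    rw [le_div_iff₀ (by positivity)]
    have h7 : ‖B.eval z‖ * (7 / 10 * ‖b‖) ≤ ‖B.eval z‖ * ‖s z‖ :=
      mul_le_mul_of_nonneg_left (by linarith) (norm_nonneg _)
    linarith [m1 z hz, m2 z hz]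
  intro z hz
  have hz' : z ∈ closedBall a (10 * r / ρ * ρ) := by rwa [div_mul_cancel₀ _ hρ.ne']
  have hp : ((d : ℝ) + 1) * (10 * r / ρ) ^ d ≤ ((d : ℝ) + 1) * 10 ^ d := by gcongr
  have b1 := (ar_poly A hA a hρ ht1 a1 z hz').trans (mul_le_mul_of_nonneg_right hp hM0)
  have b2 := (ar_poly B hB a hρ ht1 a2 z hz').trans
    (mul_le_mul_of_nonneg_right hp (by positivity))
  have b3 : ‖s z‖ ≤ 13 / 10 * ‖b‖ := by
    have h5 := hsb z (closedBall_subset_ball h3 hz)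
    have h6 := norm_sub_norm_le (s z) b
    linarith
  have b4 : ‖B.eval z * s z‖ ≤ 13 / 7 * (((d : ℝ) + 1) * 10 ^ d * M) := by
    rw [norm_mul]
    refine (mul_le_mul b2 b3 (norm_nonneg _) (by positivity)).trans (le_of_eq ?_)
    field_simp
  have b5 : 0 ≤ ((d : ℝ) + 1) * 10 ^ d * M := by positivity
  nlinarith

/-- Let `φ₁ = A + B s`, `φ₂ = A - B s`, `z₁`, `z₀` points of the sphere where `‖φ₁‖`, `‖φ₂‖` are
largest, `M` the larger of the two maxima (`M > 0` since `p ≠ 0`). On the sphere `‖A‖ ≤ M`,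
`‖B‖ ≤ M / (0.7 ‖b‖)`; by `ar_poly` with `t = 10 r / ρ ≤ 10`, `‖φ₁‖, ‖φ₂‖ ≤ 3 (d + 1) 10 ^ d M` on
the closed ball of radius `10 r`. The maximum principle for `χ` gives
`‖φ₁ z₁‖ ≤ 5 ^ (-N) * 3 (d + 1) 10 ^ d M < M`, so `M = ‖φ₂ z₀‖`. Apply `ar_low` to `φ₂`, `χ` with
centre `z₀`, `R = 8 r`, `R' = ρ' - 2 r` at the point `z₁` and multiply by
`‖φ₁ z₁‖ = ρ ^ N ‖χ z₁‖`. -/
theorem ar_double {s χ : ℂ → ℂ} {a b : ℂ} {r ρ ρ' η : ℝ} (hr : 0 < r) (h1 : r ≤ ρ) (h2 : ρ ≤ 2 * r)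
    (h3 : 10 * r < ρ') (hs : DifferentiableOn ℂ s (ball a ρ')) (hb : b ≠ 0)
    (hsb : ∀ z ∈ ball a ρ', ‖s z - b‖ ≤ 3 / 10 * ‖b‖) (A B p : ℂ[X]) {d m N : ℕ}
    (hA : A.natDegree ≤ d) (hB : B.natDegree ≤ d) (hχ : DifferentiableOn ℂ χ (ball a ρ'))
    (e1 : ∀ z ∈ ball a ρ', A.eval z + B.eval z * s z = (z - a) ^ N * χ z)
    (e2 : ∀ z ∈ ball a ρ', (A.eval z - B.eval z * s z) * χ z = p.eval z) (hp : p ≠ 0)
    (hm : p.natDegree ≤ m) (hη : 0 < η) (hη1 : η ≤ 1)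
    (hfar : ∀ ζ ∈ p.roots, ∀ z ∈ sphere a ρ, η * (8 * r) ≤ ‖z - ζ‖)
    (hN : 3 * ((d : ℝ) + 1) * 10 ^ d < 5 ^ N) :
    ∃ V₁ V₂ : ℝ, ∃ z₁ ∈ sphere a ρ, (∀ z ∈ sphere a ρ, ‖A.eval z + B.eval z * s z‖ ≤ V₁) ∧
      (∀ z ∈ sphere a ρ, ‖A.eval z - B.eval z * s z‖ ≤ V₂) ∧ 0 < V₁ ∧ V₁ ≤ V₂ ∧
      V₁ * V₂ * η ^ m ≤ (9 * 4 ^ m * ((d : ℝ) + 1) * 10 ^ d) ^ 4 * ρ ^ N * ‖p.eval z₁‖ := by
  have hρ : 0 < ρ := hr.trans_le h1
  have hsub : sphere a ρ ⊆ ball a ρ' := sphere_subset_ball (by linarith)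
  have d1 : DifferentiableOn ℂ (fun z => A.eval z + B.eval z * s z) (ball a ρ') :=
    A.differentiableOn.add (B.differentiableOn.mul hs)
  have d2 : DifferentiableOn ℂ (fun z => A.eval z - B.eval z * s z) (ball a ρ') :=
    A.differentiableOn.sub (B.differentiableOn.mul hs)
  have hne : (sphere a ρ).Nonempty := NormedSpace.sphere_nonempty.2 hρ.le
  obtain ⟨z₁, hz₁, m1⟩ := (isCompact_sphere a ρ).exists_isMaxOn hne
    (d1.continuousOn.mono hsub).norm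
  obtain ⟨z₀, hz₀, m2⟩ := (isCompact_sphere a ρ).exists_isMaxOn hne
    (d2.continuousOn.mono hsub).norm
  replace m1 : ∀ z ∈ sphere a ρ, ‖A.eval z + B.eval z * s z‖ ≤ ‖A.eval z₁ + B.eval z₁ * s z₁‖ :=
    fun z hz => m1 hz
  replace m2 : ∀ z ∈ sphere a ρ, ‖A.eval z - B.eval z * s z‖ ≤ ‖A.eval z₀ - B.eval z₀ * s z₀‖ :=
    fun z hz => m2 hz
  have hp1 : p.eval z₁ ≠ 0 := fun h0 => by
    have := hfar z₁ ((mem_roots hp).2 h0) z₁ hz₁
    rw [sub_self, norm_zero] at this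
    exact this.not_gt (by positivity)
  have hχ1 : 0 < ‖χ z₁‖ :=
    norm_pos_iff.2 (right_ne_zero_of_mul ((e2 z₁ (hsub hz₁)).trans_ne hp1))
  have eV : ‖A.eval z₁ + B.eval z₁ * s z₁‖ = ρ ^ N * ‖χ z₁‖ := by
    rw [e1 z₁ (hsub hz₁), norm_mul, norm_pow, mem_sphere_iff_norm.1 hz₁]
  generalize ‖A.eval z₁ + B.eval z₁ * s z₁‖ = V₁ at m1 eV
  generalize hV₂ : ‖A.eval z₀ - B.eval z₀ * s z₀‖ = V₂ at m2
  have hV₁ : 0 < V₁ := by rw [eV]; positivity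
  have hle : V₁ ≤ V₂ := by
    by_contra hc
    have g := ardouble_grow hr h1 h2 h3 hb hsb A B hA hB hV₁.le m1
      fun z hz => (m2 z hz).trans (not_le.1 hc).le
    have g1 := ar_max (ψ := χ) (a := a) (M := 3 * ((d : ℝ) + 1) * 10 ^ d * V₁ / (10 * r) ^ N)
      (by positivity) h3 hχ (fun z hz => by
        have g2 := (norm_add_le _ _).trans (g z (sphere_subset_closedBall hz))
        rw [e1 z (sphere_subset_ball h3 hz), norm_mul, norm_pow, mem_sphere_iff_norm.1 hz] at g2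
        rwa [le_div_iff₀ (by positivity), mul_comm]) z₁
      (closedBall_subset_closedBall (by linarith) (sphere_subset_closedBall hz₁))
    rw [le_div_iff₀ (by positivity)] at g1
    have g3 : 5 ^ N * V₁ ≤ ‖χ z₁‖ * (10 * r) ^ N := by
      rw [eV, ← mul_assoc, ← mul_pow, mul_comm]
      exact mul_le_mul_of_nonneg_left (pow_le_pow_left₀ (by positivity) (by linarith) N) hχ1.le
    exact (mul_lt_mul_of_pos_right hN hV₁).not_ge (g3.trans g1)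
  have hV₂' : 0 < V₂ := hV₁.trans_le hle
  have g := ardouble_grow hr h1 h2 h3 hb hsb A B hA hB hV₂'.le
    (fun z hz => (m1 z hz).trans hle) m2
  have hd0 : dist z₀ a = ρ := hz₀
  have hd1 : dist z₁ a = ρ := hz₁
  have hball : ball z₀ (ρ' - 2 * r) ⊆ ball a ρ' := ball_subset_ball' (by linarith)
  have low := ar_low m (z₀ := z₀) (z := z₁) (R := 8 * r) (R' := ρ' - 2 * r)
    (M := 3 * ((d : ℝ) + 1) * 10 ^ d * V₂) (by positivity) (by linarith) (d2.mono hball)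
    (hχ.mono hball) p hp hm (fun w hw => e2 w (hball hw))
    (fun w hw => (norm_sub_le _ _).trans (g w
      (closedBall_subset_closedBall' (by linarith) (sphere_subset_closedBall hw))))
    (by
      have := dist_triangle_right z₁ z₀ a
      rw [dist_eq_norm] at this
      linarith) hη hη1 fun ζ hζ => hfar ζ hζ z₁ hz₁
  refine ⟨V₁, V₂, z₁, hz₁, m1, m2, hV₁, hle, ?_⟩
  have e3 : V₂ / (3 * 4 ^ m * (3 * ((d : ℝ) + 1) * 10 ^ d * V₂)) =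
      (9 * 4 ^ m * ((d : ℝ) + 1) * 10 ^ d)⁻¹ := by
    field_simp
    norm_num
  rw [hV₂, e3, inv_pow, ← div_eq_mul_inv, div_le_iff₀ (by positivity)] at low
  rw [← e2 z₁ (hsub hz₁), norm_mul]
  calc V₁ * V₂ * η ^ m = V₁ * (η ^ m * V₂) := by ring
    _ ≤ V₁ * (‖A.eval z₁ - B.eval z₁ * s z₁‖ * (9 * 4 ^ m * ((d : ℝ) + 1) * 10 ^ d) ^ 4) :=
      mul_le_mul_of_nonneg_left low hV₁.le
    _ = _ := by rw [eV]; ring

end Pool.Agent.Lib.MP_830c64_nt
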