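import Pool.Agent.Lib.MP_830c64_nt.ArRem
import Pool.Agent.Lib.MP_830c64_nt.ArDouble

namespace Pool.Agent.Lib.MP_830c64_nt

open Polynomial Metric
open scoped Classical

variable {k : Type*} [Field k] [CharZero k] [IsAlgClosed k] {f : k[X]} {g : ℕ}
  {v : AbsoluteValue k ℝ} {ι : k →+* ℂ}

/-- Evaluation at a complex point of the curve. -/
noncomputable def arcore_ev (ι : k →+* ℂ) (f : k[X]) {z w : ℂ} (hw : w ^ 2 = (f.map ι).eval z) :
    CR f →+* ℂ where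
  toFun φ := (φ.re.map ι).eval z + (φ.im.map ι).eval z * w
  map_one' := by simp [QuadraticAlgebra.re_one, QuadraticAlgebra.im_one]
  map_mul' φ ψ := by
    simp only [QuadraticAlgebra.re_mul, QuadraticAlgebra.im_mul, Polynomial.map_add,
      Polynomial.map_mul, Polynomial.map_zero, eval_add, eval_mul, eval_zero]
    rw [← hw]
    ring
  map_zero' := by simp
  map_add' φ ψ := by
    simp only [QuadraticAlgebra.re_add, QuadraticAlgebra.im_add, Polynomial.map_add, eval_add]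
    ring

theorem arcore_ev_def {z w : ℂ} (hw : w ^ 2 = (f.map ι).eval z) (φ : CR f) :
    arcore_ev ι f hw φ = (φ.re.map ι).eval z + (φ.im.map ι).eval z * w := rfl

theorem arcore_strip {z w : ℂ} (hw : w ^ 2 = (f.map ι).eval z) {P : Pt f} {N : ℕ} {φ ψ : CR f}
    (e : pol f ((X - C P.x) ^ N) * ψ = φ * yy f (C P.y) ^ N) :
    (z - ι P.x) ^ N * ((ψ.re.map ι).eval z + (ψ.im.map ι).eval z * w) =
      ((φ.re.map ι).eval z + (φ.im.map ι).eval z * w) * (w + ι P.y) ^ N := by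
  have h1 := congrArg (arcore_ev ι f hw) e
  rw [map_mul, map_mul, map_pow (arcore_ev ι f hw)] at h1
  simp only [arcore_ev_def, pol_re, pol_im, yy] at h1
  simpa [add_comm] using h1

theorem arcore_norm (h : Crv f g) {z w : ℂ} (hw : w ^ 2 = (f.map ι).eval z) {P : Pt f} {N : ℕ}
    {φ ψ : CR f} {F : Multiset (Pt f)} (hφ : φ ≠ 0) (hd : dv φ = Multiset.replicate N P + F)
    (e : pol f ((X - C P.x) ^ N) * ψ = φ * yy f (C P.y) ^ N) :
    ((φ.re.map ι).eval z - (φ.im.map ι).eval z * w) *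
      ((ψ.re.map ι).eval z + (ψ.im.map ι).eval z * w) =
      ((C (nm φ).leadingCoeff * aD F).map ι).eval z * (w + ι P.y) ^ N := by
  have h1 : nm φ = (X - C P.x) ^ N * (C (nm φ).leadingCoeff * aD F) := by
    have h2 : aD (Multiset.replicate N P) = (X - C P.x) ^ N := by simp [aD]
    have h3 := nm_eq_prod h hφ
    rw [hd, aD_add, h2] at h3
    rw [mul_left_comm]
    exact h3
  have h2 : star φ * ψ = pol f (C (nm φ).leadingCoeff * aD F) * yy f (C P.y) ^ N := by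
    refine pol_cancel (pow_ne_zero N (X_sub_C_ne_zero P.x)) ?_
    rw [mul_left_comm, e, ← mul_assoc, mul_comm (star φ), mul_star_eq, ← mul_assoc, ← map_mul,
      ← h1]
  have h3 := congrArg (arcore_ev ι f hw) h2
  rw [map_mul, map_mul, map_pow (arcore_ev ι f hw)] at h3
  simp only [arcore_ev_def, pol_re, pol_im, yy, star_re, star_im] at h3
  simpa [add_comm, sub_eq_add_neg] using h3

theorem arcore_eval (c : k) (F : Multiset (Pt f)) (z : ℂ) :
    ((C c * aD F).map ι).eval z = ι c * (F.map fun R => z - ι R.x).prod := by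
  simp [aD, Polynomial.map_multiset_prod, eval_multiset_prod]

theorem arcore_mono {Q : Pt f} (hQ : Q.y ≠ 0) {c c' : ℝ} (hc : 1 ≤ c) (hcc : c ≤ c')
    (F : Multiset (Pt f)) : (F.map fun R => c * ww v Q R / mu v Q R).prod ≤
      (F.map fun R => c' * ww v Q R / mu v Q R).prod := by
  refine Multiset.prod_map_le_prod_map₀ _ _ (fun R _ => ?_) fun R _ => ?_
  · have h1 := one_le_ww (v := v) Q R
    have h2 := mu_pos (v := v) hQ R
    positivity
  · have h1 := one_le_ww (v := v) Q R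
    have h2 := mu_pos (v := v) hQ R
    gcongr

theorem arcore_nonneg {Q : Pt f} (hQ : Q.y ≠ 0) {c : ℝ} (hc : 1 ≤ c)
    (F : Multiset (Pt f)) : 0 ≤ (F.map fun R => c * ww v Q R / mu v Q R).prod := by
  refine Multiset.prod_map_nonneg fun R _ => ?_
  have h1 := one_le_ww (v := v) Q R
  have h2 := mu_pos (v := v) hQ R
  positivity

theorem arcore_two (d : ℕ) : ((d : ℝ) + 1) * 10 ^ d ≤ 20 ^ d := by
  have h1 : (d : ℝ) + 1 ≤ 2 ^ d := by exact_mod_cast Nat.lt_two_pow_self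
  calc ((d : ℝ) + 1) * 10 ^ d ≤ 2 ^ d * 10 ^ d := by gcongr
    _ = 20 ^ d := by rw [← mul_pow]; norm_num

theorem arcore_N (g : ℕ) : ∃ N₀ : ℕ, ∀ N d : ℕ, N₀ ≤ N → 2 * d ≤ N + g →
    3 * ((d : ℝ) + 1) * 10 ^ d < 5 ^ N := by
  obtain ⟨N₀, hN₀⟩ := pow_unbounded_of_one_lt (9 * 20 ^ g : ℝ) (y := 5 / 4) (by norm_num)
  refine ⟨N₀, fun N d hN hd => ?_⟩
  have h1 : (9 * 20 ^ g : ℝ) < (5 / 4) ^ N :=
    hN₀.trans_le (pow_le_pow_right₀ (by norm_num) hN)
  have h2 : (3 * 20 ^ d : ℝ) ^ 2 < (5 ^ N) ^ 2 :=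
    calc (3 * 20 ^ d : ℝ) ^ 2 = 9 * 20 ^ (2 * d) := by rw [mul_pow, ← pow_mul, mul_comm d]; norm_num
      _ ≤ 9 * 20 ^ (N + g) := by gcongr; norm_num
      _ = 9 * 20 ^ g * 20 ^ N := by rw [pow_add]; ring
      _ < (5 / 4) ^ N * 20 ^ N := by gcongr
      _ = (5 ^ N) ^ 2 := by rw [← mul_pow, ← pow_mul, mul_comm N, pow_mul]; norm_num
  have h3 : (3 * 20 ^ d : ℝ) < 5 ^ N := lt_of_pow_lt_pow_left₀ 2 (by positivity) h2
  have h4 := arcore_two d
  nlinarith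

theorem arcore_prod {P : Pt f} (hv : ∀ z, v z = ‖ι z‖) {r ρ : ℝ} (hr : 0 < r) (h2 : ρ ≤ 2 * r)
    {z : ℂ} (hz : z ∈ sphere (ι P.x) ρ) (F : Multiset (Pt f)) :
    ‖(F.map fun R => z - ι R.x).prod‖ ≤
      3 ^ F.card * (F.map fun R => max r (v (R.x - P.x))).prod := by
  induction F using Multiset.induction_on with
  | empty => simp
  | cons R F ih =>
    rw [Multiset.map_cons, Multiset.map_cons, Multiset.prod_cons, Multiset.prod_cons,
      Multiset.card_cons, norm_mul, pow_succ]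
    have h3 : ‖z - ι R.x‖ ≤ 3 * max r (v (R.x - P.x)) := by
      have h4 := norm_sub_le (z - ι P.x) (ι R.x - ι P.x)
      rw [sub_sub_sub_cancel_right, mem_sphere_iff_norm.1 hz, ← map_sub, ← hv] at h4
      have h5 := le_max_left r (v (R.x - P.x))
      have h6 := le_max_right r (v (R.x - P.x))
      linarith
    have h4 : 0 ≤ 3 * max r (v (R.x - P.x)) := (norm_nonneg _).trans h3
    calc _ ≤ 3 * max r (v (R.x - P.x)) *
          (3 ^ F.card * (F.map fun R => max r (v (R.x - P.x))).prod) := by gcongr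
      _ = _ := by ring

theorem arcore_sign {s b y : ℂ} (hb : b ≠ 0) (h1 : s ^ 2 = y ^ 2) (h2 : ‖s - b‖ ≤ 3 / 10 * ‖b‖)
    (h3 : 0 < (y / b).re) : s = y := by
  refine (sq_eq_sq_iff_eq_or_eq_neg.1 h1).resolve_right fun h4 => ?_
  have h5 : ‖y / b + 1‖ ≤ 3 / 10 := by
    have h6 : y / b + 1 = -(s - b) / b := by
      rw [h4]
      field_simp
      ring
    rw [h6, norm_div, norm_neg, div_le_iff₀ (norm_pos_iff.2 hb)]
    exact h2
  have h6 := Complex.re_le_norm (y / b + 1)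
  rw [Complex.add_re, Complex.one_re] at h6
  linarith

theorem arcore_near {s b : ℂ} (h2 : ‖s - b‖ ≤ 3 / 10 * ‖b‖) :
    17 / 10 * ‖b‖ ≤ ‖s + b‖ ∧ ‖s + b‖ ≤ 23 / 10 * ‖b‖ ∧ ‖s‖ ≤ 13 / 10 * ‖b‖ := by
  have h3 : ‖2 * b‖ = 2 * ‖b‖ := by simp
  have h4 := norm_sub_le (s + b) (s - b)
  have h5 := norm_add_le (s - b) (2 * b)
  have h6 := norm_add_le (s - b) b
  rw [show s + b - (s - b) = 2 * b by ring] at h4
  rw [show s - b + 2 * b = s + b by ring] at h5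
  rw [sub_add_cancel] at h6
  exact ⟨by linarith, by linarith, by linarith⟩

/-- The analytic content of the archimedean bound. Let `n = 2 g + 1`, `r = δ / (50 n)`,
`ρ' = δ / (4 n)`, `s` from `ar_sqrt`; `s (ι Q.x) = ι Q.y` by the sign condition. Given `φ` and `F`
take `ρ` from `ar_radius`, `ψ` from `exists_strip`, `χ = ψ₊ / (s + b) ^ N`,
`p = (C lc * aD F).map ι`, `d = (N + g) / 2`, `η = 1 / (16 (g + 1))` in `ar_double`. Apply `ar_rem`
to `ψ` at `Q` (on the sphere `‖ψ₊‖ ≤ V₁ (2.3 ‖b‖ / r) ^ N`, and `‖ι (Q.y + P.y)‖ ≥ 1.7 ‖b‖`,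
`v (Q.x - P.x) ≤ r / 20`) and to `φ` at `P.inv` with the branch `-s`. Finally
`(d + 1) ^ 4 10 ^ (4 d) ≤ 20 ^ (2 N + 2 g)`, `ρ ^ N ≤ (2 r) ^ N`, and
`‖z₁ - ι R.x‖ ≤ 3 * max r (v (R.x - P.x))`. -/
theorem ar_core (h : Crv f g) (hv : ∀ z, v z = ‖ι z‖) {P Q : Pt f} (hP : P.y ≠ 0) (hQ : Q.y ≠ 0)
    (hx : Q.x ≠ P.x) {δ : ℝ} (hδ : 0 < δ) (hfar : ∀ z ∈ f.roots, δ ≤ v (P.x - z))
    (hQx : v (Q.x - P.x) ≤ δ / (1000 * (2 * g + 1))) (hs : 0 < (ι Q.y / ι P.y).re) :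
    ∃ (c' c₁ : ℝ) (N₀ : ℕ), 1 ≤ c' ∧ 0 < c₁ ∧ ∀ (N : ℕ) (φ : CR f) (F : Multiset (Pt f)), N₀ ≤ N →
      φ ≠ 0 → dv φ = Multiset.replicate N P + F → F.card ≤ g →
      ∃ V₁ V₂ : ℝ, 0 < V₁ ∧ V₁ ≤ V₂ ∧
        v (lead Q φ) ≤ V₁ * (1 / 10) ^ N * (F.map fun R => c' * ww v Q R / mu v Q R).prod ∧
        v (lead P.inv φ) ≤ V₂ * (F.map fun R => c' * ww v P.inv R / mu v P.inv R).prod ∧
        V₁ * V₂ ≤ c₁ * (16 * δ / (2 * g + 1)) ^ N * v (nm φ).leadingCoeff *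
          (F.map fun R => max (δ / (50 * (2 * g + 1))) (v (R.x - P.x))).prod := by
  have hn : (f.map ι).natDegree = 2 * g + 1 := by rw [natDegree_map, h.deg]
  have hb : ι P.y ≠ 0 := (map_ne_zero ι).2 hP
  have hb' : 0 < ‖ι P.y‖ := norm_pos_iff.2 hb
  have hon : ∀ R : Pt f, ι R.y ^ 2 = (f.map ι).eval (ι R.x) := fun R => by
    rw [← map_pow, R.on, eval_map, eval₂_at_apply]
  obtain ⟨s, hsd, hsa, hs2⟩ := ar_sqrt (f.map ι) (h.monic.map ι) (by omega) (ι P.x) (ι P.y) hδ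
    (hon P) (fun z hz => by
      rw [(IsAlgClosed.splits f).roots_map] at hz
      obtain ⟨w, hw, rfl⟩ := Multiset.mem_map.1 hz
      rw [← map_sub, ← hv]
      exact hfar w hw)
  rw [hn] at hsd hs2
  push_cast at hsd hs2
  have hn0 : (0 : ℝ) < 2 * g + 1 := by positivity
  obtain ⟨r, hrd⟩ : ∃ r : ℝ, r = δ / (50 * (2 * g + 1)) := ⟨_, rfl⟩
  have hr : 0 < r := by rw [hrd]; positivity
  have e1 : δ / (4 * (2 * g + 1)) = 25 / 2 * r := by rw [hrd]; field_simp; norm_num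
  have e2 : δ / (1000 * (2 * g + 1)) = r / 20 := by rw [hrd]; field_simp; norm_num
  have e3 : 16 * δ / (2 * g + 1) = 800 * r := by rw [hrd]; field_simp; norm_num
  rw [e1] at hsd hs2
  rw [e2] at hQx
  rw [e3, ← hrd]
  have hQb : ι Q.x ∈ ball (ι P.x) (25 / 2 * r) := by
    rw [mem_ball_iff_norm, ← map_sub, ← hv]
    linarith
  have hsQ : s (ι Q.x) = ι Q.y :=
    arcore_sign hb ((hs2 _ hQb).1.trans (hon Q).symm) (hs2 _ hQb).2 hs
  have hQP : 17 / 10 * ‖ι P.y‖ ≤ v (Q.y + P.y) := by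
    rw [hv, map_add, ← hsQ]
    exact (arcore_near (hs2 _ hQb).2).1
  have hy : Q.y + P.y ≠ 0 := fun h0 => by
    rw [h0, map_zero] at hQP
    linarith
  have hPi : P.inv.y ≠ 0 := neg_ne_zero.2 hP
  have hη₀ : 0 < r / (2 * ((g : ℝ) + 1)) := by positivity
  obtain ⟨c₁, hc₁, H₁⟩ := ar_rem h hv P.x (13 / 10 * ‖ι P.y‖) hr hη₀ hQ (by linarith)
  obtain ⟨c₂, hc₂, H₂⟩ := ar_rem h hv P.x (13 / 10 * ‖ι P.y‖) hr hη₀ hPi (by
    rw [show P.inv.x = P.x from rfl, sub_self, map_zero]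
    exact hr.le)
  obtain ⟨N₀, hN₀⟩ := arcore_N g
  obtain ⟨η, hηd⟩ : ∃ η : ℝ, η = 1 / (16 * ((g : ℝ) + 1)) := ⟨_, rfl⟩
  have hη : 0 < η := by rw [hηd]; positivity
  have hη1 : η ≤ 1 := by
    rw [hηd, div_le_one (by positivity)]
    have : (0 : ℝ) ≤ g := Nat.cast_nonneg g
    linarith
  have e4 : η * (8 * r) = r / (2 * ((g : ℝ) + 1)) := by rw [hηd]; field_simp; norm_num
  refine ⟨max c₁ c₂, (9 * 4 ^ g) ^ 4 * 400 ^ g * 3 ^ g / η ^ g, N₀, le_max_of_le_left hc₁,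
    by positivity, fun N φ F hN hφ hd hF => ?_⟩
  obtain ⟨ρ, h1, h2, hρ⟩ := ar_radius (F.map fun R => ι R.x) (m := g) (by simpa using hF)
    (ι P.x) hr
  have hρ' : ∀ R ∈ F, ∀ z ∈ sphere (ι P.x) ρ, r / (2 * ((g : ℝ) + 1)) ≤ ‖z - ι R.x‖ :=
    fun R hR => hρ _ (Multiset.mem_map_of_mem _ hR)
  have h3 : ρ < 25 / 2 * r := by linarith
  have hsub : sphere (ι P.x) ρ ⊆ ball (ι P.x) (25 / 2 * r) := sphere_subset_ball h3
  obtain ⟨ψ, hψ, e, hFψ, hcQ, hl⟩ := exists_strip h hP hQ hx hy hφ hd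
  have hwt : wt φ ≤ N + g := by
    rw [← card_dv h hφ, hd, Multiset.card_add, Multiset.card_replicate]
    omega
  have hre := wt_re h φ
  have him := wt_im' h φ
  have hlc : (nm φ).leadingCoeff ≠ 0 := leadingCoeff_ne_zero.2 (nm_ne_zero h hφ)
  have hsb : ∀ z ∈ ball (ι P.x) (25 / 2 * r), s z + ι P.y ≠ 0 := fun z hz h0 => by
    have := (arcore_near (hs2 z hz).2).1
    rw [h0, norm_zero] at this
    linarith
  have hd2 : 2 * ((N + g) / 2) ≤ N + g := Nat.mul_div_le _ _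
  obtain ⟨V₁, V₂, z₁, hz₁, hV₁, hV₂, hV0, hV, hVV⟩ := ar_double
    (χ := fun z => ((ψ.re.map ι).eval z + (ψ.im.map ι).eval z * s z) / (s z + ι P.y) ^ N)
    (η := η) hr h1 h2 (by linarith) hsd hb (fun z hz => (hs2 z hz).2) (φ.re.map ι) (φ.im.map ι)
    ((C (nm φ).leadingCoeff * aD F).map ι) (d := (N + g) / 2) (m := g) (N := N)
    (by rw [natDegree_map]; omega) (by rw [natDegree_map]; omega)
    (((Polynomial.differentiable _).differentiableOn.add
      ((Polynomial.differentiable _).differentiableOn.mul hsd)).div ((hsd.add_const _).pow N)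
      fun z hz => pow_ne_zero N (hsb z hz))
    (fun z hz => by
      rw [← mul_div_assoc, arcore_strip (hs2 z hz).1 e,
        mul_div_cancel_right₀ _ (pow_ne_zero N (hsb z hz))])
    (fun z hz => by
      rw [← mul_div_assoc, arcore_norm h (hs2 z hz).1 hφ hd e,
        mul_div_cancel_right₀ _ (pow_ne_zero N (hsb z hz))])
    ((Polynomial.map_ne_zero_iff ι.injective).2
      (mul_ne_zero (C_ne_zero.2 hlc) (aD_monic F).ne_zero))
    (by rw [natDegree_map, natDegree_C_mul hlc, aD_natDegree]; exact hF) hη hη1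
    (fun ζ hζ z hz => by
      have h4 := isRoot_of_mem_roots hζ
      rw [IsRoot.def, arcore_eval, mul_eq_zero, Multiset.prod_eq_zero_iff] at h4
      obtain ⟨R, hR, h5⟩ := Multiset.mem_map.1 (h4.resolve_left ((map_ne_zero ι).2 hlc))
      rw [e4, sub_eq_zero.1 h5]
      exact hρ' R hR z hz)
    (hN₀ N _ hN hd2)
  refine ⟨V₁, V₂, hV0, hV, ?_, ?_, ?_⟩
  · have h4 := H₁ ρ (25 / 2 * r) (V₁ * (23 / 10 * ‖ι P.y‖ / r) ^ N) s ψ F h1 h2 h3 hsd
      (fun z hz => ⟨(hs2 z hz).1, (arcore_near (hs2 z hz).2).2.2⟩) hsQ hψ hFψ hcQ hρ'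
      (fun z hz => by
        have h5 := congrArg norm (arcore_strip (hs2 z (hsub hz)).1 e)
        rw [norm_mul, norm_mul, norm_pow, norm_pow, mem_sphere_iff_norm.1 hz] at h5
        have h6 := (arcore_near (hs2 z (hsub hz)).2).2.1
        have h7 := hV₁ z hz
        rw [div_pow, ← mul_div_assoc, le_div_iff₀ (pow_pos hr N), mul_comm]
        refine le_trans ?_ (h5.le.trans ?_) <;> gcongr)
    have h5 := congrArg v hl
    rw [map_mul, map_mul, map_pow, map_pow] at h5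
    have h6 := arcore_mono (v := v) hQ hc₁ (le_max_left c₁ c₂) F
    have h7 := arcore_nonneg (v := v) hQ hc₁ F
    have h8 : (23 / 10 * ‖ι P.y‖ / r) ^ N * (r / 20) ^ N ≤
        (1 / 10) ^ N * (17 / 10 * ‖ι P.y‖) ^ N := by
      rw [← mul_pow, ← mul_pow]
      refine pow_le_pow_left₀ (by positivity) ?_ N
      have : 23 / 10 * ‖ι P.y‖ / r * (r / 20) = 23 / 200 * ‖ι P.y‖ := by field_simp; norm_num
      rw [this]
      linarith
    refine le_of_mul_le_mul_right ?_ (pow_pos (show 0 < 17 / 10 * ‖ι P.y‖ by positivity) N)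
    generalize (F.map fun R => c₁ * ww v Q R / mu v Q R).prod = W₁ at h4 h6 h7
    generalize (F.map fun R => max c₁ c₂ * ww v Q R / mu v Q R).prod = W₂ at h6
    have h9 := v.nonneg (lead Q φ)
    have h10 := v.nonneg (Q.x - P.x)
    calc v (lead Q φ) * (17 / 10 * ‖ι P.y‖) ^ N ≤ v (lead Q φ) * v (Q.y + P.y) ^ N := by gcongr
      _ = v (lead Q ψ) * v (Q.x - P.x) ^ N := h5.symm
      _ ≤ V₁ * (23 / 10 * ‖ι P.y‖ / r) ^ N * W₁ * (r / 20) ^ N := by gcongr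
      _ = V₁ * ((23 / 10 * ‖ι P.y‖ / r) ^ N * (r / 20) ^ N) * W₁ := by ring
      _ ≤ V₁ * ((1 / 10) ^ N * (17 / 10 * ‖ι P.y‖) ^ N) * W₂ := by gcongr
      _ = _ := by ring
  · have h4 := H₂ ρ (25 / 2 * r) V₂ (fun z => -s z) φ F h1 h2 h3 hsd.neg
      (fun z hz => ⟨(neg_sq _).trans (hs2 z hz).1,
        (norm_neg _).trans_le (arcore_near (hs2 z hz).2).2.2⟩)
      (by rw [show P.inv.x = P.x from rfl, show P.inv.y = -P.y from rfl, hsa, map_neg]) hφ
      (hd ▸ Multiset.le_add_left _ _)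
      (by
        rw [← count_dv h hφ, hd, Multiset.count_add,
          Multiset.count_eq_zero.2 fun h0 => inv_ne hP (Multiset.eq_of_mem_replicate h0), zero_add])
      hρ' (fun z hz => by
        rw [mul_neg, ← sub_eq_add_neg]
        exact hV₂ z hz)
    exact h4.trans (mul_le_mul_of_nonneg_left (arcore_mono hPi hc₂ (le_max_right c₁ c₂) F)
      (hV0.le.trans hV))
  · rw [arcore_eval, norm_mul, ← hv] at hVV
    have h4 := arcore_prod hv hr h2 hz₁ F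
    have h5 : 0 ≤ (F.map fun R => max r (v (R.x - P.x))).prod :=
      Multiset.prod_map_nonneg fun R _ => le_max_of_le_left hr.le
    generalize (F.map fun R => max r (v (R.x - P.x))).prod = W at h4 h5
    have h10 := norm_nonneg (F.map fun R => z₁ - ι R.x).prod
    generalize ‖(F.map fun R => z₁ - ι R.x).prod‖ = W' at h4 hVV h10
    have h6 : W' ≤ 3 ^ g * W := h4.trans (by gcongr; norm_num)
    have h7 : ((((N + g) / 2 : ℕ) + 1 : ℝ) * 10 ^ ((N + g) / 2)) ^ 4 ≤ 400 ^ N * 400 ^ g :=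
      calc _ ≤ ((20 : ℝ) ^ ((N + g) / 2)) ^ 4 := by gcongr; exact arcore_two _
        _ = 400 ^ (2 * ((N + g) / 2)) := by
          rw [← pow_mul, show (400 : ℝ) = 20 ^ 2 by norm_num, ← pow_mul]
          congr 1
          ring
        _ ≤ 400 ^ (N + g) := by gcongr; norm_num
        _ = _ := pow_add _ _ _
    have h8 := v.nonneg (nm φ).leadingCoeff
    have h9 : (0 : ℝ) ≤ ρ := hr.le.trans h1
    refine le_of_mul_le_mul_right ?_ (pow_pos hη g)
    calc V₁ * V₂ * η ^ g ≤ _ := hVV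
      _ = (9 * 4 ^ g) ^ 4 * ((((N + g) / 2 : ℕ) + 1 : ℝ) * 10 ^ ((N + g) / 2)) ^ 4 * ρ ^ N *
          (v (nm φ).leadingCoeff * W') := by ring
      _ ≤ (9 * 4 ^ g) ^ 4 * (400 ^ N * 400 ^ g) * (2 * r) ^ N *
          (v (nm φ).leadingCoeff * (3 ^ g * W)) := by gcongr
      _ = _ := by
        rw [show 800 * r = 400 * (2 * r) by ring, mul_pow 400]
        field_simp

end Pool.Agent.Lib.MP_830c64_nt
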