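import Pool.Agent.Lib.MP_830c64_nt.ArSqrt

namespace Pool.Agent.Lib.MP_830c64_nt

open Polynomial Metric

/-- Harnack bound for a function without zeros: take a primitive of `G' / G`
(`DifferentiableOn.isExactOn_ball`) vanishing at the centre, so `G = G z₀ * exp L`, and apply
`Complex.borelCaratheodory_zero` to `L` on the ball of radius `3 R / 4`. -/
theorem ar_harnack {G : ℂ → ℂ} {z₀ z : ℂ} {R M : ℝ} (hR : 0 < R)
    (hG : DifferentiableOn ℂ G (ball z₀ (3 * R / 4))) (h0 : ∀ w ∈ ball z₀ (3 * R / 4), G w ≠ 0)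
    (hM : ∀ w ∈ ball z₀ (3 * R / 4), ‖G w‖ ≤ M) (hz : ‖z - z₀‖ ≤ R / 2) :
    ‖G z₀‖ * (‖G z₀‖ / (3 * M)) ^ 4 ≤ ‖G z‖ := by
  have hr : 0 < 3 * R / 4 := by positivity
  have hz₀ : z₀ ∈ ball z₀ (3 * R / 4) := mem_ball_self hr
  have ha : 0 < ‖G z₀‖ := norm_pos_iff.2 (h0 z₀ hz₀)
  have haM := hM z₀ hz₀
  have hM0 : 0 < M := ha.trans_le haM
  obtain ⟨L, hL0, hL⟩ :=
    (((hG.deriv isOpen_ball).div hG h0).isExactOn_ball).with_val_at z₀ 0
  have hd : ∀ w ∈ ball z₀ (3 * R / 4),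
      HasDerivAt (fun u => G u * Complex.exp (-L u)) 0 w := by
    intro w hw
    have h1 := (hG.differentiableAt (isOpen_ball.mem_nhds hw)).hasDerivAt
    have h2 := h1.mul (hL w hw).neg.cexp
    have h3 := h0 w hw
    refine h2.congr_deriv ?_
    simp only [Pi.div_apply, Pi.neg_apply]
    field_simp
    ring
  have hc : ∀ w ∈ ball z₀ (3 * R / 4), ‖G w‖ = ‖G z₀‖ * Real.exp (L w).re := by
    intro w hw
    have h1 : G w * Complex.exp (-L w) = G z₀ * Complex.exp (-L z₀) :=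
      isOpen_ball.is_const_of_deriv_eq_zero (convex_ball _ _).isPreconnected
        (fun u hu => (hd u hu).differentiableAt.differentiableWithinAt)
        (fun u hu => (hd u hu).deriv) hw hz₀
    rw [hL0, neg_zero, Complex.exp_zero, mul_one] at h1
    rw [← h1, norm_mul, Complex.norm_exp, mul_assoc, ← Real.exp_add]
    simp
  have hq : 1 < 3 * M / ‖G z₀‖ := by
    rw [lt_div_iff₀ ha]
    linarith
  have hN : 0 < Real.log (3 * M / ‖G z₀‖) := Real.log_pos hq
  have hmem : ∀ u ∈ ball (0 : ℂ) (3 * R / 4), z₀ + u ∈ ball z₀ (3 * R / 4) := by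
    intro u hu
    simpa [mem_ball, dist_eq_norm] using hu
  have hzz : z - z₀ ∈ ball (0 : ℂ) (3 * R / 4) := by
    rw [mem_ball_zero_iff]
    linarith
  have hB := Complex.borelCaratheodory_zero (f := fun u => L (z₀ + u)) hN
    (fun u hu => ((hL _ (hmem u hu)).differentiableAt.comp u
      (by fun_prop)).differentiableWithinAt)
    (fun u hu => by
      have h1 := hM _ (hmem u hu)
      rw [hc _ (hmem u hu)] at h1
      change (L (z₀ + u)).re ≤ _
      rw [Real.le_log_iff_exp_le (by linarith), le_div_iff₀ ha]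
      linarith) hr hzz (by simpa using hL0)
  rw [add_sub_cancel] at hB
  have h4 : ‖L z‖ ≤ 4 * Real.log (3 * M / ‖G z₀‖) := by
    refine hB.trans ?_
    rw [div_le_iff₀ (by linarith)]
    nlinarith
  have h5 := (abs_le.1 ((Complex.abs_re_le_norm (L z)).trans h4)).1
  have hzb : z ∈ ball z₀ (3 * R / 4) := by simpa using hmem _ hzz
  rw [hc z hzb]
  refine mul_le_mul_of_nonneg_left (le_trans (le_of_eq ?_) (Real.exp_le_exp.2 h5)) ha.le
  rw [Real.exp_neg, show 4 * Real.log (3 * M / ‖G z₀‖) = (4 : ℕ) * Real.log (3 * M / ‖G z₀‖) by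
    norm_num, Real.exp_nat_mul, Real.exp_log (by linarith), ← inv_pow, inv_div]

/-- Induction on `m`. If `ψ` has no zero in the ball of radius `3 R / 4` use `ar_harnack`.
Otherwise `ψ ζ = 0`, so `p = (X - C ζ) * p₁`, `ψ w = (w - ζ) * ψ₁ w` with `ψ₁ = dslope ψ ζ`
(`Complex.differentiableOn_dslope`), `ψ₁ * χ = p₁` (at `ζ` by continuity),
`‖ψ₁‖ ≤ 4 M / R` on the sphere, `‖ψ₁ z₀‖ ≥ ‖ψ z₀‖ / R`, `‖ψ z‖ ≥ η R ‖ψ₁ z‖`. -/
theorem ar_low (m : ℕ) {ψ χ : ℂ → ℂ} {z₀ z : ℂ} {R R' M η : ℝ} (hR : 0 < R) (hR' : R < R')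
    (hψ : DifferentiableOn ℂ ψ (ball z₀ R')) (hχ : DifferentiableOn ℂ χ (ball z₀ R'))
    (p : ℂ[X]) (hp : p ≠ 0) (hm : p.natDegree ≤ m) (he : ∀ w ∈ ball z₀ R', ψ w * χ w = p.eval w)
    (hM : ∀ w ∈ sphere z₀ R, ‖ψ w‖ ≤ M) (hz : ‖z - z₀‖ ≤ R / 2) (hη : 0 < η) (hη1 : η ≤ 1)
    (hfar : ∀ ζ ∈ p.roots, η * R ≤ ‖z - ζ‖) :
    η ^ m * ‖ψ z₀‖ * (‖ψ z₀‖ / (3 * 4 ^ m * M)) ^ 4 ≤ ‖ψ z‖ := by
  induction m generalizing ψ p M with
  | zero =>
    have hmax := ar_max hR hR' hψ hM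
    have hsub : ball z₀ (3 * R / 4) ⊆ ball z₀ R := ball_subset_ball (by linarith)
    have := ar_harnack hR (hψ.mono (hsub.trans (ball_subset_ball hR'.le))) (fun w hw h => by
      have h1 := he w (ball_subset_ball hR'.le (hsub hw))
      rw [h, zero_mul, eq_C_of_natDegree_le_zero hm, eval_C] at h1
      exact hp (by rw [eq_C_of_natDegree_le_zero hm, ← h1, map_zero]))
      (fun w hw => hmax w (ball_subset_closedBall (hsub hw))) hz
    simpa using this
  | succ m ih =>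
    have hmax := ar_max hR hR' hψ hM
    have hsub : ball z₀ (3 * R / 4) ⊆ ball z₀ R := ball_subset_ball (by linarith)
    have hM0 : 0 ≤ M := (norm_nonneg _).trans (hmax z₀ (mem_closedBall_self hR.le))
    by_cases h0 : ∀ w ∈ ball z₀ (3 * R / 4), ψ w ≠ 0
    · have hp0 : 0 < ‖ψ z₀‖ := norm_pos_iff.2 (h0 z₀ (mem_ball_self (by positivity)))
      have hM1 : 0 < M := hp0.trans_le (hmax z₀ (mem_closedBall_self hR.le))
      refine le_trans ?_ (ar_harnack hR (hψ.mono (hsub.trans (ball_subset_ball hR'.le))) h0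
        (fun w hw => hmax w (ball_subset_closedBall (hsub hw))) hz)
      have h1 : η ^ (m + 1) ≤ 1 := pow_le_one₀ hη.le hη1
      have h2 : (1 : ℝ) ≤ 4 ^ (m + 1) := one_le_pow₀ (by norm_num)
      refine mul_le_mul (mul_le_of_le_one_left hp0.le h1) ?_ (by positivity) hp0.le
      gcongr
      nlinarith
    push Not at h0
    obtain ⟨ζ, hζ, hψζ⟩ := h0
    have hζ' : ζ ∈ ball z₀ R' := ball_subset_ball hR'.le (hsub hζ)
    have hroot : p.IsRoot ζ := by
      have h1 := he ζ hζ'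
      rw [hψζ, zero_mul] at h1
      exact h1.symm
    obtain ⟨q, rfl⟩ := dvd_iff_isRoot.2 hroot
    have hq : q ≠ 0 := right_ne_zero_of_mul hp
    have hqm : q.natDegree ≤ m := by
      rw [natDegree_mul (X_sub_C_ne_zero ζ) hq, natDegree_X_sub_C] at hm
      omega
    have hn : ball z₀ R' ∈ nhds ζ := isOpen_ball.mem_nhds hζ'
    have hψ₁ : DifferentiableOn ℂ (dslope ψ ζ) (ball z₀ R') :=
      (Complex.differentiableOn_dslope hn).2 hψ
    have e1 : ∀ w, ψ w = (w - ζ) * dslope ψ ζ w := fun w => by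
      have := sub_smul_dslope ψ ζ w
      rw [hψζ, sub_zero, smul_eq_mul] at this
      exact this.symm
    have e2 : ∀ w ∈ ball z₀ R', w ≠ ζ → dslope ψ ζ w * χ w = q.eval w := fun w hw hne => by
      have h1 := he w hw
      rw [e1 w, eval_mul, eval_sub, eval_X, eval_C, mul_assoc] at h1
      exact mul_left_cancel₀ (sub_ne_zero.2 hne) h1
    have e3 : ∀ w ∈ ball z₀ R', dslope ψ ζ w * χ w = q.eval w := fun w hw => by
      by_cases hne : w = ζ
      · subst hne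
        have c1 : ContinuousAt (fun u => dslope ψ w u * χ u) w :=
          ((hψ₁.mul hχ).differentiableAt hn).continuousAt
        have c2 : ContinuousAt (fun u => q.eval u) w := q.continuous.continuousAt
        refine tendsto_nhds_unique_of_eventuallyEq (l := nhdsWithin w {w}ᶜ)
          (c1.tendsto.mono_left nhdsWithin_le_nhds) (c2.tendsto.mono_left nhdsWithin_le_nhds) ?_
        filter_upwards [nhdsWithin_le_nhds hn, self_mem_nhdsWithin] with u hu hu'
        exact e2 u hu hu'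
      · exact e2 w hw hne
    have hζn : ‖ζ - z₀‖ < 3 * R / 4 := by rwa [mem_ball, dist_eq_norm] at hζ
    have hM₁ : ∀ w ∈ sphere z₀ R, ‖dslope ψ ζ w‖ ≤ 4 * M / R := fun w hw => by
      have h1 := hM w hw
      rw [e1 w, norm_mul] at h1
      rw [mem_sphere, dist_eq_norm] at hw
      have h2 : ‖w - z₀‖ ≤ ‖w - ζ‖ + ‖ζ - z₀‖ := norm_sub_le_norm_sub_add_norm_sub _ _ _
      rw [le_div_iff₀ hR]
      nlinarith [norm_nonneg (dslope ψ ζ w)]
    have hI := ih hψ₁ q hq hqm e3 hM₁ fun ξ hξ => hfar ξ (by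
      rw [mem_roots hp, IsRoot, eval_mul, (mem_roots hq).1 hξ, mul_zero])
    have h1 : ‖ψ z₀‖ ≤ R * ‖dslope ψ ζ z₀‖ := by
      rw [e1 z₀, norm_mul, norm_sub_rev]
      exact mul_le_mul_of_nonneg_right (by linarith) (norm_nonneg _)
    have h2 : η * R * ‖dslope ψ ζ z‖ ≤ ‖ψ z‖ := by
      rw [e1 z, norm_mul]
      exact mul_le_mul_of_nonneg_right (hfar ζ ((mem_roots hp).2 hroot)) (norm_nonneg _)
    refine le_trans ?_ ((mul_le_mul_of_nonneg_left hI (by positivity)).trans h2)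
    have e4 : ‖dslope ψ ζ z₀‖ / (3 * 4 ^ m * (4 * M / R)) =
        R * ‖dslope ψ ζ z₀‖ / (3 * 4 ^ (m + 1) * M) := by
      rcases hM0.eq_or_lt with rfl | hM1
      · simp
      · rw [pow_succ]
        field_simp
    rw [e4]
    calc _ ≤ η ^ (m + 1) * (R * ‖dslope ψ ζ z₀‖) *
          (R * ‖dslope ψ ζ z₀‖ / (3 * 4 ^ (m + 1) * M)) ^ 4 := by gcongr
      _ = _ := by ring

end Pool.Agent.Lib.MP_830c64_nt
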