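import Pool.Agent.Lib.MP_830c64_nt.NaCases

namespace Pool.Agent.Lib.MP_830c64_nt

open Polynomial
open scoped Classical

variable {k : Type*} [Field k] [CharZero k] [IsAlgClosed k] {f : k[X]} {g : ℕ}
  {v : AbsoluteValue k ℝ}

theorem nacases2_eq (hna : IsNonarchimedean v) {a b : k} (h : v (a - b) < v a) : v b = v a := by
  have h1 := hna (a - b) b
  have h2 := hna a (-(a - b))
  rw [sub_add_cancel] at h1
  rw [show a + -(a - b) = b by ring, v.map_neg, max_eq_left h.le] at h2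
  rcases le_max_iff.1 h1 with h3 | h3
  · exact absurd h (not_lt.2 h3)
  · exact le_antisymm h2 h3

theorem nacases2_pow {δ : ℝ} (hδ : 0 < δ) (x : k) (s : Multiset k) (hs : ∀ z ∈ s, δ ≤ v (x - z)) :
    δ ^ s.card ≤ (s.map fun z => v (x - z)).prod := by
  induction s using Multiset.induction_on with
  | empty => simp
  | cons z s ih =>
    rw [Multiset.card_cons, Multiset.map_cons, Multiset.prod_cons, pow_succ']
    exact mul_le_mul (hs z (Multiset.mem_cons_self _ _))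
      (ih fun w hw => hs w (Multiset.mem_cons_of_mem hw)) (by positivity) (v.nonneg _)

theorem nacases2_fin (h : Crv f g) {P Q : Pt f} {δ r : ℝ} (hr : 0 < r) (hrδ : r ≤ δ)
    (hfP : ∀ z ∈ f.roots, δ ≤ v (P.x - z))
    (hb : -sig v Q P + Real.log (v (Q.x - P.x)) + sig v P P / (2 * g) ≤
      (1 + 1 / (2 * g)) * Real.log r) : LL v P Q ≤ 0 := by
  have hδ : 0 < δ := hr.trans_le hrδ
  have hg : (0 : ℝ) < 2 * g := by
    have : (1 : ℝ) ≤ g := by exact_mod_cast h.pos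
    linarith
  have h1 := nacases2_pow (v := v) hδ P.x f.roots hfP
  rw [← v_eval_f h, roots_card h] at h1
  have h2 := Real.log_le_log (by positivity) h1
  rw [Real.log_pow] at h2
  push_cast at h2
  have h3 := Real.log_le_log hr hrδ
  have h4 : (1 + 1 / (2 * g : ℝ)) * Real.log r ≤ Real.log (v (f.eval P.x)) / (2 * g) := by
    rw [le_div_iff₀ hg]
    have : (1 + 1 / (2 * g : ℝ)) * Real.log r * (2 * g) = (2 * g + 1) * Real.log r := by
      rw [mul_right_comm, add_mul, one_mul, one_div_mul_cancel hg.ne']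
    rw [this]
    nlinarith
  rw [LL_eq h, sub_div]
  linarith

theorem nacases2_gc (h : Crv f g) (hna : IsNonarchimedean v) {P : Pt f} {δ : ℝ} (hδ : 0 < δ)
    (hfar : ∀ z ∈ f.roots, δ ≤ v (P.x - z)) : gc v P.x δ f = v P.y ^ 2 := by
  have h1 := gc_eq_eval hna hδ f.roots hfar
  rw [← f_eq_prod h] at h1
  rw [h1, ← P.on, map_pow]

theorem nacases2_eight (h2 : v 2 < 1) : 0 < v 2 ∧ v 4 = v 2 ^ 2 ∧ v 8 = v 2 ^ 3 ∧ v 8 < 1 := by
  have h0 : 0 < v 2 := v.pos two_ne_zero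
  have h8 : v 8 = v 2 ^ 3 := by rw [← map_pow]; norm_num
  refine ⟨h0, by rw [← map_pow]; norm_num, h8, ?_⟩
  rw [h8]
  exact pow_lt_one₀ h0.le h2 (by norm_num)

theorem nacases2_small (h : Crv f g) (hna : IsNonarchimedean v) (h2 : v 2 < 1) {P : Pt f} {δ : ℝ}
    (hδ : 0 < δ) (hfP : ∀ z ∈ f.roots, δ ≤ v (P.x - z)) :
    gc v P.x (v 8 * δ) (f - C P.y ^ 2) ≤ v 8 * v P.y ^ 2 := by
  obtain ⟨h0, -, h8, h81⟩ := nacases2_eight h2
  have h80 : 0 < v 8 := by rw [h8]; positivity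
  have h1 := gc_sub_eval_le hna (mul_pos h80 hδ) f.roots (by nlinarith) hfP
  rw [← f_eq_prod h, ← P.on, map_pow, map_pow, mul_div_assoc, div_self hδ.ne', mul_one] at h1
  exact h1

/-- Here `v P.y = gc s = v (s P.x)` by `gc_center`, `gc_eq_eval`, `gc_eq_of_lt`. -/
theorem sheet_or (h : Crv f g) (hna : IsNonarchimedean v) (h2 : v 2 = 1) {P : Pt f} {δ : ℝ}
    (hδ : 0 < δ) {a : k} {s : k[X]} (hs : gc v a δ (f - s ^ 2) < gc v a δ f)
    (hPx : v (P.x - a) ≤ δ) (hfar : ∀ z ∈ f.roots, δ ≤ v (P.x - z)) :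
    v P.y = gc v a δ s ∧ v (s.eval P.x) = gc v a δ s ∧
      (v (P.y - s.eval P.x) < v P.y ∨ v (P.y - (-s).eval P.x) < v P.y) := by
  have h1 : gc v a δ f = v P.y ^ 2 := by rw [← gc_center hna hδ hPx, nacases2_gc h hna hδ hfar]
  have h3 := gc_eq_of_lt hna hδ hs
  rw [gc_pow hna hδ, h1] at h3
  have h4 : v P.y = gc v a δ s :=
    ((pow_left_inj₀ (gc_nonneg hδ s) (v.nonneg _) two_ne_zero).1 h3).symm
  have h5 := (v_eval_le_gc hna hδ (f - s ^ 2) hPx).trans_lt hs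
  rw [h1, eval_sub, eval_pow, ← P.on] at h5
  have h6 := nacases2_eq hna (a := P.y ^ 2) (b := s.eval P.x ^ 2) (by rwa [map_pow v P.y])
  rw [map_pow, map_pow] at h6
  refine ⟨h4, ((pow_left_inj₀ (v.nonneg _) (v.nonneg _) two_ne_zero).1 h6).trans h4, ?_⟩
  by_contra hc
  rw [not_or, not_lt, not_lt, eval_neg, sub_neg_eq_add] at hc
  rw [show P.y ^ 2 - s.eval P.x ^ 2 = (P.y - s.eval P.x) * (P.y + s.eval P.x) by ring,
    map_mul, sq] at h5
  exact absurd h5 (not_lt.2 (mul_le_mul hc.1 hc.2 (v.nonneg _) (v.nonneg _)))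

theorem ll_split (h : Crv f g) (hna : IsNonarchimedean v) (h2 : v 2 = 1) {P Q : Pt f}
    (hP : P.y ≠ 0) (hQ : Q.y ≠ 0) (hne : Q.x ≠ P.x) {δ : ℝ} (hδ : 0 < δ) {a : k} {s : k[X]}
    (hs : gc v a δ (f - s ^ 2) < gc v a δ f) (hPx : v (P.x - a) ≤ δ) (hQx : v (Q.x - a) ≤ δ)
    (hfP : ∀ z ∈ f.roots, δ ≤ v (P.x - z)) (hfQ : ∀ z ∈ f.roots, δ ≤ v (Q.x - z))
    (hPy : v (P.y - s.eval P.x) < v P.y) (hQy : v (Q.y - s.eval Q.x) < v Q.y) :
    LL v P Q ≤ 0 := by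
  obtain ⟨p1, p2, -⟩ := sheet_or h hna h2 hδ hs hPx hfP
  obtain ⟨q1, q2, -⟩ := sheet_or h hna h2 hδ hs hQx hfQ
  have h4 : v 4 = 1 := by rw [show (4 : k) = 2 ^ 2 by norm_num, map_pow, h2, one_pow]
  have hc : ∀ p : k[X], gc v P.x δ p = gc v a δ p := gc_center hna hδ hPx
  have hQP : v (Q.x - P.x) ≤ δ := by
    have := hna (Q.x - a) (-(P.x - a))
    rw [show Q.x - a + -(P.x - a) = Q.x - P.x by ring, v.map_neg] at this
    exact this.trans (max_le hQx hPx)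
  refine nacases2_fin h hδ le_rfl hfP (split (h := s) h hna hδ hP hQ hne hQP ?_ ?_ ?_ ?_ ?_ ?_)
  · rw [hc, hc, h4, one_mul, ← gc_pow hna hδ, gc_eq_of_lt hna hδ hs]
    exact hs
  · rw [hc, p2]
  · rwa [hc, h2, one_mul, ← p1]
  · rw [hc, q2]
  · rwa [hc, h2, one_mul, ← q1]
  · refine (nS_yy_C hna hδ P.y).trans ?_
    rw [hc, h2, one_mul, p1, max_self]

/-- Residue characteristic two: `split` with `h = C P.y` and `r = v 8 * δ` (`gc_sub_eval_le`). -/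
theorem ll_two (h : Crv f g) (hna : IsNonarchimedean v) (h2 : v 2 < 1) {P Q : Pt f}
    (hP : P.y ≠ 0) (hQ : Q.y ≠ 0) (hne : Q.x ≠ P.x) {δ : ℝ} (hδ : 0 < δ)
    (hfP : ∀ z ∈ f.roots, δ ≤ v (P.x - z)) (hx : v (Q.x - P.x) ≤ v 8 * δ)
    (hy : v (Q.y - P.y) < v 2 * v P.y) : LL v P Q ≤ 0 := by
  obtain ⟨h0, h4, h8, h81⟩ := nacases2_eight h2
  have h80 : 0 < v 8 := by rw [h8]; positivity
  have hr : 0 < v 8 * δ := mul_pos h80 hδ
  have hy0 : 0 < v P.y := v.pos hP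
  refine nacases2_fin h hr (by nlinarith) hfP
    (split (h := C P.y) h hna hr hP hQ hne hx ?_ ?_ ?_ ?_ ?_ ?_)
  · refine (nacases2_small h hna h2 hδ hfP).trans_lt ?_
    rw [gc_C, h4, h8]
    exact mul_lt_mul_of_pos_right (pow_lt_pow_right_of_lt_one₀ h0 h2 (by norm_num)) (by positivity)
  · rw [gc_C, eval_C]
  · rw [gc_C, eval_C, sub_self, map_zero]
    positivity
  · rw [gc_C, eval_C]
  · rwa [gc_C, eval_C]
  · obtain ⟨e1, e2⟩ := nS_yy (f := f) (a := P.x) (h := C P.y) hna hr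
    rw [nS, e1, e2, gc_zero]
    exact max_le le_rfl (mul_nonneg h0.le (gc_nonneg hr _))

/-- Under the hypotheses of `ll_two` on `x` alone the two values of `y` have the same size. -/
theorem v_y_eq (h : Crv f g) (hna : IsNonarchimedean v) (h2 : v 2 < 1) {P Q : Pt f}
    (hP : P.y ≠ 0) {δ : ℝ} (hδ : 0 < δ) (hfP : ∀ z ∈ f.roots, δ ≤ v (P.x - z))
    (hx : v (Q.x - P.x) ≤ v 8 * δ) : v Q.y = v P.y := by
  obtain ⟨h0, h4, h8, h81⟩ := nacases2_eight h2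
  have h80 : 0 < v 8 := by rw [h8]; positivity
  have hr : 0 < v 8 * δ := mul_pos h80 hδ
  have hy0 : 0 < v P.y := v.pos hP
  have h1 := (v_eval_le_gc hna hr (f - C P.y ^ 2) hx).trans (nacases2_small h hna h2 hδ hfP)
  rw [eval_sub, eval_pow, eval_C, ← Q.on, v.map_sub] at h1
  have h3 : v (P.y ^ 2 - Q.y ^ 2) < v (P.y ^ 2) := by
    rw [map_pow v P.y]
    exact h1.trans_lt (mul_lt_of_lt_one_left (by positivity) h81)
  have h5 := nacases2_eq hna h3
  rw [map_pow, map_pow] at h5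
  exact (pow_left_inj₀ (v.nonneg _) (v.nonneg _) two_ne_zero).1 h5

end Pool.Agent.Lib.MP_830c64_nt
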