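import Pool.Agent.Lib.MP_830c64_nt.ArCore
import Pool.Agent.Lib.MP_830c64_nt.NaCases2

namespace Pool.Agent.Lib.MP_830c64_nt

open Polynomial Metric
open scoped Classical

variable {k : Type*} [Field k] [CharZero k] [IsAlgClosed k] {f : k[X]} {g : ℕ}
  {v : AbsoluteValue k ℝ} {ι : k →+* ℂ}

theorem armain_log_prod {α : Type*} (F : Multiset α) (u : α → ℝ) (hu : ∀ a, 0 < u a) :
    0 < (F.map u).prod ∧ Real.log (F.map u).prod = (F.map fun a => Real.log (u a)).sum := by
  induction F using Multiset.induction_on with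
  | empty => simp
  | cons a s ih =>
    simp only [Multiset.map_cons, Multiset.prod_cons, Multiset.sum_cons]
    exact ⟨mul_pos (hu a) ih.1, by rw [Real.log_mul (hu a).ne' ih.1.ne', ih.2]⟩

theorem armain_cmp {α : Type*} (F : Multiset α) (u w : α → ℝ) {c : ℝ} (hc : 1 ≤ c)
    (hu : ∀ a, 0 < u a) (hw : ∀ a, 0 < w a) (h : ∀ a, u a ≤ c * w a) {g : ℕ} (hF : F.card ≤ g) :
    (F.map fun a => Real.log (u a)).sum ≤ (F.map fun a => Real.log (w a)).sum + g * Real.log c := by
  have h0 : 0 ≤ Real.log c := Real.log_nonneg hc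
  have h1 : (F.map fun a => Real.log (u a)).sum ≤
      (F.map fun a => Real.log (w a)).sum + F.card * Real.log c := by
    induction F using Multiset.induction_on with
    | empty => simp
    | cons a s ih =>
      have h2 : s.card ≤ g := by
        rw [Multiset.card_cons] at hF
        omega
      have h3 := ih h2
      have h4 : Real.log (u a) ≤ Real.log c + Real.log (w a) := by
        rw [← Real.log_mul (by positivity) (hw a).ne']
        exact Real.log_le_log (hu a) (h a)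
      simp only [Multiset.map_cons, Multiset.sum_cons, Multiset.card_cons]
      push_cast
      linarith
  have h5 : (F.card : ℝ) * Real.log c ≤ g * Real.log c :=
    mul_le_mul_of_nonneg_right (by exact_mod_cast hF) h0
  linarith

theorem armain_comb {N a b u L₁ L₂ l t SQ SP T K lc lβ cQ cP : ℝ} (hu0 : 0 ≤ u) (hu1 : u ≤ 1)
    (hL : L₁ ≤ L₂) (hA : N * a ≤ 2 * (L₁ - N * t) - l - SQ + K) (hB : N * b ≤ 2 * L₂ - l - SP + K)
    (hC : L₁ + L₂ ≤ lc + N * lβ + l + T) (hQ : T ≤ SQ + cQ) (hP : T ≤ SP + cP) :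
    N * (a + u * b) ≤ N * ((1 + u) * lβ - 2 * t) + ((1 + u) * (lc + K) + cQ + u * cP) := by
  have h1 := mul_le_mul_of_nonneg_left hB hu0
  have h2 := mul_le_mul_of_nonneg_left hC hu0
  have h3 := mul_le_mul_of_nonneg_left hP hu0
  have h4 := mul_le_mul_of_nonneg_left hL (sub_nonneg.2 hu1)
  nlinarith

theorem armain_root (h : Crv f g) {x : k} {δ : ℝ} (hδ : 0 < δ)
    (hfar : ∀ z ∈ f.roots, δ ≤ v (x - z)) :
    (2 * (g : ℝ) + 1) * Real.log δ ≤ Real.log (v (f.eval x)) := by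
  have h1 : δ ^ (2 * g + 1) ≤ v (f.eval x) := by
    rw [v_eval_f h, ← roots_card h, ← Multiset.card_map (fun z => v (x - z)),
      ← Multiset.prod_replicate, ← Multiset.map_const', Multiset.map_map]
    exact Multiset.prod_map_le_prod_map₀ _ _ (fun _ _ => hδ.le) hfar
  have h2 := Real.log_le_log (pow_pos hδ _) h1
  rw [Real.log_pow] at h2
  push_cast at h2
  exact h2

/-- Apply `sig_up` at `Q` and at `P.inv` with the bounds of `ar_core`, as in `split`:
`2 log V₁ + 2 log V₂ / (2 g) ≤ (1 + 1 / (2 g)) log (V₁ V₂)`, `disc_cmp`, `v (f P.x) ≥ δ ^ n`,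
`le_of_forall_nat`. The result is
`LL ≤ - 2 log 10 + (n / (2 g)) log (16 / n) ≤ - 2 log 10 + (3 / 2) log (16 / 3) < 0`. -/
theorem ll_arch (h : Crv f g) (hv : ∀ z, v z = ‖ι z‖) {P Q : Pt f} (hP : P.y ≠ 0) (hQ : Q.y ≠ 0)
    (hx : Q.x ≠ P.x) {δ : ℝ} (hδ : 0 < δ) (hfar : ∀ z ∈ f.roots, δ ≤ v (P.x - z))
    (hQx : v (Q.x - P.x) ≤ δ / (1000 * (2 * g + 1))) (hs : 0 < (ι Q.y / ι P.y).re) :
    LL v P Q < 0 := by
  obtain ⟨c₀, hc₀, hup⟩ := sig_up h v
  obtain ⟨c', c₁, N₀, hc', hc₁, hcore⟩ := ar_core h hv hP hQ hx hδ hfar hQx hs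
  have hg : (1 : ℝ) ≤ g := by exact_mod_cast h.pos
  have hn : (0 : ℝ) < 2 * g + 1 := by linarith
  have hr : 0 < δ / (50 * (2 * (g : ℝ) + 1)) := by positivity
  obtain ⟨cQ, hcQ, hcmpQ⟩ := disc_cmp h hr v P.x Q 0
  obtain ⟨cP, hcP, hcmpP⟩ := disc_cmp h hr v P.x P.inv 0
  have hPi : P.inv.y ≠ 0 := neg_ne_zero.2 hP
  have hK : 0 ≤ c₀ + 2 * Real.log c' := by
    have := Real.log_nonneg hc'
    linarith
  have hβ : 0 < 16 * δ / (2 * (g : ℝ) + 1) := by positivity
  have hu0 : (0 : ℝ) ≤ 1 / (2 * g) := by positivity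
  have hu1 : (1 : ℝ) / (2 * g) ≤ 1 / 2 := one_div_le_one_div_of_le (by norm_num) (by linarith)
  have key : -sig v Q P + Real.log (v (Q.x - P.x)) + 1 / (2 * g) * sig v P P ≤
      (1 + 1 / (2 * g)) * Real.log (16 * δ / (2 * (g : ℝ) + 1)) - 2 * Real.log 10 := by
    refine le_of_forall_nat (c := (1 + 1 / (2 * g)) * (Real.log c₁ + g * (c₀ + 2 * Real.log c')) +
      g * Real.log cQ + 1 / (2 * g) * (g * Real.log cP)) N₀ fun N hN => ?_
    obtain ⟨φ, F, hφ, hd, hF⟩ := rr_add h (Multiset.replicate N P) fun R hR => by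
      rw [Multiset.eq_of_mem_replicate hR]
      exact hP
    obtain ⟨V₁, V₂, hV₁, hV, h1, h2, h3⟩ := hcore N φ F hN hφ hd hF
    have hV₂ : 0 < V₂ := hV₁.trans_le hV
    have hA := hup Q φ _ F _ c' hQ hφ hd (by linarith) h1
    have hB := hup P.inv φ _ F _ c' hPi hφ hd (by linarith) h2
    have hFK : (F.card : ℝ) * (c₀ + 2 * Real.log c') ≤ g * (c₀ + 2 * Real.log c') :=
      mul_le_mul_of_nonneg_right (by exact_mod_cast hF) hK
    have e0 : P.inv.x - P.x = 0 := sub_self _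
    simp only [Multiset.map_replicate, Multiset.sum_replicate, nsmul_eq_mul] at hA hB
    rw [nz_of_ne (sub_ne_zero.2 hx), Real.log_mul hV₁.ne' (by positivity), Real.log_pow,
      one_div, Real.log_inv] at hA
    rw [e0, nz_zero, map_one, Real.log_one, sig_inv_left h] at hB
    have hlc : 0 < v (nm φ).leadingCoeff :=
      v.pos (leadingCoeff_ne_zero.2 (nm_ne_zero h hφ))
    have hm : ∀ R : Pt f, 0 < max (δ / (50 * (2 * (g : ℝ) + 1))) (v (R.x - P.x)) :=
      fun R => lt_max_of_lt_left hr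
    obtain ⟨hT0, hT⟩ := armain_log_prod F _ hm
    have hC := Real.log_le_log (mul_pos hV₁ hV₂) h3
    rw [Real.log_mul hV₁.ne' hV₂.ne', Real.log_mul (by positivity) hT0.ne', hT,
      Real.log_mul (by positivity) hlc.ne', Real.log_mul hc₁.ne' (by positivity),
      Real.log_pow] at hC
    have hTQ := armain_cmp F _ (fun R => Hh v Q R) hcQ hm
      (fun R => one_pos.trans_le (one_le_Hh Q R)) (fun R => (hcmpQ R).1) hF
    have hTP := armain_cmp F _ (fun R => Hh v P.inv R) hcP hm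
      (fun R => one_pos.trans_le (one_le_Hh P.inv R)) (fun R => (hcmpP R).1) hF
    refine armain_comb (L₁ := Real.log V₁) (L₂ := Real.log V₂)
      (l := Real.log (v (nm φ).leadingCoeff)) hu0 (by linarith) (Real.log_le_log hV₁ hV) ?_ ?_ hC
      hTQ hTP
    · linarith
    · linarith
  have hroot := armain_root h hδ hfar
  have hlog : Real.log (16 * δ / (2 * (g : ℝ) + 1)) ≤ Real.log 10 + Real.log δ := by
    rw [← Real.log_mul (by norm_num) hδ.ne']
    refine Real.log_le_log hβ ?_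
    rw [div_le_iff₀ hn]
    nlinarith
  have h10 : 0 < Real.log 10 := Real.log_pos (by norm_num)
  have e1 : 1 / (2 * (g : ℝ)) * (2 * g + 1) = 1 + 1 / (2 * g) := by
    field_simp
  have e2 : (sig v P P - Real.log (v (f.eval P.x))) / (2 * g) =
      1 / (2 * g) * sig v P P - 1 / (2 * g) * Real.log (v (f.eval P.x)) := by ring
  have h1 := mul_le_mul_of_nonneg_left hroot hu0
  rw [← mul_assoc, e1] at h1
  have h2 := mul_le_mul_of_nonneg_left hlog (by linarith : (0 : ℝ) ≤ 1 + 1 / (2 * g))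
  have h3 := mul_le_mul_of_nonneg_right hu1 h10.le
  rw [LL_eq h, e2]
  nlinarith

end Pool.Agent.Lib.MP_830c64_nt
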