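import Pool.Agent.Lib.MP_830c64_nt.Defs

namespace Pool.Agent.Lib.MP_830c64_nt

open Polynomial Metric

theorem arsqrt_prod (s : Multiset ℂ) (a z : ℂ) {η : ℝ} (hη : 0 ≤ η)
    (h : ∀ ζ ∈ s, ‖z - a‖ ≤ η * ‖a - ζ‖) :
    ‖(s.map fun ζ => z - ζ).prod - (s.map fun ζ => a - ζ).prod‖ ≤
      ((1 + η) ^ s.card - 1) * ‖(s.map fun ζ => a - ζ).prod‖ := by
  induction s using Multiset.induction_on with
  | empty => simp
  | cons ζ s ih =>
    have ih' := ih fun ξ hξ => h ξ (Multiset.mem_cons_of_mem hξ)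
    have h1 := h ζ (Multiset.mem_cons_self _ _)
    simp only [Multiset.map_cons, Multiset.prod_cons, Multiset.card_cons]
    set P := (s.map fun ζ => z - ζ).prod
    set Q := (s.map fun ζ => a - ζ).prod
    have h2 : ‖z - ζ‖ ≤ (1 + η) * ‖a - ζ‖ := by
      have : z - ζ = (z - a) + (a - ζ) := by ring
      rw [this]
      have := norm_add_le (z - a) (a - ζ)
      linarith
    have h3 : (z - ζ) * P - (a - ζ) * Q = (z - ζ) * (P - Q) + (z - a) * Q := by ring
    have h4 : (0 : ℝ) ≤ (1 + η) * ‖a - ζ‖ := by positivity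
    rw [h3, norm_mul (a - ζ) Q]
    calc ‖(z - ζ) * (P - Q) + (z - a) * Q‖ ≤ ‖z - ζ‖ * ‖P - Q‖ + ‖z - a‖ * ‖Q‖ := by
          rw [← norm_mul, ← norm_mul]; exact norm_add_le _ _
      _ ≤ ((1 + η) * ‖a - ζ‖) * (((1 + η) ^ s.card - 1) * ‖Q‖) + (η * ‖a - ζ‖) * ‖Q‖ :=
          add_le_add (mul_le_mul h2 ih' (norm_nonneg _) h4)
            (mul_le_mul_of_nonneg_right h1 (norm_nonneg _))
      _ = ((1 + η) ^ (s.card + 1) - 1) * (‖a - ζ‖ * ‖Q‖) := by ring

theorem arsqrt_pow {n : ℕ} (hn : 1 ≤ n) : (1 + 1 / (4 * (n : ℝ))) ^ n ≤ 13 / 10 := by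
  have hn' : (0 : ℝ) < n := by exact_mod_cast hn
  have h1 : 1 + 1 / (4 * (n : ℝ)) ≤ Real.exp (1 / (4 * (n : ℝ))) := by
    have := Real.add_one_le_exp (1 / (4 * (n : ℝ)))
    linarith
  have h2 : (1 + 1 / (4 * (n : ℝ))) ^ n ≤ Real.exp (1 / 4) := by
    calc (1 + 1 / (4 * (n : ℝ))) ^ n ≤ Real.exp (1 / (4 * (n : ℝ))) ^ n :=
          pow_le_pow_left₀ (by positivity) h1 n
      _ = Real.exp (1 / 4) := by
          rw [← Real.exp_nat_mul]
          congr 1
          field_simp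
  have h3 : Real.exp (1 / 4) ≤ 13 / 10 := by
    by_contra hc
    push Not at hc
    have h4 : (13 / 10 : ℝ) ^ 4 ≤ Real.exp (1 / 4) ^ 4 := pow_le_pow_left₀ (by norm_num) hc.le 4
    rw [← Real.exp_nat_mul] at h4
    have h5 : ((4 : ℕ) : ℝ) * (1 / 4) = 1 := by norm_num
    rw [h5] at h4
    have := Real.exp_one_lt_d9
    norm_num at h4 this
    linarith
  linarith

theorem arsqrt_eval (F : ℂ[X]) (hF : F.Monic) (z : ℂ) :
    F.eval z = (F.roots.map fun ζ => z - ζ).prod := by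
  conv_lhs => rw [(IsAlgClosed.splits F).eq_prod_roots_of_monic hF]
  rw [eval_multiset_prod, Multiset.map_map]
  simp

/-- `F z / F a` is the product of the `1 + (z - a) / (a - ζ)`, so it is within
`(1 + 1 / (4 n)) ^ n - 1 ≤ exp (1 / 4) - 1 < 3 / 10` of `1`; put `s z = b * (F z / F a) ^ (1/2)`
(principal branch, `Complex.cpow`, real part `≥ 0`), and `‖t - 1‖ ≤ ‖t ^ 2 - 1‖` if `0 ≤ re t`. -/
theorem ar_sqrt (F : ℂ[X]) (hF : F.Monic) (hn : 1 ≤ F.natDegree) (a b : ℂ) {δ : ℝ} (hδ : 0 < δ)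
    (hb : b ^ 2 = F.eval a) (hfar : ∀ z ∈ F.roots, δ ≤ ‖a - z‖) :
    ∃ s : ℂ → ℂ, DifferentiableOn ℂ s (ball a (δ / (4 * F.natDegree))) ∧ s a = b ∧
      ∀ z ∈ ball a (δ / (4 * F.natDegree)), s z ^ 2 = F.eval z ∧ ‖s z - b‖ ≤ 3 / 10 * ‖b‖ := by
  have hn' : (0 : ℝ) < F.natDegree := by exact_mod_cast hn
  have hcard : F.roots.card = F.natDegree := (IsAlgClosed.splits F).natDegree_eq_card_roots.symm
  have ha : F.eval a ≠ 0 := by
    intro h0
    have h1 : a ∈ F.roots := (mem_roots hF.ne_zero).2 h0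
    have := hfar a h1
    simp at this
    linarith
  have hw : ∀ z ∈ ball a (δ / (4 * F.natDegree)), ‖F.eval z / F.eval a - 1‖ ≤ 3 / 10 := by
    intro z hz
    rw [mem_ball, dist_eq_norm] at hz
    have h1 := arsqrt_prod F.roots a z (η := 1 / (4 * (F.natDegree : ℝ))) (by positivity)
      (fun ζ hζ => by
        have h2 := hfar ζ hζ
        calc ‖z - a‖ ≤ δ / (4 * F.natDegree) := hz.le
          _ = 1 / (4 * (F.natDegree : ℝ)) * δ := by ring
          _ ≤ 1 / (4 * (F.natDegree : ℝ)) * ‖a - ζ‖ :=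
            mul_le_mul_of_nonneg_left h2 (by positivity))
    rw [← arsqrt_eval F hF z, ← arsqrt_eval F hF a, hcard] at h1
    have h3 := arsqrt_pow hn
    have h4 : 0 < ‖F.eval a‖ := norm_pos_iff.2 ha
    have h5 : F.eval z / F.eval a - 1 = (F.eval z - F.eval a) / F.eval a := by field_simp
    rw [h5, norm_div, div_le_iff₀ h4]
    refine h1.trans (mul_le_mul_of_nonneg_right (by linarith) h4.le)
  refine ⟨fun z => b * (F.eval z / F.eval a) ^ (2⁻¹ : ℂ), ?_, ?_, ?_⟩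
  · intro z hz
    have h1 := hw z hz
    have h2 : F.eval z / F.eval a ∈ Complex.slitPlane := by
      left
      have h3 := Complex.abs_re_le_norm (F.eval z / F.eval a - 1)
      have h4 := (abs_le.1 (h3.trans h1)).1
      rw [Complex.sub_re, Complex.one_re] at h4
      linarith
    have h5 : DifferentiableAt ℂ (fun z => F.eval z / F.eval a) z :=
      F.differentiableAt.div_const _
    exact ((h5.cpow_const h2).const_mul b).differentiableWithinAt
  · simp [div_self ha]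
  · intro z hz
    have h1 := hw z hz
    set w := F.eval z / F.eval a with hwdef
    have h2 : (w ^ (2⁻¹ : ℂ)) ^ 2 = w := by
      have := Complex.cpow_nat_inv_pow w (n := 2) (by norm_num)
      simpa using this
    have h3 : 0 ≤ (w ^ (2⁻¹ : ℂ)).re := by
      rw [Complex.cpow_inv_two_re]
      exact Real.sqrt_nonneg _
    set t := w ^ (2⁻¹ : ℂ)
    refine ⟨?_, ?_⟩
    · show (b * t) ^ 2 = F.eval z
      rw [mul_pow, h2, hb, hwdef]
      field_simp
    · show ‖b * t - b‖ ≤ 3 / 10 * ‖b‖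
      have h4 : 1 ≤ ‖t + 1‖ := by
        have h5 := Complex.re_le_norm (t + 1)
        rw [Complex.add_re, Complex.one_re] at h5
        linarith
      have h6 : ‖t - 1‖ ≤ 3 / 10 := by
        have h7 : w - 1 = (t - 1) * (t + 1) := by rw [← h2]; ring
        rw [h7, norm_mul] at h1
        nlinarith [norm_nonneg (t - 1)]
      have h8 : b * t - b = (t - 1) * b := by ring
      rw [h8, norm_mul]
      exact mul_le_mul_of_nonneg_right h6 (norm_nonneg _)

theorem arsqrt_max (A : ℂ[X]) (a : ℂ) {ρ M : ℝ} (hρ : 0 < ρ)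
    (hM : ∀ z ∈ sphere a ρ, ‖A.eval z‖ ≤ M) : ∀ z ∈ closedBall a ρ, ‖A.eval z‖ ≤ M := by
  intro z hz
  refine Complex.norm_le_of_forall_mem_frontier_norm_le (U := ball a ρ) (f := fun z => A.eval z)
    isBounded_ball A.differentiable.diffContOnCl ?_ ?_
  · intro w hw
    rw [frontier_ball a hρ.ne'] at hw
    exact hM w hw
  · rwa [closure_ball a hρ.ne']

theorem arsqrt_reflect (T : ℂ[X]) {d : ℕ} (hd : T.natDegree ≤ d) {u : ℂ} (hu : u ≠ 0) :
    (reflect d T).eval u⁻¹ * u ^ d = T.eval u := by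
  haveI := invertibleOfNonzero hu
  have := eval₂_reflect_mul_pow (RingHom.id ℂ) u d T hd
  rwa [invOf_eq_inv, eval₂_id, eval₂_id] at this

/-- Growth of a polynomial. Either bound the Taylor coefficients at `a` by Cauchy's estimate
(`‖coeff i‖ * ρ ^ i ≤ M`), or apply the maximum principle to the reversed polynomial. -/
theorem ar_poly (A : ℂ[X]) {d : ℕ} (hd : A.natDegree ≤ d) (a : ℂ) {ρ M t : ℝ} (hρ : 0 < ρ)
    (ht : 1 ≤ t) (hM : ∀ z ∈ sphere a ρ, ‖A.eval z‖ ≤ M) :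
    ∀ z ∈ closedBall a (t * ρ), ‖A.eval z‖ ≤ (d + 1) * t ^ d * M := by
  intro z hz
  have hM0 : 0 ≤ M := by
    have h1 : a + (ρ : ℂ) ∈ sphere a ρ := by simp [abs_of_pos hρ]
    exact (norm_nonneg _).trans (hM _ h1)
  have htd : 1 ≤ t ^ d := one_le_pow₀ ht
  have hd1 : (1 : ℝ) ≤ d + 1 := by
    have : (0 : ℝ) ≤ d := Nat.cast_nonneg d
    linarith
  have hfin : t ^ d * M ≤ (d + 1) * t ^ d * M := by
    have : 0 ≤ t ^ d * M := by positivity
    nlinarith
  by_cases hzρ : z ∈ closedBall a ρ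
  · refine (arsqrt_max A a hρ hM z hzρ).trans (le_trans ?_ hfin)
    nlinarith
  rw [mem_closedBall, dist_eq_norm, not_le] at hzρ
  rw [mem_closedBall, dist_eq_norm] at hz
  have hT : (taylor a A).natDegree ≤ d := by rwa [natDegree_taylor]
  have hB : ∀ w ∈ sphere (0 : ℂ) ρ⁻¹, ‖(reflect d (taylor a A)).eval w‖ ≤ M / ρ ^ d := by
    intro w hw
    rw [mem_sphere, dist_zero_right] at hw
    have hw0 : w ≠ 0 := by
      rintro rfl
      rw [norm_zero] at hw
      exact (inv_pos.2 hρ).ne hw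
    have h1 := arsqrt_reflect (taylor a A) hT (inv_ne_zero hw0)
    rw [inv_inv, taylor_eval] at h1
    have h2 : w⁻¹ + a ∈ sphere a ρ := by
      rw [mem_sphere, dist_eq_norm, add_sub_cancel_right, norm_inv, hw, inv_inv]
    have h3 := hM _ h2
    rw [← h1, norm_mul, norm_pow, norm_inv, hw, inv_inv] at h3
    rw [le_div_iff₀ (by positivity)]
    exact h3
  have hu0 : z - a ≠ 0 := by
    intro h0
    rw [h0, norm_zero] at hzρ
    linarith
  have h1 := arsqrt_reflect (taylor a A) hT hu0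
  rw [taylor_eval, sub_add_cancel] at h1
  have h2 : (z - a)⁻¹ ∈ closedBall (0 : ℂ) ρ⁻¹ := by
    rw [mem_closedBall, dist_zero_right, norm_inv]
    exact inv_anti₀ hρ hzρ.le
  have h3 := arsqrt_max _ 0 (inv_pos.2 hρ) hB _ h2
  refine le_trans ?_ hfin
  rw [← h1, norm_mul, norm_pow]
  calc ‖(reflect d (taylor a A)).eval (z - a)⁻¹‖ * ‖z - a‖ ^ d ≤ M / ρ ^ d * (t * ρ) ^ d :=
        mul_le_mul h3 (pow_le_pow_left₀ (norm_nonneg _) hz d) (by positivity) (by positivity)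
    _ = t ^ d * M := by
        rw [mul_pow]
        field_simp

/-- Maximum principle (`Complex.norm_le_of_forall_mem_frontier_norm_le`). -/
theorem ar_max {ψ : ℂ → ℂ} {a : ℂ} {ρ ρ' M : ℝ} (hρ : 0 < ρ) (hρ' : ρ < ρ')
    (hψ : DifferentiableOn ℂ ψ (ball a ρ')) (hM : ∀ z ∈ sphere a ρ, ‖ψ z‖ ≤ M) :
    ∀ z ∈ closedBall a ρ, ‖ψ z‖ ≤ M := by
  intro z hz
  refine Complex.norm_le_of_forall_mem_frontier_norm_le (U := ball a ρ) (f := ψ)
    isBounded_ball (hψ.diffContOnCl_ball (closedBall_subset_ball hρ')) ?_ ?_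
  · intro w hw
    rw [frontier_ball a hρ.ne'] at hw
    exact hM w hw
  · rwa [closure_ball a hρ.ne']

/-- Among the `m + 1` radii `r (1 + j / (m + 1))`, `j ≤ m`, each element of `s` spoils at most
one. -/
theorem ar_radius (s : Multiset ℂ) {m : ℕ} (hs : s.card ≤ m) (a : ℂ) {r : ℝ} (hr : 0 < r) :
    ∃ ρ : ℝ, r ≤ ρ ∧ ρ ≤ 2 * r ∧ ∀ ζ ∈ s, ∀ z ∈ sphere a ρ, r / (2 * (m + 1)) ≤ ‖z - ζ‖ := by
  classical
  have hm : (0 : ℝ) < (m : ℝ) + 1 := by positivity
  by_contra hcon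
  have hsp : ∀ j ∈ Finset.range (m + 1), ∃ ζ ∈ s.toFinset,
      |r * (1 + (j : ℝ) / (m + 1)) - ‖ζ - a‖| < r / (2 * (m + 1)) := by
    intro j hj
    by_contra h1
    apply hcon
    have hj' : (j : ℝ) ≤ m + 1 := by
      have := (Finset.mem_range.1 hj).le
      exact_mod_cast this
    have h2 : (j : ℝ) / (m + 1) ≤ 1 := (div_le_one hm).2 hj'
    have h3 : (0 : ℝ) ≤ (j : ℝ) / (m + 1) := by positivity
    refine ⟨r * (1 + (j : ℝ) / (m + 1)), by nlinarith, by nlinarith, fun ζ hζ z hz => ?_⟩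
    rw [mem_sphere, dist_eq_norm] at hz
    by_contra h4
    apply h1
    refine ⟨ζ, Multiset.mem_toFinset.2 hζ, ?_⟩
    have h5 := abs_norm_sub_norm_le (z - a) (ζ - a)
    rw [hz, sub_sub_sub_cancel_right] at h5
    exact lt_of_le_of_lt h5 (not_le.1 h4)
  choose! g hg using hsp
  have hlt : s.toFinset.card < (Finset.range (m + 1)).card := by
    rw [Finset.card_range]
    exact Nat.lt_succ_of_le ((Multiset.toFinset_card_le s).trans hs)
  obtain ⟨i, hi, j, hj, hij, hg'⟩ :=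
    Finset.exists_ne_map_eq_of_card_lt_of_maps_to hlt (f := g) fun j hj => (hg j hj).1
  have h1 := (hg i hi).2
  have h2 := (hg j hj).2
  rw [hg'] at h1
  have h3 : r * (1 + (i : ℝ) / (m + 1)) - r * (1 + (j : ℝ) / (m + 1)) =
      ((i : ℝ) - j) * (2 * (r / (2 * (m + 1)))) := by
    field_simp
    ring
  have hc : 0 < r / (2 * (m + 1)) := by positivity
  set c := r / (2 * ((m : ℝ) + 1))
  obtain ⟨h1a, h1b⟩ := abs_lt.1 h1
  obtain ⟨h2a, h2b⟩ := abs_lt.1 h2
  rcases lt_or_gt_of_ne hij with h | h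
  · have h4 : (i : ℝ) + 1 ≤ j := by exact_mod_cast h
    nlinarith
  · have h4 : (j : ℝ) + 1 ≤ i := by exact_mod_cast h
    nlinarith

end Pool.Agent.Lib.MP_830c64_nt
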