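import Pool.Agent.Lib.MP_830c64_nt.Ground
import Pool.Agent.Lib.MP_830c64_nt.ArSqrt

namespace Pool.Agent.Lib.MP_830c64_nt

open Polynomial Metric
open scoped Classical

variable {k : Type*} [Field k] [CharZero k] [IsAlgClosed k] {f : k[X]} {g : ℕ}
  {v : AbsoluteValue k ℝ} {ι : k →+* ℂ}

/-- The value of a function on a sheet. -/
noncomputable def arrem_val (ι : k →+* ℂ) (s : ℂ → ℂ) (ψ : CR f) (z : ℂ) : ℂ :=
  (ψ.re.map ι).eval z + (ψ.im.map ι).eval z * s z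

theorem arrem_diff {s : ℂ → ℂ} {U : Set ℂ} (hs : DifferentiableOn ℂ s U) (ψ : CR f) :
    DifferentiableOn ℂ (arrem_val ι s ψ) U :=
  (Polynomial.differentiable _).differentiableOn.add
    ((Polynomial.differentiable _).differentiableOn.mul hs)

theorem arrem_rel {s : ℂ → ℂ} {z : ℂ} (hz : s z ^ 2 = (f.map ι).eval z) {ψ ψ' : CR f} {x y : k}
    (e : pol f (X - C x) * ψ' = ψ * yy f (C y)) :
    arrem_val ι s ψ' z * (z - ι x) = arrem_val ι s ψ z * (s z + ι y) := by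
  have h1 := congrArg (fun u : CR f => (u.re.map ι).eval z) e
  have h2 := congrArg (fun u : CR f => (u.im.map ι).eval z) e
  simp only [pol_mul_re, pol_mul_im, mul_yy_re, mul_yy_im, Polynomial.map_mul, Polynomial.map_add,
    Polynomial.map_sub, map_X, map_C, eval_mul, eval_add, eval_sub, eval_X, eval_C] at h1 h2
  unfold arrem_val
  rw [← hz] at h1
  linear_combination h1 + s z * h2

theorem arrem_max {r η ρ d e : ℝ} (hr : 0 < r) (hη : 0 < η) (hρ : ρ ≤ 2 * r) (hd : η ≤ d)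
    (he : e ≤ d + ρ) : max r e ≤ (r / η + 1 + 2 * r / η) * d := by
  have h1 : r ≤ r / η * d := by
    rw [div_mul_eq_mul_div, le_div_iff₀ hη]
    exact mul_le_mul_of_nonneg_left hd hr.le
  have h2 : 2 * r / η * d = 2 * (r / η * d) := by ring
  refine max_le ?_ ?_ <;> nlinarith

/-- Removal on a sheet. For `ψ : CR f` let `ψ₊ z = (ψ.re.map ι).eval z + (ψ.im.map ι).eval z * s z`
(multiplicative because `s ^ 2 = f`), and `ν ψ` the supremum of `‖ψ₊‖` on the sphere. Apply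
`removal` with `c = 1`: evaluation at `Q` by `ar_max`; for `R ∈ S` on the sphere
`‖ψ'₊ z‖ * ‖z - ι R.x‖ = ‖ψ₊ z‖ * ‖s z + ι R.y‖`, where `‖z - ι R.x‖ ≥ η` and
`max r ‖ι (R.x - a)‖ ≤ (r / η + 1 + 2 r / η) ‖z - ι R.x‖`; use `disc_cmp` with `t = Bs`. -/
theorem ar_rem (h : Crv f g) (hv : ∀ z, v z = ‖ι z‖) (a : k) {r η : ℝ} (Bs : ℝ) (hr : 0 < r)
    (hη : 0 < η) {Q : Pt f} (hQ : Q.y ≠ 0) (hQx : v (Q.x - a) ≤ r) :
    ∃ c' : ℝ, 1 ≤ c' ∧ ∀ (ρ ρ' V : ℝ) (s : ℂ → ℂ) (φ : CR f) (S : Multiset (Pt f)), r ≤ ρ →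
      ρ ≤ 2 * r → ρ < ρ' → DifferentiableOn ℂ s (ball (ι a) ρ') →
      (∀ z ∈ ball (ι a) ρ', s z ^ 2 = (f.map ι).eval z ∧ ‖s z‖ ≤ Bs) → s (ι Q.x) = ι Q.y →
      φ ≠ 0 → S ≤ dv φ → S.count Q = ord Q φ →
      (∀ R ∈ S, ∀ z ∈ sphere (ι a) ρ, η ≤ ‖z - ι R.x‖) →
      (∀ z ∈ sphere (ι a) ρ, ‖(φ.re.map ι).eval z + (φ.im.map ι).eval z * s z‖ ≤ V) →
      v (lead Q φ) ≤ V * (S.map fun R => c' * ww v Q R / mu v Q R).prod := by
  obtain ⟨c, hc, hcR⟩ := disc_cmp h hr v a Q Bs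
  have hK : 1 ≤ r / η + 1 + 2 * r / η := by
    have h1 : 0 ≤ r / η := by positivity
    have h2 : 0 ≤ 2 * r / η := by positivity
    linarith
  set K := r / η + 1 + 2 * r / η with hKd
  have hc' : 1 ≤ 2 * c * K := by nlinarith
  refine ⟨2 * c * K, hc', ?_⟩
  intro ρ ρ' V s φ S h1 h2 h3 hs hsq hsQ hφ hS hcount hfar hV
  have hρ : 0 < ρ := hr.trans_le h1
  have hsub : sphere (ι a) ρ ⊆ ball (ι a) ρ' := sphere_subset_ball h3
  have hne : (sphere (ι a) ρ).Nonempty := NormedSpace.sphere_nonempty.2 hρ.le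
  let ν : CR f → ℝ := fun ψ => sSup ((fun z => ‖arrem_val ι s ψ z‖) '' sphere (ι a) ρ)
  have hle : ∀ ψ, ∀ z ∈ sphere (ι a) ρ, ‖arrem_val ι s ψ z‖ ≤ ν ψ := fun ψ z hz =>
    le_csSup ((isCompact_sphere _ _).bddAbove_image
      ((arrem_diff hs ψ).continuousOn.mono hsub).norm) ⟨z, hz, rfl⟩
  have hsup : ∀ ψ (M : ℝ), (∀ z ∈ sphere (ι a) ρ, ‖arrem_val ι s ψ z‖ ≤ M) → ν ψ ≤ M :=
    fun ψ M hM => csSup_le (hne.image _) (by rintro _ ⟨z, hz, rfl⟩; exact hM z hz)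
  have hν : ∀ ψ, 0 ≤ ν ψ := fun ψ => by
    obtain ⟨z, hz⟩ := hne
    exact (norm_nonneg _).trans (hle ψ z hz)
  have key := removal (v := v) h hQ ν hν zero_le_one hc' (wt φ + (2 * g + 1) * S.card) S
    (fun ψ _ => ?_) (fun R hR ψ ψ' _ _ e => ?_) hφ hS hcount le_rfl
  · rw [one_mul] at key
    refine key.trans (mul_le_mul_of_nonneg_right (hsup φ V hV) (Multiset.prod_nonneg ?_))
    intro t ht
    obtain ⟨R, _, rfl⟩ := Multiset.mem_map.1 ht
    have h4 := one_le_ww (v := v) Q R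
    have h5 := mu_pos (v := v) hQ R
    positivity
  · have h4 : ι Q.x ∈ closedBall (ι a) ρ := by
      rw [mem_closedBall, dist_eq_norm, ← map_sub, ← hv]
      exact hQx.trans h1
    have h5 := ar_max hρ h3 (arrem_diff hs ψ) (hle ψ) _ h4
    rw [one_mul, hv, ev_def, map_add, map_mul]
    unfold arrem_val at h5
    rwa [eval_map_apply, eval_map_apply, hsQ] at h5
  · refine hsup _ _ fun z hz => ?_
    have h4 := congrArg norm (arrem_rel (ι := ι) (hsq z (hsub hz)).1 e)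
    rw [norm_mul, norm_mul] at h4
    have h5 := hfar R hR z hz
    have h6 : 0 < ‖z - ι R.x‖ := hη.trans_le h5
    have h7 : v (R.x - a) ≤ ‖z - ι R.x‖ + ρ := by
      rw [hv, map_sub, ← mem_sphere_iff_norm.1 hz, norm_sub_rev z (ι R.x)]
      exact norm_sub_le_norm_sub_add_norm_sub _ _ _
    have h8 := arrem_max hr hη h2 h5 h7
    have h9 : ‖s z + ι R.y‖ ≤ 2 * max Bs (v R.y) := by
      have h10 := norm_add_le (s z) (ι R.y)
      have h11 := (hsq z (hsub hz)).2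
      have h12 := le_max_left Bs (v R.y)
      have h13 := le_max_right Bs (v R.y)
      rw [← hv] at h10
      linarith
    have h14 := one_le_ww (v := v) Q R
    have h15 : ‖s z + ι R.y‖ ≤ 2 * c * K * ww v Q R * ‖z - ι R.x‖ := by
      have h16 := (hcR R).2
      have h17 := mul_le_mul_of_nonneg_left h8 (show 0 ≤ c * ww v Q R by positivity)
      calc ‖s z + ι R.y‖ ≤ 2 * (c * ww v Q R * (K * ‖z - ι R.x‖)) := by linarith
        _ = _ := by ring
    refine le_of_mul_le_mul_right ?_ h6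
    rw [h4]
    calc ‖arrem_val ι s ψ z‖ * ‖s z + ι R.y‖
        ≤ ν ψ * (2 * c * K * ww v Q R * ‖z - ι R.x‖) :=
          mul_le_mul (hle ψ z hz) h15 (norm_nonneg _) (hν ψ)
      _ = _ := by ring

/-- Removing the `N` zeros at `P`: `ψ` from `le_ord_iff`; `dv (yy (C P.y)) = P.inv ::ₘ Z` and
`dv ψ = F + N • Z`; `Q ∉ Z` because `sl Q P ≠ 0` (`lead_yy`). -/
theorem exists_strip (h : Crv f g) {P Q : Pt f} (hP : P.y ≠ 0) (hQ : Q.y ≠ 0) (hx : Q.x ≠ P.x)
    (hy : Q.y + P.y ≠ 0) {φ : CR f} (hφ : φ ≠ 0) {N : ℕ} {F : Multiset (Pt f)}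
    (hd : dv φ = Multiset.replicate N P + F) :
    ∃ ψ : CR f, ψ ≠ 0 ∧ pol f ((X - C P.x) ^ N) * ψ = φ * yy f (C P.y) ^ N ∧ F ≤ dv ψ ∧
      F.count Q = ord Q ψ ∧ lead Q ψ * (Q.x - P.x) ^ N = lead Q φ * (Q.y + P.y) ^ N := by
  have hN : N ≤ ord P φ := by
    rw [← count_dv h hφ, hd, Multiset.count_add, Multiset.count_replicate_self]
    exact Nat.le_add_right _ _
  obtain ⟨ψ, e⟩ := (le_ord_iff h hP hφ N).1 hN
  have hy0 : yy f (C P.y) ≠ 0 := yy_ne_zero _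
  have hyN : yy f (C P.y) ^ N ≠ 0 := cr_pow_ne_zero h hy0 N
  have hl : pol f (X - C P.x) ≠ 0 := pol_ne_zero (X_sub_C_ne_zero _)
  have hlN : pol f ((X - C P.x) ^ N) ≠ 0 := pol_ne_zero (pow_ne_zero _ (X_sub_C_ne_zero _))
  have hψ : ψ ≠ 0 := by
    rintro rfl
    rw [mul_zero] at e
    exact cr_mul_ne_zero h hφ hyN e.symm
  have e1 := congrArg dv e
  rw [dv_mul h hlN hψ, dv_mul h hφ hyN, map_pow, dv_pow h hl, dv_pow h hy0, dv_lin h, hd] at e1
  have e0 : N • (P ::ₘ P.inv ::ₘ 0) = Multiset.replicate N P + Multiset.replicate N P.inv := by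
    rw [← Multiset.nsmul_singleton, ← Multiset.nsmul_singleton, ← nsmul_add]
    rfl
  rw [e0, add_assoc, add_assoc, add_right_inj] at e1
  have e2 : ∀ R : Pt f, (if P.inv = R then N else 0) + (dv ψ).count R =
      F.count R + N * (dv (yy f (C P.y))).count R := by
    intro R
    have e3 := congrArg (Multiset.count R) e1
    rwa [Multiset.count_add, Multiset.count_add, Multiset.count_nsmul,
      Multiset.count_replicate] at e3
  have hQy : ev Q (yy f (C P.y)) = Q.y + P.y := by rw [ev_yy, eval_C, add_comm]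
  refine ⟨ψ, hψ, e, Multiset.le_iff_count.2 fun R => ?_, ?_, ?_⟩
  · have e3 := e2 R
    by_cases h2 : R = P.inv
    · have h3 : R ∈ dv (yy f (C P.y)) := by
        rw [mem_dv h hy0, ev_yy, eval_C, h2]
        exact add_neg_cancel _
      have h4 := Nat.mul_le_mul_left N (Multiset.one_le_count_iff_mem.2 h3)
      rw [if_pos h2.symm] at e3
      omega
    · rw [if_neg (Ne.symm h2)] at e3
      omega
  · have e3 := e2 Q
    have h2 : P.inv ≠ Q := fun e => hx (by rw [← e]; rfl)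
    have h3 : Q ∉ dv (yy f (C P.y)) := by
      rw [mem_dv h hy0, hQy]
      exact hy
    rw [if_neg h2, Multiset.count_eq_zero.2 h3, count_dv h hψ] at e3
    omega
  · have e3 := congrArg (lead Q) e
    have h1 : ev Q (pol f ((X - C P.x) ^ N)) = (Q.x - P.x) ^ N := by
      rw [ev_pol, eval_pow, eval_sub, eval_X, eval_C]
    have h2 : ev Q (yy f (C P.y) ^ N) = (Q.y + P.y) ^ N := by rw [map_pow, hQy]
    rw [lead_mul h hQ hlN hψ, lead_mul h hQ hφ hyN,
      lead_eq_ev h hQ (h1.trans_ne (pow_ne_zero _ (sub_ne_zero.2 hx))),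
      lead_eq_ev h hQ (h2.trans_ne (pow_ne_zero _ hy)), h1, h2] at e3
    rw [mul_comm, e3]

end Pool.Agent.Lib.MP_830c64_nt
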