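import Mathlib

/-! The definitions used in the final statement: narrow class group, 2-torsion, exponent. -/

namespace Pool.Agent.Lib.MP_830c64_nt

open scoped nonZeroDivisors

noncomputable section

/-- Totally positive elements. -/
def totPos (K : Type) [Field K] : Subgroup Kˣ where
  carrier := {u | ∀ σ : K →+* ℝ, 0 < σ (u : K)}
  mul_mem' := fun {a b} ha hb σ => by
    rw [Units.val_mul, map_mul]; exact mul_pos (ha σ) (hb σ)
  one_mem' := fun σ => by simp
  inv_mem' := fun {a} ha σ => by
    rw [Units.val_inv_eq_inv_val, map_inv₀]; exact inv_pos.2 (ha σ)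

/-- The Kabatiansky-Levenshtein exponent (base 2) with parameter `b`. -/
def kap (b : ℝ) : ℝ := ((1 + b) * Real.log (1 + b) - b * Real.log b) / Real.log 2

/-- The parameter `b = (1 / sin θ - 1) / 2` for `cos θ = 1 / (n - 1)`. -/
def bpar (n : ℕ) : ℝ := (1 / √(1 - 1 / ((n : ℝ) - 1) ^ 2) - 1) / 2

/-- The exponent of the bound. -/
def expo (n : ℕ) : ℝ := (1 / 2 - 1 / (n : ℝ)) / (1 - kap (bpar n))

variable (R K : Type) [CommRing R] [IsDomain R] [Field K] [Algebra R K] [IsFractionRing R K]

/-- The principal fractional ideals with a totally positive generator. -/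
def posPrincipal : Subgroup (FractionalIdeal R⁰ K)ˣ :=
  (totPos K).map (toPrincipalIdeal R K)

/-- The narrow class group of `R` with field of fractions `K`. -/
def NarrowClass : Type := (FractionalIdeal R⁰ K)ˣ ⧸ posPrincipal R K

/-- The quotient group structure. -/
instance narrowClassGroup : CommGroup (NarrowClass R K) :=
  QuotientGroup.Quotient.commGroup (posPrincipal R K)

/-- The number of elements of order dividing `2`. -/
def twoTors (G : Type) [CommGroup G] : ℕ := Nat.card {c : G // c ^ 2 = 1}

end

end Pool.Agent.Lib.MP_830c64_nt
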