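import Pool.Agent.Lib.MP_830c64_nt.Defs

namespace Pool.Agent.Lib.MP_830c64_nt

open scoped Classical

/-- The factor `c (e + 3) / p ^ (ε e)` is bounded for all `p ≥ 2`, `e ≥ 1`, and is at most `1` for
`p ≥ p₀`. -/
theorem divis {c ε : ℝ} (hc : 1 ≤ c) (hε : 0 < ε) : ∃ A : ℝ, 0 ≤ A ∧ ∀ m : ℕ, m ≠ 0 →
    ∏ p ∈ m.primeFactors, c * ((m.factorization p : ℝ) + 3) ≤ A * (m : ℝ) ^ ε := by
  have hδ : 0 < ε * Real.log 2 := mul_pos hε (Real.log_pos one_lt_two)
  obtain ⟨K, hK⟩ : ∃ K : ℝ, K = c * (3 + 1 / (ε * Real.log 2)) := ⟨_, rfl⟩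
  have hK1 : 1 ≤ K := by
    have h1 : 0 < 1 / (ε * Real.log 2) := by positivity
    rw [hK]
    nlinarith
  obtain ⟨N, hN⟩ := Filter.eventually_atTop.1 (((tendsto_rpow_atTop hε).comp
    tendsto_natCast_atTop_atTop).eventually_ge_atTop (4 * c))
  refine ⟨K ^ N, by positivity, fun m hm => ?_⟩
  have h1 : (m : ℝ) ^ ε = ∏ p ∈ m.primeFactors, ((p : ℝ) ^ m.factorization p) ^ ε := by
    rw [Real.finsetProd_rpow _ _ (fun p _ => by positivity)]
    congr 1
    conv_lhs => rw [← Nat.prod_factorization_pow_eq_self hm]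
    rw [Finsupp.prod, Nat.support_factorization]
    push_cast
    rfl
  have h2 : ∏ p ∈ m.primeFactors, (if p < N then K else 1) ≤ K ^ N := by
    rw [Finset.prod_ite, Finset.prod_const_one, mul_one, Finset.prod_const]
    refine pow_le_pow_right₀ hK1 ?_
    calc _ ≤ (Finset.range N).card := Finset.card_le_card fun p hp =>
          Finset.mem_range.2 (Finset.mem_filter.1 hp).2
      _ = N := Finset.card_range N
  refine le_trans ?_ (mul_le_mul_of_nonneg_right h2 (by positivity))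
  rw [h1, ← Finset.prod_mul_distrib]
  refine Finset.prod_le_prod (fun p _ => by positivity) fun p hp => ?_
  have hp' := Nat.prime_of_mem_primeFactors hp
  have he : 1 ≤ m.factorization p :=
    (hp'.dvd_iff_one_le_factorization hm).1 (Nat.dvd_of_mem_primeFactors hp)
  generalize m.factorization p = e at he
  have hp2 : (2 : ℝ) ≤ p := by exact_mod_cast hp'.two_le
  have he0 : (0 : ℝ) ≤ e := Nat.cast_nonneg e
  split_ifs with h
  · have h3 : 1 + ε * Real.log 2 * e ≤ ((p : ℝ) ^ e) ^ ε := by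
      rw [Real.rpow_def_of_pos (by positivity), Real.log_pow]
      have h4 := Real.add_one_le_exp (e * Real.log p * ε)
      have h5 : Real.log 2 ≤ Real.log p := Real.log_le_log two_pos hp2
      have h6 := mul_le_mul_of_nonneg_left h5 (mul_nonneg hε.le he0)
      linarith
    refine le_trans ?_ (mul_le_mul_of_nonneg_left h3 (by linarith))
    rw [hK, mul_assoc]
    refine mul_le_mul_of_nonneg_left ?_ (by linarith)
    generalize ε * Real.log 2 = δ at hδ
    have h4 : (3 + 1 / δ) * (1 + δ * e) = e + 3 + (1 / δ + 3 * δ * e) := by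
      field_simp
      ring
    rw [h4]
    exact le_add_of_nonneg_right (by positivity)
  · have h3 : 4 * c ≤ (p : ℝ) ^ ε := hN p (not_lt.1 h)
    rw [one_mul, ← Real.rpow_natCast, ← Real.rpow_mul (by positivity), mul_comm (e : ℝ) ε,
      Real.rpow_mul (by positivity), Real.rpow_natCast]
    refine le_trans ?_ (pow_le_pow_left₀ (by positivity) h3 e)
    rw [mul_pow, mul_comm]
    have h4 := one_add_mul_le_pow (a := (3 : ℝ)) (by norm_num) e
    have h5 : (1 : ℝ) ≤ e := by exact_mod_cast he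
    refine mul_le_mul (by norm_num at h4; linarith) (le_self_pow₀ hc (by omega)) (by linarith)
      (by positivity)

theorem pow_omega {c ε : ℝ} (hc : 1 ≤ c) (hε : 0 < ε) : ∃ A : ℝ, 0 ≤ A ∧ ∀ m : ℕ, m ≠ 0 →
    c ^ m.primeFactors.card ≤ A * (m : ℝ) ^ ε := by
  obtain ⟨A, hA, h⟩ := divis hc hε
  refine ⟨A, hA, fun m hm => le_trans ?_ (h m hm)⟩
  rw [← Finset.prod_const]
  refine Finset.prod_le_prod (fun p _ => by linarith) fun p _ => ?_
  have h1 : (0 : ℝ) ≤ m.factorization p := Nat.cast_nonneg _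
  nlinarith

/-- A common exponent `B` with `B + 3 ≤ A T ^ ε`. -/
theorem exists_B (n : ℕ) (hn : 1 ≤ n) {ε : ℝ} (hε : 0 < ε) : ∃ A : ℝ, 0 ≤ A ∧ ∀ T : ℝ, 1 ≤ T →
    ∃ B : ℕ, (2 * T) ^ n < 2 ^ B ∧ (B : ℝ) + 3 ≤ A * T ^ ε := by
  have hl : 0 < Real.log 2 := Real.log_pos one_lt_two
  refine ⟨4 + n + n / (ε * Real.log 2), by positivity, fun T hT => ?_⟩
  obtain ⟨B, h1, h2⟩ := exists_nat_pow_near (x := (2 * T) ^ n) (y := (2 : ℝ))
    (one_le_pow₀ (by linarith)) one_lt_two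
  refine ⟨B + 1, h2, ?_⟩
  have h3 := Real.log_le_log (by positivity) h1
  rw [Real.log_pow, Real.log_pow, Real.log_mul two_ne_zero (by linarith)] at h3
  have h4 := Real.log_le_rpow_div (x := T) (by linarith) hε
  have h5 : 1 ≤ T ^ ε := Real.one_le_rpow hT hε.le
  have hn0 : (0 : ℝ) ≤ n := Nat.cast_nonneg n
  have h6 : (B : ℝ) ≤ n + n / (ε * Real.log 2) * T ^ ε := by
    refine le_of_mul_le_mul_right (h3.trans ?_) hl
    have h7 : (n + n / (ε * Real.log 2) * T ^ ε) * Real.log 2 =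
        n * (Real.log 2 + T ^ ε / ε) := by
      field_simp
    rw [h7]
    exact mul_le_mul_of_nonneg_left (by linarith) hn0
  push_cast
  nlinarith

theorem fibre_le {β α : Type} [Fintype α] (X : Finset β) (ℓ : β → α) {M : ℝ}
    (h : ∀ Y ⊆ X, (∀ P ∈ Y, ∀ Q ∈ Y, ℓ P = ℓ Q) → (Y.card : ℝ) ≤ M) :
    (X.card : ℝ) ≤ Fintype.card α * M := by
  rw [Finset.card_eq_sum_card_fiberwise (f := ℓ) (t := Finset.univ) fun _ _ => Finset.mem_univ _]
  push_cast
  refine (Finset.sum_le_card_nsmul _ _ M fun a _ => h _ (Finset.filter_subset _ _)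
    fun P hP Q hQ => ?_).trans (by rw [nsmul_eq_mul, Finset.card_univ])
  rw [(Finset.mem_filter.1 hP).2, (Finset.mem_filter.1 hQ).2]

theorem kap_continuousAt {b : ℝ} (hb : 0 < b) : ContinuousAt kap b := by
  unfold kap
  have h1 : 1 + b ≠ 0 := by positivity
  have h2 : b ≠ 0 := hb.ne'
  fun_prop (disch := assumption)

theorem divis_s {n : ℕ} (hn : 3 ≤ n) :
    0 < 1 - 1 / ((n : ℝ) - 1) ^ 2 ∧ 1 - 1 / ((n : ℝ) - 1) ^ 2 < 1 := by
  have h1 : (3 : ℝ) ≤ n := by exact_mod_cast hn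
  have h2 : 1 < ((n : ℝ) - 1) ^ 2 := by nlinarith
  have h3 : 0 < 1 / ((n : ℝ) - 1) ^ 2 := one_div_pos.2 (by linarith)
  have h4 : 1 / ((n : ℝ) - 1) ^ 2 < 1 := (div_lt_one (by linarith)).2 h2
  constructor <;> linarith

theorem bpar_pos {n : ℕ} (hn : 3 ≤ n) : 0 < bpar n := by
  have h := divis_s hn
  have h1 : √(1 - 1 / ((n : ℝ) - 1) ^ 2) < 1 := (Real.sqrt_lt' one_pos).2 (by rw [one_pow]; exact h.2)
  have h2 := one_lt_one_div (Real.sqrt_pos.2 h.1) h1
  unfold bpar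
  linarith

theorem bpar_lt {n : ℕ} (hn : 3 ≤ n) {b : ℝ} (hb : bpar n < b) :
    (1 / ((n : ℝ) - 1)) ^ 2 < 1 - 1 / (1 + 2 * b) ^ 2 := by
  have h := divis_s hn
  have h1 : 1 / √(1 - 1 / ((n : ℝ) - 1) ^ 2) < 1 + 2 * b := by
    unfold bpar at hb
    linarith
  have h2 : 0 < 1 / √(1 - 1 / ((n : ℝ) - 1) ^ 2) := one_div_pos.2 (Real.sqrt_pos.2 h.1)
  have h3 := pow_lt_pow_left₀ h1 h2.le two_ne_zero
  rw [div_pow, one_pow, Real.sq_sqrt h.1.le] at h3
  have h4 := (one_div_lt (pow_pos (h2.trans h1) 2) h.1).2 h3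
  rw [div_pow, one_pow]
  linarith

end Pool.Agent.Lib.MP_830c64_nt
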