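import Pool.Agent.Lib.MP_830c64_nt.Defs

namespace Pool.Agent.Lib.MP_830c64_nt

open NumberField
open scoped Classical nonZeroDivisors IntermediateField

/-- The map to the class group (`QuotientGroup.map`, `ClassGroup.equiv` or `ClassGroup.mk`) has a
kernel that is a quotient of `Kˣ / totPos K`, which embeds in the signs `(K →+* ℝ) → ℤˣ`; there are
at most `n` real embeddings. -/
theorem narrow_ker (K : Type) [Field K] [NumberField K] :
    ∃ π : NarrowCl K →* ClassGroup (𝓞 K), Finite π.ker ∧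
      Nat.card π.ker ≤ 2 ^ Module.finrank ℚ K := by
  let π : NarrowCl K →* ClassGroup (𝓞 K) := (ClassGroup.equiv K).symm.toMonoidHom.comp
    (QuotientGroup.map _ _ (MonoidHom.id _) (Subgroup.map_le_range _ _))
  have h1 : ∀ c : π.ker, ∃ u : Kˣ, (toPrincipalIdeal (𝓞 K) K u : NarrowCl K) = c.1 := by
    rintro ⟨c, hc⟩
    obtain ⟨I, rfl⟩ := QuotientGroup.mk_surjective c
    obtain ⟨u, rfl⟩ := (QuotientGroup.eq_one_iff I).1
      ((ClassGroup.equiv K).symm.map_eq_one_iff.1 hc)
    exact ⟨u, rfl⟩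
  choose u hu using h1
  have h2 : Function.Injective fun (c : π.ker) (σ : K →+* ℝ) => decide (0 < σ (u c : K)) := by
    intro c c' h
    refine Subtype.ext ?_
    rw [← hu, ← hu, QuotientGroup.eq, ← map_inv, ← map_mul]
    refine Subgroup.mem_map_of_mem _ fun σ => ?_
    have h3 : 0 < σ (u c : K) ↔ 0 < σ (u c' : K) := decide_eq_decide.1 (congrFun h σ)
    have h4 : σ (u c : K) ≠ 0 := (map_ne_zero σ).2 (u c).ne_zero
    have h5 : σ (u c' : K) ≠ 0 := (map_ne_zero σ).2 (u c').ne_zero
    rw [Units.val_mul, Units.val_inv_eq_inv_val, map_mul, map_inv₀]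
    rcases lt_or_gt_of_ne h4 with l | l
    · exact mul_pos_of_neg_of_neg (inv_lt_zero.2 l)
        (lt_of_le_of_ne (not_lt.1 fun e => l.not_gt (h3.2 e)) h5)
    · exact mul_pos (inv_pos.2 l) (h3.1 l)
  have h3 : Function.Injective fun σ : K →+* ℝ => Complex.ofRealHom.comp σ := fun σ τ h =>
    RingHom.ext fun x => Complex.ofReal_injective (RingHom.congr_fun h x)
  have : Finite (K →+* ℝ) := Finite.of_injective _ h3
  refine ⟨π, Finite.of_injective _ h2, (Nat.card_le_card_of_injective _ h2).trans ?_⟩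
  rw [Nat.card_fun, Nat.card_eq_fintype_card (α := Bool), Fintype.card_bool,
    ← Embeddings.card K ℂ, ← Nat.card_eq_fintype_card]
  exact Nat.pow_le_pow_right two_pos (Nat.card_le_card_of_injective _ h3)

theorem narrow_le (K : Type) [Field K] [NumberField K] :
    Finite (NarrowCl K) ∧
      Nat.card {c : NarrowCl K // c ^ 2 = 1} ≤ 2 ^ Module.finrank ℚ K * h2 K := by
  obtain ⟨π, h1, h3⟩ := narrow_ker K
  have h4 : ∀ c, c / Function.invFun π (π c) ∈ π.ker := fun c => by
    rw [MonoidHom.mem_ker, map_div, Function.invFun_eq (f := π) ⟨c, rfl⟩, div_self']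
  have h5 : ∀ c c', π c = π c' → c / Function.invFun π (π c) = c' / Function.invFun π (π c') →
      c = c' := fun c c' e e' => by rwa [e, div_left_inj] at e'
  refine ⟨Finite.of_injective (fun c => ((⟨_, h4 c⟩ : π.ker), π c)) fun c c' e =>
    h5 c c' (congrArg Prod.snd e) (congrArg (fun x => x.1.1) e), ?_⟩
  refine (Nat.card_le_card_of_injective (fun c : {c : NarrowCl K // c ^ 2 = 1} =>
    ((⟨_, h4 c.1⟩ : π.ker), (⟨π c.1, by rw [← map_pow, c.2, map_one]⟩ :
      {c : ClassGroup (𝓞 K) // c ^ 2 = 1}))) fun c c' e => Subtype.ext (h5 _ _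
        (congrArg (fun x => x.2.1) e) (congrArg (fun x => x.1.1) e))).trans ?_
  rw [Nat.card_prod]
  exact Nat.mul_le_mul_right _ h3

end Pool.Agent.Lib.MP_830c64_nt
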