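import Pool.Agent.Lib.MP_830c64_nt.GoSq

namespace Pool.Agent.Lib.MP_830c64_nt

open NumberField
open scoped Classical nonZeroDivisors IntermediateField

theorem gospan_count {M ι : Type} [AddCommGroup M] [Module.Free ℤ M] [Module.Finite ℤ M]
    [Fintype ι] [DecidableEq ι] (b : Module.Basis ι ℤ M) (S : Finset M) (e : ι → M)
    (he : ∀ i, e i ∈ S) (h0 : b.det e ≠ 0)
    (hmax : ∀ f : ι → M, (∀ i, f i ∈ S) → |b.det f| ≤ |b.det e|) :
    S.card ≤ 5 ^ Fintype.card ι * (b.det e).natAbs := by
  have li : LinearIndependent ℤ e := by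
    by_contra h
    exact h0 (b.det.map_linearDependent e h)
  set N : Submodule ℤ M := Submodule.span ℤ (Set.range e) with hN
  have hcard : (b.det e).natAbs = Nat.card (M ⧸ N) := by
    rw [← Submodule.natAbs_det_basis_change b N (Module.Basis.span li)]
    congr 2
    funext i
    exact (congrArg Subtype.val (Module.Basis.span_apply li i)).symm
  have hfin : Finite (M ⧸ N) := by
    apply Nat.finite_of_card_ne_zero
    rw [← hcard]
    exact Int.natAbs_ne_zero.mpr h0
  have key : ∀ (c : ι → ℤ) (i : ι),
      b.det (Function.update e i (∑ j, c j • e j)) = c i * b.det e := by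
    intro c i
    rw [AlternatingMap.map_update_sum, Finset.sum_eq_single i]
    · rw [AlternatingMap.map_update_smul, Function.update_eq_self, smul_eq_mul]
    · intro j _ hj
      rw [AlternatingMap.map_update_smul, AlternatingMap.map_update_self _ _ (Ne.symm hj),
        smul_zero]
    · intro h
      exact absurd (Finset.mem_univ i) h
  have hup : ∀ x ∈ S, ∀ i, |b.det (Function.update e i x)| ≤ |b.det e| := by
    intro x hx i
    apply hmax
    intro j
    by_cases hj : j = i
    · subst hj
      rw [Function.update_self]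
      exact hx
    · rw [Function.update_of_ne hj]
      exact he j
  have h1 := Finset.card_le_mul_card_image (f := N.mkQ) S (5 ^ Fintype.card ι) (by
    intro q hq
    obtain ⟨x₀, hx₀, rfl⟩ := Finset.mem_image.mp hq
    have hsub : S.filter (fun a => N.mkQ a = N.mkQ x₀) ⊆
        (Fintype.piFinset fun _ : ι => Finset.Icc (-2 : ℤ) 2).image
          (fun c => x₀ + ∑ j, c j • e j) := by
      intro x hx
      obtain ⟨hxS, hxq⟩ := Finset.mem_filter.mp hx
      have hmem : x - x₀ ∈ N := by
        rw [Submodule.mkQ_apply, Submodule.mkQ_apply] at hxq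
        exact (Submodule.Quotient.eq N).mp hxq
      obtain ⟨c, hc⟩ := (Submodule.mem_span_range_iff_exists_fun ℤ).mp hmem
      refine Finset.mem_image.mpr ⟨c, ?_, by rw [hc]; abel⟩
      rw [Fintype.mem_piFinset]
      intro i
      have h2 := key c i
      rw [hc, AlternatingMap.map_update_sub] at h2
      have h3 : |c i| * |b.det e| ≤ 2 * |b.det e| := by
        rw [← abs_mul, ← h2]
        have := abs_sub (b.det (Function.update e i x)) (b.det (Function.update e i x₀))
        linarith [hup x hxS i, hup x₀ hx₀ i]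
      have h4 : |c i| ≤ 2 := le_of_mul_le_mul_right h3 (abs_pos.mpr h0)
      rw [Finset.mem_Icc]
      exact abs_le.mp h4
    refine (Finset.card_le_card hsub).trans (Finset.card_image_le.trans ?_)
    rw [Fintype.card_piFinset]
    simp)
  refine h1.trans (Nat.mul_le_mul_left _ ?_)
  rw [hcard]
  have := Fintype.ofFinite (M ⧸ N)
  rw [Nat.card_eq_fintype_card]
  exact Finset.card_le_univ _

theorem gospan_discr (K : Type) [Field K] [NumberField K]
    (e : Module.Free.ChooseBasisIndex ℤ (𝓞 K) → 𝓞 K) :
    Algebra.discr ℚ (fun i => (e i : K)) =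
      (((RingOfIntegers.basis K).det e : ℤ) : ℚ) ^ 2 * (discr K : ℚ) := by
  set b := RingOfIntegers.basis K with hb
  have h1 : (fun i => (e i : K)) = Matrix.vecMul (integralBasis K)
      (((b.toMatrix e).map (Int.castRingHom ℚ)).map (algebraMap ℚ K)) := by
    funext j
    have h2 := congrArg (algebraMap (𝓞 K) K) (b.sum_toMatrix_smul_self e j)
    rw [map_sum] at h2
    change algebraMap (𝓞 K) K (e j) = _
    rw [← h2]
    simp only [Matrix.vecMul, dotProduct, Matrix.map_apply, integralBasis_apply]
    refine Finset.sum_congr rfl fun i _ => ?_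
    rw [zsmul_eq_mul, map_mul, map_intCast, mul_comm]
    simp [hb]
  rw [h1, Algebra.discr_of_matrix_vecMul, coe_discr, Module.Basis.det_apply]
  congr 2
  exact ((Int.castRingHom ℚ).map_det (b.toMatrix e)).symm

theorem gospan_bound (K : Type) [Field K] [NumberField K] (T : ℝ)
    (e : Module.Free.ChooseBasisIndex ℤ (𝓞 K) → 𝓞 K) (he : ∀ i, e i ∈ box K T) :
    ((((RingOfIntegers.basis K).det e).natAbs : ℕ) : ℝ) * √|(discr K : ℝ)| ≤
      (Module.finrank ℚ K).factorial * T ^ Module.finrank ℚ K := by
  have hc : Fintype.card (Module.Free.ChooseBasisIndex ℤ (𝓞 K)) = Module.finrank ℚ K :=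
    (Module.finrank_eq_card_basis (integralBasis K)).symm
  let E : Module.Free.ChooseBasisIndex ℤ (𝓞 K) ≃ (K →ₐ[ℚ] ℂ) :=
    Fintype.equivOfCardEq (by rw [hc, AlgHom.card])
  have h1 := Algebra.discr_eq_det_embeddingsMatrixReindex_pow_two ℚ ℂ (fun i => (e i : K)) E
  set A := Algebra.embeddingsMatrixReindex ℚ ℂ (fun i => (e i : K)) E with hA
  have h2 : ‖A.det‖ ≤ (Module.finrank ℚ K).factorial * T ^ Module.finrank ℚ K := by
    have := Matrix.det_le (A := A) (abv := NormedField.toAbsoluteValue ℂ) (x := T) (by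
      intro i j
      exact he i (E j).toRingHom)
    rw [hc, nsmul_eq_mul] at this
    exact this
  refine le_trans (le_of_eq ?_) h2
  rw [gospan_discr] at h1
  have h3 := congrArg (fun z : ℂ => ‖z‖) h1
  simp only [map_mul, map_pow, map_intCast, norm_mul, norm_pow, Complex.norm_intCast] at h3
  rw [← Real.sqrt_sq (norm_nonneg A.det), ← h3, Real.sqrt_mul (sq_nonneg _),
    Real.sqrt_sq (abs_nonneg _), Nat.cast_natAbs, Int.cast_abs]

theorem gospan_exists (K : Type) [Field K] [NumberField K] (S : Set (𝓞 K))
    (h : Submodule.span ℚ ((fun β : 𝓞 K => (β : K)) '' S) = ⊤) :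
    ∃ e : Module.Free.ChooseBasisIndex ℤ (𝓞 K) → 𝓞 K, (∀ i, e i ∈ S) ∧
      (RingOfIntegers.basis K).det e ≠ 0 := by
  obtain ⟨t, hts, hspan, hli⟩ := exists_linearIndependent ℚ ((fun β : 𝓞 K => (β : K)) '' S)
  let B : Module.Basis t ℚ K := Module.Basis.mk hli (by
    rw [Subtype.range_coe_subtype, Set.ofPred_mem_eq, hspan, h])
  let E := (integralBasis K).indexEquiv B
  have hex : ∀ x : t, ∃ β ∈ S, (β : K) = x := fun x => hts x.2
  choose g hgS hg using hex
  refine ⟨fun i => g (E i), fun i => hgS _, fun h0 => ?_⟩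
  have h1 := gospan_discr K (fun i => g (E i))
  rw [h0] at h1
  have h2 : (fun i => ((g (E i) : 𝓞 K) : K)) = B.reindex E.symm := by
    funext i
    rw [hg, Module.Basis.reindex_apply, Equiv.symm_symm, Module.Basis.mk_apply]
  rw [h2] at h1
  exact Algebra.discr_not_zero_of_basis ℚ (B.reindex E.symm) (by rw [h1]; simp)

/-- Take a basis `e` of `K` inside `box T`. One proof: in the mixed space every point is congruent,
modulo the lattice, to a point all of whose coordinates are at most `n T` (`ZSpan.fract` for the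
basis `e`), so every translate of the lattice has at least `ncard (box T)` points in the box of size
`(n + 1) T + 1`; integrate over the fundamental domain of `latticeBasis K`
(`IsAddFundamentalDomain.lintegral_eq_tsum`, `volume_fundamentalDomain_latticeBasis`,
`convexBodyLT_volume`). Another proof: choose `e` in the box with largest discriminant, so that all
elements of the box have coordinates `≤ 1`, count the elements of `𝓞 K` with such coordinates by
the index of the span of `e`, and bound the index by `Algebra.discr` and Hadamard. -/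
theorem span_le (n : ℕ) : ∃ c : ℝ, 0 ≤ c ∧
    ∀ (K : Type) [Field K] [NumberField K], Module.finrank ℚ K = n → ∀ T : ℝ, 1 ≤ T →
      Submodule.span ℚ ((fun β : 𝓞 K => (β : K)) '' box K T) = ⊤ →
      ((box K T).ncard : ℝ) * √|(discr K : ℝ)| ≤ c * T ^ n := by
  refine ⟨5 ^ n * n.factorial, by positivity, ?_⟩
  intro K _ _ hn T _ hspan
  have hc : Fintype.card (Module.Free.ChooseBasisIndex ℤ (𝓞 K)) = n :=
    (Module.finrank_eq_card_basis (integralBasis K)).symm.trans hn
  obtain ⟨e₀, he₀, h₀⟩ := gospan_exists K (box K T) hspan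
  have hfin : {f : Module.Free.ChooseBasisIndex ℤ (𝓞 K) → 𝓞 K | ∀ i, f i ∈ box K T}.Finite :=
    Set.Finite.pi' fun _ => box_finite K T
  obtain ⟨e, he, hmax⟩ := Set.exists_max_image _
    (fun f => |(RingOfIntegers.basis K).det f|) hfin ⟨e₀, he₀⟩
  have h1 : (RingOfIntegers.basis K).det e ≠ 0 := by
    intro h
    have := hmax e₀ he₀
    rw [h, abs_zero] at this
    exact h₀ (abs_nonpos_iff.mp this)
  have h2 := gospan_count (RingOfIntegers.basis K) (box_finite K T).toFinset e
    (fun i => (Set.Finite.mem_toFinset _).mpr (he i)) h1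
    (fun f hf => hmax f fun i => (Set.Finite.mem_toFinset _).mp (hf i))
  rw [← Set.ncard_eq_toFinset_card _ (box_finite K T), hc] at h2
  have h3 := gospan_bound K T e he
  rw [hn] at h3
  have h4 : ((box K T).ncard : ℝ) ≤
      5 ^ n * ((((RingOfIntegers.basis K).det e).natAbs : ℕ) : ℝ) := by exact_mod_cast h2
  calc ((box K T).ncard : ℝ) * √|(discr K : ℝ)|
      ≤ 5 ^ n * ((((RingOfIntegers.basis K).det e).natAbs : ℕ) : ℝ) * √|(discr K : ℝ)| :=
        mul_le_mul_of_nonneg_right h4 (Real.sqrt_nonneg _)
    _ = 5 ^ n * (((((RingOfIntegers.basis K).det e).natAbs : ℕ) : ℝ) * √|(discr K : ℝ)|) := by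
        ring
    _ ≤ 5 ^ n * (n.factorial * T ^ n) := mul_le_mul_of_nonneg_left h3 (by positivity)
    _ = 5 ^ n * n.factorial * T ^ n := by ring

end Pool.Agent.Lib.MP_830c64_nt
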