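import Pool.Agent.Lib.MP_830c64_nt.Base

/-! Definitions for the bound on the 2-torsion of class groups of odd degree fields:
the curve `y ^ 2 = f x`, orders and leading coefficients, local symbols, places. -/

namespace Pool.Agent.Lib.MP_830c64_nt

open Polynomial
open scoped Classical nonZeroDivisors

noncomputable section

section Curve

variable {k : Type*} [Field k]

/-- The coordinate ring `k[x,y] / (y ^ 2 - f)`; an element is `re + im * y`; `star` is `y ↦ -y`. -/
abbrev CR (f : k[X]) : Type _ := QuadraticAlgebra k[X] f 0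

/-- Affine points of `y ^ 2 = f x`. A point with `y = 0` is called a W-point. -/
@[ext] structure Pt (f : k[X]) where
  x : k
  y : k
  on : y ^ 2 = f.eval x

instance (f : k[X]) : DecidableEq (Pt f) := Classical.decEq _

/-- Standing hypotheses on the curve. -/
structure Crv (f : k[X]) (g : ℕ) : Prop where
  monic : f.Monic
  deg : f.natDegree = 2 * g + 1
  sep : f.Separable
  pos : 1 ≤ g

variable {f : k[X]}

/-- The hyperelliptic involution. -/
def Pt.inv (P : Pt f) : Pt f := ⟨P.x, -P.y, by rw [neg_sq]; exact P.on⟩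

/-- The norm `re ^ 2 - f * im ^ 2`. -/
def nm (φ : CR f) : k[X] := QuadraticAlgebra.norm φ

/-- The pole order at infinity. -/
def wt (φ : CR f) : ℕ := (nm φ).natDegree

/-- Polynomials in `x` as functions on the curve. -/
def pol (f : k[X]) : k[X] →+* CR f := algebraMap k[X] (CR f)

/-- The function `y + c`. -/
def yy (f : k[X]) (c : k[X]) : CR f := ⟨c, 1⟩

/-- Evaluation at a point. -/
def ev (P : Pt f) : CR f →+* k where
  toFun φ := φ.re.eval P.x + φ.im.eval P.x * P.y
  map_one' := by simp [QuadraticAlgebra.re_one, QuadraticAlgebra.im_one]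
  map_mul' φ ψ := by
    have := P.on
    simp only [QuadraticAlgebra.re_mul, QuadraticAlgebra.im_mul, eval_add, eval_mul, eval_zero]
    rw [← this]; ring
  map_zero' := by simp
  map_add' φ ψ := by
    simp only [QuadraticAlgebra.re_add, QuadraticAlgebra.im_add, eval_add]; ring

/-- `φ` vanishes to order `j` at `P` with leading coefficient `c` in the parameter `x - P.x`
(meaningful when `P.y ≠ 0`). -/
def IsLead (P : Pt f) (φ : CR f) (j : ℕ) (c : k) : Prop :=
  c ≠ 0 ∧ ∃ ψ : CR f, pol f ((X - C P.x) ^ j) * ψ = φ * yy f (C P.y) ^ j ∧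
    ev P ψ = c * (2 * P.y) ^ j

def ordLead (P : Pt f) (φ : CR f) : ℕ × k :=
  if h : ∃ t : ℕ × k, IsLead P φ t.1 t.2 then h.choose else (0, 1)

/-- Order of vanishing at a point. -/
def ord (P : Pt f) (φ : CR f) : ℕ :=
  if P.y = 0 then (nm φ).rootMultiplicity P.x else (ordLead P φ).1

/-- Leading coefficient at a point with `P.y ≠ 0`. -/
def lead (P : Pt f) (φ : CR f) : k := (ordLead P φ).2

/-- The divisor of zeros. -/
def dv (φ : CR f) : Multiset (Pt f) :=
  if h : ∃ D : Multiset (Pt f), ∀ P, D.count P = ord P φ then h.choose else 0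

/-- `z` if `z ≠ 0`, else `1`. -/
def nz (z : k) : k := if z = 0 then 1 else z

/-- The monic polynomial whose roots are the `x`-coordinates of `D`. -/
def aD (D : Multiset (Pt f)) : k[X] := (D.map fun P => X - C P.x).prod

/-- Linear equivalence modulo the point at infinity. -/
def rel (D E : Multiset (Pt f)) : Prop := ∃ χ : CR f, χ ≠ 0 ∧ dv χ = D + E.map Pt.inv

/-- Reduced divisors. -/
def Red (g : ℕ) (E : Multiset (Pt f)) : Prop := E.card ≤ g ∧ ∀ P ∈ E, P.inv ∉ E

/-- Automorphisms of `k` fixing `f`. -/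
def Aut (f : k[X]) : Type _ := {τ : k ≃+* k // f.map (τ : k →+* k) = f}

def Pt.act (τ : Aut f) (P : Pt f) : Pt f :=
  ⟨τ.1 P.x, τ.1 P.y, by
    have h := congrArg (τ.1 : k →+* k) P.on
    rw [map_pow, ← eval₂_at_apply, eval₂_eq_eval_map, τ.2] at h
    exact h⟩

def actCR (τ : Aut f) (φ : CR f) : CR f := ⟨φ.re.map (τ.1 : k →+* k), φ.im.map (τ.1 : k →+* k)⟩

/-- Galois stable divisors. -/
def Stab (D : Multiset (Pt f)) : Prop := ∀ τ : Aut f, D.map (Pt.act τ) = D

/-- The monoid of Galois stable divisors. -/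
def SD (f : k[X]) : AddSubmonoid (Multiset (Pt f)) where
  carrier := {D | Stab D}
  add_mem' := fun {a b} ha hb τ => by rw [Multiset.map_add, ha τ, hb τ]
  zero_mem' := fun τ => by simp

/-- The leading value at `P` of `(y + R.y) / (x - R.x)`. -/
def sl (P R : Pt f) : k :=
  if R.x = P.x then (if R.y = P.y then 2 * P.y else f.derivative.eval P.x / (2 * P.y))
  else (P.y + R.y) / (P.x - R.x)

variable (v : AbsoluteValue k ℝ)

def Hh (P R : Pt f) : ℝ := max 1 (max (v P.x) (v R.x))

def ww (P R : Pt f) : ℝ := √(Hh v P R ^ (f.natDegree - 2))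

def mu (P R : Pt f) : ℝ := if R = P then v (sl P R) else max (ww v P R) (v (sl P R))

/-- The naive local symbol. -/
def sn (P R : Pt f) : ℝ := Real.log (mu v P R) - Real.log (mu v P.inv R)

/-- `σ` satisfies reciprocity at `P` and is within bounded distance of the naive symbol. -/
def IsSym (P : Pt f) (σ : Pt f → ℝ) : Prop :=
  (∀ φ : CR f, φ ≠ 0 →
    ((dv φ).map σ).sum = Real.log (v (lead P.inv φ)) - Real.log (v (lead P φ))) ∧
  ∃ B : ℝ, ∀ R, |σ R - sn v P R| ≤ B

/-- The canonical local symbol. -/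
def sig (P : Pt f) : Pt f → ℝ :=
  if h : P.y ≠ 0 ∧ ∃ σ, IsSym v P σ then h.2.choose else 0

/-- The local term of the repulsion inequality. -/
def LL (P Q : Pt f) : ℝ :=
  -sig v Q P + Real.log (v (Q.x - P.x)) +
    (sig v P P - Real.log (v (f.eval P.x))) / ((f.natDegree : ℝ) - 1)

/-- `κ` bounds all the constants of `(v, f)`; `κ = 1` is good reduction. -/
structure Dat (f : k[X]) (κ : ℝ) : Prop where
  one_le : 1 ≤ κ
  tri : ∀ a b, v (a + b) ≤ κ * max (v a) (v b)
  two : 1 ≤ κ * v 2
  cf : ∀ i, v (f.coeff i) ≤ κ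
  bez : ∃ U V : k[X], U * f + V * f.derivative = 1 ∧ (∀ i, v (U.coeff i) ≤ κ) ∧
    ∀ i, v (V.coeff i) ≤ κ

/-- Size of a function on the disc of radius `r` about `0`. -/
def nuG (r : ℝ) (φ : CR f) : ℝ :=
  max (φ.re.gaussNorm v r) (√(r ^ f.natDegree) * φ.im.gaussNorm v r)

/-- Gauss norm on the disc of centre `a` and radius `r`. -/
def gc (a : k) (r : ℝ) (p : k[X]) : ℝ := (taylor a p).gaussNorm v r

/-- `i` is the least index at which the Gauss norm is attained. -/
def MinIdx (a : k) (r : ℝ) (p : k[X]) (i : ℕ) : Prop :=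
  gc v a r p = v ((taylor a p).coeff i) * r ^ i ∧
    ∀ j < i, v ((taylor a p).coeff j) * r ^ j < gc v a r p

/-- Substitute `y = h`. -/
def pp (h : k[X]) (u : CR f) : k[X] := u.re + u.im * h

/-- Substitute `y = -h`. -/
def pm (h : k[X]) (u : CR f) : k[X] := u.re - u.im * h

/-- Size of a function on a disc over which the curve has two sheets `y ≈ ± h`. -/
def nS (a : k) (r : ℝ) (h : k[X]) (u : CR f) : ℝ := max (gc v a r (pp h u)) (gc v a r (pm h u))

end Curve

section Global

abbrev kk : Type := AlgebraicClosure ℚ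

instance kkAlg : Algebra.IsAlgebraic ℚ kk := AlgebraicClosure.isAlgebraic ℚ

instance kkCl : IsAlgClosure ℚ kk := AlgebraicClosure.instIsAlgClosure ℚ

/-- A fixed embedding of the algebraic numbers in `ℂ`. -/
def io : kk →+* ℂ := (IsAlgClosed.lift : kk →ₐ[ℚ] ℂ).toRingHom

/-- A fixed embedding of the algebraic numbers in an algebraic closure of `ℚ_[p]`. -/
def ip (p : ℕ) [Fact p.Prime] : kk →+* PadicAlgCl p :=
  (IsAlgClosed.lift : kk →ₐ[ℚ] PadicAlgCl p).toRingHom

/-- One absolute value of `kk` above each place of `ℚ`. -/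
def pl : Option Nat.Primes → AbsoluteValue kk ℝ
  | none => (NormedField.toAbsoluteValue ℂ).comp io.injective
  | some p =>
    haveI := Fact.mk p.2
    (NormedField.toAbsoluteValue (PadicAlgCl p)).comp (ip p).injective

def fk (f₀ : ℤ[X]) : kk[X] := f₀.map (Int.castRingHom kk)

/-- Standing hypotheses on the integral model. -/
structure GC (f₀ : ℤ[X]) (g : ℕ) : Prop where
  monic : f₀.Monic
  deg : f₀.natDegree = 2 * g + 1
  pos : 1 ≤ g
  irr : Irreducible (f₀.map (Int.castRingHom ℚ))

/-- `Δ ≠ 0` lies in the ideal generated by `f₀` and its derivative. -/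
def Bez (f₀ : ℤ[X]) (Δ : ℤ) : Prop :=
  Δ ≠ 0 ∧ ∃ U V : ℤ[X], U * f₀ + V * f₀.derivative = C Δ

variable {f₀ : ℤ[X]}

/-- Sum of the local symbols. -/
def bb (P R : Pt (fk f₀)) : ℝ := ∑ᶠ w, sig (pl w) P R

/-- The height pairing. -/
def BB (D E : Multiset (Pt (fk f₀))) : ℝ :=
  -(1 / 2) * (D.map fun P => (E.map fun R => bb P R).sum).sum

/-- The naive height of a divisor. -/
def hN (E : Multiset (Pt (fk f₀))) : ℝ :=
  ∑ᶠ w, (E.map fun P => Real.log (max 1 (pl w P.x))).sum

/-- Integral points with positive `y`. -/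
def IP (P : Pt (fk f₀)) : Prop := ∃ x y : ℤ, 0 < y ∧ P.x = x ∧ P.y = y

/-- Integral points with positive `y` and bounded size. -/
def IPB (B : ℕ) (P : Pt (fk f₀)) : Prop :=
  ∃ x y : ℤ, 0 < y ∧ y ^ 2 < 2 ^ B ∧ |x| < 2 ^ B ∧ P.x = x ∧ P.y = y

end Global

section Fields

open NumberField

/-- The size of the 2-torsion subgroup of the class group. -/
def h2 (K : Type) [Field K] [NumberField K] : ℕ := Nat.card {c : ClassGroup (𝓞 K) // c ^ 2 = 1}

/-- The narrow class group: nonzero fractional ideals modulo the principal ideals with a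
totally positive generator. -/
abbrev NarrowCl (K : Type) [Field K] [NumberField K] : Type :=
  (FractionalIdeal (𝓞 K)⁰ K)ˣ ⧸ (totPos K).map (toPrincipalIdeal (𝓞 K) K)

/-- Integers all of whose conjugates have absolute value at most `T`. -/
def box (K : Type) [Field K] [NumberField K] (T : ℝ) : Set (𝓞 K) :=
  {β | ∀ σ : K →+* ℂ, ‖σ (β : K)‖ ≤ T}

/-- Coefficient of the three term recurrence of the monic Gegenbauer polynomials. -/
def bet (r j : ℕ) : ℝ :=
  (j : ℝ) * ((j : ℝ) + r - 3) / ((2 * (j : ℝ) + r - 2) * (2 * (j : ℝ) + r - 4))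

/-- Monic Gegenbauer polynomials for the sphere in dimension `r`. -/
def geg (r : ℕ) : ℕ → ℝ[X]
  | 0 => 1
  | 1 => X
  | j + 2 => X * geg r (j + 1) - C (bet r (j + 1)) * geg r j

end Fields

end

end Pool.Agent.Lib.MP_830c64_nt
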