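import Pool.Agent.Lib.MP_830c64_nt.GoSq

namespace Pool.Agent.Lib.MP_830c64_nt

open NumberField Polynomial
open scoped Classical IntermediateField

theorem goline_min (K : Type) [Field K] [NumberField K] (θ : 𝓞 K) :
    minpoly ℚ (θ : K) = (minpoly ℤ θ).map (Int.castRingHom ℚ) :=
  minpoly.isIntegrallyClosed_eq_field_fractions ℚ K θ.isIntegral

/-- The norm of `t - θ` is the value of the minimal polynomial (`minpoly ℚ` is the characteristic
polynomial; `Algebra.norm_eq_prod_embeddings`, or `PowerBasis.norm_gen_eq_coeff_zero_minpoly` for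
the generator `θ - t`). -/
theorem norm_sub (K : Type) [Field K] [NumberField K] (θ : 𝓞 K) (h : ℚ⟮(θ : K)⟯ = ⊤) (t : ℤ) :
    Algebra.norm ℤ ((t : 𝓞 K) - θ) = (minpoly ℤ θ).eval t := by
  have hi : IsIntegral ℚ (θ : K) := Algebra.IsIntegral.isIntegral _
  let pb : PowerBasis ℚ K := (IntermediateField.adjoin.powerBasis hi).map
    ((IntermediateField.equivOfEq h).trans IntermediateField.topEquiv)
  have hg : pb.gen = (θ : K) := rfl
  have h1 := charpoly_leftMulMatrix pb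
  rw [hg, goline_min] at h1
  have h2 : (((t : 𝓞 K) - θ : 𝓞 K) : K) = algebraMap ℚ K (t : ℚ) - (θ : K) := by simp
  have h3 : (((minpoly ℤ θ).eval t : ℤ) : ℚ) =
      ((minpoly ℤ θ).map (Int.castRingHom ℚ)).eval (t : ℚ) := by
    rw [eval_intCast_map]
    rfl
  refine Int.cast_injective (α := ℚ) ?_
  rw [Algebra.coe_norm_int, h2, Algebra.norm_eq_matrix_det pb.basis, map_sub, AlgHom.commutes,
    h3, ← h1, Matrix.eval_charpoly]
  rfl

theorem gc_minpoly (K : Type) [Field K] [NumberField K] {g : ℕ} (hg : 1 ≤ g)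
    (hK : Module.finrank ℚ K = 2 * g + 1) (θ : 𝓞 K) (h : ℚ⟮(θ : K)⟯ = ⊤) :
    GC (minpoly ℤ θ) g := by
  have hi : IsIntegral ℚ (θ : K) := Algebra.IsIntegral.isIntegral _
  have hm : (minpoly ℤ θ).Monic := minpoly.monic θ.isIntegral
  refine ⟨hm, ?_, hg, ?_⟩
  · rw [← hm.natDegree_map (Int.castRingHom ℚ), ← goline_min,
      ← IntermediateField.adjoin.finrank hi, h, IntermediateField.finrank_top', hK]
  · rw [← goline_min]
    exact minpoly.irreducible hi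

theorem root_minpoly_le (K : Type) [Field K] [NumberField K] (θ : 𝓞 K) {T : ℝ}
    (hθ : θ ∈ box K T) : ∀ z ∈ ((minpoly ℤ θ).map (Int.castRingHom ℂ)).roots, ‖z‖ ≤ T := by
  intro z hz
  have hi : IsIntegral ℚ (θ : K) := Algebra.IsIntegral.isIntegral _
  have h1 : z ∈ (minpoly ℚ (θ : K)).rootSet ℂ := by
    rw [mem_rootSet]
    refine ⟨minpoly.ne_zero hi, ?_⟩
    have h2 := (mem_roots'.1 hz).2
    rw [goline_min, aeval_def, eval₂_map, eval₂_eq_eval_map,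
      RingHom.ext_int ((algebraMap ℚ ℂ).comp (Int.castRingHom ℚ)) (Int.castRingHom ℂ)]
    exact h2
  rw [← NumberField.Embeddings.range_eval_eq_rootSet_minpoly K ℂ] at h1
  obtain ⟨σ, rfl⟩ := h1
  exact hθ σ

/-- Count the pairs `(β, t)` with `|t| ≤ T` by `γ = β + t ∈ box (2 T)`: with `θ = - γ` the norm of
`β = (-t) - θ` is the value of `minpoly ℤ θ` at `-t`. -/
theorem line_le (K : Type) [Field K] [NumberField K] {T M : ℝ} (hT : 1 ≤ T) (hM0 : 0 ≤ M)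
    (hM : ∀ θ ∈ box K (2 * T), ℚ⟮(θ : K)⟯ = ⊤ →
      (((Finset.Icc (-⌊2 * T⌋) ⌊2 * T⌋).filter fun t : ℤ =>
        IsSquare ((minpoly ℤ θ).eval t)).card : ℝ) ≤ M) :
    ({β | β ∈ box K T ∧ ℚ⟮(β : K)⟯ = ⊤ ∧ IsSquare (Algebra.norm ℤ β)}.ncard : ℝ) * T ≤
      (box K (2 * T)).ncard * M := by
  have hS : {β | β ∈ box K T ∧ ℚ⟮(β : K)⟯ = ⊤ ∧ IsSquare (Algebra.norm ℤ β)}.Finite :=
    (box_finite K T).subset fun β hβ => hβ.1
  rw [Set.ncard_eq_toFinset_card _ hS, Set.ncard_eq_toFinset_card _ (box_finite K (2 * T))]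
  have hf : (⌊T⌋ : ℝ) ≤ T := Int.floor_le T
  have hf1 : 1 ≤ ⌊T⌋ := Int.le_floor.2 (by simpa using hT)
  have hI : T ≤ ((Finset.Icc (-⌊T⌋) ⌊T⌋).card : ℝ) := by
    have h1 : (((Finset.Icc (-⌊T⌋) ⌊T⌋).card : ℕ) : ℤ) = ⌊T⌋ + 1 - -⌊T⌋ :=
      Int.card_Icc_of_le _ _ (by omega)
    have h2 : (((Finset.Icc (-⌊T⌋) ⌊T⌋).card : ℕ) : ℝ) = ⌊T⌋ + 1 - -⌊T⌋ := by exact_mod_cast h1
    have h3 := Int.lt_floor_add_one T
    have h4 : (1 : ℝ) ≤ ⌊T⌋ := by exact_mod_cast hf1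
    linarith
  have hmap : ∀ p ∈ hS.toFinset ×ˢ Finset.Icc (-⌊T⌋) ⌊T⌋,
      -(p.1 + (p.2 : 𝓞 K)) ∈ (box_finite K (2 * T)).toFinset := by
    intro p hp
    obtain ⟨h1, h2⟩ := Finset.mem_product.1 hp
    refine (Set.Finite.mem_toFinset _).2 fun σ => ?_
    have h3 := (hS.mem_toFinset.1 h1).1 σ
    have h4 : ((-(p.1 + (p.2 : 𝓞 K)) : 𝓞 K) : K) = -((p.1 : K) + (p.2 : K)) := by simp
    have h5 : |p.2| ≤ ⌊T⌋ := abs_le.2 (Finset.mem_Icc.1 h2)
    have h6 : |(p.2 : ℝ)| ≤ ⌊T⌋ := by exact_mod_cast h5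
    rw [h4, map_neg, norm_neg, map_add, map_intCast]
    refine (norm_add_le _ _).trans ?_
    rw [Complex.norm_intCast]
    linarith
  have hfib : ∀ θ ∈ (box_finite K (2 * T)).toFinset,
      (((hS.toFinset ×ˢ Finset.Icc (-⌊T⌋) ⌊T⌋).filter
        fun p => -(p.1 + (p.2 : 𝓞 K)) = θ).card : ℝ) ≤ M := by
    intro θ hθ
    rcases Finset.eq_empty_or_nonempty ((hS.toFinset ×ˢ Finset.Icc (-⌊T⌋) ⌊T⌋).filter
      fun p => -(p.1 + (p.2 : 𝓞 K)) = θ) with h0 | ⟨p, hp⟩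
    · rw [h0]
      simpa using hM0
    have hβ : ∀ p : 𝓞 K × ℤ, -(p.1 + (p.2 : 𝓞 K)) = θ → p.1 = ((-p.2 : ℤ) : 𝓞 K) - θ := by
      intro p e
      rw [← e, Int.cast_neg]
      ring
    have hgen : ℚ⟮(θ : K)⟯ = ⊤ := by
      obtain ⟨h1, h2⟩ := Finset.mem_filter.1 hp
      have h3 := (hS.mem_toFinset.1 (Finset.mem_product.1 h1).1).2.1
      rw [eq_top_iff, ← h3, IntermediateField.adjoin_simple_le_iff, hβ p h2]
      have h4 : ((((-p.2 : ℤ) : 𝓞 K) - θ : 𝓞 K) : K) = ((-p.2 : ℤ) : K) - (θ : K) := by simp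
      rw [h4]
      exact sub_mem (intCast_mem _ _) (IntermediateField.mem_adjoin_simple_self ℚ _)
    refine le_trans ?_ (hM θ ((Set.Finite.mem_toFinset _).1 hθ) hgen)
    refine Nat.cast_le.2 (Finset.card_le_card_of_injOn (fun p => -p.2) (fun q hq => ?_)
      fun q hq q' hq' e => ?_)
    · obtain ⟨h1, h2⟩ := Finset.mem_filter.1 (Finset.mem_coe.1 hq)
      obtain ⟨h3, h4⟩ := Finset.mem_product.1 h1
      have h5 := Finset.mem_Icc.1 h4
      have h6 : ⌊T⌋ ≤ ⌊2 * T⌋ := Int.floor_le_floor (by linarith)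
      refine Finset.mem_coe.2 (Finset.mem_filter.2 ⟨Finset.mem_Icc.2 ⟨?_, ?_⟩, ?_⟩)
      · show -⌊2 * T⌋ ≤ -q.2
        omega
      · show -q.2 ≤ ⌊2 * T⌋
        omega
      · show IsSquare ((minpoly ℤ θ).eval (-q.2))
        rw [← norm_sub K θ hgen, ← hβ q h2]
        exact (hS.mem_toFinset.1 h3).2.2
    · have e' : -q.2 = -q'.2 := e
      refine Prod.ext ?_ (neg_injective e')
      rw [hβ q (Finset.mem_filter.1 (Finset.mem_coe.1 hq)).2,
        hβ q' (Finset.mem_filter.1 (Finset.mem_coe.1 hq')).2, e']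
  calc (hS.toFinset.card : ℝ) * T ≤ hS.toFinset.card * ((Finset.Icc (-⌊T⌋) ⌊T⌋).card : ℝ) :=
        mul_le_mul_of_nonneg_left hI (Nat.cast_nonneg _)
    _ = ((hS.toFinset ×ˢ Finset.Icc (-⌊T⌋) ⌊T⌋).card : ℝ) := by
        rw [Finset.card_product, Nat.cast_mul]
    _ ≤ _ := by
        rw [Finset.card_eq_sum_card_fiberwise hmap, Nat.cast_sum, ← nsmul_eq_mul]
        exact Finset.sum_le_card_nsmul _ _ _ hfib

end Pool.Agent.Lib.MP_830c64_nt
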