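import Pool.Agent.Lib.MP_830c64_nt.Defs

namespace Pool.Agent.Lib.MP_830c64_nt

open Polynomial
open scoped InnerProductSpace

theorem kltrace_sq {ι : Type} [Fintype ι] [DecidableEq ι] (A : Matrix ι ι ℝ)
    (hA : A.IsHermitian) : (A * A).trace = ∑ i, hA.eigenvalues i ^ 2 := by
  conv_lhs => rw [hA.spectral_theorem, ← map_mul, Unitary.conjStarAlgAut_apply,
    Matrix.trace_mul_comm, ← mul_assoc]
  simp [Matrix.diagonal_mul_diagonal, sq]

/-- Eigenvalues of a real symmetric matrix and Cauchy-Schwarz. -/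
theorem trace_sq_le {ι : Type} [Fintype ι] [DecidableEq ι] (A : Matrix ι ι ℝ) (hA : A.IsSymm) :
    A.trace ^ 2 ≤ A.rank * ∑ i, ∑ j, A i j ^ 2 := by
  classical
  have hH : A.IsHermitian := by
    rw [Matrix.IsHermitian, Matrix.conjTranspose_eq_transpose_of_trivial]; exact hA
  have h1 : ∑ i, ∑ j, A i j ^ 2 = ∑ i, hH.eigenvalues i ^ 2 := by
    rw [← kltrace_sq A hH]
    simp only [Matrix.trace, Matrix.diag, Matrix.mul_apply, sq]
    refine Finset.sum_congr rfl fun i _ => Finset.sum_congr rfl fun j _ => ?_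
    rw [hA.apply i j]
  have h2 : A.trace = ∑ i ∈ Finset.univ.filter (fun i => hH.eigenvalues i ≠ 0),
      hH.eigenvalues i := by
    rw [hH.trace_eq_sum_eigenvalues, Finset.sum_filter_ne_zero]
    simp
  rw [h1, h2, hH.rank_eq_card_non_zero_eigs, Fintype.card_subtype]
  refine (sq_sum_le_card_mul_sum_sq).trans ?_
  refine mul_le_mul_of_nonneg_left ?_ (Nat.cast_nonneg _)
  exact Finset.sum_le_sum_of_subset_of_nonneg (Finset.filter_subset _ _)
    fun i _ _ => sq_nonneg _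

/-- `x ^ K` times the number of exponents is at most `∑ x ^ |μ| ≤ (∑ x ^ i) ^ r ≤ (1 - x) ^ (-r)`
(`Finset.prod_univ_sum`). -/
theorem card_expo (r K : ℕ) {x : ℝ} (h0 : 0 < x) (h1 : x < 1) :
    (((Fintype.piFinset fun _ : Fin r => Finset.range (K + 1)).filter
      fun μ => ∑ i, μ i ≤ K).card : ℝ) * (x ^ K * (1 - x) ^ r) ≤ 1 := by
  have hx : 0 ≤ 1 - x := by linarith
  have ha : (((Fintype.piFinset fun _ : Fin r => Finset.range (K + 1)).filter
      fun μ => ∑ i, μ i ≤ K).card : ℝ) * x ^ K ≤ (∑ j ∈ Finset.range (K + 1), x ^ j) ^ r := by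
    have e : (∑ j ∈ Finset.range (K + 1), x ^ j) ^ r =
        ∑ μ ∈ Fintype.piFinset fun _ : Fin r => Finset.range (K + 1), ∏ i, x ^ μ i := by
      rw [← Finset.prod_univ_sum]; simp
    rw [e, ← nsmul_eq_mul, ← Finset.sum_const]
    refine le_trans (Finset.sum_le_sum fun μ hμ => ?_)
      (Finset.sum_le_sum_of_subset_of_nonneg (Finset.filter_subset _ _)
        fun μ _ _ => by positivity)
    rw [Finset.prod_pow_eq_pow_sum]
    exact pow_le_pow_of_le_one h0.le h1.le (Finset.mem_filter.1 hμ).2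
  have hb : (∑ j ∈ Finset.range (K + 1), x ^ j) * (1 - x) ≤ 1 := by
    rw [geom_sum_mul_neg]
    have := pow_pos h0 (K + 1)
    linarith
  have hc : 0 ≤ (∑ j ∈ Finset.range (K + 1), x ^ j) * (1 - x) :=
    mul_nonneg (Finset.sum_nonneg fun j _ => by positivity) hx
  calc _ = ((((Fintype.piFinset fun _ : Fin r => Finset.range (K + 1)).filter
          fun μ => ∑ i, μ i ≤ K).card : ℝ) * x ^ K) * (1 - x) ^ r := by ring
    _ ≤ (∑ j ∈ Finset.range (K + 1), x ^ j) ^ r * (1 - x) ^ r :=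
        mul_le_mul_of_nonneg_right ha (pow_nonneg hx _)
    _ = ((∑ j ∈ Finset.range (K + 1), x ^ j) * (1 - x)) ^ r := (mul_pow _ _ _).symm
    _ ≤ 1 := pow_le_one₀ hc hb

/-- A polynomial of total degree at most `K` is a combination of the monomials of degree `≤ K`. -/
theorem kltrace_eval {r K : ℕ} (p : MvPolynomial (Fin r) ℝ) (hp : p.totalDegree ≤ K)
    (v : Fin r → ℝ) :
    MvPolynomial.eval v p = ∑ μ ∈ (Fintype.piFinset fun _ : Fin r => Finset.range (K + 1)).filter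
      (fun μ => ∑ i, μ i ≤ K), p.coeff (Finsupp.equivFunOnFinite.symm μ) * ∏ i, v i ^ μ i := by
  classical
  rw [MvPolynomial.eval_eq']
  have e : ∑ d ∈ p.support, p.coeff d * ∏ i, v i ^ d i =
      ∑ μ ∈ p.support.map Finsupp.equivFunOnFinite.toEmbedding,
        p.coeff (Finsupp.equivFunOnFinite.symm μ) * ∏ i, v i ^ μ i := by
    rw [Finset.sum_map]
    simp
  rw [e]
  refine Finset.sum_subset (fun μ hμ => ?_) fun μ _ hμ => ?_
  · obtain ⟨d, hd, rfl⟩ := Finset.mem_map.1 hμ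
    have h := (MvPolynomial.le_totalDegree hd).trans hp
    rw [Finsupp.sum_fintype _ _ fun _ => rfl] at h
    refine Finset.mem_filter.2 ⟨Fintype.mem_piFinset.2 fun i => Finset.mem_range.2 ?_, h⟩
    have := Finset.single_le_sum (f := fun i => d i) (fun i _ => Nat.zero_le _) (Finset.mem_univ i)
    exact Nat.lt_succ_of_le (this.trans h)
  · have : Finsupp.equivFunOnFinite.symm μ ∉ p.support := fun h =>
      hμ (Finset.mem_map.2 ⟨_, h, by simp⟩)
    rw [MvPolynomial.notMem_support_iff.1 this, zero_mul]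

theorem kltrace_poly {r K : ℕ} (F : ℝ[X]) (hF : F.natDegree ≤ K) (a : Fin r → ℝ) :
    ∃ p : MvPolynomial (Fin r) ℝ, p.totalDegree ≤ K ∧
      ∀ v : Fin r → ℝ, MvPolynomial.eval v p = F.eval (∑ i, a i * v i) := by
  refine ⟨∑ j ∈ Finset.range (K + 1), MvPolynomial.C (F.coeff j) *
    (∑ i, MvPolynomial.C (a i) * MvPolynomial.X i) ^ j, ?_, fun v => ?_⟩
  · refine MvPolynomial.totalDegree_finsetSum_le fun j hj => ?_
    have h1 : (∑ i, MvPolynomial.C (a i) * MvPolynomial.X i :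
        MvPolynomial (Fin r) ℝ).totalDegree ≤ 1 := by
      refine MvPolynomial.totalDegree_finsetSum_le fun i _ => ?_
      refine (MvPolynomial.totalDegree_mul _ _).trans ?_
      rw [MvPolynomial.totalDegree_C, MvPolynomial.totalDegree_X]
    refine (MvPolynomial.totalDegree_mul _ _).trans ?_
    rw [MvPolynomial.totalDegree_C, zero_add]
    refine (MvPolynomial.totalDegree_pow _ _).trans ?_
    have := Finset.mem_range.1 hj
    nlinarith
  · rw [eval_eq_sum_range' (Nat.lt_succ_of_le hF)]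
    simp

/-- The matrix `F ⟪u i, u j⟫` factors through the monomials of degree `≤ K` (multinomial theorem,
or `MvPolynomial.eval_eq'` for `aeval (∑ C (u i a) * X a) F`, of total degree `≤ K`), so its rank
is at most their number. -/
theorem trace_bound {r K : ℕ} (F : ℝ[X]) (hF : F.natDegree ≤ K) {ι : Type} (S : Finset ι)
    (u : ι → EuclideanSpace ℝ (Fin r)) (hu : ∀ i ∈ S, ‖u i‖ = 1) {x : ℝ} (h0 : 0 < x)
    (h1 : x < 1) : (S.card * F.eval 1) ^ 2 * (x ^ K * (1 - x) ^ r) ≤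
      ∑ i ∈ S, ∑ j ∈ S, F.eval ⟪u i, u j⟫_ℝ ^ 2 := by
  classical
  set T := (Fintype.piFinset fun _ : Fin r => Finset.range (K + 1)).filter
      (fun μ => ∑ i, μ i ≤ K) with hT
  choose p hp1 hp2 using fun i : ι => kltrace_poly F hF (fun a => u i a)
  let A : Matrix S S ℝ := Matrix.of fun i j => F.eval ⟪u i, u j⟫_ℝ
  let B : Matrix S T ℝ := Matrix.of fun i μ => (p i).coeff (Finsupp.equivFunOnFinite.symm μ)
  let C : Matrix T S ℝ := Matrix.of fun μ j => ∏ a, u j a ^ μ.1 a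
  have hAs : A.IsSymm := by
    ext i j
    simp only [A, Matrix.transpose_apply, Matrix.of_apply, real_inner_comm]
  have hBC : A = B * C := by
    ext i j
    have e : ⟪u i, u j⟫_ℝ = ∑ a, u i a * u j a := by
      simp [PiLp.inner_apply, mul_comm]
    simp only [A, B, C, Matrix.mul_apply, Matrix.of_apply]
    rw [e, ← hp2 i (fun a => u j a), kltrace_eval _ (hp1 i), ← hT]
    exact (Finset.sum_coe_sort T fun μ =>
      (p i).coeff (Finsupp.equivFunOnFinite.symm μ) * ∏ a, u j a ^ μ a).symm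
  have hr : (A.rank : ℝ) ≤ T.card := by
    have := (Matrix.rank_mul_le_left B C).trans B.rank_le_card_width
    rw [← hBC, Fintype.card_coe] at this
    exact_mod_cast this
  have ht : A.trace = S.card * F.eval 1 := by
    have : ∀ i : S, A i i = F.eval 1 := fun i => by
      simp only [A, Matrix.of_apply, real_inner_self_eq_norm_sq, hu i i.2, one_pow]
    simp [Matrix.trace, this]
  have hs : ∑ i, ∑ j, A i j ^ 2 = ∑ i ∈ S, ∑ j ∈ S, F.eval ⟪u i, u j⟫_ℝ ^ 2 := by
    rw [← Finset.sum_coe_sort S]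
    refine Finset.sum_congr rfl fun i _ => ?_
    exact Finset.sum_coe_sort S fun j => F.eval ⟪u i, u j⟫_ℝ ^ 2
  have h3 := trace_sq_le A hAs
  rw [ht, hs] at h3
  have h4 := card_expo r K h0 h1
  rw [← hT] at h4
  have h5 : 0 ≤ ∑ i ∈ S, ∑ j ∈ S, F.eval ⟪u i, u j⟫_ℝ ^ 2 :=
    Finset.sum_nonneg fun i _ => Finset.sum_nonneg fun j _ => sq_nonneg _
  have h6 : 0 ≤ x ^ K * (1 - x) ^ r := mul_nonneg (pow_pos h0 _).le (pow_nonneg (by linarith) _)
  calc _ ≤ (T.card * ∑ i ∈ S, ∑ j ∈ S, F.eval ⟪u i, u j⟫_ℝ ^ 2) * (x ^ K * (1 - x) ^ r) :=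
        mul_le_mul_of_nonneg_right (h3.trans (mul_le_mul_of_nonneg_right hr h5)) h6
    _ = (T.card * (x ^ K * (1 - x) ^ r)) * ∑ i ∈ S, ∑ j ∈ S, F.eval ⟪u i, u j⟫_ℝ ^ 2 := by ring
    _ ≤ 1 * ∑ i ∈ S, ∑ j ∈ S, F.eval ⟪u i, u j⟫_ℝ ^ 2 := mul_le_mul_of_nonneg_right h4 h5
    _ = _ := one_mul _

end Pool.Agent.Lib.MP_830c64_nt
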