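import Pool.Agent.Lib.MP_830c64_nt.KlWin
import Pool.Agent.Lib.MP_830c64_nt.KlTrace

namespace Pool.Agent.Lib.MP_830c64_nt

open Polynomial
open scoped InnerProductSpace

theorem klmain_pair {r : ℕ} (hr : 3 ≤ r) {c d : ℕ → ℝ} (hc : ∀ j, 0 ≤ c j) (hd : ∀ j, 0 ≤ d j)
    (a b : ℕ) {ι : Type} (S : Finset ι) (u : ι → EuclideanSpace ℝ (Fin r))
    (hu : ∀ i ∈ S, ‖u i‖ = 1) :
    0 ≤ ∑ i ∈ S, ∑ j ∈ S, (∑ k ∈ Finset.range a, C (d k) * geg r k).eval ⟪u i, u j⟫_ℝ *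
      (∑ k ∈ Finset.range b, C (c k) * geg r k).eval ⟪u i, u j⟫_ℝ := by
  have e : ∀ t : ℝ, (∑ k ∈ Finset.range a, C (d k) * geg r k).eval t *
      (∑ k ∈ Finset.range b, C (c k) * geg r k).eval t =
      ∑ p ∈ Finset.range a ×ˢ Finset.range b,
        d p.1 * c p.2 * ((geg r p.1).eval t * (geg r p.2).eval t) := fun t => by
    rw [Finset.sum_product, eval_finsetSum, eval_finsetSum, Finset.sum_mul_sum]
    refine Finset.sum_congr rfl fun k _ => Finset.sum_congr rfl fun l _ => ?_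
    simp only [eval_mul, eval_C]
    ring
  simp only [e]
  simp_rw [Finset.sum_comm (s := S) (t := Finset.range a ×ˢ Finset.range b)]
  refine Finset.sum_nonneg fun p _ => ?_
  simp_rw [← Finset.mul_sum]
  exact mul_nonneg (mul_nonneg (hd _) (hc _)) (geg_pair_nonneg hr _ _ S u hu)

theorem klmain_two {b : ℝ} :
    (2 : ℝ) ^ kap b = Real.exp ((1 + b) * Real.log (1 + b) - b * Real.log b) := by
  have h : Real.log 2 ≠ 0 := (Real.log_pos one_lt_two).ne'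
  rw [Real.rpow_def_of_pos two_pos, kap, mul_div_cancel₀ _ h]

theorem klmain_num {b : ℝ} (hb : 0 < b) {r K m : ℕ} (hK : (K : ℝ) ≤ b * r + m) :
    1 ≤ ((1 + b) / b) ^ m * ((2 : ℝ) ^ kap b) ^ r *
      ((b / (1 + b)) ^ K * (1 - b / (1 + b)) ^ r) := by
  have h1 : 0 < 1 + b := by linarith
  have e0 : 1 - b / (1 + b) = Real.exp (-Real.log (1 + b)) := by
    rw [Real.exp_neg, Real.exp_log h1]
    field_simp
    ring
  have e1 : b / (1 + b) = Real.exp (Real.log b - Real.log (1 + b)) := by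
    rw [Real.exp_sub, Real.exp_log h1, Real.exp_log hb]
  have e2 : (1 + b) / b = Real.exp (Real.log (1 + b) - Real.log b) := by
    rw [Real.exp_sub, Real.exp_log h1, Real.exp_log hb]
  have hl : 0 ≤ Real.log (1 + b) - Real.log b :=
    sub_nonneg.2 (Real.log_le_log hb (by linarith))
  rw [e0, klmain_two, e1, e2]
  simp only [← Real.exp_nat_mul, ← Real.exp_add]
  refine Real.one_le_exp ?_
  nlinarith [mul_le_mul_of_nonneg_right hK hl]

/-- For `r ≥ 3`: let `4 μ ^ 2 = 1 - 1 / (1 + 2 b) ^ 2`, choose `m` with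
`l = μ (2 - 2 / (m + 1)) > s`, `k₀ = ⌈b (r - 3)⌉₊ + 1`, `F` from `window`, `K = k₀ + m`,
`x = b / (1 + b)`. Then `(l - s) ∑ F ^ 2 ≤ ∑ (t - s) F ^ 2 ≤ N (1 - s) F(1) ^ 2`; with
`trace_bound`, `N ≤ (1 - s) / (l - s) * x ^ (-K) (1 - x) ^ (-r)` and `K ≤ b r + m + 2`. -/
theorem kl_three {s b : ℝ} (hs : 0 ≤ s) (hb : 0 < b) (hsb : s ^ 2 < 1 - 1 / (1 + 2 * b) ^ 2) :
    ∃ c : ℝ, 0 ≤ c ∧ ∀ r : ℕ, 3 ≤ r → ∀ (ι : Type) (S : Finset ι)
      (u : ι → EuclideanSpace ℝ (Fin r)), (∀ i ∈ S, ‖u i‖ = 1) →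
      (∀ i ∈ S, ∀ j ∈ S, i ≠ j → ⟪u i, u j⟫_ℝ ≤ s) → (S.card : ℝ) ≤ c * ((2 : ℝ) ^ kap b) ^ r := by
  have hA0 : 0 < 1 - 1 / (1 + 2 * b) ^ 2 := lt_of_le_of_lt (sq_nonneg s) hsb
  have hs1 : s < 1 := by
    have : 0 < 1 / (1 + 2 * b) ^ 2 := by positivity
    nlinarith
  obtain ⟨μ, hμ, hμ2, hsμ⟩ : ∃ μ : ℝ, 0 < μ ∧ 4 * μ ^ 2 = 1 - 1 / (1 + 2 * b) ^ 2 ∧ s < 2 * μ := by
    refine ⟨√(1 - 1 / (1 + 2 * b) ^ 2) / 2, by positivity, ?_, ?_⟩
    · rw [div_pow, Real.sq_sqrt hA0.le]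
      ring
    · have := Real.lt_sqrt_of_sq_lt hsb
      linarith
  obtain ⟨m, hm⟩ := exists_nat_gt (2 * μ / (2 * μ - s))
  have hl : 0 < μ * (2 - 2 / (m + 1)) - s := by
    rw [div_lt_iff₀ (by linarith)] at hm
    have h1 : (0 : ℝ) < m + 1 := by positivity
    have h2 : 2 * μ / (m + 1) < 2 * μ - s := by
      rw [div_lt_iff₀ h1]
      nlinarith
    have h3 : μ * (2 - 2 / (m + 1)) = 2 * μ - 2 * μ / (m + 1) := by ring
    linarith
  set l := μ * (2 - 2 / (m + 1)) with hldef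
  have hs0 : 0 ≤ 1 - s := by linarith
  refine ⟨(1 - s) / (l - s) * ((1 + b) / b) ^ (m + 2), by positivity, ?_⟩
  intro r hr ι S u hu hij
  have hr3 : (0 : ℝ) ≤ (r : ℝ) - 3 := by
    have : (3 : ℝ) ≤ r := by exact_mod_cast hr
    linarith
  obtain ⟨c, d, hc, hd, hck, hF⟩ := window hr (k₀ := ⌈b * ((r : ℝ) - 3)⌉₊ + 1) (m := m)
    (Nat.le_add_left _ _) hμ (fun j hj => by
      have h1 : b * ((r : ℝ) - 3) ≤ j :=
        (Nat.le_ceil _).trans (by exact_mod_cast (Nat.le_succ _).trans hj)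
      have := bet_ge hr ((Nat.le_add_left _ _).trans hj) hb h1
      linarith)
  set k := ⌈b * ((r : ℝ) - 3)⌉₊ + 1 with hk
  have hp := klmain_pair hr hc hd (k + m + 2) (k + m + 1) S u hu
  have hdeg : (∑ j ∈ Finset.range (k + m + 1), C (c j) * geg r j).natDegree ≤ k + m :=
    natDegree_sum_le_of_forall_le _ _ fun j hj => (natDegree_C_mul_le _ _).trans
      ((geg_natDegree r j).trans (Nat.lt_succ_iff.1 (Finset.mem_range.1 hj)))
  have hone : 0 < (∑ j ∈ Finset.range (k + m + 1), C (c j) * geg r j).eval 1 := by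
    rw [eval_finsetSum]
    refine Finset.sum_pos' (fun j _ => ?_) ⟨k, Finset.mem_range.2 (by omega), ?_⟩
    · rw [eval_mul, eval_C]
      exact mul_nonneg (hc j) (geg_one_pos hr j).le
    · rw [eval_mul, eval_C]
      exact mul_pos hck (geg_one_pos hr k)
  generalize (∑ j ∈ Finset.range (k + m + 1), C (c j) * geg r j) = F at *
  generalize (∑ j ∈ Finset.range (k + m + 2), C (d j) * geg r j) = D at *
  have hD : ∀ t : ℝ, D.eval t * F.eval t = (t - s) * F.eval t ^ 2 - (l - s) * F.eval t ^ 2 :=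
    fun t => by
      have := congrArg (eval t) hF
      simp only [eval_mul, eval_add, eval_C, eval_X] at this
      have e : D.eval t = t * F.eval t - l * F.eval t := by linarith
      rw [e]
      ring
  simp only [hD, Finset.sum_sub_distrib, ← Finset.mul_sum] at hp
  have hup : ∑ i ∈ S, ∑ j ∈ S, (⟪u i, u j⟫_ℝ - s) * F.eval ⟪u i, u j⟫_ℝ ^ 2 ≤
      S.card * ((1 - s) * F.eval 1 ^ 2) := by
    rw [← nsmul_eq_mul]
    refine Finset.sum_le_card_nsmul _ _ _ fun i hi => ?_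
    classical
    rw [← Finset.add_sum_erase _ _ hi, real_inner_self_eq_norm_sq, hu i hi, one_pow]
    refine add_le_of_nonpos_right (Finset.sum_nonpos fun j hj => ?_)
    exact mul_nonpos_of_nonpos_of_nonneg
      (sub_nonpos.2 (hij i hi j (Finset.mem_of_mem_erase hj) (Finset.ne_of_mem_erase hj).symm))
      (sq_nonneg _)
  have h1 : 0 < 1 + b := by linarith
  have htr := trace_bound F hdeg S u hu (x := b / (1 + b)) (by positivity)
    ((div_lt_one h1).2 (by linarith))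
  have hK : ((k + m : ℕ) : ℝ) ≤ b * r + (m + 2 : ℕ) := by
    have := (Nat.ceil_lt_add_one (mul_nonneg hb.le hr3)).le
    rw [hk]
    push_cast
    nlinarith
  have hn := klmain_num hb hK
  have hw : 0 ≤ ((1 + b) / b) ^ (m + 2) * ((2 : ℝ) ^ kap b) ^ r := by positivity
  generalize (b / (1 + b)) ^ (k + m) * (1 - b / (1 + b)) ^ r = w at *
  rw [mul_assoc]
  generalize ((1 + b) / b) ^ (m + 2) * ((2 : ℝ) ^ kap b) ^ r = y at *
  rcases (Nat.cast_nonneg (α := ℝ) S.card).eq_or_lt with h0 | h0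
  · rw [← h0]
    positivity
  have h2 : (l - s) * ((S.card * F.eval 1) ^ 2 * w) ≤ S.card * ((1 - s) * F.eval 1 ^ 2) := by
    have := mul_le_mul_of_nonneg_left htr hl.le
    linarith
  have h3 : (l - s) * (S.card * w) ≤ 1 - s := by
    refine le_of_mul_le_mul_left ?_ (mul_pos h0 (pow_pos hone 2))
    nlinarith
  rw [div_mul_eq_mul_div, le_div_iff₀ hl]
  have h4 := mul_le_mul_of_nonneg_left h3 hw
  have h5 := mul_le_mul_of_nonneg_left hn (mul_pos h0 hl).le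
  nlinarith

theorem kap_pos {b : ℝ} (hb : 0 < b) : 0 < kap b := by
  refine div_pos ?_ (Real.log_pos one_lt_two)
  have h1 : 0 < Real.log (1 + b) := Real.log_pos (by linarith)
  have h2 := mul_le_mul_of_nonneg_left (Real.log_le_log hb (by linarith : b ≤ 1 + b)) hb.le
  nlinarith

/-- Pad with three zero coordinates; if two distinct indices occur all the vectors are nonzero;
normalise (`min (a ^ 2) (b ^ 2) ≤ a * b`). -/
theorem kl {s b : ℝ} (hs : 0 ≤ s) (hb : 0 < b) (hsb : s ^ 2 < 1 - 1 / (1 + 2 * b) ^ 2) :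
    ∃ c : ℝ, 0 ≤ c ∧ ∀ (r : ℕ) (ι : Type) (S : Finset ι) (u : ι → EuclideanSpace ℝ (Fin r)),
      (∀ i ∈ S, ∀ j ∈ S, i ≠ j → ⟪u i, u j⟫_ℝ < s * ⟪u i, u i⟫_ℝ) →
      (S.card : ℝ) ≤ c * ((2 : ℝ) ^ r) ^ kap b := by
  obtain ⟨c, hc, H⟩ := kl_three hs hb hsb
  refine ⟨c * ((2 : ℝ) ^ kap b) ^ 3 + 1, by positivity, fun r ι S u h => ?_⟩
  have e : ((2 : ℝ) ^ r) ^ kap b = ((2 : ℝ) ^ kap b) ^ r := by
    rw [← Real.rpow_natCast, ← Real.rpow_natCast, ← Real.rpow_mul two_pos.le,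
      ← Real.rpow_mul two_pos.le, mul_comm]
  have h1 : 1 ≤ ((2 : ℝ) ^ kap b) ^ r :=
    one_le_pow₀ (Real.one_le_rpow one_le_two (kap_pos hb).le)
  have h2 : 0 ≤ c * ((2 : ℝ) ^ kap b) ^ (r + 3) := by positivity
  rw [e, add_mul, mul_assoc, ← pow_add, add_comm 3 r, one_mul]
  by_cases hS : S.card ≤ 1
  · have : (S.card : ℝ) ≤ 1 := by exact_mod_cast hS
    linarith
  have hpos : ∀ i ∈ S, 0 < ‖u i‖ := fun i hi => by
    obtain ⟨j, hj, hne⟩ := Finset.exists_mem_ne (not_le.1 hS) i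
    refine norm_pos_iff.2 fun h0 => ?_
    simpa [h0] using h i hi j hj hne.symm
  let v : ι → EuclideanSpace ℝ (Fin (r + 3)) := fun i =>
    WithLp.toLp 2 (Fin.append (u i).ofLp 0)
  have hv : ∀ i j, ⟪v i, v j⟫_ℝ = ⟪u i, u j⟫_ℝ := fun i j => by
    simp only [v, PiLp.inner_apply, Fin.sum_univ_add, Fin.append_left, Fin.append_right]
    simp
  have hw : ∀ i j, ⟪‖u i‖⁻¹ • v i, ‖u j‖⁻¹ • v j⟫_ℝ = ⟪u i, u j⟫_ℝ / (‖u i‖ * ‖u j‖) :=
    fun i j => by
      rw [real_inner_smul_left, real_inner_smul_right, hv]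
      ring
  have h3 := H (r + 3) (Nat.le_add_left _ _) ι S (fun i => ‖u i‖⁻¹ • v i) (fun i hi => by
    have h4 := hw i i
    have h5 := hpos i hi
    rw [real_inner_self_eq_norm_mul_norm, real_inner_self_eq_norm_mul_norm,
      div_self (mul_pos h5 h5).ne'] at h4
    nlinarith [norm_nonneg (‖u i‖⁻¹ • v i)]) (fun i hi j hj hne => by
    have a1 := h i hi j hj hne
    have a2 := h j hj i hi hne.symm
    have p1 := hpos i hi
    have p2 := hpos j hj
    rw [real_inner_self_eq_norm_mul_norm] at a1 a2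
    rw [real_inner_comm] at a2
    rw [hw, div_le_iff₀ (mul_pos p1 p2)]
    rcases le_total ‖u i‖ ‖u j‖ with h6 | h6
    · nlinarith [mul_le_mul_of_nonneg_left h6 (mul_nonneg hs p1.le)]
    · nlinarith [mul_le_mul_of_nonneg_left h6 (mul_nonneg hs p2.le)])
  linarith

end Pool.Agent.Lib.MP_830c64_nt
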