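import Pool.Agent.Lib.MP_830c64_nt.DescI

namespace Pool.Agent.Lib.MP_830c64_nt

open Polynomial NumberField IsDedekindDomain
open scoped Classical

variable {f₀ : ℤ[X]} {g : ℕ}

theorem desci2_one {K L : Type} [Field K] [NumberField K] [Field L] (j : K →+* L)
    {𝔭 : HeightOneSpectrum (𝓞 K)} {A : ValuationSubring L}
    (hA : ∀ u : K, (𝔭.valuation K u ≤ 1 → A.valuation (j u) ≤ 1) ∧
      (𝔭.valuation K u < 1 → A.valuation (j u) < 1)) {u : K} (hu : u ≠ 0) :
    A.valuation (j u) = 1 ↔ 𝔭.valuation K u = 1 := by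
  have h1 : 0 < A.valuation (j u) := (Valuation.pos_iff _).2 ((_root_.map_ne_zero j).2 hu)
  have h2 : 0 < 𝔭.valuation K u := (Valuation.pos_iff _).2 hu
  have h3 := hA u⁻¹
  rw [map_inv₀, map_inv₀, map_inv₀, inv_le_one₀ h1, inv_le_one₀ h2, inv_lt_one₀ h1,
    inv_lt_one₀ h2] at h3
  refine ⟨fun h => le_antisymm (not_lt.1 fun k => (h3.2 k).ne' h)
    (not_lt.1 fun k => ((hA u).2 k).ne h), fun h => le_antisymm ((hA u).1 h.le) (h3.1 h.ge)⟩

theorem desci2_eq {Γ : Type*} [LinearOrderedCommGroupWithZero Γ] (V : Valuation kk Γ)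
    (hV : ∀ n : ℕ, 0 < n → n ≤ g → V n = 1) {i l : ℕ} (hi : i ≤ g) (hl : l ≤ g)
    (h : V ((i : kk) - l) < 1) : i = l := by
  rcases lt_trichotomy i l with k | k | k
  · rw [Valuation.map_sub_swap, ← Nat.cast_sub k.le, hV _ (by omega) (by omega)] at h
    exact absurd h (lt_irrefl _)
  · exact k
  · rw [← Nat.cast_sub k.le, hV _ (by omega) (by omega)] at h
    exact absurd h (lt_irrefl _)

theorem desci2_fix {K : Type} [Field K] [NumberField K] (j : K →ₐ[ℚ] kk) {z : kk}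
    (hz : ∀ τ : kk ≃+* kk, (∀ u, τ (j u) = j u) → τ z = z) : ∃ u, j u = z := by
  let _ : Algebra K kk := j.toRingHom.toAlgebra
  have : IsScalarTower ℚ K kk := IsScalarTower.of_algebraMap_eq fun x => (j.commutes x).symm
  have : Algebra.IsAlgebraic K kk := Algebra.IsAlgebraic.tower_top (K := ℚ) K
  have : IsAlgClosure K kk := ⟨inferInstance, this⟩
  exact (InfiniteGalois.mem_range_algebraMap_iff_fixed (k := K) z).2 fun σ =>
    hz σ.toRingEquiv σ.commutes

/-- Take `j : K →ₐ kk`, `α = j θ`, `V` from `exists_val_ext`, `l`, `m` from `exists_avoid` (the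
integers `1, …, g` and `Δ` are units for `V`). The product `z` over `E` of the quotients in
`val_point` is fixed by the automorphisms of `kk` over `K`, so `z = j z₀`
(`InfiniteGalois.mem_range_algebraMap_iff_fixed`), and `aeval θ a₀ / z₀ ^ 2` is a unit for `V`,
hence for `𝔭`. -/
theorem desc_im (h : GC f₀ g) {Δ : ℤ} (hΔ : Bez f₀ Δ) {K : Type} [Field K] [NumberField K]
    (θ : 𝓞 K) (hθ : aeval θ f₀ = 0) {E : Multiset (Pt (fk f₀))} (hE : Stab E) (hr : Red g E)
    {a₀ : ℚ[X]} (ha : aD E = a₀.map (algebraMap ℚ kk)) :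
    aeval (θ : K) a₀ ≠ 0 ∧ ∀ 𝔭 : HeightOneSpectrum (𝓞 K),
      (((g.factorial : ℤ) * Δ : ℤ) : 𝓞 K) ∉ 𝔭.asIdeal →
      ∃ z : K, z ≠ 0 ∧ 𝔭.valuation K (aeval (θ : K) a₀) = 𝔭.valuation K z ^ 2 := by
  let j : K →ₐ[ℚ] kk := IsAlgClosed.lift
  let J : 𝓞 K →+* kk := j.toRingHom.comp (algebraMap (𝓞 K) K)
  have hJ : ∀ q : ℤ[X], J (aeval θ q) = (q.map (Int.castRingHom kk)).eval (j θ) := fun q => by
    rw [eval_map, aeval_def, hom_eval₂]
    congr 1
    exact Subsingleton.elim _ _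
  have hα : (fk f₀).eval (j θ) = 0 := by rw [fk, ← hJ, hθ, map_zero]
  have hy : ∀ P ∈ E, P.y ≠ 0 := fun P hP h0 =>
    hr.2 P hP (by rwa [show P.inv = P from Pt.ext rfl (by simp [Pt.inv, h0])])
  have e1 : j (aeval (θ : K) a₀) = (E.map fun P => j θ - P.x).prod := by
    rw [← aeval_algHom_apply, aeval_def, ← eval_map, ← ha, aD, eval_multiset_prod, Multiset.map_map]
    simp
  have e2 : aeval (θ : K) a₀ ≠ 0 := fun h0 => by
    rw [h0, map_zero, eq_comm, Multiset.prod_eq_zero_iff, Multiset.mem_map] at e1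
    obtain ⟨P, hP, h1⟩ := e1
    exact hy P hP (pow_eq_zero_iff two_ne_zero |>.1 (by rw [P.on, ← sub_eq_zero.1 h1, hα]))
  refine ⟨e2, fun 𝔭 h𝔭 => ?_⟩
  obtain ⟨A, hA⟩ := exists_val_ext j.toRingHom 𝔭
  have v2 : ∀ r s : 𝓞 K, r * s = (((g.factorial : ℤ) * Δ : ℤ) : 𝓞 K) → A.valuation (J r) = 1 :=
    fun r s e => by
      have h1 : r ∉ 𝔭.asIdeal := fun k => h𝔭 (e ▸ 𝔭.asIdeal.mul_mem_right s k)
      have h2 : (r : K) ≠ 0 := fun k => h1 ((RingOfIntegers.coe_eq_zero_iff.1 k) ▸ zero_mem _)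
      exact (desci2_one _ hA h2).2 (𝔭.valuation_eq_one_iff_notMem.2 h1)
  have v3 : ∀ n : ℕ, 0 < n → n ≤ g → A.valuation (n : kk) = 1 := fun n h0 h1 => by
    obtain ⟨c, hc⟩ := Nat.dvd_factorial h0 h1
    simpa using v2 n (c * Δ) (by rw [hc]; push_cast; ring)
  have hd : A.valuation ((fk f₀).derivative.eval (j θ)) = 1 := by
    obtain ⟨-, U, W, e⟩ := hΔ
    have e' := congrArg (aeval θ) e
    rw [map_add, map_mul, map_mul, hθ, mul_zero, zero_add, aeval_C] at e'
    rw [fk, derivative_map, ← hJ]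
    exact v2 _ (aeval θ W * g.factorial) (by
      rw [← mul_assoc, mul_comm _ (aeval θ W), e']
      simp [mul_comm])
  obtain ⟨l, -, hl⟩ := exists_avoid E hr.1 (fun P l => A.valuation P.x ≤ 1 ∧
      A.valuation (P.x - j θ) = 1 ∧ A.valuation (P.y + l * (P.x - j θ)) < 1)
    fun P _ i hi l hl b1 b2 => desci2_eq A.valuation v3 hi hl (by
      have := A.valuation.map_sub_lt b1.2.2 b2.2.2
      rwa [add_sub_add_left_eq_sub, ← sub_mul, map_mul, b1.2.1, mul_one] at this)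
  obtain ⟨m, -, hm⟩ := exists_avoid E hr.1 (fun P m => A.valuation (P.x - m) < 1)
    fun P _ i hi l hl b1 b2 => desci2_eq A.valuation v3 hi hl (by
      have := A.valuation.map_sub_lt b2 b1
      rwa [sub_sub_sub_cancel_left] at this)
  obtain ⟨z, hz⟩ := desci2_fix j
    (z := (E.map fun P => (P.y + l * (P.x - j θ)) / (P.x - m) ^ g).prod) fun τ hτ => by
      conv_rhs => rw [← hE ⟨τ, by rw [fk, Polynomial.map_map]; congr 1; exact Subsingleton.elim _ _⟩]
      rw [map_multiset_prod, Multiset.map_map, Multiset.map_map]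
      exact congrArg _ (Multiset.map_congr rfl fun P _ => by simp [Pt.act, hτ])
  have e3 : A.valuation (j (aeval (θ : K) a₀)) = A.valuation (j z) ^ 2 := by
    rw [e1, hz, map_multiset_prod, map_multiset_prod, ← Multiset.prod_map_pow, Multiset.map_map,
      Multiset.map_map]
    exact congrArg _ (Multiset.map_congr rfl fun P hP =>
      val_point A.valuation h hα hd (hy P hP) l m (hl P hP) (hm P hP))
  have z0 : z ≠ 0 := fun k => by
    rw [k, map_zero, map_zero, zero_pow two_ne_zero, map_eq_zero, map_eq_zero] at e3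
    exact e2 e3
  have z1 : A.valuation (j z) ≠ 0 := by simpa using z0
  refine ⟨z, z0, ?_⟩
  rw [← div_eq_one_iff_eq (pow_ne_zero _ (by simpa using z0)), ← map_pow, ← map_div₀,
    ← desci2_one _ hA (div_ne_zero e2 (pow_ne_zero _ z0))]
  change A.valuation (j _) = 1
  rw [map_div₀, map_pow, map_div₀, map_pow, e3, div_self (pow_ne_zero _ z1)]

end Pool.Agent.Lib.MP_830c64_nt
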