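import Pool.Agent.Lib.MP_830c64_nt.GrpJ

namespace Pool.Agent.Lib.MP_830c64_nt

open Polynomial
open scoped Classical

variable {f₀ : ℤ[X]} {g : ℕ}

theorem desck_cop {k : Type*} [Field k] {f : k[X]} {D : Multiset (Pt f)}
    (hW : ∀ P ∈ D, P.y ≠ 0) : IsCoprime f (aD D) := by
  induction D using Multiset.induction_on with
  | empty => exact isCoprime_one_right
  | cons P D ih =>
    rw [aD, Multiset.map_cons, Multiset.prod_cons]
    refine IsCoprime.mul_right ?_ (ih fun R hR => hW R (Multiset.mem_cons_of_mem hR))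
    refine ((irreducible_X_sub_C P.x).coprime_iff_not_dvd.2 fun hd => ?_).symm
    have h1 : f.eval P.x = 0 := dvd_iff_isRoot.1 hd
    rw [← P.on] at h1
    exact hW P (Multiset.mem_cons_self _ _) (pow_eq_zero_iff two_ne_zero |>.1 h1)

theorem desck_half {k : Type*} [Field k] [CharZero k] [IsAlgClosed k] {f : k[X]}
    {F : Multiset (Pt f)} (hF : Stab F) (he : ∀ a, Even ((F.map Pt.x).count a)) :
    ∃ G' E' : Multiset (Pt f), Stab E' ∧ F = G' + G'.map Pt.inv + (E' + E') := by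
  have hc : ∀ P : Pt f, (F ∩ F.map Pt.inv).count P = min (F.count P) (F.count P.inv) :=
    fun P => by rw [Multiset.count_inter, count_map_inv]
  obtain ⟨G', hG⟩ := exists_half (G := F ∩ F.map Pt.inv)
    (Multiset.ext.2 fun P => by rw [count_map_inv, hc, hc, inv_inv, min_comm])
    (fun P hy => by
      have h1 := he P.x
      rw [count_map_x, if_pos hy] at h1
      rw [hc, inv_eq_of_y P hy, min_self]
      exact h1)
  have e : F = F ∩ F.map Pt.inv + (F - F ∩ F.map Pt.inv) :=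
    (add_tsub_cancel_of_le Multiset.inter_le_left).symm
  obtain ⟨E', hE⟩ := Multiset.exists_smul_of_dvd_count (F - F ∩ F.map Pt.inv) (k := 2)
    (fun P _ => by
      have h1 := he P.x
      rw [count_map_x] at h1
      rw [Multiset.count_sub, hc]
      by_cases hy : P.y = 0
      · rw [inv_eq_of_y P hy, min_self, Nat.sub_self]
        exact dvd_zero 2
      · rw [if_neg hy] at h1
        obtain ⟨r, hr⟩ := h1
        omega)
  rw [two_nsmul] at hE
  refine ⟨G', E', Stab.of_two (Stab.of_add (hF.inter hF.inv) ?_), ?_⟩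
  · rw [← hE, ← e]
    exact hF
  · rw [← hG, ← hE]
    exact e

theorem desck_core {k : Type*} [Field k] [CharZero k] [IsAlgClosed k] {f : k[X]} (h : Crv f g)
    {D : Multiset (Pt f)} (hD : Stab D) (hW : ∀ P ∈ D, P.y ≠ 0) (c : k[X])
    (h0 : ∀ τ : Aut f, c.map (τ.1 : k →+* k) = c) {s : k} (hs : s ≠ 0)
    (hc : f ∣ C s * aD D - c ^ 2) : ∃ E, Stab E ∧ rel D (E + E) := by
  obtain ⟨φ, u, h1, h2, h3, h4, ⟨t, ht⟩, h5⟩ := rr_pade h D hW hD c h0
  obtain ⟨t', ht'⟩ := hc
  have hcop := desck_cop hW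
  have hn : f ∣ nm φ - aD D * (C s * u ^ 2) := by
    refine ⟨2 * u * c * t + f * t ^ 2 - φ.im ^ 2 - u ^ 2 * t', ?_⟩
    have e : φ.re = u * c + f * t := by linear_combination ht
    rw [nm_def, e]
    linear_combination (-(u ^ 2)) * ht'
  have hu : (C s * u ^ 2).natDegree ≤ 2 * g :=
    (natDegree_C_mul_le _ _).trans (natDegree_pow_le.trans (Nat.mul_le_mul_left 2 h4))
  have hφ : φ ≠ 0 := by
    rintro rfl
    have e0 : nm (0 : CR f) = 0 := by
      rw [← map_zero (pol f), nm_pol, zero_pow two_ne_zero]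
    rw [e0, zero_sub, dvd_neg] at hn
    have h6 := eq_zero_of_dvd_of_natDegree_lt (hcop.dvd_of_dvd_mul_left hn)
      (by rw [h.deg]; omega)
    rcases h1 with h1 | h1
    · exact h1 rfl
    · exact mul_ne_zero (C_ne_zero.2 hs) (pow_ne_zero 2 h1) h6
  obtain ⟨F, hF⟩ := Multiset.le_iff_exists_add.1 (h2.resolve_left hφ)
  have hl : (nm φ).leadingCoeff ≠ 0 := leadingCoeff_ne_zero.2 (nm_ne_zero h hφ)
  have hp := nm_eq_prod h hφ
  generalize (nm φ).leadingCoeff = l at hl hp
  have hcF : F.card ≤ 2 * g := by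
    have h6 := card_dv h hφ
    rw [hF, Multiset.card_add] at h6
    omega
  have hm : C l * aD F = C s * u ^ 2 := by
    rw [hp, hF, aD_add, mul_left_comm, ← mul_sub] at hn
    refine sub_eq_zero.1 (eq_zero_of_dvd_of_natDegree_lt (hcop.dvd_of_dvd_mul_left hn) ?_)
    have h6 : (C l * aD F).natDegree ≤ 2 * g :=
      (natDegree_C_mul_le _ _).trans ((aD_natDegree F).le.trans hcF)
    have h7 := natDegree_sub_le (C l * aD F) (C s * u ^ 2)
    rw [h.deg]
    omega
  have hr : F.map Pt.x = 2 • u.roots := by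
    rw [← aD_roots, ← roots_C_mul _ hl, hm, roots_C_mul _ hs, roots_pow]
  have hsF : Stab F := Stab.of_add hD (hF ▸ stab_dv h hφ h5)
  obtain ⟨G', E', hE, e⟩ := desck_half hsF fun a => by
    rw [hr, Multiset.count_nsmul]
    exact even_two_mul _
  obtain ⟨χ, h6, -, h7⟩ := exists_dv_of_add h hφ (D := G') (E := D + (E' + E'))
    (by rw [hF, e, add_left_comm])
  refine ⟨E'.map Pt.inv, hE.inv, χ, h6, ?_⟩
  rw [h7, Multiset.map_add, map_inv_inv]

/-- `rr_pade` with `c = c₀.map`. `aD D` is coprime to `f`. If `φ = 0` then `f ∣ u ^ 2`, so `u = 0`.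
So `φ ≠ 0`, `nm φ = aD D * m'` with `deg m' ≤ 2 g`, and `f ∣ aD D * (m' - (-1) ^ d u ^ 2)` gives
`m' = (-1) ^ d u ^ 2`. Let `dv φ = D + F`, `G = F ∩ F.map inv`. The multiplicities of `F.map x`
are even, so `G = G' + G'.map inv` (`exists_half`) and `F - G = E' + E'`; answer `E'.map inv`. -/
theorem desc_ker (h : GC f₀ g) {D : Multiset (Pt (fk f₀))} (hD : Stab D) (hW : ∀ P ∈ D, P.y ≠ 0)
    (c₀ : ℚ[X])
    (hc : fk f₀ ∣ C ((-1) ^ D.card) * aD D - (c₀.map (algebraMap ℚ kk)) ^ 2) :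
    ∃ E, Stab E ∧ rel D (E + E) := by
  refine desck_core h.crv hD hW _ (fun τ => ?_) (pow_ne_zero _ (neg_ne_zero.2 one_ne_zero)) hc
  rw [Polynomial.map_map, RingHom.ext_rat (RingHom.comp _ _) (algebraMap ℚ kk)]

end Pool.Agent.Lib.MP_830c64_nt
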