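import Pool.Agent.Lib.MP_830c64_nt.Defs

namespace Pool.Agent.Lib.MP_830c64_nt

open scoped InnerProductSpace

theorem emb_rat {r : ℕ} (A : Matrix (Fin r) (Fin r) ℝ)
    (hp : ∀ x : Fin r → ℤ, 0 ≤ ∑ i, ∑ j, (x i : ℝ) * A i j * (x j : ℝ)) (q : Fin r → ℚ) :
    0 ≤ ∑ i, ∑ j, (q i : ℝ) * A i j * (q j : ℝ) := by
  obtain ⟨N, hN, hq⟩ : ∃ N : ℕ, 0 < N ∧ ∀ i, ∃ z : ℤ, (z : ℚ) = N * q i := by
    refine ⟨∏ i, (q i).den, Finset.prod_pos fun i _ => (q i).den_pos, fun i => ?_⟩
    obtain ⟨c, hc⟩ := Finset.dvd_prod_of_mem (fun i => (q i).den) (Finset.mem_univ i)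
    refine ⟨c * (q i).num, ?_⟩
    rw [hc]
    push_cast
    rw [mul_comm ((q i).den : ℚ), mul_assoc, Rat.den_mul_eq_num]
  choose z hz using hq
  have h := hp z
  have hz' : ∀ i, (z i : ℝ) = N * (q i : ℝ) := fun i => by exact_mod_cast congrArg (Rat.cast : ℚ → ℝ) (hz i)
  have e : ∑ i, ∑ j, (z i : ℝ) * A i j * (z j : ℝ) =
      (N : ℝ) ^ 2 * ∑ i, ∑ j, (q i : ℝ) * A i j * (q j : ℝ) := by
    rw [Finset.mul_sum]
    refine Finset.sum_congr rfl fun i _ => ?_
    rw [Finset.mul_sum]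
    refine Finset.sum_congr rfl fun j _ => ?_
    rw [hz', hz']
    ring
  rw [e] at h
  have hN' : (0 : ℝ) < (N : ℝ) ^ 2 := by positivity
  exact (mul_nonneg_iff_of_pos_left hN').mp h

theorem emb_real {r : ℕ} (A : Matrix (Fin r) (Fin r) ℝ)
    (hp : ∀ x : Fin r → ℤ, 0 ≤ ∑ i, ∑ j, (x i : ℝ) * A i j * (x j : ℝ)) (x : Fin r → ℝ) :
    0 ≤ ∑ i, ∑ j, x i * A i j * x j := by
  have hd : DenseRange (Pi.map fun (_ : Fin r) (q : ℚ) => (q : ℝ)) :=
    DenseRange.piMap fun _ => Rat.denseRange_cast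
  refine hd.induction_on x (isClosed_le continuous_const (by fun_prop)) fun q => ?_
  exact emb_rat A hp q

/-- A positive semidefinite symmetric real matrix is a Gram matrix. -/
theorem gram_of_int {r : ℕ} (A : Matrix (Fin r) (Fin r) ℝ) (hs : A.IsSymm)
    (hp : ∀ x : Fin r → ℤ, 0 ≤ ∑ i, ∑ j, (x i : ℝ) * A i j * (x j : ℝ)) :
    ∃ e : Fin r → EuclideanSpace ℝ (Fin r), ∀ i j, ⟪e i, e j⟫_ℝ = A i j := by
  have hA : A.PosSemidef := by
    refine Matrix.posSemidef_iff_dotProduct_mulVec.mpr ⟨?_, fun x => ?_⟩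
    · ext i j
      simpa using hs.apply i j
    · have h := emb_real A hp x
      simpa [dotProduct, Matrix.mulVec, Finset.mul_sum, mul_assoc] using h
  open scoped MatrixOrder in
  obtain ⟨C, hC⟩ := CStarAlgebra.nonneg_iff_eq_star_mul_self.mp hA.nonneg
  refine ⟨fun i => WithLp.toLp 2 fun k => C k i, fun i j => ?_⟩
  rw [hC]
  simp [PiLp.inner_apply, Matrix.mul_apply, mul_comm]

theorem emb_card {Γ : Type} [AddCommGroup Γ] (M : ℕ)
    (hM : ∀ s : Finset Γ, M < s.card → ∃ x ∈ s, ∃ y ∈ s, x ≠ y ∧ ∃ z, x - y = 2 • z)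
    {ι : Type} [Fintype ι] (f : ι → Γ) (hf : ∀ i j, (∃ z, f i - f j = 2 • z) → i = j) :
    Fintype.card ι ≤ M := by
  classical
  have hi : Function.Injective f := fun i j h => hf i j ⟨0, by simp [h]⟩
  by_contra hc
  obtain ⟨x, hx, y, hy, hne, hz⟩ := hM (Finset.univ.image f) (by
    rw [Finset.card_image_of_injective _ hi, Finset.card_univ]
    omega)
  obtain ⟨i, -, rfl⟩ := Finset.mem_image.mp hx
  obtain ⟨j, -, rfl⟩ := Finset.mem_image.mp hy
  exact hne (by rw [hf i j hz])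

theorem emb_fg {Γ : Type} [AddCommGroup Γ] (B : Γ →+ Γ →+ ℝ) (hs : ∀ x y, B x y = B y x)
    (hp : ∀ x, 0 ≤ B x x) (hn : ∀ X : ℝ, {x | B x x ≤ X}.Finite) (M : ℕ)
    (hM : ∀ s : Finset Γ, M < s.card → ∃ x ∈ s, ∃ y ∈ s, x ≠ y ∧ ∃ z, x - y = 2 • z) :
    AddGroup.FG Γ := by
  haveI : Northcott (fun x => B x x) := ⟨hn⟩
  have hfin : Finite (Γ ⧸ (nsmulAddMonoidHom (α := Γ) 2).range) := by
    by_contra hinf
    rw [not_finite_iff_infinite] at hinf
    let g := Infinite.natEmbedding (Γ ⧸ (nsmulAddMonoidHom (α := Γ) 2).range)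
    have h := emb_card M hM (fun i : Fin (M + 1) => (g i).out) fun i j hij => by
      obtain ⟨z, hz⟩ := hij
      have h1 : g i = g j := by
        rw [← QuotientAddGroup.out_eq' (g i), ← QuotientAddGroup.out_eq' (g j),
          QuotientAddGroup.eq_iff_sub_mem]
        exact ⟨z, by simpa using hz.symm⟩
      exact Fin.ext (g.injective h1)
    simp at h
  refine AddCommGroup.fg_of_descent' (h := fun x => B x x) (C := 0)
    AddSubgroup.finiteIndex_of_finite_quotient hp fun x y => ?_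
  simp only [map_add, map_sub, AddMonoidHom.add_apply, AddMonoidHom.sub_apply]
  rw [abs_nonpos_iff]
  ring

/-- `AddCommGroup.fg_of_descent'` gives finite generation. Take a basis of the quotient by the
torsion subgroup (free of rank `r`); the `2 ^ r` sums of lifts of basis vectors are distinct modulo
`2 Γ`, so `2 ^ r ≤ M`. `B` kills torsion. Positivity passes from integer to rational to real
vectors (`gram_of_int`). -/
theorem emb {Γ : Type} [AddCommGroup Γ] (B : Γ →+ Γ →+ ℝ) (hs : ∀ x y, B x y = B y x)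
    (hp : ∀ x, 0 ≤ B x x) (hn : ∀ X : ℝ, {x | B x x ≤ X}.Finite) (M : ℕ)
    (hM : ∀ s : Finset Γ, M < s.card → ∃ x ∈ s, ∃ y ∈ s, x ≠ y ∧ ∃ z, x - y = 2 • z) :
    ∃ r : ℕ, 2 ^ r ≤ M ∧ ∃ u : Γ → EuclideanSpace ℝ (Fin r), ∀ x y, ⟪u x, u y⟫_ℝ = B x y := by
  classical
  haveI : Module.Finite ℤ Γ := Module.Finite.iff_addGroup_fg.mpr (emb_fg B hs hp hn M hM)
  let T := Submodule.torsion ℤ Γ
  haveI : Module.Free ℤ (Γ ⧸ T) := Module.free_of_finite_type_torsion_free'
  let b := Module.finBasis ℤ (Γ ⧸ T)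
  choose g hg using fun i => T.mkQ_surjective (b i)
  let c : Γ → Fin (Module.finrank ℤ (Γ ⧸ T)) → ℤ := fun x i => b.repr (T.mkQ x) i
  have hT : ∀ t ∈ T, ∀ y, B t y = 0 := by
    intro t ht y
    obtain ⟨a, ha⟩ := (Submodule.mem_torsion_iff t).mp ht
    have ha0 : (a : ℤ) ≠ 0 := nonZeroDivisors.coe_ne_zero a
    have h1 : B ((a : ℤ) • t) y = 0 := by
      have : (a : ℤ) • t = 0 := ha
      rw [this]
      simp
    rw [map_zsmul] at h1
    simpa [ha0] using h1
  have hx : ∀ x y, B x y = B (∑ i, c x i • g i) y := by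
    intro x y
    have hm : x - ∑ i, c x i • g i ∈ T := by
      rw [← Submodule.Quotient.mk_eq_zero, ← Submodule.mkQ_apply, map_sub, map_sum]
      simp only [map_zsmul, hg, c]
      rw [b.sum_repr, sub_self]
    have h1 := hT _ hm y
    rw [map_sub, AddMonoidHom.sub_apply] at h1
    linarith
  have hB : ∀ u v : Fin (Module.finrank ℤ (Γ ⧸ T)) → ℤ,
      B (∑ i, u i • g i) (∑ j, v j • g j) = ∑ i, ∑ j, (u i : ℝ) * B (g i) (g j) * (v j : ℝ) := by
    intro u v
    rw [map_sum B, AddMonoidHom.finsetSum_apply]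
    refine Finset.sum_congr rfl fun i _ => ?_
    rw [map_sum]
    refine Finset.sum_congr rfl fun j _ => ?_
    rw [map_zsmul, map_zsmul B, AddMonoidHom.zsmul_apply]
    simp only [zsmul_eq_mul]
    ring
  obtain ⟨e, he⟩ := gram_of_int (Matrix.of fun i j => B (g i) (g j))
    (by
      ext i j
      simpa using hs _ _)
    (fun x => by
      have h := hp (∑ i, x i • g i)
      rw [hB] at h
      simpa using h)
  refine ⟨Module.finrank ℤ (Γ ⧸ T), ?_, fun x => ∑ i, (c x i : ℝ) • e i, fun x y => ?_⟩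
  · have h := emb_card M hM
      (fun ε : Fin (Module.finrank ℤ (Γ ⧸ T)) → Fin 2 => ∑ i, ((ε i : ℕ) : ℤ) • g i)
      fun ε δ hεδ => by
        obtain ⟨z, hz⟩ := hεδ
        funext k
        have h1 := congrArg (fun w => b.repr (T.mkQ w) k) hz
        simp only [map_sub, map_sum, map_zsmul, map_nsmul, hg, b.repr_self, Finsupp.sub_apply,
          Finsupp.finsetSum_apply, Finsupp.smul_apply, Finsupp.single_apply, smul_eq_mul, mul_ite,
          mul_one, mul_zero, Finset.sum_ite_eq', Finset.mem_univ, if_true, nsmul_eq_mul] at h1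
        have h2 := (ε k).2
        have h3 := (δ k).2
        apply Fin.ext
        push_cast at h1
        omega
    simpa using h
  · rw [hx x y, hs, hx y, hs, hB, sum_inner]
    refine Finset.sum_congr rfl fun i _ => ?_
    rw [inner_sum]
    refine Finset.sum_congr rfl fun j _ => ?_
    rw [real_inner_smul_left, real_inner_smul_right, he]
    simp only [Matrix.of_apply]
    ring

end Pool.Agent.Lib.MP_830c64_nt
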