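import Pool.Agent.Lib.MP_830c64_nt.Reduce

namespace Pool.Agent.Lib.MP_830c64_nt

open Polynomial
open scoped Classical

variable {f₀ : ℤ[X]} {g : ℕ}

/-- The congruence `rel` on stable divisors. -/
def grpj_con {k : Type} [Field k] [CharZero k] [IsAlgClosed k] {f : k[X]} (h : Crv f g) :
    AddCon (SD f) where
  r D E := rel D.1 E.1
  iseqv := ⟨fun D => rel_refl h D.1, fun e => rel_symm h e, fun e e' => rel_trans h e e'⟩
  add' := fun e e' => rel_add h e e'

theorem grpj_unit {k : Type} [Field k] [CharZero k] [IsAlgClosed k] {f : k[X]} (h : Crv f g)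
    (a : (grpj_con h).Quotient) : ∃ b, b + a = 0 := by
  obtain ⟨D, rfl⟩ := (grpj_con h).mk'_surjective a
  have hs : Stab (D.1.map Pt.inv) := Stab.inv D.2
  refine ⟨(grpj_con h).mk' ⟨D.1.map Pt.inv, hs⟩, ?_⟩
  rw [add_comm, ← map_add, ← map_zero (grpj_con h).mk']
  refine ((grpj_con h).eq).2 ?_
  refine ⟨pol f (aD D.1), pol_ne_zero (aD_monic D.1).ne_zero, ?_⟩
  rw [dv_aD h]
  simp

/-- The group structure on the quotient. -/
@[reducible] noncomputable def grpj_grp {k : Type} [Field k] [CharZero k] [IsAlgClosed k]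
    {f : k[X]} (h : Crv f g) : AddCommGroup (grpj_con h).Quotient :=
  { (inferInstance : AddCommMonoid (grpj_con h).Quotient) with
    neg := fun a => (grpj_unit h a).choose
    zsmul := @zsmulRec _ _ _ ⟨fun a => (grpj_unit h a).choose⟩ (fun n a => n • a)
    zsmul_zero' := fun a => zero_nsmul a
    zsmul_succ' := fun n a => succ_nsmul a n
    zsmul_neg' := fun _ _ => rfl
    neg_add_cancel := fun a => (grpj_unit h a).choose_spec }

/-- The quotient of `SD` by the congruence `rel` (an `AddCon`) is a group, with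
`- cl D = cl (D.map inv)`. -/
theorem exists_J {k : Type} [Field k] [CharZero k] [IsAlgClosed k] {f : k[X]} (h : Crv f g) :
    ∃ (Γ : Type) (_ : AddCommGroup Γ) (cl : SD f →+ Γ), Function.Surjective cl ∧
      ∀ D E : SD f, cl D = cl E ↔ rel D.1 E.1 := by
  refine ⟨(grpj_con h).Quotient, grpj_grp h, (grpj_con h).mk',
    (grpj_con h).mk'_surjective, fun D E => ?_⟩
  exact (grpj_con h).eq

end Pool.Agent.Lib.MP_830c64_nt
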