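import Pool.Agent.Lib.MP_830c64_nt.GlobB
import Pool.Agent.Lib.MP_830c64_nt.GrpJ

namespace Pool.Agent.Lib.MP_830c64_nt

open Polynomial
open scoped Classical

variable {f₀ : ℤ[X]} {g : ℕ}

theorem northa_log {k : Type*} [Field k] (v : AbsoluteValue k ℝ) {β : Type*} (E : Multiset β)
    (u : β → k) (hu : ∀ P ∈ E, u P ≠ 0) :
    Real.log (v (E.map u).prod) = (E.map fun P => Real.log (v (u P))).sum := by
  rw [map_multiset_prod, Real.log_multiset_prod, Multiset.map_map, Multiset.map_map]
  · rfl
  · intro x hx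
    obtain ⟨y, hy, rfl⟩ := Multiset.mem_map.1 hx
    obtain ⟨P, hP, rfl⟩ := Multiset.mem_map.1 hy
    exact (v.pos (hu P hP)).ne'

theorem northa_prod_ne {k : Type*} [Field k] {β : Type*} (E : Multiset β)
    (u : β → k) (hu : ∀ P ∈ E, u P ≠ 0) : (E.map u).prod ≠ 0 := by
  refine Multiset.prod_ne_zero fun h0 => ?_
  obtain ⟨P, hP, h1⟩ := Multiset.mem_map.1 h0
  exact hu P hP h1

theorem northa_y {k : Type*} [Field k] {f : k[X]} {E : Multiset (Pt f)} (hE : Red g E)
    {P : Pt f} (hP : P ∈ E) : P.y ≠ 0 := fun hy =>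
  hE.2 P hP (by rw [inv_eq_of_y P hy]; exact hP)

theorem northa_inner {β : Type*} (E : Multiset β) (s t : β → ℝ) {P : β} (hP : P ∈ E) {c : ℝ}
    (h1 : ∀ R ∈ E, s R ≤ t R) (h2 : s P ≤ t P + c) : (E.map s).sum ≤ (E.map t).sum + c := by
  obtain ⟨F, rfl⟩ := Multiset.exists_cons_of_mem hP
  simp only [Multiset.map_cons, Multiset.sum_cons]
  have : (F.map s).sum ≤ (F.map t).sum :=
    Multiset.sum_map_le_sum_map _ _ fun R hR => h1 R (Multiset.mem_cons_of_mem hR)
  linarith

theorem northa_logH {k : Type*} [Field k] {f : k[X]} (v : AbsoluteValue k ℝ) (P R : Pt f) :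
    Real.log (Hh v P R) ≤ Real.log (max 1 (v P.x)) + Real.log (max 1 (v R.x)) := by
  have h1 : (1 : ℝ) ≤ max 1 (v P.x) := le_max_left _ _
  have h2 : (1 : ℝ) ≤ max 1 (v R.x) := le_max_left _ _
  have h3 : v P.x ≤ max 1 (v P.x) := le_max_right _ _
  have h4 : v R.x ≤ max 1 (v R.x) := le_max_right _ _
  rw [← Real.log_mul (by linarith) (by linarith)]
  refine Real.log_le_log (lt_of_lt_of_le one_pos (le_max_left _ _)) ?_
  refine max_le (by nlinarith) (max_le (by nlinarith) (by nlinarith))

/-- Local form. Put `t P R = log H P + log H R - log v (nz (P.x - R.x)) + m log κ` with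
`H P = max 1 (v P.x)`. Then `sig P R ≤ t P R` (`sn_le`, `sig_bound`, `Hh ≤ H P * H R`), and
`sig P P ≤ t P P - (2 + 2 g) log H P + 2 log v P.y` (`sn_self_le`). In the double sum each inner
sum contains the term `R = P`. -/
theorem north_loc {k : Type*} [Field k] [CharZero k] [IsAlgClosed k] {f : k[X]}
    {v : AbsoluteValue k ℝ} {κ : ℝ} (h : Crv f g) (hd : Dat v f κ) :
    ∃ m : ℕ, ∀ E : Multiset (Pt f), Red g E →
      (E.map fun P => (E.map fun R => sig v P R).sum).sum ≤
        -2 * (E.map fun P => Real.log (max 1 (v P.x))).sum +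
          2 * Real.log (v (E.map fun P => P.y).prod) -
          Real.log (v (E.map fun P => (E.map fun R => nz (P.x - R.x)).prod).prod) +
          m * Real.log κ := by
  obtain ⟨m₁, h₁⟩ := sig_bound h hd
  obtain ⟨m₂, h₂⟩ := sn_le h hd
  obtain ⟨m₃, h₃⟩ := sn_self_le h hd
  have hκ : 0 ≤ Real.log κ := Real.log_nonneg hd.one_le
  refine ⟨g * g * (m₁ + m₂ + m₃), fun E hE => ?_⟩
  set c : ℝ := ((m₁ : ℝ) + m₂ + m₃) * Real.log κ with hc
  have hc0 : 0 ≤ c := by positivity
  set L : Pt f → ℝ := fun P => Real.log (max 1 (v P.x)) with hL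
  have hL0 : ∀ P, 0 ≤ L P := fun P => Real.log_nonneg (le_max_left _ _)
  have e₁ : (0 : ℝ) ≤ m₁ * Real.log κ := by positivity
  have e₂ : (0 : ℝ) ≤ m₂ * Real.log κ := by positivity
  have e₃ : (0 : ℝ) ≤ m₃ * Real.log κ := by positivity
  have hin : ∀ P ∈ E, (E.map fun R => sig v P R).sum ≤
      ((E.card : ℝ) - (2 + 2 * g)) * L P + 2 * Real.log (v P.y) -
        (E.map fun R => Real.log (v (nz (P.x - R.x)))).sum + ((E.map L).sum + E.card * c) := by
    intro P hP
    have hy := northa_y hE hP
    have h4 := northa_inner E (fun R => sig v P R)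
      (fun R => L P + c + L R - Real.log (v (nz (P.x - R.x)))) hP
      (c := -(2 + 2 * g) * L P + 2 * Real.log (v P.y)) ?_ ?_
    · rw [Multiset.sum_map_sub, Multiset.sum_map_add, Multiset.map_const', Multiset.sum_replicate,
        nsmul_eq_mul] at h4
      linarith
    · intro R hR
      have h5 := (abs_le.1 (h₁ P R hy)).2
      have h6 := h₂ P R hy fun e => hE.2 P hP (e ▸ hR)
      have h7 := northa_logH v P R
      simp only [hL, hc]
      linarith
    · have h5 := (abs_le.1 (h₁ P P hy)).2
      have h6 := h₃ P hy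
      simp only [hL, hc, sub_self, nz_zero, map_one, Real.log_one]
      linarith
  have h8 := Multiset.sum_map_le_sum_map _ _ hin
  rw [Multiset.sum_map_add, Multiset.sum_map_sub, Multiset.sum_map_add, Multiset.sum_map_mul_left,
    Multiset.sum_map_mul_left, Multiset.map_const', Multiset.sum_replicate, nsmul_eq_mul] at h8
  rw [northa_log v E (fun P => P.y) fun P hP => northa_y hE hP,
    northa_log v E (fun P => (E.map fun R => nz (P.x - R.x)).prod)
      fun P _ => northa_prod_ne E _ fun R _ => nz_ne_zero _]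
  have h9 : (E.map fun P => Real.log (v (E.map fun R => nz (P.x - R.x)).prod)) =
      E.map fun P => (E.map fun R => Real.log (v (nz (P.x - R.x)))).sum :=
    Multiset.map_congr rfl fun P _ => northa_log v E _ fun R _ => nz_ne_zero _
  rw [h9]
  have hS : 0 ≤ (E.map L).sum := Multiset.sum_nonneg fun x hx => by
    obtain ⟨P, _, rfl⟩ := Multiset.mem_map.1 hx
    exact hL0 P
  have hcard : (E.card : ℝ) ≤ g := by exact_mod_cast hE.1
  have hcard0 : (0 : ℝ) ≤ E.card := Nat.cast_nonneg _
  have h10 : (E.card : ℝ) * (E.card * c) ≤ g * (g * c) :=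
    mul_le_mul hcard (mul_le_mul_of_nonneg_right hcard hc0) (by positivity) (by positivity)
  have h11 : (E.card : ℝ) * (E.map L).sum ≤ g * (E.map L).sum :=
    mul_le_mul_of_nonneg_right hcard hS
  have h12 : ((g * g * (m₁ + m₂ + m₃) : ℕ) : ℝ) * Real.log κ = g * (g * c) := by
    rw [hc]; push_cast; ring
  rw [h12]
  nlinarith

theorem northa_finsum {W : Type*} (a b c d e : W → ℝ) (ha : (Function.support a).Finite)
    (hb : (Function.support b).Finite) (hc : (Function.support c).Finite)
    (hd : (Function.support d).Finite) (he : (Function.support e).Finite)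
    (h : ∀ w, a w ≤ -2 * b w + 2 * c w - d w + e w) :
    ∑ᶠ w, a w ≤ -2 * ∑ᶠ w, b w + 2 * ∑ᶠ w, c w - ∑ᶠ w, d w + ∑ᶠ w, e w := by
  have hs := (((ha.union hb).union hc).union hd).union he
  rw [finsum_eq_sum_of_support_subset a (s := hs.toFinset) (fun w hw => by simp [hw]),
    finsum_eq_sum_of_support_subset b (s := hs.toFinset) (fun w hw => by simp [hw]),
    finsum_eq_sum_of_support_subset c (s := hs.toFinset) (fun w hw => by simp [hw]),
    finsum_eq_sum_of_support_subset d (s := hs.toFinset) (fun w hw => by simp [hw]),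
    finsum_eq_sum_of_support_subset e (s := hs.toFinset) (fun w hw => by simp [hw]),
    Finset.mul_sum, Finset.mul_sum, ← Finset.sum_add_distrib, ← Finset.sum_sub_distrib,
    ← Finset.sum_add_distrib]
  exact Finset.sum_le_sum fun w _ => h w

theorem northa_nz {k : Type*} [Field k] (τ : k ≃+* k) (z : k) : τ (nz z) = nz (τ z) := by
  by_cases hz : z = 0
  · rw [hz, map_zero, nz_zero, map_one]
  · rw [nz_of_ne hz, nz_of_ne ((map_ne_zero τ).2 hz)]

/-- Sum `north_loc` over all places (`GC.exists_dat`; only finitely many `log κ` are nonzero); the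
two products are nonzero and fixed by the Galois group. -/
theorem north_low (h : GC f₀ g) :
    ∃ c : ℝ, ∀ E : Multiset (Pt (fk f₀)), Stab E → Red g E → hN E ≤ BB E E + c := by
  obtain ⟨κ, hκ, hfin⟩ := h.exists_dat
  choose m hm using fun w => north_loc h.crv (hκ w)
  refine ⟨(1 / 2) * ∑ᶠ w, (m w : ℝ) * Real.log (κ w), fun E hS hE => ?_⟩
  have h1 := northa_finsum
    (fun w => (E.map fun P => (E.map fun R => sig (pl w) P R).sum).sum)
    (fun w => (E.map fun P => Real.log (max 1 (pl w P.x))).sum)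
    (fun w => Real.log (pl w (E.map fun P => P.y).prod))
    (fun w => Real.log (pl w (E.map fun P => (E.map fun R => nz (P.x - R.x)).prod).prod))
    (fun w => (m w : ℝ) * Real.log (κ w))
    (fin_msum E (fun w P => (E.map fun R => sig (pl w) P R).sum) fun P _ =>
      fin_msum E (fun w R => sig (pl w) P R) fun R _ => sig_fin h P R)
    (fin_msum E (fun w P => Real.log (max 1 (pl w P.x))) fun P _ => fin_logmax _)
    (fin_log _) (fin_log _)
    (hfin.subset fun w hw e => hw (by simp [e]))
    (fun w => hm w E hE)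
  have h2 : ∑ᶠ w, Real.log (pl w (E.map fun P => P.y).prod) = 0 := by
    refine prod_formula' (f₀ := f₀) (northa_prod_ne E _ fun P hP => northa_y hE hP) fun τ => ?_
    rw [map_multiset_prod, Multiset.map_map]
    conv_rhs => rw [← hS τ, Multiset.map_map]
    rfl
  have h3 : ∑ᶠ w, Real.log (pl w (E.map fun P => (E.map fun R => nz (P.x - R.x)).prod).prod) =
      0 := by
    refine prod_formula' (f₀ := f₀)
      (northa_prod_ne E _ fun P _ => northa_prod_ne E _ fun R _ => nz_ne_zero _) fun τ => ?_
    have h4 : ∀ P : Pt (fk f₀), τ.1 (E.map fun R => nz (P.x - R.x)).prod =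
        (E.map fun R => nz ((Pt.act τ P).x - R.x)).prod := by
      intro P
      rw [map_multiset_prod, Multiset.map_map]
      conv_rhs => rw [← hS τ, Multiset.map_map]
      refine congrArg _ (Multiset.map_congr rfl fun R _ => ?_)
      simp only [Function.comp, northa_nz, map_sub, act_x]
    rw [map_multiset_prod, Multiset.map_map]
    have h5 : (E.map fun P => (E.map fun R => nz (P.x - R.x)).prod) =
        (E.map (Pt.act τ)).map fun P => (E.map fun R => nz (P.x - R.x)).prod := by rw [hS τ]
    conv_rhs => rw [h5, Multiset.map_map]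
    exact congrArg _ (Multiset.map_congr rfl fun P _ => h4 P)
  rw [h2, h3] at h1
  rw [BB_eq_finsum h, hN]
  linarith

theorem hN_nonneg (E : Multiset (Pt (fk f₀))) : 0 ≤ hN E := by
  refine finsum_nonneg fun w => Multiset.sum_nonneg fun x hx => ?_
  obtain ⟨P, _, rfl⟩ := Multiset.mem_map.1 hx
  exact Real.log_nonneg (le_max_left _ _)

end Pool.Agent.Lib.MP_830c64_nt
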