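import Pool.Agent.Lib.MP_830c64_nt.PlacesB

namespace Pool.Agent.Lib.MP_830c64_nt

open Polynomial
open scoped Classical

variable {f₀ : ℤ[X]} {g : ℕ}

theorem places2_fk (f₀ : ℤ[X]) :
    fk f₀ = (f₀.map (Int.castRingHom ℚ)).map (algebraMap ℚ kk) := by
  rw [Polynomial.map_map, RingHom.ext_int ((algebraMap ℚ kk).comp _) (Int.castRingHom kk), fk]

theorem places2_sep (h : GC f₀ g) : (fk f₀).Separable := by
  rw [places2_fk]
  exact h.irr.separable.map

theorem places2_int (hm : f₀.Monic) {z : kk} (hz : z ∈ (fk f₀).roots) : IsIntegral ℤ z := by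
  refine ⟨f₀, hm, ?_⟩
  rw [eval₂_eq_eval_map, RingHom.ext_int (algebraMap ℤ kk) (Int.castRingHom kk)]
  exact (mem_roots (hm.map _).ne_zero).1 hz

theorem places2_prod (s : Multiset ℂ) (u : ℂ → ℂ) (c : ℝ) (h : ∀ x ∈ s, ‖u x‖ ≤ c) :
    ‖(s.map u).prod‖ ≤ c ^ s.card := by
  induction s using Multiset.induction_on with
  | empty => simp
  | cons a s ih =>
    rw [Multiset.map_cons, Multiset.prod_cons, Multiset.card_cons, norm_mul, pow_succ']
    have h1 := h a (Multiset.mem_cons_self _ _)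
    exact mul_le_mul h1 (ih fun x hx => h x (Multiset.mem_cons_of_mem hx)) (norm_nonneg _)
      ((norm_nonneg _).trans h1)

theorem GC.crv (h : GC f₀ g) : Crv (fk f₀) g := by
  refine ⟨h.monic.map _, ?_, places2_sep h, h.pos⟩
  rw [fk, h.monic.natDegree_map, h.deg]

theorem fk_eval (x : ℤ) : (fk f₀).eval (x : kk) = ((f₀.eval x : ℤ) : kk) := by
  rw [fk, eval_intCast_map]
  simp

theorem GC.eval_ne_zero (h : GC f₀ g) (x : ℤ) : f₀.eval x ≠ 0 := by
  intro e
  have hr : (f₀.map (Int.castRingHom ℚ)).IsRoot (x : ℚ) := by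
    rw [IsRoot.def, eval_intCast_map]
    simp [e]
  have h1 := degree_eq_one_of_irreducible_of_root h.irr hr
  have h2 : (f₀.map (Int.castRingHom ℚ)).natDegree = 1 := natDegree_eq_of_degree_eq_some h1
  rw [h.monic.natDegree_map, h.deg] at h2
  have := h.pos
  omega

theorem GC.root_le (h : GC f₀ g) (p : Nat.Primes) {z : kk} (hz : z ∈ (fk f₀).roots) :
    pl (some p) z ≤ 1 := by
  exact pl_integral p (places2_int h.monic hz)

/-- `v Δ ≤ v (f' α) = ∏ v (α - z') ≤ v (α - z)`. -/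
theorem GC.root_sep (h : GC f₀ g) {Δ : ℤ} (hΔ : Bez f₀ Δ) (p : Nat.Primes) {α z : kk}
    (hα : α ∈ (fk f₀).roots) (hz : z ∈ (fk f₀).roots) (hne : z ≠ α) :
    pl (some p) (Δ : kk) ≤ pl (some p) (α - z) := by
  obtain ⟨-, U, V, e⟩ := hΔ
  have hm : (fk f₀).Monic := h.monic.map _
  have h0 : (fk f₀).eval α = 0 := (mem_roots hm.ne_zero).1 hα
  have e1 := congrArg (fun q : ℤ[X] => (q.map (Int.castRingHom kk)).eval α) e
  simp only [Polynomial.map_add, Polynomial.map_mul, eval_add, eval_mul, map_C, eval_C,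
    ← derivative_map] at e1
  rw [eq_intCast (Int.castRingHom kk)] at e1
  change _ * (fk f₀).eval α + _ * (fk f₀).derivative.eval α = _ at e1
  have hz' : z ∈ (fk f₀).roots.erase α := (Multiset.mem_erase_of_ne hne).2 hz
  rw [h0, mul_zero, zero_add, (IsAlgClosed.splits _).eval_root_derivative hm hα,
    ← Multiset.prod_map_erase hz'] at e1
  have iα := places2_int h.monic hα
  have i1 : IsIntegral ℤ ((V.map (Int.castRingHom kk)).eval α) := by
    rw [← algebraMap_int_eq, eval_map_algebraMap]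
    exact IsIntegral.of_mem_of_fg _ iα.fg_adjoin_singleton _ (aeval_mem_adjoin_singleton ℤ α)
  have i2 : IsIntegral ℤ (((((fk f₀).roots.erase α).erase z).map fun x => α - x).prod) := by
    refine IsIntegral.multiset_prod fun y hy => ?_
    obtain ⟨x, hx, rfl⟩ := Multiset.mem_map.1 hy
    exact iα.sub (places2_int h.monic (Multiset.mem_of_mem_erase (Multiset.mem_of_mem_erase hx)))
  have i3 := pl_integral p (i1.mul i2)
  rw [← e1, mul_left_comm, map_mul]
  exact mul_le_of_le_one_right ((pl (some p)).nonneg _) i3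

theorem dat_good {Δ : ℤ} (hΔ : Bez f₀ Δ) (p : Nat.Primes) (hp : ¬ ((p : ℕ) : ℤ) ∣ 2 * Δ) :
    Dat (pl (some p)) (fk f₀) 1 := by
  obtain ⟨h0, U, V, e⟩ := hΔ
  have h2 : pl (some p) ((2 : ℤ) : kk) = 1 :=
    pl_int_eq_one p fun hd => hp (hd.mul_right _)
  have hd : pl (some p) (Δ : kk) = 1 := pl_int_eq_one p fun hd => hp (hd.mul_left _)
  have hk : (Δ : kk) ≠ 0 := by exact_mod_cast h0
  have hc : ∀ (W : ℤ[X]) (i : ℕ),
      pl (some p) ((C (Δ : kk)⁻¹ * W.map (Int.castRingHom kk)).coeff i) ≤ 1 := fun W i => by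
    rw [coeff_C_mul, coeff_map, map_mul, map_inv₀, hd, inv_one, one_mul]
    exact pl_int_le p _
  refine ⟨le_rfl, fun a b => ?_, ?_, fun i => ?_, _, _, ?_, hc U, hc V⟩
  · rw [one_mul]
    exact pl_na p a b
  · rw [one_mul, ← h2]
    simp
  · rw [fk, coeff_map]
    exact pl_int_le p _
  · have e1 := congrArg (fun q : ℤ[X] => q.map (Int.castRingHom kk)) e
    simp only [Polynomial.map_add, Polynomial.map_mul, map_C, ← derivative_map] at e1
    rw [eq_intCast (Int.castRingHom kk)] at e1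
    rw [fk, mul_assoc, mul_assoc, ← mul_add, e1, ← C_mul, inv_mul_cancel₀ hk, C_1]

/-- `Δ` is the resultant of `f₀` and its derivative (`exists_mul_add_mul_eq_C_resultant`,
`resultant_map_map`, `resultant_eq_prod_eval` over `ℂ`); `f' ζ` is the product of the `ζ - ζ'`. -/
theorem GC.exists_bez_le (h : GC f₀ g) {T : ℝ} (hT : 1 ≤ T)
    (hr : ∀ z ∈ (f₀.map (Int.castRingHom ℂ)).roots, ‖z‖ ≤ T) :
    ∃ Δ : ℤ, Bez f₀ Δ ∧ |(Δ : ℝ)| ≤ (2 * T) ^ ((2 * g + 1) * (2 * g + 1)) := by
  set n := 2 * g + 1 with hn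
  have hd : f₀.derivative.natDegree ≤ n := (natDegree_derivative_le _).trans (by
    rw [h.deg]; omega)
  obtain ⟨U, V, -, -, e⟩ := exists_mul_add_mul_eq_C_resultant (m := n) (n := n) f₀ f₀.derivative
    h.deg.le hd (Or.inl (by omega))
  set F := f₀.map (Int.castRingHom ℂ) with hF
  have hm : F.Monic := h.monic.map _
  have hFd : F.natDegree = n := by rw [hF, h.monic.natDegree_map, h.deg]
  have hs : F.Splits := IsAlgClosed.splits _
  have hsep : F.Separable := by
    have := (h.irr.separable).map (f := algebraMap ℚ ℂ)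
    rwa [Polynomial.map_map, RingHom.ext_int ((algebraMap ℚ ℂ).comp _) (Int.castRingHom ℂ)] at this
  have hcard : F.roots.card = n := by rw [← hFd]; exact hs.natDegree_eq_card_roots.symm
  have e1 : ((f₀.resultant f₀.derivative n n : ℤ) : ℂ) =
      (F.roots.map F.derivative.eval).prod := by
    have h1 := resultant_map_map f₀ f₀.derivative n n (Int.castRingHom ℂ)
    have h2 := resultant_eq_prod_eval F F.derivative n
      ((natDegree_derivative_le _).trans (by omega)) hs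
    rw [hFd, hm.leadingCoeff, one_pow, one_mul] at h2
    rw [← h2, hF, derivative_map, h1, eq_intCast]
  have hT2 : (1 : ℝ) ≤ 2 * T := by linarith
  refine ⟨f₀.resultant f₀.derivative n n, ⟨fun h0 => ?_, U, V, by rw [← e]; ring⟩, ?_⟩
  · rw [h0, Int.cast_zero] at e1
    obtain ⟨x, hx, hx0⟩ := Multiset.mem_map.1 (Multiset.prod_eq_zero_iff.1 e1.symm)
    have hx1 : F.eval x = 0 := (mem_roots hm.ne_zero).1 hx
    obtain ⟨a, b, hab⟩ := hsep
    have := congrArg (eval x) hab
    simp [hx0, hx1] at this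
  · rw [← Complex.norm_intCast, e1, pow_mul]
    refine (places2_prod _ _ ((2 * T) ^ n) fun x hx => ?_).trans_eq (by rw [hcard])
    rw [hs.eval_root_derivative hm hx]
    refine (places2_prod _ _ (2 * T) fun y hy => ?_).trans (pow_le_pow_right₀ hT2 ?_)
    · have h1 := hr x hx
      have h2 := hr y (Multiset.mem_of_mem_erase hy)
      exact (norm_sub_le _ _).trans (by linarith)
    · rw [← hcard]
      exact Multiset.card_erase_le

theorem GC.exists_bez (h : GC f₀ g) : ∃ Δ : ℤ, Bez f₀ Δ := by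
  have h0 : 0 ≤ ((f₀.map (Int.castRingHom ℂ)).roots.map fun z => ‖z‖).sum :=
    Multiset.sum_nonneg fun x hx => by
      obtain ⟨y, -, rfl⟩ := Multiset.mem_map.1 hx
      exact norm_nonneg _
  obtain ⟨Δ, hΔ, -⟩ := h.exists_bez_le
    (T := 1 + ((f₀.map (Int.castRingHom ℂ)).roots.map fun z => ‖z‖).sum) (by linarith)
    fun z hz => by
      have := Multiset.single_le_sum (s := (f₀.map (Int.castRingHom ℂ)).roots.map fun z => ‖z‖)
        (fun x hx => by
          obtain ⟨y, -, rfl⟩ := Multiset.mem_map.1 hx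
          exact norm_nonneg _) _ (Multiset.mem_map_of_mem _ hz)
      linarith
  exact ⟨Δ, hΔ⟩

theorem GC.fin_bad (h : GC f₀ g) : {w | ¬ Dat (pl w) (fk f₀) 1}.Finite := by
  obtain ⟨Δ, hΔ⟩ := h.exists_bez
  have h0 : (2 * Δ).natAbs ≠ 0 := Int.natAbs_ne_zero.2 (mul_ne_zero two_ne_zero hΔ.1)
  have h1 : {p : Nat.Primes | (p : ℕ) ≤ (2 * Δ).natAbs}.Finite :=
    (Set.finite_le_nat (2 * Δ).natAbs).preimage Subtype.val_injective.injOn
  refine ((h1.image some).insert none).subset fun w hw => ?_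
  cases w with
  | none => exact Set.mem_insert _ _
  | some p =>
    refine Set.mem_insert_of_mem _ ⟨p, ?_, rfl⟩
    have h2 : ((p : ℕ) : ℤ) ∣ 2 * Δ := by
      by_contra hp
      exact hw (dat_good hΔ p hp)
    exact Nat.le_of_dvd (Nat.pos_of_ne_zero h0) (Int.natCast_dvd.1 h2)

/-- A family of constants, equal to `1` at almost all places. -/
theorem GC.exists_dat (h : GC f₀ g) : ∃ κ : Option Nat.Primes → ℝ,
    (∀ w, Dat (pl w) (fk f₀) (κ w)) ∧ {w | κ w ≠ 1}.Finite := by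
  choose κ hκ using fun w => dat_exists h.crv.sep (pl w)
  refine ⟨fun w => if Dat (pl w) (fk f₀) 1 then 1 else κ w, fun w => ?_,
    h.fin_bad.subset fun w hw hd => hw ?_⟩
  · by_cases hd : Dat (pl w) (fk f₀) 1
    · simp only [hd, if_true]
    · simpa only [hd, if_false] using hκ w
  · simp only [hd, if_true]

/-- The Galois group is transitive on the roots of `f₀` (`minpoly.exists_algEquiv_of_root`). -/
theorem GC.root_trans (h : GC f₀ g) {α z : kk} (hα : (fk f₀).eval α = 0)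
    (hz : (fk f₀).eval z = 0) : ∃ τ : Aut (fk f₀), τ.1 α = z := by
  have e : ∀ x : kk, aeval x (f₀.map (Int.castRingHom ℚ)) = (fk f₀).eval x := fun x => by
    rw [places2_fk, eval_map_algebraMap]
  have h1 : f₀.map (Int.castRingHom ℚ) = minpoly ℚ z :=
    minpoly.eq_of_irreducible_of_monic h.irr (by rw [e, hz]) (h.monic.map _)
  have : Normal ℚ kk := IsAlgClosure.normal ℚ kk
  obtain ⟨σ, hσ⟩ := minpoly.exists_algEquiv_of_root (K := ℚ) (x := α) (y := z)
    (Algebra.IsAlgebraic.isAlgebraic z) (by rw [← h1, e, hα])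
  exact ⟨⟨σ.toRingEquiv, fk_map f₀ _⟩, hσ⟩

theorem io_root (hm : f₀.Monic) {z : kk} (hz : z ∈ (fk f₀).roots) :
    io z ∈ (f₀.map (Int.castRingHom ℂ)).roots := by
  have h0 : (fk f₀).eval z = 0 := (mem_roots (hm.map _).ne_zero).1 hz
  rw [mem_roots (hm.map _).ne_zero, IsRoot.def,
    ← RingHom.ext_int (io.comp (Int.castRingHom kk)) (Int.castRingHom ℂ), ← Polynomial.map_map,
    eval_map, eval₂_at_apply]
  change io ((fk f₀).eval z) = 0
  rw [h0, map_zero]

theorem IPB.ip {B : ℕ} {P : Pt (fk f₀)} (h : IPB B P) : IP P := by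
  obtain ⟨x, y, h1, -, -, h2, h3⟩ := h
  exact ⟨x, y, h1, h2, h3⟩

theorem IP.y_ne {P : Pt (fk f₀)} (h : IP P) : P.y ≠ 0 := by
  obtain ⟨x, y, h1, -, h3⟩ := h
  rw [h3]
  exact_mod_cast h1.ne'

theorem IP.stab {P : Pt (fk f₀)} (h : IP P) : Stab ({P} : Multiset (Pt (fk f₀))) := by
  obtain ⟨x, y, -, h2, h3⟩ := h
  intro τ
  rw [Multiset.map_singleton]
  congr 1
  refine Pt.ext ?_ ?_
  · change τ.1 P.x = P.x
    rw [h2, map_intCast]
  · change τ.1 P.y = P.y
    rw [h3, map_intCast]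

theorem IP.fixed {P : Pt (fk f₀)} (h : IP P) (τ : Aut (fk f₀)) :
    τ.1 P.x = P.x ∧ τ.1 P.y = P.y := by
  obtain ⟨x, y, -, h2, h3⟩ := h
  rw [h2, h3, map_intCast, map_intCast]
  exact ⟨rfl, rfl⟩

end Pool.Agent.Lib.MP_830c64_nt
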