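import Pool.Agent.Lib.MP_830c64_nt.CvGal
import Pool.Agent.Lib.MP_830c64_nt.Places2

namespace Pool.Agent.Lib.MP_830c64_nt

open Polynomial
open scoped Classical

variable {f₀ : ℤ[X]} {g : ℕ}

/-- `|q| ≤ exp X`, and `log q.den` is the sum over the primes of `log (max 1 (padicNorm p q))`
(product formula for `q.den`). -/
theorem rat_fin (X : ℝ) : {q : ℚ | ∑ᶠ w, Real.log (max 1 (pl w (q : kk))) ≤ X}.Finite := by
  refine (((Set.finite_Icc (-(⌈Real.exp X⌉₊ : ℤ)) ⌈Real.exp X⌉₊).prod
    (Set.finite_Iic ⌈Real.exp X⌉₊)).image fun z : ℤ × ℕ => (z.1 : ℚ) / z.2).subset fun q hq => ?_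
  have d0 : (q.den : ℚ) ≠ 0 := Nat.cast_ne_zero.2 q.den_nz
  have d1 : (1 : ℝ) ≤ q.den := Nat.one_le_cast.2 q.den_pos
  have p0 : ∀ w, 0 < pl w ((q.den : ℚ) : kk) := fun w => (pl w).pos (Rat.cast_ne_zero.2 d0)
  have m0 : ∀ w, 0 < max 1 (pl w (q : kk)) := fun w => lt_max_of_lt_left one_pos
  have e0 : pl none ((q.den : ℚ) : kk) = q.den := by
    rw [pl_none_rat, Rat.cast_natCast, Nat.abs_cast]
  have h0 : ∀ w, 0 ≤ Real.log (pl w ((q.den : ℚ) : kk)) + Real.log (max 1 (pl w (q : kk))) := by
    intro w
    rw [← Real.log_mul (p0 w).ne' (m0 w).ne']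
    refine Real.log_nonneg ?_
    rcases w with _ | p
    · rw [e0]
      exact one_le_mul_of_one_le_of_one_le d1 (le_max_left _ _)
    · by_cases hp : ((p : ℕ) : ℤ) ∣ (q.den : ℤ)
      · have h1 : ¬ ((p : ℕ) : ℤ) ∣ q.num := fun h => p.2.one_lt.ne' (Nat.eq_one_of_dvd_coprimes
          q.reduced (Int.natCast_dvd.1 h) (Int.natCast_dvd_natCast.1 hp))
        rw [← pl_int_eq_one p h1, ← Rat.cast_intCast, ← Rat.den_mul_eq_num, Rat.cast_mul, map_mul]
        exact mul_le_mul_of_nonneg_left (le_max_right _ _) (p0 _).le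
      · have h1 := pl_int_eq_one p hp
        rw [Int.cast_natCast] at h1
        rw [Rat.cast_natCast, h1, one_mul]
        exact le_max_left _ _
  have h1 := single_le_finsum none (((fin_log _).union (fin_logmax _)).subset
    (Function.support_add _ _)) h0
  rw [finsum_add_distrib (fin_log _) (fin_logmax _), prod_formula d0, zero_add,
    ← Real.log_mul (p0 _).ne' (m0 _).ne'] at h1
  have h2 := ((Real.log_le_iff_le_exp (mul_pos (p0 _) (m0 _))).1 (h1.trans hq)).trans
    (Nat.le_ceil _)
  rw [e0, pl_none_rat] at h2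
  refine ⟨(q.num, q.den), ⟨abs_le.1 ?_, ?_⟩, q.num_div_den⟩
  · have h3 : |(q.num : ℝ)| = q.den * |(q : ℝ)| := by
      rw [← Rat.cast_intCast, ← Rat.den_mul_eq_num, Rat.cast_mul, abs_mul, Rat.cast_natCast,
        Nat.abs_cast]
    have h4 := h3.trans_le ((mul_le_mul_of_nonneg_left (le_max_right _ _)
      (Nat.cast_nonneg _)).trans h2)
    exact_mod_cast h4
  · exact Nat.cast_le.1 ((le_mul_of_one_le_right (Nat.cast_nonneg _) (le_max_left _ _)).trans h2)

theorem coeff_le {k : Type*} [Field k] {v : AbsoluteValue k ℝ} {κ : ℝ} (h1 : 1 ≤ κ)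
    (ht : ∀ a b, v (a + b) ≤ κ * max (v a) (v b)) (s : Multiset k) (i : ℕ) :
    Real.log (max 1 (v ((s.map fun a => X - C a).prod.coeff i))) ≤
      (s.map fun a => Real.log (max 1 (v a))).sum + s.card * Real.log κ := by
  induction s using Multiset.induction_on generalizing i with
  | empty =>
    simp only [Multiset.map_zero, Multiset.prod_zero, Multiset.sum_zero, Multiset.card_zero,
      Nat.cast_zero, zero_mul, add_zero, coeff_one]
    split_ifs <;> simp
  | cons a s ih =>
    have m0 : ∀ x : ℝ, 0 < max 1 x := fun x => lt_max_of_lt_left one_pos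
    simp only [Real.log_le_iff_le_exp (m0 _), max_le_iff] at ih ⊢
    simp only [Multiset.map_cons, Multiset.prod_cons, Multiset.sum_cons, Multiset.card_cons,
      Nat.cast_succ]
    generalize (s.map fun a => X - C a).prod = p at ih ⊢
    have e : ∀ x y : ℝ, Real.exp (Real.log (max 1 (v a)) + x + (y + 1) * Real.log κ) =
        κ * (max 1 (v a) * Real.exp (x + y * Real.log κ)) := fun x y => by
      rw [show Real.log (max 1 (v a)) + x + (y + 1) * Real.log κ = Real.log κ +
        (Real.log (max 1 (v a)) + (x + y * Real.log κ)) by ring, Real.exp_add, Real.exp_add,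
        Real.exp_log (m0 _), Real.exp_log (by linarith)]
    rw [e]
    generalize Real.exp _ = B at ih ⊢
    have b1 := (ih 0).1
    have b2 : B ≤ max 1 (v a) * B := le_mul_of_one_le_left (by linarith) (le_max_left _ _)
    have b3 : ∀ j, v (-(a * p.coeff j)) ≤ max 1 (v a) * B := fun j => by
      rw [v.map_neg, map_mul]
      exact mul_le_mul (le_max_right _ _) (ih j).2 (v.nonneg _) (m0 _).le
    have b4 : max 1 (v a) * B ≤ κ * (max 1 (v a) * B) := le_mul_of_one_le_left (by linarith) h1
    refine ⟨by linarith, ?_⟩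
    rcases i with _ | i
    · rw [mul_coeff_zero, coeff_sub, coeff_X_zero, coeff_C_zero, zero_sub, neg_mul]
      exact (b3 0).trans b4
    · rw [coeff_X_sub_C_mul, sub_eq_add_neg]
      exact (ht _ _).trans (mul_le_mul_of_nonneg_left (max_le ((ih i).2.trans b2) (b3 _))
        (by linarith))

/-- Finitely many multisets of points have a given `aD`. -/
theorem fin_fibre {k : Type*} [Field k] [CharZero k] [IsAlgClosed k] {f : k[X]} (u : k[X]) :
    {E : Multiset (Pt f) | aD E = u}.Finite := by
  have h1 : ∀ E : Multiset (Pt f), (aD E).roots = E.map Pt.x := fun E => by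
    rw [← roots_multiset_prod_X_sub_C (E.map Pt.x), Multiset.map_map]
    rfl
  have h2 : {P : Pt f | P.x ∈ u.roots}.Finite := by
    refine Set.Finite.of_finite_fibers Pt.x (u.roots.finite_toSet.subset ?_) ?_
    · rintro _ ⟨P, hP, rfl⟩
      exact hP
    · rintro _ ⟨P, -, rfl⟩
      exact (Set.toFinite {P, P.inv}).subset fun R hR => eq_or_eq_inv hR.2
  refine (Set.finite_Iic (u.roots.card • h2.toFinset.val)).subset ?_
  rintro E rfl
  refine Multiset.le_iff_count.2 fun P => ?_
  by_cases hP : P ∈ E
  · rw [Multiset.count_nsmul, Multiset.count_eq_one_of_mem h2.toFinset.nodup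
      (h2.mem_toFinset.2 (by rw [Set.mem_ofPred, h1]; exact Multiset.mem_map_of_mem _ hP)), mul_one,
      h1, Multiset.card_map]
    exact Multiset.count_le_card _ _
  · rw [Multiset.count_eq_zero_of_notMem hP]
    exact Nat.zero_le _

/-- The coefficients of `aD E` are rational (`fixed_rat'`, `aD_act`) of bounded height
(`coeff_le` with `κ = 2` at infinity and `κ = 1` at the primes). -/
theorem north_fin (f₀ : ℤ[X]) (g : ℕ) (X : ℝ) :
    {E : Multiset (Pt (fk f₀)) | Stab E ∧ E.card ≤ g ∧ hN E ≤ X}.Finite := by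
  refine Set.Finite.of_finite_fibers aD ?_ fun u _ => (fin_fibre u).subset fun E hE => hE.2
  have h0 : ∀ E : Multiset (Pt (fk f₀)),
      aD E = ((E.map Pt.x).map fun a => Polynomial.X - C a).prod := fun E => by
    rw [Multiset.map_map]
    rfl
  refine Set.Finite.of_injOn (f := fun (u : kk[X]) (i : Fin (g + 1)) => u.coeff i) ?_ ?_
    (Set.Finite.pi' fun _ => (rat_fin (X + g * Real.log 2)).image fun q : ℚ => (q : kk))
  · rintro _ ⟨E, ⟨h1, h2, h3⟩, rfl⟩ i
    obtain ⟨q, hq⟩ := fixed_rat' (f₀ := f₀) (z := (aD E).coeff i) fun τ => by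
      have := congrArg (fun u => coeff u i) (aD_act τ E)
      simp only [h1 τ, coeff_map] at this
      exact this.symm
    refine ⟨q, ?_, hq.symm⟩
    have f1 := fin_msum E (fun w P => Real.log (max 1 (pl w P.x))) fun P _ => fin_logmax _
    have f2 : (Function.support fun w : Option Nat.Primes =>
        if w = none then g * Real.log 2 else 0).Finite :=
      (Set.finite_singleton none).subset fun w hw => by_contra fun h => hw (if_neg h)
    refine (finsum_le_finsum' (fin_logmax _) ((f1.union f2).subset (Function.support_add _ _))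
      fun w => ?_).trans ?_
    · rw [← hq, h0]
      rcases w with _ | p
      · have h4 := coeff_le (v := pl none) one_le_two (fun a b => ((pl none).add_le a b).trans (by
          linarith [le_max_left (pl none a) (pl none b), le_max_right (pl none a) (pl none b)]))
          (E.map Pt.x) i
        rw [Multiset.map_map (fun a => Real.log _), Multiset.card_map] at h4
        exact h4.trans (add_le_add le_rfl (mul_le_mul_of_nonneg_right (Nat.cast_le.2 h2)
          (Real.log_nonneg one_le_two)))
      · have h4 := coeff_le (v := pl (some p)) le_rfl (fun a b => (pl_na p a b).trans_eq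
          (one_mul _).symm) (E.map Pt.x) i
        rw [Multiset.map_map (fun a => Real.log _), Real.log_one, mul_zero] at h4
        exact h4
    · rw [finsum_add_distrib f1 f2, finsum_eq_single _ none fun w hw => if_neg hw, if_pos rfl]
      exact add_le_add h3 le_rfl
  · have h1 : ∀ E : Multiset (Pt (fk f₀)), E.card ≤ g → (aD E).natDegree ≤ g := fun E hE => by
      rwa [h0, natDegree_multiset_prod_X_sub_C_eq_card, Multiset.card_map]
    rintro _ ⟨E, hE, rfl⟩ _ ⟨E', hE', rfl⟩ h
    exact (ext_iff_natDegree_le (h1 E hE.2.1) (h1 E' hE'.2.1)).2 fun i hi =>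
      congrFun h ⟨i, Nat.lt_succ_of_le hi⟩

end Pool.Agent.Lib.MP_830c64_nt
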