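import Pool.Agent.Lib.MP_830c64_nt.Selmer

namespace Pool.Agent.Lib.MP_830c64_nt

open NumberField IsDedekindDomain
open scoped Classical nonZeroDivisors

theorem selmer2_val {K : Type} [Field K] [NumberField K] (v : HeightOneSpectrum (𝓞 K)) {x : K}
    (hx : x ≠ 0) : v.valuation K x =
      WithZero.exp (-FractionalIdeal.count K v (FractionalIdeal.spanSingleton (𝓞 K)⁰ x)) := by
  obtain ⟨n, d, rfl⟩ := IsLocalization.exists_mk'_eq (𝓞 K)⁰ x
  have hn : n ≠ 0 := by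
    rintro rfl
    simp at hx
  have hd : (d : 𝓞 K) ≠ 0 := nonZeroDivisors.coe_ne_zero d
  have h1 : FractionalIdeal.spanSingleton (𝓞 K)⁰ (IsLocalization.mk' K n d) =
      FractionalIdeal.spanSingleton (𝓞 K)⁰ ((algebraMap (𝓞 K) K) d)⁻¹ *
        ((Ideal.span {n} : Ideal (𝓞 K)) : FractionalIdeal (𝓞 K)⁰ K) := by
    rw [FractionalIdeal.coeIdeal_span_singleton, FractionalIdeal.spanSingleton_mul_spanSingleton,
      IsFractionRing.mk'_eq_div, div_eq_mul_inv, mul_comm]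
  rw [FractionalIdeal.count_well_defined K v
    (FractionalIdeal.spanSingleton_ne_zero_iff.2 hx) h1, HeightOneSpectrum.valuation_of_mk',
    HeightOneSpectrum.intValuation_if_neg v hn, HeightOneSpectrum.intValuation_if_neg v hd,
    ← WithZero.exp_sub]
  congr 1
  ring

theorem selmer2_even {K : Type} [Field K] [NumberField K] (v : HeightOneSpectrum (𝓞 K)) {x : K}
    (hx : x ≠ 0) : (∃ z : K, v.valuation K x = v.valuation K z ^ 2) ↔
      Even (FractionalIdeal.count K v (FractionalIdeal.spanSingleton (𝓞 K)⁰ x)) := by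
  constructor
  · rintro ⟨z, hz⟩
    have hz0 : z ≠ 0 := by
      rintro rfl
      simp [hx] at hz
    rw [selmer2_val v hx, selmer2_val v hz0, sq, ← WithZero.exp_add, WithZero.exp_inj] at hz
    exact ⟨FractionalIdeal.count K v (FractionalIdeal.spanSingleton (𝓞 K)⁰ z), by omega⟩
  · rintro ⟨m, hm⟩
    obtain ⟨z, hz⟩ := v.valuation_surjective K (WithZero.exp (-m))
    refine ⟨z, ?_⟩
    rw [selmer2_val v hx, hz, sq, ← WithZero.exp_add, hm]
    congr 1
    ring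

theorem selmer2_ext {K : Type} [Field K] [NumberField K] {I J : FractionalIdeal (𝓞 K)⁰ K}
    (hI : I ≠ 0) (hJ : J ≠ 0) (h : ∀ v : HeightOneSpectrum (𝓞 K),
      FractionalIdeal.count K v I = FractionalIdeal.count K v J) : I = J := by
  rw [← FractionalIdeal.finprod_heightOneSpectrum_factorization' K hI,
    ← FractionalIdeal.finprod_heightOneSpectrum_factorization' K hJ]
  exact finprod_congr fun v => by rw [h v]

theorem selmer2_sqrt {K : Type} [Field K] [NumberField K] (u : Kˣ)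
    (h : ∀ 𝔭 : HeightOneSpectrum (𝓞 K), ∃ z : K,
      𝔭.valuation K (u : K) = 𝔭.valuation K z ^ 2) :
    ∃ I : (FractionalIdeal (𝓞 K)⁰ K)ˣ, (I : FractionalIdeal (𝓞 K)⁰ K) ^ 2 =
      FractionalIdeal.spanSingleton (𝓞 K)⁰ (u : K) := by
  have hu : FractionalIdeal.spanSingleton (𝓞 K)⁰ (u : K) ≠ 0 :=
    FractionalIdeal.spanSingleton_ne_zero_iff.2 u.ne_zero
  have he : ∀ v : HeightOneSpectrum (𝓞 K), ∃ m : ℤ,
      FractionalIdeal.count K v (FractionalIdeal.spanSingleton (𝓞 K)⁰ (u : K)) = m + m :=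
    fun v => (selmer2_even v u.ne_zero).1 (h v)
  choose m hm using he
  have hf : ∀ᶠ v : HeightOneSpectrum (𝓞 K) in Filter.cofinite, m v = 0 := by
    filter_upwards [FractionalIdeal.finite_factors
      (FractionalIdeal.spanSingleton (𝓞 K)⁰ (u : K))] with v hv
    have := hm v
    omega
  have h0 : (∏ᶠ v : HeightOneSpectrum (𝓞 K),
      (v.asIdeal : FractionalIdeal (𝓞 K)⁰ K) ^ m v) ≠ 0 := by
    refine finprod_induction (fun I : FractionalIdeal (𝓞 K)⁰ K => I ≠ 0) one_ne_zero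
      (fun a b ha hb => mul_ne_zero ha hb) fun v => ?_
    exact zpow_ne_zero _ (FractionalIdeal.coeIdeal_ne_zero.mpr v.ne_bot)
  refine ⟨Units.mk0 _ h0, selmer2_ext (pow_ne_zero _ h0) hu fun v => ?_⟩
  rw [Units.val_mk0, FractionalIdeal.count_pow, FractionalIdeal.count_finprod K v m hf, hm v]
  push_cast
  ring

theorem selmer2_mk {K : Type} [Field K] [NumberField K] (I : (FractionalIdeal (𝓞 K)⁰ K)ˣ) :
    ClassGroup.mk K I = 1 ↔ ∃ x : K, (I : FractionalIdeal (𝓞 K)⁰ K) =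
      FractionalIdeal.spanSingleton (𝓞 K)⁰ x := by
  rw [ClassGroup.mk_eq_one_iff, FractionalIdeal.isPrincipal_iff]

/-- If all valuations of `u` are even then `(u) = I u ^ 2`; put `c u` the class of `I u`. If
`c u = c u'` then `I u * I u' = (γ) * (I u') ^ 2 = (γ u')`, so `u * u' = ε * (γ u') ^ 2`. -/
theorem even_class (K : Type) [Field K] [NumberField K] :
    ∃ c : Kˣ → {c : ClassGroup (𝓞 K) // c ^ 2 = 1}, ∀ u u' : Kˣ,
      (∀ 𝔭 : HeightOneSpectrum (𝓞 K), ∃ z : K, 𝔭.valuation K (u : K) = 𝔭.valuation K z ^ 2) →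
      (∀ 𝔭 : HeightOneSpectrum (𝓞 K), ∃ z : K, 𝔭.valuation K (u' : K) = 𝔭.valuation K z ^ 2) →
      c u = c u' → ∃ (ε : (𝓞 K)ˣ) (z : Kˣ), ((u * u' : Kˣ) : K) = ((ε : 𝓞 K) : K) * (z : K) ^ 2 := by
  have key : ∀ u : Kˣ, ∃ I : (FractionalIdeal (𝓞 K)⁰ K)ˣ, ClassGroup.mk K I ^ 2 = 1 ∧
      ((∀ 𝔭 : HeightOneSpectrum (𝓞 K), ∃ z : K, 𝔭.valuation K (u : K) = 𝔭.valuation K z ^ 2) →
        (I : FractionalIdeal (𝓞 K)⁰ K) ^ 2 = FractionalIdeal.spanSingleton (𝓞 K)⁰ (u : K)) := by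
    intro u
    by_cases h : ∀ 𝔭 : HeightOneSpectrum (𝓞 K), ∃ z : K,
        𝔭.valuation K (u : K) = 𝔭.valuation K z ^ 2
    · obtain ⟨I, hI⟩ := selmer2_sqrt u h
      refine ⟨I, ?_, fun _ => hI⟩
      rw [← map_pow, selmer2_mk]
      exact ⟨u, by rw [Units.val_pow_eq_pow_val, hI]⟩
    · exact ⟨1, by simp, fun h' => absurd h' h⟩
  choose I hI1 hI2 using key
  refine ⟨fun u => ⟨ClassGroup.mk K (I u), hI1 u⟩, fun u u' hu hu' hc => ?_⟩
  have hc' : ClassGroup.mk K (I u) = ClassGroup.mk K (I u') := congrArg Subtype.val hc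
  have h1 : ClassGroup.mk K (I u * I u') = 1 := by
    rw [map_mul, hc', ← sq, hI1]
  obtain ⟨x, hx⟩ := (selmer2_mk _).1 h1
  have hx0 : x ≠ 0 := by
    rintro rfl
    exact (I u * I u').ne_zero (by rw [hx, FractionalIdeal.spanSingleton_zero])
  have h2 : FractionalIdeal.spanSingleton (𝓞 K)⁰ (x ^ 2) =
      FractionalIdeal.spanSingleton (𝓞 K)⁰ ((u * u' : Kˣ) : K) := by
    rw [← FractionalIdeal.spanSingleton_pow, ← hx, Units.val_mul, mul_pow, hI2 u hu, hI2 u' hu',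
      FractionalIdeal.spanSingleton_mul_spanSingleton, Units.val_mul]
  obtain ⟨ε, hε⟩ := FractionalIdeal.spanSingleton_eq_spanSingleton.1 h2
  refine ⟨ε, Units.mk0 x hx0, ?_⟩
  rw [← hε, Units.smul_def, Algebra.smul_def, Units.val_mk0]

/-- Three successive pigeonhole steps (parity of the valuations on `S`; class; unit): inside a
fibre of the first map fix `i₀` and replace `u i` by `u i * u i₀`, and similarly for the second
map. -/
theorem selmer (K : Type) [Field K] [NumberField K] (S : Finset (HeightOneSpectrum (𝓞 K)))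
    {ι : Type} (s : Finset ι) (u : ι → K) (h0 : ∀ i ∈ s, u i ≠ 0)
    (hu : ∀ i ∈ s, ∀ 𝔭 : HeightOneSpectrum (𝓞 K), 𝔭 ∉ S →
      ∃ z : K, 𝔭.valuation K (u i) = 𝔭.valuation K z ^ 2)
    (hs : 2 ^ S.card * h2 K * 2 ^ Module.finrank ℚ K < s.card) :
    ∃ i ∈ s, ∃ j ∈ s, i ≠ j ∧ IsSquare (u i * u j) := by
  obtain ⟨c, hc⟩ := even_class K
  obtain ⟨d, hd⟩ := units_sq K
  have hfin : Finite {c : ClassGroup (𝓞 K) // c ^ 2 = 1} := inferInstance
  let _ : Fintype {c : ClassGroup (𝓞 K) // c ^ 2 = 1} := Fintype.ofFinite _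
  obtain ⟨U, hU⟩ : ∃ U : ι → Kˣ, ∀ i ∈ s, (U i : K) = u i :=
    ⟨fun i => if h : u i ≠ 0 then Units.mk0 (u i) h else 1, fun i hi => by simp [h0 i hi]⟩
  let cn : HeightOneSpectrum (𝓞 K) → K → ℤ := fun v x =>
    FractionalIdeal.count K v (FractionalIdeal.spanSingleton (𝓞 K)⁰ x)
  have hcn : ∀ v (x y : K), x ≠ 0 → y ≠ 0 → cn v (x * y) = cn v x + cn v y := by
    intro v x y hx hy
    simp only [cn]
    rw [← FractionalIdeal.spanSingleton_mul_spanSingleton, FractionalIdeal.count_mul K v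
      (FractionalIdeal.spanSingleton_ne_zero_iff.2 hx)
      (FractionalIdeal.spanSingleton_ne_zero_iff.2 hy)]
  let p : ι → (S → ZMod 2) := fun i v => (cn v.1 (u i) : ZMod 2)
  obtain ⟨y1, -, hy1⟩ := Finset.exists_lt_card_fiber_of_mul_lt_card_of_maps_to (s := s)
    (t := (Finset.univ : Finset (S → ZMod 2))) (f := p)
    (n := h2 K * 2 ^ Module.finrank ℚ K) (fun _ _ => Finset.mem_univ _)
    (by simpa [mul_assoc] using hs)
  set s1 := s.filter (fun x => p x = y1) with hs1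
  obtain ⟨i0, hi0⟩ : s1.Nonempty := Finset.card_pos.1 (by omega)
  have hev : ∀ i ∈ s1, ∀ 𝔭 : HeightOneSpectrum (𝓞 K), ∃ z : K,
      𝔭.valuation K ((U i * U i0 : Kˣ) : K) = 𝔭.valuation K z ^ 2 := by
    intro i hi 𝔭
    obtain ⟨his, hip⟩ := Finset.mem_filter.1 hi
    obtain ⟨h0s, h0p⟩ := Finset.mem_filter.1 hi0
    rw [selmer2_even 𝔭 (Units.ne_zero _), Units.val_mul, hU i his, hU i0 h0s]
    change Even (cn 𝔭 (u i * u i0))
    rw [hcn 𝔭 _ _ (h0 i his) (h0 i0 h0s)]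
    by_cases h𝔭 : 𝔭 ∈ S
    · have h1 : (cn 𝔭 (u i) : ZMod 2) = (cn 𝔭 (u i0) : ZMod 2) :=
        congrFun (hip.trans h0p.symm) ⟨𝔭, h𝔭⟩
      have h2 := (ZMod.intCast_eq_intCast_iff _ _ 2).1 h1
      rw [Int.even_iff]
      unfold Int.ModEq at h2
      push_cast at h2
      omega
    · exact Even.add ((selmer2_even 𝔭 (h0 i his)).1 (hu i his 𝔭 h𝔭))
        ((selmer2_even 𝔭 (h0 i0 h0s)).1 (hu i0 h0s 𝔭 h𝔭))
  obtain ⟨y2, -, hy2⟩ := Finset.exists_lt_card_fiber_of_mul_lt_card_of_maps_to (s := s1)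
    (t := (Finset.univ : Finset {c : ClassGroup (𝓞 K) // c ^ 2 = 1}))
    (f := fun i => c (U i * U i0))
    (n := 2 ^ Module.finrank ℚ K) (fun _ _ => Finset.mem_univ _)
    (by rw [Finset.card_univ, ← Nat.card_eq_fintype_card]; exact hy1)
  set s2 := s1.filter (fun x => c (U x * U i0) = y2) with hs2
  obtain ⟨i1, hi1⟩ : s2.Nonempty := Finset.card_pos.1 (lt_of_le_of_lt (Nat.zero_le _) hy2)
  have hun : ∀ i : ι, ∃ (ε : (𝓞 K)ˣ) (z : Kˣ), i ∈ s2 →
      (((U i * U i0) * (U i1 * U i0) : Kˣ) : K) = ((ε : 𝓞 K) : K) * (z : K) ^ 2 := by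
    intro i
    by_cases hi : i ∈ s2
    · obtain ⟨a1, a2⟩ := Finset.mem_filter.1 hi
      obtain ⟨b1, b2⟩ := Finset.mem_filter.1 hi1
      obtain ⟨ε, z, h⟩ := hc _ _ (hev i a1) (hev i1 b1) (a2.trans b2.symm)
      exact ⟨ε, z, fun _ => h⟩
    · exact ⟨1, 1, fun h => absurd h hi⟩
  choose ε z hε using hun
  obtain ⟨i, hi, j, hj, hij, hdij⟩ := Finset.exists_ne_map_eq_of_card_lt_of_maps_to (s := s2)
    (t := (Finset.univ : Finset (Fin (Module.finrank ℚ K) → ZMod 2))) (f := fun i => d (ε i))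
    (by simpa using hy2) (fun _ _ => Finset.mem_univ _)
  have his : i ∈ s := (Finset.mem_filter.1 (Finset.mem_filter.1 hi).1).1
  have hjs : j ∈ s := (Finset.mem_filter.1 (Finset.mem_filter.1 hj).1).1
  refine ⟨i, his, j, hjs, hij, ?_⟩
  obtain ⟨η, hη⟩ := hd _ _ hdij
  have hη' : ((ε i : 𝓞 K) : K) * ((ε j : 𝓞 K) : K) = ((η : 𝓞 K) : K) * ((η : 𝓞 K) : K) := by
    have := congrArg (fun t : (𝓞 K)ˣ => ((t : 𝓞 K) : K)) hη
    simpa using this
  have e1 := hε i hi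
  have e2 := hε j hj
  simp only [Units.val_mul] at e1 e2
  rw [hU i his] at e1
  rw [hU j hjs] at e2
  have a0 : (U i0 : K) ≠ 0 := Units.ne_zero _
  have a1 : (U i1 : K) ≠ 0 := Units.ne_zero _
  refine ⟨((η : 𝓞 K) : K) * z i * z j / (U i0 * (U i1 * U i0)), ?_⟩
  rw [div_mul_div_comm, eq_div_iff (by positivity)]
  linear_combination (u j * U i0 * (U i1 * U i0)) * e1 + (((ε i : 𝓞 K) : K) * (z i : K) ^ 2) * e2
    + ((z i : K) ^ 2 * (z j : K) ^ 2) * hη'

end Pool.Agent.Lib.MP_830c64_nt
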