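import Pool.Agent.Lib.MP_830c64_nt.GlobS
import Pool.Agent.Lib.MP_830c64_nt.NorthA
import Pool.Agent.Lib.MP_830c64_nt.NorthB
import Pool.Agent.Lib.MP_830c64_nt.DescK
import Pool.Agent.Lib.MP_830c64_nt.DescI2
import Pool.Agent.Lib.MP_830c64_nt.Selmer2
import Pool.Agent.Lib.MP_830c64_nt.Emb

namespace Pool.Agent.Lib.MP_830c64_nt

open Polynomial NumberField IsDedekindDomain
open scoped Classical InnerProductSpace IntermediateField

variable {f₀ : ℤ[X]} {g : ℕ}

theorem BB_nonneg (h : GC f₀ g) {D : Multiset (Pt (fk f₀))} (hD : Stab D) : 0 ≤ BB D D := by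
  obtain ⟨c, hc⟩ := north_low h
  have key : ∀ N : ℕ, -c ≤ (N : ℝ) ^ 2 * BB D D := fun N => by
    obtain ⟨E, hE, hr, e⟩ := reduce h (hD.nsmul N)
    have h1 := BB_rel_left h (hD.nsmul N) hE (hD.nsmul N) e
    have h2 := BB_rel_right h hE (hD.nsmul N) hE e
    have h3 := hc E hE hr
    have h4 := hN_nonneg E
    rw [h2, BB_nsmul_left, BB_nsmul_right] at h1
    nlinarith
  by_contra hneg
  have hpos : 0 < -BB D D := by linarith [not_le.1 hneg]
  obtain ⟨N, hN⟩ := exists_nat_gt (|c| / (-BB D D))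
  rw [div_lt_iff₀ hpos] at hN
  have h1 := key (N + 1)
  have h2 : (0 : ℝ) ≤ N := Nat.cast_nonneg N
  have h3 := le_abs_self c
  have h4 : 0 ≤ (N : ℝ) ^ 2 * -BB D D := by positivity
  have h5 : 0 ≤ (N : ℝ) * -BB D D := by positivity
  push_cast at h1
  nlinarith

/-- Two reduced divisors whose descent images have square product differ by a double: write the
square root as `aeval θ c₀` (`ℚ⟮θ⟯ = ⊤`), use `minpoly.dvd` and `desc_ker` for `D + E`. -/
theorem desc_pair (h : GC f₀ g) {K : Type} [Field K] [NumberField K] (θ : 𝓞 K)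
    (hθ : aeval θ f₀ = 0) (htop : ℚ⟮(θ : K)⟯ = ⊤) {D E : Multiset (Pt (fk f₀))} (hD : Stab D)
    (hE : Stab E) (hD' : Red g D) (hE' : Red g E) {a b : ℚ[X]}
    (ha : aD D = a.map (algebraMap ℚ kk)) (hb : aD E = b.map (algebraMap ℚ kk))
    (hsq : IsSquare (((-1) ^ D.card * aeval (θ : K) a) * ((-1) ^ E.card * aeval (θ : K) b))) :
    ∃ F, Stab F ∧ rel (D + E) (F + F) := by
  obtain ⟨s, hs⟩ := hsq
  have hint : IsIntegral ℚ (θ : K) := Algebra.IsIntegral.isIntegral _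
  obtain ⟨c₀, hc₀⟩ : ∃ c₀ : ℚ[X], aeval (θ : K) c₀ = s := by
    have h1 : s ∈ (ℚ⟮(θ : K)⟯).toSubalgebra := by rw [htop]; trivial
    rw [IntermediateField.adjoin_simple_toSubalgebra_of_isAlgebraic hint.isAlgebraic,
      Algebra.adjoin_singleton_eq_range_aeval] at h1
    exact h1
  have hf : aeval (θ : K) (f₀.map (Int.castRingHom ℚ)) = 0 := by
    have h1 := congrArg (algebraMap (𝓞 K) K) hθ
    rw [map_zero, ← aeval_algebraMap_apply] at h1
    rw [← algebraMap_int_eq, aeval_map_algebraMap]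
    exact h1
  have hm : f₀.map (Int.castRingHom ℚ) = minpoly ℚ (θ : K) :=
    minpoly.eq_of_irreducible_of_monic h.irr hf (h.monic.map _)
  have hd : f₀.map (Int.castRingHom ℚ) ∣ C ((-1) ^ (D + E).card) * (a * b) - c₀ ^ 2 := by
    rw [hm]
    refine minpoly.dvd _ _ ?_
    simp only [map_sub, map_mul, map_pow, map_neg, map_one]
    rw [hc₀, sq, ← hs, Multiset.card_add]
    ring
  refine desc_ker h (hD.add hE) (fun P hP => ?_) c₀ ?_
  · rcases Multiset.mem_add.1 hP with hP | hP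
    exacts [hD'.y_ne P hP, hE'.y_ne P hP]
  · have h1 := Polynomial.map_dvd (algebraMap ℚ kk) hd
    have h2 : (f₀.map (Int.castRingHom ℚ)).map (algebraMap ℚ kk) = fk f₀ := by
      rw [Polynomial.map_map, fk]
      exact congrArg (fun φ => f₀.map φ) (RingHom.ext_int _ _)
    rw [h2] at h1
    rw [aD_add, ha, hb]
    simpa only [Polynomial.map_sub, Polynomial.map_mul, Polynomial.map_pow, Polynomial.map_C,
      map_pow, map_neg, map_one, Polynomial.map_neg, Polynomial.map_one] using h1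

/-- `exists_J`, the pairing descends (`BB_rel_left`, `BB_rel_right`), Northcott by `reduce`,
`north_low`, `north_fin`, the bound modulo `2` by `reduce`, `desc_im`, `selmer`, `desc_pair`; then
`emb`. -/
theorem lattice (h : GC f₀ g) {Δ : ℤ} (hΔ : Bez f₀ Δ) {K : Type} [Field K] [NumberField K]
    (θ : 𝓞 K) (hθ : aeval θ f₀ = 0) (htop : ℚ⟮(θ : K)⟯ = ⊤)
    (S : Finset (HeightOneSpectrum (𝓞 K)))
    (hS : ∀ 𝔭 : HeightOneSpectrum (𝓞 K),
      (((g.factorial : ℤ) * Δ : ℤ) : 𝓞 K) ∈ 𝔭.asIdeal → 𝔭 ∈ S) :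
    ∃ r : ℕ, 2 ^ r ≤ 2 ^ S.card * h2 K * 2 ^ Module.finrank ℚ K ∧
      ∃ u : Multiset (Pt (fk f₀)) → EuclideanSpace ℝ (Fin r),
        ∀ D E, Stab D → Stab E → ⟪u D, u E⟫_ℝ = BB D E := by
  obtain ⟨Γ, _, cl, hsurj, hcl⟩ := exists_J h.crv
  have hred : ∀ x : Γ, ∃ E : SD (fk f₀), Red g E.1 ∧ cl E = x := fun x => by
    obtain ⟨D, rfl⟩ := hsurj x
    obtain ⟨E, hE, hr, e⟩ := reduce h D.2
    exact ⟨⟨E, hE⟩, hr, ((hcl D ⟨E, hE⟩).2 e).symm⟩
  choose s hsr hs using hred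
  have key : ∀ D E : SD (fk f₀), BB (s (cl D)).1 (s (cl E)).1 = BB D.1 E.1 := fun D E => by
    rw [BB_rel_left h (s _).2 D.2 (s _).2 ((hcl _ _).1 (hs _)),
      BB_rel_right h D.2 (s _).2 E.2 ((hcl _ _).1 (hs _))]
  let B : Γ →+ Γ →+ ℝ := AddMonoidHom.mk' (fun x => AddMonoidHom.mk'
    (fun y => BB (s x).1 (s y).1) fun y y' => by
      have h1 := key (s x) (s y + s y')
      rw [map_add, hs, hs, hs] at h1
      rw [h1]
      exact BB_add_right _ _ _) fun x x' => by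
    ext y
    have h1 := key (s x + s x') (s y)
    rw [map_add, hs, hs, hs] at h1
    exact h1.trans (BB_add_left _ _ _)
  have hB : ∀ x y, B x y = BB (s x).1 (s y).1 := fun _ _ => rfl
  obtain ⟨c, hc⟩ := north_low h
  have ha : ∀ x : Γ, ∃ a : ℚ[X], aD (s x).1 = a.map (algebraMap ℚ kk) := fun x =>
    fixed_poly fun τ => by rw [← aD_act, (s x).2 τ]
  choose a ha using ha
  obtain ⟨r, hr, u, hu⟩ := emb B (fun x y => BB_symm h (s x).2 (s y).2)
    (fun x => BB_nonneg h (s x).2)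
    (fun X => by
      refine Set.Finite.of_finite_image (f := fun x => (s x).1)
        ((north_fin f₀ g (X + c)).subset ?_) fun x _ y _ e => ?_
      · rintro _ ⟨x, hx, rfl⟩
        have h1 := hc _ (s x).2 (hsr x)
        have h2 : BB (s x).1 (s x).1 ≤ X := hx
        exact ⟨(s x).2, (hsr x).1, by linarith⟩
      · rw [← hs x, ← hs y, Subtype.ext e])
    (2 ^ S.card * h2 K * 2 ^ Module.finrank ℚ K) fun t ht => by
      have hi := fun x : Γ => desc_im h hΔ θ hθ (s x).2 (hsr x) (ha x)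
      obtain ⟨i, hi', j, hj, hij, hsq⟩ := selmer K S t
        (fun x => (-1) ^ (s x).1.card * aeval (θ : K) (a x))
        (fun x _ => mul_ne_zero (pow_ne_zero _ (neg_ne_zero.2 one_ne_zero)) (hi x).1)
        (fun x _ 𝔭 h𝔭 => by
          obtain ⟨z, -, hz⟩ := (hi x).2 𝔭 fun h' => h𝔭 (hS 𝔭 h')
          exact ⟨z, by rw [map_mul, map_pow, Valuation.map_neg, map_one, one_pow, one_mul, hz]⟩) ht
      obtain ⟨F, hF, e⟩ := desc_pair h θ hθ htop (s i).2 (s j).2 (hsr i) (hsr j) (ha i) (ha j) hsq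
      have h1 := (hcl (s i + s j) (⟨F, hF⟩ + ⟨F, hF⟩)).2 e
      rw [map_add, map_add, hs, hs] at h1
      refine ⟨i, hi', j, hj, hij, cl ⟨F, hF⟩ - j, ?_⟩
      rw [two_nsmul, sub_add_sub_comm, ← h1]
      abel
  refine ⟨r, hr, fun D => if hD : Stab D then u (cl ⟨D, hD⟩) else 0, fun D E hD hE => ?_⟩
  simp only [dif_pos hD, dif_pos hE]
  rw [hu, hB, key]

end Pool.Agent.Lib.MP_830c64_nt
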