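import Pool.Agent.Lib.MP_830c64_nt.Slice
import Pool.Agent.Lib.MP_830c64_nt.Lattice
import Pool.Agent.Lib.MP_830c64_nt.KlMain
import Pool.Agent.Lib.MP_830c64_nt.GoLine

namespace Pool.Agent.Lib.MP_830c64_nt

open Polynomial NumberField
open scoped Classical IntermediateField

/-- `gc_minpoly`, `GC.exists_bez_le`, `exists_B`, `slice`, `card_S`, `lattice`, `kl` with
`s = 1 / (2 g)` on each fibre (`fibre_le`), `divis`, `pow_omega`. -/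
theorem count_pts {g : ℕ} (hg : 1 ≤ g) {b ε : ℝ} (hb : 0 < b)
    (hsb : (1 / (2 * (g : ℝ))) ^ 2 < 1 - 1 / (1 + 2 * b) ^ 2) (hε : 0 < ε) :
    ∃ A : ℝ, 0 ≤ A ∧ ∀ (K : Type) [Field K] [NumberField K], Module.finrank ℚ K = 2 * g + 1 →
      ∀ T : ℝ, 1 ≤ T → ∀ θ ∈ box K T, ℚ⟮(θ : K)⟯ = ⊤ →
        (((Finset.Icc (-⌊T⌋) ⌊T⌋).filter fun t : ℤ =>
          IsSquare ((minpoly ℤ θ).eval t)).card : ℝ) ≤ A * T ^ ε * (h2 K : ℝ) ^ kap b := by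
  have hk0 : 0 < kap b := kap_pos hb
  have hg0 : (0 : ℝ) < g := by exact_mod_cast hg
  set N : ℕ := (2 * g + 1) * (2 * g + 1) with hN
  have hN0 : (0 : ℝ) < N := by rw [hN]; positivity
  have hε4 : 0 < ε / 4 := by positivity
  have hε2 : 0 < ε / 4 / N := by positivity
  obtain ⟨c₁, hc₁, h₁⟩ := kl (s := 1 / (2 * (g : ℝ))) (by positivity) hb hsb
  obtain ⟨c₂, hc₂, h₂⟩ := exists_B (2 * g + 1) (by omega) hε4
  obtain ⟨c₃, hc₃, h₃⟩ := divis (c := 2 * (2 * (g : ℝ) + 1)) (by linarith) hε2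
  set q : ℝ := ((2 : ℝ) ^ (2 * g + 1)) ^ kap b with hq
  have hq1 : 1 ≤ q := Real.one_le_rpow (one_le_pow₀ (by norm_num)) hk0.le
  obtain ⟨c₄, hc₄, h₄⟩ := pow_omega hq1 hε2
  refine ⟨256000 * (2 * g + 1) ^ 3 * c₂ ^ 2 * (c₃ * 2 ^ (ε / 4)) *
    (c₁ * (c₄ * (g.factorial : ℝ) ^ (ε / 4 / N) * 2 ^ (ε / 4) * q)), by positivity, ?_⟩
  intro K _ _ hK T hT θ hθ htop
  have hT0 : 0 < T := by linarith
  have hG := gc_minpoly K hg hK θ htop
  have hr := root_minpoly_le K θ hθ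
  set f₀ := minpoly ℤ θ with hf₀
  obtain ⟨Δ, hΔ, hΔle⟩ := hG.exists_bez_le hT hr
  obtain ⟨B, hB, hB3⟩ := h₂ T hT
  have hTB : T ≤ 2 ^ B := by
    have h1 : 2 * T ≤ (2 * T) ^ (2 * g + 1) := le_self_pow₀ (by linarith) (by omega)
    linarith
  obtain ⟨α, inst, ℓ, hα, hℓ⟩ := slice hG hΔ B fun z hz => (hr z hz).trans hTB
  have hm0 : (g.factorial : ℤ) * Δ ≠ 0 :=
    mul_ne_zero (by exact_mod_cast g.factorial_ne_zero) hΔ.1
  obtain ⟨S, hS, hSc⟩ := card_S K hm0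
  obtain ⟨r, hr2, u, hu⟩ := lattice hG hΔ θ (minpoly.aeval ℤ θ) htop S hS
  rw [hK] at hSc hr2
  set X := (Finset.Icc (-⌊T⌋) ⌊T⌋).filter fun t : ℤ => IsSquare (f₀.eval t) with hX
  have hne : Nonempty (Pt (fk f₀)) := (exists_pt (fk f₀) 0).elim fun P _ => ⟨P⟩
  have hex : ∀ t ∈ X, ∃ P : Pt (fk f₀), IPB B P ∧ P.x = t := by
    intro t ht
    rw [hX, Finset.mem_filter, Finset.mem_Icc] at ht
    refine exists_ipb hG hT hr hB ?_ ht.2
    have h1 : ((⌊T⌋ : ℤ) : ℝ) ≤ T := Int.floor_le T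
    have h2 : ((-⌊T⌋ : ℤ) : ℝ) ≤ t := by exact_mod_cast ht.1.1
    have h3 : (t : ℝ) ≤ ((⌊T⌋ : ℤ) : ℝ) := by exact_mod_cast ht.1.2
    rw [abs_le]; push_cast at h2; constructor <;> linarith
  choose! pt hpt using hex
  have hfib := fibre_le X (fun t => ℓ (pt t)) (M := c₁ * ((2 : ℝ) ^ r) ^ kap b) (by
    intro Y hY hc
    refine h₁ r ℤ Y (fun t => u {pt t}) fun i hi j hj hij => ?_
    obtain ⟨hi1, hi2⟩ := hpt i (hY hi)
    obtain ⟨hj1, hj2⟩ := hpt j (hY hj)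
    have hx : (pt j).x ≠ (pt i).x := by
      rw [hi2, hj2]; exact_mod_cast hij.symm
    have h := hℓ (pt i) (pt j) hi1 hj1 hx (hc i hi j hj)
    rw [real_inner_comm, hu _ _ hj1.ip.stab hi1.ip.stab, hu _ _ hi1.ip.stab hi1.ip.stab]
    calc _ < _ := h
      _ = _ := by ring)
  have hΔ0 : Δ.natAbs ≠ 0 := Int.natAbs_ne_zero.2 hΔ.1
  have hΔε : (Δ.natAbs : ℝ) ^ (ε / 4 / N) ≤ 2 ^ (ε / 4) * T ^ (ε / 4) := by
    have e : (Δ.natAbs : ℝ) = |(Δ : ℝ)| := by rw [Nat.cast_natAbs, Int.cast_abs]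
    rw [e, ← Real.mul_rpow (by norm_num) hT0.le]
    calc _ ≤ ((2 * T) ^ N) ^ (ε / 4 / N) := by gcongr
      _ = _ := by
        rw [← Real.rpow_natCast, ← Real.rpow_mul (by positivity)]
        congr 1; field_simp
  have hprod := h₃ Δ.natAbs hΔ0
  have hcard : (Fintype.card α : ℝ) ≤ 256000 * (2 * g + 1) ^ 3 * c₂ ^ 2 * (c₃ * 2 ^ (ε / 4)) *
      (T ^ (ε / 4)) ^ 3 := by
    calc _ ≤ _ := hα
      _ ≤ 256000 * (2 * g + 1) ^ 3 * (c₂ * T ^ (ε / 4)) ^ 2 *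
          (c₃ * (2 ^ (ε / 4) * T ^ (ε / 4))) := by
        gcongr
        exact hprod.trans (by gcongr)
      _ = _ := by ring
  have hH : (0 : ℝ) ≤ h2 K := Nat.cast_nonneg _
  have hom := h₄ ((g.factorial : ℤ) * Δ).natAbs (Int.natAbs_ne_zero.2 hm0)
  have hom' : q ^ ((g.factorial : ℤ) * Δ).natAbs.primeFactors.card ≤
      c₄ * (g.factorial : ℝ) ^ (ε / 4 / N) * 2 ^ (ε / 4) * T ^ (ε / 4) := by
    refine hom.trans ?_
    rw [Int.natAbs_mul, Int.natAbs_natCast, Nat.cast_mul,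
      Real.mul_rpow (by positivity) (by positivity)]
    calc _ ≤ c₄ * ((g.factorial : ℝ) ^ (ε / 4 / N) * (2 ^ (ε / 4) * T ^ (ε / 4))) := by gcongr
      _ = _ := by ring
  have hrk : ((2 : ℝ) ^ r) ^ kap b ≤
      q ^ ((g.factorial : ℤ) * Δ).natAbs.primeFactors.card * (h2 K : ℝ) ^ kap b * q := by
    have h1 : (2 : ℝ) ^ r ≤ 2 ^ S.card * (h2 K : ℝ) * 2 ^ (2 * g + 1) := by exact_mod_cast hr2
    have h2' : (2 : ℝ) ^ S.card ≤
        ((2 : ℝ) ^ (2 * g + 1)) ^ ((g.factorial : ℤ) * Δ).natAbs.primeFactors.card := by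
      rw [← pow_mul]; exact pow_le_pow_right₀ (by norm_num) hSc
    calc ((2 : ℝ) ^ r) ^ kap b ≤ (((2 : ℝ) ^ (2 * g + 1)) ^
          ((g.factorial : ℤ) * Δ).natAbs.primeFactors.card * (h2 K : ℝ) *
          2 ^ (2 * g + 1)) ^ kap b := by
          gcongr
          exact h1.trans (by gcongr)
      _ = _ := by
        rw [Real.mul_rpow (by positivity) (by positivity),
          Real.mul_rpow (by positivity) (by positivity), hq, ← Real.rpow_pow_comm (by positivity)]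
  have hTε : T ^ ε = (T ^ (ε / 4)) ^ 4 := by
    rw [← Real.rpow_natCast, ← Real.rpow_mul hT0.le]; congr 1; push_cast; ring
  calc (X.card : ℝ) ≤ _ := hfib
    _ ≤ (256000 * (2 * g + 1) ^ 3 * c₂ ^ 2 * (c₃ * 2 ^ (ε / 4)) * (T ^ (ε / 4)) ^ 3) *
        (c₁ * (c₄ * (g.factorial : ℝ) ^ (ε / 4 / N) * 2 ^ (ε / 4) * T ^ (ε / 4) *
          (h2 K : ℝ) ^ kap b * q)) := by
      gcongr
      exact hrk.trans (by gcongr)
    _ = _ := by rw [hTε]; ring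

end Pool.Agent.Lib.MP_830c64_nt
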