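import Pool.Agent.Lib.MP_830c64_nt.Defs

namespace Pool.Agent.Lib.MP_830c64_nt

open Polynomial
open scoped Classical

variable {k : Type*} [Field k] {f : k[X]} {g : ℕ}

theorem nm_def (φ : CR f) : nm φ = φ.re ^ 2 - f * φ.im ^ 2 := by
  rw [nm, QuadraticAlgebra.norm_def]; ring

theorem nm_mul (φ ψ : CR f) : nm (φ * ψ) = nm φ * nm ψ := by
  exact map_mul QuadraticAlgebra.norm φ ψ

theorem nm_pow (φ : CR f) (j : ℕ) : nm (φ ^ j) = nm φ ^ j := by
  exact map_pow QuadraticAlgebra.norm φ j

theorem nm_star (φ : CR f) : nm (star φ) = nm φ := by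
  exact QuadraticAlgebra.norm_star φ

theorem star_re (φ : CR f) : (star φ).re = φ.re := by
  simp

theorem star_im (φ : CR f) : (star φ).im = -φ.im := by
  simp

theorem pol_re (u : k[X]) : (pol f u).re = u := by
  rfl

theorem pol_im (u : k[X]) : (pol f u).im = 0 := by
  rfl

theorem pol_mul_re (u : k[X]) (φ : CR f) : (pol f u * φ).re = u * φ.re := by
  rw [QuadraticAlgebra.re_mul, pol_re, pol_im]; ring

theorem pol_mul_im (u : k[X]) (φ : CR f) : (pol f u * φ).im = u * φ.im := by
  rw [QuadraticAlgebra.im_mul, pol_re, pol_im]; ring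

theorem star_pol (u : k[X]) : star (pol f u) = pol f u := by
  ext1
  · rw [star_re]
  · rw [star_im, pol_im, neg_zero]

theorem star_yy (c : k[X]) : star (yy f c) = -yy f (-c) := by
  ext1
  · rw [star_re]; simp [yy]
  · rw [star_im]; simp [yy]

theorem mul_yy_re (φ : CR f) (c : k[X]) : (φ * yy f c).re = φ.re * c + f * φ.im := by
  rw [QuadraticAlgebra.re_mul]; simp [yy]

theorem mul_yy_im (φ : CR f) (c : k[X]) : (φ * yy f c).im = φ.re + φ.im * c := by
  rw [QuadraticAlgebra.im_mul]; simp [yy]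

theorem nm_pol (u : k[X]) : nm (pol f u) = u ^ 2 := by
  rw [nm_def, pol_re, pol_im]; ring

theorem nm_yy (c : k[X]) : nm (yy f c) = c ^ 2 - f := by
  rw [nm_def]; simp [yy]

theorem mul_star_eq (φ : CR f) : φ * star φ = pol f (nm φ) := by
  exact (QuadraticAlgebra.algebraMap_norm_eq_mul_star φ).symm

theorem add_star_eq (φ : CR f) : φ + star φ = pol f (2 * φ.re) := by
  ext1
  · rw [QuadraticAlgebra.re_add, star_re, pol_re]; ring
  · rw [QuadraticAlgebra.im_add, star_im, pol_im]; ring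

theorem smul_eq_pol (c : k) (φ : CR f) : c • φ = pol f (C c) * φ := by
  ext1
  · rw [QuadraticAlgebra.re_smul, pol_mul_re, smul_eq_C_mul]
  · rw [QuadraticAlgebra.im_smul, pol_mul_im, smul_eq_C_mul]

theorem pol_ne_zero {u : k[X]} (hu : u ≠ 0) : pol f u ≠ 0 := by
  intro h
  exact hu (congrArg QuadraticAlgebra.re h)

theorem pol_cancel {u : k[X]} (hu : u ≠ 0) {φ ψ : CR f} (h : pol f u * φ = pol f u * ψ) :
    φ = ψ := by
  ext1
  · have := congrArg QuadraticAlgebra.re h
    rw [pol_mul_re, pol_mul_re] at this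
    exact mul_left_cancel₀ hu this
  · have := congrArg QuadraticAlgebra.im h
    rw [pol_mul_im, pol_mul_im] at this
    exact mul_left_cancel₀ hu this

theorem yy_ne_zero (c : k[X]) : yy f c ≠ 0 := by
  intro h
  exact one_ne_zero (congrArg QuadraticAlgebra.im h)

theorem inv_inv (P : Pt f) : P.inv.inv = P := by
  ext <;> simp [Pt.inv]

theorem inv_injective : Function.Injective (Pt.inv : Pt f → Pt f) := by
  exact Function.LeftInverse.injective inv_inv

theorem inv_eq_of_y (P : Pt f) (hy : P.y = 0) : P.inv = P := by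
  ext <;> simp [Pt.inv, hy]

theorem inv_ne [CharZero k] {P : Pt f} (hy : P.y ≠ 0) : P.inv ≠ P := by
  intro h
  have h1 : -P.y = P.y := congrArg Pt.y h
  apply hy
  linear_combination (-1 / 2 : k) * h1

theorem eq_or_eq_inv {P R : Pt f} (hx : R.x = P.x) : R = P ∨ R = P.inv := by
  have h : R.y ^ 2 = P.y ^ 2 := by rw [R.on, P.on, hx]
  rcases sq_eq_sq_iff_eq_or_eq_neg.1 h with h1 | h1
  · exact Or.inl (Pt.ext hx h1)
  · exact Or.inr (Pt.ext hx h1)

theorem map_inv_inv (D : Multiset (Pt f)) : (D.map Pt.inv).map Pt.inv = D := by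
  rw [Multiset.map_map]
  exact (Multiset.map_congr rfl fun P _ => inv_inv P).trans (Multiset.map_id' D)

theorem count_map_inv (D : Multiset (Pt f)) (P : Pt f) :
    (D.map Pt.inv).count P = D.count P.inv := by
  conv_lhs => rw [← inv_inv P]
  exact Multiset.count_map_eq_count' _ D inv_injective P.inv

theorem ev_def (P : Pt f) (φ : CR f) : ev P φ = φ.re.eval P.x + φ.im.eval P.x * P.y := by
  rfl

theorem ev_pol (P : Pt f) (u : k[X]) : ev P (pol f u) = u.eval P.x := by
  rw [ev_def, pol_re, pol_im]; simp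

theorem ev_yy (P : Pt f) (c : k[X]) : ev P (yy f c) = c.eval P.x + P.y := by
  rw [ev_def]; simp [yy]

theorem ev_inv_star (P : Pt f) (φ : CR f) : ev P.inv (star φ) = ev P φ := by
  rw [ev_def, ev_def, star_re, star_im]; simp [Pt.inv]

theorem ev_mul_inv (P : Pt f) (φ : CR f) : ev P φ * ev P.inv φ = (nm φ).eval P.x := by
  rw [ev_def, ev_def, nm_def]
  simp only [Pt.inv, eval_sub, eval_mul, eval_pow, ← P.on]
  ring

theorem nz_ne_zero (z : k) : nz z ≠ 0 := by
  unfold nz
  split_ifs with h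
  · exact one_ne_zero
  · exact h

theorem nz_of_ne {z : k} (hz : z ≠ 0) : nz z = z := by
  exact if_neg hz

theorem nz_zero : nz (0 : k) = 1 := by
  exact if_pos rfl

end Pool.Agent.Lib.MP_830c64_nt
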