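import Pool.Agent.Lib.MP_830c64_nt.CvBasic

namespace Pool.Agent.Lib.MP_830c64_nt

open Polynomial
open scoped Classical

variable {k : Type*} [Field k] {f : k[X]} {g : ℕ}

theorem cvbasic2_top (h : Crv f g) {φ : CR f} (hφ : φ ≠ 0) :
    (φ.re ≠ 0 ∧ wt φ = 2 * φ.re.natDegree ∧ (nm φ).leadingCoeff = φ.re.leadingCoeff ^ 2 ∧
      (φ.im = 0 ∨ 2 * φ.im.natDegree + (2 * g + 1) < wt φ)) ∨
    (φ.im ≠ 0 ∧ wt φ = 2 * φ.im.natDegree + (2 * g + 1) ∧
      (nm φ).leadingCoeff = -φ.im.leadingCoeff ^ 2 ∧ 2 * φ.re.natDegree < wt φ) := by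
  unfold wt
  rw [nm_def]
  by_cases hi : φ.im = 0
  · refine Or.inl ⟨fun hr => hφ (QuadraticAlgebra.ext hr hi), ?_, ?_, Or.inl hi⟩ <;> simp [hi]
  have hA : (φ.re ^ 2).natDegree = 2 * φ.re.natDegree := natDegree_pow _ _
  have hB : (f * φ.im ^ 2).natDegree = 2 * φ.im.natDegree + (2 * g + 1) := by
    rw [natDegree_mul h.monic.ne_zero (pow_ne_zero _ hi), natDegree_pow, h.deg, add_comm]
  rcases lt_or_gt_of_ne (show (φ.re ^ 2).natDegree ≠ (f * φ.im ^ 2).natDegree by omega) with hl | hl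
  · have e := natDegree_sub_eq_right_of_natDegree_lt hl
    refine Or.inr ⟨hi, by omega, ?_, by omega⟩
    rw [leadingCoeff_sub_of_degree_lt' (degree_lt_degree hl), leadingCoeff_mul, h.monic.leadingCoeff,
      one_mul, leadingCoeff_pow]
  · have e := natDegree_sub_eq_left_of_natDegree_lt hl
    refine Or.inl ⟨fun hr => ?_, by omega, ?_, Or.inr (by omega)⟩
    · have h0 : φ.re.natDegree = 0 := by rw [hr, natDegree_zero]
      omega
    · rw [leadingCoeff_sub_of_degree_lt (degree_lt_degree hl), leadingCoeff_pow]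

theorem cvbasic2_div {u : k[X]} {φ : CR f} (h1 : u ∣ φ.re) (h2 : u ∣ φ.im) :
    ∃ φ' : CR f, pol f u * φ' = φ := by
  obtain ⟨a, ha⟩ := h1
  obtain ⟨b, hb⟩ := h2
  exact ⟨⟨a, b⟩, QuadraticAlgebra.ext (by rw [pol_mul_re, ha]) (by rw [pol_mul_im, hb])⟩

/-- Degrees of `re ^ 2` and `f * im ^ 2` have different parity. -/
theorem nm_ne_zero (h : Crv f g) {φ : CR f} (hφ : φ ≠ 0) : nm φ ≠ 0 := by
  rw [← leadingCoeff_ne_zero]
  rcases cvbasic2_top h hφ with ⟨h1, -, h2, -⟩ | ⟨h1, -, h2, -⟩ <;> rw [h2] <;> simpa using h1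

theorem cr_mul_ne_zero (h : Crv f g) {φ ψ : CR f} (hφ : φ ≠ 0) (hψ : ψ ≠ 0) : φ * ψ ≠ 0 := by
  intro e
  have := nm_mul φ ψ
  rw [e, nm_def] at this
  exact mul_ne_zero (nm_ne_zero h hφ) (nm_ne_zero h hψ) (by simpa using this.symm)

theorem cr_pow_ne_zero (h : Crv f g) {φ : CR f} (hφ : φ ≠ 0) (j : ℕ) : φ ^ j ≠ 0 := by
  induction j with
  | zero =>
    rw [pow_zero, ← map_one (pol f)]
    exact pol_ne_zero one_ne_zero
  | succ j ih =>
    rw [pow_succ]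
    exact cr_mul_ne_zero h ih hφ

theorem cr_cancel (h : Crv f g) {χ φ ψ : CR f} (hχ : χ ≠ 0) (e : χ * φ = χ * ψ) : φ = ψ := by
  by_contra hne
  exact cr_mul_ne_zero h hχ (sub_ne_zero.2 hne) (by rw [mul_sub, e, sub_self])

theorem wt_mul (h : Crv f g) {φ ψ : CR f} (hφ : φ ≠ 0) (hψ : ψ ≠ 0) :
    wt (φ * ψ) = wt φ + wt ψ := by
  unfold wt
  rw [nm_mul, natDegree_mul (nm_ne_zero h hφ) (nm_ne_zero h hψ)]

theorem wt_re (h : Crv f g) (φ : CR f) : 2 * φ.re.natDegree ≤ wt φ := by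
  by_cases hφ : φ = 0
  · simp [hφ]
  rcases cvbasic2_top h hφ with ⟨-, h1, -, -⟩ | ⟨-, -, -, h1⟩ <;> omega

theorem wt_im (h : Crv f g) {φ : CR f} (hφ : φ.im ≠ 0) :
    2 * φ.im.natDegree + (2 * g + 1) ≤ wt φ := by
  have h0 : φ ≠ 0 := fun e => hφ (by simp [e])
  rcases cvbasic2_top h h0 with ⟨-, -, -, h1 | h1⟩ | ⟨-, h1, -, -⟩
  · exact absurd h1 hφ
  · omega
  · omega

theorem wt_im' (h : Crv f g) (φ : CR f) : 2 * φ.im.natDegree ≤ wt φ := by
  by_cases hφ : φ.im = 0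
  · simp [hφ]
  have := wt_im h hφ
  omega

theorem wt_le (h : Crv f g) {φ : CR f} {m : ℕ} (h1 : 2 * φ.re.natDegree ≤ m)
    (h2 : φ.im = 0 ∨ 2 * φ.im.natDegree + (2 * g + 1) ≤ m) : wt φ ≤ m := by
  by_cases hφ : φ = 0
  · simp [hφ, wt, nm_def]
  rcases cvbasic2_top h hφ with ⟨-, h3, -, -⟩ | ⟨h0, h3, -, -⟩
  · omega
  · have := h2.resolve_left h0
    omega

theorem wt_yy_C (h : Crv f g) (c : k) : wt (yy f (C c)) = 2 * g + 1 := by
  have h1 : (yy f (C c)).re.natDegree = 0 := natDegree_C c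
  have h2 : (yy f (C c)).im.natDegree = 0 := natDegree_one
  have h3 := wt_im h (φ := yy f (C c)) one_ne_zero
  have h4 := wt_le h (φ := yy f (C c)) (m := 2 * g + 1) (by omega) (Or.inr (by omega))
  omega

theorem wt_pol (u : k[X]) : wt (pol f u) = 2 * u.natDegree := by
  rw [wt, nm_pol, natDegree_pow]

/-- The top term of a nonzero function. -/
theorem top_term (h : Crv f g) {φ : CR f} (hφ : φ ≠ 0) :
    (φ.re ≠ 0 ∧ wt φ = 2 * φ.re.natDegree ∧ (nm φ).leadingCoeff = φ.re.leadingCoeff ^ 2 ∧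
      (φ.im = 0 ∨ 2 * φ.im.natDegree + (2 * g + 1) < wt φ)) ∨
    (φ.im ≠ 0 ∧ wt φ = 2 * φ.im.natDegree + (2 * g + 1) ∧
      (nm φ).leadingCoeff = -φ.im.leadingCoeff ^ 2 ∧ 2 * φ.re.natDegree < wt φ) := by
  exact cvbasic2_top h hφ

/-- Both components of `φ * (y + R.y)` vanish at `R.x` (use `R.on`), so `X - C R.x` divides them. -/
theorem exists_div {R : Pt f} {φ : CR f} (h : ev R φ = 0) :
    ∃ φ' : CR f, pol f (X - C R.x) * φ' = φ * yy f (C R.y) := by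
  rw [ev_def] at h
  refine cvbasic2_div (dvd_iff_isRoot.2 ?_) (dvd_iff_isRoot.2 ?_)
  · rw [IsRoot.def, mul_yy_re, eval_add, eval_mul, eval_mul, eval_C, ← R.on]
    linear_combination R.y * h
  · rw [IsRoot.def, mul_yy_im, eval_add, eval_mul, eval_C, h]

/-- If `φ` vanishes at `P` and at `P.inv`, and `P.y ≠ 0`, then `X - C P.x` divides `φ`. -/
theorem exists_div_pol [CharZero k] {P : Pt f} (hy : P.y ≠ 0) {φ : CR f} (h1 : ev P φ = 0)
    (h2 : ev P.inv φ = 0) : ∃ φ' : CR f, pol f (X - C P.x) * φ' = φ := by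
  rw [ev_def] at h1 h2
  change φ.re.eval P.x + φ.im.eval P.x * -P.y = 0 at h2
  refine cvbasic2_div (dvd_iff_isRoot.2 ?_) (dvd_iff_isRoot.2 ?_)
  · rw [IsRoot.def]
    linear_combination (h1 + h2) / 2
  · refine mul_right_cancel₀ hy ?_
    linear_combination (h1 - h2) / 2

/-- At a W-point: `(X - a) ^ 2 ∣ nm φ` gives `X - a ∣ re`, then `X - a ∣ im` since `a` is a simple
root of `f`. -/
theorem exists_div_W (h : Crv f g) {P : Pt f} (hy : P.y = 0) {φ : CR f}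
    (h2 : (X - C P.x) ^ 2 ∣ nm φ) : ∃ φ' : CR f, pol f (X - C P.x) * φ' = φ := by
  have hp := prime_X_sub_C P.x
  have hf : X - C P.x ∣ f := dvd_iff_isRoot.2 (by rw [IsRoot.def, ← P.on, hy]; simp)
  rw [nm_def] at h2
  have h1 : X - C P.x ∣ φ.re := hp.dvd_of_dvd_pow (n := 2) (by
    have := ((dvd_pow_self _ two_ne_zero).trans h2).add (hf.mul_right (φ.im ^ 2))
    rwa [sub_add_cancel] at this)
  have h3 : (X - C P.x) ^ 2 ∣ f * φ.im ^ 2 := by
    have := (pow_dvd_pow_of_dvd h1 2).sub h2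
    rwa [sub_sub_cancel] at this
  obtain ⟨f₁, hf₁⟩ := hf
  have h4 : X - C P.x ∣ f₁ * φ.im ^ 2 := by
    rw [show f * φ.im ^ 2 = (X - C P.x) * (f₁ * φ.im ^ 2) by rw [← mul_assoc, ← hf₁], pow_two] at h3
    exact (mul_dvd_mul_iff_left hp.ne_zero).1 h3
  refine cvbasic2_div h1 (hp.dvd_of_dvd_pow ((hp.dvd_or_dvd h4).resolve_left fun h5 => ?_))
  exact hp.not_isUnit (h.sep.squarefree _ ((mul_dvd_mul_left _ h5).trans hf₁.symm.dvd))

end Pool.Agent.Lib.MP_830c64_nt
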