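import Pool.Agent.Lib.MP_830c64_nt.CvLead

namespace Pool.Agent.Lib.MP_830c64_nt

open Polynomial
open scoped Classical

variable {k : Type*} [Field k] [CharZero k] [IsAlgClosed k] {f : k[X]} {g : ℕ}

theorem exists_pt (f : k[X]) (a : k) : ∃ P : Pt f, P.x = a := by
  obtain ⟨y, hy⟩ := IsAlgClosed.exists_pow_nat_eq (f.eval a) two_pos
  exact ⟨⟨a, y, hy⟩, rfl⟩

/-- `ord P φ ≠ 0` forces `P.x` to be a root of `nm φ`, and there are at most two points above each
root; build the multiset from a finitely supported function. -/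
theorem count_dv (h : Crv f g) {φ : CR f} (hφ : φ ≠ 0) (P : Pt f) :
    (dv φ).count P = ord P φ := by
  have hfin : {Q : Pt f | ord Q φ ≠ 0}.Finite := by
    refine ((nm φ).roots.toFinset.finite_toSet.biUnion
      (t := fun a => {Q : Pt f | Q.x = a}) fun a _ => ?_).subset fun Q hQ => ?_
    · obtain ⟨R, rfl⟩ := exists_pt f a
      exact (Set.toFinite {R, R.inv}).subset fun Q hQ => eq_or_eq_inv hQ
    · have h0 : ev Q φ = 0 := by_contra fun h1 => hQ ((ord_eq_zero_iff h Q hφ).2 h1)
      refine Set.mem_biUnion (x := Q.x) ?_ rfl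
      rw [Finset.mem_coe, Multiset.mem_toFinset, mem_roots (nm_ne_zero h hφ), IsRoot.def,
        ← ev_mul_inv, h0, zero_mul]
  have hex : ∃ D : Multiset (Pt f), ∀ P, D.count P = ord P φ :=
    ⟨Finsupp.toMultiset (Finsupp.ofSupportFinite (fun Q => ord Q φ) hfin), fun Q => by
      rw [Finsupp.count_toMultiset]; rfl⟩
  rw [dv, dif_pos hex]
  exact hex.choose_spec P

theorem mem_dv (h : Crv f g) {φ : CR f} (hφ : φ ≠ 0) (P : Pt f) : P ∈ dv φ ↔ ev P φ = 0 := by
  rw [← Multiset.count_ne_zero, count_dv h hφ, Ne, ord_eq_zero_iff h P hφ, not_not]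

theorem dv_mul (h : Crv f g) {φ ψ : CR f} (hφ : φ ≠ 0) (hψ : ψ ≠ 0) :
    dv (φ * ψ) = dv φ + dv ψ := by
  ext P
  rw [Multiset.count_add, count_dv h (cr_mul_ne_zero h hφ hψ), count_dv h hφ, count_dv h hψ,
    ord_mul h P hφ hψ]

theorem dv_pol_C (h : Crv f g) {c : k} (hc : c ≠ 0) : dv (pol f (C c)) = 0 := by
  refine Multiset.eq_zero_of_forall_notMem fun P hP => hc ?_
  rwa [mem_dv h (pol_ne_zero (C_ne_zero.2 hc)), ev_pol, eval_C] at hP

theorem dv_one (h : Crv f g) : dv (1 : CR f) = 0 := by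
  have := dv_pol_C h (one_ne_zero (α := k))
  rwa [C_1, map_one] at this

theorem dv_pow (h : Crv f g) {φ : CR f} (hφ : φ ≠ 0) (j : ℕ) : dv (φ ^ j) = j • dv φ := by
  induction j with
  | zero => rw [pow_zero, dv_one h, zero_smul]
  | succ j ih => rw [pow_succ, dv_mul h (cr_pow_ne_zero h hφ j) hφ, ih, succ_nsmul]

theorem count_map_x (D : Multiset (Pt f)) (P : Pt f) :
    (D.map Pt.x).count P.x = if P.y = 0 then D.count P else D.count P + D.count P.inv := by
  induction D using Multiset.induction_on with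
  | empty => simp
  | cons Q D ih =>
    rw [Multiset.map_cons, Multiset.count_cons, ih]
    simp only [Multiset.count_cons]
    by_cases hx : P.x = Q.x
    · rw [if_pos hx]
      by_cases hy : P.y = 0
      · have : P = Q := (eq_or_eq_inv hx.symm).elim Eq.symm fun e => by
          rw [e, inv_eq_of_y P hy]
        rw [if_pos hy, if_pos hy, if_pos this]
      · rw [if_neg hy, if_neg hy]
        rcases eq_or_eq_inv hx.symm with rfl | rfl
        · rw [if_pos rfl, if_neg (inv_ne hy)]
          omega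
        · rw [if_pos rfl, if_neg (inv_ne hy).symm]
          omega
    · have e1 : P ≠ Q := fun e => hx (e ▸ rfl)
      have e2 : P.inv ≠ Q := fun e => hx (e ▸ rfl)
      rw [if_neg hx, if_neg e1, if_neg e2]
      simp

theorem map_x_dv (h : Crv f g) {φ : CR f} (hφ : φ ≠ 0) : (dv φ).map Pt.x = (nm φ).roots := by
  ext a
  obtain ⟨P, rfl⟩ := exists_pt f a
  rw [count_map_x, count_roots, count_dv h hφ, count_dv h hφ]
  split_ifs with hy
  · exact ord_W hy φ
  · exact ord_add_inv h hy hφ

theorem card_dv (h : Crv f g) {φ : CR f} (hφ : φ ≠ 0) : (dv φ).card = wt φ := by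
  rw [← Multiset.card_map Pt.x, map_x_dv h hφ, wt, IsAlgClosed.card_roots_eq_natDegree]

theorem nm_eq_prod (h : Crv f g) {φ : CR f} (hφ : φ ≠ 0) :
    nm φ = C (nm φ).leadingCoeff * aD (dv φ) := by
  have := (IsAlgClosed.splits (nm φ)).eq_prod_roots
  rwa [← map_x_dv h hφ, Multiset.map_map] at this

theorem dv_star (h : Crv f g) {φ : CR f} (hφ : φ ≠ 0) :
    dv (star φ) = (dv φ).map Pt.inv := by
  have h0 : star φ ≠ 0 := star_ne_zero.2 hφ
  ext P
  rw [count_map_inv, count_dv h h0, count_dv h hφ, ← ord_star h P.inv hφ, inv_inv]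

theorem dv_lin (h : Crv f g) (P : Pt f) : dv (pol f (X - C P.x)) = P ::ₘ P.inv ::ₘ 0 := by
  have h0 : pol f (X - C P.x) ≠ 0 := pol_ne_zero (X_sub_C_ne_zero _)
  ext Q
  rw [count_dv h h0]
  simp only [Multiset.count_cons, Multiset.count_zero]
  by_cases hx : Q.x = P.x
  · by_cases hy : Q.y = 0
    · have e : Q = P ∧ Q = P.inv := by
        rcases eq_or_eq_inv hx with e | e
        · exact ⟨e, by rw [← e, inv_eq_of_y Q hy]⟩
        · exact ⟨by rw [← inv_inv P, ← e, inv_eq_of_y Q hy], e⟩
      rw [ord_W hy, nm_pol, hx, rootMultiplicity_X_sub_C_pow, if_pos e.1, if_pos e.2]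
    · rw [ord_pol h hy (X_sub_C_ne_zero _), hx, rootMultiplicity_X_sub_C_self]
      rcases eq_or_eq_inv hx with e | e
      · rw [if_pos e, if_neg (e ▸ (inv_ne hy).symm)]
      · rw [if_pos e, if_neg fun e' => inv_ne hy (by rw [e', ← e, e'])]
  · have e1 : Q ≠ P := fun e => hx (e ▸ rfl)
    have e2 : Q ≠ P.inv := fun e => hx (e ▸ rfl)
    rw [if_neg e1, if_neg e2, (ord_eq_zero_iff h Q h0).2 (by
      rw [ev_pol, eval_sub, eval_X, eval_C]; exact sub_ne_zero.2 hx)]

theorem aD_monic (D : Multiset (Pt f)) : (aD D).Monic := by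
  exact monic_multiset_prod_of_monic _ _ fun P _ => monic_X_sub_C _

theorem aD_add (D E : Multiset (Pt f)) : aD (D + E) = aD D * aD E := by
  rw [aD, Multiset.map_add, Multiset.prod_add, aD, aD]

theorem aD_natDegree (D : Multiset (Pt f)) : (aD D).natDegree = D.card := by
  have := natDegree_multiset_prod_X_sub_C_eq_card (D.map Pt.x)
  rwa [Multiset.map_map, Multiset.card_map] at this

theorem aD_roots (D : Multiset (Pt f)) : (aD D).roots = D.map Pt.x := by
  have := roots_multiset_prod_X_sub_C (D.map Pt.x)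
  rwa [Multiset.map_map] at this

theorem dv_aD (h : Crv f g) (D : Multiset (Pt f)) :
    dv (pol f (aD D)) = D + D.map Pt.inv := by
  induction D using Multiset.induction_on with
  | empty => rw [aD, Multiset.map_zero, Multiset.prod_zero, map_one, dv_one h]; simp
  | cons P D ih =>
    have e : aD (P ::ₘ D) = (X - C P.x) * aD D := by
      rw [aD, Multiset.map_cons, Multiset.prod_cons, aD]
    rw [e, map_mul, dv_mul h (pol_ne_zero (X_sub_C_ne_zero _))
      (pol_ne_zero (aD_monic D).ne_zero), dv_lin h, ih, Multiset.map_cons]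
    simp only [Multiset.cons_add, Multiset.add_cons, zero_add]
    exact Multiset.cons_swap _ _ _

end Pool.Agent.Lib.MP_830c64_nt
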