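import Pool.Agent.Lib.MP_830c64_nt.CvDiv

namespace Pool.Agent.Lib.MP_830c64_nt

open Polynomial
open scoped Classical

variable {k : Type*} [Field k] [CharZero k] [IsAlgClosed k] {f : k[X]} {g : ℕ}

/-- Induction on `D` with `exists_div_pol`, `exists_div_W`. -/
theorem aD_dvd_of_le (h : Crv f g) {φ : CR f} (hφ : φ ≠ 0) (D : Multiset (Pt f))
    (hD : D + D.map Pt.inv ≤ dv φ) : ∃ χ : CR f, pol f (aD D) * χ = φ := by
  induction D using Multiset.induction_on generalizing φ with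
  | empty => exact ⟨φ, by simp [aD]⟩
  | cons P D ih =>
    have e : P ::ₘ D + (P ::ₘ D).map Pt.inv = (P ::ₘ P.inv ::ₘ 0) + (D + D.map Pt.inv) := by
      simp only [Multiset.map_cons, Multiset.cons_add, Multiset.add_cons, zero_add]
      exact Multiset.cons_swap _ _ _
    rw [e] at hD
    have h2 : P ::ₘ P.inv ::ₘ 0 ≤ dv φ := (Multiset.le_add_right _ _).trans hD
    have h3 : ∃ φ' : CR f, pol f (X - C P.x) * φ' = φ := by
      by_cases hy : P.y = 0
      · refine exists_div_W h hy ((le_rootMultiplicity_iff (nm_ne_zero h hφ)).1 ?_)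
        have h4 := Multiset.count_le_of_le P h2
        rw [count_dv h hφ, ord_W hy, inv_eq_of_y P hy] at h4
        simpa using h4
      · exact exists_div_pol hy ((mem_dv h hφ _).1 (Multiset.mem_of_le h2 (by simp)))
          ((mem_dv h hφ _).1 (Multiset.mem_of_le h2 (by simp)))
    obtain ⟨φ', rfl⟩ := h3
    have h5 : φ' ≠ 0 := right_ne_zero_of_mul hφ
    rw [dv_mul h (pol_ne_zero (X_sub_C_ne_zero _)) h5, dv_lin h, add_le_add_iff_left] at hD
    obtain ⟨χ, rfl⟩ := ih h5 hD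
    exact ⟨χ, by rw [← mul_assoc, ← map_mul, aD, aD, Multiset.map_cons, Multiset.prod_cons]⟩

/-- If `dv φ = D + D.map inv + E` then `E` is the divisor of a function. -/
theorem exists_dv_of_add (h : Crv f g) {φ : CR f} (hφ : φ ≠ 0) {D E : Multiset (Pt f)}
    (hD : dv φ = D + D.map Pt.inv + E) :
    ∃ χ : CR f, χ ≠ 0 ∧ pol f (aD D) * χ = φ ∧ dv χ = E := by
  obtain ⟨χ, rfl⟩ := aD_dvd_of_le h hφ D (hD ▸ Multiset.le_add_right _ _)
  have h1 : χ ≠ 0 := right_ne_zero_of_mul hφ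
  rw [dv_mul h (pol_ne_zero (aD_monic D).ne_zero) h1, dv_aD h] at hD
  exact ⟨χ, h1, rfl, add_left_cancel hD⟩

theorem eq_C_of_dv_zero (h : Crv f g) {φ : CR f} (hφ : φ ≠ 0) (h0 : dv φ = 0) :
    ∃ c : k, c ≠ 0 ∧ φ = pol f (C c) := by
  have h1 : wt φ = 0 := by rw [← card_dv h hφ, h0, Multiset.card_zero]
  have h2 : φ.im = 0 := by
    by_contra h3
    have := wt_im h h3
    omega
  have h3 : φ.re.natDegree = 0 := by
    have := wt_re h φ
    omega
  have h4 : φ = pol f (C (φ.re.coeff 0)) := by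
    refine QuadraticAlgebra.ext ?_ ?_
    · rw [pol_re]
      exact eq_C_of_natDegree_eq_zero h3
    · rw [pol_im, h2]
  refine ⟨_, fun h5 => hφ ?_, h4⟩
  rw [h4, h5, map_zero, map_zero]

/-- Apply `exists_dv_of_add` to `φ * star ψ`. -/
theorem eq_mul_of_dv_eq (h : Crv f g) {φ ψ : CR f} (hφ : φ ≠ 0) (hψ : ψ ≠ 0) (e : dv φ = dv ψ) :
    ∃ c : k, c ≠ 0 ∧ φ = pol f (C c) * ψ := by
  have hs : star ψ ≠ 0 := star_ne_zero.2 hψ
  obtain ⟨χ, h1, h2, h3⟩ := exists_dv_of_add h (cr_mul_ne_zero h hφ hs) (D := dv ψ) (E := 0)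
    (by rw [dv_mul h hφ hs, dv_star h hψ, e, add_zero])
  obtain ⟨c, hc, rfl⟩ := eq_C_of_dv_zero h h1 h3
  have hl : (nm ψ).leadingCoeff ≠ 0 := leadingCoeff_ne_zero.2 (nm_ne_zero h hψ)
  refine ⟨c / (nm ψ).leadingCoeff, div_ne_zero hc hl, cr_cancel h hs ?_⟩
  have h4 : aD (dv ψ) * C c = C (c / (nm ψ).leadingCoeff) * nm ψ := by
    rw [congrArg (C (c / (nm ψ).leadingCoeff) * ·) (nm_eq_prod h hψ), ← mul_assoc, ← map_mul,
      div_mul_cancel₀ _ hl, mul_comm]
  rw [mul_comm, ← h2, ← map_mul, h4, map_mul, ← mul_star_eq]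
  ring

theorem lead_mul_inv (h : Crv f g) {P : Pt f} (hy : P.y ≠ 0) {φ : CR f} (hφ : φ ≠ 0) :
    lead P φ * lead P.inv φ =
      (nm φ).leadingCoeff * ((dv φ).map fun R => nz (P.x - R.x)).prod := by
  have hl : (nm φ).leadingCoeff ≠ 0 := leadingCoeff_ne_zero.2 (nm_ne_zero h hφ)
  have h1 := lead_pol_prod h hy hl ((dv φ).map Pt.x)
  rw [Multiset.map_map, Multiset.map_map] at h1
  rw [lead_mul_lead_inv h hy hφ, congrArg (fun u => lead P (pol f u)) (nm_eq_prod h hφ)]
  exact h1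

theorem count_dv_y (h : Crv f g) (P : Pt f) :
    (dv (yy f 0)).count P = if P.y = 0 then 1 else 0 := by
  rw [count_dv h (yy_ne_zero _)]
  split_ifs with hy
  · have h0 : f ≠ 0 := h.monic.ne_zero
    have h1 : (-f).Separable := by
      have := h.sep
      rw [separable_def] at this ⊢
      rw [derivative_neg]
      exact this.neg_neg
    have h2 : (-f).IsRoot P.x := by
      rw [IsRoot, eval_neg, ← P.on, hy]
      simp
    rw [ord_W hy, nm_yy, zero_pow two_ne_zero, zero_sub]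
    exact le_antisymm (rootMultiplicity_le_one_of_separable h1 _)
      ((rootMultiplicity_pos (neg_ne_zero.2 h0)).2 h2)
  · rw [ord_eq_zero_iff h P (yy_ne_zero _), ev_yy]
    simpa using hy

/-- An `inv`-invariant divisor with even multiplicity at the W-points; induction on the size. -/
theorem exists_half {G : Multiset (Pt f)} (h1 : G.map Pt.inv = G)
    (h2 : ∀ P : Pt f, P.y = 0 → Even (G.count P)) :
    ∃ G' : Multiset (Pt f), G = G' + G'.map Pt.inv := by
  induction hn : G.card using Nat.strong_induction_on generalizing G with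
  | _ n ih =>
    by_cases h0 : G = 0
    · exact ⟨0, by simp [h0]⟩
    obtain ⟨P, hP⟩ := Multiset.exists_mem_of_ne_zero h0
    have h3 : P.inv ∈ G.erase P := by
      by_cases hy : P.y = 0
      · rw [inv_eq_of_y P hy, ← Multiset.count_pos, Multiset.count_erase_self]
        obtain ⟨m, hm⟩ := h2 P hy
        have := Multiset.count_pos.2 hP
        omega
      · rw [Multiset.mem_erase_of_ne (inv_ne hy), ← h1]
        exact Multiset.mem_map_of_mem _ hP
    obtain ⟨G₁, h4⟩ := Multiset.exists_cons_of_mem h3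
    have h5 : G = P ::ₘ P.inv ::ₘ G₁ := by rw [← h4, Multiset.cons_erase hP]
    subst h5
    have h6 : G₁.map Pt.inv = G₁ := by
      rw [Multiset.map_cons, Multiset.map_cons, inv_inv, Multiset.cons_swap] at h1
      simpa using h1
    obtain ⟨G', h7⟩ := ih G₁.card (by rw [← hn]; simp) h6 (fun Q hQ => by
      have h8 := h2 Q hQ
      have h9 : Q = P.inv ↔ Q = P :=
        ⟨fun e => by rw [← inv_eq_of_y Q hQ, e, inv_inv], fun e => by
          rw [← e, inv_eq_of_y Q hQ]⟩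
      rw [Multiset.count_cons, Multiset.count_cons, if_congr h9 rfl rfl, add_assoc] at h8
      exact (Nat.even_add.1 h8).2 ⟨_, rfl⟩) rfl
    refine ⟨P ::ₘ G', ?_⟩
    rw [h7, Multiset.map_cons, Multiset.cons_add, Multiset.add_cons]

theorem rel_refl (h : Crv f g) (D : Multiset (Pt f)) : rel D D := by
  exact ⟨_, pol_ne_zero (aD_monic D).ne_zero, dv_aD h D⟩

theorem rel_symm (h : Crv f g) {D E : Multiset (Pt f)} (e : rel D E) : rel E D := by
  obtain ⟨χ, h1, h2⟩ := e
  exact ⟨star χ, star_ne_zero.2 h1, by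
    rw [dv_star h h1, h2, Multiset.map_add, map_inv_inv, add_comm]⟩

theorem rel_trans (h : Crv f g) {D E F : Multiset (Pt f)} (e : rel D E) (e' : rel E F) :
    rel D F := by
  obtain ⟨χ, h1, h2⟩ := e
  obtain ⟨χ', h1', h2'⟩ := e'
  obtain ⟨ψ, h3, -, h4⟩ := exists_dv_of_add h (cr_mul_ne_zero h h1 h1') (D := E)
    (E := D + F.map Pt.inv) (by rw [dv_mul h h1 h1', h2, h2']; abel)
  exact ⟨ψ, h3, h4⟩

theorem rel_add (h : Crv f g) {D E D' E' : Multiset (Pt f)} (e : rel D E) (e' : rel D' E') :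
    rel (D + D') (E + E') := by
  obtain ⟨χ, h1, h2⟩ := e
  obtain ⟨χ', h1', h2'⟩ := e'
  exact ⟨χ * χ', cr_mul_ne_zero h h1 h1', by
    rw [dv_mul h h1 h1', h2, h2', Multiset.map_add]; abel⟩

theorem rel_inv (h : Crv f g) {D E : Multiset (Pt f)} (e : rel D E) :
    rel (D.map Pt.inv) (E.map Pt.inv) := by
  obtain ⟨χ, h1, h2⟩ := e
  exact ⟨star χ, star_ne_zero.2 h1, by rw [dv_star h h1, h2, Multiset.map_add]⟩

theorem rel_dv_add (h : Crv f g) {φ : CR f} (hφ : φ ≠ 0) (D : Multiset (Pt f)) :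
    rel (dv φ + D) D := by
  have h1 : pol f (aD D) ≠ 0 := pol_ne_zero (aD_monic D).ne_zero
  exact ⟨φ * pol f (aD D), cr_mul_ne_zero h hφ h1, by rw [dv_mul h hφ h1, dv_aD h, add_assoc]⟩

end Pool.Agent.Lib.MP_830c64_nt
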