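import Pool.Agent.Lib.MP_830c64_nt.CvDiv2

namespace Pool.Agent.Lib.MP_830c64_nt

open Polynomial
open scoped Classical

variable {k : Type*} [Field k] [CharZero k] [IsAlgClosed k] {f : k[X]} {g : ℕ}

theorem act_x (τ : Aut f) (P : Pt f) : (Pt.act τ P).x = τ.1 P.x := rfl

theorem act_y (τ : Aut f) (P : Pt f) : (Pt.act τ P).y = τ.1 P.y := rfl

theorem act_inv (τ : Aut f) (P : Pt f) : Pt.act τ P.inv = (Pt.act τ P).inv :=
  Pt.ext rfl (map_neg τ.1 P.y)

theorem cvgal_eval (τ : Aut f) (u : k[X]) (a : k) :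
    (u.map (τ.1 : k →+* k)).eval (τ.1 a) = τ.1 (u.eval a) := by
  have h := eval₂_at_apply (p := u) (τ.1 : k →+* k) a
  rw [eval₂_eq_eval_map] at h
  exact h

theorem act_bijective (τ : Aut f) : Function.Bijective (Pt.act τ) := by
  refine ⟨fun P R e => Pt.ext (τ.1.injective (congrArg Pt.x e)) (τ.1.injective (congrArg Pt.y e)),
    fun P => ⟨⟨τ.1.symm P.x, τ.1.symm P.y, τ.1.injective ?_⟩,
      Pt.ext (τ.1.apply_symm_apply _) (τ.1.apply_symm_apply _)⟩⟩
  rw [← cvgal_eval, τ.2, map_pow, τ.1.apply_symm_apply, τ.1.apply_symm_apply, P.on]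

theorem count_map_act (τ : Aut f) (D : Multiset (Pt f)) (P : Pt f) :
    (D.map (Pt.act τ)).count (Pt.act τ P) = D.count P :=
  Multiset.count_map_eq_count' _ _ (act_bijective τ).1 _

theorem actCR_zero (τ : Aut f) : actCR τ (0 : CR f) = 0 := by
  ext1 <;> simp [actCR]

theorem actCR_ne_zero (τ : Aut f) {φ : CR f} (hφ : φ ≠ 0) : actCR τ φ ≠ 0 := by
  intro e
  have h1 : φ.re.map (τ.1 : k →+* k) = 0 := congrArg QuadraticAlgebra.re e
  have h2 : φ.im.map (τ.1 : k →+* k) = 0 := congrArg QuadraticAlgebra.im e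
  rw [Polynomial.map_eq_zero] at h1 h2
  exact hφ (QuadraticAlgebra.ext h1 h2)

theorem actCR_mul (τ : Aut f) (φ ψ : CR f) : actCR τ (φ * ψ) = actCR τ φ * actCR τ ψ := by
  ext1
  · simp only [actCR, QuadraticAlgebra.re_mul, Polynomial.map_add, Polynomial.map_mul, τ.2]
  · simp only [actCR, QuadraticAlgebra.im_mul, Polynomial.map_add, Polynomial.map_mul,
      Polynomial.map_zero]

theorem actCR_pol (τ : Aut f) (u : k[X]) :
    actCR τ (pol f u) = pol f (u.map (τ.1 : k →+* k)) := by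
  ext1
  · simp only [actCR, pol_re]
  · simp only [actCR, pol_im, Polynomial.map_zero]

theorem actCR_yy (τ : Aut f) (c : k[X]) :
    actCR τ (yy f c) = yy f (c.map (τ.1 : k →+* k)) := by
  ext1
  · simp only [actCR, yy]
  · simp only [actCR, yy, Polynomial.map_one]

theorem nm_actCR (τ : Aut f) (φ : CR f) : nm (actCR τ φ) = (nm φ).map (τ.1 : k →+* k) := by
  simp only [nm_def, actCR, Polynomial.map_sub, Polynomial.map_mul, Polynomial.map_pow, τ.2]

theorem wt_actCR (τ : Aut f) (φ : CR f) : wt (actCR τ φ) = wt φ := by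
  rw [wt, nm_actCR, natDegree_map, wt]

theorem ev_act (τ : Aut f) (P : Pt f) (φ : CR f) :
    ev (Pt.act τ P) (actCR τ φ) = τ.1 (ev P φ) := by
  simp only [ev_def, actCR, act_x, act_y, cvgal_eval, map_add, map_mul]

theorem cvgal_pow (τ : Aut f) (φ : CR f) (j : ℕ) : actCR τ (φ ^ j) = actCR τ φ ^ j := by
  induction j with
  | zero =>
    have := actCR_pol τ (1 : k[X])
    rwa [Polynomial.map_one, map_one] at this
  | succ j ih => rw [pow_succ, actCR_mul, ih, pow_succ]

theorem cvgal_isLead (τ : Aut f) {P : Pt f} {φ : CR f} {j : ℕ} {c : k} (h : IsLead P φ j c) :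
    IsLead (Pt.act τ P) (actCR τ φ) j (τ.1 c) := by
  obtain ⟨hc, ψ, h1, h2⟩ := h
  refine ⟨fun e => hc (τ.1.injective (e.trans (map_zero _).symm)), actCR τ ψ, ?_, ?_⟩
  · have := congrArg (actCR τ) h1
    rw [actCR_mul, actCR_mul, actCR_pol, cvgal_pow, actCR_yy, Polynomial.map_pow,
      Polynomial.map_sub, map_X, map_C, map_C] at this
    exact this
  · rw [ev_act, h2, map_mul, map_pow, map_mul, map_ofNat, act_y]

theorem ord_act (h : Crv f g) (τ : Aut f) (P : Pt f) {φ : CR f} (hφ : φ ≠ 0) :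
    ord (Pt.act τ P) (actCR τ φ) = ord P φ := by
  by_cases hy : P.y = 0
  · rw [ord_W hy, ord_W (by rw [act_y, hy, map_zero]), nm_actCR, act_x]
    exact (eq_rootMultiplicity_map (f := (τ.1 : k →+* k)) τ.1.injective P.x).symm
  · exact (ord_eq_of_isLead h (fun e => hy (τ.1.injective (e.trans (map_zero _).symm)))
      (cvgal_isLead τ (isLead_spec h hy hφ))).1

theorem lead_act (h : Crv f g) (τ : Aut f) {P : Pt f} (hy : P.y ≠ 0) {φ : CR f} (hφ : φ ≠ 0) :
    lead (Pt.act τ P) (actCR τ φ) = τ.1 (lead P φ) :=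
  (ord_eq_of_isLead h (fun e => hy (τ.1.injective (e.trans (map_zero _).symm)))
    (cvgal_isLead τ (isLead_spec h hy hφ))).2

theorem dv_act (h : Crv f g) (τ : Aut f) {φ : CR f} (hφ : φ ≠ 0) :
    dv (actCR τ φ) = (dv φ).map (Pt.act τ) := by
  ext R
  obtain ⟨P, rfl⟩ := (act_bijective τ).2 R
  rw [count_map_act, count_dv h (actCR_ne_zero τ hφ), count_dv h hφ, ord_act h τ P hφ]

theorem aD_act (τ : Aut f) (D : Multiset (Pt f)) :
    aD (D.map (Pt.act τ)) = (aD D).map (τ.1 : k →+* k) := by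
  rw [aD, aD, Polynomial.map_multiset_prod, Multiset.map_map, Multiset.map_map]
  refine congrArg _ (Multiset.map_congr rfl fun P _ => ?_)
  simp only [Function.comp, Polynomial.map_sub, map_X, map_C, act_x]
  rfl

theorem cvgal_iff {D : Multiset (Pt f)} :
    Stab D ↔ ∀ (τ : Aut f) (P : Pt f), D.count (Pt.act τ P) = D.count P := by
  refine ⟨fun h τ P => by rw [← count_map_act τ D P, h τ], fun h τ => ?_⟩
  ext R
  obtain ⟨P, rfl⟩ := (act_bijective τ).2 R
  rw [count_map_act, h]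

theorem Stab.add {D E : Multiset (Pt f)} (hD : Stab D) (hE : Stab E) : Stab (D + E) :=
  fun τ => by rw [Multiset.map_add, hD τ, hE τ]

theorem Stab.nsmul {D : Multiset (Pt f)} (hD : Stab D) (j : ℕ) : Stab (j • D) :=
  fun τ => by rw [Multiset.map_nsmul, hD τ]

theorem Stab.inv {D : Multiset (Pt f)} (hD : Stab D) : Stab (D.map Pt.inv) :=
  cvgal_iff.2 fun τ P => by
    rw [count_map_inv, count_map_inv, ← act_inv, cvgal_iff.1 hD]

theorem Stab.of_add {D E : Multiset (Pt f)} (hD : Stab D) (hE : Stab (D + E)) : Stab E :=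
  fun τ => by
    have := hE τ
    rw [Multiset.map_add, hD τ] at this
    exact add_left_cancel this

theorem Stab.of_two {E : Multiset (Pt f)} (hE : Stab (E + E)) : Stab E :=
  cvgal_iff.2 fun τ P => by
    have := cvgal_iff.1 hE τ P
    rw [Multiset.count_add, Multiset.count_add] at this
    omega

theorem Stab.inter {D E : Multiset (Pt f)} (hD : Stab D) (hE : Stab E) : Stab (D ∩ E) :=
  cvgal_iff.2 fun τ P => by
    rw [Multiset.count_inter, Multiset.count_inter, cvgal_iff.1 hD, cvgal_iff.1 hE]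

theorem Stab.filterW {D : Multiset (Pt f)} (hD : Stab D) :
    Stab (D.filter fun P => P.y ≠ 0) :=
  cvgal_iff.2 fun τ P => by
    rw [Multiset.count_filter, Multiset.count_filter, cvgal_iff.1 hD, act_y]
    simp only [ne_eq, EmbeddingLike.map_eq_zero_iff]

theorem stab_dv (h : Crv f g) {φ : CR f} (hφ : φ ≠ 0) (hf : ∀ τ : Aut f, actCR τ φ = φ) :
    Stab (dv φ) :=
  fun τ => by rw [← dv_act h τ hφ, hf]

/-- `actCR τ φ` has the same divisor as `φ`, so it is `c * φ` (`eq_mul_of_dv_eq`), and `c` cancels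
in the quotient. -/
theorem ratio_fixed (h : Crv f g) {D : Multiset (Pt f)} (hD : Stab D) (hW : ∀ P ∈ D, P.y ≠ 0)
    {φ : CR f} (hφ : φ ≠ 0) (hs : Stab (dv φ)) (τ : Aut f) :
    τ.1 (D.map fun P => lead P.inv φ / lead P φ).prod =
      (D.map fun P => lead P.inv φ / lead P φ).prod := by
  obtain ⟨c, hc, e⟩ := eq_mul_of_dv_eq h (actCR_ne_zero τ hφ) hφ ((dv_act h τ hφ).trans (hs τ))
  have key : ∀ P : Pt f, P.y ≠ 0 → τ.1 (lead P φ) = c * lead (Pt.act τ P) φ := fun P hy => by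
    have hy' : (Pt.act τ P).y ≠ 0 := fun e => hy (τ.1.injective (e.trans (map_zero _).symm))
    rw [← lead_act h τ hy hφ, e, lead_mul h hy' (pol_ne_zero (C_ne_zero.2 hc)) hφ,
      lead_pol_C h hy' hc]
  conv_rhs => rw [← hD τ]
  rw [map_multiset_prod, Multiset.map_map, Multiset.map_map]
  refine congrArg _ (Multiset.map_congr rfl fun P hP => ?_)
  simp only [Function.comp]
  rw [map_div₀, key P (hW P hP), key P.inv (neg_ne_zero.2 (hW P hP)), act_inv,
    mul_div_mul_left _ _ hc]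

end Pool.Agent.Lib.MP_830c64_nt
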