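import Pool.Agent.Lib.MP_830c64_nt.CvBasic2

namespace Pool.Agent.Lib.MP_830c64_nt

open Polynomial
open scoped Classical

variable {k : Type*} [Field k] [CharZero k] {f : k[X]} {g : ℕ}

theorem cvlead_ev_yy (P : Pt f) : ev P (yy f (C P.y)) = 2 * P.y := by
  rw [ev_yy, eval_C]; ring

/-- A representation with non vanishing quotient has the largest possible exponent. -/
theorem cvlead_le {P : Pt f} (hy : P.y ≠ 0) {φ ψ ψ' : CR f} {j j' : ℕ}
    (e : pol f ((X - C P.x) ^ j) * ψ = φ * yy f (C P.y) ^ j) (hv : ev P ψ ≠ 0)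
    (e' : pol f ((X - C P.x) ^ j') * ψ' = φ * yy f (C P.y) ^ j') : j' ≤ j := by
  by_contra hlt
  obtain ⟨d, rfl⟩ : ∃ d, j' = j + (d + 1) := ⟨j' - j - 1, by omega⟩
  have h1 : pol f ((X - C P.x) ^ j) * (pol f ((X - C P.x) ^ (d + 1)) * ψ') =
      pol f ((X - C P.x) ^ j) * (ψ * yy f (C P.y) ^ (d + 1)) := by
    rw [← mul_assoc, ← map_mul, ← pow_add, e', ← mul_assoc, e, pow_add (yy f (C P.y)) j,
      mul_assoc]
  have h2 := congrArg (ev P) (pol_cancel (pow_ne_zero _ (X_sub_C_ne_zero P.x)) h1)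
  rw [map_mul, map_mul, map_pow (ev P), ev_pol, cvlead_ev_yy] at h2
  have h3 : ((X - C P.x) ^ (d + 1)).eval P.x = 0 := by simp
  rw [h3, zero_mul] at h2
  exact mul_ne_zero hv (pow_ne_zero _ (mul_ne_zero two_ne_zero hy)) h2.symm

theorem cvlead_mk {P : Pt f} (hy : P.y ≠ 0) {φ ψ : CR f} {j : ℕ}
    (e : pol f ((X - C P.x) ^ j) * ψ = φ * yy f (C P.y) ^ j) (hv : ev P ψ ≠ 0) :
    IsLead P φ j (ev P ψ / (2 * P.y) ^ j) := by
  have hb : (2 * P.y) ^ j ≠ 0 := pow_ne_zero _ (mul_ne_zero two_ne_zero hy)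
  exact ⟨div_ne_zero hv hb, ψ, e, (div_mul_cancel₀ _ hb).symm⟩

theorem cvlead_succ {P : Pt f} {φ ψ : CR f} {j : ℕ}
    (e : pol f ((X - C P.x) ^ j) * ψ = φ * yy f (C P.y) ^ j) (hv : ev P ψ = 0) :
    ∃ ψ' : CR f, pol f ((X - C P.x) ^ (j + 1)) * ψ' = φ * yy f (C P.y) ^ (j + 1) := by
  obtain ⟨ψ', e'⟩ := exists_div hv
  refine ⟨ψ', ?_⟩
  rw [pow_succ, map_mul, mul_assoc, e', ← mul_assoc, e, pow_succ, mul_assoc]

/-- If `j < j'` cancel `(X - a) ^ j` and evaluate at `P`. -/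
theorem isLead_unique (h : Crv f g) {P : Pt f} (hy : P.y ≠ 0) {φ : CR f} {j j' : ℕ} {c c' : k}
    (h1 : IsLead P φ j c) (h2 : IsLead P φ j' c') : j = j' ∧ c = c' := by
  obtain ⟨hc, ψ, e, hv⟩ := h1
  obtain ⟨hc', ψ', e', hv'⟩ := h2
  have hb : (2 * P.y) ≠ 0 := mul_ne_zero two_ne_zero hy
  have hjj : j = j' := by
    apply le_antisymm
    · exact cvlead_le hy e' (by rw [hv']; exact mul_ne_zero hc' (pow_ne_zero _ hb)) e
    · exact cvlead_le hy e (by rw [hv]; exact mul_ne_zero hc (pow_ne_zero _ hb)) e'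
  subst hjj
  refine ⟨rfl, ?_⟩
  have hψ : ψ = ψ' := pol_cancel (pow_ne_zero _ (X_sub_C_ne_zero P.x)) (e.trans e'.symm)
  rw [hψ, hv'] at hv
  exact (mul_right_cancel₀ (pow_ne_zero _ hb) hv).symm

theorem cvlead_exists (h : Crv f g) {P : Pt f} (hy : P.y ≠ 0) {φ : CR f} (hφ : φ ≠ 0) :
    ∃ t : ℕ × k, IsLead P φ t.1 t.2 := by
  by_contra hne
  have hall : ∀ j : ℕ, ∃ ψ : CR f, pol f ((X - C P.x) ^ j) * ψ = φ * yy f (C P.y) ^ j := by
    intro j
    induction j with
    | zero => exact ⟨φ, by simp⟩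
    | succ j ih =>
      obtain ⟨ψ, e⟩ := ih
      by_cases hv : ev P ψ = 0
      · exact cvlead_succ e hv
      · exact absurd ⟨(j, _), cvlead_mk hy e hv⟩ hne
  have hn := nm_ne_zero h hφ
  obtain ⟨q, hq, hq'⟩ := exists_eq_pow_rootMultiplicity_mul_and_not_dvd (nm φ) hn P.x
  set m := (nm φ).rootMultiplicity P.x with hm
  have hqa : q.eval P.x ≠ 0 := fun h0 => hq' (dvd_iff_isRoot.2 h0)
  obtain ⟨ψ, e⟩ := hall (m + 1)
  have e1 : pol f ((X - C P.x) ^ m) * (pol f q * yy f (C P.y) ^ m) =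
      pol f (nm φ) * yy f (C P.y) ^ m := by
    rw [← mul_assoc, ← map_mul, ← hq]
  have e2 : pol f ((X - C P.x) ^ (m + 1)) * (ψ * star φ) =
      pol f (nm φ) * yy f (C P.y) ^ (m + 1) := by
    rw [← mul_assoc, e, ← mul_star_eq]; ring
  have hv : ev P (pol f q * yy f (C P.y) ^ m) ≠ 0 := by
    rw [map_mul, map_pow, ev_pol, cvlead_ev_yy]
    exact mul_ne_zero hqa (pow_ne_zero _ (mul_ne_zero two_ne_zero hy))
  have := cvlead_le hy e1 hv e2
  omega

/-- The `j` for which `(X - a) ^ j` divides `φ * (y + b) ^ j` are bounded by the multiplicity of `a`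
in `nm φ` (multiply by `star φ`, cancel, evaluate at `P`); take the largest one and use
`exists_div`. -/
theorem isLead_spec (h : Crv f g) {P : Pt f} (hy : P.y ≠ 0) {φ : CR f} (hφ : φ ≠ 0) :
    IsLead P φ (ord P φ) (lead P φ) := by
  have hex := cvlead_exists h hy hφ
  have h1 : ordLead P φ = hex.choose := by rw [ordLead, dif_pos hex]
  have h2 := hex.choose_spec
  rw [← h1] at h2
  rw [ord, if_neg hy, lead]
  exact h2

theorem ord_eq_of_isLead (h : Crv f g) {P : Pt f} (hy : P.y ≠ 0) {φ : CR f} {j : ℕ} {c : k}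
    (h1 : IsLead P φ j c) : ord P φ = j ∧ lead P φ = c := by
  have hφ : φ ≠ 0 := by
    rintro rfl
    obtain ⟨hc, ψ, e, hv⟩ := h1
    rw [zero_mul, ← mul_zero (pol f ((X - C P.x) ^ j))] at e
    have hψ := pol_cancel (pow_ne_zero _ (X_sub_C_ne_zero P.x)) e
    rw [hψ, map_zero] at hv
    exact mul_ne_zero hc (pow_ne_zero _ (mul_ne_zero two_ne_zero hy)) hv.symm
  exact isLead_unique h hy (isLead_spec h hy hφ) h1

theorem lead_ne_zero (P : Pt f) (φ : CR f) : lead P φ ≠ 0 := by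
  rw [lead, ordLead]
  split_ifs with hex
  · exact hex.choose_spec.1
  · exact one_ne_zero

theorem ord_W {P : Pt f} (hy : P.y = 0) (φ : CR f) :
    ord P φ = (nm φ).rootMultiplicity P.x := by
  rw [ord, if_pos hy]

theorem cvlead_mul {P : Pt f} {φ ψ : CR f} {j j' : ℕ} {c c' : k} (h1 : IsLead P φ j c)
    (h2 : IsLead P ψ j' c') : IsLead P (φ * ψ) (j + j') (c * c') := by
  obtain ⟨hc, χ, e, hv⟩ := h1
  obtain ⟨hc', χ', e', hv'⟩ := h2
  refine ⟨mul_ne_zero hc hc', χ * χ', ?_, ?_⟩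
  · rw [pow_add, map_mul, mul_mul_mul_comm, e, e', pow_add]; ring
  · rw [map_mul, hv, hv', pow_add]; ring

theorem ord_mul (h : Crv f g) (P : Pt f) {φ ψ : CR f} (hφ : φ ≠ 0) (hψ : ψ ≠ 0) :
    ord P (φ * ψ) = ord P φ + ord P ψ := by
  by_cases hy : P.y = 0
  · rw [ord_W hy, ord_W hy, ord_W hy, nm_mul,
      rootMultiplicity_mul (mul_ne_zero (nm_ne_zero h hφ) (nm_ne_zero h hψ))]
  · exact (ord_eq_of_isLead h hy
      (cvlead_mul (isLead_spec h hy hφ) (isLead_spec h hy hψ))).1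

theorem lead_mul (h : Crv f g) {P : Pt f} (hy : P.y ≠ 0) {φ ψ : CR f} (hφ : φ ≠ 0) (hψ : ψ ≠ 0) :
    lead P (φ * ψ) = lead P φ * lead P ψ := by
  exact (ord_eq_of_isLead h hy (cvlead_mul (isLead_spec h hy hφ) (isLead_spec h hy hψ))).2

theorem cvlead_zero {P : Pt f} {φ : CR f} (hφ : ev P φ ≠ 0) : IsLead P φ 0 (ev P φ) :=
  ⟨hφ, φ, by simp, by simp⟩

theorem ord_eq_zero_iff (h : Crv f g) (P : Pt f) {φ : CR f} (hφ : φ ≠ 0) :
    ord P φ = 0 ↔ ev P φ ≠ 0 := by
  by_cases hy : P.y = 0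
  · rw [ord_W hy, rootMultiplicity_eq_zero_iff]
    have hn := nm_ne_zero h hφ
    have he := ev_mul_inv P φ
    rw [inv_eq_of_y P hy] at he
    constructor
    · intro h1 h0
      exact hn (h1 (by rw [IsRoot.def, ← he, h0, zero_mul]))
    · intro h0 h1
      rw [IsRoot.def, ← he] at h1
      exact absurd h1 (mul_ne_zero h0 h0)
  · constructor
    · intro h0
      obtain ⟨hc, ψ, e, hv⟩ := isLead_spec h hy hφ
      rw [h0] at e hv
      simp only [pow_zero, map_one, one_mul, mul_one] at e hv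
      rw [← e, hv]
      exact hc
    · intro h0
      exact (ord_eq_of_isLead h hy (cvlead_zero h0)).1

theorem lead_eq_ev (h : Crv f g) {P : Pt f} (hy : P.y ≠ 0) {φ : CR f} (hφ : ev P φ ≠ 0) :
    lead P φ = ev P φ := by
  exact (ord_eq_of_isLead h hy (cvlead_zero hφ)).2

theorem cvlead_inv_y {P : Pt f} (hy : P.y ≠ 0) : P.inv.y ≠ 0 := neg_ne_zero.2 hy

theorem cvlead_star {P : Pt f} {φ : CR f} {j : ℕ} {c : k} (h1 : IsLead P φ j c) :
    IsLead P.inv (star φ) j c := by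
  obtain ⟨hc, ψ, e, hv⟩ := h1
  refine ⟨hc, (-1) ^ j * star ψ, ?_, ?_⟩
  · have e' := congrArg star e
    rw [star_mul', star_mul', star_pol, star_pow, star_yy, ← C_neg, neg_pow] at e'
    have hx : P.inv.x = P.x := rfl
    have hy' : P.inv.y = -P.y := rfl
    have h1 : ((-1 : CR f) ^ j) * (-1) ^ j = 1 := by rw [← mul_pow]; simp
    rw [hx, hy', mul_left_comm, e']
    calc (-1) ^ j * (star φ * ((-1) ^ j * yy f (C (-P.y)) ^ j))
        = ((-1) ^ j * (-1) ^ j) * (star φ * yy f (C (-P.y)) ^ j) := by ring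
      _ = star φ * yy f (C (-P.y)) ^ j := by rw [h1, one_mul]
  · have hy' : P.inv.y = -P.y := rfl
    rw [map_mul, map_pow, map_neg, map_one, ev_inv_star, hv, hy', mul_neg, neg_pow (2 * P.y)]
    ring

theorem ord_star (h : Crv f g) (P : Pt f) {φ : CR f} (hφ : φ ≠ 0) :
    ord P.inv (star φ) = ord P φ := by
  by_cases hy : P.y = 0
  · rw [inv_eq_of_y P hy, ord_W hy, ord_W hy, nm_star]
  · exact (ord_eq_of_isLead h (cvlead_inv_y hy) (cvlead_star (isLead_spec h hy hφ))).1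

theorem lead_star (h : Crv f g) {P : Pt f} (hy : P.y ≠ 0) {φ : CR f} (hφ : φ ≠ 0) :
    lead P.inv (star φ) = lead P φ := by
  exact (ord_eq_of_isLead h (cvlead_inv_y hy) (cvlead_star (isLead_spec h hy hφ))).2

theorem cvlead_pol (P : Pt f) {u q : k[X]} {m : ℕ} (hq : u = (X - C P.x) ^ m * q)
    (hqa : q.eval P.x ≠ 0) : IsLead P (pol f u) m (q.eval P.x) := by
  refine ⟨hqa, pol f q * yy f (C P.y) ^ m, ?_, ?_⟩
  · rw [← mul_assoc, ← map_mul, ← hq]
  · rw [map_mul, map_pow, ev_pol, cvlead_ev_yy]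

theorem ord_pol (h : Crv f g) {P : Pt f} (hy : P.y ≠ 0) {u : k[X]} (hu : u ≠ 0) :
    ord P (pol f u) = u.rootMultiplicity P.x := by
  obtain ⟨q, hq, hq'⟩ := exists_eq_pow_rootMultiplicity_mul_and_not_dvd u hu P.x
  have hqa : q.eval P.x ≠ 0 := fun h0 => hq' (dvd_iff_isRoot.2 h0)
  exact (ord_eq_of_isLead h hy (cvlead_pol P hq hqa)).1

theorem lead_pol_inv (h : Crv f g) {P : Pt f} (hy : P.y ≠ 0) {u : k[X]} (hu : u ≠ 0) :
    lead P.inv (pol f u) = lead P (pol f u) := by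
  have := lead_star h hy (pol_ne_zero (f := f) hu)
  rwa [star_pol] at this

theorem lead_pol_C (h : Crv f g) {P : Pt f} (hy : P.y ≠ 0) {c : k} (hc : c ≠ 0) :
    lead P (pol f (C c)) = c := by
  have h0 : ev P (pol f (C c)) = c := by rw [ev_pol, eval_C]
  rw [lead_eq_ev h hy (by rwa [h0]), h0]

theorem lead_pol_lin (h : Crv f g) {P : Pt f} (hy : P.y ≠ 0) (a : k) :
    lead P (pol f (X - C a)) = nz (P.x - a) := by
  by_cases ha : P.x - a = 0
  · have ha' : a = P.x := (sub_eq_zero.1 ha).symm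
    have h1 := cvlead_pol P (u := X - C a) (q := 1) (m := 1) (by rw [ha']; simp) (by simp)
    rw [(ord_eq_of_isLead h hy h1).2, ha, nz_zero, eval_one]
  · have h0 : ev P (pol f (X - C a)) = P.x - a := by rw [ev_pol]; simp
    rw [lead_eq_ev h hy (by rwa [h0]), h0, nz_of_ne ha]

theorem lead_pol_prod (h : Crv f g) {P : Pt f} (hy : P.y ≠ 0) {c : k} (hc : c ≠ 0)
    (s : Multiset k) : lead P (pol f (C c * (s.map fun a => X - C a).prod)) =
      c * (s.map fun a => nz (P.x - a)).prod := by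
  induction s using Multiset.induction_on with
  | empty => simpa using lead_pol_C h hy hc
  | cons a s ih =>
    have hne : C c * (s.map fun a => X - C a).prod ≠ 0 := by
      refine mul_ne_zero (C_ne_zero.2 hc) (Multiset.prod_ne_zero ?_)
      intro h0
      obtain ⟨b, -, hb⟩ := Multiset.mem_map.1 h0
      exact X_sub_C_ne_zero b hb
    rw [Multiset.map_cons, Multiset.prod_cons, Multiset.map_cons, Multiset.prod_cons,
      mul_left_comm, map_mul, lead_mul h hy (pol_ne_zero (X_sub_C_ne_zero a)) (pol_ne_zero hne),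
      ih, lead_pol_lin h hy]
    ring

theorem ord_add_inv (h : Crv f g) {P : Pt f} (hy : P.y ≠ 0) {φ : CR f} (hφ : φ ≠ 0) :
    ord P φ + ord P.inv φ = (nm φ).rootMultiplicity P.x := by
  have h1 := ord_star h P.inv hφ
  rw [inv_inv] at h1
  rw [← h1, ← ord_mul h P hφ (star_ne_zero.2 hφ), mul_star_eq, ord_pol h hy (nm_ne_zero h hφ)]

theorem lead_mul_lead_inv (h : Crv f g) {P : Pt f} (hy : P.y ≠ 0) {φ : CR f} (hφ : φ ≠ 0) :
    lead P φ * lead P.inv φ = lead P (pol f (nm φ)) := by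
  have h1 := lead_star h (cvlead_inv_y hy) hφ
  rw [inv_inv] at h1
  rw [← h1, ← lead_mul h hy hφ (star_ne_zero.2 hφ), mul_star_eq]

/-- Three cases; for `R = P.inv` use `(y - b) * (y + b) = f - C (f.eval a) = (X - a) * q` with
`q.eval a = f.derivative.eval a`. -/
theorem lead_yy (h : Crv f g) {P : Pt f} (hy : P.y ≠ 0) (R : Pt f) (hs : sl P R ≠ 0) :
    lead P (yy f (C R.y)) = sl P R * nz (P.x - R.x) ∧
      ord P (yy f (C R.y)) = if R = P.inv then 1 else 0 := by
  have hb : (2 * P.y) ≠ 0 := mul_ne_zero two_ne_zero hy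
  have h0 : ev P (yy f (C R.y)) = R.y + P.y := by rw [ev_yy, eval_C]
  by_cases hx : R.x = P.x
  · by_cases hRy : R.y = P.y
    · have hR : R = P := Pt.ext hx hRy
      subst hR
      have h1 : ev R (yy f (C R.y)) ≠ 0 := by rwa [cvlead_ev_yy]
      have h2 := ord_eq_of_isLead h hy (cvlead_zero h1)
      rw [h2.1, h2.2, cvlead_ev_yy, if_neg (inv_ne hy).symm, sl, if_pos rfl, if_pos rfl, sub_self,
        nz_zero, mul_one]
      exact ⟨rfl, rfl⟩
    · have hR : R = P.inv := by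
        rcases eq_or_eq_inv hx with h1 | h1
        · exact absurd (congrArg Pt.y h1) hRy
        · exact h1
      have hsl : sl P R = f.derivative.eval P.x / (2 * P.y) := by
        rw [sl, if_pos hx, if_neg hRy]
      obtain ⟨q, hq⟩ : X - C P.x ∣ f - C (f.eval P.x) := X_sub_C_dvd_sub_C_eval
      have hqa : q.eval P.x = f.derivative.eval P.x := by
        have := congrArg (fun p : k[X] => (derivative p).eval P.x) hq
        simp at this
        exact this.symm
      have hL : IsLead P (yy f (C R.y)) 1 (sl P R) := by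
        refine ⟨hs, pol f q, ?_, ?_⟩
        · have hy' : R.y = -P.y := by rw [hR]; rfl
          rw [pow_one, pow_one, ← map_mul, ← hq, hy', ← P.on]
          ext1
          · rw [pol_re, mul_yy_re]
            simp only [yy, C_neg, C_pow]
            ring
          · rw [pol_im, mul_yy_im]
            simp only [yy, C_neg]
            ring
        · rw [ev_pol, hqa, hsl, pow_one, div_mul_cancel₀ _ hb]
      have h2 := ord_eq_of_isLead h hy hL
      rw [h2.1, h2.2, if_pos hR, hx, sub_self, nz_zero, mul_one]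
      exact ⟨rfl, rfl⟩
  · have hx' : P.x - R.x ≠ 0 := sub_ne_zero.2 (Ne.symm hx)
    have hsl : sl P R = (P.y + R.y) / (P.x - R.x) := by rw [sl, if_neg hx]
    have h1 : ev P (yy f (C R.y)) ≠ 0 := by
      rw [h0]
      intro h3
      rw [hsl, add_comm, h3, zero_div] at hs
      exact hs rfl
    have h2 := ord_eq_of_isLead h hy (cvlead_zero h1)
    have hR : R ≠ P.inv := fun h3 => hx (by rw [h3]; rfl)
    rw [h2.1, h2.2, h0, if_neg hR, hsl, nz_of_ne hx', div_mul_cancel₀ _ hx', add_comm]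
    exact ⟨rfl, rfl⟩

theorem le_ord_iff (h : Crv f g) {P : Pt f} (hy : P.y ≠ 0) {φ : CR f} (hφ : φ ≠ 0) (j : ℕ) :
    j ≤ ord P φ ↔ ∃ ψ : CR f, pol f ((X - C P.x) ^ j) * ψ = φ * yy f (C P.y) ^ j := by
  constructor
  · intro hj
    induction j with
    | zero => exact ⟨φ, by simp⟩
    | succ j ih =>
      obtain ⟨ψ, e⟩ := ih (by omega)
      by_cases hv : ev P ψ = 0
      · exact cvlead_succ e hv
      · have := (ord_eq_of_isLead h hy (cvlead_mk hy e hv)).1
        omega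
  · rintro ⟨ψ', e'⟩
    obtain ⟨hc, ψ, e, hv⟩ := isLead_spec h hy hφ
    exact cvlead_le hy e
      (by rw [hv]; exact mul_ne_zero hc (pow_ne_zero _ (mul_ne_zero two_ne_zero hy))) e'

end Pool.Agent.Lib.MP_830c64_nt
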