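import Pool.Agent.Lib.MP_830c64_nt.CvGal

namespace Pool.Agent.Lib.MP_830c64_nt

open Polynomial
open scoped Classical

universe u

variable {k : Type u} [Field k] [CharZero k] [IsAlgClosed k] {f : k[X]} {g : ℕ}

/-- A nonzero stable subspace contains a nonzero fixed vector: take a nonzero vector with the least
number of nonzero coordinates, scale one coordinate to `1`; then `act τ w - w` has fewer. -/
theorem fixed_vector {E ι G : Type*} [AddCommGroup E] [Module k E] (co : ι → E →ₗ[k] k)
    (hsep : ∀ w : E, (∀ i, co i w = 0) → w = 0) (hfin : ∀ w : E, {i | co i w ≠ 0}.Finite)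
    (t : G → k →+* k) (act : G → E → E) (hact : ∀ τ i w, co i (act τ w) = t τ (co i w))
    (V : Submodule k E) (hV : ∀ τ, ∀ w ∈ V, act τ w ∈ V) (hne : V ≠ ⊥) :
    ∃ w ∈ V, w ≠ 0 ∧ ∀ τ, act τ w = w := by
  have hex : ∃ n : ℕ, ∃ w ∈ V, w ≠ 0 ∧ {i | co i w ≠ 0}.ncard = n := by
    obtain ⟨w, hw, h0⟩ := Submodule.exists_mem_ne_zero_of_ne_bot hne
    exact ⟨_, w, hw, h0, rfl⟩
  obtain ⟨w, hw, h0, hn⟩ := Nat.find_spec hex
  have hmin : ∀ u ∈ V, u ≠ 0 → Nat.find hex ≤ {i | co i u ≠ 0}.ncard := fun u hu hu0 =>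
    Nat.find_min' hex ⟨u, hu, hu0, rfl⟩
  obtain ⟨i0, hi0⟩ : ∃ i, co i w ≠ 0 := by
    by_contra hc
    exact h0 (hsep w fun i => by
      by_contra hi
      exact hc ⟨i, hi⟩)
  have h1 : co i0 ((co i0 w)⁻¹ • w) = 1 := by
    rw [map_smul, smul_eq_mul, inv_mul_cancel₀ hi0]
  refine ⟨(co i0 w)⁻¹ • w, V.smul_mem _ hw, ?_, fun τ => ?_⟩
  · intro hz
    rw [hz, map_zero] at h1
    exact zero_ne_one h1
  · by_contra hne'
    have hu0 : act τ ((co i0 w)⁻¹ • w) - (co i0 w)⁻¹ • w ≠ 0 := sub_ne_zero.2 hne'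
    have huV : act τ ((co i0 w)⁻¹ • w) - (co i0 w)⁻¹ • w ∈ V :=
      V.sub_mem (hV τ _ (V.smul_mem _ hw)) (V.smul_mem _ hw)
    have hle := hmin _ huV hu0
    have hss : {i | co i (act τ ((co i0 w)⁻¹ • w) - (co i0 w)⁻¹ • w) ≠ 0} ⊂
        {i | co i w ≠ 0} := by
      refine ⟨fun i hi => ?_, fun hsub => ?_⟩
      · intro hz
        apply hi
        have : co i ((co i0 w)⁻¹ • w) = 0 := by rw [map_smul, hz, smul_zero]
        rw [map_sub, hact, this, map_zero, sub_zero]
      · have := hsub (show i0 ∈ {i | co i w ≠ 0} from hi0)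
        apply this
        rw [map_sub, hact, h1, map_one, sub_self]
    have := Set.ncard_lt_ncard hss (hfin w)
    omega

theorem cvrr_dim {E : Type u} [AddCommGroup E] [Module k E] [FiniteDimensional k E]
    (W : Submodule k E) (l : E →ₗ[k] k) :
    Module.finrank k W ≤ Module.finrank k (W ⊓ LinearMap.ker l : Submodule k E) + 1 := by
  have h1 := LinearMap.finrank_range_add_finrank_ker (l.comp W.subtype)
  have h2 : Module.finrank k (LinearMap.range (l.comp W.subtype)) ≤ 1 := by
    have := Submodule.finrank_le (LinearMap.range (l.comp W.subtype))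
    rwa [Module.finrank_self] at this
  have h3 : Module.finrank k (W ⊓ LinearMap.ker l : Submodule k E) =
      Module.finrank k (LinearMap.ker (l.comp W.subtype)) := by
    rw [LinearMap.ker_comp, ← Submodule.map_comap_subtype, Submodule.finrank_map_subtype_eq]
  omega

theorem cvrr_taylor (a : k) (j : ℕ) (q : k[X]) :
    (taylor a ((X - C a) ^ j * q)).coeff j = q.eval a := by
  have h : taylor a ((X - C a) ^ j * q) = X ^ j * taylor a q := by
    rw [taylor_apply, taylor_apply, mul_comp, pow_comp, sub_comp, X_comp, C_comp,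
      add_sub_cancel_right]
  rw [h, ← taylor_coeff_zero]
  simpa using coeff_X_pow_mul (taylor a q) j 0

theorem cvrr_fun (P : Pt f) (j : ℕ) :
    ∃ l : CR f →ₗ[k] k, ∀ φ ψ : CR f,
      pol f ((X - C P.x) ^ j) * ψ = φ * yy f (C P.y) ^ j → l φ = ev P ψ := by
  refine ⟨⟨⟨fun φ => (taylor P.x (φ * yy f (C P.y) ^ j).re).coeff j +
    (taylor P.x (φ * yy f (C P.y) ^ j).im).coeff j * P.y, ?_⟩, ?_⟩, ?_⟩
  · intro φ ψ
    rw [add_mul, QuadraticAlgebra.re_add, QuadraticAlgebra.im_add, map_add, map_add, coeff_add,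
      coeff_add]
    ring
  · intro c φ
    simp only [RingHom.id_apply, smul_eq_mul]
    rw [smul_eq_pol, mul_assoc, pol_mul_re, pol_mul_im, ← smul_eq_C_mul, ← smul_eq_C_mul,
      map_smul, map_smul, coeff_smul, coeff_smul, smul_eq_mul, smul_eq_mul]
    ring
  · intro φ ψ e
    show (taylor P.x (φ * yy f (C P.y) ^ j).re).coeff j +
      (taylor P.x (φ * yy f (C P.y) ^ j).im).coeff j * P.y = ev P ψ
    rw [← e, pol_mul_re, pol_mul_im, cvrr_taylor, cvrr_taylor, ev_def]

theorem cvrr_step (h : Crv f g) {P : Pt f} (hy : P.y ≠ 0) {φ ψ : CR f} (hφ : φ ≠ 0) {j : ℕ}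
    (e : pol f ((X - C P.x) ^ j) * ψ = φ * yy f (C P.y) ^ j) :
    j + 1 ≤ ord P φ ↔ ev P ψ = 0 := by
  rw [le_ord_iff h hy hφ]
  constructor
  · rintro ⟨χ, e'⟩
    have hu : (X - C P.x) ^ j ≠ 0 := pow_ne_zero _ (X_sub_C_ne_zero _)
    have e2 : pol f (X - C P.x) * χ = ψ * yy f (C P.y) := by
      apply pol_cancel hu
      rw [← mul_assoc, ← map_mul, ← pow_succ, e', pow_succ, ← mul_assoc, ← e, mul_assoc]
    have e3 := congrArg (ev P) e2
    rw [map_mul, map_mul, ev_pol, ev_yy, eval_sub, eval_X, eval_C, eval_C, sub_self,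
      zero_mul] at e3
    rcases mul_eq_zero.1 e3.symm with h0 | h0
    · exact h0
    · exact absurd (add_self_eq_zero.1 h0) hy
  · intro h0
    obtain ⟨χ, e2⟩ := exists_div h0
    refine ⟨χ, ?_⟩
    rw [pow_succ, map_mul, mul_assoc, e2, ← mul_assoc, e, pow_succ, mul_assoc]

/-- Vanishing on a W-free divisor is at most `card D` linear conditions. Induction on `D`: with
`j = count P D'`, on the functions with `D' ≤ dv φ` the quotient `ψ` of `le_ord_iff` depends
linearly on `φ`, and `j + 1 ≤ ord P φ` iff `ev P ψ = 0`. -/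
theorem exists_vanishing (h : Crv f g) (D : Multiset (Pt f)) (hW : ∀ P ∈ D, P.y ≠ 0) :
    ∃ I : Submodule k (CR f), (∀ φ, φ ∈ I ↔ φ = 0 ∨ D ≤ dv φ) ∧
      ∀ (E : Type u) [AddCommGroup E] [Module k E] [FiniteDimensional k E] (T : E →ₗ[k] CR f),
        Module.finrank k E ≤ Module.finrank k (I.comap T) + D.card := by
  induction D using Multiset.induction_on with
  | empty =>
    refine ⟨⊤, fun φ => ⟨fun _ => Or.inr (Multiset.zero_le _), fun _ => Submodule.mem_top⟩, ?_⟩
    intro E _ _ _ T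
    rw [Submodule.comap_top, finrank_top]
    simp
  | cons P D ih =>
    have hy : P.y ≠ 0 := hW P (Multiset.mem_cons_self _ _)
    obtain ⟨I, hI, hd⟩ := ih fun R hR => hW R (Multiset.mem_cons_of_mem hR)
    obtain ⟨l, hl⟩ := cvrr_fun P (D.count P)
    refine ⟨I ⊓ LinearMap.ker l, fun φ => ?_, ?_⟩
    · by_cases hφ : φ = 0
      · subst hφ
        exact ⟨fun _ => Or.inl rfl, fun _ => Submodule.zero_mem _⟩
      rw [Submodule.mem_inf, hI, LinearMap.mem_ker]
      have key : D ≤ dv φ → (l φ = 0 ↔ D.count P + 1 ≤ ord P φ) := by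
        intro hD
        have hj : D.count P ≤ ord P φ := by
          rw [← count_dv h hφ]
          exact Multiset.count_le_of_le P hD
        obtain ⟨ψ, e⟩ := (le_ord_iff h hy hφ _).1 hj
        rw [hl φ ψ e, cvrr_step h hy hφ e]
      constructor
      · rintro ⟨hD | hD, h0⟩
        · exact absurd hD hφ
        · right
          have h1 := (key hD).1 h0
          rw [Multiset.le_iff_count] at hD ⊢
          intro R
          by_cases hR : R = P
          · subst hR
            rw [Multiset.count_cons_self, count_dv h hφ]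
            exact h1
          · rw [Multiset.count_cons_of_ne hR]
            exact hD R
      · rintro (hD | hD)
        · exact absurd hD hφ
        · have hD' : D ≤ dv φ := (Multiset.le_cons_self D P).trans hD
          refine ⟨Or.inr hD', (key hD').2 ?_⟩
          have := Multiset.count_le_of_le P hD
          rwa [Multiset.count_cons_self, count_dv h hφ] at this
    · intro E _ _ _ T
      have h1 := hd E T
      have h2 := cvrr_dim (I.comap T) (l.comp T)
      have h3 : (I ⊓ LinearMap.ker l).comap T = I.comap T ⊓ LinearMap.ker (l.comp T) := by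
        rw [Submodule.comap_inf, LinearMap.ker_comp]
      rw [h3, Multiset.card_cons]
      omega

end Pool.Agent.Lib.MP_830c64_nt
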