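import Pool.Agent.Lib.MP_830c64_nt.CvRR

namespace Pool.Agent.Lib.MP_830c64_nt

open Polynomial
open scoped Classical

variable {k : Type*} [Field k] [CharZero k] [IsAlgClosed k] {f : k[X]} {g : ℕ}

/-- The first component. -/
def cvrr2_re (f : k[X]) : CR f →ₗ[k] k[X] where
  toFun φ := φ.re
  map_add' _ _ := rfl
  map_smul' _ _ := rfl

/-- The second component. -/
def cvrr2_im (f : k[X]) : CR f →ₗ[k] k[X] where
  toFun φ := φ.im
  map_add' _ _ := rfl
  map_smul' _ _ := rfl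

/-- A function from its components. -/
def cvrr2_mk (f : k[X]) : k[X] × k[X] →ₗ[k] CR f where
  toFun x := ⟨x.1, x.2⟩
  map_add' _ _ := rfl
  map_smul' _ _ := rfl

/-- The coefficients of the components. -/
noncomputable def cvrr2_co (f : k[X]) : ℕ ⊕ ℕ → CR f →ₗ[k] k
  | .inl i => (lcoeff k i).comp (cvrr2_re f)
  | .inr i => (lcoeff k i).comp (cvrr2_im f)

theorem cvrr2_sep (w : CR f) (h : ∀ i, cvrr2_co f i w = 0) : w = 0 :=
  QuadraticAlgebra.ext (Polynomial.ext fun i => h (.inl i)) (Polynomial.ext fun i => h (.inr i))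

theorem cvrr2_fin (w : CR f) : {i | cvrr2_co f i w ≠ 0}.Finite := by
  refine (w.re.support.disjSum w.im.support).finite_toSet.subset ?_
  rintro (i | i) hi
  · exact Finset.mem_coe.2 (Finset.inl_mem_disjSum.2 (mem_support_iff.2 hi))
  · exact Finset.mem_coe.2 (Finset.inr_mem_disjSum.2 (mem_support_iff.2 hi))

theorem cvrr2_act (τ : Aut f) (i : ℕ ⊕ ℕ) (w : CR f) :
    cvrr2_co f i (actCR τ w) = (τ.1 : k →+* k) (cvrr2_co f i w) := by
  rcases i with i | i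
  · exact coeff_map _ i
  · exact coeff_map _ i

theorem cvrr2_finrank (n : ℕ) : Module.finrank k (degreeLT k n) = n := by
  rw [(degreeLTEquiv k n).finrank_eq, Module.finrank_fin_fun]

instance cvrr2_fd (n : ℕ) : FiniteDimensional k (degreeLT k n) :=
  (degreeLTEquiv k n).symm.finiteDimensional

theorem cvrr2_map (t : k →+* k) {n : ℕ} {u : k[X]} (hu : u ∈ degreeLT k n) :
    u.map t ∈ degreeLT k n :=
  mem_degreeLT.2 (degree_map_le.trans_lt (mem_degreeLT.1 hu))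

theorem cvrr2_deg {n : ℕ} {u : k[X]} (hu : u ∈ degreeLT k n) : u = 0 ∨ u.natDegree < n :=
  (eq_or_ne u 0).imp_right fun h => (natDegree_lt_iff_degree_lt h).2 (mem_degreeLT.1 hu)

theorem cvrr2_wt (h : Crv f g) {φ : CR f} {m : ℕ} (h1 : φ.re ∈ degreeLT k (m / 2 + 1))
    (h2 : φ.im ∈ degreeLT k ((m + 1 - 2 * g) / 2)) : wt φ ≤ m := by
  refine wt_le h ?_ ((cvrr2_deg h2).imp_right fun e => by omega)
  rcases cvrr2_deg h1 with e | e
  · simp [e]
  · omega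

theorem cvrr2_stab (h : Crv f g) {D : Multiset (Pt f)} {I : Submodule k (CR f)}
    (hI : ∀ φ, φ ∈ I ↔ φ = 0 ∨ D ≤ dv φ) {τ : Aut f} (hτ : D.map (Pt.act τ) = D) {φ : CR f}
    (hφ : φ ∈ I) : actCR τ φ ∈ I := by
  by_cases h0 : φ = 0
  · rw [h0, actCR_zero]; exact I.zero_mem
  · refine (hI _).2 (Or.inr ?_)
    rw [dv_act h τ h0, ← hτ]
    exact Multiset.map_le_map (((hI φ).1 hφ).resolve_left h0)

/-- Riemann's inequality with rationality. With `m = card D + g` the pairs `(A, B)` in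
`degreeLT k (m / 2 + 1) × degreeLT k ((m + 1 - 2 * g) / 2)` form a space of dimension
`> card D`; use `exists_vanishing`, then `fixed_vector` for the subspace of `CR f` with
coordinates `ℕ ⊕ ℕ`. -/
theorem rr (h : Crv f g) (𝒢 : Set (Aut f)) (D : Multiset (Pt f)) (hW : ∀ P ∈ D, P.y ≠ 0)
    (hD : ∀ τ ∈ 𝒢, D.map (Pt.act τ) = D) :
    ∃ φ : CR f, φ ≠ 0 ∧ D ≤ dv φ ∧ wt φ ≤ D.card + g ∧ ∀ τ ∈ 𝒢, actCR τ φ = φ := by
  obtain ⟨I, hI, hd⟩ := exists_vanishing h D hW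
  let V : Submodule k (CR f) := I ⊓ ((degreeLT k ((D.card + g) / 2 + 1)).comap (cvrr2_re f) ⊓
    (degreeLT k ((D.card + g + 1 - 2 * g) / 2)).comap (cvrr2_im f))
  have hne : V ≠ ⊥ := by
    let T : (degreeLT k ((D.card + g) / 2 + 1) × degreeLT k ((D.card + g + 1 - 2 * g) / 2)) →ₗ[k]
        CR f := (cvrr2_mk f).comp (LinearMap.prodMap (Submodule.subtype _) (Submodule.subtype _))
    have h1 := hd _ T
    rw [Module.finrank_prod, cvrr2_finrank, cvrr2_finrank] at h1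
    obtain ⟨e, he, h0⟩ := Submodule.exists_mem_ne_zero_of_ne_bot (p := I.comap T) fun hb => by
      rw [hb, finrank_bot] at h1
      omega
    refine (Submodule.ne_bot_iff _).2 ⟨T e, ⟨he, e.1.2, e.2.2⟩, fun h => h0 ?_⟩
    exact Prod.ext (Subtype.ext (congrArg QuadraticAlgebra.re h))
      (Subtype.ext (congrArg QuadraticAlgebra.im h))
  obtain ⟨φ, hφ, h0, hf⟩ := fixed_vector (G := 𝒢) (cvrr2_co f) cvrr2_sep cvrr2_fin
    (fun τ => (τ.1.1 : k →+* k)) (fun τ => actCR τ.1) (fun τ => cvrr2_act τ.1) V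
    (fun τ w hw => ⟨cvrr2_stab h hI (hD τ.1 τ.2) hw.1, cvrr2_map _ hw.2.1, cvrr2_map _ hw.2.2⟩) hne
  exact ⟨φ, h0, ((hI φ).1 hφ.1).resolve_left h0, cvrr2_wt h hφ.2.1 hφ.2.2, fun τ hτ => hf ⟨τ, hτ⟩⟩

theorem rr_add (h : Crv f g) (D : Multiset (Pt f)) (hW : ∀ P ∈ D, P.y ≠ 0) :
    ∃ (φ : CR f) (F : Multiset (Pt f)), φ ≠ 0 ∧ dv φ = D + F ∧ F.card ≤ g := by
  obtain ⟨φ, h0, h1, h2, -⟩ := rr h ∅ D hW (fun _ h => h.elim)
  obtain ⟨F, hF⟩ := Multiset.le_iff_exists_add.1 h1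
  refine ⟨φ, F, h0, hF, ?_⟩
  rw [← card_dv h h0, hF, Multiset.card_add] at h2
  omega

theorem rr_stab (h : Crv f g) (D : Multiset (Pt f)) (hW : ∀ P ∈ D, P.y ≠ 0) (hD : Stab D) :
    ∃ (φ : CR f) (F : Multiset (Pt f)), φ ≠ 0 ∧ dv φ = D + F ∧ F.card ≤ g ∧ Stab F := by
  obtain ⟨φ, h0, h1, h2, h3⟩ := rr h Set.univ D hW (fun τ _ => hD τ)
  obtain ⟨F, hF⟩ := Multiset.le_iff_exists_add.1 h1
  refine ⟨φ, F, h0, hF, ?_, hD.of_add (hF ▸ stab_dv h h0 fun τ => h3 τ trivial)⟩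
  rw [← card_dv h h0, hF, Multiset.card_add] at h2
  omega

/-- The approximation problem of the descent: triples `(A, B, u)` with `wt ≤ card D + 2 g`
(dimension `≥ card D + g + 1`) and `deg u ≤ g` (dimension `g + 1`); the conditions are `card D` and
`2 g + 1` (the remainder of `A - u * c` modulo `f`) in number. -/
theorem rr_pade (h : Crv f g) (D : Multiset (Pt f)) (hW : ∀ P ∈ D, P.y ≠ 0) (hD : Stab D)
    (c : k[X]) (hc : ∀ τ : Aut f, c.map (τ.1 : k →+* k) = c) :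
    ∃ (φ : CR f) (u : k[X]), (φ ≠ 0 ∨ u ≠ 0) ∧ (φ = 0 ∨ D ≤ dv φ) ∧ wt φ ≤ D.card + 2 * g ∧
      u.natDegree ≤ g ∧ f ∣ φ.re - u * c ∧ ∀ τ : Aut f, actCR τ φ = φ := by
  obtain ⟨I, hI, hd⟩ := exists_vanishing h D hW
  let L : CR f × k[X] →ₗ[k] AdjoinRoot f := (AdjoinRoot.mkₐ f).toLinearMap.comp
    ((cvrr2_re f).comp (LinearMap.fst _ _ _) - (LinearMap.mulRight k c).comp (LinearMap.snd _ _ _))
  have hL : ∀ w : CR f × k[X], w ∈ LinearMap.ker L ↔ f ∣ w.1.re - w.2 * c := fun w =>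
    AdjoinRoot.mk_eq_zero
  let V : Submodule k (CR f × k[X]) :=
    ((I ⊓ ((degreeLT k ((D.card + 2 * g) / 2 + 1)).comap (cvrr2_re f) ⊓
      (degreeLT k ((D.card + 2 * g + 1 - 2 * g) / 2)).comap (cvrr2_im f))).prod
      (degreeLT k (g + 1))) ⊓ LinearMap.ker L
  have hne : V ≠ ⊥ := by
    let S : ((degreeLT k ((D.card + 2 * g) / 2 + 1) ×
        degreeLT k ((D.card + 2 * g + 1 - 2 * g) / 2)) × degreeLT k (g + 1)) →ₗ[k] CR f × k[X] :=
      LinearMap.prodMap ((cvrr2_mk f).comp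
        (LinearMap.prodMap (Submodule.subtype _) (Submodule.subtype _))) (Submodule.subtype _)
    let T : LinearMap.ker (L.comp S) →ₗ[k] CR f :=
      (LinearMap.fst _ _ _).comp (S.comp (Submodule.subtype _))
    have h1 := hd (LinearMap.ker (L.comp S)) T
    have h2 := LinearMap.finrank_range_add_finrank_ker (L.comp S)
    have := h.monic.finite_adjoinRoot
    have h3 := Submodule.finrank_le (LinearMap.range (L.comp S))
    rw [(AdjoinRoot.powerBasis h.monic.ne_zero).finrank, AdjoinRoot.powerBasis_dim, h.deg] at h3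
    rw [Module.finrank_prod, Module.finrank_prod, cvrr2_finrank, cvrr2_finrank,
      cvrr2_finrank] at h2
    obtain ⟨e, he, h0⟩ := Submodule.exists_mem_ne_zero_of_ne_bot (p := I.comap T) fun hb => by
      rw [hb, finrank_bot] at h1
      omega
    refine (Submodule.ne_bot_iff _).2
      ⟨S e.1, ⟨⟨⟨he, e.1.1.1.2, e.1.1.2.2⟩, e.1.2.2⟩, e.2⟩, fun h => h0 (Subtype.ext ?_)⟩
    exact Prod.ext (Prod.ext (Subtype.ext (congrArg (fun w => w.1.re) h))
      (Subtype.ext (congrArg (fun w => w.1.im) h))) (Subtype.ext (congrArg Prod.snd h))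
  obtain ⟨w, hw, h0, hf⟩ := fixed_vector (G := Aut f) (E := CR f × k[X]) (ι := (ℕ ⊕ ℕ) ⊕ ℕ)
    (Sum.elim (fun i => (cvrr2_co f i).comp (LinearMap.fst _ _ _))
      (fun i => (lcoeff k i).comp (LinearMap.snd _ _ _)))
    (fun w hw => Prod.ext (cvrr2_sep _ fun i => hw (.inl i)) (Polynomial.ext fun i => hw (.inr i)))
    (fun w => ((cvrr2_fin w.1).toFinset.disjSum w.2.support).finite_toSet.subset (by
      rintro (i | i) hi
      · exact Finset.mem_coe.2 (Finset.inl_mem_disjSum.2 ((cvrr2_fin w.1).mem_toFinset.2 hi))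
      · exact Finset.mem_coe.2 (Finset.inr_mem_disjSum.2 (mem_support_iff.2 hi))))
    (fun τ => (τ.1 : k →+* k)) (fun τ w => (actCR τ w.1, w.2.map (τ.1 : k →+* k)))
    (by
      rintro τ (i | i) w
      · exact cvrr2_act τ i w.1
      · exact coeff_map _ i) V
    (fun τ w hw => ⟨⟨⟨cvrr2_stab h hI (hD τ) hw.1.1.1, cvrr2_map _ hw.1.1.2.1,
      cvrr2_map _ hw.1.1.2.2⟩, cvrr2_map _ hw.1.2⟩, (hL _).2 (by
        have := Polynomial.map_dvd (τ.1 : k →+* k) ((hL w).1 hw.2)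
        rwa [τ.2, Polynomial.map_sub, Polynomial.map_mul, hc τ] at this)⟩) hne
  refine ⟨w.1, w.2, ?_, (hI _).1 hw.1.1.1, cvrr2_wt h hw.1.1.2.1 hw.1.1.2.2, ?_, (hL w).1 hw.2,
    fun τ => congrArg Prod.fst (hf τ)⟩
  · by_contra! hn
    exact h0 (Prod.ext hn.1 hn.2)
  · rcases cvrr2_deg hw.1.2 with e | e
    · simp [e]
    · omega

end Pool.Agent.Lib.MP_830c64_nt
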