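import Pool.Agent.Lib.MP_830c64_nt.CvDiv2

namespace Pool.Agent.Lib.MP_830c64_nt

open Polynomial
open scoped Classical

variable {k : Type*} [Field k] [CharZero k] [IsAlgClosed k] {f : k[X]} {g : ℕ}
  {v : AbsoluteValue k ℝ} {κ : ℝ}

theorem one_le_Hh (P R : Pt f) : 1 ≤ Hh v P R := by
  exact le_max_left _ _

theorem one_le_ww (P R : Pt f) : 1 ≤ ww v P R := by
  exact Real.one_le_sqrt.2 (one_le_pow₀ (one_le_Hh P R))

theorem Hh_inv_left (P R : Pt f) : Hh v P.inv R = Hh v P R := by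
  rfl

theorem ww_inv_left (P R : Pt f) : ww v P.inv R = ww v P R := by
  rfl

theorem ww_sq (h : Crv f g) (P R : Pt f) : ww v P R ^ 2 * Hh v P R = Hh v P R ^ (2 * g) := by
  have h0 : 0 ≤ Hh v P R := zero_le_one.trans (one_le_Hh P R)
  have h1 := h.pos
  rw [ww, Real.sq_sqrt (pow_nonneg h0 _), ← pow_succ, h.deg]
  congr 1
  omega

theorem ww_mul_Hh (h : Crv f g) (P R : Pt f) :
    ww v P R * Hh v P R = √(Hh v P R ^ (2 * g + 1)) := by
  have h0 : 0 ≤ Hh v P R := zero_le_one.trans (one_le_Hh P R)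
  have h1 := h.pos
  have e : 2 * g + 1 = f.natDegree - 2 + 2 := by rw [h.deg]; omega
  rw [e, pow_add, Real.sqrt_mul (pow_nonneg h0 _), Real.sqrt_sq h0, ww]

theorem mu_pos {P : Pt f} (hy : P.y ≠ 0) (R : Pt f) : 0 < mu v P R := by
  unfold mu
  split_ifs with h
  · rw [h, sl, if_pos rfl, if_pos rfl]
    exact v.pos (mul_ne_zero two_ne_zero hy)
  · exact lt_of_lt_of_le (zero_lt_one.trans_le (one_le_ww P R)) (le_max_left _ _)

theorem cvrem_sl_inv (P R : Pt f) : sl P.inv R = -sl P R.inv := by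
  unfold sl Pt.inv
  dsimp only
  by_cases h1 : R.x = P.x
  · rw [if_pos h1, if_pos h1]
    by_cases h2 : R.y = -P.y
    · rw [if_pos h2, if_pos (by rw [h2, neg_neg]), mul_neg]
    · rw [if_neg h2, if_neg fun e => h2 (by rw [← e, neg_neg]), mul_neg, div_neg]
  · rw [if_neg h1, if_neg h1, ← neg_div]
    congr 1
    ring

theorem cvrem_mu_symm (P R : Pt f) : mu v P R = mu v R P := by
  by_cases h : R = P
  · rw [h]
  · have e1 : ww v P R = ww v R P := by unfold ww Hh; rw [max_comm (v P.x)]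
    have e2 : sl P R = -sl R P := by
      unfold sl
      by_cases h1 : R.x = P.x
      · have h2 := (eq_or_eq_inv h1).resolve_left h
        have h3 : R.y = -P.y := by rw [h2]; rfl
        have h4 : R.y ≠ P.y := fun e => h (Pt.ext h1 e)
        rw [if_pos h1, if_pos h1.symm, if_neg h4, if_neg h4.symm, h1, h3, mul_neg, div_neg, neg_neg]
      · rw [if_neg h1, if_neg fun e => h1 e.symm, ← div_neg, neg_sub, add_comm]
    unfold mu
    rw [if_neg h, if_neg fun e => h e.symm, e1, e2, v.map_neg]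

theorem mu_inv {P : Pt f} (hy : P.y ≠ 0) (R : Pt f) : mu v P.inv R = mu v P R.inv := by
  unfold mu
  rw [cvrem_sl_inv, v.map_neg]
  by_cases h : R = P.inv
  · rw [if_pos h, if_pos (by rw [h, inv_inv])]
  · rw [if_neg h, if_neg fun e => h (by rw [← e, inv_inv])]
    rfl

theorem sn_inv_left (P R : Pt f) : sn v P.inv R = -sn v P R := by
  rw [sn, sn, inv_inv, neg_sub]

theorem sn_inv_right {P : Pt f} (hy : P.y ≠ 0) (R : Pt f) : sn v P R.inv = -sn v P R := by
  rw [sn, sn, mu_inv hy, mu_inv hy, inv_inv, neg_sub]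

theorem sn_W {P R : Pt f} (hy : P.y ≠ 0) (hR : R.y = 0) : sn v P R = 0 := by
  rw [sn, mu_inv hy, inv_eq_of_y R hR, sub_self]

theorem sn_symm {P R : Pt f} (hy : P.y ≠ 0) (hR : R.y ≠ 0) : sn v P R = sn v R P := by
  rw [sn, sn, mu_inv hy, cvrem_mu_symm P R, cvrem_mu_symm P R.inv]

/-- One removal step: take `ord`, `lead`, `dv`, `wt` of both sides of `e`. -/
theorem rem_step (h : Crv f g) {P : Pt f} (hy : P.y ≠ 0) {φ φ' : CR f} (hφ : φ ≠ 0) {R : Pt f}
    (hR : R ∈ dv φ) (hs : sl P R ≠ 0) (e : pol f (X - C R.x) * φ' = φ * yy f (C R.y)) :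
    φ' ≠ 0 ∧ lead P φ' = lead P φ * sl P R ∧
      ord P φ' + (if R = P then 1 else 0) = ord P φ ∧ (dv φ).erase R ≤ dv φ' ∧
      wt φ' ≤ wt φ + (2 * g + 1) := by
  have hy0 : yy f (C R.y) ≠ 0 := yy_ne_zero _
  have hp0 : pol f (X - C R.x) ≠ 0 := pol_ne_zero (X_sub_C_ne_zero _)
  have h0 : φ' ≠ 0 := fun e0 => cr_mul_ne_zero h hφ hy0 (by rw [← e, e0, mul_zero])
  obtain ⟨l1, l2⟩ := lead_yy h hy R hs
  refine ⟨h0, ?_, ?_, ?_, ?_⟩
  · have e1 := congrArg (lead P) e
    rw [lead_mul h hy hp0 h0, lead_mul h hy hφ hy0, lead_pol_lin h hy, l1] at e1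
    apply mul_left_cancel₀ (nz_ne_zero (P.x - R.x))
    rw [e1]
    ring
  · have e1 := congrArg (ord P) e
    rw [ord_mul h P hp0 h0, ord_mul h P hφ hy0, ord_pol h hy (X_sub_C_ne_zero _), l2,
      rootMultiplicity_X_sub_C] at e1
    by_cases h1 : R = P
    · rw [if_pos (by rw [h1]), if_neg fun e2 => inv_ne hy (e2.symm.trans h1)] at e1
      rw [if_pos h1]
      omega
    · rw [if_neg h1]
      by_cases h2 : R = P.inv
      · rw [if_pos (by rw [h2]; rfl), if_pos h2] at e1
        omega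
      · rw [if_neg fun e2 => (eq_or_eq_inv e2.symm).elim h1 h2, if_neg h2] at e1
        omega
  · have e1 := congrArg dv e
    rw [dv_mul h hp0 h0, dv_mul h hφ hy0, dv_lin h] at e1
    have h1 : R.inv ∈ dv (yy f (C R.y)) := (mem_dv h hy0 _).2 (by
      rw [ev_yy, eval_C]
      exact add_neg_cancel _)
    obtain ⟨E, hE⟩ := Multiset.exists_cons_of_mem h1
    rw [hE, ← Multiset.cons_erase hR, Multiset.cons_add, Multiset.cons_add, Multiset.cons_add,
      Multiset.cons_inj_right, Multiset.add_cons, Multiset.cons_inj_right, zero_add] at e1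
    rw [e1]
    exact Multiset.le_add_right _ _
  · have e1 := congrArg wt e
    rw [wt_mul h hp0 h0, wt_mul h hφ hy0, wt_yy_C h] at e1
    omega

/-- Removal lemma. Induction on `S` generalizing `φ`. For `S = R ::ₘ S'`: if `R ≠ P` and
`v (sl P R) ≤ ww v P R` skip `R` (its factor is `c' ≥ 1`); otherwise `mu v P R = v (sl P R) > 0`,
use `exists_div`, `rem_step` and the induction hypothesis for `φ'`. -/
theorem removal (h : Crv f g) {P : Pt f} (hy : P.y ≠ 0) (ν : CR f → ℝ) (hν : ∀ ψ, 0 ≤ ν ψ)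
    {c c' : ℝ} (hc : 0 ≤ c) (hc' : 1 ≤ c') (M : ℕ) (S : Multiset (Pt f))
    (hev : ∀ ψ : CR f, wt ψ ≤ M → v (ev P ψ) ≤ c * ν ψ)
    (hrm : ∀ R ∈ S, ∀ ψ ψ' : CR f, ψ ≠ 0 → wt ψ ≤ M →
      pol f (X - C R.x) * ψ' = ψ * yy f (C R.y) → ν ψ' ≤ c' * ww v P R * ν ψ)
    {φ : CR f} (hφ : φ ≠ 0) (hS : S ≤ dv φ) (hP : S.count P = ord P φ)
    (hM : wt φ + (2 * g + 1) * S.card ≤ M) :
    v (lead P φ) ≤ c * ν φ * (S.map fun R => c' * ww v P R / mu v P R).prod := by
  induction S using Multiset.induction_on generalizing φ with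
  | empty =>
    rw [Multiset.count_zero] at hP
    rw [Multiset.map_zero, Multiset.prod_zero, mul_one,
      lead_eq_ev h hy ((ord_eq_zero_iff h P hφ).1 hP.symm)]
    exact hev φ (le_trans (Nat.le_add_right _ _) hM)
  | cons R S ih =>
    have hw : ∀ Q, 0 < ww v P Q := fun Q => zero_lt_one.trans_le (one_le_ww P Q)
    have h0 : 0 ≤ (S.map fun R => c' * ww v P R / mu v P R).prod :=
      Multiset.prod_nonneg fun a ha => by
        obtain ⟨Q, -, rfl⟩ := Multiset.mem_map.1 ha
        exact div_nonneg (mul_nonneg (zero_le_one.trans hc') (hw Q).le) (mu_pos hy Q).le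
    have ih' := @ih fun Q hQ => hrm Q (Multiset.mem_cons_of_mem hQ)
    rw [Multiset.card_cons, mul_add, mul_one] at hM
    rw [Multiset.map_cons, Multiset.prod_cons]
    by_cases hA : R ≠ P ∧ v (sl P R) ≤ ww v P R
    · have e1 : mu v P R = ww v P R := by rw [mu, if_neg hA.1, max_eq_left hA.2]
      rw [Multiset.count_cons_of_ne hA.1.symm] at hP
      rw [e1, mul_div_assoc, div_self (hw R).ne', mul_one]
      refine (ih' hφ ((Multiset.le_cons_self _ _).trans hS) hP (by omega)).trans ?_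
      exact mul_le_mul_of_nonneg_left (le_mul_of_one_le_left h0 hc') (mul_nonneg hc (hν φ))
    · have e1 : mu v P R = v (sl P R) := by
        unfold mu
        split_ifs with h1
        · rfl
        · exact max_eq_right (le_of_not_ge fun h2 => hA ⟨h1, h2⟩)
      have h1 := mu_pos (v := v) hy R
      have hs : sl P R ≠ 0 := fun e => by
        rw [e1, e, v.map_zero] at h1
        exact lt_irrefl _ h1
      have hR : R ∈ dv φ := Multiset.mem_of_le hS (Multiset.mem_cons_self _ _)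
      obtain ⟨φ', e⟩ := exists_div ((mem_dv h hφ R).1 hR)
      obtain ⟨r1, r2, r3, r4, r5⟩ := rem_step h hy hφ hR hs e
      have h2 : S ≤ dv φ' := by
        refine le_trans ?_ r4
        have := Multiset.erase_le_erase R hS
        rwa [Multiset.erase_cons_head] at this
      have h3 : S.count P = ord P φ' := by
        by_cases h4 : R = P
        · rw [if_pos h4] at r3
          rw [h4, Multiset.count_cons_self] at hP
          omega
        · rw [if_neg h4] at r3
          rw [Multiset.count_cons_of_ne fun e => h4 e.symm] at hP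
          omega
      have h4 := ih' r1 h2 h3 (by omega)
      have h5 := hrm R (Multiset.mem_cons_self _ _) φ φ' hφ (by omega) e
      rw [r2, v.map_mul, ← e1] at h4
      have h6 := h4.trans (mul_le_mul_of_nonneg_right (mul_le_mul_of_nonneg_left h5 hc) h0)
      rw [← le_div_iff₀ h1] at h6
      exact h6.trans (le_of_eq (by ring))

end Pool.Agent.Lib.MP_830c64_nt
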