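import Pool.Agent.Lib.MP_830c64_nt.GrpJ

namespace Pool.Agent.Lib.MP_830c64_nt

open Polynomial NumberField IsDedekindDomain
open scoped Classical

variable {f₀ : ℤ[X]} {g : ℕ}

/-- Extension of a discrete valuation: a valuation subring of `L` dominating the image of the
valuation ring of `𝔭` (`LocalSubring.exists_le_valuationSubring`). -/
theorem exists_val_ext {K L : Type} [Field K] [NumberField K] [Field L] (j : K →+* L)
    (𝔭 : HeightOneSpectrum (𝓞 K)) : ∃ A : ValuationSubring L, ∀ u : K,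
      (𝔭.valuation K u ≤ 1 → A.valuation (j u) ≤ 1) ∧
      (𝔭.valuation K u < 1 → A.valuation (j u) < 1) := by
  set B : ValuationSubring K := (𝔭.valuation K).valuationSubring with hB
  obtain ⟨A, hA, hloc⟩ := IsLocalRing.exists_factor_valuationRing (R := B) (j.comp B.subtype)
  refine ⟨A, fun u => ⟨fun hu => ?_, fun hu => ?_⟩⟩
  · exact (A.valuation_le_one_iff _).2 (hA ⟨u, hu⟩)
  · have hle : A.valuation (j u) ≤ 1 := (A.valuation_le_one_iff _).2 (hA ⟨u, hu.le⟩)
    refine lt_of_le_of_ne hle fun h1 => ?_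
    have hunit : IsUnit (⟨j u, hA ⟨u, hu.le⟩⟩ : A) := (A.valuation_eq_one_iff _).2 h1
    have hu2 : IsUnit (⟨u, hu.le⟩ : B) := hloc.1 _ hunit
    obtain ⟨w, hw⟩ := hu2.exists_right_inv
    have hw1 : u * (w : K) = 1 := congrArg Subtype.val hw
    have hw2 : 𝔭.valuation K (w : K) ≤ 1 := w.2
    have h3 : 𝔭.valuation K u * 𝔭.valuation K (w : K) = 1 := by rw [← map_mul, hw1, map_one]
    have h4 : 𝔭.valuation K u * 𝔭.valuation K (w : K) ≤ 𝔭.valuation K u :=
      mul_le_of_le_one_right' hw2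
    exact absurd (h3 ▸ h4) (not_le.2 hu)

/-- Among `0, …, g` at most one value is bad for each point. -/
theorem exists_avoid {β : Type*} (E : Multiset β) (hE : E.card ≤ g) (bad : β → ℕ → Prop)
    (hb : ∀ P ∈ E, ∀ i ≤ g, ∀ j ≤ g, bad P i → bad P j → i = j) :
    ∃ i ≤ g, ∀ P ∈ E, ¬ bad P i := by
  by_contra hc
  push Not at hc
  choose! F hF hF2 using fun i : ℕ => fun hi : i ≤ g =>
    (show ∃ P : Option β, (∃ Q ∈ E, P = some Q) ∧ ∀ Q, P = some Q → bad Q i from by
      obtain ⟨P, hP, hP2⟩ := hc i hi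
      exact ⟨some P, ⟨P, hP, rfl⟩, fun Q hQ => by cases hQ; exact hP2⟩)
  have h1 : (Finset.range (g + 1)).card ≤ (E.toFinset.image some).card := by
    refine Finset.card_le_card_of_injOn F (fun i hi => ?_) (fun i hi j hj hij => ?_)
    · have hi' : i ≤ g := Nat.lt_succ_iff.1 (Finset.mem_range.1 (Finset.mem_coe.1 hi))
      obtain ⟨Q, hQ, hQ2⟩ := hF i hi'
      exact Finset.mem_coe.2 (Finset.mem_image.2 ⟨Q, Multiset.mem_toFinset.2 hQ, hQ2.symm⟩)
    · have hi' : i ≤ g := Nat.lt_succ_iff.1 (Finset.mem_range.1 (Finset.mem_coe.1 hi))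
      have hj' : j ≤ g := Nat.lt_succ_iff.1 (Finset.mem_range.1 (Finset.mem_coe.1 hj))
      obtain ⟨Q, hQ, hQ2⟩ := hF i hi'
      exact hb Q hQ i hi' j hj' (hF2 i hi' Q hQ2) (hF2 j hj' Q (hij ▸ hQ2))
  have h2 : (E.toFinset.image some).card ≤ g :=
    Finset.card_image_le.trans ((Multiset.toFinset_card_le E).trans hE)
  rw [Finset.card_range] at h1
  omega

section Val

variable {Γ : Type*} [LinearOrderedCommGroupWithZero Γ] (V : Valuation kk Γ)

theorem desci_int (n : ℤ) : V (n : kk) ≤ 1 := intCast_mem V.integer n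

theorem desci_nat (n : ℕ) : V (n : kk) ≤ 1 := natCast_mem V.integer n

theorem desci_big (hm : f₀.Monic) {x : kk} (hx : 1 < V x) :
    V ((fk f₀).eval x) = V x ^ f₀.natDegree := by
  have hmon : (fk f₀).Monic := hm.map _
  have hdeg : (fk f₀).natDegree = f₀.natDegree := hm.natDegree_map _
  rw [eval_eq_sum_range, Finset.sum_range_succ, hmon.coeff_natDegree, one_mul, hdeg]
  have h0 : V x ^ f₀.natDegree ≠ 0 := pow_ne_zero _ (zero_lt_one.trans hx).ne'
  have hlt : V (∑ i ∈ Finset.range f₀.natDegree, (fk f₀).coeff i * x ^ i) <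
      V (x ^ f₀.natDegree) := by
    rw [map_pow]
    refine V.map_sum_lt h0 fun i hi => ?_
    rw [map_mul, map_pow]
    have h1 : V ((fk f₀).coeff i) ≤ 1 := by
      rw [fk, coeff_map]; exact desci_int V _
    exact (mul_le_of_le_one_left' h1).trans_lt (pow_lt_pow_right₀ hx (Finset.mem_range.1 hi))
  rw [V.map_add_eq_of_lt_right hlt, map_pow]

theorem desci_taylor {a z : kk} (ha : V a ≤ 1) (hz : V z ≤ 1) : ∃ c : kk, V c ≤ 1 ∧
    (fk f₀).eval (a + z) = (fk f₀).eval a + (fk f₀).derivative.eval a * z + c * z ^ 2 := by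
  obtain ⟨c, hc⟩ := (f₀.map (Int.castRingHom V.integer)).binomExpansion ⟨a, ha⟩ ⟨z, hz⟩
  refine ⟨c, c.2, ?_⟩
  have key : ∀ (p : ℤ[X]) (w : V.integer),
      ((eval w (p.map (Int.castRingHom V.integer)) : V.integer) : kk) =
        eval (w : kk) (p.map (Int.castRingHom kk)) := by
    intro p w
    have h := eval₂_at_apply (p := p.map (Int.castRingHom V.integer)) V.integer.subtype w
    rw [eval₂_eq_eval_map, Polynomial.map_map] at h
    have e : V.integer.subtype.comp (Int.castRingHom V.integer) = Int.castRingHom kk :=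
      RingHom.ext_int _ _
    rw [e] at h
    exact h.symm
  have h := congrArg (fun w : V.integer => (w : kk)) hc
  simp only [derivative_map, Subring.coe_add, Subring.coe_mul, SubmonoidClass.coe_pow, key] at h
  rw [fk, derivative_map]
  exact h

theorem desci_small {x : kk} (hx : V x ≤ 1) : V ((fk f₀).eval x) ≤ 1 := by
  rw [eval_eq_sum_range]
  refine V.map_sum_le fun i _ => ?_
  rw [map_mul, map_pow]
  have h1 : V ((fk f₀).coeff i) ≤ 1 := by
    rw [fk, coeff_map]; exact desci_int V _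
  exact mul_le_one' h1 (pow_le_one₀ zero_le hx)

end Val

/-- Three cases: `V x > 1` (then `V y ^ 2 = V x ^ n`), `V (x - α) < 1` (then
`V y ^ 2 = V (x - α)` because `f x = (x - α) * f₁ x` with `V (f₁ x) = V (f' α) = 1`), and
`V x ≤ 1 = V (x - α)`. -/
theorem val_point {Γ : Type*} [LinearOrderedCommGroupWithZero Γ] (V : Valuation kk Γ)
    (h : GC f₀ g) {α : kk} (hα : (fk f₀).eval α = 0) (hd : V ((fk f₀).derivative.eval α) = 1)
    {P : Pt (fk f₀)} (hy : P.y ≠ 0) (l m : ℕ)
    (hl : ¬ (V P.x ≤ 1 ∧ V (P.x - α) = 1 ∧ V (P.y + l * (P.x - α)) < 1))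
    (hm : ¬ V (P.x - m) < 1) :
    V (α - P.x) = V ((P.y + l * (P.x - α)) / (P.x - m) ^ g) ^ 2 := by
  have hα1 : V α ≤ 1 := by
    by_contra hc
    have h1 := desci_big V h.monic (not_le.1 hc)
    rw [hα, map_zero] at h1
    exact pow_ne_zero _ (zero_lt_one.trans (not_le.1 hc)).ne' h1.symm
  have hyy : V P.y ^ 2 = V ((fk f₀).eval P.x) := by rw [← map_pow, P.on]
  have hy0 : 0 < V P.y := zero_lt_iff.2 ((map_ne_zero V).2 hy)
  have hlz : V ((l : kk) * (P.x - α)) ≤ V (P.x - α) := by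
    rw [map_mul]; exact mul_le_of_le_one_left' (desci_nat V l)
  rw [V.map_sub_swap, map_div₀, map_pow]
  rcases lt_or_ge 1 (V P.x) with hx | hx
  · have hx0 : V P.x ≠ 0 := (zero_lt_one.trans hx).ne'
    have e1 : V (P.x - α) = V P.x := V.map_sub_eq_of_lt_left (hα1.trans_lt hx)
    have e2 : V (P.x - m) = V P.x := V.map_sub_eq_of_lt_left ((desci_nat V m).trans_lt hx)
    rw [desci_big V h.monic hx, h.deg] at hyy
    have e3 : V P.x < V P.y := by
      refine lt_of_pow_lt_pow_left₀ 2 zero_le ?_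
      rw [hyy]
      exact pow_lt_pow_right₀ hx (by have := h.pos; omega)
    rw [V.map_add_eq_of_lt_left (hlz.trans_lt (e1 ▸ e3)), e1, e2, div_pow, hyy, ← pow_mul,
      mul_comm g 2, pow_succ, mul_div_cancel_left₀ _ (pow_ne_zero _ hx0)]
  · have e2 : V (P.x - m) = 1 :=
      le_antisymm (V.map_sub_le hx (desci_nat V m)) (not_lt.1 hm)
    have e0 : V (P.x - α) ≤ 1 := V.map_sub_le hx hα1
    rw [e2, one_pow, div_one]
    rcases e0.lt_or_eq with e1 | e1
    · obtain ⟨c, hc, hc2⟩ := desci_taylor (f₀ := f₀) V hα1 e0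
      have e4 : (fk f₀).eval P.x =
          (P.x - α) * ((fk f₀).derivative.eval α + c * (P.x - α)) := by
        have : α + (P.x - α) = P.x := by ring
        rw [this, hα] at hc2
        rw [hc2]; ring
      have e5 : V (c * (P.x - α)) < V ((fk f₀).derivative.eval α) := by
        rw [hd, map_mul]; exact (mul_le_of_le_one_left' hc).trans_lt e1
      rw [e4, map_mul, V.map_add_eq_of_lt_left e5, hd, mul_one] at hyy
      have e6 : V P.y < 1 := by
        refine lt_of_pow_lt_pow_left₀ 2 zero_le ?_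
        rw [hyy, one_pow]; exact e1
      have e7 : V (P.x - α) < V P.y := by
        rw [← hyy, sq]; exact mul_lt_of_lt_one_left hy0 e6
      rw [V.map_add_eq_of_lt_left (hlz.trans_lt e7), hyy]
    · have e6 : V P.y ≤ 1 := by
        refine le_of_pow_le_pow_left₀ two_ne_zero zero_le ?_
        rw [hyy, one_pow]; exact desci_small V hx
      have e7 : V (P.y + l * (P.x - α)) = 1 :=
        le_antisymm (V.map_add_le e6 (hlz.trans e0)) (not_lt.1 fun hc => hl ⟨hx, e1, hc⟩)
      rw [e7, e1, one_pow]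

end Pool.Agent.Lib.MP_830c64_nt
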