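import Pool.Agent.Lib.MP_830c64_nt.GoMod

namespace Pool.Agent.Lib.MP_830c64_nt

open NumberField
open scoped Classical nonZeroDivisors IntermediateField

/-- Take a nonzero linear form `ℓ` vanishing on `W`; the pairing `ℓ (x * y)` is nondegenerate
(`LinearMap.BilinForm.finrank_add_finrank_orthogonal`, or: `V` embeds in the annihilator of `U`). -/
theorem finrank_add_le (K : Type) [Field K] [NumberField K] {U V W : Submodule ℚ K} (hW : W ≠ ⊤)
    (h : ∀ x ∈ U, ∀ y ∈ V, x * y ∈ W) :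
    Module.finrank ℚ U + Module.finrank ℚ V ≤ Module.finrank ℚ K := by
  obtain ⟨l, hl0, hl⟩ := Submodule.exists_le_ker_of_lt_top W (lt_top_iff_ne_top.2 hW)
  let ψ : K →ₗ[ℚ] Module.Dual ℚ K := (LinearMap.mul ℚ K).compr₂ l
  have hψ : Function.Injective ψ := by
    rw [injective_iff_map_eq_zero]
    intro y hy
    by_contra hy0
    refine hl0 (LinearMap.ext fun z => ?_)
    have := LinearMap.congr_fun hy (y⁻¹ * z)
    simpa [ψ, ← mul_assoc, mul_inv_cancel₀ hy0] using this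
  have hle : V.map ψ ≤ U.dualAnnihilator := by
    rintro _ ⟨y, hy, rfl⟩
    rw [Submodule.mem_dualAnnihilator]
    intro x hx
    have := hl (h x hx y hy)
    simpa [ψ, mul_comm] using this
  have h1 := Submodule.finrank_mono hle
  rw [← (Submodule.equivMapOfInjective ψ hψ V).finrank_eq] at h1
  have h2 := Subspace.finrank_add_finrank_dualAnnihilator_eq U
  omega

theorem gonon_step (K : Type) [Field K] [NumberField K] (s : ℝ) {q : ℕ} (hq : 0 < q) :
    (box K s).ncard ≤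
      q ^ Module.finrank ℚ (Submodule.span ℚ ((fun β : 𝓞 K => (β : K)) '' box K s)) *
        (box K (2 * s / q)).ncard := by
  have h := box_mod K (Submodule.span ℚ ((fun β : 𝓞 K => (β : K)) '' box K s)) s hq
  have e : {β | β ∈ box K s ∧
      (β : K) ∈ Submodule.span ℚ ((fun β : 𝓞 K => (β : K)) '' box K s)} = box K s :=
    Set.ext fun β => and_iff_left_of_imp fun hβ => Submodule.subset_span ⟨β, hβ, rfl⟩
  rw [e] at h
  exact h.trans (Nat.mul_le_mul_left _ (Set.ncard_le_ncard (fun β hβ => hβ.1) (box_finite K _)))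

theorem gonon_mul (K : Type) [Field K] [NumberField K] {a b T : ℝ} (ha : 0 ≤ a)
    (hab : a * b ≤ T) {x y : K}
    (hx : x ∈ Submodule.span ℚ ((fun β : 𝓞 K => (β : K)) '' box K a))
    (hy : y ∈ Submodule.span ℚ ((fun β : 𝓞 K => (β : K)) '' box K b)) :
    x * y ∈ Submodule.span ℚ ((fun β : 𝓞 K => (β : K)) '' box K T) := by
  have h := Submodule.mul_mem_mul hx hy
  rw [Submodule.span_mul_span] at h
  refine Submodule.span_mono ?_ h
  rintro _ ⟨_, ⟨α, hα, rfl⟩, _, ⟨β, hβ, rfl⟩, rfl⟩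
  refine ⟨α * β, fun σ => ?_, by simp⟩
  have e : ((α * β : 𝓞 K) : K) = (α : K) * β := by simp
  rw [e, map_mul, norm_mul]
  exact (mul_le_mul (hα σ) (hβ σ) (norm_nonneg _) ha).trans hab

/-- Let `d s` be the dimension of the span of `box s`, `Q = 2 ^ (m + 1)`, `s l = T / 2 ^ (m l)`, and
`L` least with `2 ^ (m L) > T`. Then `N (s l) ≤ Q ^ d (s l) * N (s (l + 1))`, `N (s L) ≤ 1`, and
`d (s l) + d (s (L - l)) ≤ n` because `s l * s (L - l) ≤ T`. So `N T ^ 2 ≤ Q ^ (n (L + 1))` and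
`Q ^ (L - 1) ≤ T ^ (1 + 1 / m)`. -/
theorem nonspan_le (n : ℕ) {ε : ℝ} (hε : 0 < ε) : ∃ c : ℝ, 0 ≤ c ∧
    ∀ (K : Type) [Field K] [NumberField K], Module.finrank ℚ K = n → ∀ T : ℝ, 1 ≤ T →
      Submodule.span ℚ ((fun β : 𝓞 K => (β : K)) '' box K T) ≠ ⊤ →
      ((box K T).ncard : ℝ) ≤ c * T ^ ((n : ℝ) / 2 + ε) := by
  obtain ⟨m, hm⟩ := exists_nat_gt ((n : ℝ) / ε)
  have hm0 : (0 : ℝ) < m := lt_of_le_of_lt (by positivity) hm
  have hm1 : m ≠ 0 := by exact_mod_cast hm0.ne'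
  refine ⟨((2 : ℝ) ^ (m + 1)) ^ n, by positivity, fun K _ _ hK T hT hsp => ?_⟩
  have hP : (1 : ℝ) < 2 ^ m := one_lt_pow₀ one_lt_two hm1
  obtain ⟨j, hj1, hj2⟩ := exists_nat_pow_near hT hP
  have hT0 : 0 < T := one_pos.trans_le hT
  set s : ℕ → ℝ := fun l => T / ((2 : ℝ) ^ m) ^ l with hs
  set d : ℕ → ℕ := fun l =>
    Module.finrank ℚ (Submodule.span ℚ ((fun β : 𝓞 K => (β : K)) '' box K (s l))) with hd
  have step : ∀ l, (box K (s l)).ncard ≤ (2 ^ (m + 1)) ^ d l * (box K (s (l + 1))).ncard := by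
    intro l
    have h := gonon_step K (s l) (q := 2 ^ (m + 1)) (by positivity)
    have e : 2 * s l / ((2 ^ (m + 1) : ℕ) : ℝ) = s (l + 1) := by
      simp only [hs]
      push_cast
      field_simp
      ring
    rwa [e] at h
  have iter : ∀ L, (box K (s 0)).ncard ≤
      (2 ^ (m + 1)) ^ (∑ l ∈ Finset.range L, d l) * (box K (s L)).ncard := by
    intro L
    induction L with
    | zero => simp
    | succ L ih =>
      rw [Finset.sum_range_succ, pow_add _ _ (d L), mul_assoc]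
      exact ih.trans (Nat.mul_le_mul_left _ (step L))
  have hlast : (box K (s (j + 1))).ncard ≤ 1 := by
    have h1 : s (j + 1) < 1 := (div_lt_one (by positivity)).2 hj2
    simpa using Set.ncard_le_ncard (box_lt_one K h1) (Set.finite_singleton _)
  have hs0 : s 0 = T := by simp [hs]
  have hpair : ∀ l ∈ Finset.range (j + 2), d l + d (j + 2 - 1 - l) ≤ n := by
    intro l hl
    rw [← hK]
    refine finrank_add_le K hsp fun x hx y hy => gonon_mul K (by positivity) ?_ hx hy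
    have hl' : l + (j + 2 - 1 - l) = j + 1 := by have := Finset.mem_range.1 hl; omega
    simp only [hs]
    rw [div_mul_div_comm, ← pow_add, hl', div_le_iff₀ (by positivity)]
    exact mul_le_mul_of_nonneg_left hj2.le hT0.le
  have hsum : 2 * ∑ l ∈ Finset.range (j + 1), d l ≤ (j + 2) * n := by
    have h1 := Finset.sum_le_card_nsmul _ _ _ hpair
    rw [Finset.sum_add_distrib, Finset.sum_range_reflect d (j + 2), Finset.card_range,
      smul_eq_mul, Finset.sum_range_succ] at h1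
    omega
  have hN : (box K T).ncard ^ 2 ≤ (2 ^ (m + 1)) ^ ((j + 2) * n) := by
    have h1 := (iter (j + 1)).trans (Nat.mul_le_mul_left _ hlast)
    rw [hs0, mul_one] at h1
    refine (Nat.pow_le_pow_left h1 2).trans ?_
    rw [← pow_mul]
    exact Nat.pow_le_pow_right (by positivity) (by omega)
  have h2j : (2 : ℝ) ^ j ≤ T ^ ((m : ℝ)⁻¹) := by
    rw [← Real.pow_rpow_inv_natCast (x := (2 : ℝ) ^ j) (by positivity) hm1]
    refine Real.rpow_le_rpow (by positivity) ?_ (by positivity)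
    rwa [← pow_mul, mul_comm, pow_mul]
  have hQ : ((2 : ℝ) ^ (m + 1)) ^ j ≤ T ^ (1 + (m : ℝ)⁻¹) := by
    rw [pow_succ, mul_pow, Real.rpow_add hT0, Real.rpow_one]
    exact mul_le_mul hj1 h2j (by positivity) hT0.le
  have hQn : (((2 : ℝ) ^ (m + 1)) ^ j) ^ n ≤ (T ^ ((n : ℝ) / 2 + ε)) ^ 2 := by
    refine (pow_le_pow_left₀ (by positivity) hQ n).trans ?_
    rw [← Real.rpow_natCast, ← Real.rpow_natCast, ← Real.rpow_mul hT0.le, ← Real.rpow_mul hT0.le]
    refine Real.rpow_le_rpow_of_exponent_le hT ?_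
    have h1 : (m : ℝ)⁻¹ * n ≤ ε := by
      rw [inv_mul_le_iff₀ hm0]
      exact ((div_lt_iff₀ hε).1 hm).le
    push_cast
    nlinarith
  refine (pow_le_pow_iff_left₀ (by positivity) (by positivity) two_ne_zero).1 ?_
  have hN' : ((box K T).ncard : ℝ) ^ 2 ≤ ((2 : ℝ) ^ (m + 1)) ^ ((j + 2) * n) := by
    exact_mod_cast hN
  refine hN'.trans ?_
  have e : ((2 : ℝ) ^ (m + 1)) ^ ((j + 2) * n) =
      (((2 : ℝ) ^ (m + 1)) ^ n) ^ 2 * (((2 : ℝ) ^ (m + 1)) ^ j) ^ n := by ring
  rw [e, mul_pow]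
  exact mul_le_mul_of_nonneg_left hQn (by positivity)

end Pool.Agent.Lib.MP_830c64_nt
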