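import Pool.Agent.Lib.MP_830c64_nt.Divis

namespace Pool.Agent.Lib.MP_830c64_nt

open Real

theorem numer_b {m : ℝ} (hm : 4 ≤ m) :
    1 / (4 * m ^ 2) ≤ (1 / √(1 - 1 / m ^ 2) - 1) / 2 ∧
      (1 / √(1 - 1 / m ^ 2) - 1) / 2 ≤ 0.2625 / m ^ 2 := by
  have m2 : 16 ≤ m ^ 2 := by nlinarith
  have u0 : 0 < 1 / m ^ 2 := by positivity
  have u1 : 1 / m ^ 2 ≤ 1 / 16 := one_div_le_one_div_of_le (by norm_num) m2
  have e1 : 1 / (4 * m ^ 2) = 1 / m ^ 2 / 4 := by field_simp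
  have e2 : 0.2625 / m ^ 2 = 0.2625 * (1 / m ^ 2) := by field_simp
  rw [e1, e2]
  generalize 1 / m ^ 2 = u at u0 u1
  have r2 : √(1 - u) ^ 2 = 1 - u := Real.sq_sqrt (by linarith)
  have r1 : 0.968 ≤ √(1 - u) := Real.le_sqrt_of_sq_le (by linarith)
  have r3 : √(1 - u) ≤ 1 := Real.sqrt_le_one.mpr (by linarith)
  generalize √(1 - u) = r at r1 r2 r3
  have r0 : 0 < r := by linarith
  have hu : u = (1 - r) * (1 + r) := by linarith
  constructor
  · have : u / 2 + 1 ≤ 1 / r := by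
      rw [le_div_iff₀ r0, hu]
      nlinarith [mul_nonneg (sq_nonneg (1 - r)) (by linarith : 0 ≤ r + 2)]
    linarith
  · have : 1 / r ≤ 0.525 * u + 1 := by
      rw [div_le_iff₀ r0, hu]
      nlinarith [mul_nonneg (by linarith : 0 ≤ 1 - r)
        (by nlinarith : 0 ≤ 0.525 * ((1 + r) * r) - 1)]
    linarith

/-- With `s = 1 / (n - 1) ≤ 1 / 4` and `b = bpar n`: `s ^ 2 / 4 ≤ b ≤ 0.2625 s ^ 2`,
`kap b * log 2 = log (1 + b) + b * log (1 + 1 / b) ≤ b * (1 + log t)` with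
`t = 1 + 1 / b ≤ 1 + 4 (n - 1) ^ 2 ≤ (2 n - 1) ^ 2`, and
`log t ≤ 2 log (2 n - 1) ≤ 2 (log 8 + (2 n - 1) / 8 - 1)`; `Real.log_two_gt_d9`. -/
theorem kap_lt {n : ℕ} (hn : 5 ≤ n) : kap (bpar n) < 1 / (2 * (n : ℝ) - 3) := by
  have h5 : (5 : ℝ) ≤ n := by exact_mod_cast hn
  obtain ⟨l, u⟩ := numer_b (m := (n : ℝ) - 1) (by linarith)
  change _ ≤ bpar n at l
  change bpar n ≤ _ at u
  unfold kap
  generalize bpar n = b at l u
  obtain ⟨m, hm⟩ : ∃ m : ℝ, (n : ℝ) = m + 1 := ⟨n - 1, by ring⟩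
  rw [hm] at h5 l u ⊢
  rw [add_sub_cancel_right] at l u
  have m0 : 0 < m := by linarith
  have b0 : 0 < b := lt_of_lt_of_le (by positivity) l
  have L := Real.log_two_gt_d9
  have L' := Real.log_two_lt_d9
  have a1 : Real.log (1 + b) ≤ b := by
    linarith [Real.log_le_sub_one_of_pos (by linarith : 0 < 1 + b)]
  have a2 : Real.log (1 + b) - Real.log b ≤ 2 * Real.log (2 * m + 1) := by
    rw [← Real.log_div (by linarith) b0.ne', show (2 : ℝ) = (2 : ℕ) by norm_num, ← Real.log_pow]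
    refine Real.log_le_log (by positivity) ?_
    rw [div_le_iff₀ (by positivity)] at l
    rw [div_le_iff₀ b0]
    push_cast
    nlinarith [mul_pos m0 b0]
  have a3 : Real.log (2 * m + 1) ≤ 3 * Real.log 2 + ((2 * m + 1) / 8 - 1) := by
    have := Real.log_le_sub_one_of_pos (by positivity : 0 < (2 * m + 1) / 8)
    rw [Real.log_div (by positivity) (by norm_num), show (8 : ℝ) = 2 ^ 3 by norm_num,
      Real.log_pow] at this
    push_cast at this
    linarith
  have a4 : (1 + b) * Real.log (1 + b) - b * Real.log b ≤ b * (3.41 + m / 2) := by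
    have := mul_le_mul_of_nonneg_left
      (show Real.log (1 + b) - Real.log b ≤ 2.41 + m / 2 by linarith) b0.le
    linarith
  rw [div_lt_div_iff₀ (by linarith) (by linarith)]
  rw [le_div_iff₀ (by positivity)] at u
  have a5 : 0.2625 * ((3.41 + m / 2) * (2 * m - 1)) < 0.693 * m ^ 2 := by nlinarith
  have a6 : b * ((3.41 + m / 2) * (2 * m - 1)) < 0.693 := by
    by_contra h
    have q : 0 < (3.41 + m / 2) * (2 * m - 1) := mul_pos (by linarith) (by linarith)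
    have := mul_le_mul_of_nonneg_right u q.le
    have := mul_le_mul_of_nonneg_right (not_lt.mp h) (sq_nonneg m)
    linarith
  have := mul_le_mul_of_nonneg_right a4 (by linarith : 0 ≤ 2 * (m + 1) - 3)
  linarith

theorem kap_lt_one {n : ℕ} (hn : 5 ≤ n) : kap (bpar n) < 1 := by
  have h5 : (5 : ℝ) ≤ n := by exact_mod_cast hn
  refine (kap_lt hn).trans_le ?_
  rw [div_le_one (by linarith)]
  linarith

theorem expo_lt {n : ℕ} (hn : 5 ≤ n) : expo n < 1 / 2 - 3 / (4 * (n : ℝ)) := by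
  have h5 : (5 : ℝ) ≤ n := by exact_mod_cast hn
  have k := kap_lt hn
  unfold expo
  rw [div_lt_iff₀ (by linarith [kap_lt_one hn])]
  rw [lt_div_iff₀ (by linarith)] at k
  have e1 : 1 / 2 - 1 / (n : ℝ) = (2 * n - 4) / (4 * n) := by
    field_simp
    ring
  have e2 : 1 / 2 - 3 / (4 * (n : ℝ)) = (2 * n - 3) / (4 * n) := by
    field_simp
    ring
  rw [e1, e2, div_mul_eq_mul_div]
  refine div_lt_div_of_pos_right ?_ (by linarith)
  linarith

end Pool.Agent.Lib.MP_830c64_nt
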