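import Pool.Agent.Lib.MP_830c64_nt.Count
import Pool.Agent.Lib.MP_830c64_nt.GoNon
import Pool.Agent.Lib.MP_830c64_nt.GoSpan
import Pool.Agent.Lib.MP_830c64_nt.Narrow
import Pool.Agent.Lib.MP_830c64_nt.Numer

namespace Pool.Agent.Lib.MP_830c64_nt

open NumberField
open scoped Classical IntermediateField

theorem final_one_le_discr (K : Type) [Field K] [NumberField K] : 1 ≤ |(discr K : ℝ)| := by
  have h := discr_ne_zero K
  have : (1 : ℤ) ≤ |discr K| := Int.one_le_abs h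
  exact_mod_cast this

theorem final_box (n : ℕ) (hn : 1 ≤ n) {c ε : ℝ} (hc : 1 ≤ c) (hε : 0 < ε) :
    ∃ A : ℝ, 0 ≤ A ∧ ∀ (K : Type) [Field K] [NumberField K], Module.finrank ℚ K = n →
      ((box K (c * |(discr K : ℝ)| ^ (1 / (n : ℝ)))).ncard : ℝ) ≤
        A * (|(discr K : ℝ)| ^ (1 / (n : ℝ))) ^ ((n : ℝ) / 2 + ε) := by
  obtain ⟨c₁, hc₁, h₁⟩ := nonspan_le n hε
  obtain ⟨c₂, hc₂, h₂⟩ := span_le n
  have hc0 : 0 ≤ c := by linarith
  refine ⟨c₁ * c ^ ((n : ℝ) / 2 + ε) + c₂ * c ^ n, by positivity, fun K _ _ hK => ?_⟩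
  set D : ℝ := |(discr K : ℝ)| with hD
  have hD1 : 1 ≤ D := final_one_le_discr K
  have hD0 : 0 < D := by linarith
  have hn0 : (0 : ℝ) < n := by exact_mod_cast hn
  set t : ℝ := D ^ (1 / (n : ℝ)) with ht
  have ht1 : 1 ≤ t := Real.one_le_rpow hD1 (by positivity)
  have ht0 : 0 < t := by linarith
  have hT : 1 ≤ c * t := by nlinarith
  have htn : t ^ ((n : ℝ) / 2) = √D := by
    rw [ht, ← Real.rpow_mul hD0.le, Real.sqrt_eq_rpow]
    congr 1; field_simp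
  have htn' : t ^ n = D := by
    rw [ht, ← Real.rpow_natCast, ← Real.rpow_mul hD0.le]
    rw [show 1 / (n : ℝ) * n = 1 by field_simp, Real.rpow_one]
  have hp : 0 < t ^ ((n : ℝ) / 2 + ε) := by positivity
  by_cases hs : Submodule.span ℚ ((fun β : 𝓞 K => (β : K)) '' box K (c * t)) = ⊤
  · have h := h₂ K hK _ hT hs
    rw [mul_pow, htn'] at h
    have hsq : 0 < √D := Real.sqrt_pos.2 hD0
    have e : D = √D * √D := (Real.mul_self_sqrt hD0.le).symm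
    have h3 : ((box K (c * t)).ncard : ℝ) ≤ c₂ * c ^ n * √D := by
      refine le_of_mul_le_mul_right ?_ hsq
      calc _ ≤ c₂ * (c ^ n * D) := h
        _ = c₂ * c ^ n * √D * √D := by rw [mul_assoc (c₂ * c ^ n), ← e]; ring
    have h4 : √D ≤ t ^ ((n : ℝ) / 2 + ε) := by
      rw [← htn]; exact Real.rpow_le_rpow_of_exponent_le ht1 (by linarith)
    have h5 : 0 ≤ c₁ * c ^ ((n : ℝ) / 2 + ε) * t ^ ((n : ℝ) / 2 + ε) := by positivity
    have h6 : c₂ * c ^ n * √D ≤ c₂ * c ^ n * t ^ ((n : ℝ) / 2 + ε) := by gcongr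
    nlinarith
  · have h := h₁ K hK _ hT hs
    rw [Real.mul_rpow hc0 ht0.le] at h
    have h5 : 0 ≤ c₂ * c ^ n * t ^ ((n : ℝ) / 2 + ε) := by positivity
    nlinarith

theorem h2_rec {g : ℕ} (hg : 2 ≤ g) {b ε : ℝ} (hb : 0 < b)
    (hsb : (1 / (2 * (g : ℝ))) ^ 2 < 1 - 1 / (1 + 2 * b) ^ 2) (hε : 0 < ε) :
    ∃ A : ℝ, 0 ≤ A ∧ ∀ (K : Type) [Field K] [NumberField K], Module.finrank ℚ K = 2 * g + 1 →
      (h2 K : ℝ) ≤ A * |(discr K : ℝ)| ^ (1 / 2 - 1 / (2 * (g : ℝ) + 1) + ε) *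
        (h2 K : ℝ) ^ kap b := by
  obtain ⟨c, hc, h₀⟩ := h2_le_box (2 * g + 1) ⟨g, rfl⟩
  obtain ⟨A₁, hA₁, h₁⟩ := count_pts (g := g) (by omega) hb hsb hε
  obtain ⟨A₂, hA₂, h₂⟩ := final_box (2 * g + 1) (by omega) (c := 2 * c) (by linarith) hε
  have hc0 : 0 ≤ c := by linarith
  refine ⟨(2 * g + 1) * (3 * c) ^ (g - 1) + A₂ * A₁ * (2 * c) ^ ε, by positivity,
    fun K _ _ hK => ?_⟩
  set D : ℝ := |(discr K : ℝ)| with hD
  have hD1 : 1 ≤ D := final_one_le_discr K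
  have hD0 : 0 < D := by linarith
  have hcast : ((2 * g + 1 : ℕ) : ℝ) = 2 * (g : ℝ) + 1 := by push_cast; ring
  have hg2 : (2 : ℝ) ≤ g := by exact_mod_cast hg
  have h₀' := h₀ K hK
  have h₂' := h₂ K hK
  rw [hcast] at h₀' h₂'
  set t : ℝ := D ^ (1 / (2 * (g : ℝ) + 1)) with ht
  have ht1 : 1 ≤ t := Real.one_le_rpow hD1 (by positivity)
  have ht0 : 0 < t := by linarith
  have hT : 1 ≤ c * t := by nlinarith
  set e : ℝ := 1 / 2 - 1 / (2 * (g : ℝ) + 1) + ε with he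
  have hDe : D ^ e = t ^ ((2 * (g : ℝ) + 1) / 2 - 1 + (2 * g + 1) * ε) := by
    rw [ht, ← Real.rpow_mul hD0.le, he]
    congr 1; field_simp
  set H : ℝ := (h2 K : ℝ) ^ kap b with hH
  have hH1 : 1 ≤ H := Real.one_le_rpow (by exact_mod_cast one_le_h2 K) (kap_pos hb).le
  have hDe0 : 0 < D ^ e := by positivity
  have hsplit : {β | β ∈ box K (c * t) ∧ IsSquare (Algebra.norm ℤ β)} ⊆
      {β | β ∈ box K (c * t) ∧ ℚ⟮(β : K)⟯ ≠ ⊤} ∪
        {β | β ∈ box K (c * t) ∧ ℚ⟮(β : K)⟯ = ⊤ ∧ IsSquare (Algebra.norm ℤ β)} := by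
    intro β hβ
    by_cases h : ℚ⟮(β : K)⟯ = ⊤
    · exact Or.inr ⟨hβ.1, h, hβ.2⟩
    · exact Or.inl ⟨hβ.1, h⟩
  have hf1 : {β | β ∈ box K (c * t) ∧ ℚ⟮(β : K)⟯ ≠ ⊤}.Finite :=
    (box_finite K _).subset fun β hβ => hβ.1
  have hf2 : {β | β ∈ box K (c * t) ∧ ℚ⟮(β : K)⟯ = ⊤ ∧ IsSquare (Algebra.norm ℤ β)}.Finite :=
    (box_finite K _).subset fun β hβ => hβ.1
  have hle := (h₀'.trans (Set.ncard_le_ncard hsplit (hf1.union hf2))).trans (Set.ncard_union_le _ _)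
  have hle' : (h2 K : ℝ) ≤ ({β | β ∈ box K (c * t) ∧ ℚ⟮(β : K)⟯ ≠ ⊤}.ncard : ℝ) +
      ({β | β ∈ box K (c * t) ∧ ℚ⟮(β : K)⟯ = ⊤ ∧ IsSquare (Algebra.norm ℤ β)}.ncard : ℝ) := by
    exact_mod_cast hle
  have hA := nonprim_le K hg hK hT
  have hB := line_le K (M := A₁ * (2 * (c * t)) ^ ε * H) hT (by positivity)
    (fun θ hθ htop => h₁ K hK _ (by linarith) θ hθ htop)
  rw [show 2 * (c * t) = 2 * c * t by ring] at hB
  have hA' : (3 * (c * t)) ^ (g - 1) ≤ (3 * c) ^ (g - 1) * D ^ e := by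
    rw [← mul_assoc, mul_pow, hDe, ← Real.rpow_natCast t]
    gcongr
    rw [Nat.cast_sub (by omega)]
    have : 0 ≤ (2 * (g : ℝ) + 1) * ε := by positivity
    push_cast; linarith
  have hB' : ({β | β ∈ box K (c * t) ∧ ℚ⟮(β : K)⟯ = ⊤ ∧
      IsSquare (Algebra.norm ℤ β)}.ncard : ℝ) ≤ A₂ * A₁ * (2 * c) ^ ε * D ^ e * H := by
    refine le_of_mul_le_mul_right (hB.trans ?_) (by linarith : (0 : ℝ) < c * t)
    have e1 : t ^ ((2 * (g : ℝ) + 1) / 2 + ε) * t ^ ε ≤ D ^ e * t := by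
      rw [hDe, ← Real.rpow_add ht0, ← Real.rpow_add_one ht0.ne']
      exact Real.rpow_le_rpow_of_exponent_le ht1 (by nlinarith)
    have e2 : D ^ e * t ≤ D ^ e * (c * t) := by gcongr; nlinarith
    calc ((box K (2 * c * t)).ncard : ℝ) * (A₁ * (2 * c * t) ^ ε * H)
        ≤ A₂ * t ^ ((2 * (g : ℝ) + 1) / 2 + ε) * (A₁ * (2 * c * t) ^ ε * H) := by gcongr
      _ = A₂ * A₁ * (2 * c) ^ ε * H * (t ^ ((2 * (g : ℝ) + 1) / 2 + ε) * t ^ ε) := by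
        rw [Real.mul_rpow (by positivity) ht0.le]; ring
      _ ≤ A₂ * A₁ * (2 * c) ^ ε * H * (D ^ e * (c * t)) :=
        mul_le_mul_of_nonneg_left (e1.trans e2) (by positivity)
      _ = _ := by ring
  have hA'' : (2 * (g : ℝ) + 1) * (3 * (c * t)) ^ (g - 1) ≤
      (2 * (g : ℝ) + 1) * (3 * c) ^ (g - 1) * D ^ e * H := by
    calc _ ≤ (2 * (g : ℝ) + 1) * ((3 * c) ^ (g - 1) * D ^ e) := by gcongr
      _ = (2 * (g : ℝ) + 1) * (3 * c) ^ (g - 1) * D ^ e * 1 := by ring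
      _ ≤ _ := by gcongr
  calc (h2 K : ℝ) ≤ _ := hle'
    _ ≤ (2 * (g : ℝ) + 1) * (3 * c) ^ (g - 1) * D ^ e * H +
        A₂ * A₁ * (2 * c) ^ ε * D ^ e * H := add_le_add (hA.trans hA'') hB'
    _ = _ := by ring

theorem h2_bound {n : ℕ} (hn : Odd n) (h5 : 5 ≤ n) {ε : ℝ} (hε : 0 < ε) :
    ∃ A : ℝ, 0 ≤ A ∧ ∀ (K : Type) [Field K] [NumberField K], Module.finrank ℚ K = n →
      (h2 K : ℝ) ≤ A * |(discr K : ℝ)| ^ (expo n + ε) := by
  obtain ⟨g, rfl⟩ := hn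
  have hcast : ((2 * g + 1 : ℕ) : ℝ) = 2 * (g : ℝ) + 1 := by push_cast; ring
  have hb0 : 0 < bpar (2 * g + 1) := bpar_pos (by omega)
  have hk1 : kap (bpar (2 * g + 1)) < 1 := kap_lt_one h5
  set b₀ := bpar (2 * g + 1) with hb₀
  set a : ℝ := 1 / 2 - 1 / (2 * (g : ℝ) + 1) with ha
  have hex : expo (2 * g + 1) = a / (1 - kap b₀) := by rw [expo, hcast]
  have hc1 : ContinuousAt (fun δ : ℝ => kap (b₀ + δ)) 0 :=
    ContinuousAt.comp_of_eq (kap_continuousAt hb0) (by fun_prop) (by simp)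
  have hc2 : ContinuousAt (fun δ : ℝ => (a + δ) / (1 - kap (b₀ + δ))) 0 := by
    refine ContinuousAt.div (by fun_prop) (continuousAt_const.sub hc1) ?_
    simp only [add_zero]; linarith
  have e1 : ∀ᶠ δ : ℝ in nhds 0, kap (b₀ + δ) < 1 :=
    hc1.eventually_lt continuousAt_const (by simpa using hk1)
  have e2 : ∀ᶠ δ : ℝ in nhds 0, (a + δ) / (1 - kap (b₀ + δ)) < a / (1 - kap b₀) + ε :=
    hc2.eventually_lt continuousAt_const (by simpa using hε)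
  obtain ⟨δ, ⟨h1, h2'⟩, hδ⟩ := (((e1.and e2).filter_mono nhdsWithin_le_nhds).and
    (self_mem_nhdsWithin (s := Set.Ioi (0 : ℝ)))).exists
  have hδ0 : 0 < δ := hδ
  have hsb := bpar_lt (n := 2 * g + 1) (by omega) (b := b₀ + δ) (by linarith)
  rw [hcast, show 2 * (g : ℝ) + 1 - 1 = 2 * g by ring] at hsb
  obtain ⟨A, hA, h⟩ := h2_rec (g := g) (by omega) (by linarith : 0 < b₀ + δ) hsb hδ0
  set κ := kap (b₀ + δ) with hκ
  have hκ1 : 0 < 1 - κ := by linarith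
  refine ⟨A ^ (1 / (1 - κ)), by positivity, fun K _ _ hK => ?_⟩
  have h' := h K hK
  rw [← ha] at h'
  set D : ℝ := |(discr K : ℝ)| with hD
  have hD1 : 1 ≤ D := final_one_le_discr K
  have hD0 : 0 < D := by linarith
  set H : ℝ := (h2 K : ℝ) with hH
  have hH1 : 1 ≤ H := by rw [hH]; exact_mod_cast one_le_h2 K
  have hH0 : 0 < H := by linarith
  have e3 : H ^ (1 - κ) ≤ A * D ^ (a + δ) := by
    rw [Real.rpow_sub hH0, Real.rpow_one, div_le_iff₀ (by positivity)]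
    exact h'
  have e4 : H = (H ^ (1 - κ)) ^ (1 / (1 - κ)) := by
    rw [← Real.rpow_mul hH0.le, show (1 - κ) * (1 / (1 - κ)) = 1 by field_simp, Real.rpow_one]
  calc H = (H ^ (1 - κ)) ^ (1 / (1 - κ)) := e4
    _ ≤ (A * D ^ (a + δ)) ^ (1 / (1 - κ)) := by gcongr
    _ = A ^ (1 / (1 - κ)) * D ^ ((a + δ) / (1 - κ)) := by
      rw [Real.mul_rpow hA (by positivity), ← Real.rpow_mul hD0.le]; congr 2; ring
    _ ≤ A ^ (1 / (1 - κ)) * D ^ (expo (2 * g + 1) + ε) := by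
      gcongr
      rw [hex]; exact h2'.le

end Pool.Agent.Lib.MP_830c64_nt
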