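import Pool.Agent.Lib.MP_830c64_nt.SigUp
import Pool.Agent.Lib.MP_830c64_nt.Places2

namespace Pool.Agent.Lib.MP_830c64_nt

open Polynomial
open scoped Classical

variable {f₀ : ℤ[X]} {g : ℕ}

theorem globb_mu {P : Pt (fk f₀)} (hy : P.y ≠ 0) (R : Pt (fk f₀)) :
    {w | mu (pl w) P R ≠ 1}.Finite := by
  by_cases hR : R = P
  · subst hR
    refine (fin_ne (z := 2 * R.y) (mul_ne_zero two_ne_zero hy)).subset fun w hw => ?_
    simpa [mu, sl] using hw
  · refine (((fin_gt P.x).union (fin_gt R.x)).union (fin_gt (sl P R))).subset fun w hw => ?_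
    by_contra hc
    simp only [Set.mem_union, Set.mem_ofPred_eq, not_or, not_lt] at hc
    have h1 : Hh (pl w) P R = 1 := max_eq_left (max_le hc.1.1 hc.1.2)
    exact hw (by rw [mu, if_neg hR, ww, h1, one_pow, Real.sqrt_one, max_eq_left hc.2])

/-- At a good place where `x`, `x'`, `sl P R`, `sl P.inv R` have size `≤ 1` and `2 y` has size
`1`, the naive symbol vanishes. -/
theorem sig_fin (h : GC f₀ g) (P R : Pt (fk f₀)) :
    (Function.support fun w => sig (pl w) P R).Finite := by
  by_cases hy : P.y = 0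
  · refine Set.Finite.subset Set.finite_empty fun w hw => hw (sig_W_left hy R)
  · have hy' : P.inv.y ≠ 0 := neg_ne_zero.2 hy
    refine ((h.fin_bad.union (globb_mu hy R)).union (globb_mu hy' R)).subset fun w hw => ?_
    by_contra hc
    simp only [Set.mem_union, Set.mem_ofPred_eq, not_or, not_not] at hc
    refine hw (show sig (pl w) P R = 0 from ?_)
    rw [sig_good h.crv hc.1.1 hy, sn, hc.1.2, hc.2, sub_self]

theorem bb_inv_right (h : GC f₀ g) (P R : Pt (fk f₀)) : bb P R.inv = -bb P R := by
  simp only [bb, sig_inv_right h.crv]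
  exact finsum_neg_distrib _

theorem bb_W_left {P : Pt (fk f₀)} (hy : P.y = 0) (R : Pt (fk f₀)) : bb P R = 0 := by
  simp only [bb, sig_W_left hy, finsum_zero]

theorem bb_sub (h : GC f₀ g) : ∃ c : ℝ, 0 ≤ c ∧ ∀ P R : Pt (fk f₀), |bb P R - bb R P| ≤ c := by
  obtain ⟨κ, h1, h2⟩ := h.exists_dat
  choose m hm using fun w => sig_sub_symm h.crv (h1 w)
  refine ⟨∑ w ∈ h2.toFinset, m w * Real.log (κ w), Finset.sum_nonneg fun w _ =>
    mul_nonneg (Nat.cast_nonneg _) (Real.log_nonneg (h1 w).one_le), fun P R => ?_⟩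
  rw [bb, bb, ← finsum_sub_distrib (sig_fin h P R) (sig_fin h R P),
    finsum_eq_sum_of_support_subset (s := h2.toFinset) _ fun w hw => ?_]
  · exact (Finset.abs_sum_le_sum_abs _ _).trans (Finset.sum_le_sum fun w _ => hm w P R)
  · rw [Set.Finite.coe_toFinset]
    intro h3
    have h4 := hm w P R
    rw [h3, Real.log_one, mul_zero] at h4
    exact hw (abs_nonpos_iff.1 h4)

theorem BB_add_left (D D' E : Multiset (Pt (fk f₀))) : BB (D + D') E = BB D E + BB D' E := by
  simp only [BB, Multiset.map_add, Multiset.sum_add, mul_add]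

theorem BB_add_right (D E E' : Multiset (Pt (fk f₀))) : BB D (E + E') = BB D E + BB D E' := by
  simp only [BB, Multiset.map_add, Multiset.sum_add, Multiset.sum_map_add, mul_add]

theorem BB_zero_left (E : Multiset (Pt (fk f₀))) : BB 0 E = 0 := by
  simp [BB]

theorem BB_zero_right (D : Multiset (Pt (fk f₀))) : BB D 0 = 0 := by
  simp [BB]

theorem BB_nsmul_left (j : ℕ) (D E : Multiset (Pt (fk f₀))) : BB (j • D) E = j * BB D E := by
  induction j with
  | zero => simp [BB_zero_left]
  | succ j ih => rw [succ_nsmul, BB_add_left, ih]; push_cast; ring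

theorem BB_nsmul_right (j : ℕ) (D E : Multiset (Pt (fk f₀))) : BB D (j • E) = j * BB D E := by
  induction j with
  | zero => simp [BB_zero_right]
  | succ j ih => rw [succ_nsmul, BB_add_right, ih]; push_cast; ring

theorem BB_inv_right (h : GC f₀ g) (D E : Multiset (Pt (fk f₀))) :
    BB D (E.map Pt.inv) = -BB D E := by
  simp only [BB, Multiset.map_map, Function.comp_def, bb_inv_right h, Multiset.sum_map_neg,
    mul_neg]

theorem BB_single (P R : Pt (fk f₀)) : BB {P} {R} = -(1 / 2) * bb P R := by
  simp [BB]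

theorem BB_eq_finsum (h : GC f₀ g) (D E : Multiset (Pt (fk f₀))) : BB D E =
    -(1 / 2) * ∑ᶠ w, (D.map fun P => (E.map fun R => sig (pl w) P R).sum).sum := by
  rw [finsum_msum D (fun w P => (E.map fun R => sig (pl w) P R).sum) fun P _ =>
    fin_msum E (fun w R => sig (pl w) P R) fun R _ => sig_fin h P R, BB]
  congr 2
  exact Multiset.map_congr rfl fun P _ =>
    (finsum_msum E (fun w R => sig (pl w) P R) fun R _ => sig_fin h P R).symm

theorem BB_sub (h : GC f₀ g) : ∃ c : ℝ, 0 ≤ c ∧ ∀ D E : Multiset (Pt (fk f₀)),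
    |BB D E - BB E D| ≤ c * D.card * E.card := by
  obtain ⟨c, hc, h1⟩ := bb_sub h
  refine ⟨c, hc, fun D E => ?_⟩
  induction D using Multiset.induction_on with
  | empty => simp [BB_zero_left, BB_zero_right]
  | cons P D ih =>
    have h2 : |BB {P} E - BB E {P}| ≤ c * E.card := by
      clear ih
      induction E using Multiset.induction_on with
      | empty => simp [BB_zero_left, BB_zero_right]
      | cons R E ih =>
        have h3 := abs_le.1 (h1 P R)
        have h4 := abs_le.1 ih
        rw [← Multiset.singleton_add, BB_add_left, BB_add_right, BB_single, BB_single,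
          Multiset.card_add, Multiset.card_singleton, abs_le]
        push_cast
        constructor <;> nlinarith
    have h3 := abs_le.1 h2
    have h4 := abs_le.1 ih
    rw [← Multiset.singleton_add, BB_add_left, BB_add_right, Multiset.card_add,
      Multiset.card_singleton, abs_le]
    push_cast
    constructor <;> nlinarith

theorem globb_prod (G : Multiset (Pt (fk f₀))) (φ : CR (fk f₀)) :
    (G.map fun P => lead P.inv φ / lead P φ).prod ≠ 0 := by
  refine Multiset.prod_ne_zero fun h0 => ?_
  obtain ⟨P, -, hP⟩ := Multiset.mem_map.1 h0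
  exact div_ne_zero (lead_ne_zero _ _) (lead_ne_zero _ _) hP

/-- Drop the W-points of `D`; `sig_rec`, `ratio_fixed`, `prod_formula'`. -/
theorem BB_dv_right (h : GC f₀ g) {D : Multiset (Pt (fk f₀))} (hD : Stab D) {φ : CR (fk f₀)}
    (hφ : φ ≠ 0) (hs : Stab (dv φ)) : BB D (dv φ) = 0 := by
  have h1 : ∀ (w : Option Nat.Primes) (G : Multiset (Pt (fk f₀))),
      (G.map fun P => ((dv φ).map fun R => sig (pl w) P R).sum).sum =
      Real.log (pl w ((G.filter fun P => P.y ≠ 0).map fun P => lead P.inv φ / lead P φ).prod) := by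
    intro w G
    induction G using Multiset.induction_on with
    | empty => simp
    | cons P G ih =>
      rw [Multiset.map_cons, Multiset.sum_cons, ih]
      by_cases hy : P.y = 0
      · rw [Multiset.filter_cons_of_neg (p := fun P : Pt (fk f₀) => P.y ≠ 0) _ (not_not.2 hy)]
        simp [sig_W_left hy]
      · rw [Multiset.filter_cons_of_pos (p := fun P : Pt (fk f₀) => P.y ≠ 0) _ hy,
          Multiset.map_cons, Multiset.prod_cons, map_mul, map_div₀,
          Real.log_mul (div_ne_zero ((pl w).ne_zero (lead_ne_zero _ _))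
            ((pl w).ne_zero (lead_ne_zero _ _))) ((pl w).ne_zero (globb_prod _ φ)),
          Real.log_div ((pl w).ne_zero (lead_ne_zero _ _)) ((pl w).ne_zero (lead_ne_zero _ _)),
          ← sig_rec h.crv (pl w) hy hφ]
  rw [BB_eq_finsum h]
  simp only [h1]
  rw [prod_formula' (globb_prod _ φ) (ratio_fixed h.crv hD.filterW
    (fun P hP => (Multiset.mem_filter.1 hP).2) hφ hs), mul_zero]

theorem BB_rel_right (h : GC f₀ g) {D E E' : Multiset (Pt (fk f₀))} (hD : Stab D) (hE : Stab E)
    (hE' : Stab E') (e : rel E E') : BB D E = BB D E' := by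
  obtain ⟨χ, h0, h1⟩ := e
  have h2 := BB_dv_right h hD h0 (h1 ▸ hE.add hE'.inv)
  rw [h1, BB_add_right, BB_inv_right h] at h2
  linarith

end Pool.Agent.Lib.MP_830c64_nt
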