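import Pool.Agent.Lib.MP_830c64_nt.GlobB
import Pool.Agent.Lib.MP_830c64_nt.GrpJ

namespace Pool.Agent.Lib.MP_830c64_nt

open Polynomial
open scoped Classical

variable {f₀ : ℤ[X]} {g : ℕ}

theorem globs_zero {x c : ℝ} (hc : ∀ N : ℕ, |(N : ℝ) * x| ≤ c) : x = 0 := by
  by_contra hx
  have hp : 0 < |x| := abs_pos.2 hx
  obtain ⟨N, hN⟩ := exists_nat_gt (c / |x|)
  have h1 := hc N
  rw [abs_mul, Nat.abs_cast] at h1
  rw [div_lt_iff₀ hp] at hN
  linarith

theorem globs_bb_inv (h : GC f₀ g) (P R : Pt (fk f₀)) : bb P.inv R = -bb P R := by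
  unfold bb
  rw [← finsum_neg_distrib]
  exact finsum_congr fun w => sig_inv_left h.crv P R

/-- `N * BB (dv φ) E = BB (dv φ) E'` with `E'` reduced, and `BB E' (dv φ) = 0`, so `BB_sub` bounds
it independently of `N`. -/
theorem BB_dv_left (h : GC f₀ g) {E : Multiset (Pt (fk f₀))} (hE : Stab E) {φ : CR (fk f₀)}
    (hφ : φ ≠ 0) (hs : Stab (dv φ)) : BB (dv φ) E = 0 := by
  obtain ⟨c, hc0, hc⟩ := BB_sub h
  apply globs_zero (c := c * (dv φ).card * g)
  intro N
  obtain ⟨E', hE', hR, e⟩ := reduce h (hE.nsmul N)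
  have h1 := BB_rel_right h hs (hE.nsmul N) hE' e
  have h2 := BB_dv_right h hE' hφ hs
  have h3 := hc (dv φ) E'
  rw [h2, sub_zero, ← h1, BB_nsmul_right] at h3
  refine h3.trans ?_
  have h4 : (E'.card : ℝ) ≤ g := by exact_mod_cast hR.1
  exact mul_le_mul_of_nonneg_left h4 (by positivity)

theorem BB_inv_left (h : GC f₀ g) (D E : Multiset (Pt (fk f₀))) :
    BB (D.map Pt.inv) E = -BB D E := by
  unfold BB
  rw [Multiset.map_map]
  have : ((fun P => (E.map fun R => bb P R).sum) ∘ Pt.inv) =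
      fun P : Pt (fk f₀) => -(E.map fun R => bb P R).sum := by
    funext P
    simp only [Function.comp, globs_bb_inv h, Multiset.sum_map_neg]
  rw [this, Multiset.sum_map_neg]
  ring

theorem BB_rel_left (h : GC f₀ g) {D D' E : Multiset (Pt (fk f₀))} (hD : Stab D) (hD' : Stab D')
    (hE : Stab E) (e : rel D D') : BB D E = BB D' E := by
  obtain ⟨χ, hχ, e⟩ := e
  have hs : Stab (dv χ) := by rw [e]; exact hD.add hD'.inv
  have h1 := BB_dv_left h hE hχ hs
  rw [e, BB_add_left, BB_inv_left h] at h1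
  linarith

/-- `N ^ 2 (BB D E - BB E D) = BB D' E' - BB E' D'` with `D'`, `E'` reduced. -/
theorem BB_symm (h : GC f₀ g) {D E : Multiset (Pt (fk f₀))} (hD : Stab D) (hE : Stab E) :
    BB D E = BB E D := by
  obtain ⟨c, hc0, hc⟩ := BB_sub h
  rw [← sub_eq_zero]
  apply globs_zero (c := c * D.card * g)
  intro N
  obtain ⟨E', hE', hR, e⟩ := reduce h (hE.nsmul N)
  have h1 := BB_rel_right h hD (hE.nsmul N) hE' e
  have h2 := BB_rel_left h (hE.nsmul N) hE' hD e
  have h3 := hc D E'
  rw [← h1, ← h2, BB_nsmul_right, BB_nsmul_left, ← mul_sub] at h3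
  refine h3.trans ?_
  have h4 : (E'.card : ℝ) ≤ g := by exact_mod_cast hR.1
  exact mul_le_mul_of_nonneg_left h4 (by positivity)

/-- Sum the local inequalities; the terms `log v (Q.x - P.x)` and `log v (f P.x)` vanish by the
product formula. -/
theorem repul (h : GC f₀ g) {P Q : Pt (fk f₀)} (hP : IP P) (hQ : IP Q) (hx : Q.x ≠ P.x)
    (h1 : ∀ p : Nat.Primes, LL (pl (some p)) P Q ≤ 0) (h2 : LL (pl none) P Q < 0) :
    BB {Q} {P} < BB {P} {P} / (2 * g) := by
  have hg : (0 : ℝ) < 2 * g := by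
    have : (1 : ℝ) ≤ g := by exact_mod_cast h.pos
    linarith
  have hd : (((fk f₀).natDegree : ℝ) - 1) = 2 * g := by
    rw [h.crv.deg]; push_cast; ring
  have e1 : ∑ᶠ w, Real.log (pl w (Q.x - P.x)) = 0 :=
    prod_formula' (f₀ := f₀) (sub_ne_zero.2 hx) fun τ => by
      rw [map_sub, (hQ.fixed τ).1, (hP.fixed τ).1]
  have e2 : ∑ᶠ w, Real.log (pl w ((fk f₀).eval P.x)) = 0 :=
    prod_formula' (f₀ := f₀) (by rw [← P.on]; exact pow_ne_zero 2 hP.y_ne) fun τ => by
      rw [← P.on, map_pow, (hP.fixed τ).2]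
  have f1 := sig_fin h Q P
  have f2 := fin_log (Q.x - P.x)
  have f3 := sig_fin h P P
  have f4 := fin_log ((fk f₀).eval P.x)
  let S : Finset (Option Nat.Primes) :=
    insert none (f1.toFinset ∪ f2.toFinset ∪ f3.toFinset ∪ f4.toFinset)
  have s1 : bb Q P = ∑ w ∈ S, sig (pl w) Q P :=
    finsum_eq_sum_of_support_subset _ fun w hw => by simp [S, Function.mem_support.1 hw]
  have s2 := finsum_eq_sum_of_support_subset (s := S) (fun w => Real.log (pl w (Q.x - P.x)))
    fun w hw => by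
      have : w ∈ f2.toFinset := by simpa using hw
      simp only [S, Finset.coe_insert, Finset.coe_union, Set.mem_insert_iff, Set.mem_union,
        Finset.mem_coe, this, true_or, or_true]
  have s3 : bb P P = ∑ w ∈ S, sig (pl w) P P :=
    finsum_eq_sum_of_support_subset _ fun w hw => by simp [S, Function.mem_support.1 hw]
  have s4 := finsum_eq_sum_of_support_subset (s := S)
    (fun w => Real.log (pl w ((fk f₀).eval P.x))) fun w hw => by
      have : w ∈ f4.toFinset := by simpa using hw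
      simp only [S, Finset.coe_insert, Finset.coe_union, Set.mem_insert_iff, Set.mem_union,
        Finset.mem_coe, this, true_or, or_true]
  have hlt : ∑ w ∈ S, LL (pl w) P Q < ∑ _w ∈ S, (0 : ℝ) := by
    apply Finset.sum_lt_sum
    · intro w _
      cases w with
      | none => exact h2.le
      | some p => exact h1 p
    · exact ⟨none, Finset.mem_insert_self _ _, h2⟩
  rw [Finset.sum_const_zero] at hlt
  unfold LL at hlt
  rw [Finset.sum_add_distrib, Finset.sum_add_distrib, Finset.sum_neg_distrib, ← Finset.sum_div,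
    Finset.sum_sub_distrib, ← s1, ← s2, ← s3, ← s4, e1, e2, hd] at hlt
  rw [BB_single, BB_single, mul_div_assoc]
  rw [add_zero, sub_zero] at hlt
  linarith

end Pool.Agent.Lib.MP_830c64_nt
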