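import Pool.Agent.Lib.MP_830c64_nt.GnGen

namespace Pool.Agent.Lib.MP_830c64_nt

open Polynomial
open scoped Classical

variable {k : Type*} [Field k] {v : AbsoluteValue k ℝ} {κ r : ℝ}

theorem gngen2_coeff_bdd (v : AbsoluteValue k ℝ) (p : k[X]) :
    ∃ c : ℝ, ∀ i, v (p.coeff i) ≤ c := by
  refine ⟨∑ i ∈ p.support, v (p.coeff i), fun i => ?_⟩
  by_cases hi : i ∈ p.support
  · exact Finset.single_le_sum (f := fun i => v (p.coeff i)) (fun j _ => v.nonneg _) hi
  · rw [notMem_support_iff.1 hi, map_zero]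
    exact Finset.sum_nonneg fun j _ => v.nonneg _

/-- Take `κ` larger than `2`, `1 / v 2` and the finitely many coefficients. -/
theorem dat_exists [CharZero k] {f : k[X]} (hf : f.Separable) (v : AbsoluteValue k ℝ) :
    ∃ κ, Dat v f κ := by
  obtain ⟨U, V, hUV⟩ := hf
  obtain ⟨cf, hcf⟩ := gngen2_coeff_bdd v f
  obtain ⟨cU, hcU⟩ := gngen2_coeff_bdd v U
  obtain ⟨cV, hcV⟩ := gngen2_coeff_bdd v V
  have h2 : 0 < v 2 := v.pos two_ne_zero
  refine ⟨max (max 2 (v 2)⁻¹) (max cf (max cU cV)), ?_, ?_, ?_, ?_, U, V, hUV, ?_, ?_⟩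
  · exact le_max_of_le_left (le_max_of_le_left (by norm_num))
  · intro a b
    have h1 : v (a + b) ≤ 2 * max (v a) (v b) := by
      have := v.add_le a b
      have := le_max_left (v a) (v b)
      have := le_max_right (v a) (v b)
      linarith
    refine h1.trans (mul_le_mul_of_nonneg_right ?_ (le_max_of_le_left (v.nonneg a)))
    exact le_max_of_le_left (le_max_left _ _)
  · have h1 : (v 2)⁻¹ ≤ max (max 2 (v 2)⁻¹) (max cf (max cU cV)) :=
      le_max_of_le_left (le_max_right _ _)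
    have h3 := mul_le_mul_of_nonneg_right h1 h2.le
    rwa [inv_mul_cancel₀ h2.ne'] at h3
  · exact fun i => le_max_of_le_right (le_max_of_le_left (hcf i))
  · exact fun i => le_max_of_le_right (le_max_of_le_right (le_max_of_le_left (hcU i)))
  · exact fun i => le_max_of_le_right (le_max_of_le_right (le_max_of_le_right (hcV i)))

theorem Dat.isNonarchimedean {f : k[X]} (hd : Dat v f 1) : IsNonarchimedean v := by
  intro a b
  simpa using hd.tri a b

theorem le_of_forall_nat {α β c : ℝ} (N₀ : ℕ) (h : ∀ N : ℕ, N₀ ≤ N → N * α ≤ N * β + c) :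
    α ≤ β := by
  by_contra hlt
  have hpos : 0 < α - β := sub_pos.2 (not_le.1 hlt)
  obtain ⟨M, hM⟩ := exists_nat_gt (c / (α - β))
  have h1 := h (max N₀ M) (le_max_left _ _)
  have h2 : (M : ℝ) ≤ ((max N₀ M : ℕ) : ℝ) := by exact_mod_cast le_max_right _ _
  rw [div_lt_iff₀ hpos] at hM
  nlinarith

/-- Homogenisation of a quasi-additive function: `τ a` is the limit of `u (2 ^ j • a) / 2 ^ j`. -/
theorem hyers {M : Type*} [AddCommMonoid M] (u : M → ℝ) (c : ℝ)
    (hu : ∀ a b, |u (a + b) - u a - u b| ≤ c) : ∃ τ : M →+ ℝ, ∀ a, |τ a - u a| ≤ c := by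
  set s : M → ℕ → ℝ := fun a n => u (2 ^ n • a) / 2 ^ n with hs
  have hstep : ∀ a n, dist (s a n) (s a (n + 1)) ≤ c / 2 / 2 ^ n := by
    intro a n
    have h1 := hu (2 ^ n • a) (2 ^ n • a)
    have h2 : (2 ^ n • a + 2 ^ n • a : M) = 2 ^ (n + 1) • a := by
      rw [pow_succ, mul_two, add_nsmul]
    rw [h2] at h1
    have hp : (0 : ℝ) < 2 ^ n := by positivity
    have h3 : s a n - s a (n + 1) =
        -(u (2 ^ (n + 1) • a) - u (2 ^ n • a) - u (2 ^ n • a)) / 2 / 2 ^ n := by
      simp only [hs]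
      field_simp
      ring
    rw [Real.dist_eq, h3, abs_div, abs_div, abs_neg, abs_of_pos hp, abs_two]
    gcongr
  have hlim : ∀ a, ∃ l, Filter.Tendsto (s a) Filter.atTop (nhds l) := fun a =>
    cauchySeq_tendsto_of_complete (cauchySeq_of_le_geometric_two (hstep a))
  choose τ hτ using hlim
  have hadd : ∀ a b, τ (a + b) = τ a + τ b := by
    intro a b
    have h1 : Filter.Tendsto (fun n => s (a + b) n - s a n - s b n) Filter.atTop
        (nhds (τ (a + b) - τ a - τ b)) := ((hτ (a + b)).sub (hτ a)).sub (hτ b)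
    have h2 : Filter.Tendsto (fun n => s (a + b) n - s a n - s b n) Filter.atTop (nhds 0) := by
      have h3 : Filter.Tendsto (fun n : ℕ => c / 2 ^ n) Filter.atTop (nhds 0) :=
        tendsto_const_nhds.div_atTop (tendsto_pow_atTop_atTop_of_one_lt one_lt_two)
      refine squeeze_zero_norm (fun n => ?_) h3
      have hp : (0 : ℝ) < 2 ^ n := by positivity
      have h4 : s (a + b) n - s a n - s b n =
          (u (2 ^ n • a + 2 ^ n • b) - u (2 ^ n • a) - u (2 ^ n • b)) / 2 ^ n := by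
        simp only [hs, nsmul_add]
        field_simp
      rw [Real.norm_eq_abs, h4, abs_div, abs_of_pos hp]
      gcongr
      exact hu _ _
    have := tendsto_nhds_unique h1 h2
    linarith
  refine ⟨AddMonoidHom.mk' τ hadd, fun a => ?_⟩
  have h1 := dist_le_of_le_geometric_two_of_tendsto₀ (hstep a) (hτ a)
  rw [Real.dist_eq, abs_sub_comm] at h1
  simpa [hs] using h1

end Pool.Agent.Lib.MP_830c64_nt
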