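import Pool.Agent.Lib.MP_830c64_nt.CvRem
import Pool.Agent.Lib.MP_830c64_nt.GnGen2

namespace Pool.Agent.Lib.MP_830c64_nt

open Polynomial
open scoped Classical

variable {k : Type*} [Field k] [CharZero k] [IsAlgClosed k] {f : k[X]} {g : ℕ}
  {v : AbsoluteValue k ℝ} {κ : ℝ}

theorem nuG_nonneg {r : ℝ} (hr : 0 ≤ r) (φ : CR f) : 0 ≤ nuG v r φ := by
  exact le_max_of_le_left (φ.re.gaussNorm_nonneg v hr)

theorem y_le (h : Crv f g) (hd : Dat v f κ) :
    ∃ m : ℕ, ∀ R : Pt f, v R.y ≤ κ ^ m * √(max 1 (v R.x) ^ (2 * g + 1)) := by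
  refine ⟨2 * g + 3, fun R => ?_⟩
  have h1 := hd.one_le
  have hr : (1 : ℝ) ≤ max 1 (v R.x) := le_max_left _ _
  have h2 := v_eval_le h1 hd.tri f (le_max_right 1 (v R.x))
  have h3 := gn_le_of_coeff hr f hd.cf
  rw [← R.on, map_pow, h.deg] at h2
  rw [h.deg] at h3
  refine (sq_le_sq₀ (v.nonneg _) (by positivity)).1 ?_
  rw [mul_pow, Real.sq_sqrt (by positivity)]
  calc _ ≤ κ ^ (2 * g + 1 + 1) * (κ * max 1 (v R.x) ^ (2 * g + 1)) :=
        h2.trans (mul_le_mul_of_nonneg_left h3 (by positivity))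
    _ = κ ^ (2 * g + 3) * max 1 (v R.x) ^ (2 * g + 1) := by ring
    _ ≤ _ := mul_le_mul_of_nonneg_right (le_self_pow₀ (one_le_pow₀ h1) two_ne_zero) (by positivity)

theorem nuG_ev (h : Crv f g) (hd : Dat v f κ) (M : ℕ) :
    ∃ m : ℕ, ∀ (P : Pt f) (φ : CR f), wt φ ≤ M →
      v (ev P φ) ≤ κ ^ m * nuG v (max 1 (v P.x)) φ := by
  obtain ⟨m, hm⟩ := y_le h hd
  refine ⟨M + 1 + m + 1, fun P φ hφ => ?_⟩
  have h1 := hd.one_le
  have hr : (0 : ℝ) ≤ max 1 (v P.x) := by positivity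
  have hν := nuG_nonneg (v := v) hr φ
  have a1 := v_eval_le h1 hd.tri φ.re (le_max_right 1 (v P.x))
  have a2 := v_eval_le h1 hd.tri φ.im (le_max_right 1 (v P.x))
  have d1 := wt_re h φ
  have d2 := wt_im' h φ
  have g1 := φ.re.gaussNorm_nonneg v hr
  have g2 := φ.im.gaussNorm_nonneg v hr
  have n1 : φ.re.gaussNorm v (max 1 (v P.x)) ≤ nuG v (max 1 (v P.x)) φ := le_max_left _ _
  have n2 : √(max 1 (v P.x) ^ (2 * g + 1)) * φ.im.gaussNorm v (max 1 (v P.x)) ≤
      nuG v (max 1 (v P.x)) φ := h.deg ▸ le_max_right _ _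
  rw [ev_def, pow_succ', mul_assoc]
  refine (hd.tri _ _).trans (mul_le_mul_of_nonneg_left (max_le ?_ ?_) (by positivity))
  · exact a1.trans (mul_le_mul (pow_le_pow_right₀ h1 (by omega)) n1 g1 (by positivity))
  · rw [map_mul]
    calc _ ≤ κ ^ (M + 1) * φ.im.gaussNorm v (max 1 (v P.x)) *
          (κ ^ m * √(max 1 (v P.x) ^ (2 * g + 1))) :=
          mul_le_mul (a2.trans (mul_le_mul_of_nonneg_right (pow_le_pow_right₀ h1 (by omega)) g2))
            (hm P) (v.nonneg _) (by positivity)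
      _ = κ ^ (M + 1 + m) *
          (√(max 1 (v P.x) ^ (2 * g + 1)) * φ.im.gaussNorm v (max 1 (v P.x))) := by ring
      _ ≤ _ := mul_le_mul_of_nonneg_left n2 (by positivity)

theorem gnaniso_div (hd : Dat v f κ) {r t w ν : ℝ} (hr : 0 < r) (ht : 0 ≤ t) {a : k}
    {p q : k[X]} (e : (X - C a) * p = q) {N j : ℕ} (hN : q.natDegree ≤ N)
    (hq : t * q.gaussNorm v r ≤ κ ^ j * (w * max r (v a) * ν)) :
    t * p.gaussNorm v r ≤ κ ^ (N + 2 + j) * w * ν := by
  have h1 := hd.one_le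
  have hH : 0 < max r (v a) := lt_max_of_lt_left hr
  have h2 : p.natDegree ≤ N := by
    by_cases hp : p = 0
    · simp [hp]
    · rw [← e, natDegree_mul (X_sub_C_ne_zero a) hp] at hN
      omega
  have h3 := gn_div_le h1 hd.tri hr a p
  rw [e] at h3
  refine le_of_mul_le_mul_right ?_ hH
  calc _ = t * (p.gaussNorm v r * max r (v a)) := by ring
    _ ≤ t * (κ ^ (N + 2) * q.gaussNorm v r) :=
        mul_le_mul_of_nonneg_left (h3.trans (mul_le_mul_of_nonneg_right
          (pow_le_pow_right₀ h1 (by omega)) (q.gaussNorm_nonneg v hr.le))) ht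
    _ = κ ^ (N + 2) * (t * q.gaussNorm v r) := by ring
    _ ≤ κ ^ (N + 2) * (κ ^ j * (w * max r (v a) * ν)) :=
        mul_le_mul_of_nonneg_left hq (by positivity)
    _ = _ := by ring

/-- `ψ * (y + c) = (c A + f B) + (A + c B) y`; bound both components, then divide with
`gn_div_le`; `max r (v R.x) = Hh v P R` and `ww_mul_Hh`. The degrees of the components of `ψ'` are
bounded by those of `ψ * (y + c)`. -/
theorem nuG_rm (h : Crv f g) (hd : Dat v f κ) (M : ℕ) :
    ∃ m : ℕ, ∀ (P R : Pt f) (ψ ψ' : CR f), wt ψ ≤ M →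
      pol f (X - C R.x) * ψ' = ψ * yy f (C R.y) →
      nuG v (max 1 (v P.x)) ψ' ≤ κ ^ m * ww v P R * nuG v (max 1 (v P.x)) ψ := by
  obtain ⟨m, hm⟩ := y_le h hd
  refine ⟨2 * g + 1 + M + 2 + (m + (2 * g + 1) + M + 2 + 1), fun P R ψ ψ' hψ e => ?_⟩
  have h1 := hd.one_le
  have hH : Hh v P R = max (max 1 (v P.x)) (v R.x) := (max_assoc _ _ _).symm
  have hS := ww_mul_Hh (v := v) h P R
  have hc := hm R
  have hc' : √(max 1 (v R.x) ^ (2 * g + 1)) ≤ ww v P R * Hh v P R := by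
    rw [hS]
    refine Real.sqrt_le_sqrt (pow_le_pow_left₀ (by positivity) ?_ _)
    exact max_le_max le_rfl (le_max_right _ _)
  have hs : √(max 1 (v P.x) ^ (2 * g + 1)) ≤ ww v P R * Hh v P R := by
    rw [hS, hH]
    exact Real.sqrt_le_sqrt (pow_le_pow_left₀ (by positivity) (le_max_left _ _) _)
  have e1 := congrArg QuadraticAlgebra.re e
  have e2 := congrArg QuadraticAlgebra.im e
  rw [pol_mul_re, mul_yy_re, mul_comm ψ.re] at e1
  rw [pol_mul_im, mul_yy_im, mul_comm ψ.im] at e2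
  have d1 := wt_re h ψ
  have d2 := wt_im' h ψ
  have hr1 : (1 : ℝ) ≤ max 1 (v P.x) := le_max_left _ _
  have n1 : ψ.re.gaussNorm v (max 1 (v P.x)) ≤ nuG v (max 1 (v P.x)) ψ := le_max_left _ _
  have n2 : √(max 1 (v P.x) ^ (2 * g + 1)) * ψ.im.gaussNorm v (max 1 (v P.x)) ≤
      nuG v (max 1 (v P.x)) ψ := h.deg ▸ le_max_right _ _
  rw [hH] at hc' hs
  rw [nuG, h.deg]
  generalize max 1 (v P.x) = r at *
  have hr : 0 < r := by linarith
  have hν := nuG_nonneg (v := v) hr.le ψ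
  have g1 := ψ.re.gaussNorm_nonneg v hr.le
  have g2 := ψ.im.gaussNorm_nonneg v hr.le
  have hs0 := Real.sqrt_nonneg (r ^ (2 * g + 1))
  have hss := Real.mul_self_sqrt (pow_nonneg hr.le (2 * g + 1))
  have hS0 := hs0.trans hs
  have hy : v R.y ≤ κ ^ (m + (2 * g + 1) + M + 2) * (ww v P R * max r (v R.x)) :=
    hc.trans (mul_le_mul (pow_le_pow_right₀ h1 (by omega)) hc' (Real.sqrt_nonneg _)
      (by positivity))
  refine max_le ?_ ?_
  · rw [← one_mul (ψ'.re.gaussNorm v r)]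
    refine gnaniso_div hd hr zero_le_one e1 ((natDegree_add_le _ _).trans (max_le
      ((natDegree_C_mul_le _ _).trans (by omega)) (natDegree_mul_le.trans ?_))) ?_
    · rw [h.deg]
      omega
    rw [one_mul, pow_succ', mul_assoc]
    refine (gn_add_le h1 hd.tri hr.le _ _).trans
      (mul_le_mul_of_nonneg_left (max_le ?_ ?_) (by positivity))
    · rw [gn_C_mul hr.le, ← mul_assoc]
      exact mul_le_mul hy n1 g1 (by positivity)
    · have a1 := gn_mul_le h1 hd.tri hr.le f ψ.im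
      have a2 := gn_le_of_coeff hr1 f hd.cf
      rw [h.deg] at a1 a2
      calc _ ≤ κ ^ (m + (2 * g + 1) + M + 1) * (κ * r ^ (2 * g + 1) * ψ.im.gaussNorm v r) :=
            a1.trans (mul_le_mul (pow_le_pow_right₀ h1 (by omega))
              (mul_le_mul_of_nonneg_right a2 g2)
              (mul_nonneg (f.gaussNorm_nonneg v hr.le) g2) (by positivity))
        _ = κ ^ (m + (2 * g + 1) + M + 2) *
            (√(r ^ (2 * g + 1)) * (√(r ^ (2 * g + 1)) * ψ.im.gaussNorm v r)) := by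
            rw [← mul_assoc (√_), hss]
            ring
        _ ≤ _ := mul_le_mul_of_nonneg_left (mul_le_mul hs n2 (by positivity) hS0) (by positivity)
  · refine gnaniso_div hd hr hs0 e2 ((natDegree_add_le _ _).trans (max_le (by omega)
      ((natDegree_C_mul_le _ _).trans (by omega)))) ?_
    refine (mul_le_mul_of_nonneg_left (gn_add_le h1 hd.tri hr.le _ _) hs0).trans ?_
    rw [mul_left_comm, pow_succ' κ, mul_assoc κ, mul_max_of_nonneg _ _ hs0]
    refine mul_le_mul_of_nonneg_left (max_le ?_ ?_) (by positivity)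
    · exact (mul_le_mul hs n1 g1 hS0).trans
        (le_mul_of_one_le_left (by positivity) (one_le_pow₀ h1))
    · rw [gn_C_mul hr.le, mul_left_comm, ← mul_assoc (κ ^ _)]
      exact mul_le_mul hy n2 (by positivity) (by positivity)

end Pool.Agent.Lib.MP_830c64_nt
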