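import Pool.Agent.Lib.MP_830c64_nt.GnAniso

namespace Pool.Agent.Lib.MP_830c64_nt

open Polynomial
open scoped Classical

variable {k : Type*} [Field k] [CharZero k] [IsAlgClosed k] {f : k[X]} {g : ℕ}
  {v : AbsoluteValue k ℝ} {κ : ℝ}

theorem gnaniso2_bil (hd : Dat v f κ) {M : ℕ} {r : ℝ} (hr : 1 ≤ r) {φ ψ : CR f}
    (a1 : φ.re.natDegree ≤ M) (a2 : φ.im.natDegree ≤ M) (b1 : ψ.re.natDegree ≤ M)
    (b2 : ψ.im.natDegree ≤ M) : (φ.re * ψ.re - f * (φ.im * ψ.im)).gaussNorm v r ≤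
      κ ^ (f.natDegree + 4 * M + 4) * (nuG v r φ * nuG v r ψ) := by
  have h1 := hd.one_le
  have hr0 : 0 ≤ r := zero_le_one.trans hr
  have hκ : 0 ≤ κ := zero_le_one.trans h1
  have n1 := nuG_nonneg (v := v) hr0 φ
  have n2 := nuG_nonneg (v := v) hr0 ψ
  have g0 := fun p : k[X] => p.gaussNorm_nonneg v hr0
  rw [show f.natDegree + 4 * M + 4 = 1 + (f.natDegree + 4 * M + 3) by ring, pow_add, pow_one,
    mul_assoc]
  refine (gn_sub_le h1 hd.tri hr0 _ _).trans (mul_le_mul_of_nonneg_left (max_le ?_ ?_) hκ)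
  · refine (gn_mul_le h1 hd.tri hr0 _ _).trans (mul_le_mul (pow_le_pow_right₀ h1 (by omega))
      (mul_le_mul (le_max_left _ _) (le_max_left _ _) (g0 _) n1) (mul_nonneg (g0 _) (g0 _))
      (by positivity))
  · have e1 := gn_mul_le h1 hd.tri hr0 f (φ.im * ψ.im)
    have e2 := gn_mul_le h1 hd.tri hr0 φ.im ψ.im
    have e3 := gn_le_of_coeff hr f hd.cf
    have e4 := natDegree_mul_le (p := φ.im) (q := ψ.im)
    have e5 : √(r ^ f.natDegree) * √(r ^ f.natDegree) = r ^ f.natDegree :=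
      Real.mul_self_sqrt (by positivity)
    have := g0 φ.im
    have := g0 ψ.im
    have := g0 (φ.im * ψ.im)
    calc _ ≤ κ ^ (f.natDegree + 2 * M + 1) * (κ * r ^ f.natDegree *
          (κ ^ (2 * M + 1) * (φ.im.gaussNorm v r * ψ.im.gaussNorm v r))) := by
          refine e1.trans (mul_le_mul (pow_le_pow_right₀ h1 (by omega)) (mul_le_mul e3
            (e2.trans (mul_le_mul_of_nonneg_right (pow_le_pow_right₀ h1 (by omega))
              (by positivity))) (g0 _) (by positivity)) (mul_nonneg (g0 _) (g0 _)) (by positivity))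
      _ = κ ^ (f.natDegree + 4 * M + 3) * (√(r ^ f.natDegree) * φ.im.gaussNorm v r *
          (√(r ^ f.natDegree) * ψ.im.gaussNorm v r)) := by
          rw [mul_mul_mul_comm √(r ^ f.natDegree), e5]; ring
      _ ≤ _ := mul_le_mul_of_nonneg_left
          (mul_le_mul (le_max_right _ _) (le_max_right _ _) (by positivity) n1) (by positivity)

theorem gnaniso2_top (h : Crv f g) {r : ℝ} (hr : 0 ≤ r) {φ : CR f} (hφ : φ ≠ 0) :
    ∃ ψ τ : CR f, φ.re = ψ.re + τ.re ∧ φ.im = ψ.im + τ.im ∧ (ψ = 0 ∨ wt ψ < wt φ) ∧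
      τ.re.natDegree ≤ φ.re.natDegree ∧ τ.im.natDegree ≤ φ.im.natDegree ∧
      nuG v r τ ^ 2 ≤ (nm φ).gaussNorm v r := by
  have hN := (nm φ).le_gaussNorm v hr (wt φ)
  rw [show (nm φ).coeff (wt φ) = (nm φ).leadingCoeff from rfl] at hN
  rcases top_term h hφ with ⟨-, h2, h3, h4⟩ | ⟨-, h2, h3, h4⟩
  · refine ⟨⟨φ.re.eraseLead, φ.im⟩, ⟨monomial φ.re.natDegree φ.re.leadingCoeff, 0⟩,
      (eraseLead_add_monomial_natDegree_leadingCoeff _).symm, (add_zero _).symm, ?_,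
      natDegree_monomial_le _, Nat.zero_le _, ?_⟩
    · have h5 := φ.re.eraseLead_natDegree_lt_or_eraseLead_eq_zero
      rcases Nat.eq_zero_or_pos (wt φ) with h0 | h0
      · exact Or.inl (QuadraticAlgebra.ext (h5.resolve_left (by omega)) (h4.resolve_right (by omega)))
      · refine Or.inr (lt_of_le_of_lt (wt_le h (m := wt φ - 1) ?_ (h4.imp id fun h6 => ?_)) (by omega))
        · rcases h5 with h5 | h5
          · dsimp only
            omega
          · simp [h5]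
        · dsimp only
          omega
    · rw [h3, h2, map_pow, mul_comm 2, pow_mul, ← mul_pow] at hN
      rwa [nuG, gaussNorm_monomial, gaussNorm_zero, mul_zero, max_eq_left (by positivity)]
  · refine ⟨⟨φ.re, φ.im.eraseLead⟩, ⟨0, monomial φ.im.natDegree φ.im.leadingCoeff⟩,
      (add_zero _).symm, (eraseLead_add_monomial_natDegree_leadingCoeff _).symm, ?_,
      Nat.zero_le _, natDegree_monomial_le _, ?_⟩
    · refine Or.inr (lt_of_le_of_lt (wt_le h (m := wt φ - 1) ?_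
        (φ.im.eraseLead_natDegree_lt_or_eraseLead_eq_zero.symm.imp id fun h6 => ?_)) (by omega))
      · dsimp only
        omega
      · dsimp only
        omega
    · rw [h3, h2, v.map_neg, map_pow, ← h.deg] at hN
      rw [nuG, gaussNorm_monomial, gaussNorm_zero, max_eq_right (by positivity), mul_pow,
        Real.sq_sqrt (by positivity)]
      refine le_of_eq_of_le ?_ hN
      ring

theorem gnaniso2_ind (h : Crv f g) (hd : Dat v f κ) (M : ℕ) :
    ∃ m : ℕ, ∀ r : ℝ, 1 ≤ r → ∀ φ : CR f, φ = 0 ∨ wt φ < M →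
      nuG v r φ ^ 2 ≤ κ ^ m * (nm φ).gaussNorm v r := by
  have h1 := hd.one_le
  have hκ : 0 ≤ κ := zero_le_one.trans h1
  have z : ∀ (m : ℕ) (r : ℝ), 1 ≤ r →
      nuG v r (0 : CR f) ^ 2 ≤ κ ^ m * (nm (0 : CR f)).gaussNorm v r := fun m r hr => by
    have := (nm (0 : CR f)).gaussNorm_nonneg v (zero_le_one.trans hr)
    simp only [nuG, QuadraticAlgebra.re_zero, QuadraticAlgebra.im_zero, gaussNorm_zero, mul_zero,
      max_self, ne_eq, OfNat.ofNat_ne_zero, not_false_eq_true, zero_pow]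
    positivity
  induction M with
  | zero => exact ⟨0, fun r hr φ hφ => by rw [hφ.resolve_right (by omega)]; exact z 0 r hr⟩
  | succ M ih =>
  obtain ⟨m, hm⟩ := ih
  obtain ⟨a, ha⟩ : ∃ a, a = f.natDegree + 4 * M + 4 := ⟨_, rfl⟩
  refine ⟨(m + a + 5) * 2, fun r hr φ hφ => ?_⟩
  by_cases h0 : φ = 0
  · rw [h0]; exact z _ r hr
  have hr0 : 0 ≤ r := zero_le_one.trans hr
  have hw := hφ.resolve_left h0
  obtain ⟨ψ, τ, e1, e2, e3, e4, e5, e6⟩ := gnaniso2_top (v := v) h hr0 h0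
  have d1 : φ.re.natDegree ≤ M := by have := wt_re h φ; omega
  have d2 : φ.im.natDegree ≤ M := by have := wt_im' h φ; omega
  have b1 := gnaniso2_bil hd hr d1 d2 (e4.trans d1) (e5.trans d2)
  have b2 := gnaniso2_bil hd hr (e4.trans d1) (e5.trans d2) (e4.trans d1) (e5.trans d2)
  have i1 := hm r hr ψ (e3.imp id fun e => by omega)
  have n1 := nuG_nonneg (v := v) hr0 φ
  have n2 := nuG_nonneg (v := v) hr0 ψ
  have n3 := nuG_nonneg (v := v) hr0 τ
  obtain ⟨s, hs0, hs⟩ : ∃ s, 0 ≤ s ∧ (nm φ).gaussNorm v r = s ^ 2 :=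
    ⟨_, Real.sqrt_nonneg _, (Real.sq_sqrt ((nm φ).gaussNorm_nonneg v hr0)).symm⟩
  rw [hs] at e6 ⊢
  rw [← ha] at b1 b2
  have hτ : nuG v r τ ≤ s := (pow_le_pow_iff_left₀ n3 hs0 two_ne_zero).1 e6
  have k1 : ∀ j : ℕ, 1 ≤ κ ^ j := fun j => one_le_pow₀ h1
  rcases le_total (nuG v r φ) s with h2 | h2
  · exact (pow_le_pow_left₀ n1 h2 2).trans (le_mul_of_one_le_left (sq_nonneg s) (k1 _))
  obtain ⟨B, hB⟩ : ∃ B, B = κ ^ a * (nuG v r φ * s) := ⟨_, rfl⟩
  have hB0 : 0 ≤ B := by rw [hB]; positivity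
  have c0 : s ^ 2 ≤ B := by
    rw [hB, sq]
    exact le_trans (by gcongr) (le_mul_of_one_le_left (by positivity) (k1 a))
  replace b1 := b1.trans (show _ ≤ B by rw [hB]; gcongr)
  replace b2 := b2.trans (show _ ≤ B by rw [hB]; gcongr; exact hτ.trans h2)
  have up : ∀ j : ℕ, B ≤ κ ^ j * B := fun j => le_mul_of_one_le_left hB0 (k1 j)
  have c1 : (nm ψ).gaussNorm v r ≤ κ ^ 3 * B := by
    have e : nm ψ = nm φ - (φ.re * τ.re - f * (φ.im * τ.im)) - (φ.re * τ.re - f * (φ.im * τ.im)) +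
        (τ.re * τ.re - f * (τ.im * τ.im)) := by
      rw [nm_def, nm_def, e1, e2]; ring
    have c2 := (gn_sub_le h1 hd.tri hr0 (nm φ) _).trans
      (mul_le_mul_of_nonneg_left (max_le (hs.trans_le c0) b1) hκ)
    have c3 := (gn_sub_le h1 hd.tri hr0 _ _).trans (mul_le_mul_of_nonneg_left
      (max_le c2 (b1.trans (le_mul_of_one_le_left hB0 h1))) hκ)
    rw [← mul_assoc κ, ← sq] at c3
    rw [e, pow_succ', mul_assoc]
    exact (gn_add_le h1 hd.tri hr0 _ _).trans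
      (mul_le_mul_of_nonneg_left (max_le c3 (b2.trans (up 2))) hκ)
  have c4 : nuG v r φ ≤ κ * max (nuG v r ψ) (nuG v r τ) := by
    refine max_le ?_ ?_
    · rw [e1]
      exact (gn_add_le h1 hd.tri hr0 _ _).trans (mul_le_mul_of_nonneg_left
        (max_le_max (le_max_left _ _) (le_max_left _ _)) hκ)
    · rw [e2]
      refine (mul_le_mul_of_nonneg_left (gn_add_le h1 hd.tri hr0 _ _) (Real.sqrt_nonneg _)).trans ?_
      rw [mul_left_comm, mul_max_of_nonneg _ _ (Real.sqrt_nonneg _)]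
      exact mul_le_mul_of_nonneg_left (max_le_max (le_max_right _ _) (le_max_right _ _)) hκ
  have c5 : max (nuG v r ψ) (nuG v r τ) ^ 2 ≤ κ ^ (m + 3) * B := by
    rcases le_total (nuG v r ψ) (nuG v r τ) with h3 | h3
    · rw [max_eq_right h3]
      exact (e6.trans c0).trans (up _)
    · rw [max_eq_left h3, pow_add, mul_assoc]
      exact i1.trans (by gcongr)
  have c6 : nuG v r φ * nuG v r φ ≤ nuG v r φ * (κ ^ (m + a + 5) * s) :=
    calc _ = nuG v r φ ^ 2 := (sq _).symm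
      _ ≤ κ ^ 2 * (κ ^ (m + 3) * B) := by
        refine (pow_le_pow_left₀ n1 c4 2).trans ?_
        rw [mul_pow]
        gcongr
      _ = _ := by rw [hB]; ring
  rw [pow_mul, ← mul_pow]
  rcases n1.eq_or_lt with h3 | h3
  · rw [← h3, zero_pow two_ne_zero]
    positivity
  · exact pow_le_pow_left₀ n1 (le_of_mul_le_mul_left c6 h3) 2

/-- Anisotropy of the norm form. Induction on `M`. Let `τ` be the top monomial of `φ` (`top_term`),
`N` the Gauss norm of `nm φ`, `ν = nuG v r φ`. Then `nuG τ ^ 2 ≤ N` (leading coefficient of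
`nm φ`), `φ₁ = φ - τ` is zero or has smaller `wt`, and
`nm φ₁ = nm φ - 2 (A τ.re - f B τ.im) + nm τ` has Gauss norm `≤ κ ^ a * max N (ν * √N)`. Hence
`ν ^ 2 ≤ κ ^ b * max N (ν * √N)`, so `ν ≤ κ ^ b * √N`. -/
theorem aniso (h : Crv f g) (hd : Dat v f κ) (M : ℕ) :
    ∃ m : ℕ, ∀ r : ℝ, 1 ≤ r → ∀ φ : CR f, wt φ ≤ M →
      nuG v r φ ^ 2 ≤ κ ^ m * (nm φ).gaussNorm v r := by
  obtain ⟨m, hm⟩ := gnaniso2_ind h hd (M + 1)
  exact ⟨m, fun r hr φ hφ => hm r hr φ (Or.inr (Nat.lt_succ_of_le hφ))⟩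

end Pool.Agent.Lib.MP_830c64_nt
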