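import Pool.Agent.Lib.MP_830c64_nt.Defs

namespace Pool.Agent.Lib.MP_830c64_nt

open Polynomial
open scoped Classical

variable {k : Type*} [Field k] {v : AbsoluteValue k ℝ} {κ r : ℝ}

theorem v_sub_le (ht : ∀ a b, v (a + b) ≤ κ * max (v a) (v b)) (a b : k) :
    v (a - b) ≤ κ * max (v a) (v b) := by
  have h := ht a (-b)
  rwa [← sub_eq_add_neg, v.map_neg] at h

theorem gngen_add (h1 : 1 ≤ κ) (ht : ∀ a b, v (a + b) ≤ κ * max (v a) (v b)) {a b : k} {t B : ℝ}
    (h0 : 0 ≤ t) (ha : v a * t ≤ B) (hb : v b * t ≤ B) : v (a + b) * t ≤ κ * B := by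
  refine (mul_le_mul_of_nonneg_right (ht a b) h0).trans ?_
  rw [mul_assoc, max_mul_of_nonneg _ _ h0]
  exact mul_le_mul_of_nonneg_left (max_le ha hb) (zero_le_one.trans h1)

theorem gngen_sum (h1 : 1 ≤ κ) (ht : ∀ a b, v (a + b) ≤ κ * max (v a) (v b)) {ι : Type*}
    (s : Finset ι) (a : ι → k) {t B : ℝ} (h0 : 0 ≤ t) (hB : 0 ≤ B)
    (ha : ∀ i ∈ s, v (a i) * t ≤ B) : v (∑ i ∈ s, a i) * t ≤ κ ^ s.card * B := by
  induction s using Finset.induction_on with
  | empty => simpa using hB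
  | insert i s hi ih =>
    rw [Finset.sum_insert hi, Finset.card_insert_of_notMem hi, pow_succ', mul_assoc]
    exact gngen_add h1 ht h0 ((ha i (Finset.mem_insert_self _ _)).trans
      (le_mul_of_one_le_left hB (one_le_pow₀ h1)))
      (ih fun j hj => ha j (Finset.mem_insert_of_mem hj))

theorem v_sum_le (h1 : 1 ≤ κ) (ht : ∀ a b, v (a + b) ≤ κ * max (v a) (v b)) {ι : Type*}
    (s : Finset ι) (a : ι → k) {B : ℝ} (hB : 0 ≤ B) (ha : ∀ i ∈ s, v (a i) ≤ B) :
    v (∑ i ∈ s, a i) ≤ κ ^ s.card * B := by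
  simpa using gngen_sum h1 ht s a zero_le_one hB (by simpa using ha)

theorem v_nat_le (h1 : 1 ≤ κ) (ht : ∀ a b, v (a + b) ≤ κ * max (v a) (v b)) (m : ℕ) :
    v (m : k) ≤ κ ^ m := by
  simpa using v_sum_le h1 ht (Finset.range m) (fun _ => (1 : k)) zero_le_one (by simp)

theorem gn_le (p : k[X]) {B : ℝ} (hB : 0 ≤ B) (hp : ∀ i, v (p.coeff i) * r ^ i ≤ B) :
    p.gaussNorm v r ≤ B := by
  obtain ⟨i, hi⟩ := p.exists_eq_gaussNorm v r
  exact hi ▸ hp i

theorem gn_neg (p : k[X]) : (-p).gaussNorm v r = p.gaussNorm v r := by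
  simp only [gaussNorm, support_neg, coeff_neg, v.map_neg]

theorem gn_C_mul (hr : 0 ≤ r) (c : k) (p : k[X]) :
    (C c * p).gaussNorm v r = v c * p.gaussNorm v r := by
  refine le_antisymm (gn_le _ (mul_nonneg (v.nonneg c) (p.gaussNorm_nonneg v hr)) fun i => ?_) ?_
  · rw [coeff_C_mul, map_mul, mul_assoc]
    exact mul_le_mul_of_nonneg_left (p.le_gaussNorm v hr i) (v.nonneg c)
  · obtain ⟨i, hi⟩ := p.exists_eq_gaussNorm v r
    rw [hi, ← mul_assoc, ← map_mul, ← coeff_C_mul]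
    exact le_gaussNorm v _ hr i

theorem gn_add_le (h1 : 1 ≤ κ) (ht : ∀ a b, v (a + b) ≤ κ * max (v a) (v b)) (hr : 0 ≤ r)
    (p q : k[X]) : (p + q).gaussNorm v r ≤ κ * max (p.gaussNorm v r) (q.gaussNorm v r) := by
  have h0 : 0 ≤ κ := zero_le_one.trans h1
  refine gn_le _ (mul_nonneg h0 (le_max_of_le_left (p.gaussNorm_nonneg v hr))) fun i => ?_
  rw [coeff_add]
  exact gngen_add h1 ht (pow_nonneg hr i) (le_max_of_le_left (p.le_gaussNorm v hr i))
    (le_max_of_le_right (q.le_gaussNorm v hr i))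

theorem gn_sub_le (h1 : 1 ≤ κ) (ht : ∀ a b, v (a + b) ≤ κ * max (v a) (v b)) (hr : 0 ≤ r)
    (p q : k[X]) : (p - q).gaussNorm v r ≤ κ * max (p.gaussNorm v r) (q.gaussNorm v r) := by
  have h := gn_add_le h1 ht hr p (-q)
  rwa [← sub_eq_add_neg, gn_neg] at h

theorem gn_mul_le (h1 : 1 ≤ κ) (ht : ∀ a b, v (a + b) ≤ κ * max (v a) (v b)) (hr : 0 ≤ r)
    (p q : k[X]) : (p * q).gaussNorm v r ≤
      κ ^ (p.natDegree + q.natDegree + 1) * (p.gaussNorm v r * q.gaussNorm v r) := by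
  have h0 : 0 ≤ κ := zero_le_one.trans h1
  have h2 := mul_nonneg (p.gaussNorm_nonneg v hr) (q.gaussNorm_nonneg v hr)
  refine gn_le _ (mul_nonneg (pow_nonneg h0 _) h2) fun n => ?_
  by_cases hn : n ≤ p.natDegree + q.natDegree
  · rw [coeff_mul]
    refine (gngen_sum h1 ht _ _ (pow_nonneg hr n) h2 fun x hx => ?_).trans ?_
    · rw [← Finset.HasAntidiagonal.mem_antidiagonal.1 hx, map_mul, pow_add, mul_mul_mul_comm]
      exact mul_le_mul (p.le_gaussNorm v hr _) (q.le_gaussNorm v hr _)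
        (mul_nonneg (v.nonneg _) (pow_nonneg hr _)) (p.gaussNorm_nonneg v hr)
    · rw [Finset.Nat.card_antidiagonal]
      exact mul_le_mul_of_nonneg_right (pow_le_pow_right₀ h1 (by omega)) h2
  · rw [coeff_eq_zero_of_natDegree_lt (natDegree_mul_le.trans_lt (not_le.1 hn)), map_zero, zero_mul]
    exact mul_nonneg (pow_nonneg h0 _) h2

theorem gn_le_of_coeff (hr : 1 ≤ r) (p : k[X]) {c : ℝ} (hc : ∀ i, v (p.coeff i) ≤ c) :
    p.gaussNorm v r ≤ c * r ^ p.natDegree := by
  have h0 : 0 ≤ r := zero_le_one.trans hr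
  have h2 : 0 ≤ c := (v.nonneg _).trans (hc 0)
  refine gn_le _ (mul_nonneg h2 (pow_nonneg h0 _)) fun i => ?_
  by_cases hi : i ≤ p.natDegree
  · exact mul_le_mul (hc i) (pow_le_pow_right₀ hr hi) (pow_nonneg h0 _) h2
  · rw [coeff_eq_zero_of_natDegree_lt (not_le.1 hi), map_zero, zero_mul]
    exact mul_nonneg h2 (pow_nonneg h0 _)

theorem v_eval_le (h1 : 1 ≤ κ) (ht : ∀ a b, v (a + b) ≤ κ * max (v a) (v b)) (p : k[X]) {z : k}
    (hz : v z ≤ r) : v (p.eval z) ≤ κ ^ (p.natDegree + 1) * p.gaussNorm v r := by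
  have hr : 0 ≤ r := (v.nonneg z).trans hz
  rw [eval_eq_sum_range]
  refine (v_sum_le h1 ht _ _ (p.gaussNorm_nonneg v hr) fun i _ => ?_).trans_eq
    (by rw [Finset.card_range])
  rw [map_mul, map_pow]
  exact (mul_le_mul_of_nonneg_left (pow_le_pow_left₀ (v.nonneg z) hz i) (v.nonneg _)).trans
    (p.le_gaussNorm v hr i)

theorem gn_lin_mul_le (h1 : 1 ≤ κ) (ht : ∀ a b, v (a + b) ≤ κ * max (v a) (v b)) (hr : 0 ≤ r)
    (a : k) (p : k[X]) :
    ((X - C a) * p).gaussNorm v r ≤ κ * max r (v a) * p.gaussNorm v r := by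
  have h0 : 0 ≤ κ := zero_le_one.trans h1
  have h2 := p.gaussNorm_nonneg v hr
  have h3 : (X * p).gaussNorm v r ≤ r * p.gaussNorm v r := by
    refine gn_le _ (mul_nonneg hr h2) fun i => ?_
    cases i with
    | zero => simpa using mul_nonneg hr h2
    | succ i =>
      rw [coeff_X_mul, pow_succ', mul_left_comm]
      exact mul_le_mul_of_nonneg_left (p.le_gaussNorm v hr i) hr
  rw [sub_mul, mul_assoc, max_mul_of_nonneg _ _ h2]
  refine (gn_sub_le h1 ht hr _ _).trans (mul_le_mul_of_nonneg_left ?_ h0)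
  exact max_le_max h3 (gn_C_mul hr a p).le

/-- With `q = (X - a) * p` we have `q (j+1) = p j - a * p (j+1)` and `q 0 = - a * p 0`. If
`v a ≤ r` use downward induction on `j`, otherwise upward induction. -/
theorem gn_div_le (h1 : 1 ≤ κ) (ht : ∀ a b, v (a + b) ≤ κ * max (v a) (v b)) (hr : 0 < r)
    (a : k) (p : k[X]) : p.gaussNorm v r * max r (v a) ≤
      κ ^ (p.natDegree + 2) * ((X - C a) * p).gaussNorm v r := by
  have h0 : 0 ≤ κ := zero_le_one.trans h1
  have hq : ∀ i, v (((X - C a) * p).coeff i) * r ^ i ≤ ((X - C a) * p).gaussNorm v r :=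
    le_gaussNorm v _ hr.le
  have hG := ((X - C a) * p).gaussNorm_nonneg v hr.le
  generalize ((X - C a) * p).gaussNorm v r = G at hq hG ⊢
  have hK : ∀ n, G ≤ κ ^ n * G := fun n => le_mul_of_one_le_left hG (one_le_pow₀ h1)
  have e0 : ((X - C a) * p).coeff 0 = -(a * p.coeff 0) := by simp [sub_mul]
  have e1 : ∀ j, ((X - C a) * p).coeff (j + 1) = p.coeff j - a * p.coeff (j + 1) := fun j => by
    rw [sub_mul, coeff_sub, coeff_X_mul, coeff_C_mul]
  obtain ⟨i, hi⟩ := p.exists_eq_gaussNorm v r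
  rw [hi]
  rcases le_total (v a) r with h | h
  · have key : ∀ n j, p.natDegree < j + n → v (p.coeff j) * r ^ (j + 1) ≤ κ ^ n * G := by
      intro n
      induction n with
      | zero =>
        intro j hj
        rw [coeff_eq_zero_of_natDegree_lt (n := j) hj, map_zero, zero_mul]
        exact hG.trans (hK 0)
      | succ n ih =>
        intro j hj
        rw [← sub_add_cancel (p.coeff j) (a * p.coeff (j + 1)), ← e1, pow_succ' κ, mul_assoc]
        refine gngen_add h1 ht (pow_nonneg hr.le _) ((hq _).trans (hK n))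
          (le_trans ?_ (ih (j + 1) (by omega)))
        rw [map_mul, pow_succ' r (j + 1), ← mul_assoc, mul_comm (v a)]
        exact mul_le_mul_of_nonneg_right (mul_le_mul_of_nonneg_left h (v.nonneg _))
          (pow_nonneg hr.le _)
    rw [max_eq_left h, mul_assoc, ← pow_succ]
    exact key _ i (by omega)
  · have key : ∀ j, v (a * p.coeff j) * r ^ j ≤ κ ^ j * G := by
      intro j
      induction j with
      | zero =>
        have h2 := hq 0
        rwa [e0, v.map_neg, ← one_mul G, ← pow_zero κ] at h2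
      | succ j ih =>
        rw [← sub_sub_cancel (p.coeff j) (a * p.coeff (j + 1)), ← e1, pow_succ' κ, mul_assoc,
          sub_eq_add_neg]
        refine gngen_add h1 ht (pow_nonneg hr.le _) (le_trans ?_ ih) ?_
        · rw [map_mul, pow_succ' r j, ← mul_assoc, mul_comm (v a)]
          exact mul_le_mul_of_nonneg_right (mul_le_mul_of_nonneg_left h (v.nonneg _))
            (pow_nonneg hr.le _)
        · rw [v.map_neg]
          exact (hq _).trans (hK j)
    rw [max_eq_right h]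
    by_cases hd : i ≤ p.natDegree
    · refine le_trans (le_of_eq ?_) ((key i).trans
        (mul_le_mul_of_nonneg_right (pow_le_pow_right₀ h1 (by omega)) hG))
      rw [map_mul]
      ring
    · rw [coeff_eq_zero_of_natDegree_lt (not_le.1 hd), map_zero, zero_mul, zero_mul]
      exact hG.trans (hK _)

theorem gn_prod_le (h1 : 1 ≤ κ) (ht : ∀ a b, v (a + b) ≤ κ * max (v a) (v b)) (hr : 0 ≤ r)
    (c : k) (s : Multiset k) : (C c * (s.map fun a => X - C a).prod).gaussNorm v r ≤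
      κ ^ s.card * v c * (s.map fun a => max r (v a)).prod := by
  have h0 : 0 ≤ κ := zero_le_one.trans h1
  induction s using Multiset.induction_on with
  | empty => simp
  | cons a s ih =>
    rw [Multiset.map_cons, Multiset.prod_cons, mul_left_comm, Multiset.map_cons,
      Multiset.prod_cons, Multiset.card_cons]
    refine (gn_lin_mul_le h1 ht hr a _).trans ((mul_le_mul_of_nonneg_left ih
      (mul_nonneg h0 (le_max_of_le_left hr))).trans_eq (by ring))

end Pool.Agent.Lib.MP_830c64_nt
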