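import Pool.Agent.Lib.MP_830c64_nt.GnGen2

namespace Pool.Agent.Lib.MP_830c64_nt

open Polynomial
open scoped Classical

variable {k : Type*} [Field k] {v : AbsoluteValue k ℝ} {a : k} {r : ℝ}

theorem gc_nonneg (hr : 0 < r) (p : k[X]) : 0 ≤ gc v a r p :=
  gaussNorm_nonneg v _ hr.le

theorem gc_zero : gc v a r 0 = 0 := by
  rw [gc, map_zero, gaussNorm_zero]

theorem gc_pos (hr : 0 < r) {p : k[X]} (hp : p ≠ 0) : 0 < gc v a r p := by
  refine lt_of_le_of_ne (gc_nonneg hr p) fun h => hp ?_
  have := (gaussNorm_eq_zero_iff v (taylor a p) (fun _ hx => v.eq_zero.1 hx) hr).1 h.symm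
  exact (taylor_eq_zero a p).1 this

theorem gc_neg (p : k[X]) : gc v a r (-p) = gc v a r p := by
  rw [gc, gc, map_neg, gn_neg]

theorem gc_C (c : k) : gc v a r (C c) = v c := by
  rw [gc, taylor_C, gaussNorm_C]

theorem gc_one : gc v a r 1 = 1 := by
  rw [← C_1, gc_C, map_one]

theorem gc_lin (hr : 0 < r) (z : k) : gc v a r (X - C z) = max r (v (z - a)) := by
  have e : taylor a (X - C z) = X - C (z - a) := by
    rw [map_sub, taylor_X, taylor_C, C_sub]; ring
  rw [gc, e]
  have h0 : v ((X - C (z - a)).coeff 0) * r ^ 0 = v (z - a) := by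
    rw [coeff_sub, coeff_X_zero, coeff_C_zero, zero_sub, v.map_neg, pow_zero, mul_one]
  have h1 : v ((X - C (z - a)).coeff 1) * r ^ 1 = r := by
    rw [coeff_sub, coeff_X_one, coeff_C_of_ne_zero one_ne_zero, sub_zero, map_one, pow_one, one_mul]
  refine le_antisymm (gn_le _ (hr.le.trans (le_max_left _ _)) fun i => ?_) (max_le ?_ ?_)
  · rcases i with _ | _ | i
    · rw [h0]; exact le_max_right _ _
    · exact h1.le.trans (le_max_left _ _)
    · rw [coeff_sub, coeff_X_of_ne_one (by omega), coeff_C_of_ne_zero (by omega), sub_zero, map_zero,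
        zero_mul]
      exact hr.le.trans (le_max_left _ _)
  · exact h1.ge.trans (le_gaussNorm v _ hr.le 1)
  · exact h0.ge.trans (le_gaussNorm v _ hr.le 0)

theorem coeff_le_gc (hr : 0 < r) (p : k[X]) (i : ℕ) :
    v ((taylor a p).coeff i) * r ^ i ≤ gc v a r p :=
  le_gaussNorm v _ hr.le i

theorem gc_mul (hna : IsNonarchimedean v) (hr : 0 < r) (p q : k[X]) :
    gc v a r (p * q) = gc v a r p * gc v a r q := by
  rw [gc, gc, gc, taylor_mul, gaussNorm_mul hna hr]

theorem gc_pow (hna : IsNonarchimedean v) (hr : 0 < r) (p : k[X]) (j : ℕ) :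
    gc v a r (p ^ j) = gc v a r p ^ j := by
  induction j with
  | zero => rw [pow_zero, pow_zero, gc_one]
  | succ j ih => rw [pow_succ, pow_succ, gc_mul hna hr, ih]

theorem gc_add_le (hna : IsNonarchimedean v) (hr : 0 < r) (p q : k[X]) :
    gc v a r (p + q) ≤ max (gc v a r p) (gc v a r q) := by
  rw [gc, gc, gc, map_add]
  exact isNonarchimedean_gaussNorm v hna hr.le _ _

theorem gc_sub_le (hna : IsNonarchimedean v) (hr : 0 < r) (p q : k[X]) :
    gc v a r (p - q) ≤ max (gc v a r p) (gc v a r q) := by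
  rw [sub_eq_add_neg, ← gc_neg q]
  exact gc_add_le hna hr _ _

theorem gc_eq_of_lt (hna : IsNonarchimedean v) (hr : 0 < r) {p q : k[X]}
    (h : gc v a r (p - q) < gc v a r p) : gc v a r q = gc v a r p := by
  have h1 := gc_sub_le (a := a) hna hr p (p - q)
  have h2 := gc_add_le (a := a) hna hr q (p - q)
  rw [sub_sub_cancel, max_eq_left h.le] at h1
  rw [add_sub_cancel] at h2
  exact le_antisymm h1 ((le_max_iff.1 h2).resolve_right h.not_ge)

theorem gc_add_eq (hna : IsNonarchimedean v) (hr : 0 < r) {p q : k[X]}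
    (h : gc v a r q < gc v a r p) : gc v a r (p + q) = gc v a r p :=
  gc_eq_of_lt hna hr (by rwa [sub_add_cancel_left, gc_neg])

theorem gnna_sum (hna : IsNonarchimedean v) (hr : 0 < r) {ι : Type*} (s : Finset ι)
    (p : ι → k[X]) {B : ℝ} (hB : 0 ≤ B) (h : ∀ i ∈ s, gc v a r (p i) ≤ B) :
    gc v a r (∑ i ∈ s, p i) ≤ B :=
  Finset.sum_induction p (fun q => gc v a r q ≤ B)
    (fun _ _ h1 h2 => (gc_add_le hna hr _ _).trans (max_le h1 h2)) (gc_zero.trans_le hB) h

theorem gnna_center (hna : IsNonarchimedean v) (hr : 0 < r) {a' : k} (h : v (a - a') ≤ r)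
    (p : k[X]) : gc v a' r p ≤ gc v a r p := by
  conv_lhs => rw [← sum_taylor_eq p a, Polynomial.sum]
  refine gnna_sum hna hr _ _ (gc_nonneg hr p) fun i _ => ?_
  rw [gc_mul hna hr, gc_C, gc_pow hna hr, gc_lin hr, max_eq_left h]
  exact coeff_le_gc hr p i

theorem v_eval_le_gc (hna : IsNonarchimedean v) (hr : 0 < r) (p : k[X]) {z : k}
    (hz : v (z - a) ≤ r) : v (p.eval z) ≤ gc v a r p := by
  have h := coeff_le_gc (v := v) (a := z) hr p 0
  rw [taylor_coeff_zero, pow_zero, mul_one] at h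
  exact h.trans (gnna_center hna hr (by rwa [v.map_sub]) p)

theorem gc_prod (hna : IsNonarchimedean v) (hr : 0 < r) (c : k) (s : Multiset k) :
    gc v a r (C c * (s.map fun z => X - C z).prod) =
      v c * (s.map fun z => max r (v (z - a))).prod := by
  rw [gc_mul hna hr, gc_C]
  congr 1
  induction s using Multiset.induction_on with
  | empty => rw [Multiset.map_zero, Multiset.map_zero, Multiset.prod_zero, Multiset.prod_zero, gc_one]
  | cons z s ih =>
    rw [Multiset.map_cons, Multiset.map_cons, Multiset.prod_cons, Multiset.prod_cons,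
      gc_mul hna hr, gc_lin hr, ih]

/-- Write `p` as the sum of its Taylor terms at `a` and bound each one at the centre `a'`. -/
theorem gc_center (hna : IsNonarchimedean v) (hr : 0 < r) {a' : k} (h : v (a' - a) ≤ r)
    (p : k[X]) : gc v a' r p = gc v a r p :=
  le_antisymm (gnna_center hna hr (by rwa [v.map_sub]) p) (gnna_center hna hr h p)

end Pool.Agent.Lib.MP_830c64_nt
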