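import Pool.Agent.Lib.MP_830c64_nt.GnNa

namespace Pool.Agent.Lib.MP_830c64_nt

open Polynomial
open scoped Classical

variable {k : Type*} [Field k] {v : AbsoluteValue k ℝ} {a : k} {r : ℝ}

theorem minIdx_exists (hr : 0 < r) (p : k[X]) : ∃ i, MinIdx v a r p i := by
  exact (taylor a p).exists_min_eq_gaussNorm v hr.le

theorem minIdx_le (hr : 0 < r) {p : k[X]} (hp : p ≠ 0) {i : ℕ} (h : MinIdx v a r p i) :
    i ≤ p.natDegree := by
  by_contra hi
  have h0 : (taylor a p).coeff i = 0 :=
    coeff_eq_zero_of_natDegree_lt (by rw [natDegree_taylor]; exact not_le.mp hi)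
  have h1 := h.1
  rw [h0, map_zero, zero_mul] at h1
  exact (gc_pos hr hp).ne' h1

theorem minIdx_zero {p : k[X]} (h : v (p.eval a) = gc v a r p) : MinIdx v a r p 0 := by
  refine ⟨?_, fun j hj => absurd hj (Nat.not_lt_zero j)⟩
  rw [taylor_coeff_zero, pow_zero, mul_one, h]

theorem gnna2_lt (hr : 0 < r) {p q : k[X]} (hp : p ≠ 0) (hq : q ≠ 0) {i j x y : ℕ}
    (hi : MinIdx v a r p i) (hj : MinIdx v a r q j) (h : x < i ∨ y < j) :
    v ((taylor a p).coeff x * (taylor a q).coeff y) * r ^ (x + y) <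
      gc v a r p * gc v a r q := by
  have e : v ((taylor a p).coeff x * (taylor a q).coeff y) * r ^ (x + y) =
      (v ((taylor a p).coeff x) * r ^ x) * (v ((taylor a q).coeff y) * r ^ y) := by
    rw [map_mul, pow_add]
    ring
  have n1 : 0 ≤ v ((taylor a p).coeff x) * r ^ x := mul_nonneg (v.nonneg _) (pow_nonneg hr.le _)
  have n2 : 0 ≤ v ((taylor a q).coeff y) * r ^ y := mul_nonneg (v.nonneg _) (pow_nonneg hr.le _)
  rw [e]
  rcases h with h | h
  · exact mul_lt_mul_of_lt_of_le_of_nonneg_of_pos (hi.2 x h) (coeff_le_gc hr q y) n1 (gc_pos hr hq)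
  · exact mul_lt_mul_of_le_of_lt_of_nonneg_of_pos (coeff_le_gc hr p x) (hj.2 y h) n2 (gc_pos hr hp)

/-- As in the proof of `Polynomial.gaussNorm_mul` (`IsNonarchimedean.apply_sum_eq_of_lt`). -/
theorem minIdx_mul (hna : IsNonarchimedean v) (hr : 0 < r) {p q : k[X]} (hp : p ≠ 0) (hq : q ≠ 0)
    {i j : ℕ} (hi : MinIdx v a r p i) (hj : MinIdx v a r q j) :
    MinIdx v a r (p * q) (i + j) := by
  constructor
  · have hP : gc v a r p * gc v a r q =
        v ((taylor a p).coeff i * (taylor a q).coeff j) * r ^ (i + j) := by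
      rw [hi.1, hj.1, map_mul, pow_add]
      ring
    rw [gc_mul hna hr, taylor_mul, coeff_mul, IsNonarchimedean.apply_sum_eq_of_lt hna
      (fun z => (v.map_neg z).symm) (k := (i, j)) (Finset.HasAntidiagonal.mem_antidiagonal.2 rfl), hP]
    rintro ⟨x, y⟩ hxy hne
    have hs : x + y = i + j := Finset.HasAntidiagonal.mem_antidiagonal.1 hxy
    have h1 : x < i ∨ y < j := by
      by_contra hc
      push Not at hc
      exact hne (Prod.ext (by simp only; omega) (by simp only; omega))
    have h2 := gnna2_lt hr hp hq hi hj h1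
    rw [hs, hP] at h2
    exact lt_of_mul_lt_mul_right h2 (pow_nonneg hr.le _)
  · intro m hm
    rw [gc_mul hna hr, taylor_mul, coeff_mul]
    obtain ⟨⟨x, y⟩, hxy, hle⟩ := IsNonarchimedean.finset_image_add_of_nonempty hna
      (fun z : ℕ × ℕ => (taylor a p).coeff z.1 * (taylor a q).coeff z.2)
      (t := Finset.HasAntidiagonal.antidiagonal m) ⟨(0, m), Finset.HasAntidiagonal.mem_antidiagonal.2 (zero_add m)⟩
    have hs : x + y = m := Finset.HasAntidiagonal.mem_antidiagonal.1 hxy
    have h2 := gnna2_lt hr hp hq hi hj (x := x) (y := y) (by omega)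
    rw [hs] at h2
    exact (mul_le_mul_of_nonneg_right hle (pow_nonneg hr.le _)).trans_lt h2

theorem gnna2_lin (hr : 0 < r) (z : k) :
    MinIdx v a r (X - C z) (if v (z - a) < r then 1 else 0) := by
  have e0 : v ((X - C z).eval a) = v (z - a) := by
    rw [eval_sub, eval_X, eval_C, v.map_sub]
  split_ifs with h
  · refine ⟨?_, fun j hj => ?_⟩
    · rw [gc_lin hr, max_eq_left h.le, taylor_coeff_one, derivative_sub, derivative_X,
        derivative_C, sub_zero, eval_one, map_one, one_mul, pow_one]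
    · obtain rfl : j = 0 := by omega
      rw [gc_lin hr, max_eq_left h.le, taylor_coeff_zero, e0, pow_zero, mul_one]
      exact h
  · exact minIdx_zero (by rw [e0, gc_lin hr, max_eq_right (not_lt.mp h)])

theorem minIdx_prod (hna : IsNonarchimedean v) (hr : 0 < r) (s : Multiset k) :
    MinIdx v a r (s.map fun z => X - C z).prod (s.countP fun z => v (z - a) < r) := by
  induction s using Multiset.induction_on with
  | empty =>
    rw [Multiset.map_zero, Multiset.prod_zero, Multiset.countP_zero]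
    exact minIdx_zero (by rw [eval_one, map_one, gc_one])
  | cons z s ih =>
    rw [Multiset.map_cons, Multiset.prod_cons, Multiset.countP_cons, add_comm]
    exact minIdx_mul hna hr (X_sub_C_ne_zero z) (monic_multiset_prod_of_monic _ _
      fun w _ => monic_X_sub_C w).ne_zero (gnna2_lin hr z) ih

theorem max_le_gc_sub (hna : IsNonarchimedean v) (hr : 0 < r) {p q : k[X]} {i j : ℕ}
    (hi : MinIdx v a r p i) (hj : MinIdx v a r q j) (hij : i ≠ j) :
    max (gc v a r p) (gc v a r q) ≤ gc v a r (p - q) := by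
  have key : ∀ {p q : k[X]} {i j : ℕ}, MinIdx v a r p i → MinIdx v a r q j → i < j →
      gc v a r p = gc v a r q → gc v a r p ≤ gc v a r (p - q) := by
    intro p q i j hi hj hij he
    have h1 : v ((taylor a q).coeff i) < v ((taylor a p).coeff i) := by
      have h2 := hj.2 i hij
      rw [← he, hi.1] at h2
      exact lt_of_mul_lt_mul_right h2 (pow_nonneg hr.le _)
    have h3 := coeff_le_gc (v := v) (a := a) hr (p - q) i
    rw [map_sub, coeff_sub, sub_eq_add_neg, IsNonarchimedean.add_eq_left_of_lt hna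
      (by rwa [v.map_neg]), ← hi.1] at h3
    exact h3
  have hsw : gc v a r (q - p) = gc v a r (p - q) := by rw [← neg_sub, gc_neg]
  rcases lt_trichotomy (gc v a r p) (gc v a r q) with h | h | h
  · rw [max_eq_right h.le, ← hsw, sub_eq_add_neg, gc_add_eq hna hr (by rwa [gc_neg])]
  · rcases lt_or_gt_of_ne hij with h' | h'
    · rw [← h, max_self]
      exact key hi hj h' h
    · rw [h, max_self, ← hsw]
      exact key hj hi h' h.symm
  · rw [max_eq_left h.le, sub_eq_add_neg, gc_add_eq hna hr (by rwa [gc_neg])]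

/-- `A ^ 2` has even, `f * B ^ 2` odd least index. -/
theorem aniso_of_odd (hna : IsNonarchimedean v) (hr : 0 < r) (s : Multiset k)
    (hs : Odd (s.countP fun z => v (z - a) < r)) (A B : k[X]) :
    max (gc v a r A ^ 2) (gc v a r (s.map fun z => X - C z).prod * gc v a r B ^ 2) ≤
      gc v a r (A ^ 2 - (s.map fun z => X - C z).prod * B ^ 2) := by
  have hf : (s.map fun z => X - C z).prod ≠ 0 :=
    (monic_multiset_prod_of_monic _ _ fun w _ => monic_X_sub_C w).ne_zero
  rw [← gc_pow hna hr, ← gc_pow hna hr, ← gc_mul hna hr]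
  by_cases hA : A = 0
  · rw [hA, zero_pow two_ne_zero, gc_zero, zero_sub, gc_neg, max_eq_right (gc_nonneg hr _)]
  by_cases hB : B = 0
  · rw [hB, zero_pow two_ne_zero, mul_zero, gc_zero, sub_zero, max_eq_left (gc_nonneg hr _)]
  obtain ⟨i, hi⟩ := minIdx_exists (v := v) (a := a) hr A
  obtain ⟨j, hj⟩ := minIdx_exists (v := v) (a := a) hr B
  have h1 := minIdx_mul hna hr hA hA hi hi
  have h2 := minIdx_mul hna hr hf (mul_ne_zero hB hB) (minIdx_prod hna hr s)
    (minIdx_mul hna hr hB hB hj hj)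
  rw [← sq] at h1 h2
  refine max_le_gc_sub hna hr h1 h2 ?_
  obtain ⟨c, hc⟩ := hs
  omega

end Pool.Agent.Lib.MP_830c64_nt
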