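import Pool.Agent.Lib.MP_830c64_nt.GoSq

namespace Pool.Agent.Lib.MP_830c64_nt

open NumberField
open scoped Classical nonZeroDivisors IntermediateField

theorem gomod_cls (K : Type) [Field K] [NumberField K] (V : Submodule ℚ K) (q : ℕ) :
    ∃ (r : ℕ) (f : 𝓞 K → Fin r → ZMod q), r ≤ Module.finrank ℚ V ∧ ∀ β β' : 𝓞 K, (β : K) ∈ V →
      (β' : K) ∈ V → f β = f β' → ∃ γ : 𝓞 K, (γ : K) ∈ V ∧ β = β' + q * γ := by
  let j : 𝓞 K →ₗ[ℤ] K := (algebraMap (𝓞 K) K).toIntAlgHom.toLinearMap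
  let L : Submodule ℤ (𝓞 K) := (V.restrictScalars ℤ).comap j
  have hL : ∀ β : 𝓞 K, β ∈ L ↔ (β : K) ∈ V := fun β => Iff.rfl
  let b := Module.finBasis ℤ L
  refine ⟨Module.finrank ℤ L, fun β i => if h : β ∈ L then (b.repr ⟨β, h⟩ i : ZMod q) else 0,
    ?_, fun β β' h h' hf => ?_⟩
  · let e : L →ₗ[ℤ] V := (j.comp L.subtype).codRestrict (V.restrictScalars ℤ) fun x => x.2
    have he : Function.Injective e := fun x y h => by
      have h1 : ((e x : V) : K) = (e y : V) := by rw [h]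
      exact Subtype.ext (Subtype.ext h1)
    have h1 : LinearIndependent ℤ (e ∘ b) :=
      b.linearIndependent.map' e (LinearMap.ker_eq_bot.2 he)
    have h2 : LinearIndependent ℚ (e ∘ b) := (LinearIndependent.iff_fractionRing ℤ ℚ).1 h1
    simpa using h2.fintype_card_le_finrank
  · have h1 : ∀ i, ∃ c : ℤ, b.repr ⟨β, h⟩ i = b.repr ⟨β', h'⟩ i + q * c := fun i => by
      have := congrFun hf i
      simp only [dif_pos ((hL β).2 h), dif_pos ((hL β').2 h')] at this
      obtain ⟨c, hc⟩ := (ZMod.intCast_eq_intCast_iff_dvd_sub _ _ _).1 this.symm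
      exact ⟨c, by rw [← hc]; ring⟩
    choose c hc using h1
    refine ⟨(b.equivFun.symm c : L), (b.equivFun.symm c).2, ?_⟩
    have h2 : (⟨β, h⟩ : L) = ⟨β', h'⟩ + (q : ℤ) • b.equivFun.symm c := by
      apply b.equivFun.injective
      funext i
      rw [map_add, map_smul, LinearEquiv.apply_symm_apply]
      simpa using hc i
    have h3 := congrArg Subtype.val h2
    simpa using h3

/-- Let `Λ` be the group of integers in `V` (free of rank `≤ finrank V`). Two elements of `box s`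
in the same class of `Λ / q Λ` differ by `q * γ` with `γ ∈ Λ ∩ box (2 s / q)`. -/
theorem box_mod (K : Type) [Field K] [NumberField K] (V : Submodule ℚ K) (s : ℝ) {q : ℕ}
    (hq : 0 < q) : {β | β ∈ box K s ∧ (β : K) ∈ V}.ncard ≤
      q ^ Module.finrank ℚ V * {β | β ∈ box K (2 * s / q) ∧ (β : K) ∈ V}.ncard := by
  have : NeZero q := ⟨hq.ne'⟩
  obtain ⟨r, f, hr, hf⟩ := gomod_cls K V q
  have hB : {β | β ∈ box K (2 * s / q) ∧ (β : K) ∈ V}.Finite :=
    (box_finite K _).subset fun _ h => h.1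
  have h1 : {β | β ∈ box K s ∧ (β : K) ∈ V} =
      ⋃ c, {β | (β ∈ box K s ∧ (β : K) ∈ V) ∧ f β = c} := by
    ext β
    simp
  have h2 : ∀ c, {β | (β ∈ box K s ∧ (β : K) ∈ V) ∧ f β = c}.ncard ≤
      {β | β ∈ box K (2 * s / q) ∧ (β : K) ∈ V}.ncard := by
    intro c
    rcases Set.eq_empty_or_nonempty {β | (β ∈ box K s ∧ (β : K) ∈ V) ∧ f β = c} with h | ⟨β', h'⟩
    · rw [h, Set.ncard_empty]
      exact Nat.zero_le _
    refine (Set.ncard_le_ncard (t := (fun γ => β' + q * γ) '' _) (fun β h => ?_)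
      (hB.image _)).trans (Set.ncard_image_le hB)
    obtain ⟨γ, g1, g2⟩ := hf β β' h.1.2 h'.1.2 (h.2.trans h'.2.symm)
    refine ⟨γ, ⟨fun σ => ?_, g1⟩, g2.symm⟩
    have q0 : (0 : ℝ) < q := Nat.cast_pos.2 hq
    have e : (q : ℂ) * σ (γ : K) = σ (β : K) - σ (β' : K) := by
      rw [g2]
      simp
    have e1 := congrArg norm e
    rw [norm_mul, Complex.norm_natCast] at e1
    have e2 := norm_sub_le (σ (β : K)) (σ (β' : K))
    rw [le_div_iff₀ q0]
    linarith [h.1.1 σ, h'.1.1 σ]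
  rw [h1]
  refine (Set.ncard_iUnion_le_of_fintype _).trans ((Finset.sum_le_card_nsmul _ _ _
    fun c _ => h2 c).trans ?_)
  rw [smul_eq_mul, Finset.card_univ, Fintype.card_fun, ZMod.card, Fintype.card_fin]
  exact Nat.mul_le_mul_right _ (Nat.pow_le_pow_right hq hr)

/-- An element that does not generate `K` lies in the proper subfield on which `σ₀` and some
`σ ≠ σ₀` agree (`Field.primitive_element_iff_algHom_eq_of_eval`); its degree `m` divides the odd
number `2 g + 1`, so `3 m ≤ 2 g + 1` and `m ≤ g - 1`; use `box_mod` with `q = ⌊2 T⌋₊ + 1`. -/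
theorem nonprim_le (K : Type) [Field K] [NumberField K] {g : ℕ} (hg : 2 ≤ g)
    (hK : Module.finrank ℚ K = 2 * g + 1) {T : ℝ} (hT : 1 ≤ T) :
    ({β | β ∈ box K T ∧ ℚ⟮(β : K)⟯ ≠ ⊤}.ncard : ℝ) ≤ (2 * g + 1) * (3 * T) ^ (g - 1) := by
  have hc : Fintype.card (K →ₐ[ℚ] ℂ) = 2 * g + 1 := by rw [AlgHom.card, hK]
  obtain ⟨φ⟩ : Nonempty (K →ₐ[ℚ] ℂ) := Fintype.card_pos_iff.1 (by omega)
  have key : ∀ ψ : K →ₐ[ℚ] ℂ, ({β | β ∈ box K T ∧ φ ≠ ψ ∧ φ (β : K) = ψ β}.ncard : ℝ) ≤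
      (3 * T) ^ (g - 1) := by
    intro ψ
    by_cases hψ : φ = ψ
    · simp only [hψ, ne_eq, not_true_eq_false, false_and, and_false, Set.ofPred_false,
        Set.ncard_empty, Nat.cast_zero]
      positivity
    let L : IntermediateField ℚ K := (AlgHom.equalizer φ ψ).toIntermediateField fun x hx => by
      rw [AlgHom.mem_equalizer] at hx ⊢
      rw [map_inv₀, map_inv₀, hx]
    have h1 := Module.finrank_mul_finrank ℚ L K
    have h2 : Module.finrank L K ≠ 1 := by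
      rw [Ne, IntermediateField.finrank_eq_one_iff_eq_top]
      intro h
      refine hψ (AlgHom.ext fun x => ?_)
      have : x ∈ L := h ▸ IntermediateField.mem_top
      exact this
    have h3 : Odd (Module.finrank L K) :=
      (Nat.odd_mul.1 (show Odd (Module.finrank ℚ L * Module.finrank L K) from
        ⟨g, by rw [h1, hK]⟩)).2
    have h4 : Module.finrank ℚ L ≤ g - 1 := by
      obtain ⟨d, hd⟩ := h3
      have : Module.finrank ℚ L * 3 ≤ Module.finrank ℚ L * Module.finrank L K :=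
        Nat.mul_le_mul_left _ (by omega)
      omega
    have h5 := box_mod K L.toSubalgebra.toSubmodule T (q := ⌊2 * T⌋₊ + 1) (Nat.succ_pos _)
    have h6 : {β | β ∈ box K (2 * T / (⌊2 * T⌋₊ + 1 : ℕ)) ∧
        (β : K) ∈ L.toSubalgebra.toSubmodule}.ncard ≤ 1 := by
      refine (Set.ncard_le_ncard (t := {0}) (fun β h => box_lt_one K ?_ h.1)).trans (by simp)
      rw [div_lt_one (by positivity)]
      push_cast
      exact Nat.lt_floor_add_one _
    have h7 : {β | β ∈ box K T ∧ φ ≠ ψ ∧ φ (β : K) = ψ β} =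
        {β | β ∈ box K T ∧ (β : K) ∈ L.toSubalgebra.toSubmodule} := by
      ext β
      exact and_congr_right fun _ => ⟨fun h => h.2, fun h => ⟨hψ, h⟩⟩
    have h8 : ((⌊2 * T⌋₊ + 1 : ℕ) : ℝ) ≤ 3 * T := by
      have := Nat.floor_le (show 0 ≤ 2 * T by linarith)
      push_cast
      linarith
    have h9 := h5.trans ((Nat.mul_le_mul_left _ h6).trans (mul_one _).le)
    rw [h7]
    refine (Nat.cast_le.2 h9).trans ?_
    rw [Nat.cast_pow]
    exact (pow_le_pow_left₀ (Nat.cast_nonneg _) h8 _).trans (pow_le_pow_right₀ (by linarith) h4)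
  have h1 : {β | β ∈ box K T ∧ ℚ⟮(β : K)⟯ ≠ ⊤} ⊆
      ⋃ ψ : K →ₐ[ℚ] ℂ, {β | β ∈ box K T ∧ φ ≠ ψ ∧ φ (β : K) = ψ β} := by
    rintro β ⟨h1, h2⟩
    rw [Ne, Field.primitive_element_iff_algHom_eq_of_eval ℚ ℂ
      (fun _ => IsAlgClosed.splits _) _ φ] at h2
    push Not at h2
    obtain ⟨ψ, h3, h4⟩ := h2
    exact Set.mem_iUnion.2 ⟨ψ, h1, h4, h3⟩
  have h2 := (Set.ncard_le_ncard h1 ((box_finite K T).subset fun β h => by
    obtain ⟨ψ, h⟩ := Set.mem_iUnion.1 h
    exact h.1)).trans (Set.ncard_iUnion_le_of_fintype _)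
  refine (Nat.cast_le.2 h2).trans ?_
  rw [Nat.cast_sum]
  refine (Finset.sum_le_card_nsmul _ _ _ fun ψ _ => key ψ).trans ?_
  rw [Finset.card_univ, hc, nsmul_eq_mul]
  push_cast
  exact le_rfl

end Pool.Agent.Lib.MP_830c64_nt
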