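import Pool.Agent.Lib.MP_830c64_nt.Defs

namespace Pool.Agent.Lib.MP_830c64_nt

open NumberField
open scoped Classical nonZeroDivisors IntermediateField

theorem box_finite (K : Type) [Field K] [NumberField K] (T : ℝ) : (box K T).Finite := by
  refine Set.Finite.of_finite_image (f := fun β : 𝓞 K => (β : K)) ?_
    RingOfIntegers.coe_injective.injOn
  refine (Embeddings.finite_of_norm_le K ℂ T).subset ?_
  rintro _ ⟨β, hβ, rfl⟩
  exact ⟨β.isIntegral_coe, hβ⟩

theorem box_mono (K : Type) [Field K] [NumberField K] {S T : ℝ} (h : S ≤ T) :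
    box K S ⊆ box K T := by
  exact fun _ hβ σ => (hβ σ).trans h

/-- A nonzero integer has norm at least `1`. -/
theorem box_lt_one (K : Type) [Field K] [NumberField K] {T : ℝ} (h : T < 1) :
    box K T ⊆ {0} := by
  intro β hβ
  by_contra h0
  obtain ⟨w⟩ : Nonempty (InfinitePlace K) := inferInstance
  have h1 := (InfinitePlace.le_iff_le (β : K) T).2 hβ
  exact absurd (InfinitePlace.one_le_of_lt_one (w := w) h0 fun z _ => (h1 z).trans_lt h)
    (not_le.2 ((h1 w).trans_lt h))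

/-- Minkowski (`mixedEmbedding.exists_ne_zero_mem_ideal_lt`, `convexBodyLT_volume`,
`volume_fundamentalDomain_fractionalIdealLatticeBasis`) for the ideal `I` with `I ^ 2 = (γ)` and the
box `w α < t * √(w γ)`, where `t ^ n = 2 * 2 ^ n * √|D|`, or any larger `t = c |D| ^ (1 / (2 n))`. -/
theorem exists_small (n : ℕ) : ∃ c : ℝ, 1 ≤ c ∧ ∀ (K : Type) [Field K] [NumberField K],
    Module.finrank ℚ K = n → ∀ (I : Ideal (𝓞 K)) (γ : 𝓞 K), γ ≠ 0 → I ^ 2 = Ideal.span {γ} →
      ∃ α ∈ I, α ≠ 0 ∧ ∀ σ : K →+* ℂ,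
        ‖σ (α : K)‖ ^ 2 ≤ c * |(discr K : ℝ)| ^ (1 / (n : ℝ)) * ‖σ (γ : K)‖ := by
  refine ⟨16, by norm_num, fun K _ _ hn I γ hγ hI => ?_⟩
  have hn0 : 0 < n := hn ▸ Module.finrank_pos
  have hI0 : I ≠ 0 := fun h => hγ (by
    rw [h, zero_pow two_ne_zero] at hI
    exact Ideal.span_singleton_eq_bot.1 hI.symm)
  have hD : 0 < |(discr K : ℝ)| := abs_pos.2 (Int.cast_ne_zero.2 (discr_ne_zero K))
  have hN : (0 : ℝ) < Ideal.absNorm I :=
    Nat.cast_pos.2 (Nat.pos_of_ne_zero (Ideal.absNorm_eq_zero_iff.not.2 hI0))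
  set s : ℝ := |(discr K : ℝ)| ^ (1 / (n : ℝ)) with hs
  have hs0 : 0 ≤ s := by positivity
  have h1 : s ^ n = |(discr K : ℝ)| := by
    rw [hs, one_div, Real.rpow_inv_natCast_pow hD.le hn0.ne']
  have h2 : ∏ w : InfinitePlace K, w γ ^ w.mult = (Ideal.absNorm I : ℝ) ^ 2 := by
    have h3 := congrArg Ideal.absNorm hI
    rw [map_pow, Ideal.absNorm_span_singleton] at h3
    rw [InfinitePlace.prod_eq_abs_norm, ← Algebra.coe_norm_int, ← Nat.cast_pow, h3,
      Nat.cast_natAbs]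
    simp
  let F : InfinitePlace K → NNReal := fun w => ⟨√(16 * s * w γ), Real.sqrt_nonneg _⟩
  have h3 : ((∏ w, F w ^ w.mult : NNReal) : ℝ) =
      4 ^ n * √|(discr K : ℝ)| * Ideal.absNorm I := by
    refine (pow_left_inj₀ (NNReal.coe_nonneg _) (by positivity) two_ne_zero).1 ?_
    rw [mul_pow, mul_pow, Real.sq_sqrt hD.le, ← h2, ← h1, ← pow_mul, mul_comm n, pow_mul,
      ← mul_pow, ← hn, ← InfinitePlace.sum_mult_eq, ← Finset.prod_pow_eq_pow_sum,
      ← Finset.prod_mul_distrib, NNReal.coe_prod, ← Finset.prod_pow]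
    refine Finset.prod_congr rfl fun w _ => ?_
    rw [NNReal.coe_pow, ← pow_mul, mul_comm _ 2, pow_mul, ← mul_pow]
    congr 1
    rw [show (4 : ℝ) ^ 2 = 16 by norm_num]
    exact Real.sq_sqrt (by positivity)
  have h4 : mixedEmbedding.minkowskiBound K (FractionalIdeal.mk0 K ⟨I, mem_nonZeroDivisors_of_ne_zero
      hI0⟩) < MeasureTheory.volume (mixedEmbedding.convexBodyLT K F) := by
    rw [mixedEmbedding.convexBodyLT_volume, mixedEmbedding.minkowskiBound,
      mixedEmbedding.volume_fundamentalDomain_fractionalIdealLatticeBasis,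
      mixedEmbedding.volume_fundamentalDomain_latticeBasis, mixedEmbedding.finrank, hn,
      FractionalIdeal.coe_mk0, FractionalIdeal.coeIdeal_absNorm]
    have h5 : (2 : ℝ) ^ n < 4 ^ n := pow_lt_pow_left₀ (by norm_num) (by norm_num) hn0.ne'
    calc _ ≤ ENNReal.ofReal (Ideal.absNorm I) * (1 * NNReal.sqrt ‖discr K‖₊) * 2 ^ n := by
          rw [Rat.cast_natCast]
          gcongr
          exact pow_le_one₀ (by positivity) (by simp)
      _ = ENNReal.ofReal (2 ^ n * √|(discr K : ℝ)| * Ideal.absNorm I) := by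
          rw [ENNReal.ofReal_mul (by positivity), ENNReal.ofReal_mul (by positivity),
            ENNReal.ofReal_pow zero_le_two, ENNReal.ofReal_ofNat, one_mul,
            ← ENNReal.ofReal_coe_nnreal, Real.coe_sqrt, coe_nnnorm, Int.norm_eq_abs]
          ring
      _ < ENNReal.ofReal (4 ^ n * √|(discr K : ℝ)| * Ideal.absNorm I) := by
          rw [ENNReal.ofReal_lt_ofReal_iff (by positivity)]
          gcongr
      _ = 1 * ((∏ w, F w ^ w.mult : NNReal) : ENNReal) := by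
          rw [← h3, ENNReal.ofReal_coe_nnreal, one_mul]
      _ ≤ _ := by
          gcongr
          exact_mod_cast mixedEmbedding.one_le_convexBodyLTFactor K
  obtain ⟨a, ha, ha0, h5⟩ := mixedEmbedding.exists_ne_zero_mem_ideal_lt K _ h4
  rw [FractionalIdeal.coe_mk0] at ha
  obtain ⟨α, hα, rfl⟩ := (FractionalIdeal.mem_coeIdeal _).1 ha
  refine ⟨α, hα, fun h => ha0 (by rw [h, map_zero]), fun σ => ?_⟩
  exact (Real.le_sqrt (norm_nonneg _) (by positivity)).1 (h5 (InfinitePlace.mk σ)).le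

/-- For a class of order dividing `2` take an integral ideal `I` in it, `I ^ 2 = (γ)`, `α` from
`exists_small`, `(α) = I * J`, `α ^ 2 = β * γ`. Then `(β) = J ^ 2`, `|N β| = (absNorm J) ^ 2`, and
one of `± β` has square norm since the degree is odd. `β` determines `J`, hence the class. -/
theorem h2_le_box (n : ℕ) (hn : Odd n) : ∃ c : ℝ, 1 ≤ c ∧ ∀ (K : Type) [Field K] [NumberField K],
    Module.finrank ℚ K = n → h2 K ≤ {β | β ∈ box K (c * |(discr K : ℝ)| ^ (1 / (n : ℝ))) ∧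
      IsSquare (Algebra.norm ℤ β)}.ncard := by
  obtain ⟨c, hc, h⟩ := exists_small n
  refine ⟨c, hc, fun K _ _ hK => ?_⟩
  set T := c * |(discr K : ℝ)| ^ (1 / (n : ℝ)) with hT
  have key : ∀ x : {c : ClassGroup (𝓞 K) // c ^ 2 = 1}, ∃ (β : 𝓞 K) (J : (Ideal (𝓞 K))⁰),
      (β ∈ box K T ∧ IsSquare (Algebra.norm ℤ β)) ∧ x.1 = (ClassGroup.mk0 J)⁻¹ ∧
        Ideal.span {β} = J.1 ^ 2 := by
    rintro ⟨x, hx⟩
    obtain ⟨I, rfl⟩ := ClassGroup.mk0_surjective x
    rw [sq, ← eq_inv_iff_mul_eq_one, ClassGroup.mk0_eq_mk0_inv_iff] at hx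
    obtain ⟨γ, hγ0, hγ⟩ := hx
    have hγ' : I.1 ^ 2 = Ideal.span {γ} := (sq _).trans hγ
    have hI0 : I.1 ≠ 0 := nonZeroDivisors.ne_zero I.2
    obtain ⟨α, hα, hα0, h1⟩ := h K hK I.1 γ hγ0 hγ'
    have hα2 : α ^ 2 ∈ Ideal.span {γ} := by
      rw [← hγ']
      exact Ideal.pow_mem_pow hα 2
    obtain ⟨J, hJ⟩ := Ideal.dvd_span_singleton.2 hα
    have hJ0 : J ≠ 0 := fun e => hα0 (by
      rw [e, mul_zero] at hJ
      exact Ideal.span_singleton_eq_bot.1 hJ)
    obtain ⟨β, hβ⟩ := Ideal.mem_span_singleton.1 hα2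
    have h2 : Ideal.span {β} = J ^ 2 := by
      refine mul_left_cancel₀ (pow_ne_zero 2 hI0) ?_
      rw [← mul_pow, ← hJ, hγ', Ideal.span_singleton_mul_span_singleton, ← hβ,
        Ideal.span_singleton_pow]
    have h3 : β ∈ box K T := fun σ => by
      have h4 := h1 σ
      have h5 : 0 < ‖σ (γ : K)‖ :=
        norm_pos_iff.2 ((map_ne_zero σ).2 (RingOfIntegers.coe_ne_zero_iff.2 hγ0))
      have h6 : (α : K) ^ 2 = γ * β := by exact_mod_cast congrArg (fun z : 𝓞 K => (z : K)) hβ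
      rw [← norm_pow, ← map_pow, h6, map_mul, norm_mul, mul_comm] at h4
      exact le_of_mul_le_mul_right h4 h5
    have h4 : (Algebra.norm ℤ β).natAbs = Ideal.absNorm J * Ideal.absNorm J := by
      rw [← Ideal.absNorm_span_singleton, h2, map_pow, sq]
    have h5 : ClassGroup.mk0 I = (ClassGroup.mk0 ⟨J, mem_nonZeroDivisors_of_ne_zero hJ0⟩)⁻¹ :=
      ClassGroup.mk0_eq_mk0_inv_iff.2 ⟨α, hα0, hJ.symm⟩
    rcases Int.natAbs_eq (Algebra.norm ℤ β) with e | e
    · exact ⟨β, _, ⟨h3, _, by rw [e, h4, Nat.cast_mul]⟩, h5, h2⟩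
    · refine ⟨-β, _, ⟨fun σ => ?_, Ideal.absNorm J, ?_⟩, h5, by rw [Ideal.span_singleton_neg, h2]⟩
      · simpa using h3 σ
      · have h6 : Algebra.norm ℤ (-1 : 𝓞 K) = -1 := by
          have := Algebra.norm_algebraMap (S := 𝓞 K) (-1 : ℤ)
          rwa [map_neg, map_one, RingOfIntegers.rank, hK, hn.neg_one_pow] at this
        rw [← neg_one_mul, map_mul, h6, e, h4]
        push_cast
        ring
  choose β J h1 h2 h3 using key
  have hfin : {β | β ∈ box K T ∧ IsSquare (Algebra.norm ℤ β)}.Finite :=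
    (box_finite K T).subset fun _ h => h.1
  have := hfin.to_subtype
  rw [← Nat.card_coe_set_eq]
  refine Nat.card_le_card_of_injective (fun x => ⟨β x, h1 x⟩) fun x y e => Subtype.ext ?_
  have h4 : (J x).1 ^ 2 = (J y).1 ^ 2 := by rw [← h3, ← h3, Subtype.mk.inj e]
  have h5 : J x = J y := Subtype.ext (associated_iff_eq.1 (associated_of_dvd_dvd
    ((UniqueFactorizationMonoid.pow_dvd_pow_iff_dvd two_ne_zero).1 h4.dvd)
    ((UniqueFactorizationMonoid.pow_dvd_pow_iff_dvd two_ne_zero).1 h4.symm.dvd)))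
  rw [h2, h2, h5]

end Pool.Agent.Lib.MP_830c64_nt
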