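import Pool.Agent.Lib.MP_830c64_nt.SigUp
import Pool.Agent.Lib.MP_830c64_nt.GnNa2

namespace Pool.Agent.Lib.MP_830c64_nt

open Polynomial
open scoped Classical

variable {k : Type*} [Field k] [CharZero k] [IsAlgClosed k] {f : k[X]} {g : ℕ}
  {v : AbsoluteValue k ℝ} {a : k} {r : ℝ}

theorem f_eq_prod (h : Crv f g) : f = (f.roots.map fun z => X - C z).prod := by
  exact (IsAlgClosed.splits f).eq_prod_roots_of_monic h.monic

theorem roots_card (h : Crv f g) : f.roots.card = 2 * g + 1 := by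
  rw [← h.deg]
  exact IsAlgClosed.card_roots_eq_natDegree

theorem roots_nodup (h : Crv f g) : f.roots.Nodup := by
  exact nodup_roots h.sep

theorem v_eval_f (h : Crv f g) (x : k) :
    v (f.eval x) = (f.roots.map fun z => v (x - z)).prod := by
  conv_lhs => rw [f_eq_prod h]
  rw [eval_multiset_prod, map_multiset_prod, Multiset.map_map, Multiset.map_map]
  simp

/-- Comparison of the disc `(a, r)` with the standard size `Hh`; the constant depends on `Q`.
Use `dat_exists` and `y_le`. -/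
theorem disc_cmp (h : Crv f g) (hr : 0 < r) (v : AbsoluteValue k ℝ) (a : k) (Q : Pt f) (t : ℝ) :
    ∃ c : ℝ, 1 ≤ c ∧ ∀ R : Pt f, max r (v (R.x - a)) ≤ c * Hh v Q R ∧
      max t (v R.y) ≤ c * ww v Q R * max r (v (R.x - a)) := by
  obtain ⟨κ, hd⟩ := dat_exists h.sep v
  obtain ⟨m, hm⟩ := y_le h hd
  have h1 := hd.one_le
  have ha := v.nonneg a
  have hq := v.nonneg Q.x
  have h2 : 0 ≤ (κ ^ m + |t|) * (1 + (1 + v a + v Q.x) / r) := by positivity
  refine ⟨1 + v a + r + (κ ^ m + |t|) * (1 + (1 + v a + v Q.x) / r), by linarith, fun R => ?_⟩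
  have hH := one_le_Hh (v := v) Q R
  have hw := one_le_ww (v := v) Q R
  have hx : v R.x ≤ Hh v Q R := le_max_of_le_right (le_max_right _ _)
  have hD : r ≤ max r (v (R.x - a)) := le_max_left _ _
  have hD' : v (R.x - a) ≤ max r (v (R.x - a)) := le_max_right _ _
  constructor
  · have := v.sub_le_add R.x a
    refine max_le ?_ ?_ <;> nlinarith
  · have a1 : 1 + v a + v Q.x ≤ (1 + v a + v Q.x) / r * max r (v (R.x - a)) := by
      rw [div_mul_eq_mul_div, le_div_iff₀ hr]
      exact mul_le_mul_of_nonneg_left hD (by positivity)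
    have a2 : v R.x ≤ v (R.x - a) + v a := by
      have := v.add_le (R.x - a) a
      rwa [sub_add_cancel] at this
    have a3 : Hh v Q R ≤ (1 + (1 + v a + v Q.x) / r) * max r (v (R.x - a)) := by
      rw [add_mul, one_mul]
      exact max_le (by linarith) (max_le (by linarith) (by linarith))
    have a4 : v R.y ≤ κ ^ m * (ww v Q R * Hh v Q R) := by
      refine (hm R).trans (mul_le_mul_of_nonneg_left ?_ (by positivity))
      rw [ww_mul_Hh h]
      exact Real.sqrt_le_sqrt (pow_le_pow_left₀ (by positivity) (max_le hH hx) _)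
    have a5 : t ≤ |t| * (ww v Q R * Hh v Q R) := (le_abs_self t).trans
      (le_mul_of_one_le_right (abs_nonneg t) (one_le_mul_of_one_le_of_one_le hw hH))
    have a6 : 0 ≤ κ ^ m * (ww v Q R * Hh v Q R) := by positivity
    have a7 : 0 ≤ |t| * (ww v Q R * Hh v Q R) := by positivity
    calc _ ≤ (κ ^ m + |t|) * (ww v Q R * Hh v Q R) := by
          rw [add_mul]
          exact max_le (by linarith) (by linarith)
      _ ≤ (κ ^ m + |t|) * (ww v Q R * ((1 + (1 + v a + v Q.x) / r) * max r (v (R.x - a)))) := by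
          gcongr
      _ = (κ ^ m + |t|) * (1 + (1 + v a + v Q.x) / r) * ww v Q R * max r (v (R.x - a)) := by
          ring
      _ ≤ _ := by
          gcongr
          linarith

theorem gc_nm (h : Crv f g) (hna : IsNonarchimedean v) (hr : 0 < r) {φ : CR f} (hφ : φ ≠ 0)
    {P : Pt f} (hP : v (P.x - a) ≤ r) {N : ℕ} {F : Multiset (Pt f)}
    (hd : dv φ = Multiset.replicate N P + F) :
    Real.log (gc v a r (nm φ)) = Real.log (v (nm φ).leadingCoeff) + N * Real.log r +
      (F.map fun R => Real.log (max r (v (R.x - a)))).sum := by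
  have h0 : v (nm φ).leadingCoeff ≠ 0 :=
    v.ne_zero (leadingCoeff_ne_zero.2 (nm_ne_zero h hφ))
  have h1 : ∀ x ∈ F.map fun R => max r (v (R.x - a)), x ≠ 0 := fun x hx => by
    obtain ⟨R, -, rfl⟩ := Multiset.mem_map.1 hx
    exact (lt_max_of_lt_left hr).ne'
  have h2 := gc_prod (a := a) hna hr (nm φ).leadingCoeff ((dv φ).map Pt.x)
  rw [Multiset.map_map, Multiset.map_map] at h2
  have h3 : gc v a r (nm φ) = v (nm φ).leadingCoeff *
      ((dv φ).map fun R => max r (v (R.x - a))).prod :=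
    (congrArg (gc v a r) (nm_eq_prod h hφ)).trans h2
  rw [h3, hd, Multiset.map_add, Multiset.prod_add, Multiset.map_replicate,
    Multiset.prod_replicate, max_eq_left hP,
    Real.log_mul h0 (mul_ne_zero (pow_ne_zero _ hr.ne') (Multiset.prod_ne_zero fun e => h1 _ e rfl)),
    Real.log_mul (pow_ne_zero _ hr.ne') (Multiset.prod_ne_zero fun e => h1 _ e rfl), Real.log_pow,
    Real.log_multiset_prod h1, Multiset.map_map, add_assoc]
  rfl

theorem ground_ev (h : Crv f g) (hna : IsNonarchimedean v) (hr : 0 < r)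
    (hodd : Odd (f.roots.countP fun z => v (z - a) < r)) {Q : Pt f} (hQx : v (Q.x - a) ≤ r)
    (ψ : CR f) : v (ev Q ψ) ≤ √(gc v a r (nm ψ)) := by
  have h1 := aniso_of_odd hna hr f.roots hodd ψ.re ψ.im
  rw [← f_eq_prod h, ← nm_def] at h1
  have a1 := v_eval_le_gc hna hr ψ.re hQx
  have a2 := v_eval_le_gc hna hr ψ.im hQx
  have a3 := v_eval_le_gc hna hr f hQx
  rw [← Q.on, map_pow] at a3
  rw [ev_def]
  refine (hna _ _).trans (max_le (Real.le_sqrt_of_sq_le ?_) (Real.le_sqrt_of_sq_le ?_))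
  · exact (pow_le_pow_left₀ (v.nonneg _) a1 2).trans ((le_max_left _ _).trans h1)
  · rw [map_mul, mul_pow, mul_comm]
    exact (mul_le_mul a3 (pow_le_pow_left₀ (v.nonneg _) a2 2) (sq_nonneg _)
      (gc_nonneg hr f)).trans ((le_max_right _ _).trans h1)

theorem ground_rm (hna : IsNonarchimedean v) (hr : 0 < r) {R : Pt f} {w : ℝ} (hw : 0 ≤ w)
    (hc : max √(gc v a r f) (v R.y) ≤ w * max r (v (R.x - a))) {ψ ψ' : CR f}
    (e : pol f (X - C R.x) * ψ' = ψ * yy f (C R.y)) :
    √(gc v a r (nm ψ')) ≤ w * √(gc v a r (nm ψ)) := by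
  have h1 := congrArg (fun u => gc v a r (nm u)) e
  simp only [nm_mul, nm_pol, nm_yy, gc_mul hna hr, gc_pow hna hr, gc_lin hr] at h1
  have h2 := gc_sub_le (a := a) hna hr (C R.y ^ 2) f
  rw [gc_pow hna hr, gc_C] at h2
  have hD : 0 < max r (v (R.x - a)) := lt_max_of_lt_left hr
  have h3 : gc v a r (C R.y ^ 2 - f) ≤ (w * max r (v (R.x - a))) ^ 2 := by
    refine h2.trans (max_le (pow_le_pow_left₀ (v.nonneg _) ((le_max_right _ _).trans hc) 2) ?_)
    rw [← Real.sq_sqrt (gc_nonneg hr f)]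
    exact pow_le_pow_left₀ (Real.sqrt_nonneg _) ((le_max_left _ _).trans hc) 2
  have h4 := gc_nonneg (v := v) (a := a) hr (nm ψ)
  rw [Real.sqrt_le_iff, mul_pow, Real.sq_sqrt h4]
  refine ⟨by positivity, le_of_mul_le_mul_left ?_ (pow_pos hD 2)⟩
  rw [h1]
  refine (mul_le_mul_of_nonneg_left h3 h4).trans (le_of_eq ?_)
  ring

/-- An odd number of roots in the open disc. Use `sig_up_rep` with `ν ψ = √(gc v a r (nm ψ))`,
`φ` from `rr_add` for `Multiset.replicate N P`, `aniso_of_odd` for the evaluation bound,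
`gc (nm (yy (C c))) ≤ max (v c ^ 2) (gc f)`, `disc_cmp`, `gc_nm` and `le_of_forall_nat`. -/
theorem ground (h : Crv f g) (hna : IsNonarchimedean v) (hr : 0 < r)
    (hodd : Odd (f.roots.countP fun z => v (z - a) < r)) {P Q : Pt f} (hP : P.y ≠ 0)
    (hQ : Q.y ≠ 0) (hne : Q ≠ P) (hPx : v (P.x - a) ≤ r) (hQx : v (Q.x - a) ≤ r) :
    -sig v Q P + Real.log (v (nz (Q.x - P.x))) ≤ Real.log r := by
  obtain ⟨c₀, -, hs⟩ := sig_up_rep h v
  obtain ⟨c, hc, hc'⟩ := disc_cmp h hr v a Q √(gc v a r f)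
  have hl := Real.log_nonneg hc
  refine le_of_forall_nat (c := g * Real.log c + g * (c₀ + 2 * Real.log c)) 0 fun N _ => ?_
  obtain ⟨φ, F, hφ, hd, hF⟩ := rr_add h (Multiset.replicate N P) fun R hR => by
    rwa [Multiset.eq_of_mem_replicate hR]
  have h1 := (hs P Q φ N F (fun ψ => √(gc v a r (nm ψ))) c hQ hne hφ hd hF hc
    (fun _ => Real.sqrt_nonneg _) (ground_ev h hna hr hodd hQx) fun R _ ψ ψ' e =>
      ground_rm hna hr (mul_nonneg (by linarith) (zero_le_one.trans (one_le_ww Q R)))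
        (hc' R).2 e).2
  have h2 := gc_nm h hna hr hφ hPx hd
  rw [Real.log_sqrt (gc_nonneg hr _)] at h1
  have h3 : (F.map fun R => Real.log (max r (v (R.x - a)))).sum ≤
      (F.map fun R => Real.log c + Real.log (Hh v Q R)).sum :=
    Multiset.sum_map_le_sum_map _ _ fun R _ => by
      rw [← Real.log_mul (by linarith) (zero_lt_one.trans_le (one_le_Hh Q R)).ne']
      exact Real.log_le_log (lt_max_of_lt_left hr) (hc' R).1
  rw [Multiset.sum_map_add, Multiset.map_const', Multiset.sum_replicate, nsmul_eq_mul] at h3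
  have h4 : F.card * Real.log c ≤ g * Real.log c :=
    mul_le_mul_of_nonneg_right (by exact_mod_cast hF) hl
  linarith

theorem ground_self (h : Crv f g) (hna : IsNonarchimedean v) (hr : 0 < r)
    (hodd : Odd (f.roots.countP fun z => v (z - a) < r)) {P : Pt f} (hP : P.y ≠ 0)
    (hPx : v (P.x - a) ≤ r) : sig v P P ≤ Real.log r := by
  have h1 := ground h hna hr hodd (Q := P.inv) hP (neg_ne_zero.2 hP) (inv_ne hP) hPx hPx
  rwa [sig_inv_left h, neg_neg, show P.inv.x - P.x = 0 from sub_self _, nz_zero, map_one,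
    Real.log_one, add_zero] at h1

end Pool.Agent.Lib.MP_830c64_nt
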