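import Pool.Agent.Lib.MP_830c64_nt.GnAniso

namespace Pool.Agent.Lib.MP_830c64_nt

open Polynomial
open scoped Classical

variable {k : Type*} [Field k] [CharZero k] [IsAlgClosed k] {f : k[X]} {g : ℕ}
  {v : AbsoluteValue k ℝ} {κ : ℝ}

theorem keyd_pow (h1 : 1 ≤ κ) (ht : ∀ a b, v (a + b) ≤ κ * max (v a) (v b)) (m₀ i : ℕ) :
    ∃ m : ℕ, ∀ x x' : k, v x ≤ κ ^ m₀ → v x' ≤ κ ^ m₀ → ∃ G : k, v G ≤ κ ^ m ∧
      x' ^ i = x ^ i + i * x ^ (i - 1) * (x' - x) + G * (x' - x) ^ 2 := by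
  induction i with
  | zero => exact ⟨0, fun x x' _ _ => ⟨0, by simp, by simp⟩⟩
  | succ i ih =>
    obtain ⟨m, hm⟩ := ih
    refine ⟨(i + m₀ * (i - 1)) + (m₀ + m) + 1, fun x x' hx hx' => ?_⟩
    obtain ⟨G, hG, e⟩ := hm x x' hx hx'
    refine ⟨i * x ^ (i - 1) + x' * G, (ht _ _).trans ?_, ?_⟩
    · rw [pow_succ']
      refine mul_le_mul_of_nonneg_left (max_le ?_ ?_) (by linarith)
      · refine le_trans ?_ (pow_le_pow_right₀ h1 (Nat.le_add_right _ _))
        rw [map_mul, map_pow, pow_add, pow_mul]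
        exact mul_le_mul (v_nat_le h1 ht i) (pow_le_pow_left₀ (v.nonneg _) hx _)
          (pow_nonneg (v.nonneg _) _) (by positivity)
      · refine le_trans ?_ (pow_le_pow_right₀ h1 (Nat.le_add_left _ _))
        rw [map_mul, pow_add]
        exact mul_le_mul hx' hG (v.nonneg _) (by positivity)
    · rw [pow_succ x' i, e, Nat.add_sub_cancel, Nat.cast_succ]
      cases i with
      | zero =>
        rw [Nat.cast_zero]
        ring
      | succ j =>
        rw [Nat.add_sub_cancel]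
        ring

theorem keyd_taylor (h1 : 1 ≤ κ) (ht : ∀ a b, v (a + b) ≤ κ * max (v a) (v b)) (m₀ : ℕ)
    {p : k[X]} (hp : ∀ i, v (p.coeff i) ≤ κ) :
    ∃ m : ℕ, ∀ x x' : k, v x ≤ κ ^ m₀ → v x' ≤ κ ^ m₀ → ∃ G : k, v G ≤ κ ^ m ∧
      p.eval x' = p.eval x + p.derivative.eval x * (x' - x) + G * (x' - x) ^ 2 := by
  choose m hm using keyd_pow h1 ht m₀
  refine ⟨(p.natDegree + 1) + (1 + (Finset.range (p.natDegree + 1)).sup m),
    fun x x' hx hx' => ?_⟩
  choose G hG e using fun i => hm i x x' hx hx'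
  refine ⟨∑ i ∈ Finset.range (p.natDegree + 1), p.coeff i * G i, ?_, ?_⟩
  · refine (v_sum_le h1 ht _ _ (B := κ ^ (1 + (Finset.range (p.natDegree + 1)).sup m))
      (by positivity) fun i hi => ?_).trans ?_
    · rw [map_mul, pow_add, pow_one]
      exact mul_le_mul (hp i) ((hG i).trans (pow_le_pow_right₀ h1 (Finset.le_sup hi)))
        (v.nonneg _) (by linarith)
    · rw [Finset.card_range, ← pow_add]
  · rw [derivative_eval, sum_over_range _ (by simp), eval_eq_sum_range, eval_eq_sum_range,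
      Finset.sum_mul, Finset.sum_mul, ← Finset.sum_add_distrib, ← Finset.sum_add_distrib]
    refine Finset.sum_congr rfl fun i _ => ?_
    rw [e i]
    ring

theorem keyd_eval (h1 : 1 ≤ κ) (ht : ∀ a b, v (a + b) ≤ κ * max (v a) (v b)) (m₀ : ℕ)
    {p : k[X]} (hp : ∀ i, v (p.coeff i) ≤ κ) {x : k} (hx : v x ≤ κ ^ m₀) :
    v (p.eval x) ≤ κ ^ ((p.natDegree + 1) + (1 + m₀ * p.natDegree)) := by
  refine (v_eval_le h1 ht p hx).trans ?_
  rw [pow_add κ (p.natDegree + 1), pow_add κ 1, pow_one, pow_mul]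
  exact mul_le_mul_of_nonneg_left (gn_le_of_coeff (one_le_pow₀ h1) p hp) (by positivity)

/-- Write `x ^ n = f x - lower terms`, `H = v x > 1`: `H ^ n ≤ κ * max (v (f x)) (κ ^ (n+1) * H ^ (n-1))`,
and the second term cannot be the larger one when `H > κ ^ (n + 2)`. -/
theorem y_large (h : Crv f g) (hd : Dat v f κ) :
    ∃ m : ℕ, ∀ P : Pt f, κ ^ m < max 1 (v P.x) →
      √(max 1 (v P.x) ^ (2 * g + 1)) ≤ κ * v P.y := by
  have h1 := hd.one_le
  refine ⟨2 * g + 1 + 2, fun P hP => ?_⟩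
  have h2 : 1 < max 1 (v P.x) := (one_le_pow₀ h1).trans_lt hP
  have h3 : 1 < v P.x := (lt_max_iff.1 h2).resolve_left (lt_irrefl _)
  rw [max_eq_right h3.le] at hP ⊢
  have e : P.x ^ (2 * g + 1) =
      P.y ^ 2 - ∑ i ∈ Finset.range (2 * g + 1), f.coeff i * P.x ^ i := by
    have h4 : f.coeff (2 * g + 1) = 1 := by
      rw [← h.deg]
      exact h.monic.coeff_natDegree
    rw [P.on, eval_eq_sum_range, h.deg, Finset.sum_range_succ, h4]
    ring
  have h5 : v (∑ i ∈ Finset.range (2 * g + 1), f.coeff i * P.x ^ i) ≤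
      κ ^ (2 * g + 1) * (κ * v P.x ^ (2 * g)) := by
    refine (v_sum_le h1 hd.tri _ _ (B := κ * v P.x ^ (2 * g)) (by positivity)
      fun i hi => ?_).trans (by rw [Finset.card_range])
    rw [map_mul, map_pow]
    exact mul_le_mul (hd.cf i) (pow_le_pow_right₀ h3.le (Nat.lt_succ_iff.1 (Finset.mem_range.1 hi)))
      (by positivity) (by linarith)
  have h6 := v_sub_le hd.tri (P.y ^ 2) (∑ i ∈ Finset.range (2 * g + 1), f.coeff i * P.x ^ i)
  rw [← e, map_pow, map_pow, mul_max_of_nonneg _ _ (by linarith)] at h6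
  have h7 : v P.x ^ (2 * g + 1) ≤ κ * v P.y ^ 2 := by
    refine (le_max_iff.1 h6).resolve_right (not_le.2 ?_)
    calc κ * v (∑ i ∈ Finset.range (2 * g + 1), f.coeff i * P.x ^ i)
        ≤ κ * (κ ^ (2 * g + 1) * (κ * v P.x ^ (2 * g))) :=
          mul_le_mul_of_nonneg_left h5 (by linarith)
      _ = κ ^ (2 * g + 1 + 2) * v P.x ^ (2 * g) := by ring
      _ < v P.x * v P.x ^ (2 * g) := mul_lt_mul_of_pos_right hP (by positivity)
      _ = v P.x ^ (2 * g + 1) := by ring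
  refine Real.sqrt_le_iff.2 ⟨mul_nonneg (by linarith) (v.nonneg _), h7.trans ?_⟩
  rw [mul_pow]
  exact mul_le_mul_of_nonneg_right (by nlinarith) (by positivity)

/-- The divided difference: `f x - f x' = (x - x') * q`, `q = f' x + (x' - x) * G` with `G` bounded
(`G` is the value of `(taylor x f).divX.divX` at `x' - x`; bound the coefficients of `taylor x f`
with `gn_prod_le` or `taylor_coeff` and `v_nat_le`). Evaluate the Bezout identity at `x`. -/
theorem bez_low (h : Crv f g) (hd : Dat v f κ) (m₀ : ℕ) :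
    ∃ m : ℕ, ∀ x x' q : k, v x ≤ κ ^ m₀ → v x' ≤ κ ^ m₀ →
      (x = x' ∧ q = f.derivative.eval x ∨ x ≠ x' ∧ f.eval x - f.eval x' = (x - x') * q) →
      1 ≤ κ ^ m * max (v (x - x')) (max (v (f.eval x)) (v q)) := by
  have h1 := hd.one_le
  obtain ⟨U, V, hUV, hU, hV⟩ := hd.bez
  obtain ⟨b, hb⟩ := keyd_taylor h1 hd.tri m₀ hd.cf
  obtain ⟨a, ha⟩ : ∃ a : ℕ, ∀ x, v x ≤ κ ^ m₀ → v (U.eval x) ≤ κ ^ a ∧ v (V.eval x) ≤ κ ^ a :=
    ⟨_, fun x hx =>
      ⟨(keyd_eval h1 hd.tri m₀ hU hx).trans (pow_le_pow_right₀ h1 (Nat.le_add_right _ _)),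
        (keyd_eval h1 hd.tri m₀ hV hx).trans (pow_le_pow_right₀ h1 (Nat.le_add_left _ _))⟩⟩
  refine ⟨a + (b + 1) + 1, fun x x' q hx hx' hq => ?_⟩
  set M := max (v (x - x')) (max (v (f.eval x)) (v q)) with hM
  have m1 : v (x - x') ≤ M := le_max_left _ _
  have m2 : v (f.eval x) ≤ M := (le_max_left _ _).trans (le_max_right _ _)
  have m3 : v q ≤ M := (le_max_right _ _).trans (le_max_right _ _)
  have m0 : 0 ≤ M := (v.nonneg _).trans m1
  have hb1 : 1 ≤ κ ^ b := one_le_pow₀ h1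
  have hb2 : 1 ≤ κ ^ (b + 1) := one_le_pow₀ h1
  have h2 : v (f.derivative.eval x) ≤ κ ^ (b + 1) * M := by
    rcases hq with ⟨-, rfl⟩ | ⟨hne, e⟩
    · exact m3.trans (le_mul_of_one_le_left m0 hb2)
    · obtain ⟨G, hG, e'⟩ := hb x x' hx hx'
      have e2 : f.derivative.eval x = q + G * (x - x') := by
        apply mul_left_cancel₀ (sub_ne_zero.2 hne)
        linear_combination e' + e
      rw [e2, pow_succ', mul_assoc]
      refine (hd.tri _ _).trans (mul_le_mul_of_nonneg_left (max_le ?_ ?_) (by linarith))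
      · exact m3.trans (le_mul_of_one_le_left m0 hb1)
      · rw [map_mul]
        exact mul_le_mul hG m1 (v.nonneg _) (by linarith)
  have h3 := hd.tri (U.eval x * f.eval x) (V.eval x * f.derivative.eval x)
  have h4 := congrArg (eval x) hUV
  rw [eval_add, eval_mul, eval_mul, eval_one] at h4
  rw [h4, map_one] at h3
  refine h3.trans ?_
  rw [pow_succ' κ (a + (b + 1)), mul_assoc]
  refine mul_le_mul_of_nonneg_left (max_le ?_ ?_) (by linarith)
  · rw [map_mul, pow_add κ a, mul_assoc]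
    exact mul_le_mul (ha x hx).1 (m2.trans (le_mul_of_one_le_left m0 hb2)) (v.nonneg _)
      (by positivity)
  · rw [map_mul, pow_add κ a, mul_assoc]
    exact mul_le_mul (ha x hx).2 h2 (v.nonneg _) (by positivity)

end Pool.Agent.Lib.MP_830c64_nt
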