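import Pool.Agent.Lib.MP_830c64_nt.KeyD

namespace Pool.Agent.Lib.MP_830c64_nt

open Polynomial
open scoped Classical

variable {k : Type*} [Field k] [CharZero k] [IsAlgClosed k] {f : k[X]} {g : ℕ}
  {v : AbsoluteValue k ℝ} {κ : ℝ}

theorem keyd2_half (hd : Dat v f κ) {y s t : k} (e : 2 * y = s + t) :
    v y ≤ κ ^ 2 * max (v s) (v t) := by
  have h0 : 0 ≤ κ := zero_le_one.trans hd.one_le
  have h1 : v y ≤ κ * v 2 * v y := le_mul_of_one_le_left (v.nonneg y) hd.two
  have h2 : v 2 * v y ≤ κ * max (v s) (v t) := by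
    rw [← v.map_mul, e]
    exact hd.tri s t
  calc v y ≤ κ * (v 2 * v y) := by rw [← mul_assoc]; exact h1
    _ ≤ κ * (κ * max (v s) (v t)) := mul_le_mul_of_nonneg_left h2 h0
    _ = κ ^ 2 * max (v s) (v t) := by ring

theorem keyd2_mu_self (P : Pt f) : mu v P P = v (2 * P.y) := by
  simp [mu, sl]

theorem keyd2_mu_inv {P : Pt f} (hy : P.y ≠ 0) :
    mu v P P.inv = max (ww v P P.inv) (v (f.derivative.eval P.x) / v (2 * P.y)) := by
  have h1 : P.inv ≠ P := inv_ne hy
  have h2 : P.inv.y ≠ P.y := fun e => h1 (Pt.ext rfl e)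
  have h3 : P.inv.x = P.x := rfl
  rw [mu, if_neg h1, sl, if_pos h3, if_neg h2, map_div₀]

theorem keyd2_mu_ne {P R : Pt f} (hx : R.x ≠ P.x) :
    mu v P R = max (ww v P R) (v (P.y + R.y) / v (P.x - R.x)) := by
  rw [mu, if_neg fun e => hx (by rw [e]), sl, if_neg hx, map_div₀]

theorem keyd2_diag (hd : Dat v f κ) {y d : k} (hy : y ≠ 0) {w : ℝ} (hw : 1 ≤ w) :
    w * v y ≤ κ ^ 2 * (v (2 * y) * max w (v d / v (2 * y))) ∧
      v d ≤ v (2 * y) * max w (v d / v (2 * y)) := by
  have h0 : 0 ≤ κ := zero_le_one.trans hd.one_le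
  have h2 : 0 < v (2 * y) := v.pos (mul_ne_zero two_ne_zero hy)
  constructor
  · have h3 : v y ≤ κ ^ 2 * v (2 * y) := by
      have := keyd2_half hd (y := y) (s := 2 * y) (t := 0) (add_zero _).symm
      rwa [v.map_zero, max_eq_left h2.le] at this
    calc w * v y ≤ max w (v d / v (2 * y)) * (κ ^ 2 * v (2 * y)) :=
          mul_le_mul (le_max_left _ _) h3 (v.nonneg _) (le_max_of_le_left (by linarith))
      _ = _ := by ring
  · calc v d = v (2 * y) * (v d / v (2 * y)) := by field_simp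
      _ ≤ _ := mul_le_mul_of_nonneg_left (le_max_right _ _) h2.le

theorem keyd2_low (hd : Dat v f κ) {P : Pt f} (hy : P.y ≠ 0) (R : Pt f) {A : ℝ}
    (hA : A = mu v P R * mu v P.inv R * v (nz (P.x - R.x))) :
    ∃ q : k, (P.x = R.x ∧ q = f.derivative.eval P.x ∨
        P.x ≠ R.x ∧ f.eval P.x - f.eval R.x = (P.x - R.x) * q) ∧
      v (P.x - R.x) ≤ A ∧ v q ≤ A ∧ ww v P R * v P.y ≤ κ ^ 2 * A ∧
        ww v P R * v R.y ≤ κ ^ 2 * A := by
  have h0 : 0 ≤ κ := zero_le_one.trans hd.one_le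
  have hw := one_le_ww (v := v) P R
  have hyi : P.inv.y ≠ 0 := neg_ne_zero.2 hy
  by_cases hx : R.x = P.x
  · have hA0 : 0 ≤ A := by
      rw [hA]
      exact mul_nonneg (mul_nonneg (mu_pos hy R).le (mu_pos hyi R).le) (v.nonneg _)
    have e1 : v (2 * P.inv.y) = v (2 * P.y) := by
      rw [show 2 * P.inv.y = -(2 * P.y) from mul_neg _ _, v.map_neg]
    have hA' : A = v (2 * P.y) * max (ww v P R) (v (f.derivative.eval P.x) / v (2 * P.y)) := by
      rw [hA, hx, sub_self, nz_zero, v.map_one, mul_one]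
      rcases eq_or_eq_inv hx with e | e
      · have e2 := keyd2_mu_inv (v := v) hyi
        rw [inv_inv, ww_inv_left, e1] at e2
        rw [e, keyd2_mu_self, e2]
        rfl
      · rw [e, keyd2_mu_self, keyd2_mu_inv hy, e1, mul_comm]
    obtain ⟨h1, h2⟩ := keyd2_diag hd (d := f.derivative.eval P.x) hy hw
    rw [← hA'] at h1 h2
    refine ⟨_, Or.inl ⟨hx.symm, rfl⟩, ?_, h2, h1, ?_⟩
    · rw [hx, sub_self, v.map_zero]
      exact hA0
    · rcases eq_or_eq_inv hx with e | e
      · rw [show R.y = P.y by rw [e]]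
        exact h1
      · rw [show R.y = -P.y by rw [e]; rfl, v.map_neg]
        exact h1
  · have hne : P.x - R.x ≠ 0 := sub_ne_zero.2 fun e => hx e.symm
    have hD : 0 < v (P.x - R.x) := v.pos hne
    have e1 : mu v P.inv R = max (ww v P R) (v (-P.y + R.y) / v (P.x - R.x)) := by
      rw [keyd2_mu_ne (P := P.inv) hx, ww_inv_left]
      rfl
    rw [keyd2_mu_ne hx, e1, nz_of_ne hne] at hA
    set w := ww v P R
    set D := v (P.x - R.x) with hDD
    set a := v (P.y + R.y) with ha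
    set b := v (-P.y + R.y) with hb
    have a0 : 0 ≤ a := v.nonneg _
    have b0 : 0 ≤ b := v.nonneg _
    have key : ∀ s t : ℝ, 0 ≤ s → 0 ≤ t → s ≤ max w (a / D) → t ≤ max w (b / D) →
        s * t * D ≤ A := fun s t hs ht h1 h2 => by
      rw [hA]
      exact mul_le_mul_of_nonneg_right (mul_le_mul h1 h2 ht (hs.trans h1)) hD.le
    have w0 : 0 ≤ w := by linarith
    have k1 : w * a ≤ A := by
      have := key (a / D) w (by positivity) w0 (le_max_right _ _) (le_max_left _ _)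
      calc w * a = a / D * w * D := by field_simp
        _ ≤ A := this
    have k2 : w * b ≤ A := by
      have := key w (b / D) w0 (by positivity) (le_max_left _ _) (le_max_right _ _)
      calc w * b = w * (b / D) * D := by field_simp
        _ ≤ A := this
    have k3 : w * max a b ≤ A := by
      rw [mul_max_of_nonneg _ _ w0]
      exact max_le k1 k2
    have k4 : ∀ y : k, v y ≤ κ ^ 2 * max a b → w * v y ≤ κ ^ 2 * A := fun y h1 =>
      calc w * v y ≤ w * (κ ^ 2 * max a b) := mul_le_mul_of_nonneg_left h1 w0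
        _ = κ ^ 2 * (w * max a b) := by ring
        _ ≤ κ ^ 2 * A := mul_le_mul_of_nonneg_left k3 (by positivity)
    refine ⟨(f.eval P.x - f.eval R.x) / (P.x - R.x), Or.inr ⟨fun e => hx e.symm, by field_simp⟩,
      ?_, ?_, k4 _ ?_, k4 _ ?_⟩
    · have := key 1 1 zero_le_one zero_le_one (le_max_of_le_left hw) (le_max_of_le_left hw)
      rwa [one_mul, one_mul] at this
    · have := key (a / D) (b / D) (by positivity) (by positivity) (le_max_right _ _)
        (le_max_right _ _)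
      have e2 : f.eval P.x - f.eval R.x = -((P.y + R.y) * (-P.y + R.y)) := by
        rw [← P.on, ← R.on]
        ring
      calc v ((f.eval P.x - f.eval R.x) / (P.x - R.x)) = a / D * (b / D) * D := by
            rw [map_div₀, e2, v.map_neg, v.map_mul, ← ha, ← hb, ← hDD]
            field_simp
        _ ≤ A := this
    · have := keyd2_half hd (y := P.y) (s := P.y + R.y) (t := -(-P.y + R.y)) (by ring)
      rwa [v.map_neg] at this
    · exact keyd2_half hd (y := R.y) (s := P.y + R.y) (t := -P.y + R.y) (by ring)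

theorem keyd2_ww (h : Crv f g) (P R : Pt f) :
    Hh v P R ^ (2 * g) = ww v P R * √(Hh v P R ^ (2 * g + 1)) := by
  rw [← ww_mul_Hh h, ← ww_sq h]
  ring

theorem keyd2_y (h : Crv f g) (hd : Dat v f κ) :
    ∃ m : ℕ, ∀ P R : Pt f, v P.y ≤ κ ^ m * (ww v P R * Hh v P R) ∧
      v R.y ≤ κ ^ m * (ww v P R * Hh v P R) := by
  obtain ⟨m, hm⟩ := y_le h hd
  have h0 : 0 ≤ κ := zero_le_one.trans hd.one_le
  have key : ∀ (Q : Pt f) (H : ℝ), max 1 (v Q.x) ≤ H → v Q.y ≤ κ ^ m * √(H ^ (2 * g + 1)) :=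
    fun Q H hH => (hm Q).trans (mul_le_mul_of_nonneg_left (Real.sqrt_le_sqrt
      (pow_le_pow_left₀ (le_max_of_le_left zero_le_one) hH _)) (by positivity))
  refine ⟨m, fun P R => ?_⟩
  rw [ww_mul_Hh h]
  exact ⟨key P _ (max_le_max le_rfl (le_max_left _ _)),
    key R _ (max_le_max le_rfl (le_max_right _ _))⟩

/-- `mu P R * mu P.inv R * v (P.x - R.x)` is at least each of `w ^ 2 * v Δ`, `w * v (y + y')`,
`w * v (y - y')`, `v q` (divided difference); `max (v (y + y')) (v (y - y'))` controls `v y` and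
`v y'` through `tri` and `two`. If `Hh > κ ^ m₀` use `y_large` for the point with the larger `x`,
otherwise `bez_low`. For `R.x = P.x` the product is `v (2 y) * max w (v (f' x / (2 y)))`. -/
theorem key_D (h : Crv f g) (hd : Dat v f κ) :
    ∃ m : ℕ, ∀ P R : Pt f, P.y ≠ 0 →
      Hh v P R ^ (2 * g) ≤ κ ^ m * (mu v P R * mu v P.inv R * v (nz (P.x - R.x))) := by
  obtain ⟨m₀, h₀⟩ := y_large h hd
  obtain ⟨m₁, h₁⟩ := bez_low h hd m₀
  obtain ⟨m₂, h₂⟩ := y_le h hd
  have k1 := hd.one_le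
  have k0 : 0 < κ := zero_lt_one.trans_le k1
  refine ⟨m₀ * (2 * g) + (m₁ + (m₂ + m₀ * (2 * g + 1) + 2)) + 3, fun P R hy => ?_⟩
  obtain ⟨q, hq, a1, a2, a3, a4⟩ := keyd2_low hd hy R rfl
  set A := mu v P R * mu v P.inv R * v (nz (P.x - R.x))
  have A0 : 0 ≤ A := (v.nonneg _).trans a1
  have hw := one_le_ww (v := v) P R
  have mono : ∀ {a b : ℕ}, a ≤ b → κ ^ a * A ≤ κ ^ b * A := fun hab =>
    mul_le_mul_of_nonneg_right (pow_le_pow_right₀ k1 hab) A0
  by_cases hH : κ ^ m₀ < Hh v P R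
  · have key : ∀ Q : Pt f, max 1 (v Q.x) = Hh v P R → ww v P R * v Q.y ≤ κ ^ 2 * A →
        Hh v P R ^ (2 * g) ≤ κ ^ 3 * A := fun Q e hQ => by
      have h3 := h₀ Q (by rw [e]; exact hH)
      rw [e] at h3
      calc Hh v P R ^ (2 * g) = ww v P R * √(Hh v P R ^ (2 * g + 1)) := keyd2_ww h P R
        _ ≤ ww v P R * (κ * v Q.y) := mul_le_mul_of_nonneg_left h3 (by linarith)
        _ = κ * (ww v P R * v Q.y) := by ring
        _ ≤ κ * (κ ^ 2 * A) := mul_le_mul_of_nonneg_left hQ k0.le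
        _ = κ ^ 3 * A := by ring
    refine le_trans ?_ (mono (a := 3) (by omega))
    rcases le_total (v P.x) (v R.x) with e | e
    · exact key R (by rw [Hh, max_eq_right e]) a4
    · exact key P (by rw [Hh, max_eq_left e]) a3
  · have hH' : Hh v P R ≤ κ ^ m₀ := not_lt.1 hH
    have x1 : v P.x ≤ κ ^ m₀ := (le_max_of_le_right (le_max_left _ _)).trans hH'
    have x2 : v R.x ≤ κ ^ m₀ := (le_max_of_le_right (le_max_right _ _)).trans hH'
    have b1 := h₁ P.x R.x q x1 x2 hq
    have y1 : v P.y ≤ κ ^ 2 * A := (le_mul_of_one_le_left (v.nonneg _) hw).trans a3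
    have y2 : v P.y ≤ κ ^ (m₂ + m₀ * (2 * g + 1)) := by
      refine (h₂ P).trans ?_
      rw [pow_add κ m₂, pow_mul]
      refine mul_le_mul_of_nonneg_left ?_ (by positivity)
      have c1 : (1 : ℝ) ≤ max 1 (v P.x) ^ (2 * g + 1) := one_le_pow₀ (le_max_left _ _)
      refine (Real.sqrt_le_iff.2 ⟨by linarith, by nlinarith⟩).trans
        (pow_le_pow_left₀ (le_max_of_le_left zero_le_one) (max_le (one_le_pow₀ k1) x1) _)
    have y3 : v (f.eval P.x) ≤ κ ^ (m₂ + m₀ * (2 * g + 1) + 2) * A := by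
      rw [← P.on, sq, v.map_mul, pow_add _ _ 2, mul_assoc]
      exact mul_le_mul y2 y1 (v.nonneg _) (by positivity)
    have le1 : A ≤ κ ^ (m₂ + m₀ * (2 * g + 1) + 2) * A :=
      le_mul_of_one_le_left A0 (one_le_pow₀ k1)
    have b2 : 1 ≤ κ ^ (m₁ + (m₂ + m₀ * (2 * g + 1) + 2)) * A := by
      rw [pow_add κ m₁, mul_assoc]
      exact b1.trans (mul_le_mul_of_nonneg_left
        (max_le (a1.trans le1) (max_le y3 (a2.trans le1))) (by positivity))
    refine le_trans ?_ (mono (a := m₀ * (2 * g) + (m₁ + (m₂ + m₀ * (2 * g + 1) + 2))) (by omega))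
    rw [pow_add κ (m₀ * (2 * g)), mul_assoc, pow_mul κ m₀]
    exact (pow_le_pow_left₀ (zero_le_one.trans (one_le_Hh P R)) hH' _).trans
      (le_mul_of_one_le_right (by positivity) b2)

theorem sn_le (h : Crv f g) (hd : Dat v f κ) :
    ∃ m : ℕ, ∀ P R : Pt f, P.y ≠ 0 → R ≠ P.inv →
      sn v P R ≤ Real.log (Hh v P R) - Real.log (v (nz (P.x - R.x))) + m * Real.log κ := by
  obtain ⟨m, hm⟩ := keyd2_y h hd
  have k1 := hd.one_le
  have k0 : 0 < κ := zero_lt_one.trans_le k1
  refine ⟨m + 1, fun P R hy hR => ?_⟩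
  have hw := one_le_ww (v := v) P R
  have hH := one_le_Hh (v := v) P R
  obtain ⟨y1, y2⟩ := hm P R
  have hD : 0 < v (nz (P.x - R.x)) := v.pos (nz_ne_zero _)
  have m1 := mu_pos (v := v) hy R
  have m2 : ww v P R ≤ mu v P.inv R := by
    rw [mu, if_neg hR, ww_inv_left]
    exact le_max_left _ _
  have s1 : v (P.y + R.y) ≤ κ ^ (m + 1) * (ww v P R * Hh v P R) := by
    rw [pow_succ', mul_assoc]
    exact (hd.tri _ _).trans (mul_le_mul_of_nonneg_left (max_le y1 y2) k0.le)
  have key : mu v P R * v (nz (P.x - R.x)) ≤ κ ^ (m + 1) * (ww v P R * Hh v P R) := by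
    by_cases hx : R.x = P.x
    · have e : R = P := (eq_or_eq_inv hx).resolve_right hR
      rw [hx, sub_self, nz_zero, v.map_one, mul_one]
      rw [e] at s1 ⊢
      rw [keyd2_mu_self, two_mul]
      exact s1
    · have hne : P.x - R.x ≠ 0 := sub_ne_zero.2 fun e => hx e.symm
      have hD' : 0 < v (P.x - R.x) := v.pos hne
      rw [keyd2_mu_ne hx, nz_of_ne hne, max_mul_of_nonneg _ _ hD'.le, div_mul_cancel₀ _ hD'.ne']
      refine max_le ?_ s1
      have d1 : v (P.x - R.x) ≤ κ * Hh v P R := (v_sub_le hd.tri _ _).trans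
        (mul_le_mul_of_nonneg_left (le_max_right _ _) k0.le)
      have d2 : κ ≤ κ ^ (m + 1) := le_self_pow₀ k1 (Nat.succ_ne_zero m)
      calc ww v P R * v (P.x - R.x) ≤ ww v P R * (κ * Hh v P R) :=
            mul_le_mul_of_nonneg_left d1 (by linarith)
        _ = κ * (ww v P R * Hh v P R) := by ring
        _ ≤ _ := mul_le_mul_of_nonneg_right d2 (by positivity)
  have l1 := Real.log_le_log (mul_pos m1 hD) key
  rw [Real.log_mul m1.ne' hD.ne', Real.log_mul (by positivity) (by positivity),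
    Real.log_mul (by positivity) (by positivity), Real.log_pow] at l1
  have l2 := Real.log_le_log (by linarith) m2
  rw [sn]
  linarith

theorem sn_self_le (h : Crv f g) (hd : Dat v f κ) :
    ∃ m : ℕ, ∀ P : Pt f, P.y ≠ 0 →
      sn v P P ≤ 2 * Real.log (v P.y) - 2 * g * Real.log (max 1 (v P.x)) + m * Real.log κ := by
  obtain ⟨m, hm⟩ := key_D h hd
  have k1 := hd.one_le
  have k0 : 0 < κ := zero_lt_one.trans_le k1
  refine ⟨m + 2, fun P hy => ?_⟩
  have h1 := hm P P hy
  have e : Hh v P P = max 1 (v P.x) := by rw [Hh, max_self]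
  have m1 := mu_pos (v := v) hy P
  have m2 := mu_pos (v := v) (P := P.inv) (neg_ne_zero.2 hy) P
  have hH : (0 : ℝ) < max 1 (v P.x) := lt_max_of_lt_left one_pos
  rw [e, sub_self, nz_zero, v.map_one, mul_one] at h1
  have l1 := Real.log_le_log (by positivity) h1
  rw [Real.log_mul (by positivity) (by positivity), Real.log_mul m1.ne' m2.ne', Real.log_pow,
    Real.log_pow] at l1
  have y0 : 0 < v P.y := v.pos hy
  have h2 : mu v P P ≤ κ * v P.y := by
    have := hd.tri P.y P.y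
    rwa [max_self, ← two_mul, ← keyd2_mu_self] at this
  have l2 := Real.log_le_log m1 h2
  rw [Real.log_mul k0.ne' y0.ne'] at l2
  rw [sn]
  push_cast at l1 ⊢
  linarith

end Pool.Agent.Lib.MP_830c64_nt
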