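import Pool.Agent.Lib.MP_830c64_nt.GnAniso2
import Pool.Agent.Lib.MP_830c64_nt.KeyD2

namespace Pool.Agent.Lib.MP_830c64_nt

open Polynomial
open scoped Classical

variable {k : Type*} [Field k] [CharZero k] [IsAlgClosed k] {f : k[X]} {g : ℕ}
  {v : AbsoluteValue k ℝ} {κ : ℝ}

theorem keyk_log {α : Type*} (S : Multiset α) (F : α → ℝ) (hF : ∀ R, 0 < F R) :
    0 < (S.map F).prod ∧ Real.log (S.map F).prod = (S.map fun R => Real.log (F R)).sum := by
  induction S using Multiset.induction_on with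
  | empty => simp
  | cons a s ih =>
    simp only [Multiset.map_cons, Multiset.prod_cons, Multiset.sum_cons]
    exact ⟨mul_pos (hF a) ih.1, by rw [Real.log_mul (hF a).ne' ih.1.ne', ih.2]⟩

theorem keyk_sum {α : Type*} (S : Multiset α) {F G : α → ℝ} {c : ℝ} (h : ∀ R, F R ≤ G R + c) :
    (S.map F).sum ≤ (S.map G).sum + S.card * c := by
  induction S using Multiset.induction_on with
  | empty => simp
  | cons a s ih =>
    simp only [Multiset.map_cons, Multiset.sum_cons, Multiset.card_cons]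
    push_cast
    linarith [h a]

theorem keyk_up (h : Crv f g) (hd : Dat v f κ) (M : ℕ) :
    ∃ m : ℕ, ∀ (P : Pt f) (φ : CR f), P.y ≠ 0 → φ ≠ 0 → wt φ ≤ M →
      0 < nuG v (max 1 (v P.x)) φ ∧
      Real.log (v (lead P φ)) + ((dv φ).map fun R => Real.log (mu v P R)).sum ≤
        m * Real.log κ + Real.log (nuG v (max 1 (v P.x)) φ) +
          ((dv φ).map fun R => Real.log (ww v P R)).sum := by
  obtain ⟨m₁, h1⟩ := nuG_ev h hd (M + (2 * g + 1) * M)
  obtain ⟨m₂, h2⟩ := nuG_rm h hd (M + (2 * g + 1) * M)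
  refine ⟨m₁ + M * m₂, fun P φ hy hφ hM => ?_⟩
  have k1 := hd.one_le
  have k0 : 0 < κ := by linarith
  have kl := Real.log_nonneg k1
  have hr : (0 : ℝ) ≤ max 1 (v P.x) := le_max_of_le_left zero_le_one
  have hc := card_dv h hφ
  have e := removal h hy (nuG v (max 1 (v P.x))) (nuG_nonneg hr) (c := κ ^ m₁) (c' := κ ^ m₂)
    (by positivity) (one_le_pow₀ k1) (M + (2 * g + 1) * M) (dv φ) (h1 P)
    (fun R _ ψ ψ' _ hψ e => h2 P R ψ ψ' hψ e) hφ le_rfl (count_dv h hφ P)
    (by rw [hc]; exact add_le_add hM (Nat.mul_le_mul_left _ hM))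
  have hw : ∀ R, 0 < ww v P R := fun R => lt_of_lt_of_le one_pos (one_le_ww P R)
  obtain ⟨p0, p1⟩ := keyk_log (dv φ) (fun R => κ ^ m₂ * ww v P R / mu v P R) fun R =>
    div_pos (mul_pos (pow_pos k0 _) (hw R)) (mu_pos hy R)
  have l0 : 0 < v (lead P φ) := v.pos (lead_ne_zero P φ)
  have n0 : 0 < nuG v (max 1 (v P.x)) φ := by
    refine lt_of_le_of_ne (nuG_nonneg hr φ) fun e0 => ?_
    rw [← e0, mul_zero, zero_mul] at e
    linarith
  refine ⟨n0, ?_⟩
  have e1 := Real.log_le_log l0 e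
  rw [Real.log_mul (by positivity) p0.ne', Real.log_mul (by positivity) n0.ne', p1,
    Real.log_pow] at e1
  have e2 := keyk_sum (dv φ) (c := m₂ * Real.log κ)
    (F := fun R => Real.log (κ ^ m₂ * ww v P R / mu v P R) + Real.log (mu v P R))
    (G := fun R => Real.log (ww v P R)) fun R => by
      rw [Real.log_div (mul_pos (pow_pos k0 _) (hw R)).ne' (mu_pos hy R).ne',
        Real.log_mul (by positivity) (hw R).ne', Real.log_pow]
      linarith
  rw [Multiset.sum_map_add, hc] at e2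
  have e3 : (wt φ : ℝ) * (m₂ * Real.log κ) ≤ M * (m₂ * Real.log κ) :=
    mul_le_mul_of_nonneg_right (by exact_mod_cast hM) (by positivity)
  push_cast
  linarith

theorem keyk_low (h : Crv f g) (hd : Dat v f κ) (M : ℕ) :
    ∃ m : ℕ, ∀ (P : Pt f) (φ : CR f), P.y ≠ 0 → φ ≠ 0 → wt φ ≤ M →
      0 < nuG v (max 1 (v P.x)) φ →
      2 * Real.log (nuG v (max 1 (v P.x)) φ) +
          2 * ((dv φ).map fun R => Real.log (ww v P R)).sum ≤
        m * Real.log κ + Real.log (v (lead P φ)) + Real.log (v (lead P.inv φ)) +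
          ((dv φ).map fun R => Real.log (mu v P R)).sum +
          ((dv φ).map fun R => Real.log (mu v P.inv R)).sum := by
  obtain ⟨m₃, h3⟩ := aniso h hd M
  obtain ⟨m₄, h4⟩ := key_D h hd
  refine ⟨m₃ + M + M * m₄, fun P φ hy hφ hM n0 => ?_⟩
  have k1 := hd.one_le
  have k0 : 0 < κ := by linarith
  have kl := Real.log_nonneg k1
  have hr : (0 : ℝ) ≤ max 1 (v P.x) := le_max_of_le_left zero_le_one
  have hc := card_dv h hφ
  have hy' : P.inv.y ≠ 0 := neg_ne_zero.2 hy
  have hw : ∀ R, 0 < ww v P R := fun R => lt_of_lt_of_le one_pos (one_le_ww P R)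
  have hH : ∀ R, 0 < Hh v P R := fun R => lt_of_lt_of_le one_pos (one_le_Hh P R)
  have hz : ∀ R : Pt f, 0 < v (nz (P.x - R.x)) := fun R => v.pos (nz_ne_zero _)
  have c0 : 0 < v (nm φ).leadingCoeff := v.pos (leadingCoeff_ne_zero.2 (nm_ne_zero h hφ))
  have a1 := gn_prod_le k1 hd.tri hr (nm φ).leadingCoeff ((dv φ).map Pt.x)
  rw [Multiset.map_map, Multiset.map_map, Multiset.card_map, hc] at a1
  have a2 : (nm φ).gaussNorm v (max 1 (v P.x)) ≤
      κ ^ wt φ * v (nm φ).leadingCoeff * ((dv φ).map (Hh v P)).prod := by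
    have a3 : ((fun a => max (max 1 (v P.x)) (v a)) ∘ Pt.x : Pt f → ℝ) = Hh v P :=
      funext fun R => max_assoc _ _ _
    rw [a3] at a1
    exact (congrArg (fun p => Polynomial.gaussNorm v (max 1 (v P.x)) p) (nm_eq_prod h hφ)).trans_le
      a1
  obtain ⟨p0, p1⟩ := keyk_log (dv φ) (Hh v P) hH
  obtain ⟨q0, q1⟩ := keyk_log (dv φ) (fun R => v (nz (P.x - R.x))) hz
  have b1 := Real.log_le_log (pow_pos n0 2) ((h3 _ (le_max_left _ _) φ hM).trans
    (mul_le_mul_of_nonneg_left a2 (pow_pos k0 _).le))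
  rw [Real.log_mul (by positivity) (by positivity), Real.log_mul (by positivity) p0.ne',
    Real.log_mul (by positivity) c0.ne', Real.log_pow, Real.log_pow, Real.log_pow, p1] at b1
  have b2 := congrArg (fun z => Real.log (v z)) (lead_mul_inv h hy hφ)
  simp only [map_mul, map_multiset_prod, Multiset.map_map, Function.comp_def] at b2
  rw [Real.log_mul (v.pos (lead_ne_zero _ _)).ne' (v.pos (lead_ne_zero _ _)).ne',
    Real.log_mul c0.ne' q0.ne', q1] at b2
  have b3 := keyk_sum (dv φ) (c := m₄ * Real.log κ)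
    (F := fun R => Real.log (ww v P R) + Real.log (ww v P R) + Real.log (Hh v P R))
    (G := fun R => Real.log (mu v P R) + Real.log (mu v P.inv R) +
      Real.log (v (nz (P.x - R.x)))) fun R => by
      have d := Real.log_le_log (pow_pos (hH R) _) (h4 P R hy)
      have u1 := mu_pos (v := v) hy R
      have u2 := mu_pos (v := v) hy' R
      have u3 := hz R
      rw [← ww_sq h, Real.log_mul (pow_pos (hw R) _).ne' (hH R).ne', Real.log_pow,
        Real.log_mul (by positivity) (by positivity), Real.log_mul (by positivity) u3.ne',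
        Real.log_mul u1.ne' u2.ne', Real.log_pow] at d
      push_cast at d
      linarith
  simp only [Multiset.sum_map_add, hc] at b3
  have hM' : (wt φ : ℝ) ≤ M := by exact_mod_cast hM
  have e3 : (wt φ : ℝ) * (m₄ * Real.log κ) ≤ M * (m₄ * Real.log κ) :=
    mul_le_mul_of_nonneg_right hM' (by positivity)
  have e4 := mul_le_mul_of_nonneg_right hM' kl
  push_cast at b1 ⊢
  linarith

/-- Approximate reciprocity for functions of bounded degree. Apply `removal` at `P` and at `P.inv`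
with `S = dv φ`, `ν = nuG v (max 1 (v P.x))`; multiply the two bounds and compare with
`lead_mul_inv`, `aniso`, `gn_prod_le` (`nm_eq_prod`) and `key_D`: with
`X₁ = log (v (lead P φ)) - log ν - ∑ (log w - log (mu P R))` and `X₂` the same at `P.inv`, one has
`X₁, X₂ ≤ a log κ` and `X₁ + X₂ ≥ - b log κ`. -/
theorem key_K (h : Crv f g) (hd : Dat v f κ) (M : ℕ) :
    ∃ m : ℕ, ∀ (P : Pt f) (φ : CR f), P.y ≠ 0 → φ ≠ 0 → wt φ ≤ M →
      |((dv φ).map (sn v P)).sum - (Real.log (v (lead P.inv φ)) - Real.log (v (lead P φ)))| ≤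
        m * Real.log κ := by
  obtain ⟨a, ha⟩ := keyk_up h hd M
  obtain ⟨b, hb⟩ := keyk_low h hd M
  refine ⟨2 * a + b, fun P φ hy hφ hM => ?_⟩
  obtain ⟨n0, h1⟩ := ha P φ hy hφ hM
  obtain ⟨-, h2⟩ := ha P.inv φ (neg_ne_zero.2 hy) hφ hM
  have h3 := hb P φ hy hφ hM n0
  simp only [ww_inv_left, show P.inv.x = P.x from rfl] at h2
  have e : ((dv φ).map (sn v P)).sum = ((dv φ).map fun R => Real.log (mu v P R)).sum -
      ((dv φ).map fun R => Real.log (mu v P.inv R)).sum := by
    rw [← Multiset.sum_map_sub]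
    rfl
  rw [e, abs_le]
  push_cast
  constructor <;> linarith

end Pool.Agent.Lib.MP_830c64_nt
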