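import Pool.Agent.Lib.MP_830c64_nt.KlHarm

namespace Pool.Agent.Lib.MP_830c64_nt

open MvPolynomial
open scoped InnerProductSpace

/-- The Fischer pairing. -/
noncomputable def fis {r : ℕ} (p q : MvPolynomial (Fin r) ℝ) : ℝ :=
  ∑ d ∈ p.support, (∏ i, ((d i).factorial : ℝ)) * coeff d p * coeff d q

theorem fis_eq {r : ℕ} (p q : MvPolynomial (Fin r) ℝ) (s : Finset (Fin r →₀ ℕ))
    (hs : p.support ⊆ s) :
    fis p q = ∑ d ∈ s, (∏ i, ((d i).factorial : ℝ)) * coeff d p * coeff d q := by
  exact Finset.sum_subset hs fun d _ hd => by rw [notMem_support_iff.1 hd, mul_zero, zero_mul]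

theorem fis_add_left {r : ℕ} (p p' q : MvPolynomial (Fin r) ℝ) :
    fis (p + p') q = fis p q + fis p' q := by
  rw [fis_eq (p + p') q (p.support ∪ p'.support) support_add,
    fis_eq p q (p.support ∪ p'.support) Finset.subset_union_left,
    fis_eq p' q (p.support ∪ p'.support) Finset.subset_union_right, ← Finset.sum_add_distrib]
  exact Finset.sum_congr rfl fun d _ => by rw [coeff_add]; ring

theorem klfisch_sum {r : ℕ} {ι : Type} (s : Finset ι) (p : ι → MvPolynomial (Fin r) ℝ)
    (q : MvPolynomial (Fin r) ℝ) : fis (∑ i ∈ s, p i) q = ∑ i ∈ s, fis (p i) q := by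
  induction s using Finset.cons_induction with
  | empty => simp [fis]
  | cons a s ha ih => rw [Finset.sum_cons, Finset.sum_cons, fis_add_left, ih]

theorem fis_C_mul {r : ℕ} (c : ℝ) (p q : MvPolynomial (Fin r) ℝ) :
    fis (C c * p) q = c * fis p q := by
  rw [fis_eq (C c * p) q p.support (by rw [C_mul']; exact support_smul), fis, Finset.mul_sum]
  exact Finset.sum_congr rfl fun d _ => by rw [coeff_C_mul]; ring

theorem fis_comm {r : ℕ} (p q : MvPolynomial (Fin r) ℝ) : fis p q = fis q p := by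
  rw [fis_eq p q (p.support ∪ q.support) Finset.subset_union_left,
    fis_eq q p (p.support ∪ q.support) Finset.subset_union_right]
  exact Finset.sum_congr rfl fun d _ => by ring

theorem fis_X_mul {r : ℕ} (i : Fin r) (p q : MvPolynomial (Fin r) ℝ) :
    fis (X i * p) q = fis p (pderiv i q) := by
  rw [fis, support_X_mul, Finset.sum_map, fis]
  refine Finset.sum_congr rfl fun d _ => ?_
  have e : ∏ k, (((Finsupp.single i 1 + d : Fin r →₀ ℕ) k).factorial : ℝ) =
      (d i + 1) * ∏ k, ((d k).factorial : ℝ) := by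
    rw [← Finset.mul_prod_erase _ _ (Finset.mem_univ i),
      ← Finset.mul_prod_erase _ (fun k => ((d k).factorial : ℝ)) (Finset.mem_univ i), ← mul_assoc]
    congr 1
    · rw [Finsupp.add_apply, Finsupp.single_eq_same, add_comm, Nat.factorial_succ]
      push_cast
      rfl
    · refine Finset.prod_congr rfl fun k hk => ?_
      rw [Finsupp.add_apply, Finsupp.single_eq_of_ne (Finset.ne_of_mem_erase hk), zero_add]
  rw [addLeftEmbedding_apply, coeff_X_mul, coeff_pderiv, e, add_comm d]
  ring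

theorem fis_rho_mul {r : ℕ} (p q : MvPolynomial (Fin r) ℝ) :
    fis (rho r * p) q = fis p (lap q) := by
  rw [rho, Finset.sum_mul, klfisch_sum, fis_comm p, lap, klfisch_sum]
  refine Finset.sum_congr rfl fun i _ => ?_
  rw [sq, mul_assoc, fis_X_mul, fis_X_mul, fis_comm]

/-- Induction on `j` with `fis_X_mul` and Euler's identity evaluated at `u`. -/
theorem fis_lf_pow {r : ℕ} (u : Fin r → ℝ) (j : ℕ) {q : MvPolynomial (Fin r) ℝ}
    (hq : q.IsHomogeneous j) : fis (lf u ^ j) q = j.factorial * eval u q := by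
  induction j generalizing q with
  | zero =>
    rw [← totalDegree_zero_iff_isHomogeneous, totalDegree_eq_zero_iff_eq_C] at hq
    rw [pow_zero, fis_eq 1 q {0} (by rw [← C_1]; exact support_monomial_subset), hq]
    simp
  | succ j ih =>
    have e := congrArg (eval u) hq.sum_X_mul_pderiv
    rw [map_sum, map_nsmul, nsmul_eq_mul] at e
    have e2 : lf u ^ (j + 1) = ∑ i, C (u i) * (X i * lf u ^ j) := by
      rw [pow_succ']
      nth_rw 1 [lf]
      rw [Finset.sum_mul]
      exact Finset.sum_congr rfl fun i _ => mul_assoc _ _ _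
    rw [e2, klfisch_sum, Nat.factorial_succ, Nat.cast_mul, mul_comm ((j + 1 : ℕ) : ℝ), mul_assoc,
      ← e, Finset.mul_sum]
    refine Finset.sum_congr rfl fun i _ => ?_
    rw [fis_C_mul, fis_X_mul, ih (hq.pderiv (i := i)), map_mul, eval_X]
    ring

/-- `fis (zon u j) (zon w j) = j! * geg r j ⟪u, w⟫`; the index set is the finite set of exponents of
degree `j`. -/
theorem geg_psd {r : ℕ} (hr : 3 ≤ r) (j : ℕ) :
    ∃ (m : ℕ) (Φ : EuclideanSpace ℝ (Fin r) → Fin m → ℝ), ∀ u w, ‖u‖ = 1 → ‖w‖ = 1 →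
      (geg r j).eval ⟪u, w⟫_ℝ = ∑ i, Φ u i * Φ w i := by
  let S : Finset (Fin r →₀ ℕ) := Finset.finsuppAntidiag Finset.univ j
  let c : (Fin r →₀ ℕ) → ℝ := fun d => (∏ i, ((d i).factorial : ℝ)) / j.factorial
  refine ⟨S.card, fun u i => √(c (S.equivFin.symm i)) * coeff (S.equivFin.symm i) (zon u j),
    fun u w hu hw => ?_⟩
  have n1 : ∀ v : EuclideanSpace ℝ (Fin r), ‖v‖ = 1 → ∑ i, v i ^ 2 = 1 := fun v hv => by
    rw [← EuclideanSpace.real_norm_sq_eq, hv, one_pow]
  have j0 : (j.factorial : ℝ) ≠ 0 := by positivity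
  obtain ⟨q, hq⟩ := zon_eq u j
  have e1 : fis (zon u j) (zon w j) = j.factorial * (geg r j).eval ⟪u, w⟫_ℝ := by
    rw [hq, fis_add_left, fis_rho_mul, lap_zon hr (n1 w hw), fis_lf_pow _ _ (zon_hom _ _),
      eval_zon _ _ (n1 u hu), fis_comm q]
    simp [fis, PiLp.inner_apply]
  have hS : (zon u j).support ⊆ S := fun d hd => by
    have := zon_hom u j (mem_support_iff.1 hd)
    rw [Finset.mem_finsuppAntidiag]
    refine ⟨?_, Finset.subset_univ _⟩
    rw [← this, Finsupp.weight_apply, Finsupp.sum_fintype _ _ (by simp)]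
    simp
  rw [fis_eq _ _ S hS] at e1
  rw [Equiv.sum_comp S.equivFin.symm fun d : S =>
      √(c d) * coeff d (zon u j) * (√(c d) * coeff d (zon w j)),
    Finset.sum_coe_sort S fun d => √(c d) * coeff d (zon u j) * (√(c d) * coeff d (zon w j)),
    ← mul_right_inj' j0, ← e1, Finset.mul_sum]
  refine Finset.sum_congr rfl fun d _ => ?_
  have e2 : √(c d) * √(c d) = c d := Real.mul_self_sqrt (by positivity)
  have e3 : j.factorial * c d = ∏ i, ((d i).factorial : ℝ) := mul_div_cancel₀ _ j0
  rw [← e3]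
  linear_combination (-(j.factorial * coeff d (zon u j) * coeff d (zon w j))) * e2

end Pool.Agent.Lib.MP_830c64_nt
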