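import Pool.Agent.Lib.MP_830c64_nt.Defs

namespace Pool.Agent.Lib.MP_830c64_nt

open MvPolynomial

/-- The Laplacian. -/
noncomputable def lap {r : ℕ} (p : MvPolynomial (Fin r) ℝ) : MvPolynomial (Fin r) ℝ :=
  ∑ i, pderiv i (pderiv i p)

/-- The linear form with coefficients `u`. -/
noncomputable def lf {r : ℕ} (u : Fin r → ℝ) : MvPolynomial (Fin r) ℝ := ∑ i, C (u i) * X i

noncomputable def rho (r : ℕ) : MvPolynomial (Fin r) ℝ := ∑ i, X i ^ 2

/-- Derivative in the direction `u`. -/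
noncomputable def dd {r : ℕ} (u : Fin r → ℝ) (p : MvPolynomial (Fin r) ℝ) :
    MvPolynomial (Fin r) ℝ := ∑ i, C (u i) * pderiv i p

/-- Zonal polynomials. -/
noncomputable def zon {r : ℕ} (u : Fin r → ℝ) : ℕ → MvPolynomial (Fin r) ℝ
  | 0 => 1
  | 1 => lf u
  | j + 2 => lf u * zon u (j + 1) - C (bet r (j + 1)) * (rho r * zon u j)

theorem klharm_lf_hom {r : ℕ} (u : Fin r → ℝ) : (lf u).IsHomogeneous 1 :=
  IsHomogeneous.sum _ _ _ fun i _ => (isHomogeneous_X ℝ i).C_mul _

theorem klharm_rho_hom (r : ℕ) : (rho r).IsHomogeneous 2 :=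
  IsHomogeneous.sum _ _ _ fun i _ => isHomogeneous_X_pow i 2

theorem klharm_pd_lf {r : ℕ} (u : Fin r → ℝ) (i : Fin r) : pderiv i (lf u) = C (u i) := by
  classical
  simp only [lf, map_sum, pderiv_C_mul, pderiv_X, Pi.single_apply, mul_ite, mul_one, mul_zero]
  simp

theorem klharm_pd_rho {r : ℕ} (i : Fin r) : pderiv i (rho r) = 2 * X i := by
  classical
  simp only [rho, map_sum, pderiv_pow, pderiv_X, Pi.single_apply, mul_ite, mul_one, mul_zero]
  simp

theorem klharm_dd_mul {r : ℕ} (u : Fin r → ℝ) (p q : MvPolynomial (Fin r) ℝ) :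
    dd u (p * q) = dd u p * q + p * dd u q := by
  simp only [dd, Derivation.leibniz, smul_eq_mul, Finset.mul_sum, Finset.sum_mul,
    ← Finset.sum_add_distrib]
  exact Finset.sum_congr rfl fun i _ => by ring

theorem klharm_dd_sub {r : ℕ} (u : Fin r → ℝ) (p q : MvPolynomial (Fin r) ℝ) :
    dd u (p - q) = dd u p - dd u q := by
  simp only [dd, map_sub, mul_sub, Finset.sum_sub_distrib]

theorem klharm_dd_C {r : ℕ} (u : Fin r → ℝ) (c : ℝ) (p : MvPolynomial (Fin r) ℝ) :
    dd u (C c * p) = C c * dd u p := by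
  simp only [dd, pderiv_C_mul, Finset.mul_sum]
  exact Finset.sum_congr rfl fun i _ => by ring

theorem klharm_dd_lf {r : ℕ} {u : Fin r → ℝ} (hu : ∑ i, u i ^ 2 = 1) : dd u (lf u) = 1 := by
  simp only [dd, klharm_pd_lf, ← sq]
  rw [← map_one (C : ℝ →+* MvPolynomial (Fin r) ℝ), ← hu, map_sum]
  simp only [map_pow]

theorem klharm_dd_rho {r : ℕ} (u : Fin r → ℝ) : dd u (rho r) = 2 * lf u := by
  simp only [dd, klharm_pd_rho, lf, Finset.mul_sum]
  exact Finset.sum_congr rfl fun i _ => by ring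

theorem zon_hom {r : ℕ} (u : Fin r → ℝ) (j : ℕ) : (zon u j).IsHomogeneous j := by
  induction j using Nat.twoStepInduction with
  | zero => exact isHomogeneous_one _ _
  | one => exact klharm_lf_hom u
  | more j h0 h1 =>
    rw [zon]
    refine IsHomogeneous.sub ?_ ?_
    · simpa [add_comm, add_left_comm] using (klharm_lf_hom u).mul h1
    · simpa [add_comm] using ((klharm_rho_hom r).mul h0).C_mul (bet r (j + 1))

theorem lap_lf_mul {r : ℕ} (u : Fin r → ℝ) (p : MvPolynomial (Fin r) ℝ) :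
    lap (lf u * p) = 2 * dd u p + lf u * lap p := by
  simp only [lap, dd, Derivation.leibniz, smul_eq_mul, map_add, klharm_pd_lf, pderiv_C,
    Finset.mul_sum, ← Finset.sum_add_distrib]
  exact Finset.sum_congr rfl fun i _ => by ring

/-- Euler's identity `IsHomogeneous.sum_X_mul_pderiv`. -/
theorem lap_rho_mul {r j : ℕ} {p : MvPolynomial (Fin r) ℝ} (hp : p.IsHomogeneous j) :
    lap (rho r * p) = C (2 * (r : ℝ) + 4 * j) * p + rho r * lap p := by
  have h := hp.sum_X_mul_pderiv
  have e : ∀ i : Fin r, pderiv i (pderiv i (rho r * p)) =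
      2 * p + 4 * (X i * pderiv i p) + rho r * pderiv i (pderiv i p) := fun i => by
    have e2 : pderiv i (2 : MvPolynomial (Fin r) ℝ) = 0 := by
      rw [show (2 : MvPolynomial (Fin r) ℝ) = C 2 from rfl, pderiv_C]
    simp only [Derivation.leibniz, smul_eq_mul, map_add, klharm_pd_rho, pderiv_X_self, e2]
    ring
  simp only [lap, e, Finset.sum_add_distrib, ← Finset.mul_sum, h, Finset.sum_const,
    Finset.card_univ, Fintype.card_fin, nsmul_eq_mul, map_add, map_mul, map_natCast, map_ofNat]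
  ring

/-- Two step induction; `dd u` is a derivation with `dd u (lf u) = 1`, `dd u rho = 2 * lf u`. -/
theorem dd_zon {r : ℕ} (hr : 3 ≤ r) {u : Fin r → ℝ} (hu : ∑ i, u i ^ 2 = 1) (j : ℕ) :
    dd u (zon u (j + 1)) = C (bet r (j + 1) * (2 * (j : ℝ) + r)) * zon u j := by
  have hr' : (3 : ℝ) ≤ r := by exact_mod_cast hr
  have hl := klharm_dd_lf hu
  induction j using Nat.twoStepInduction with
  | zero =>
    have : bet r (0 + 1) * (2 * ((0 : ℕ) : ℝ) + r) = 1 := by
      have h1 : (r : ℝ) - 2 ≠ 0 := by linarith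
      have h2 : (r : ℝ) ≠ 0 := by linarith
      simp only [bet]
      push_cast
      rw [show (2 : ℝ) * 1 + r - 2 = r by ring, show (2 : ℝ) * 1 + r - 4 = r - 2 by ring]
      field_simp
      ring
    rw [this, zon, zon, hl, map_one, mul_one]
  | one =>
    have : bet r (1 + 1) * (2 * ((1 : ℕ) : ℝ) + r) = 2 - 2 * bet r (0 + 1) := by
      have h1 : (r : ℝ) - 2 ≠ 0 := by linarith
      have h2 : (r : ℝ) ≠ 0 := by linarith
      have h3 : (r : ℝ) + 2 ≠ 0 := by linarith
      simp only [bet]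
      push_cast
      rw [show (2 : ℝ) * 1 + r - 2 = r by ring, show (2 : ℝ) * 1 + r - 4 = r - 2 by ring,
        show (2 : ℝ) * 2 + r - 2 = r + 2 by ring, show (2 : ℝ) * 2 + r - 4 = r by ring]
      field_simp
      ring
    rw [this, show zon u (1 + 1) = lf u * lf u - C (bet r (0 + 1)) * (rho r * 1) from rfl,
      klharm_dd_sub, klharm_dd_C, klharm_dd_mul, zon, mul_one, hl, klharm_dd_rho]
    simp only [map_sub, map_mul, map_ofNat]
    ring
  | more j h0 h1 =>
    have hj : (0 : ℝ) ≤ j := Nat.cast_nonneg j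
    have n1 : 2 * (j : ℝ) + r - 2 ≠ 0 := by linarith
    have n2 : 2 * (j : ℝ) + r ≠ 0 := by linarith
    have n3 : 2 * (j : ℝ) + r + 2 ≠ 0 := by linarith
    have n4 : 2 * (j : ℝ) + r + 4 ≠ 0 := by linarith
    have b2 : bet r (j + 1 + 1) = (j + 2) * (j + r - 1) / ((2 * j + r + 2) * (2 * j + r)) := by
      simp only [bet]; push_cast; congr 1 <;> ring
    have b3 : bet r (j + 2 + 1) = (j + 3) * (j + r) / ((2 * j + r + 4) * (2 * j + r + 2)) := by
      simp only [bet]; push_cast; congr 1 <;> ring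
    have k1 : bet r (j + 2 + 1) * (2 * ((j + 2 : ℕ) : ℝ) + r) =
        1 + bet r (j + 1 + 1) * (2 * (j : ℝ) + r) := by
      rw [b2, b3]; push_cast; field_simp; ring
    rw [show zon u (j + 2 + 1) = lf u * zon u (j + 1 + 1) -
      C (bet r (j + 1 + 1)) * (rho r * zon u (j + 1)) from by rw [zon], klharm_dd_sub,
      klharm_dd_C, klharm_dd_mul, klharm_dd_mul, h0, h1, hl, klharm_dd_rho, k1,
      show zon u (j + 2) = lf u * zon u (j + 1) - C (bet r (j + 1)) * (rho r * zon u j) from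
        by rw [zon]]
    push_cast
    simp only [map_add, map_mul, map_ofNat, map_one, map_natCast]
    ring

theorem lap_zon {r : ℕ} (hr : 3 ≤ r) {u : Fin r → ℝ} (hu : ∑ i, u i ^ 2 = 1) (j : ℕ) :
    lap (zon u j) = 0 := by
  induction j using Nat.twoStepInduction with
  | zero => simp [lap, zon]
  | one => simp [lap, zon, klharm_pd_lf]
  | more j h0 h1 =>
    have e : ∀ (p q : MvPolynomial (Fin r) ℝ) (c : ℝ), lap (p - C c * q) = lap p - C c * lap q := by
      intro p q c
      simp only [lap, map_sub, pderiv_C_mul, Finset.sum_sub_distrib, Finset.mul_sum]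
    rw [zon, e, lap_lf_mul, lap_rho_mul (zon_hom u j), dd_zon hr hu, h0, h1]
    simp only [map_add, map_mul, map_ofNat, map_natCast]
    ring

theorem zon_eq {r : ℕ} (u : Fin r → ℝ) (j : ℕ) : ∃ q, zon u j = lf u ^ j + rho r * q := by
  induction j using Nat.twoStepInduction with
  | zero => exact ⟨0, by simp [zon]⟩
  | one => exact ⟨0, by simp [zon]⟩
  | more j _ h1 =>
    obtain ⟨q, hq⟩ := h1
    exact ⟨lf u * q - C (bet r (j + 1)) * zon u j, by rw [zon, hq]; ring⟩

theorem eval_zon {r : ℕ} (u w : Fin r → ℝ) (hw : ∑ i, w i ^ 2 = 1) (j : ℕ) :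
    eval w (zon u j) = (geg r j).eval (∑ i, u i * w i) := by
  have e1 : eval w (lf u) = ∑ i, u i * w i := by simp [lf]
  have e2 : eval w (rho r) = 1 := by simpa [rho] using hw
  induction j using Nat.twoStepInduction with
  | zero => simp [zon, geg]
  | one => simp [zon, geg, e1]
  | more j h0 h1 => simp [zon, geg, e1, e2, h0, h1]

end Pool.Agent.Lib.MP_830c64_nt
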