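import Pool.Agent.Lib.MP_830c64_nt.KlFisch

namespace Pool.Agent.Lib.MP_830c64_nt

open Polynomial
open scoped InnerProductSpace

theorem geg_natDegree (r j : ℕ) : (geg r j).natDegree ≤ j := by
  induction j using Nat.twoStepInduction with
  | zero => simp [geg]
  | one => simp [geg]
  | more j h0 h1 =>
    rw [geg]
    refine (natDegree_sub_le _ _).trans (max_le (natDegree_mul_le.trans ?_)
      ((natDegree_C_mul_le _ _).trans (by omega)))
    have := natDegree_X_le (R := ℝ)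
    omega

/-- `geg r (j + 1)` at `1` is `(j + r - 2) / (2 j + r - 2)` times `geg r j` at `1`. -/
theorem geg_one_pos {r : ℕ} (hr : 3 ≤ r) (j : ℕ) : 0 < (geg r j).eval 1 := by
  have h3 : (3 : ℝ) ≤ r := by exact_mod_cast hr
  have key : ∀ j : ℕ, (geg r (j + 1)).eval 1 =
      ((j : ℝ) + r - 2) / (2 * j + r - 2) * (geg r j).eval 1 := fun j => by
    induction j with
    | zero =>
      have : (r : ℝ) - 2 ≠ 0 := by linarith
      simp [geg, this]
    | succ j ih =>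
      have hj : (0 : ℝ) ≤ j := Nat.cast_nonneg j
      have a1 : 2 * (j : ℝ) + r - 2 ≠ 0 := by linarith
      have a2 : 2 * ((j : ℝ) + 1) + r - 2 ≠ 0 := by linarith
      have a3 : 2 * ((j : ℝ) + 1) + r - 4 = 2 * j + r - 2 := by ring
      rw [geg, eval_sub, eval_mul, eval_mul, eval_X, eval_C, ih, bet]
      push_cast
      rw [a3]
      field_simp
      ring
  induction j with
  | zero => simp [geg]
  | succ j ih =>
    have hj : (0 : ℝ) ≤ j := Nat.cast_nonneg j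
    rw [key]
    exact mul_pos (div_pos (by linarith) (by linarith)) ih

theorem bet_nonneg {r : ℕ} (hr : 3 ≤ r) (j : ℕ) : 0 ≤ bet r j := by
  have h3 : (3 : ℝ) ≤ r := by exact_mod_cast hr
  rcases Nat.eq_zero_or_pos j with h | h
  · simp [h, bet]
  · have hj : (1 : ℝ) ≤ j := by exact_mod_cast h
    exact div_nonneg (mul_nonneg (by linarith) (by linarith))
      (mul_nonneg (by linarith) (by linarith))

/-- `1 - 4 β = ((r - 3) ^ 2 - 1) / ((2 j + r - 3) ^ 2 - 1) ≤ (r - 3) ^ 2 / (2 j + r - 3) ^ 2`. -/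
theorem bet_ge {r j : ℕ} (hr : 3 ≤ r) (hj : 1 ≤ j) {b : ℝ} (hb : 0 < b)
    (hbj : b * ((r : ℝ) - 3) ≤ j) : 1 - 1 / (1 + 2 * b) ^ 2 ≤ 4 * bet r j := by
  have h3 : (3 : ℝ) ≤ r := by exact_mod_cast hr
  have h1 : (1 : ℝ) ≤ j := by exact_mod_cast hj
  have p : 0 < (2 * (j : ℝ) + r - 2) * (2 * (j : ℝ) + r - 4) := mul_pos (by linarith) (by linarith)
  have q : 1 ≤ (1 + 2 * b) ^ 2 := one_le_pow₀ (by linarith)
  have k := pow_le_pow_left₀ (mul_nonneg (show 0 ≤ 1 + 2 * b by linarith) (sub_nonneg.2 h3))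
    (show _ ≤ 2 * (j : ℝ) + r - 3 by linarith) 2
  rw [bet, ← mul_div_assoc, one_sub_div (by linarith), div_le_div_iff₀ (by linarith) p]
  rw [mul_pow] at k
  generalize (1 + 2 * b) ^ 2 = z at *
  linarith

/-- `F = ∑ i ≤ m, (i + 1) (m + 1 - i) μ ^ (-i) geg (k₀ + i)`. By the recurrence
`X * geg j = geg (j + 1) + bet j * geg (j - 1)` the coefficient of `geg (k₀ + i)` in `X * F` is at
least `μ ^ (1 - i) (c (i - 1) + c (i + 1)) = μ ^ (1 - i) (2 c i - 2)`, and `c i ≥ m + 1`. -/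
theorem window {r : ℕ} (hr : 3 ≤ r) {k₀ m : ℕ} (hk : 1 ≤ k₀) {μ : ℝ} (hμ : 0 < μ)
    (hb : ∀ j, k₀ ≤ j → μ ^ 2 ≤ bet r j) :
    ∃ c d : ℕ → ℝ, (∀ j, 0 ≤ c j) ∧ (∀ j, 0 ≤ d j) ∧ 0 < c k₀ ∧
      X * ∑ j ∈ Finset.range (k₀ + m + 1), C (c j) * geg r j =
        C (μ * (2 - 2 / (m + 1))) * ∑ j ∈ Finset.range (k₀ + m + 1), C (c j) * geg r j +
          ∑ j ∈ Finset.range (k₀ + m + 2), C (d j) * geg r j := by
  set p : ℕ → ℝ := fun j => ((j : ℝ) + 1 - k₀) * (m + 1 + k₀ - j) with hp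
  set c : ℕ → ℝ := fun j => max (p j) 0 * μ⁻¹ ^ j with hc
  have hm : (0 : ℝ) ≤ m := Nat.cast_nonneg m
  have hν : 0 < μ⁻¹ := inv_pos.2 hμ
  have c0 : ∀ j, 0 ≤ c j := fun j => mul_nonneg (le_max_right _ _) (pow_pos hν j).le
  have c1 : ∀ j, j < k₀ ∨ k₀ + m < j → c j = 0 := fun j h => by
    refine mul_eq_zero_of_left (max_eq_right ?_) _
    rcases h with h | h
    · have : (j : ℝ) + 1 ≤ k₀ := by exact_mod_cast h
      exact mul_nonpos_of_nonpos_of_nonneg (by linarith) (by linarith)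
    · have : (k₀ : ℝ) + m + 1 ≤ j := by exact_mod_cast h
      exact mul_nonpos_of_nonneg_of_nonpos (by linarith) (by linarith)
  refine ⟨c, fun j => (Nat.casesOn j 0 c : ℝ) + c (j + 1) * bet r (j + 1) -
    μ * (2 - 2 / (m + 1)) * c j, c0, fun j => ?_, ?_, ?_⟩
  · have b0 := mul_nonneg (c0 (j + 1)) (bet_nonneg hr (j + 1))
    have b1 : (0 : ℝ) ≤ (Nat.casesOn j 0 c : ℝ) := by
      cases j
      exacts [le_rfl, c0 _]
    by_cases h : j < k₀ ∨ k₀ + m < j
    · simp only [c1 j h]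
      linarith
    obtain ⟨i, rfl⟩ : ∃ i, j = i + 1 := ⟨j - 1, by omega⟩
    have a1 : (k₀ : ℝ) ≤ i + 1 := by exact_mod_cast (show k₀ ≤ i + 1 by omega)
    have a2 : (i : ℝ) + 1 ≤ k₀ + m := by exact_mod_cast (show i + 1 ≤ k₀ + m by omega)
    have a3 : (m : ℝ) + 1 ≤ p (i + 1) := by
      simp only [hp]
      push_cast
      nlinarith [mul_nonneg (sub_nonneg.2 a1) (sub_nonneg.2 a2)]
    have a4 : p i + p (i + 1 + 1) = 2 * p (i + 1) - 2 := by
      simp only [hp]
      push_cast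
      ring
    have a5 : p i * μ⁻¹ ^ i ≤ c i := mul_le_mul_of_nonneg_right (le_max_left _ _) (pow_pos hν i).le
    have a6 : p (i + 1 + 1) * μ⁻¹ ^ i ≤ c (i + 1 + 1) * bet r (i + 1 + 1) := by
      refine le_trans ?_ (mul_le_mul_of_nonneg_left (hb _ (by omega)) (c0 _))
      refine (mul_le_mul_of_nonneg_right (le_max_left _ 0) (pow_pos hν i).le).trans_eq ?_
      simp only [hc]
      rw [pow_succ, pow_succ]
      generalize μ⁻¹ ^ i = z
      field_simp
    have a7 : μ * (2 - 2 / (m + 1)) * c (i + 1) = (2 * p (i + 1) - 2 * (p (i + 1) / (m + 1))) *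
        μ⁻¹ ^ i := by
      simp only [hc]
      rw [max_eq_left (by linarith), pow_succ]
      field_simp
    have a8 : 1 ≤ p (i + 1) / (m + 1) := (one_le_div (by linarith)).2 a3
    have a9 := mul_le_mul_of_nonneg_right (show 2 * p (i + 1) - 2 * (p (i + 1) / (m + 1)) ≤
      p i + p (i + 1 + 1) by linarith) (pow_pos hν i).le
    show 0 ≤ c i + _ - _
    linarith
  · refine mul_pos (lt_max_of_lt_left ?_) (pow_pos hν _)
    simp only [hp]
    exact mul_pos (by linarith) (by linarith)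
  · clear_value c
    have e : ∀ j, X * (C (c j) * geg r j) =
        C (c j) * geg r (j + 1) + C (c j * bet r j) * geg r (j - 1) := fun j => by
      cases j with
      | zero => simp [geg, bet]
      | succ j =>
        rw [geg, C_mul (a := c _), Nat.add_sub_cancel]
        ring
    have e1 := Finset.sum_range_succ' (fun j => C (Nat.casesOn j 0 c : ℝ) * geg r j) (k₀ + m + 1)
    have e2 := Finset.sum_range_succ' (fun j => C (c j * bet r j) * geg r (j - 1)) (k₀ + m)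
    have e3 := Finset.sum_range_succ (fun j => C (c j) * geg r j) (k₀ + m + 1)
    have e4 := Finset.sum_range_succ (fun j => C (c (j + 1) * bet r (j + 1)) * geg r j) (k₀ + m + 1)
    have e5 := Finset.sum_range_succ (fun j => C (c (j + 1) * bet r (j + 1)) * geg r j) (k₀ + m)
    simp only [c1 0 (Or.inl hk), c1 (k₀ + m + 1) (Or.inr (by omega)),
      c1 (k₀ + m + 1 + 1) (Or.inr (by omega)), zero_mul, C_0, add_zero,
      Nat.add_sub_cancel, Nat.rec_zero] at e1 e2 e3 e4 e5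
    rw [Finset.mul_sum, Finset.sum_congr rfl fun j _ => e j, Finset.sum_add_distrib, e2, ← e5, ← e4,
      ← e1, ← e3, Finset.mul_sum, ← Finset.sum_add_distrib, ← Finset.sum_add_distrib]
    refine Finset.sum_congr rfl fun j _ => ?_
    simp only [C_sub, C_add, C_mul (a := μ * _)]
    ring

/-- Schur product: `geg_psd` twice gives a sum of squares. -/
theorem geg_pair_nonneg {r : ℕ} (hr : 3 ≤ r) (a b : ℕ) {ι : Type} (S : Finset ι)
    (u : ι → EuclideanSpace ℝ (Fin r)) (hu : ∀ i ∈ S, ‖u i‖ = 1) :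
    0 ≤ ∑ i ∈ S, ∑ j ∈ S, (geg r a).eval ⟪u i, u j⟫_ℝ * (geg r b).eval ⟪u i, u j⟫_ℝ := by
  obtain ⟨m, Φ, h1⟩ := geg_psd hr a
  obtain ⟨n, Ψ, h2⟩ := geg_psd hr b
  have e : ∑ i ∈ S, ∑ j ∈ S, (geg r a).eval ⟪u i, u j⟫_ℝ * (geg r b).eval ⟪u i, u j⟫_ℝ =
      ∑ x : Fin m × Fin n, (∑ i ∈ S, Φ (u i) x.1 * Ψ (u i) x.2) ^ 2 := by
    simp only [sq, Finset.sum_mul_sum]
    rw [Finset.sum_comm (s := Finset.univ)]
    refine Finset.sum_congr rfl fun i hi => ?_
    rw [Finset.sum_comm (s := Finset.univ)]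
    refine Finset.sum_congr rfl fun j hj => ?_
    rw [h1 _ _ (hu i hi) (hu j hj), h2 _ _ (hu i hi) (hu j hj), Finset.sum_mul_sum,
      ← Finset.sum_product', Finset.univ_product_univ]
    exact Finset.sum_congr rfl fun x _ => by ring
  rw [e]
  exact Finset.sum_nonneg fun _ _ => sq_nonneg _

end Pool.Agent.Lib.MP_830c64_nt
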