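import Pool.Agent.Lib.MP_830c64_nt.ArMain
import Pool.Agent.Lib.MP_830c64_nt.Places2

namespace Pool.Agent.Lib.MP_830c64_nt

open Polynomial
open scoped Classical

variable {f₀ : ℤ[X]} {g : ℕ}

/-- A statement about integers and `n` complex numbers. Let `ζ` be nearest to `x`, `δ = ‖x - ζ‖`.
If `δ < 1` the class is `(ζ, x mod 2)`, which determines `x`. Otherwise take `m ≤ B + 1` with
`2 ^ m ≤ δ < 2 ^ (m + 1)` and the index of the interval of length `2 ^ m / L` that contains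
`x - re ζ + 2 ^ (m + 1) ∈ (0, 2 ^ (m + 2))`. -/
theorem lab_real (s : Finset ℂ) (hs : s.Nonempty) (B L : ℕ) (hL : 1 ≤ L)
    (hB : ∀ z ∈ s, ‖z‖ ≤ 2 ^ B) :
    ∃ (α : Type) (_ : Fintype α) (ℓ : ℤ → α), Fintype.card α ≤ s.card * (B + 3) * (4 * L) ∧
      ∀ x x' : ℤ, |x| < 2 ^ B → |x'| < 2 ^ B → x' ≠ x → ℓ x = ℓ x' →
        ∃ δ : ℝ, 0 < δ ∧ (∀ z ∈ s, δ ≤ ‖(x : ℂ) - z‖) ∧ |((x' - x : ℤ) : ℝ)| ≤ δ / L := by
  have hL0 : (0 : ℝ) < L := by exact_mod_cast hL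
  have key : ∀ x : ℤ, ∃ c : ↥s × Fin (B + 3) × Fin (4 * L), |x| < 2 ^ B →
      (∀ z ∈ s, ‖(x : ℂ) - c.1.1‖ ≤ ‖(x : ℂ) - z‖) ∧
      ((c.2.1.1 = B + 1 ∧ ‖(x : ℂ) - c.1.1‖ < 1 ∧ (c.2.2.1 : ℤ) = x % 2) ∨
        (c.2.1.1 ≤ B ∧ 2 ^ c.2.1.1 ≤ ‖(x : ℂ) - c.1.1‖ ∧
          (c.2.2.1 : ℝ) ≤ (x - c.1.1.re + 2 * 2 ^ c.2.1.1) * (L / 2 ^ c.2.1.1) ∧
          (x - c.1.1.re + 2 * 2 ^ c.2.1.1) * (L / 2 ^ c.2.1.1) < (c.2.2.1 : ℝ) + 1)) := by
    intro x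
    obtain ⟨ζ, hζ, hmin⟩ := s.exists_min_image (fun z => ‖(x : ℂ) - z‖) hs
    by_cases hx : |x| < 2 ^ B
    swap
    · exact ⟨(⟨ζ, hζ⟩, ⟨0, by omega⟩, ⟨0, by omega⟩), fun h => absurd h hx⟩
    by_cases hδ : ‖(x : ℂ) - ζ‖ < 1
    · refine ⟨(⟨ζ, hζ⟩, ⟨B + 1, by omega⟩, ⟨(x % 2).toNat, by omega⟩), fun _ =>
        ⟨hmin, Or.inl ⟨rfl, hδ, ?_⟩⟩⟩
      show (((x % 2).toNat : ℕ) : ℤ) = x % 2
      omega
    obtain ⟨m, h1, h2⟩ := exists_nat_pow_near (not_lt.1 hδ) (one_lt_two (α := ℝ))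
    have h3 : ‖(x : ℂ) - ζ‖ < 2 ^ (B + 1) := by
      have h4 : |(x : ℝ)| < 2 ^ B := by exact_mod_cast hx
      have h5 := norm_sub_le (x : ℂ) ζ
      rw [Complex.norm_intCast] at h5
      have h6 := hB ζ hζ
      rw [pow_succ]
      linarith
    have hm : m ≤ B :=
      Nat.lt_succ_iff.1 ((pow_lt_pow_iff_right₀ (one_lt_two (α := ℝ))).1 (h1.trans_lt h3))
    have h4 : |(x : ℝ) - ζ.re| < 2 * 2 ^ m := by
      have h5 := Complex.abs_re_le_norm ((x : ℂ) - ζ)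
      rw [Complex.sub_re, Complex.intCast_re] at h5
      rw [pow_succ] at h2
      linarith
    have h5 := abs_lt.1 h4
    have hp : (0 : ℝ) < 2 ^ m := by positivity
    have h6 : 0 ≤ ((x : ℝ) - ζ.re + 2 * 2 ^ m) * (L / 2 ^ m) :=
      mul_nonneg (by linarith [h5.1]) (by positivity)
    have h7 : ((x : ℝ) - ζ.re + 2 * 2 ^ m) * (L / 2 ^ m) < (4 * L : ℕ) := by
      calc _ < 4 * 2 ^ m * ((L : ℝ) / 2 ^ m) :=
            mul_lt_mul_of_pos_right (by linarith [h5.2]) (by positivity)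
        _ = _ := by
            push_cast
            field_simp
    exact ⟨(⟨ζ, hζ⟩, ⟨m, by omega⟩, ⟨_, (Nat.floor_lt h6).2 h7⟩), fun _ =>
      ⟨hmin, Or.inr ⟨hm, h1, Nat.floor_le h6, Nat.lt_floor_add_one _⟩⟩⟩
  choose ℓ hℓ using key
  refine ⟨_, inferInstance, ℓ, le_of_eq (by simp [mul_assoc]), fun x x' hx hx' hne e => ?_⟩
  obtain ⟨h1, h2⟩ := hℓ x hx
  obtain ⟨-, h3⟩ := hℓ x' hx'
  rw [← e] at h3
  generalize ℓ x = c at h1 h2 h3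
  rcases h2 with ⟨a1, a2, a3⟩ | ⟨a1, a2, a3, a4⟩ <;> rcases h3 with ⟨b1, b2, b3⟩ | ⟨b1, b2, b3, b4⟩
  · exfalso
    have h4 : ‖((x' - x : ℤ) : ℂ)‖ < 2 := by
      have h5 := norm_sub_le ((x' : ℂ) - c.1.1) ((x : ℂ) - c.1.1)
      rw [sub_sub_sub_cancel_right] at h5
      rw [Int.cast_sub]
      linarith
    rw [Complex.norm_intCast] at h4
    have h5 : |x' - x| < 2 := by exact_mod_cast h4
    have h6 := abs_lt.1 h5
    omega
  · omega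
  · omega
  · have hp : (0 : ℝ) < 2 ^ c.2.1.1 := by positivity
    refine ⟨_, hp.trans_le a2, h1, le_trans ?_ (div_le_div_of_nonneg_right a2 hL0.le)⟩
    have h4 : |((x' : ℝ) - x) * (L / 2 ^ c.2.1.1)| ≤ 1 := abs_le.2 ⟨by linarith, by linarith⟩
    rw [abs_mul, abs_of_pos (div_pos hL0 hp), ← mul_div_assoc, div_le_one hp] at h4
    rw [Int.cast_sub, le_div_iff₀ hL0]
    exact h4

theorem lab_inf (h : GC f₀ g) (B : ℕ)
    (hr : ∀ z ∈ (f₀.map (Int.castRingHom ℂ)).roots, ‖z‖ ≤ 2 ^ B) :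
    ∃ (α : Type) (_ : Fintype α) (ℓ : Pt (fk f₀) → α),
      Fintype.card α ≤ 4000 * (2 * g + 1) ^ 2 * (B + 3) ∧
      ∀ P Q, IPB B P → IPB B Q → Q.x ≠ P.x → ℓ P = ℓ Q → LL (pl none) P Q < 0 := by
  have hm : (f₀.map (Int.castRingHom ℂ)).natDegree = 2 * g + 1 := by
    rw [h.monic.natDegree_map, h.deg]
  have hc : (f₀.map (Int.castRingHom ℂ)).roots.card = 2 * g + 1 := by
    rw [← hm]
    exact IsAlgClosed.card_roots_eq_natDegree
  have hs : (f₀.map (Int.castRingHom ℂ)).roots.toFinset.Nonempty := by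
    rw [Multiset.toFinset_nonempty, ← Multiset.card_pos, hc]
    omega
  obtain ⟨α, hα, ℓ, h1, h2⟩ := lab_real _ hs B (1000 * (2 * g + 1)) (by omega)
    fun z hz => hr z (Multiset.mem_toFinset.1 hz)
  have key : ∀ P : Pt (fk f₀), ∃ x : ℤ, ∀ x' : ℤ, P.x = x' → x = x' := by
    intro P
    by_cases hx : ∃ x : ℤ, P.x = x
    · obtain ⟨x, hx⟩ := hx
      exact ⟨x, fun x' e => Int.cast_injective (α := kk) (hx.symm.trans e)⟩
    · exact ⟨0, fun x' e => absurd ⟨x', e⟩ hx⟩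
  choose xx hxx using key
  refine ⟨α, hα, fun P => ℓ (xx P), h1.trans ?_, fun P Q hP hQ hne e => ?_⟩
  · have h3 := (Multiset.toFinset_card_le (f₀.map (Int.castRingHom ℂ)).roots).trans hc.le
    calc _ ≤ (2 * g + 1) * (B + 3) * (4 * (1000 * (2 * g + 1))) := by gcongr
      _ = _ := by ring
  · have hPy := hP.ip.y_ne
    have hQy := hQ.ip.y_ne
    obtain ⟨x, y, a1, -, a3, a4, a5⟩ := hP
    obtain ⟨x', y', b1, -, b3, b4, b5⟩ := hQ
    have e' : ℓ x = ℓ x' := by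
      rw [← hxx P x a4, ← hxx Q x' b4]
      exact e
    obtain ⟨δ, c1, c2, c3⟩ := h2 x x' a3 b3 (fun e => hne (by rw [a4, b4, e])) e'
    refine ll_arch (ι := io) h.crv pl_none hPy hQy hne c1 (fun z hz => ?_) ?_ ?_
    · rw [pl_none, a4, map_sub, map_intCast]
      exact c2 _ (Multiset.mem_toFinset.2 (io_root h.monic hz))
    · rw [pl_none, a4, b4, ← Int.cast_sub, map_intCast, Complex.norm_intCast]
      refine c3.trans (le_of_eq ?_)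
      push_cast
      rfl
    · rw [a5, b5, map_intCast, map_intCast, ← Complex.ofReal_intCast, ← Complex.ofReal_intCast,
        ← Complex.ofReal_div, Complex.ofReal_re]
      exact div_pos (by exact_mod_cast b1) (by exact_mod_cast a1)

end Pool.Agent.Lib.MP_830c64_nt
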