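import Pool.Agent.Lib.MP_830c64_nt.NaCases2
import Pool.Agent.Lib.MP_830c64_nt.Places2

namespace Pool.Agent.Lib.MP_830c64_nt

open Polynomial
open scoped Classical

variable {f₀ : ℤ[X]} {g : ℕ}

theorem lab_good (h : GC f₀ g) {Δ : ℤ} (hΔ : Bez f₀ Δ) (p : Nat.Primes)
    (hp : ¬ ((p : ℕ) : ℤ) ∣ 2 * Δ) {P Q : Pt (fk f₀)} (hP : IP P) (hQ : IP Q) (hx : Q.x ≠ P.x) :
    LL (pl (some p)) P Q ≤ 0 := by
  obtain ⟨x, -, -, h1, -⟩ := id hP
  obtain ⟨x', -, -, h2, -⟩ := id hQ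
  exact ll_good h.crv (dat_good hΔ p hp) hP.y_ne hQ.y_ne hx (h1 ▸ pl_int_le p x)
    (h2 ▸ pl_int_le p x')

theorem labodd_sub {v : AbsoluteValue kk ℝ} (hna : IsNonarchimedean v) (a b : kk) :
    v (a - b) ≤ max (v a) (v b) := by
  have h := hna a (-b)
  rwa [v.map_neg, ← sub_eq_add_neg] at h

/-- Two points at the same distance from a common nearest root and on the same sheet. -/
theorem labodd_same {f : kk[X]} (h : Crv f g) {v : AbsoluteValue kk ℝ} (hna : IsNonarchimedean v)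
    (h2 : v 2 = 1) {P Q : Pt f} (hP : P.y ≠ 0) (hQ : Q.y ≠ 0) (hne : Q.x ≠ P.x) {δ : ℝ}
    (hδ : 0 < δ) {a : kk} {s : kk[X]}
    (hs : (∃ s', gc v a δ (f - s' ^ 2) < gc v a δ f) → gc v a δ (f - s ^ 2) < gc v a δ f)
    (hPx : v (P.x - a) ≤ δ) (hQx : v (Q.x - a) ≤ δ) (hfP : ∀ z ∈ f.roots, δ ≤ v (P.x - z))
    (hfQ : ∀ z ∈ f.roots, δ ≤ v (Q.x - z))
    (hσ : v (P.y - s.eval P.x) < v P.y ↔ v (Q.y - s.eval Q.x) < v Q.y) : LL v P Q ≤ 0 := by
  by_cases hc : ∃ s', gc v a δ (f - s' ^ 2) < gc v a δ f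
  · by_cases h3 : v (P.y - s.eval P.x) < v P.y
    · exact ll_split h hna h2 hP hQ hne hδ (hs hc) hPx hQx hfP hfQ h3 (hσ.1 h3)
    · exact ll_split h hna h2 hP hQ hne hδ (s := -s) (by rw [neg_sq]; exact hs hc) hPx hQx hfP hfQ
        ((sheet_or h hna h2 hδ (hs hc) hPx hfP).2.2.resolve_left h3)
        ((sheet_or h hna h2 hδ (hs hc) hQx hfQ).2.2.resolve_left fun h4 => h3 (hσ.2 h4))
  · have e : (f.roots.map fun z => X - C z).prod = f :=
      ((IsAlgClosed.splits f).eq_prod_roots_of_monic h.monic).symm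
    have h3 := pair_sq (v := v) (a := a) hna hδ f.roots
    rw [e] at h3
    have h4 := mt h3 hc
    push Not at h4
    obtain ⟨z, -, h5, h6⟩ := h4
    have h7 : ∀ x, v (x - a) ≤ δ → v (x - z) ≤ δ := fun x hx => by
      have h8 := labodd_sub hna (x - a) (z - a)
      rw [sub_sub_sub_cancel_right] at h8
      exact h8.trans (max_le hx h5)
    exact ll_ground h hna hP hQ hne hδ (Nat.not_even_iff_odd.1 h6) (h7 _ hPx) (h7 _ hQx) hfP

/-- The distance to the root of the farther point is a small power of `p`. -/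
theorem labodd_pow (h : GC f₀ g) {Δ : ℤ} (hΔ : Bez f₀ Δ) (p : Nat.Primes) {P Q : Pt (fk f₀)}
    (hP : IP P) (hQ : IP Q) {a : kk} (ha : a ∈ (fk f₀).roots)
    (h1 : ¬ ∀ z ∈ (fk f₀).roots, z ≠ a → pl (some p) (P.x - a) < pl (some p) (a - z))
    (h2 : pl (some p) (P.x - a) < pl (some p) (Q.x - a)) :
    ∃ i ≤ padicValInt p Δ, pl (some p) (Q.x - a) = (((p : ℕ) : ℝ) ^ i)⁻¹ := by
  obtain ⟨x, -, -, hx, -⟩ := hP
  obtain ⟨x', -, -, hx', -⟩ := hQ
  push Not at h1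
  obtain ⟨z, hz, h3, h4⟩ := h1
  have h5 := (h.root_sep hΔ p ha hz h3).trans h4
  have h6 : pl (some p) (Q.x - P.x) = pl (some p) (Q.x - a) := by
    refine le_antisymm ?_ ?_
    · have h7 := labodd_sub (pl_na p) (Q.x - a) (P.x - a)
      rw [sub_sub_sub_cancel_right] at h7
      exact h7.trans (max_le le_rfl h2.le)
    · have h7 := pl_na p (Q.x - P.x) (P.x - a)
      rw [sub_add_sub_cancel] at h7
      exact (le_max_iff.1 h7).resolve_right h2.not_ge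
  have h7 : x' - x ≠ 0 := fun h8 => by
    rw [hx, hx', sub_eq_zero.1 h8] at h2
    exact lt_irrefl _ h2
  have h8 := pl_int p h7
  rw [Int.cast_sub, ← hx, ← hx', h6] at h8
  refine ⟨_, ?_, h8⟩
  have h9 : (1 : ℝ) < (p : ℕ) := by exact_mod_cast p.2.one_lt
  have h10 := h5.trans h2.le
  rw [h8, pl_int p hΔ.1, inv_le_inv₀ (by positivity) (by positivity)] at h10
  exact (pow_le_pow_iff_right₀ h9).1 h10

/-- Let `e = padicValInt p Δ`. The class of `P` is `(α, j, σ)`: `α` a nearest root, `δ = v (x - α)`;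
`j = e + 2` if `δ < v (α - z)` for all other roots, else `j ≤ e` if `δ = p ^ (-j)` for such a `j`,
else `j = e + 1`; `σ` says whether `v (y - s x) < v y`, where `s` is chosen (depending only on
`α` and `δ`) with `gc v α δ (f - s ^ 2) < gc v α δ f` if there is one. Equal classes: `ll_deep`, or
`δ P = δ Q` (if `δ P < δ Q` then `δ Q = v (x - x')` is a power `p ^ (-j)`, and `j ≤ e` by
`root_sep`), and then `ll_split` with `s` or `-s` (`sheet_or`), or `pair_sq` fails and `ll_ground`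
applies. -/
theorem lab_odd (h : GC f₀ g) {Δ : ℤ} (hΔ : Bez f₀ Δ) (p : Nat.Primes) (hp : (p : ℕ) ≠ 2) :
    ∃ (α : Type) (_ : Fintype α) (ℓ : Pt (fk f₀) → α),
      Fintype.card α ≤ 2 * (2 * g + 1) * (padicValInt p Δ + 3) ∧
      ∀ P Q, IP P → IP Q → Q.x ≠ P.x → ℓ P = ℓ Q → LL (pl (some p)) P Q ≤ 0 := by
  have hc := h.crv
  have h2 : pl (some p) 2 = 1 := by
    have h3 := pl_int_eq_one p (m := 2) fun h3 =>
      hp ((Nat.prime_dvd_prime_iff_eq p.2 Nat.prime_two).1 (by exact_mod_cast h3))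
    rwa [Int.cast_ofNat] at h3
  choose a ha1 ha2 using exists_nearest hc (pl (some p))
  have hs : ∀ (c : kk) (r : ℝ), ∃ s : kk[X],
      (∃ s', gc (pl (some p)) c r (fk f₀ - s' ^ 2) < gc (pl (some p)) c r (fk f₀)) →
        gc (pl (some p)) c r (fk f₀ - s ^ 2) < gc (pl (some p)) c r (fk f₀) := fun c r => by
    by_cases h3 : ∃ s', gc (pl (some p)) c r (fk f₀ - s' ^ 2) < gc (pl (some p)) c r (fk f₀)
    · exact ⟨h3.choose, fun _ => h3.choose_spec⟩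
    · exact ⟨0, fun h4 => absurd h4 h3⟩
  choose s hs using hs
  have hj : ∀ (c : kk) (r : ℝ), ∃ j : Fin (padicValInt p Δ + 3),
      ((j : ℕ) = padicValInt p Δ + 2 ↔ ∀ z ∈ (fk f₀).roots, z ≠ c → r < pl (some p) (c - z)) ∧
      ((j : ℕ) ≠ padicValInt p Δ + 2 → (∃ i ≤ padicValInt p Δ, r = (((p : ℕ) : ℝ) ^ i)⁻¹) →
        (j : ℕ) ≤ padicValInt p Δ) ∧
      ((j : ℕ) ≤ padicValInt p Δ → r = (((p : ℕ) : ℝ) ^ (j : ℕ))⁻¹) := fun c r => by
    by_cases h3 : ∀ z ∈ (fk f₀).roots, z ≠ c → r < pl (some p) (c - z)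
    · exact ⟨⟨padicValInt p Δ + 2, by omega⟩, ⟨fun _ => h3, fun _ => rfl⟩,
        fun h4 => absurd rfl h4, fun h4 => by simp at h4⟩
    by_cases h4 : ∃ i ≤ padicValInt p Δ, r = (((p : ℕ) : ℝ) ^ i)⁻¹
    · obtain ⟨i, h5, h6⟩ := h4
      exact ⟨⟨i, by omega⟩, ⟨fun h7 => by simp only at h7; omega, fun h7 => absurd h7 h3⟩,
        fun _ _ => h5, fun _ => h6⟩
    · exact ⟨⟨padicValInt p Δ + 1, by omega⟩, ⟨fun h7 => by simp at h7, fun h7 => absurd h7 h3⟩,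
        fun _ h7 => absurd h7 h4, fun h7 => by simp at h7⟩
  choose j hj1 hj2 hj3 using hj
  refine ⟨↥(fk f₀).roots.toFinset × Fin (padicValInt p Δ + 3) × Bool, inferInstance,
    fun P => (⟨a P.x, Multiset.mem_toFinset.2 (ha1 P.x)⟩,
      j (a P.x) (pl (some p) (P.x - a P.x)),
      decide (pl (some p) (P.y - (s (a P.x) (pl (some p) (P.x - a P.x))).eval P.x) <
        pl (some p) P.y)), ?_, fun P Q hP hQ hx hl => ?_⟩
  · have h3 := (Multiset.toFinset_card_le _).trans ((card_roots' (fk f₀)).trans hc.deg.le)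
    rw [Fintype.card_prod, Fintype.card_prod, Fintype.card_coe, Fintype.card_fin,
      Fintype.card_bool]
    calc _ ≤ (2 * g + 1) * ((padicValInt p Δ + 3) * 2) := Nat.mul_le_mul_right _ h3
      _ = _ := by ring
  simp only [Prod.mk.injEq, Subtype.mk.injEq, decide_eq_decide] at hl
  obtain ⟨e1, e2, e3⟩ := hl
  have b1 := ha2 P.x
  have b2 := ha2 Q.x
  have b3 := ha1 P.x
  rw [← e1] at e2 e3 b2
  generalize a P.x = c at e2 e3 b1 b2 b3
  by_cases h3 : (j c (pl (some p) (P.x - c)) : ℕ) = padicValInt p Δ + 2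
  · exact ll_deep hc (pl_na p) hP.y_ne hQ.y_ne hx b3 ((hj1 _ _).1 h3) ((hj1 _ _).1 (e2 ▸ h3))
  have h4 : (j c (pl (some p) (Q.x - c)) : ℕ) ≠ padicValInt p Δ + 2 := e2 ▸ h3
  have h5 : pl (some p) (P.x - c) = pl (some p) (Q.x - c) := by
    rcases lt_trichotomy (pl (some p) (P.x - c)) (pl (some p) (Q.x - c)) with h5 | h5 | h5
    · have h6 := hj2 _ _ h4 (labodd_pow h hΔ p hP hQ b3 (mt (hj1 _ _).2 h3) h5)
      exact (hj3 _ _ (e2 ▸ h6)).trans (e2 ▸ (hj3 _ _ h6).symm)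
    · exact h5
    · have h6 := hj2 _ _ h3 (labodd_pow h hΔ p hQ hP b3 (mt (hj1 _ _).2 h4) h5)
      exact (hj3 _ _ h6).trans (e2 ▸ (hj3 _ _ (e2 ▸ h6)).symm)
  rw [← h5] at e3 b2
  exact labodd_same hc (pl_na p) h2 hP.y_ne hQ.y_ne hx (v_sub_root_pos hP.y_ne b3) (hs _ _)
    le_rfl h5.ge b1 b2 e3

end Pool.Agent.Lib.MP_830c64_nt
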