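import Pool.Agent.Lib.MP_830c64_nt.NaCases2
import Pool.Agent.Lib.MP_830c64_nt.Places2

namespace Pool.Agent.Lib.MP_830c64_nt

open Polynomial
open scoped Classical

variable {f₀ : ℤ[X]} {g : ℕ}

theorem labtwo_prod_le {k : Type*} [Field k] (v : AbsoluteValue k ℝ) (x : k) (s : Multiset k)
    (hs : ∀ z ∈ s, v (x - z) ≤ 1) : v (s.map fun z => x - z).prod ≤ 1 := by
  induction s using Multiset.induction_on with
  | empty => simp
  | cons a s ih =>
    rw [Multiset.map_cons, Multiset.prod_cons, map_mul]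
    exact mul_le_one₀ (hs a (Multiset.mem_cons_self _ _)) (v.nonneg _)
      (ih fun z hz => hs z (Multiset.mem_cons_of_mem hz))

theorem labtwo_sub_le (h : GC f₀ g) (p : Nat.Primes) (x : ℤ) {z : kk} (hz : z ∈ (fk f₀).roots) :
    pl (some p) ((x : kk) - z) ≤ 1 := by
  have h1 := pl_na p (x : kk) (-z)
  rw [AbsoluteValue.map_neg, ← sub_eq_add_neg] at h1
  exact le_trans h1 (max_le (pl_int_le p x) (h.root_le p hz))

theorem labtwo_eval_le (h : GC f₀ g) (p : Nat.Primes) (x : ℤ) {α : kk}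
    (hα : α ∈ (fk f₀).roots) :
    pl (some p) ((fk f₀).eval (x : kk)) ≤ pl (some p) ((x : kk) - α) := by
  have h1 := (IsAlgClosed.splits (fk f₀)).eval_eq_prod_roots_of_monic h.crv.monic (x : kk)
  rw [h1, ← Multiset.cons_erase hα, Multiset.map_cons, Multiset.prod_cons, map_mul]
  refine mul_le_of_le_one_right (AbsoluteValue.nonneg _ _) (labtwo_prod_le _ _ _ fun z hz => ?_)
  exact labtwo_sub_le h p x (Multiset.mem_of_mem_erase hz)

theorem labtwo_exists_m {δ : ℝ} {B : ℕ} (h1 : δ ≤ 1) (h2 : ((2 : ℝ) ^ B)⁻¹ ≤ δ) :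
    ∃ m ≤ B, ((2 : ℝ) ^ m)⁻¹ ≤ δ ∧ δ ≤ ((2 : ℝ) ^ (m - 1))⁻¹ := by
  have hex : ∃ m : ℕ, ((2 : ℝ) ^ m)⁻¹ ≤ δ := ⟨B, h2⟩
  refine ⟨Nat.find hex, Nat.find_min' hex h2, Nat.find_spec hex, ?_⟩
  rcases Nat.eq_zero_or_pos (Nat.find hex) with h | h
  · rw [h]
    simpa using h1
  · exact (not_le.1 (Nat.find_min hex (Nat.sub_lt h one_pos))).le

theorem labtwo_dvd {a b c n : ℤ} (hc : c ≠ 0) (h1 : c ∣ b - a) (h2 : n ∣ b / c - a / c) :
    c * n ∣ b - a := by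
  obtain ⟨t, ht⟩ := h1
  have h3 : b = a + c * t := by linear_combination ht
  rw [h3, Int.add_mul_ediv_left _ _ hc, add_sub_cancel_left] at h2
  rw [ht]
  exact mul_dvd_mul_left c h2

/-- The class of `P = (x, y)` is: a nearest root `α`; the least `m` with `2 ^ (-m) ≤ δ = v (x - α)`
(`m ≤ B` because `δ ≥ v (f x) = v (y ^ 2) ≥ 1 / y ^ 2`); `x / 2 ^ (m - 1)` modulo `16`; the odd
part of `y` modulo `4`. Equal classes give `2 ^ (m - 1) ∣ x - x'`, then `2 ^ (m - 1 + 4) ∣ x - x'`,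
so `v (x - x') ≤ v 8 * δ`; `v_y_eq` gives equal 2-adic valuations of `y`, `y'`, so
`v (y - y') ≤ v 4 * v y`. Apply `ll_two`. -/
theorem lab_two (h : GC f₀ g) (B : ℕ) :
    ∃ (α : Type) (_ : Fintype α) (ℓ : Pt (fk f₀) → α),
      Fintype.card α ≤ 64 * (2 * g + 1) * (B + 1) ∧
      ∀ P Q, IPB B P → IPB B Q → Q.x ≠ P.x → ℓ P = ℓ Q →
        LL (pl (some ⟨2, Nat.prime_two⟩)) P Q ≤ 0 := by
  obtain ⟨p, hp⟩ : ∃ p : Nat.Primes, p = ⟨2, Nat.prime_two⟩ := ⟨_, rfl⟩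
  rw [← hp]
  have hp2 : (p : ℕ) = 2 := by rw [hp]
  have hle : ∀ (m : ℤ) (j : ℕ), pl (some p) (m : kk) ≤ ((2 : ℝ) ^ j)⁻¹ ↔ (2 : ℤ) ^ j ∣ m := by
    intro m j
    have h1 := pl_int_le_iff p m j
    rw [hp2] at h1
    exact_mod_cast h1
  have hval : ∀ m : ℤ, m ≠ 0 → pl (some p) (m : kk) = ((2 : ℝ) ^ padicValInt 2 m)⁻¹ := by
    intro m hm
    have h1 := pl_int p hm
    rw [hp2] at h1
    exact_mod_cast h1
  have hv2 : pl (some p) 2 = 2⁻¹ := by
    have h1 := hval 2 two_ne_zero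
    have h2 : padicValInt 2 2 = 1 := padicValInt.self (p := 2) one_lt_two
    rw [h2] at h1
    simpa using h1
  have hv8 : pl (some p) 8 = 8⁻¹ := by
    rw [show (8 : kk) = 2 ^ 3 by norm_num, map_pow, hv2]
    norm_num
  choose α hα hnear using fun P : Pt (fk f₀) => exists_nearest h.crv (pl (some p)) P.x
  have hxy : ∀ P : Pt (fk f₀), ∃ x y : ℤ, IPB B P →
      0 < y ∧ y ^ 2 < 2 ^ B ∧ P.x = x ∧ P.y = y := by
    intro P
    by_cases hP : IPB B P
    · obtain ⟨x, y, h1, h2, -, h3, h4⟩ := hP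
      exact ⟨x, y, fun _ => ⟨h1, h2, h3, h4⟩⟩
    · exact ⟨0, 0, fun h1 => absurd h1 hP⟩
  choose x y hxy using hxy
  have hm : ∀ P : Pt (fk f₀), ∃ m ≤ B, IPB B P → ((2 : ℝ) ^ m)⁻¹ ≤ pl (some p) (P.x - α P) ∧
      pl (some p) (P.x - α P) ≤ ((2 : ℝ) ^ (m - 1))⁻¹ := by
    intro P
    by_cases hP : IPB B P
    · obtain ⟨h1, h2, h3, h4⟩ := hxy P hP
      have h5 : ((2 : ℝ) ^ B)⁻¹ ≤ pl (some p) (P.x - α P) := by
        have h6 := labtwo_eval_le h p (x P) (hα P)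
        rw [← h3, ← P.on, h4, ← Int.cast_pow] at h6
        refine le_trans (not_le.1 fun h7 => ?_).le h6
        exact absurd (Int.le_of_dvd (by positivity) ((hle _ _).1 h7)) (not_le.2 h2)
      obtain ⟨m, h8, h9⟩ := labtwo_exists_m (h3 ▸ labtwo_sub_le h p (x P) (hα P)) h5
      exact ⟨m, h8, fun _ => h9⟩
    · exact ⟨0, Nat.zero_le _, fun h1 => absurd h1 hP⟩
  choose m hmB hm using hm
  refine ⟨(fk f₀).roots.toFinset × Fin (B + 1) × ZMod 16 × ZMod 4, inferInstance,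
    fun P => (⟨α P, Multiset.mem_toFinset.2 (hα P)⟩, ⟨m P, Nat.lt_succ_of_le (hmB P)⟩,
      ((x P / 2 ^ (m P - 1) : ℤ) : ZMod 16), ((y P / 2 ^ padicValInt 2 (y P) : ℤ) : ZMod 4)),
    ?_, fun P Q hP hQ hne hl => ?_⟩
  · have h1 : (fk f₀).roots.toFinset.card ≤ 2 * g + 1 :=
      le_trans (Multiset.toFinset_card_le _) (h.crv.deg ▸ card_roots' _)
    simp only [Fintype.card_prod, Fintype.card_coe, Fintype.card_fin, ZMod.card]
    calc _ ≤ (2 * g + 1) * ((B + 1) * (16 * 4)) := Nat.mul_le_mul_right _ h1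
      _ = _ := by ring
  · simp only [Prod.mk.injEq, Subtype.mk.injEq, Fin.mk.injEq] at hl
    obtain ⟨l1, l2, l3, l4⟩ := hl
    obtain ⟨p1, -, p3, p4⟩ := hxy P hP
    obtain ⟨q1, -, q3, q4⟩ := hxy Q hQ
    obtain ⟨p5, p6⟩ := hm P hP
    obtain ⟨-, q6⟩ := hm Q hQ
    rw [← l1, ← l2] at q6
    rw [← l2] at l3
    have hPy : P.y ≠ 0 := hP.ip.y_ne
    have hQy : Q.y ≠ 0 := hQ.ip.y_ne
    have hδ : 0 < pl (some p) (P.x - α P) := v_sub_root_pos hPy (hα P)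
    have h2 : pl (some p) 2 < 1 := by
      rw [hv2]
      norm_num
    have hd1 : (2 : ℤ) ^ (m P - 1) ∣ x Q - x P := by
      rw [← hle, Int.cast_sub, ← p3, ← q3]
      have h3 := pl_na p (Q.x - α P) (-(P.x - α P))
      rw [AbsoluteValue.map_neg, show Q.x - α P + -(P.x - α P) = Q.x - P.x by ring] at h3
      exact le_trans h3 (max_le q6 p6)
    have hd2 := labtwo_dvd (by positivity) hd1 ((ZMod.intCast_eq_intCast_iff_dvd_sub _ _ 16).1 l3)
    have hd3 : (2 : ℤ) ^ (m P + 3) ∣ x Q - x P := by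
      refine dvd_trans ?_ hd2
      rw [show ((16 : ℕ) : ℤ) = 2 ^ 4 by norm_num, ← pow_add]
      exact pow_dvd_pow _ (by omega)
    have hx : pl (some p) (Q.x - P.x) ≤ pl (some p) 8 * pl (some p) (P.x - α P) := by
      rw [← hle, Int.cast_sub, ← p3, ← q3] at hd3
      refine le_trans hd3 ?_
      rw [hv8, pow_add, mul_inv, mul_comm]
      norm_num
      simpa using p5
    have hy := v_y_eq h.crv (pl_na p) h2 hPy hδ (hnear P) hx
    rw [p4, q4, hval _ p1.ne', hval _ q1.ne', inv_inj] at hy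
    have he : padicValInt 2 (y Q) = padicValInt 2 (y P) :=
      pow_right_injective₀ (by norm_num) (by norm_num) hy
    rw [he] at l4
    have hd4 : (2 : ℤ) ^ padicValInt 2 (y P) ∣ y Q - y P := by
      refine dvd_sub ?_ (padicValInt_dvd (p := 2) (y P))
      rw [← he]
      exact padicValInt_dvd (p := 2) (y Q)
    have hd5 := labtwo_dvd (by positivity) hd4 ((ZMod.intCast_eq_intCast_iff_dvd_sub _ _ 4).1 l4)
    rw [show ((4 : ℕ) : ℤ) = 2 ^ 2 by norm_num, ← pow_add, ← hle, Int.cast_sub, ← p4, ← q4] at hd5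
    refine ll_two h.crv (pl_na p) h2 hPy hQy hne hδ (hnear P) hx (lt_of_le_of_lt hd5 ?_)
    rw [hv2, p4, hval _ p1.ne', pow_add, mul_inv, mul_comm]
    gcongr
    norm_num

end Pool.Agent.Lib.MP_830c64_nt
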