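import Pool.Agent.Lib.MP_830c64_nt.GnNa2

namespace Pool.Agent.Lib.MP_830c64_nt

open Polynomial
open scoped Classical

variable {k : Type*} [Field k] [IsAlgClosed k] {v : AbsoluteValue k ℝ} {a : k} {r : ℝ}

/-- The relation `gc (p - q) < gc p` is multiplicative. -/
theorem close_mul (hna : IsNonarchimedean v) (hr : 0 < r) {p q p' q' : k[X]}
    (h : gc v a r (p - q) < gc v a r p) (h' : gc v a r (p' - q') < gc v a r p') :
    gc v a r (p * p' - q * q') < gc v a r (p * p') := by
  have h0 : 0 < gc v a r p := (gc_nonneg hr _).trans_lt h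
  have h0' : 0 < gc v a r p' := (gc_nonneg hr _).trans_lt h'
  rw [show p * p' - q * q' = (p - q) * p' + q * (p' - q') by ring]
  refine (gc_add_le hna hr _ _).trans_lt (max_lt ?_ ?_)
  · rw [gc_mul hna hr, gc_mul hna hr]
    exact mul_lt_mul_of_pos_right h h0'
  · rw [gc_mul hna hr, gc_mul hna hr, gc_eq_of_lt hna hr h]
    exact mul_lt_mul_of_pos_left h' h0

theorem pair_tri (hna : IsNonarchimedean v) (x y z : k) :
    v (x - z) ≤ max (v (x - y)) (v (y - z)) := by
  rw [← sub_add_sub_cancel x y z]
  exact hna _ _

/-- Strong induction on `s`. An element `z` outside the closed disc is removed alone (`X - C z` is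
close to the constant `a - z = c ^ 2`); otherwise take `z ∈ s` and `z' ∈ s.erase z` with
`v (z' - z) < r` and remove both (`(X - z) (X - z')` is close to `(X - z) ^ 2`). -/
theorem pair_sq (hna : IsNonarchimedean v) (hr : 0 < r) (s : Multiset k)
    (hs : ∀ z ∈ s, v (z - a) ≤ r → Even (s.countP fun z' => v (z' - z) < r)) :
    ∃ h : k[X], gc v a r ((s.map fun z => X - C z).prod - h ^ 2) <
      gc v a r (s.map fun z => X - C z).prod := by
  induction s using Multiset.strongInductionOn with
  | _ s ih =>
  rcases s.empty_or_exists_mem with rfl | ⟨z, hz⟩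
  · refine ⟨1, ?_⟩
    rw [Multiset.map_zero, Multiset.prod_zero, one_pow, sub_self, gc_zero, gc_one]
    exact one_pos
  obtain ⟨t, rfl⟩ := Multiset.exists_cons_of_mem hz
  rcases lt_or_ge r (v (z - a)) with h | h
  · obtain ⟨g, hg⟩ := ih t (Multiset.lt_cons_self t z) fun y hy hy' => by
      have h1 := hs y (Multiset.mem_cons_of_mem hy) hy'
      rwa [Multiset.countP_cons_of_neg _ fun k => absurd (pair_tri hna z y a)
        (not_le.2 ((max_le k.le hy').trans_lt h))] at h1
    obtain ⟨c, hc⟩ := IsAlgClosed.exists_pow_nat_eq (a - z) two_pos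
    refine ⟨C c * g, ?_⟩
    rw [Multiset.map_cons, Multiset.prod_cons, mul_pow]
    refine close_mul hna hr ?_ hg
    rw [← C_pow, hc, C_sub, show X - C z - (C a - C z) = X - C a by ring, gc_lin hr, gc_lin hr,
      sub_self, map_zero, max_eq_left hr.le]
    exact lt_max_of_lt_right h
  · have h1 := hs z hz h
    rw [Multiset.countP_cons_of_pos _ (by rwa [sub_self, map_zero]), Nat.even_add_one,
      Nat.not_even_iff_odd] at h1
    obtain ⟨z', hz', h2⟩ := Multiset.countP_pos.1 h1.pos
    obtain ⟨u, rfl⟩ := Multiset.exists_cons_of_mem hz'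
    have h2' : v (z - z') < r := by rwa [v.map_sub]
    obtain ⟨g, hg⟩ := ih u ((Multiset.lt_cons_self u z').trans (Multiset.lt_cons_self _ z))
      fun y hy hy' => by
        have h3 := hs y (Multiset.mem_cons_of_mem (Multiset.mem_cons_of_mem hy)) hy'
        rw [Multiset.countP_cons, Multiset.countP_cons] at h3
        by_cases l : v (z - y) < r
        · rw [if_pos l, if_pos ((pair_tri hna z' z y).trans_lt (max_lt h2 l))] at h3
          rwa [Nat.even_add_one, Nat.even_add_one, not_not] at h3
        · rwa [if_neg l, if_neg fun l' => l ((pair_tri hna z z' y).trans_lt (max_lt h2' l'))] at h3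
    refine ⟨(X - C z) * g, ?_⟩
    rw [Multiset.map_cons, Multiset.map_cons, Multiset.prod_cons, Multiset.prod_cons, mul_pow,
      ← mul_assoc, sq (X - C z)]
    refine close_mul hna hr (close_mul hna hr ?_ ?_) hg
    · rw [sub_self, gc_zero, gc_lin hr]
      exact lt_max_of_lt_left hr
    · rw [show X - C z' - (X - C z) = C (z - z') by rw [C_sub]; ring, gc_C, gc_lin hr]
      exact lt_max_of_lt_left h2'

theorem pair_eval (hna : IsNonarchimedean v) (hr : 0 < r) (s : Multiset k)
    (hs : ∀ z ∈ s, r ≤ v (a - z)) :
    gc v a r (s.map fun z => X - C z).prod = v (((s.map fun z => X - C z).prod).eval a) := by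
  induction s using Multiset.induction_on with
  | empty => rw [Multiset.map_zero, Multiset.prod_zero, gc_one, eval_one, map_one]
  | cons z t ih =>
    rw [Multiset.map_cons, Multiset.prod_cons, gc_mul hna hr, eval_mul, map_mul,
      ih fun y hy => hs y (Multiset.mem_cons_of_mem hy), gc_lin hr, eval_sub, eval_X, eval_C,
      v.map_sub z, max_eq_right (hs z (Multiset.mem_cons_self z t))]

/-- On a small disc far from the roots the product is close to its value at the centre. -/
theorem gc_sub_eval_le (hna : IsNonarchimedean v) (hr : 0 < r) (s : Multiset k) {δ : ℝ}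
    (hrδ : r ≤ δ) (hs : ∀ z ∈ s, δ ≤ v (a - z)) :
    gc v a r ((s.map fun z => X - C z).prod - C (((s.map fun z => X - C z).prod).eval a)) ≤
      r / δ * v (((s.map fun z => X - C z).prod).eval a) := by
  have hδ : 0 < δ := hr.trans_le hrδ
  induction s using Multiset.induction_on with
  | empty =>
    rw [Multiset.map_zero, Multiset.prod_zero, eval_one, C_1, sub_self, gc_zero, map_one]
    positivity
  | cons z t ih =>
    have h1 := ih fun y hy => hs y (Multiset.mem_cons_of_mem hy)
    have h2 := pair_eval hna hr t fun y hy => hrδ.trans (hs y (Multiset.mem_cons_of_mem hy))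
    rw [Multiset.map_cons, Multiset.prod_cons, eval_mul, eval_sub, eval_X, eval_C, map_mul v]
    generalize (t.map fun z => X - C z).prod = Q at h1 h2
    rw [show (X - C z) * Q - C ((a - z) * Q.eval a) =
      (X - C a) * Q + C (a - z) * (Q - C (Q.eval a)) by rw [C_mul, C_sub]; ring]
    refine (gc_add_le hna hr _ _).trans (max_le ?_ ?_)
    · rw [gc_mul hna hr, gc_lin hr, sub_self, map_zero, max_eq_left hr.le, h2, ← mul_assoc]
      refine mul_le_mul_of_nonneg_right ?_ (v.nonneg _)
      rw [div_mul_eq_mul_div, le_div_iff₀ hδ]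
      exact mul_le_mul_of_nonneg_left (hs z (Multiset.mem_cons_self z t)) hr.le
    · rw [gc_mul hna hr, gc_C, mul_left_comm]
      exact mul_le_mul_of_nonneg_left h1 (v.nonneg _)

theorem gc_eq_eval (hna : IsNonarchimedean v) (hr : 0 < r) (s : Multiset k)
    (hs : ∀ z ∈ s, r ≤ v (a - z)) :
    gc v a r (s.map fun z => X - C z).prod = v (((s.map fun z => X - C z).prod).eval a) := by
  exact pair_eval hna hr s hs

end Pool.Agent.Lib.MP_830c64_nt
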