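import Pool.Agent.Lib.MP_830c64_nt.SplitC
import Pool.Agent.Lib.MP_830c64_nt.Pair

namespace Pool.Agent.Lib.MP_830c64_nt

open Polynomial
open scoped Classical

variable {k : Type*} [Field k] [CharZero k] [IsAlgClosed k] {f : k[X]} {g : ℕ}
  {v : AbsoluteValue k ℝ}

theorem LL_eq (h : Crv f g) (P Q : Pt f) : LL v P Q = -sig v Q P + Real.log (v (Q.x - P.x)) +
    (sig v P P - Real.log (v (f.eval P.x))) / (2 * g) := by
  have e : ((f.natDegree : ℕ) : ℝ) - 1 = 2 * g := by
    rw [h.deg]; push_cast; ring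
  unfold LL
  rw [e]

theorem exists_nearest (h : Crv f g) (v : AbsoluteValue k ℝ) (x : k) :
    ∃ α ∈ f.roots, ∀ z ∈ f.roots, v (x - α) ≤ v (x - z) := by
  have hc := roots_card h
  have hne : f.roots.toFinset.Nonempty := by
    rw [Multiset.toFinset_nonempty]
    intro h0
    rw [h0] at hc
    simp at hc
  obtain ⟨α, hα, hmin⟩ := Finset.exists_min_image f.roots.toFinset (fun z => v (x - z)) hne
  exact ⟨α, Multiset.mem_toFinset.1 hα, fun z hz => hmin z (Multiset.mem_toFinset.2 hz)⟩

theorem v_sub_root_pos {P : Pt f} (hP : P.y ≠ 0) {z : k} (hz : z ∈ f.roots) :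
    0 < v (P.x - z) := by
  apply v.pos
  intro h0
  have hx : P.x = z := sub_eq_zero.1 h0
  have hr : f.eval z = 0 := (mem_roots'.1 hz).2
  have h2 := P.on
  rw [hx, hr] at h2
  exact hP (pow_eq_zero_iff (two_ne_zero) |>.1 h2)

theorem nacases_sub_le (hna : IsNonarchimedean v) (a b : k) : v (a - b) ≤ max (v a) (v b) := by
  have h := hna a (-b)
  rw [v.map_neg, ← sub_eq_add_neg] at h
  exact h

theorem nacases_pow_le_prod {s : Multiset k} {u : k → ℝ} {r : ℝ} (hr : 0 ≤ r)
    (hs : ∀ z ∈ s, r ≤ u z) : r ^ s.card ≤ (s.map u).prod := by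
  induction s using Multiset.induction_on with
  | empty => simp
  | cons a s ih =>
    rw [Multiset.card_cons, Multiset.map_cons, Multiset.prod_cons, pow_succ']
    have h1 := hs a (Multiset.mem_cons_self a s)
    have h2 := ih fun z hz => hs z (Multiset.mem_cons_of_mem hz)
    exact mul_le_mul h1 h2 (pow_nonneg hr _) (hr.trans h1)

theorem nacases_prod_le_one {s : Multiset k} {u : k → ℝ} (h0 : ∀ z ∈ s, 0 ≤ u z)
    (hs : ∀ z ∈ s, u z ≤ 1) : (s.map u).prod ≤ 1 := by
  induction s using Multiset.induction_on with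
  | empty => simp
  | cons a s ih =>
    rw [Multiset.map_cons, Multiset.prod_cons]
    have h1 := hs a (Multiset.mem_cons_self a s)
    have h2 := ih (fun z hz => h0 z (Multiset.mem_cons_of_mem hz))
      fun z hz => hs z (Multiset.mem_cons_of_mem hz)
    have h3 : 0 ≤ (s.map u).prod := Multiset.prod_nonneg fun x hx => by
      obtain ⟨z, hz, rfl⟩ := Multiset.mem_map.1 hx
      exact h0 z (Multiset.mem_cons_of_mem hz)
    exact mul_le_one₀ h1 h3 h2

theorem nacases_odd (h : Crv f g) {α : k} (hα : α ∈ f.roots) {r : ℝ} (hr : 0 < r)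
    (hfar : ∀ z ∈ f.roots, z ≠ α → r ≤ v (z - α)) :
    Odd (f.roots.countP fun z => v (z - α) < r) := by
  have e : (f.roots.countP fun z => v (z - α) < r) = f.roots.count α := by
    rw [Multiset.count]
    apply Multiset.countP_congr rfl
    intro z hz
    apply propext
    constructor
    · intro hlt
      by_contra hne
      exact absurd (hfar z hz fun e => hne e.symm) (not_le.2 hlt)
    · intro e
      rw [← e, sub_self, v.map_zero]
      exact hr
  rw [e, Multiset.count_eq_one_of_mem (roots_nodup h) hα]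
  exact odd_one

theorem nacases_final (h : Crv f g) {P Q : Pt f} {r d : ℝ} (hr : 0 < r) (hd : 0 < d)
    (h1 : -sig v Q P + Real.log (v (Q.x - P.x)) ≤ Real.log r) (h2 : sig v P P ≤ Real.log d)
    (h3 : d * r ^ (2 * g) ≤ v (f.eval P.x)) : LL v P Q ≤ 0 := by
  rw [LL_eq h]
  have hg : (0 : ℝ) < 2 * g := by
    have : (1 : ℝ) ≤ g := by exact_mod_cast h.pos
    linarith
  have h4 : Real.log d + 2 * g * Real.log r ≤ Real.log (v (f.eval P.x)) := by
    have h5 := Real.log_le_log (mul_pos hd (pow_pos hr _)) h3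
    rw [Real.log_mul hd.ne' (pow_pos hr _).ne', Real.log_pow] at h5
    push_cast at h5
    exact h5
  have h6 : (sig v P P - Real.log (v (f.eval P.x))) / (2 * g) ≤ -Real.log r := by
    rw [div_le_iff₀ hg]
    linarith
  linarith

theorem nacases_core (h : Crv f g) (hna : IsNonarchimedean v) {P Q : Pt f} (hP : P.y ≠ 0)
    (hQ : Q.y ≠ 0) (hne : Q.x ≠ P.x) {α : k} (hα : α ∈ f.roots) {r : ℝ}
    (hPr : v (P.x - α) ≤ r) (hQr : v (Q.x - α) ≤ r)
    (h1 : ∀ z ∈ f.roots, z ≠ α → r ≤ v (z - α))
    (h2 : ∀ z ∈ f.roots, z ≠ α → r ≤ v (P.x - z)) : LL v P Q ≤ 0 := by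
  have hd : 0 < v (P.x - α) := v_sub_root_pos hP hα
  have hr : 0 < r := hd.trans_le hPr
  have hQP : Q ≠ P := fun e => hne (by rw [e])
  have g1 := ground h hna hr (nacases_odd h hα hr h1) hP hQ hQP hPr hQr
  rw [nz_of_ne (sub_ne_zero.2 hne)] at g1
  have g2 := ground_self h hna hd
    (nacases_odd h hα hd fun z hz hz' => hPr.trans (h1 z hz hz')) hP le_rfl
  refine nacases_final h hr hd g1 g2 ?_
  rw [v_eval_f h, ← Multiset.cons_erase hα, Multiset.map_cons, Multiset.prod_cons]
  apply mul_le_mul_of_nonneg_left _ hd.le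
  have hc : (f.roots.erase α).card = 2 * g := by
    rw [Multiset.card_erase_of_mem hα, roots_card h]
    rfl
  rw [← hc]
  apply nacases_pow_le_prod hr.le
  intro z hz
  have hz' := ((roots_nodup h).mem_erase_iff).1 hz
  exact h2 z hz'.2 hz'.1

/-- Both points are closer to the root `α` than any other root is. Use `ground` on the disc
`(α, max δP δQ)` and `ground_self` on `(α, δP)`; `v (f P.x) ≥ δP * (max δP δQ) ^ (2 g)`. -/
theorem ll_deep (h : Crv f g) (hna : IsNonarchimedean v) {P Q : Pt f} (hP : P.y ≠ 0)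
    (hQ : Q.y ≠ 0) (hne : Q.x ≠ P.x) {α : k} (hα : α ∈ f.roots)
    (h1 : ∀ z ∈ f.roots, z ≠ α → v (P.x - α) < v (α - z))
    (h2 : ∀ z ∈ f.roots, z ≠ α → v (Q.x - α) < v (α - z)) : LL v P Q ≤ 0 := by
  have h3 : ∀ z ∈ f.roots, z ≠ α → max (v (P.x - α)) (v (Q.x - α)) ≤ v (α - z) :=
    fun z hz hz' => max_le (h1 z hz hz').le (h2 z hz hz').le
  refine nacases_core h hna hP hQ hne hα (le_max_left _ _) (le_max_right _ _) ?_ ?_
  · intro z hz hz'
    rw [v.map_sub z α]
    exact h3 z hz hz'
  · intro z hz hz'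
    refine (h3 z hz hz').trans ?_
    have h4 := nacases_sub_le hna (P.x - z) (P.x - α)
    have e : P.x - z - (P.x - α) = α - z := by ring
    rw [e] at h4
    rcases le_max_iff.1 h4 with h5 | h5
    · exact h5
    · exact absurd (h1 z hz hz') (not_lt.2 h5)

theorem ll_ground (h : Crv f g) (hna : IsNonarchimedean v) {P Q : Pt f} (hP : P.y ≠ 0)
    (hQ : Q.y ≠ 0) (hne : Q.x ≠ P.x) {δ : ℝ} (hδ : 0 < δ) {a : k}
    (hodd : Odd (f.roots.countP fun z => v (z - a) < δ)) (hPx : v (P.x - a) ≤ δ)
    (hQx : v (Q.x - a) ≤ δ) (hfar : ∀ z ∈ f.roots, δ ≤ v (P.x - z)) : LL v P Q ≤ 0 := by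
  have hQP : Q ≠ P := fun e => hne (by rw [e])
  have g1 := ground h hna hδ hodd hP hQ hQP hPx hQx
  rw [nz_of_ne (sub_ne_zero.2 hne)] at g1
  have g2 := ground_self h hna hδ hodd hP hPx
  refine nacases_final h hδ hδ g1 g2 ?_
  rw [v_eval_f h, ← pow_succ', ← roots_card h]
  exact nacases_pow_le_prod hδ.le hfar

theorem nacases_root_le (h : Crv f g) (hd : Dat v f 1) {z : k} (hz : z ∈ f.roots) : v z ≤ 1 := by
  have hna := hd.isNonarchimedean
  have h1 := gc_prod (a := 0) hna one_pos 1 f.roots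
  rw [C_1, one_mul, ← f_eq_prod h, v.map_one, one_mul] at h1
  have h2 : gc v 0 1 f ≤ 1 := by
    unfold gc
    rw [taylor_zero]
    exact gn_le f zero_le_one fun i => by
      rw [one_pow, mul_one]
      exact hd.cf i
  rw [h1, ← Multiset.cons_erase hz, Multiset.map_cons, Multiset.prod_cons, sub_zero] at h2
  have h3 : (1 : ℝ) ^ (f.roots.erase z).card ≤
      ((f.roots.erase z).map fun w => max 1 (v (w - 0))).prod :=
    nacases_pow_le_prod zero_le_one fun w _ => le_max_left _ _
  rw [one_pow] at h3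
  have h4 : 0 ≤ max 1 (v z) := zero_le_one.trans (le_max_left _ _)
  have h5 : max 1 (v z) ≤ 1 := (le_mul_of_one_le_right h4 h3).trans h2
  exact (le_max_right _ _).trans h5

theorem nacases_root_far (h : Crv f g) (hd : Dat v f 1) {α z : k} (hα : α ∈ f.roots)
    (hz : z ∈ f.roots) (hne : z ≠ α) : 1 ≤ v (α - z) := by
  have hna := hd.isNonarchimedean
  obtain ⟨U, V, hUV, -, hV⟩ := hd.bez
  have hr : f.eval α = 0 := (mem_roots'.1 hα).2
  have e1 : V.eval α * f.derivative.eval α = 1 := by
    have := congrArg (Polynomial.eval α) hUV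
    rwa [eval_add, eval_mul, eval_mul, hr, mul_zero, zero_add, eval_one] at this
  have hV1 : v (V.eval α) ≤ 1 := by
    have h1 := v_eval_le (r := 1) le_rfl hd.tri V (nacases_root_le h hd hα)
    rw [one_pow, one_mul] at h1
    exact h1.trans (gn_le V zero_le_one fun i => by
      rw [one_pow, mul_one]
      exact hV i)
  have h2 : 1 ≤ v (f.derivative.eval α) := by
    have h3 : v (V.eval α) * v (f.derivative.eval α) = 1 := by rw [← v.map_mul, e1, v.map_one]
    have h4 := mul_le_of_le_one_left (v.nonneg (f.derivative.eval α)) hV1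
    linarith
  have hz' : z ∈ f.roots.erase α := ((roots_nodup h).mem_erase_iff).2 ⟨hne, hz⟩
  have e2 : f.derivative.eval α = ((f.roots.erase α).map fun w => α - w).prod := by
    conv_lhs => rw [f_eq_prod h]
    exact eval_multiset_prod_X_sub_C_derivative hα
  rw [e2, map_multiset_prod, Multiset.map_map, ← Multiset.cons_erase hz', Multiset.map_cons,
    Multiset.prod_cons] at h2
  have h5 : (((f.roots.erase α).erase z).map (v ∘ fun w => α - w)).prod ≤ 1 := by
    apply nacases_prod_le_one (fun w _ => v.nonneg _)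
    intro w hw
    have hw' : w ∈ f.roots := Multiset.mem_of_mem_erase (Multiset.mem_of_mem_erase hw)
    exact (nacases_sub_le hna α w).trans
      (max_le (nacases_root_le h hd hα) (nacases_root_le h hd hw'))
  exact h2.trans (mul_le_of_le_one_right (v.nonneg _) h5)

/-- In good reduction the roots are integral and `v (α - z) = 1` for distinct roots
(`f' α` is the product of the `α - z`, and the Bezout identity gives `v (f' α) ≥ 1`). Use `ground`
on `(α, 1)` and `ground_self` on `(α, δP)` for the nearest root `α`. -/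
theorem ll_good (h : Crv f g) (hd : Dat v f 1) {P Q : Pt f} (hP : P.y ≠ 0) (hQ : Q.y ≠ 0)
    (hne : Q.x ≠ P.x) (hPx : v P.x ≤ 1) (hQx : v Q.x ≤ 1) : LL v P Q ≤ 0 := by
  have hna := hd.isNonarchimedean
  obtain ⟨α, hα, hmin⟩ := exists_nearest h v P.x
  have hα1 := nacases_root_le h hd hα
  refine nacases_core (r := 1) h hna hP hQ hne hα
    ((nacases_sub_le hna _ _).trans (max_le hPx hα1))
    ((nacases_sub_le hna _ _).trans (max_le hQx hα1)) ?_ ?_
  · intro z hz hz'
    rw [v.map_sub]
    exact nacases_root_far h hd hα hz hz'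
  · intro z hz hz'
    refine (nacases_root_far h hd hα hz hz').trans ?_
    have h4 := nacases_sub_le hna (P.x - z) (P.x - α)
    have e : P.x - z - (P.x - α) = α - z := by ring
    rw [e, max_eq_left (hmin z hz)] at h4
    exact h4

end Pool.Agent.Lib.MP_830c64_nt
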