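import Pool.Agent.Lib.MP_830c64_nt.GnGen2

namespace Pool.Agent.Lib.MP_830c64_nt

open Polynomial
open scoped Classical

variable {f₀ : ℤ[X]} {g : ℕ}

theorem pl_none (z : kk) : pl none z = ‖io z‖ := by
  rfl

theorem pl_none_rat (q : ℚ) : pl none (q : kk) = |(q : ℝ)| := by
  rw [pl_none, map_ratCast, Complex.norm_ratCast]

theorem pl_na (p : Nat.Primes) : IsNonarchimedean (pl (some p)) := by
  have := Fact.mk p.2
  intro a b
  change ‖ip p (a + b)‖ ≤ max ‖ip p a‖ ‖ip p b‖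
  rw [map_add]
  exact PadicAlgCl.isNonarchimedean p _ _

theorem pl_rat (p : Nat.Primes) (q : ℚ) : pl (some p) (q : kk) = (padicNorm p q : ℝ) := by
  have := Fact.mk p.2
  change ‖ip p (q : kk)‖ = _
  rw [map_ratCast, ← Padic.eq_padicNorm, ← PadicAlgCl.norm_extends, map_ratCast]

theorem pl_int_le (p : Nat.Primes) (m : ℤ) : pl (some p) (m : kk) ≤ 1 := by
  have := Fact.mk p.2
  rw [← Rat.cast_intCast, pl_rat]
  exact_mod_cast padicNorm.of_int (p := p) m

theorem pl_int (p : Nat.Primes) {m : ℤ} (hm : m ≠ 0) :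
    pl (some p) (m : kk) = (((p : ℕ) : ℝ) ^ padicValInt p m)⁻¹ := by
  have := Fact.mk p.2
  rw [← Rat.cast_intCast, pl_rat, padicNorm.eq_zpow_of_nonzero (by exact_mod_cast hm),
    padicValRat.of_int]
  push_cast
  rw [zpow_neg, zpow_natCast]

theorem pl_int_eq_one (p : Nat.Primes) {m : ℤ} (hm : ¬ ((p : ℕ) : ℤ) ∣ m) :
    pl (some p) (m : kk) = 1 := by
  have := Fact.mk p.2
  rw [← Rat.cast_intCast, pl_rat, (padicNorm.int_eq_one_iff m).2 hm, Rat.cast_one]

theorem pl_int_le_iff (p : Nat.Primes) (m : ℤ) (j : ℕ) :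
    pl (some p) (m : kk) ≤ (((p : ℕ) : ℝ) ^ j)⁻¹ ↔ ((p : ℕ) : ℤ) ^ j ∣ m := by
  have := Fact.mk p.2
  rw [← Rat.cast_intCast, pl_rat, ← Nat.cast_pow (α := ℤ), padicNorm.dvd_iff_norm_le, zpow_neg,
    zpow_natCast, ← Rat.cast_le (K := ℝ)]
  simp

theorem pl_integral (p : Nat.Primes) {z : kk} (hz : IsIntegral ℤ z) : pl (some p) z ≤ 1 := by
  have := Fact.mk p.2
  have h1 : IsIntegral ℤ (ip p z) := hz.map (ip p).toIntAlgHom
  have h2 := (Valuation.integer.integers (PadicAlgCl.valued p).v).mem_of_integral h1.tower_top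
  exact_mod_cast (Valuation.mem_integer_iff _ _).1 h2

end Pool.Agent.Lib.MP_830c64_nt
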