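import Pool.Agent.Lib.MP_830c64_nt.Places

namespace Pool.Agent.Lib.MP_830c64_nt

open Polynomial
open scoped Classical

variable {f₀ : ℤ[X]} {g : ℕ}

theorem placesb_int {m : ℤ} (hm : m ≠ 0) : {w | pl w (m : kk) ≠ 1}.Finite := by
  have h1 : {p : Nat.Primes | (p : ℕ) ≤ m.natAbs}.Finite :=
    (Set.finite_Iic m.natAbs).preimage Subtype.val_injective.injOn
  refine ((h1.image some).insert none).subset ?_
  rintro (_ | p) hp
  · exact Set.mem_insert _ _
  · refine Set.mem_insert_of_mem _ ⟨p, Nat.le_of_dvd (Int.natAbs_pos.2 hm) ?_, rfl⟩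
    exact Int.natCast_dvd.1 (by_contra fun h => hp (pl_int_eq_one p h))

/-- Some nonzero integer multiple of `z` is integral. -/
theorem fin_gt (z : kk) : {w | 1 < pl w z}.Finite := by
  obtain ⟨m, hm, h⟩ := ((IsFractionRing.isAlgebraic_iff ℤ ℚ kk).2
    (Algebra.IsAlgebraic.isAlgebraic z)).exists_integral_multiple
  refine ((placesb_int hm).insert none).subset ?_
  rintro (_ | p) hp
  · exact Set.mem_insert _ _
  · refine Set.mem_insert_of_mem _ fun h1 => ?_
    have h2 := pl_integral p h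
    rw [zsmul_eq_mul, map_mul, h1, one_mul] at h2
    exact absurd hp (not_lt.2 h2)

theorem fin_ne {z : kk} (hz : z ≠ 0) : {w | pl w z ≠ 1}.Finite := by
  refine ((fin_gt z).union (fin_gt z⁻¹)).subset fun w hw => ?_
  rcases lt_or_gt_of_ne hw with h | h
  · refine Or.inr ?_
    show 1 < pl w z⁻¹
    rw [map_inv₀]
    exact (one_lt_inv₀ ((pl w).pos hz)).2 h
  · exact Or.inl h

theorem fin_log (z : kk) : (Function.support fun w => Real.log (pl w z)).Finite := by
  rcases eq_or_ne z 0 with rfl | hz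
  · simp
  · exact (fin_ne hz).subset fun w hw h => hw (by simp only [h, Real.log_one])

theorem fin_logmax (z : kk) :
    (Function.support fun w => Real.log (max 1 (pl w z))).Finite := by
  exact (fin_gt z).subset fun w hw => not_le.1 fun h : pl w z ≤ 1 => hw (by
    simp only [max_eq_left h, Real.log_one])

theorem placesb_mul {a b : kk} (ha : a ≠ 0) (hb : b ≠ 0) : ∑ᶠ w, Real.log (pl w (a * b)) =
    ∑ᶠ w, Real.log (pl w a) + ∑ᶠ w, Real.log (pl w b) := by
  rw [← finsum_add_distrib (fin_log a) (fin_log b)]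
  exact finsum_congr fun w => by
    rw [map_mul, Real.log_mul ((pl w).ne_zero ha) ((pl w).ne_zero hb)]

theorem placesb_prime {p : ℕ} (hp : p.Prime) : ∑ᶠ w, Real.log (pl w (p : kk)) = 0 := by
  have : Fact p.Prime := ⟨hp⟩
  rw [finsum_eq_sum_of_support_subset (s := {none, some ⟨p, hp⟩}), Finset.sum_pair (by simp)]
  · have h1 := pl_none_rat p
    have h2 := pl_int ⟨p, hp⟩ (m := p) (Nat.cast_ne_zero.2 hp.ne_zero)
    rw [Rat.cast_natCast, Rat.cast_natCast, Nat.abs_cast] at h1
    rw [Int.cast_natCast] at h2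
    rw [h1, h2, Real.log_inv]
    show Real.log p + -Real.log ((p : ℝ) ^ padicValInt p p) = 0
    rw [padicValInt_self, pow_one, add_neg_cancel]
  · rintro (_ | q) hq
    · simp
    · have h1 : ((q : ℕ) : ℤ) ∣ p := by_contra fun h => hq (by
        have h2 := pl_int_eq_one q h
        rw [Int.cast_natCast] at h2
        simp only [h2, Real.log_one])
      have h2 : q = ⟨p, hp⟩ :=
        Subtype.ext ((Nat.prime_dvd_prime_iff_eq q.2 hp).1 (Int.natCast_dvd_natCast.1 h1))
      simp [h2]

theorem placesb_nat (n : ℕ) : ∑ᶠ w, Real.log (pl w (n : kk)) = 0 := by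
  induction n using induction_on_primes with
  | zero => simp
  | one => simp
  | prime_mul p a hp ih =>
    rcases eq_or_ne a 0 with rfl | ha
    · simp
    · rw [Nat.cast_mul, placesb_mul (Nat.cast_ne_zero.2 hp.ne_zero) (Nat.cast_ne_zero.2 ha), ih,
        placesb_prime hp, add_zero]

/-- Product formula: prove it for nonzero integers (induction on the prime factors or
`Nat.factorization_prod_pow_eq_self`), then divide. -/
theorem prod_formula {q : ℚ} (hq : q ≠ 0) : ∑ᶠ w, Real.log (pl w (q : kk)) = 0 := by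
  have h1 : ∑ᶠ w, Real.log (pl w (q.num : kk)) = 0 := by
    obtain ⟨n, h | h⟩ := q.num.eq_nat_or_neg
    · rw [h, Int.cast_natCast, placesb_nat]
    · simp only [h, Int.cast_neg, Int.cast_natCast, AbsoluteValue.map_neg, placesb_nat]
  have h2 : (q : kk) * (q.den : kk) = (q.num : kk) := by exact_mod_cast q.mul_den_eq_num
  rwa [← h2, placesb_mul (Rat.cast_ne_zero.2 hq) (Nat.cast_ne_zero.2 q.den_nz), placesb_nat,
    add_zero] at h1

/-- `InfiniteGalois.mem_range_algebraMap_iff_fixed`. -/
theorem fixed_rat {z : kk} (hz : ∀ τ : kk ≃+* kk, τ z = z) : ∃ q : ℚ, z = q := by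
  obtain ⟨q, hq⟩ := (InfiniteGalois.mem_range_algebraMap_iff_fixed (k := ℚ) z).2
    fun τ => hz τ.toRingEquiv
  exact ⟨q, hq.symm⟩

theorem fk_map (f₀ : ℤ[X]) (τ : kk ≃+* kk) : (fk f₀).map (τ : kk →+* kk) = fk f₀ := by
  rw [fk, Polynomial.map_map, RingHom.ext_int (RingHom.comp _ _) (Int.castRingHom kk)]

theorem fixed_rat' {z : kk} (hz : ∀ τ : Aut (fk f₀), τ.1 z = z) : ∃ q : ℚ, z = q := by
  exact fixed_rat fun τ => hz ⟨τ, fk_map f₀ τ⟩

theorem prod_formula' {z : kk} (h0 : z ≠ 0) (hz : ∀ τ : Aut (fk f₀), τ.1 z = z) :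
    ∑ᶠ w, Real.log (pl w z) = 0 := by
  obtain ⟨q, rfl⟩ := fixed_rat' hz
  exact prod_formula (Rat.cast_ne_zero.1 h0)

theorem fixed_poly {u : kk[X]} (hu : ∀ τ : Aut (fk f₀), u.map (τ.1 : kk →+* kk) = u) :
    ∃ u₀ : ℚ[X], u = u₀.map (algebraMap ℚ kk) := by
  obtain ⟨u₀, h⟩ := (mem_lifts u).1 ((lifts_iff_coeff_lifts (f := algebraMap ℚ kk) u).2 fun n => by
    obtain ⟨q, hq⟩ := fixed_rat' (f₀ := f₀) (z := u.coeff n) fun τ => by
      have h := congrArg (fun v => coeff v n) (hu τ)
      rwa [coeff_map] at h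
    exact ⟨q, hq.symm⟩)
  exact ⟨u₀, h.symm⟩

theorem fin_msum {W β : Type*} (E : Multiset β) (t : W → β → ℝ)
    (ht : ∀ R ∈ E, (Function.support fun w => t w R).Finite) :
    (Function.support fun w => (E.map (t w)).sum).Finite := by
  induction E using Multiset.induction_on with
  | empty => simp
  | cons a s ih =>
    simp only [Multiset.map_cons, Multiset.sum_cons]
    exact ((ht a (Multiset.mem_cons_self _ _)).union
      (ih fun R hR => ht R (Multiset.mem_cons_of_mem hR))).subset (Function.support_add _ _)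

theorem finsum_msum {W β : Type*} (E : Multiset β) (t : W → β → ℝ)
    (ht : ∀ R ∈ E, (Function.support fun w => t w R).Finite) :
    ∑ᶠ w, (E.map (t w)).sum = (E.map fun R => ∑ᶠ w, t w R).sum := by
  induction E using Multiset.induction_on with
  | empty => simp
  | cons a s ih =>
    have h := fun R hR => ht R (Multiset.mem_cons_of_mem hR)
    simp only [Multiset.map_cons, Multiset.sum_cons]
    rw [finsum_add_distrib (ht a (Multiset.mem_cons_self _ _)) (fin_msum s t h), ih h]

end Pool.Agent.Lib.MP_830c64_nt
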