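import Pool.Agent.Lib.MP_830c64_nt.CvRR2
import Pool.Agent.Lib.MP_830c64_nt.Places2

namespace Pool.Agent.Lib.MP_830c64_nt

open Polynomial
open scoped Classical

variable {f₀ : ℤ[X]} {g : ℕ}

/-- A stable divisor containing a W-point contains all of them (`GC.root_trans`, `count_dv_y`). -/
theorem stab_W (h : GC f₀ g) {D : Multiset (Pt (fk f₀))} (hD : Stab D) {P : Pt (fk f₀)}
    (hP : P ∈ D) (hy : P.y = 0) : dv (yy (fk f₀) 0) ≤ D := by
  refine Multiset.le_iff_count.2 fun Q => ?_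
  rw [count_dv_y h.crv]
  split_ifs with hQ
  · obtain ⟨τ, hτ⟩ := h.root_trans (α := P.x) (z := Q.x) (by rw [← P.on, hy]; simp)
      (by rw [← Q.on, hQ]; simp)
    have e : Pt.act τ P = Q := Pt.ext hτ (by rw [act_y, hy, hQ, map_zero])
    rw [Multiset.one_le_count_iff_mem, ← e, ← hD τ]
    exact Multiset.mem_map_of_mem _ hP
  · exact Nat.zero_le _

theorem reduce_card (h : GC f₀ g) : (dv (yy (fk f₀) 0)).card = 2 * g + 1 := by
  rw [card_dv h.crv (yy_ne_zero _), ← C_0, wt_yy_C h.crv]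

theorem stab_small (h : GC f₀ g) {D : Multiset (Pt (fk f₀))} (hD : Stab D)
    (hc : D.card ≤ 2 * g) : ∀ P ∈ D, P.y ≠ 0 := by
  intro P hP hy
  have h1 := Multiset.card_le_card (stab_W h hD hP hy)
  rw [reduce_card h] at h1
  omega

/-- Induction on the size with `stab_W` and `rel_dv_add`. -/
theorem exists_Wfree (h : GC f₀ g) {D : Multiset (Pt (fk f₀))} (hD : Stab D) :
    ∃ E, Stab E ∧ (∀ P ∈ E, P.y ≠ 0) ∧ rel D E := by
  induction hn : D.card using Nat.strong_induction_on generalizing D with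
  | _ n ih =>
    by_cases hW : ∀ P ∈ D, P.y ≠ 0
    · exact ⟨D, hD, hW, rel_refl h.crv D⟩
    · simp only [not_forall, not_not] at hW
      obtain ⟨P, hP, hy⟩ := hW
      obtain ⟨D', rfl⟩ := Multiset.le_iff_exists_add.1 (stab_W h hD hP hy)
      have hs : Stab (dv (yy (fk f₀) 0)) := stab_dv h.crv (yy_ne_zero _) fun τ => by
        rw [actCR_yy, Polynomial.map_zero]
      rw [Multiset.card_add, reduce_card h] at hn
      obtain ⟨E, h1, h2, h3⟩ := ih D'.card (by omega) (hs.of_add hD) rfl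
      exact ⟨E, h1, h2, rel_trans h.crv (rel_dv_add h.crv (yy_ne_zero _) D') h3⟩

/-- `exists_Wfree`, `rr_stab` give `D + F = dv φ` with `card F ≤ g`; let `E₀ = F.map inv`,
`G = E₀ ∩ E₀.map inv` (stable, `inv`-invariant, W-free, so `G = G' + G'.map inv` by `exists_half`)
and `E = E₀ - G`. -/
theorem reduce (h : GC f₀ g) {D : Multiset (Pt (fk f₀))} (hD : Stab D) :
    ∃ E, Stab E ∧ Red g E ∧ rel D E := by
  obtain ⟨E₁, s1, w1, r1⟩ := exists_Wfree h hD
  obtain ⟨φ, F, hφ, e, hc, sF⟩ := rr_stab h.crv E₁ w1 s1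
  obtain ⟨E₀, hE⟩ : ∃ E₀, E₀ = F.map Pt.inv := ⟨_, rfl⟩
  have s0 : Stab E₀ := hE ▸ sF.inv
  have c0 : E₀.card ≤ g := by rwa [hE, Multiset.card_map]
  have r2 : rel E₁ E₀ := ⟨φ, hφ, by rw [hE, map_inv_inv, e]⟩
  have hG : ∀ P, (E₀ ∩ E₀.map Pt.inv).count P = min (E₀.count P) (E₀.count P.inv) := fun P => by
    rw [Multiset.count_inter, count_map_inv]
  obtain ⟨G, eG⟩ := exists_half (G := E₀ ∩ E₀.map Pt.inv)
    (Multiset.ext.2 fun P => by rw [count_map_inv, hG, hG, inv_inv, min_comm]) fun P hy => by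
      have : E₀.count P = 0 :=
        Multiset.count_eq_zero.2 fun hP => stab_small h s0 (by omega) P hP hy
      rw [hG, this]
      simp
  obtain ⟨E, e0⟩ := Multiset.le_iff_exists_add.1 (Multiset.inter_le_left (s := E₀)
    (t := E₀.map Pt.inv))
  refine ⟨E, (s0.inter s0.inv).of_add (e0 ▸ s0), ⟨?_, fun P hP hP' => ?_⟩,
    rel_trans h.crv r1 (rel_trans h.crv r2 ?_)⟩
  · have := congrArg Multiset.card e0
    rw [Multiset.card_add] at this
    omega
  · have a := congrArg (Multiset.count P) e0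
    have b := congrArg (Multiset.count P.inv) e0
    rw [Multiset.count_add, hG] at a b
    rw [inv_inv] at b
    have c := Multiset.count_pos.2 hP
    have d := Multiset.count_pos.2 hP'
    omega
  · rw [eG, ← dv_aD h.crv] at e0
    rw [e0]
    exact rel_dv_add h.crv (pol_ne_zero (aD_monic G).ne_zero) E

theorem Red.y_ne {k : Type*} [Field k] {f : k[X]} {E : Multiset (Pt f)} (hE : Red g E) :
    ∀ P ∈ E, P.y ≠ 0 := by
  intro P hP hy
  exact hE.2 P hP (by rwa [inv_eq_of_y P hy])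

end Pool.Agent.Lib.MP_830c64_nt
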