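import Pool.Agent.Lib.MP_830c64_nt.Defs

namespace Pool.Agent.Lib.MP_830c64_nt

open NumberField IsDedekindDomain
open scoped Classical nonZeroDivisors

/-- Dirichlet's unit theorem: the torsion is cyclic and the rank is less than the degree. -/
theorem units_sq (K : Type) [Field K] [NumberField K] :
    ∃ c : (𝓞 K)ˣ → (Fin (Module.finrank ℚ K) → ZMod 2), ∀ u u', c u = c u' → IsSquare (u * u') := by
  have hr : Units.rank K < Module.finrank ℚ K := by
    have h1 := InfinitePlace.card_eq_nrRealPlaces_add_nrComplexPlaces K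
    have h2 := InfinitePlace.card_add_two_mul_card_eq_rank K
    have h3 : 0 < Fintype.card (InfinitePlace K) := Fintype.card_pos
    unfold Units.rank
    omega
  obtain ⟨ζ, hζ⟩ := IsCyclic.exists_generator (α := Units.torsion K)
  have key : ∀ u : (𝓞 K)ˣ, ∃ (a : ℤ) (e : Fin (Units.rank K) → ℤ),
      u = (ζ : (𝓞 K)ˣ) ^ a * ∏ i, Units.fundSystem K i ^ e i := by
    intro u
    obtain ⟨⟨t, e⟩, h, -⟩ := Units.exist_unique_eq_mul_prod K u
    obtain ⟨a, ha⟩ := hζ t
    refine ⟨a, e, ?_⟩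
    rw [h, ← ha]
    simp
  choose a e hae using key
  refine ⟨fun u j => if h : (j : ℕ) < Units.rank K then (e u ⟨j, h⟩ : ZMod 2) else (a u : ZMod 2),
    fun u u' h => ?_⟩
  have ev : ∀ x y : ℤ, (x : ZMod 2) = (y : ZMod 2) → ∃ z : ℤ, x + y = z + z := by
    intro x y hxy
    have := (ZMod.intCast_eq_intCast_iff_dvd_sub x y 2).1 hxy
    obtain ⟨z, hz⟩ := this
    exact ⟨x + z, by push_cast at hz; omega⟩
  have h1 : ∃ z : ℤ, a u + a u' = z + z := by
    have := congrFun h ⟨Units.rank K, hr⟩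
    simp only [lt_irrefl, dif_neg, not_false_eq_true] at this
    exact ev _ _ this
  have h2 : ∀ i, ∃ z : ℤ, e u i + e u' i = z + z := by
    intro i
    have := congrFun h ⟨i, i.2.trans hr⟩
    simp only [i.2, dif_pos] at this
    exact ev _ _ this
  obtain ⟨z, hz⟩ := h1
  choose w hw using h2
  refine ⟨(ζ : (𝓞 K)ˣ) ^ z * ∏ i, Units.fundSystem K i ^ w i, ?_⟩
  conv_lhs => rw [hae u, hae u']
  rw [mul_mul_mul_comm, mul_mul_mul_comm ((ζ : (𝓞 K)ˣ) ^ z), ← zpow_add, ← zpow_add, hz,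
    ← Finset.prod_mul_distrib, ← Finset.prod_mul_distrib]
  congr 1
  exact Finset.prod_congr rfl fun i _ => by rw [← zpow_add, ← zpow_add, hw]

/-- At most `n` primes lie above each rational prime. -/
theorem card_S (K : Type) [Field K] [NumberField K] {m : ℤ} (hm : m ≠ 0) :
    ∃ S : Finset (HeightOneSpectrum (𝓞 K)), (∀ 𝔭 : HeightOneSpectrum (𝓞 K),
      (m : 𝓞 K) ∈ 𝔭.asIdeal → 𝔭 ∈ S) ∧
      S.card ≤ Module.finrank ℚ K * m.natAbs.primeFactors.card := by
  let T : Finset (Ideal (𝓞 K)) := m.natAbs.primeFactors.biUnion fun p =>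
    IsDedekindDomain.primesOverFinset (Ideal.span {(p : ℤ)}) (𝓞 K)
  have inj : Function.Injective (fun 𝔭 : HeightOneSpectrum (𝓞 K) => 𝔭.asIdeal) :=
    fun _ _ h => HeightOneSpectrum.ext h
  have ne : ∀ p : ℕ, p.Prime → Ideal.span {(p : ℤ)} ≠ ⊥ := fun p hp => by
    simpa using hp.ne_zero
  have mx : ∀ p : ℕ, p.Prime → (Ideal.span {(p : ℤ)}).IsMaximal := fun p hp =>
    Ideal.IsPrime.isMaximal
      ((Ideal.span_singleton_prime (by exact_mod_cast hp.ne_zero)).2 (Nat.prime_iff_prime_int.1 hp))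
      (ne p hp)
  refine ⟨T.preimage _ inj.injOn, fun 𝔭 h => ?_, ?_⟩
  · rw [Finset.mem_preimage]
    have hP := 𝔭.isPrime
    have hm' : m ∈ 𝔭.asIdeal.under ℤ := by
      rw [Ideal.under, Ideal.mem_comap]; simpa using h
    have hq : (𝔭.asIdeal.under ℤ).IsPrime := inferInstance
    obtain ⟨q, hq'⟩ := (IsPrincipalIdealRing.principal (𝔭.asIdeal.under ℤ)).principal
    have hq'' : 𝔭.asIdeal.under ℤ = Ideal.span {q} := hq'
    have hdvd : q ∣ m := by rw [hq'', Ideal.mem_span_singleton] at hm'; exact hm'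
    have hq0 : q ≠ 0 := by rintro rfl; exact hm (zero_dvd_iff.1 hdvd)
    have hprime : Prime q := (Ideal.span_singleton_prime hq0).1 (hq'' ▸ hq)
    have hn : q.natAbs.Prime := Int.prime_iff_natAbs_prime.1 hprime
    refine Finset.mem_biUnion.2 ⟨q.natAbs, Nat.mem_primeFactors.2
      ⟨hn, Int.natAbs_dvd_natAbs.2 hdvd, Int.natAbs_ne_zero.2 hm⟩, ?_⟩
    have := mx _ hn
    rw [IsDedekindDomain.mem_primesOverFinset_iff (ne _ hn)]
    refine ⟨hP, ⟨?_⟩⟩
    rw [hq'', Int.span_natAbs]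
  · refine le_trans (Finset.card_le_card_of_injOn (t := T) _
      (fun 𝔭 h => Finset.mem_preimage.1 h) inj.injOn) ?_
    refine le_trans Finset.card_biUnion_le ?_
    rw [mul_comm, ← smul_eq_mul]
    refine Finset.sum_le_card_nsmul _ _ _ fun p hp => ?_
    have hn := Nat.prime_of_mem_primeFactors hp
    have := mx _ hn
    exact Ideal.card_primesOverFinset_le_finrank (𝓞 K) ℚ K (ne _ hn)

theorem one_le_h2 (K : Type) [Field K] [NumberField K] : 1 ≤ h2 K := by
  have : Nonempty {c : ClassGroup (𝓞 K) // c ^ 2 = 1} := ⟨⟨1, one_pow 2⟩⟩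
  exact Nat.card_pos

end Pool.Agent.Lib.MP_830c64_nt
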