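import Pool.Agent.Lib.MP_830c64_nt.Tate2

namespace Pool.Agent.Lib.MP_830c64_nt

open Polynomial
open scoped Classical

variable {k : Type*} [Field k] [CharZero k] [IsAlgClosed k] {f : k[X]} {g : ℕ}
  {v : AbsoluteValue k ℝ} {κ : ℝ}

theorem sig_isSym (h : Crv f g) (v : AbsoluteValue k ℝ) {P : Pt f} (hy : P.y ≠ 0) :
    IsSym v P (sig v P) := by
  obtain ⟨κ, hd⟩ := dat_exists h.sep v
  obtain ⟨m, hm⟩ := isSym_exists h hd
  obtain ⟨σ, h1, h2⟩ := hm P hy
  have he : P.y ≠ 0 ∧ ∃ σ, IsSym v P σ := ⟨hy, σ, h1, _, h2⟩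
  rw [sig, dif_pos he]
  exact he.2.choose_spec

theorem sig_rec (h : Crv f g) (v : AbsoluteValue k ℝ) {P : Pt f} (hy : P.y ≠ 0) {φ : CR f}
    (hφ : φ ≠ 0) :
    ((dv φ).map (sig v P)).sum = Real.log (v (lead P.inv φ)) - Real.log (v (lead P φ)) := by
  exact (sig_isSym h v hy).1 φ hφ

theorem sig_bound (h : Crv f g) (hd : Dat v f κ) :
    ∃ m : ℕ, ∀ P R : Pt f, P.y ≠ 0 → |sig v P R - sn v P R| ≤ m * Real.log κ := by
  obtain ⟨m, hm⟩ := isSym_exists h hd
  refine ⟨m, fun P R hy => ?_⟩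
  obtain ⟨σ, h1, h2⟩ := hm P hy
  rw [isSym_unique h (sig_isSym h v hy) ⟨h1, _, h2⟩]
  exact h2 R

theorem sig_good (h : Crv f g) (hd : Dat v f 1) {P : Pt f} (hy : P.y ≠ 0) (R : Pt f) :
    sig v P R = sn v P R := by
  obtain ⟨m, hm⟩ := sig_bound h hd
  have := hm P R hy
  rw [Real.log_one, mul_zero, abs_nonpos_iff, sub_eq_zero] at this
  exact this

theorem sig_W_left {P : Pt f} (hy : P.y = 0) (R : Pt f) : sig v P R = 0 := by
  rw [sig, dif_neg fun h => h.1 hy]
  rfl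

theorem sig_inv_right (h : Crv f g) (P R : Pt f) : sig v P R.inv = -sig v P R := by
  by_cases hy : P.y = 0
  · rw [sig_W_left hy, sig_W_left hy, neg_zero]
  have hy' : P.inv.y ≠ 0 := neg_ne_zero.2 hy
  obtain ⟨h1, B, h2⟩ := sig_isSym h v hy
  have h3 : IsSym v P fun R => -sig v P R.inv := by
    refine ⟨fun φ hφ => ?_, B, fun R => ?_⟩
    · have h4 := h1 (star φ) (star_ne_zero.2 hφ)
      have h5 := lead_star h hy' hφ
      rw [inv_inv] at h5
      rw [dv_star h hφ, lead_star h hy hφ, h5, Multiset.map_map] at h4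
      rw [Multiset.sum_map_neg]
      change -((dv φ).map (sig v P ∘ Pt.inv)).sum = _
      rw [h4, neg_sub]
    · have h4 := h2 R.inv
      rw [sn_inv_right hy, sub_neg_eq_add] at h4
      rwa [← neg_add', abs_neg]
  have h6 := congrFun (isSym_unique h h3 (sig_isSym h v hy)) R
  exact neg_eq_iff_eq_neg.1 h6

theorem sig_W_right (h : Crv f g) (P : Pt f) {R : Pt f} (hR : R.y = 0) : sig v P R = 0 := by
  have := sig_inv_right (v := v) h P R
  rw [inv_eq_of_y R hR] at this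
  linarith

theorem sig_inv_left (h : Crv f g) (P R : Pt f) : sig v P.inv R = -sig v P R := by
  by_cases hy : P.y = 0
  · rw [inv_eq_of_y P hy, sig_W_left hy, neg_zero]
  have hy' : P.inv.y ≠ 0 := neg_ne_zero.2 hy
  obtain ⟨h1, B, h2⟩ := sig_isSym h v hy
  have h3 : IsSym v P.inv fun R => -sig v P R := by
    refine ⟨fun φ hφ => ?_, B, fun R => ?_⟩
    · rw [Multiset.sum_map_neg, h1 φ hφ, inv_inv, neg_sub]
    · rw [sn_inv_left, neg_sub_neg, abs_sub_comm]
      exact h2 R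
  exact congrFun (isSym_unique h (sig_isSym h v hy') h3) R

theorem sig_sub_symm (h : Crv f g) (hd : Dat v f κ) :
    ∃ m : ℕ, ∀ P R : Pt f, |sig v P R - sig v R P| ≤ m * Real.log κ := by
  obtain ⟨m, hm⟩ := sig_bound h hd
  have h0 : 0 ≤ Real.log κ := Real.log_nonneg hd.one_le
  refine ⟨2 * m, fun P R => ?_⟩
  by_cases hy : P.y = 0
  · rw [sig_W_left hy, sig_W_right h R hy, sub_zero, abs_zero]
    positivity
  by_cases hR : R.y = 0
  · rw [sig_W_left hR, sig_W_right h P hR, sub_zero, abs_zero]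
    positivity
  have h1 := abs_le.1 (hm P R hy)
  have h2 := abs_le.1 (hm R P hR)
  rw [← sn_symm hy hR] at h2
  push_cast
  rw [abs_le]
  constructor <;> linarith [h1.1, h1.2, h2.1, h2.2]

end Pool.Agent.Lib.MP_830c64_nt
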