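import Pool.Agent.Lib.MP_830c64_nt.Sig

namespace Pool.Agent.Lib.MP_830c64_nt

open Polynomial
open scoped Classical

variable {k : Type*} [Field k] [CharZero k] [IsAlgClosed k] {f : k[X]} {g : ℕ}
  {v : AbsoluteValue k ℝ} {κ : ℝ}

theorem sigup_log_prod {α : Type*} (s : Multiset α) (t : α → ℝ) (ht : ∀ a, 0 < t a) :
    0 < (s.map t).prod ∧ Real.log (s.map t).prod = (s.map fun a => Real.log (t a)).sum := by
  induction s using Multiset.induction_on with
  | empty => simp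
  | cons a s ih =>
    rw [Multiset.map_cons, Multiset.map_cons, Multiset.prod_cons, Multiset.sum_cons,
      Real.log_mul (ht a).ne' ih.1.ne', ih.2]
    exact ⟨mul_pos (ht a) ih.1, rfl⟩

theorem sigup_sum_le {α : Type*} (s : Multiset α) (a b c d : α → ℝ) (e : ℝ)
    (ht : ∀ x, 2 * a x + b x - c x ≤ -d x + e) :
    2 * (s.map a).sum + (s.map b).sum - (s.map c).sum ≤ -(s.map d).sum + s.card * e := by
  induction s using Multiset.induction_on with
  | empty => simp
  | cons x s ih =>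
    simp only [Multiset.map_cons, Multiset.sum_cons, Multiset.card_cons]
    push_cast
    linarith [ht x]

theorem sigup_v_prod {α : Type*} (s : Multiset α) (t : α → k) :
    v (s.map t).prod = (s.map fun a => v (t a)).prod := by
  induction s using Multiset.induction_on with
  | empty => simp
  | cons a s ih =>
    rw [Multiset.map_cons, Multiset.map_cons, Multiset.prod_cons, Multiset.prod_cons, map_mul, ih]

theorem sigup_pos {Q : Pt f} (hy : Q.y ≠ 0) {c' : ℝ} (hc : 0 < c') (R : Pt f) :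
    0 < c' * ww v Q R / mu v Q R :=
  div_pos (mul_pos hc (one_pos.trans_le (one_le_ww Q R))) (mu_pos hy R)

theorem sigup_one (h : Crv f g) (v : AbsoluteValue k ℝ) :
    ∃ c₀ : ℝ, 0 ≤ c₀ ∧ ∀ (Q R : Pt f) (c' : ℝ), Q.y ≠ 0 → 0 < c' →
      2 * Real.log (c' * ww v Q R / mu v Q R) + sig v Q R - Real.log (v (nz (Q.x - R.x))) ≤
        -Real.log (Hh v Q R) + (c₀ + 2 * Real.log c') := by
  obtain ⟨κ, hd⟩ := dat_exists h.sep v
  obtain ⟨m, hm⟩ := sig_bound h hd
  obtain ⟨m', hm'⟩ := key_D h hd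
  have hκ : 0 < κ := one_pos.trans_le hd.one_le
  refine ⟨(m + m') * Real.log κ, mul_nonneg (by positivity) (Real.log_nonneg hd.one_le),
    fun Q R c' hy hc => ?_⟩
  have hy' : Q.inv.y ≠ 0 := neg_ne_zero.2 hy
  have hw : 0 < ww v Q R := one_pos.trans_le (one_le_ww Q R)
  have hH : 0 < Hh v Q R := one_pos.trans_le (one_le_Hh Q R)
  have h1 : 0 < mu v Q R := mu_pos hy R
  have h2 : 0 < mu v Q.inv R := mu_pos hy' R
  have h3 : 0 < v (nz (Q.x - R.x)) := v.pos (nz_ne_zero _)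
  have h4 := (abs_le.1 (hm Q R hy)).2
  have h5 := Real.log_le_log (pow_pos hH _) (hm' Q R hy)
  rw [← ww_sq h, Real.log_mul (pow_pos hw _).ne' hH.ne', Real.log_pow,
    Real.log_mul (pow_pos hκ _).ne' (mul_pos (mul_pos h1 h2) h3).ne', Real.log_pow,
    Real.log_mul (mul_pos h1 h2).ne' h3.ne', Real.log_mul h1.ne' h2.ne'] at h5
  rw [Real.log_div (mul_pos hc hw).ne' h1.ne', Real.log_mul hc.ne' hw.ne', add_mul]
  rw [sn] at h4
  push_cast at h5
  linarith

/-- The one-sided bound used at every place. By `sig_rec` and `lead_mul_inv`,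
`- ∑_D sig Q = 2 log v (lead Q φ) - log v (lc) - ∑_{D + F} log v (nz ..) + ∑_F sig Q`; use
`sig_bound` on `F`, then `hV` and `key_D` (with `ww_sq`) for each `R ∈ F`. -/
theorem sig_up (h : Crv f g) (v : AbsoluteValue k ℝ) :
    ∃ c₀ : ℝ, 0 ≤ c₀ ∧ ∀ (Q : Pt f) (φ : CR f) (D F : Multiset (Pt f)) (V c' : ℝ), Q.y ≠ 0 →
      φ ≠ 0 → dv φ = D + F → 0 < c' →
      v (lead Q φ) ≤ V * (F.map fun R => c' * ww v Q R / mu v Q R).prod →
      -(D.map (sig v Q)).sum + (D.map fun R => Real.log (v (nz (Q.x - R.x)))).sum ≤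
        2 * Real.log V - Real.log (v (nm φ).leadingCoeff) -
          (F.map fun R => Real.log (Hh v Q R)).sum + F.card * (c₀ + 2 * Real.log c') := by
  obtain ⟨c₀, hc₀, h1⟩ := sigup_one h v
  refine ⟨c₀, hc₀, fun Q φ D F V c' hy hφ hD hc hV => ?_⟩
  have ha : 0 < v (lead Q φ) := v.pos (lead_ne_zero _ _)
  have hb : 0 < v (lead Q.inv φ) := v.pos (lead_ne_zero _ _)
  have hl : 0 < v (nm φ).leadingCoeff := v.pos (leadingCoeff_ne_zero.2 (nm_ne_zero h hφ))
  obtain ⟨h2, h3⟩ := sigup_log_prod F _ (sigup_pos (v := v) hy hc)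
  have hV0 : 0 < V := (mul_pos_iff_of_pos_right h2).1 (ha.trans_le hV)
  have h4 := Real.log_le_log ha hV
  rw [Real.log_mul hV0.ne' h2.ne', h3] at h4
  have h5 := sig_rec h v hy hφ
  rw [hD, Multiset.map_add, Multiset.sum_add] at h5
  obtain ⟨h6, h7⟩ := sigup_log_prod (dv φ) (fun R => v (nz (Q.x - R.x)))
    fun R => v.pos (nz_ne_zero _)
  have h8 := congrArg (fun z => Real.log (v z)) (lead_mul_inv h hy hφ)
  simp only [map_mul] at h8
  rw [sigup_v_prod, Real.log_mul ha.ne' hb.ne', Real.log_mul hl.ne' h6.ne', h7, hD,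
    Multiset.map_add, Multiset.sum_add] at h8
  have h9 := sigup_sum_le F _ _ _ _ _ fun R => h1 Q R c' hy hc
  linarith

/-- The form in which `sig_up` is used: `D` is `N` copies of `P`, the size `ν` dominates evaluation
at `Q` and behaves well under removal of the points of `F`. -/
theorem sig_up_rep (h : Crv f g) (v : AbsoluteValue k ℝ) :
    ∃ c₀ : ℝ, 0 ≤ c₀ ∧ ∀ (P Q : Pt f) (φ : CR f) (N : ℕ) (F : Multiset (Pt f)) (ν : CR f → ℝ)
      (c' : ℝ), Q.y ≠ 0 → Q ≠ P → φ ≠ 0 → dv φ = Multiset.replicate N P + F → F.card ≤ g →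
      1 ≤ c' → (∀ ψ, 0 ≤ ν ψ) → (∀ ψ, v (ev Q ψ) ≤ ν ψ) →
      (∀ R ∈ F, ∀ ψ ψ' : CR f, pol f (X - C R.x) * ψ' = ψ * yy f (C R.y) →
        ν ψ' ≤ c' * ww v Q R * ν ψ) →
      0 < ν φ ∧ N * (-sig v Q P + Real.log (v (nz (Q.x - P.x)))) ≤
        2 * Real.log (ν φ) - Real.log (v (nm φ).leadingCoeff) -
          (F.map fun R => Real.log (Hh v Q R)).sum + g * (c₀ + 2 * Real.log c') := by
  obtain ⟨c₀, hc₀, h1⟩ := sig_up h v
  refine ⟨c₀, hc₀, fun P Q φ N F ν c' hy hne hφ hD hF hc hν hev hrm => ?_⟩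
  have hc0 : 0 < c' := one_pos.trans_le hc
  have h2 := removal (v := v) h hy ν hν zero_le_one hc (wt φ + (2 * g + 1) * F.card) F
    (fun ψ _ => by rw [one_mul]; exact hev ψ) (fun R hR ψ ψ' _ _ e => hrm R hR ψ ψ' e) hφ
    (by rw [hD]; exact Multiset.le_add_left _ _)
    (by rw [← count_dv h hφ, hD, Multiset.count_add, Multiset.count_replicate,
      if_neg (Ne.symm hne), zero_add]) le_rfl
  rw [one_mul] at h2
  have ha : 0 < v (lead Q φ) := v.pos (lead_ne_zero _ _)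
  refine ⟨(mul_pos_iff_of_pos_right (sigup_log_prod F _ (sigup_pos (v := v) hy hc0)).1).1
    (ha.trans_le h2), ?_⟩
  have h3 := h1 Q φ _ F (ν φ) c' hy hφ hD hc0 h2
  rw [Multiset.map_replicate, Multiset.map_replicate, Multiset.sum_replicate,
    Multiset.sum_replicate, nsmul_eq_mul, nsmul_eq_mul] at h3
  have h4 : (F.card : ℝ) * (c₀ + 2 * Real.log c') ≤ g * (c₀ + 2 * Real.log c') :=
    mul_le_mul_of_nonneg_right (by exact_mod_cast hF)
      (add_nonneg hc₀ (mul_nonneg zero_le_two (Real.log_nonneg hc)))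
  linarith

end Pool.Agent.Lib.MP_830c64_nt
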