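import Pool.Agent.Lib.MP_830c64_nt.LabOdd
import Pool.Agent.Lib.MP_830c64_nt.LabTwo
import Pool.Agent.Lib.MP_830c64_nt.LabInf
import Pool.Agent.Lib.MP_830c64_nt.GlobS
import Pool.Agent.Lib.MP_830c64_nt.Divis

namespace Pool.Agent.Lib.MP_830c64_nt

open Polynomial
open scoped Classical

variable {f₀ : ℤ[X]} {g : ℕ}

theorem slice_odd (h : GC f₀ g) {Δ : ℤ} (hΔ : Bez f₀ Δ) (p : ℕ) (hp : p.Prime) :
    ∃ (α : Type) (_ : Fintype α) (ℓ : Pt (fk f₀) → α),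
      Fintype.card α ≤ 2 * (2 * g + 1) * (Δ.natAbs.factorization p + 3) ∧
      ∀ P Q, IP P → IP Q → Q.x ≠ P.x → ℓ P = ℓ Q → p ≠ 2 →
        LL (pl (some ⟨p, hp⟩)) P Q ≤ 0 := by
  by_cases h2 : p = 2
  · refine ⟨Unit, inferInstance, fun _ => (), ?_, fun _ _ _ _ _ _ h => absurd h2 h⟩
    rw [Fintype.card_unit]
    exact Nat.succ_le_of_lt (by positivity)
  · obtain ⟨α, i, ℓ, h1, h3⟩ := lab_odd h hΔ ⟨p, hp⟩ h2
    refine ⟨α, i, ℓ, ?_, fun P Q a b c d _ => h3 P Q a b c d⟩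
    rw [Nat.factorization_def _ hp]
    exact h1

/-- The product of the classes at infinity, at `2` and at the odd primes dividing `Δ` (a dependent
function type over `Δ.natAbs.primeFactors`; the trivial class at `p = 2` in this product); `lab_good`
at the other primes; `repul`. -/
theorem slice (h : GC f₀ g) {Δ : ℤ} (hΔ : Bez f₀ Δ) (B : ℕ)
    (hr : ∀ z ∈ (f₀.map (Int.castRingHom ℂ)).roots, ‖z‖ ≤ 2 ^ B) :
    ∃ (α : Type) (_ : Fintype α) (ℓ : Pt (fk f₀) → α),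
      (Fintype.card α : ℝ) ≤ 256000 * (2 * g + 1) ^ 3 * ((B : ℝ) + 3) ^ 2 *
        ∏ p ∈ Δ.natAbs.primeFactors, (2 * (2 * g + 1) : ℝ) * ((Δ.natAbs.factorization p : ℝ) + 3) ∧
      ∀ P Q, IPB B P → IPB B Q → Q.x ≠ P.x → ℓ P = ℓ Q → BB {Q} {P} < BB {P} {P} / (2 * g) := by
  obtain ⟨α₁, i₁, ℓ₁, c₁, h₁⟩ := lab_inf h B hr
  obtain ⟨α₂, i₂, ℓ₂, c₂, h₂⟩ := lab_two h B
  have key := fun p : {p // p ∈ Δ.natAbs.primeFactors} =>
    slice_odd h hΔ p.1 (Nat.prime_of_mem_primeFactors p.2)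
  choose α₃ i₃ ℓ₃ c₃ h₃ using key
  refine ⟨α₁ × α₂ × (∀ p, α₃ p), inferInstance, fun P => (ℓ₁ P, ℓ₂ P, fun p => ℓ₃ p P), ?_, ?_⟩
  · rw [Fintype.card_prod, Fintype.card_prod, Fintype.card_pi]
    have e₁ : (Fintype.card α₁ : ℝ) ≤ 4000 * (2 * g + 1) ^ 2 * ((B : ℝ) + 3) := by
      exact_mod_cast c₁
    have e₂ : (Fintype.card α₂ : ℝ) ≤ 64 * (2 * g + 1) * ((B : ℝ) + 3) := by
      have e : (Fintype.card α₂ : ℝ) ≤ 64 * (2 * g + 1) * ((B : ℝ) + 1) := by exact_mod_cast c₂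
      refine e.trans ?_
      gcongr
      norm_num
    have e₃ : (∏ p, (Fintype.card (α₃ p) : ℝ)) ≤ ∏ p ∈ Δ.natAbs.primeFactors,
        (2 * (2 * g + 1) : ℝ) * ((Δ.natAbs.factorization p : ℝ) + 3) := by
      rw [← Finset.prod_coe_sort Δ.natAbs.primeFactors]
      refine Finset.prod_le_prod (fun p _ => Nat.cast_nonneg _) fun p _ => ?_
      exact_mod_cast c₃ p
    push_cast
    calc (Fintype.card α₁ : ℝ) * (Fintype.card α₂ * ∏ p, (Fintype.card (α₃ p) : ℝ))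
        ≤ (4000 * (2 * g + 1) ^ 2 * ((B : ℝ) + 3)) * ((64 * (2 * g + 1) * ((B : ℝ) + 3)) *
          ∏ p ∈ Δ.natAbs.primeFactors,
            (2 * (2 * g + 1) : ℝ) * ((Δ.natAbs.factorization p : ℝ) + 3)) := by
          gcongr
      _ = _ := by ring
  · intro P Q hP hQ hx e
    simp only [Prod.mk.injEq] at e
    obtain ⟨e₁, e₂, e₃⟩ := e
    refine repul h hP.ip hQ.ip hx (fun p => ?_) (h₁ P Q hP hQ hx e₁)
    by_cases h2 : (p : ℕ) = 2
    · obtain rfl : p = ⟨2, Nat.prime_two⟩ := Subtype.ext h2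
      exact h₂ P Q hP hQ hx e₂
    · by_cases hd : (p : ℕ) ∣ Δ.natAbs
      · have hm : (p : ℕ) ∈ Δ.natAbs.primeFactors :=
          Nat.mem_primeFactors.2 ⟨p.2, hd, Int.natAbs_ne_zero.2 hΔ.1⟩
        exact h₃ ⟨p, hm⟩ P Q hP.ip hQ.ip hx (congrFun e₃ ⟨p, hm⟩) h2
      · refine lab_good h hΔ p (fun hc => ?_) hP.ip hQ.ip hx
        rw [Int.natCast_dvd, Int.natAbs_mul] at hc
        rcases (Nat.Prime.dvd_mul p.2).1 hc with h3 | h3
        · exact h2 ((Nat.prime_dvd_prime_iff_eq p.2 Nat.prime_two).1 h3)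
        · exact hd h3

/-- The point above an integer `t` with `f₀ t` a square. -/
theorem exists_ipb (h : GC f₀ g) {T : ℝ} (hT : 1 ≤ T)
    (hr : ∀ z ∈ (f₀.map (Int.castRingHom ℂ)).roots, ‖z‖ ≤ T) {B : ℕ}
    (hB : (2 * T) ^ (2 * g + 1) < 2 ^ B) {t : ℤ} (ht : |(t : ℝ)| ≤ T) (hs : IsSquare (f₀.eval t)) :
    ∃ P : Pt (fk f₀), IPB B P ∧ P.x = t := by
  obtain ⟨s, hs⟩ := hs
  have hne := h.eval_ne_zero t
  have hs0 : s ≠ 0 := fun e => hne (by rw [hs, e, mul_zero])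
  have hsq : |s| ^ 2 = f₀.eval t := by rw [sq_abs, hs, sq]
  have hm : (f₀.map (Int.castRingHom ℂ)).Monic := h.monic.map _
  have hc : (f₀.map (Int.castRingHom ℂ)).roots.card = 2 * g + 1 := by
    rw [← h.deg, ← h.monic.natDegree_map (Int.castRingHom ℂ)]
    exact (IsAlgClosed.splits _).natDegree_eq_card_roots.symm
  have hev : (((f₀.eval t : ℤ) : ℂ)) =
      ((f₀.map (Int.castRingHom ℂ)).roots.map fun z => (t : ℂ) - z).prod := by
    have e := (IsAlgClosed.splits (f₀.map (Int.castRingHom ℂ))).eq_prod_roots_of_monic hm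
    have e2 : (f₀.map (Int.castRingHom ℂ)).eval (t : ℂ) = ((f₀.eval t : ℤ) : ℂ) := by
      rw [eval_intCast_map]; simp
    rw [← e2]
    conv_lhs => rw [e]
    rw [eval_multiset_prod, Multiset.map_map]
    simp
  have hle : ‖((f₀.eval t : ℤ) : ℂ)‖ ≤ (2 * T) ^ (2 * g + 1) := by
    rw [hev, ← hc]
    have hall : ∀ m : Multiset ℂ, (∀ z ∈ m, ‖z‖ ≤ T) →
        ‖(m.map fun z => (t : ℂ) - z).prod‖ ≤ (2 * T) ^ m.card := by
      intro m
      induction m using Multiset.induction_on with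
      | empty => simp
      | cons a m ih =>
        intro hz
        rw [Multiset.map_cons, Multiset.prod_cons, norm_mul, Multiset.card_cons, pow_succ']
        have h1 : ‖(t : ℂ) - a‖ ≤ 2 * T := by
          have h2 := norm_sub_le (t : ℂ) a
          have h3 := hz a (Multiset.mem_cons_self _ _)
          rw [Complex.norm_intCast] at h2
          linarith
        exact mul_le_mul h1 (ih fun z hz' => hz z (Multiset.mem_cons_of_mem hz'))
          (norm_nonneg _) (by linarith)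
    exact hall _ hr
  refine ⟨⟨(t : kk), ((|s| : ℤ) : kk), ?_⟩, ⟨t, |s|, abs_pos.2 hs0, ?_, ?_, rfl, rfl⟩, rfl⟩
  · rw [fk_eval, ← hsq]; push_cast; rfl
  · rw [Complex.norm_intCast, ← hsq] at hle
    have h1 : (((|s| ^ 2 : ℤ)) : ℝ) < 2 ^ B := lt_of_le_of_lt ((le_abs_self _).trans hle) hB
    exact_mod_cast h1
  · have h1 : 2 * T ≤ (2 * T) ^ (2 * g + 1) := le_self_pow₀ (by linarith) (by omega)
    have h2 : |(t : ℝ)| < 2 ^ B := by linarith
    exact_mod_cast h2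

end Pool.Agent.Lib.MP_830c64_nt
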