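import Pool.Agent.Lib.MP_830c64_nt.CvBasic2
import Pool.Agent.Lib.MP_830c64_nt.GnNa2

namespace Pool.Agent.Lib.MP_830c64_nt

open Polynomial
open scoped Classical

variable {k : Type*} [Field k] [CharZero k] {f : k[X]} {v : AbsoluteValue k ℝ} {a : k} {r : ℝ}
  {h : k[X]}

theorem pp_mul (u u' : CR f) :
    pp h (u * u') = pp h u * pp h u' + u.im * u'.im * (f - h ^ 2) := by
  simp only [pp, QuadraticAlgebra.re_mul, QuadraticAlgebra.im_mul]
  ring

theorem pm_mul (u u' : CR f) :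
    pm h (u * u') = pm h u * pm h u' + u.im * u'.im * (f - h ^ 2) := by
  simp only [pm, QuadraticAlgebra.re_mul, QuadraticAlgebra.im_mul]
  ring

theorem pp_pol_mul (p : k[X]) (u : CR f) : pp h (pol f p * u) = p * pp h u := by
  rw [pp, pp, pol_mul_re, pol_mul_im]
  ring

theorem pp_add (u u' : CR f) : pp h (u + u') = pp h u + pp h u' := by
  simp only [pp, QuadraticAlgebra.re_add, QuadraticAlgebra.im_add]
  ring

theorem nS_nonneg (hr : 0 < r) (u : CR f) : 0 ≤ nS v a r h u := by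
  exact (gc_nonneg hr _).trans (le_max_left _ _)

theorem nS_pol_mul (hna : IsNonarchimedean v) (hr : 0 < r) (p : k[X]) (u : CR f) :
    nS v a r h (pol f p * u) = gc v a r p * nS v a r h u := by
  have e : pm h (pol f p * u) = p * pm h u := by
    rw [pm, pm, pol_mul_re, pol_mul_im]
    ring
  rw [nS, nS, pp_pol_mul, e, gc_mul hna hr, gc_mul hna hr, mul_max_of_nonneg _ _ (gc_nonneg hr p)]

theorem nS_yy_C (hna : IsNonarchimedean v) (hr : 0 < r) (c : k) :
    nS v a r h (yy f (C c)) ≤ max (gc v a r h) (v c) := by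
  have e1 : pp h (yy f (C c)) = h + C c := by
    simp only [pp, yy]
    ring
  have e2 : pm h (yy f (C c)) = -(h - C c) := by
    simp only [pm, yy]
    ring
  rw [nS, e1, e2, gc_neg, ← gc_C (v := v) (a := a) (r := r) c]
  exact max_le (gc_add_le hna hr _ _) (gc_sub_le hna hr _ _)

theorem nS_yy (hna : IsNonarchimedean v) (hr : 0 < r) :
    gc v a r (pp h (yy f h)) = v 2 * gc v a r h ∧ pm h (yy f h) = 0 := by
  have e1 : pp h (yy f h) = C 2 * h := by
    simp only [pp, yy, map_ofNat]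
    ring
  refine ⟨by rw [e1, gc_mul hna hr, gc_C], ?_⟩
  simp only [pm, yy]
  ring

/-- `pp - pm = 2 * im * h`. -/
theorem im_le_nS (hna : IsNonarchimedean v) (hr : 0 < r) (u : CR f) :
    v 2 * gc v a r h * gc v a r u.im ≤ nS v a r h u := by
  have e : pp h u - pm h u = C 2 * h * u.im := by
    simp only [pp, pm, map_ofNat]
    ring
  have h1 := gc_sub_le (v := v) (a := a) hna hr (pp h u) (pm h u)
  rwa [e, gc_mul hna hr, gc_mul hna hr, gc_C] at h1

/-- The error term is smaller by the fixed factor `gc (f - h ^ 2) / (v 4 * gc h ^ 2) < 1`. -/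
theorem err_le (hna : IsNonarchimedean v) (hr : 0 < r)
    (hsp : gc v a r (f - h ^ 2) < v 4 * gc v a r h ^ 2) :
    ∃ l : ℝ, 0 ≤ l ∧ l < 1 ∧ ∀ u u' : CR f,
      gc v a r (u.im * u'.im * (f - h ^ 2)) ≤ l * (nS v a r h u * nS v a r h u') := by
  have h0 := gc_nonneg (v := v) (a := a) hr (f - h ^ 2)
  have hp : 0 < v 4 * gc v a r h ^ 2 := h0.trans_lt hsp
  have h4 : v 4 = v 2 * v 2 := by
    rw [← map_mul]
    norm_num
  refine ⟨gc v a r (f - h ^ 2) / (v 4 * gc v a r h ^ 2), div_nonneg h0 hp.le,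
    (div_lt_one hp).2 hsp, fun u u' => ?_⟩
  have h1 := im_le_nS (h := h) (a := a) hna hr u
  have h2 := im_le_nS (h := h) (a := a) hna hr u'
  have h3 : 0 ≤ v 2 * gc v a r h * gc v a r u'.im :=
    mul_nonneg (mul_nonneg (v.nonneg _) (gc_nonneg hr _)) (gc_nonneg hr _)
  have h5 := mul_le_mul h1 h2 h3 (nS_nonneg hr u)
  refine le_trans (le_of_eq ?_) (mul_le_mul_of_nonneg_left h5 (div_nonneg h0 hp.le))
  rw [gc_mul hna hr, gc_mul hna hr, div_mul_eq_mul_div, eq_div_iff hp.ne', h4]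
  ring

theorem nS_mul_le (hna : IsNonarchimedean v) (hr : 0 < r)
    (hsp : gc v a r (f - h ^ 2) < v 4 * gc v a r h ^ 2) (u u' : CR f) :
    nS v a r h (u * u') ≤ nS v a r h u * nS v a r h u' := by
  obtain ⟨l, -, h1, h2⟩ := err_le hna hr hsp
  have h3 : gc v a r (u.im * u'.im * (f - h ^ 2)) ≤ nS v a r h u * nS v a r h u' :=
    (h2 u u').trans (mul_le_of_le_one_left (mul_nonneg (nS_nonneg hr u) (nS_nonneg hr u')) h1.le)
  refine max_le ?_ ?_
  · rw [pp_mul]
    refine (gc_add_le hna hr _ _).trans (max_le ?_ h3)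
    rw [gc_mul hna hr]
    exact mul_le_mul (le_max_left _ _) (le_max_left _ _) (gc_nonneg hr _) (nS_nonneg hr u)
  · rw [pm_mul]
    refine (gc_add_le hna hr _ _).trans (max_le ?_ h3)
    rw [gc_mul hna hr]
    exact mul_le_mul (le_max_right _ _) (le_max_right _ _) (gc_nonneg hr _) (nS_nonneg hr u)

theorem nS_ev (hna : IsNonarchimedean v) (hr : 0 < r) (hh : h ≠ 0) {Q : Pt f}
    (hx : v (Q.x - a) ≤ r) (hy : v (Q.y - h.eval Q.x) ≤ v 2 * gc v a r h) (u : CR f) :
    v (ev Q u) ≤ nS v a r h u := by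
  have e : ev Q u = (pp h u).eval Q.x + u.im.eval Q.x * (Q.y - h.eval Q.x) := by
    rw [ev_def, pp, eval_add, eval_mul]
    ring
  rw [e]
  refine (hna _ _).trans (max_le ((v_eval_le_gc hna hr _ hx).trans (le_max_left _ _)) ?_)
  rw [map_mul]
  refine le_trans ?_ (im_le_nS hna hr u)
  rw [mul_comm]
  exact mul_le_mul hy (v_eval_le_gc hna hr _ hx) (v.nonneg _)
    (mul_nonneg (v.nonneg _) (gc_nonneg hr _))

end Pool.Agent.Lib.MP_830c64_nt
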