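import Pool.Agent.Lib.MP_830c64_nt.SplitA

namespace Pool.Agent.Lib.MP_830c64_nt

open Polynomial
open scoped Classical

variable {k : Type*} [Field k] [CharZero k] {f : k[X]} {v : AbsoluteValue k ℝ} {a : k} {r : ℝ}
  {h : k[X]}

/-- Products of elements dominant on the plus sheet. -/
theorem dom_mul (hna : IsNonarchimedean v) (hr : 0 < r)
    (hsp : gc v a r (f - h ^ 2) < v 4 * gc v a r h ^ 2) {u u' : CR f}
    (hu : gc v a r (pm h u) ≤ gc v a r (pp h u)) (hu0 : pp h u ≠ 0)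
    (hu' : gc v a r (pm h u') ≤ gc v a r (pp h u')) (hu0' : pp h u' ≠ 0) :
    gc v a r (pp h (u * u') - pp h u * pp h u') < gc v a r (pp h u * pp h u') ∧
      gc v a r (pp h (u * u')) = gc v a r (pp h u) * gc v a r (pp h u') ∧
      gc v a r (pm h (u * u')) ≤ gc v a r (pp h (u * u')) ∧ pp h (u * u') ≠ 0 := by
  obtain ⟨l, l0, l1, hl⟩ := err_le hna hr hsp
  have h0 := mul_pos (gc_pos (v := v) (a := a) hr hu0) (gc_pos (v := v) (a := a) hr hu0')
  have h1 := hl u u'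
  rw [nS, nS, max_eq_left hu, max_eq_left hu'] at h1
  have h2 := h1.trans_lt (mul_lt_of_lt_one_left h0 l1)
  have h3 : gc v a r (pp h (u * u')) = gc v a r (pp h u) * gc v a r (pp h u') := by
    rw [pp_mul, gc_add_eq hna hr (by rwa [gc_mul hna hr (pp h u)]), gc_mul hna hr]
  refine ⟨by rwa [pp_mul, add_sub_cancel_left, gc_mul hna hr (pp h u)], h3, ?_, fun e => ?_⟩
  · rw [h3, pm_mul]
    refine (gc_add_le hna hr _ _).trans (max_le ?_ h2.le)
    rw [gc_mul hna hr]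
    exact mul_le_mul hu hu' (gc_nonneg hr _) (gc_nonneg hr _)
  · rw [e, gc_zero] at h3
    exact h0.ne h3

theorem splita2_pos (hr : 0 < r) (hsp : gc v a r (f - h ^ 2) < v 4 * gc v a r h ^ 2) :
    0 < v 2 * gc v a r h := by
  refine mul_pos (v.pos two_ne_zero) ((gc_nonneg hr h).lt_of_ne' fun e => ?_)
  rw [e, zero_pow two_ne_zero, mul_zero] at hsp
  exact (gc_nonneg hr _).not_gt hsp

theorem dom_yy_pow (hna : IsNonarchimedean v) (hr : 0 < r)
    (hsp : gc v a r (f - h ^ 2) < v 4 * gc v a r h ^ 2) (j : ℕ) :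
    gc v a r (pp h (yy f h ^ j)) = (v 2 * gc v a r h) ^ j ∧
      gc v a r (pm h (yy f h ^ j)) ≤ gc v a r (pp h (yy f h ^ j)) ∧ pp h (yy f h ^ j) ≠ 0 := by
  have h0 := splita2_pos hr hsp
  obtain ⟨h1, h2⟩ := nS_yy (f := f) (a := a) (h := h) hna hr
  induction j with
  | zero =>
    simp only [pow_zero, pp, pm, QuadraticAlgebra.re_one, QuadraticAlgebra.im_one, zero_mul,
      add_zero, sub_zero]
    exact ⟨gc_one, le_rfl, one_ne_zero⟩
  | succ j ih =>
    obtain ⟨-, h3, h4⟩ := dom_mul hna hr hsp ih.2.1 ih.2.2 (u' := yy f h)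
      (by rw [h2, gc_zero]; exact gc_nonneg hr _) (fun e => by
        rw [e, gc_zero] at h1
        exact h0.ne h1)
    rw [pow_succ, pow_succ]
    exact ⟨by rw [h3, ih.1, h1], h4⟩

/-- `t j = nS (φ * (y + h) ^ j) / (v 2 * gc h) ^ j` satisfies `t j * nS (star φ) ≥ gc (nm φ) > 0`.
Since `pm (u * (y + h))` is only the error term, either `u * (y + h)` is dominant or
`t (j + 1) ≤ l * t j`; the second case cannot hold for every `j`. Dominance persists
(`dom_mul`). -/
theorem exists_dom (hna : IsNonarchimedean v) (hr : 0 < r)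
    (hsp : gc v a r (f - h ^ 2) < v 4 * gc v a r h ^ 2) {φ : CR f} (hφ : nm φ ≠ 0) :
    ∃ J₀ : ℕ, ∀ J, J₀ ≤ J → gc v a r (pm h (φ * yy f h ^ J)) ≤ gc v a r (pp h (φ * yy f h ^ J)) ∧
      pp h (φ * yy f h ^ J) ≠ 0 := by
  have h0 := splita2_pos hr hsp
  obtain ⟨h1, h2⟩ := nS_yy (f := f) (a := a) (h := h) hna hr
  suffices H : ∃ j : ℕ, gc v a r (pm h (φ * yy f h ^ j)) ≤ gc v a r (pp h (φ * yy f h ^ j)) ∧
      pp h (φ * yy f h ^ j) ≠ 0 by
    obtain ⟨j, h3, h4⟩ := H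
    refine ⟨j, fun J hJ => ?_⟩
    obtain ⟨i, rfl⟩ := Nat.exists_eq_add_of_le hJ
    rw [pow_add, ← mul_assoc]
    exact (dom_mul hna hr hsp h3 h4 (dom_yy_pow hna hr hsp i).2.1
      (dom_yy_pow hna hr hsp i).2.2).2.2
  by_contra H
  obtain ⟨l, l0, l1, hl⟩ := err_le hna hr hsp
  have h3 : nS v a r h (yy f h) = v 2 * gc v a r h := by
    rw [nS, h1, h2, gc_zero, max_eq_left h0.le]
  have h4 : ∀ j : ℕ, nS v a r h (φ * yy f h ^ j) ≤
      l ^ j * (v 2 * gc v a r h) ^ j * nS v a r h φ := by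
    intro j
    induction j with
    | zero => simp only [pow_zero, mul_one, one_mul, le_refl]
    | succ j ih =>
      have e : gc v a r (pp h (φ * yy f h ^ (j + 1))) ≤ gc v a r (pm h (φ * yy f h ^ (j + 1))) := by
        by_contra e
        refine H ⟨j + 1, (not_le.1 e).le, fun e' => e ?_⟩
        rw [e', gc_zero]
        exact gc_nonneg hr _
      rw [nS, max_eq_right e, pow_succ, ← mul_assoc, pm_mul, h2, mul_zero, zero_add]
      refine (hl _ _).trans ?_
      rw [h3]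
      exact (mul_le_mul_of_nonneg_left (mul_le_mul_of_nonneg_right ih h0.le) l0).trans_eq
        (by ring)
  have k0 : 0 ≤ nS v a r h φ * nS v a r h (star φ) := mul_nonneg (nS_nonneg hr _) (nS_nonneg hr _)
  have g0 := gc_pos (v := v) (a := a) hr hφ
  obtain ⟨j, hj⟩ := exists_pow_lt_of_lt_one (div_pos g0 (add_pos_of_nonneg_of_pos k0 one_pos)) l1
  rw [lt_div_iff₀ (add_pos_of_nonneg_of_pos k0 one_pos)] at hj
  have h5 := nS_mul_le hna hr hsp (φ * yy f h ^ j) (star φ)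
  rw [mul_right_comm, mul_star_eq, nS_pol_mul hna hr, nS,
    max_eq_left (dom_yy_pow hna hr hsp j).2.1, (dom_yy_pow hna hr hsp j).1] at h5
  have h6 := h5.trans (mul_le_mul_of_nonneg_right (h4 j) (nS_nonneg hr _))
  have h7 : gc v a r (nm φ) ≤ l ^ j * (nS v a r h φ * nS v a r h (star φ)) :=
    le_of_mul_le_mul_right (h6.trans_eq (by ring)) (pow_pos h0 j)
  have h8 := pow_nonneg l0 j
  linarith

end Pool.Agent.Lib.MP_830c64_nt
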