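import Pool.Agent.Lib.MP_830c64_nt.SplitA2
import Pool.Agent.Lib.MP_830c64_nt.CvLead

namespace Pool.Agent.Lib.MP_830c64_nt

open Polynomial
open scoped Classical

variable {k : Type*} [Field k] [CharZero k] {f : k[X]} {g : ℕ} {v : AbsoluteValue k ℝ} {a : k} {r : ℝ}
  {h : k[X]}

/-- Dominant elements whose norm is attained at the centre are stable under products. -/
theorem splitb_mul (hna : IsNonarchimedean v) (hr : 0 < r)
    (hsp : gc v a r (f - h ^ 2) < v 4 * gc v a r h ^ 2) {u u' : CR f}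
    (hu : gc v a r (pm h u) ≤ gc v a r (pp h u) ∧ pp h u ≠ 0 ∧
      v ((pp h u).eval a) = gc v a r (pp h u))
    (hu' : gc v a r (pm h u') ≤ gc v a r (pp h u') ∧ pp h u' ≠ 0 ∧
      v ((pp h u').eval a) = gc v a r (pp h u')) :
    gc v a r (pm h (u * u')) ≤ gc v a r (pp h (u * u')) ∧ pp h (u * u') ≠ 0 ∧
      v ((pp h (u * u')).eval a) = gc v a r (pp h (u * u')) := by
  obtain ⟨h1, h2, h3, h4⟩ := dom_mul hna hr hsp hu.1 hu.2.1 hu'.1 hu'.2.1
  refine ⟨h3, h4, ?_⟩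
  have h5 : v (a - a) ≤ r := by rw [sub_self, map_zero]; exact hr.le
  have h6 := (v_eval_le_gc hna hr _ h5).trans_lt h1
  have h7 : v ((pp h u * pp h u').eval a) = gc v a r (pp h u * pp h u') := by
    rw [eval_mul, map_mul, hu.2.2, hu'.2.2, gc_mul hna hr]
  rw [h2, ← gc_mul hna hr, ← h7]
  rw [← h7] at h6
  have h8 : (pp h (u * u')).eval a = (pp h (u * u') - pp h u * pp h u').eval a +
      (pp h u * pp h u').eval a := by rw [eval_sub, sub_add_cancel]
  rw [h8, IsNonarchimedean.add_eq_right_of_lt hna h6]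

theorem splitb_pow (hna : IsNonarchimedean v) (hr : 0 < r)
    (hsp : gc v a r (f - h ^ 2) < v 4 * gc v a r h ^ 2) {u : CR f}
    (hu : gc v a r (pm h u) ≤ gc v a r (pp h u) ∧ pp h u ≠ 0 ∧
      v ((pp h u).eval a) = gc v a r (pp h u)) (j : ℕ) :
    gc v a r (pm h (u ^ j)) ≤ gc v a r (pp h (u ^ j)) ∧ pp h (u ^ j) ≠ 0 ∧
      v ((pp h (u ^ j)).eval a) = gc v a r (pp h (u ^ j)) := by
  induction j with
  | zero =>
    have e1 : pp h (1 : CR f) = 1 := by
      simp [pp, QuadraticAlgebra.re_one, QuadraticAlgebra.im_one]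
    have e2 : pm h (1 : CR f) = 1 := by
      simp [pm, QuadraticAlgebra.re_one, QuadraticAlgebra.im_one]
    rw [pow_zero, e1, e2, gc_one, eval_one, map_one]
    exact ⟨le_rfl, one_ne_zero, rfl⟩
  | succ j ih => rw [pow_succ]; exact splitb_mul hna hr hsp ih hu

/-- Let `u = φ (y + h) ^ J`, `u' = star φ * (y + h) ^ J` be dominant (`exists_dom`). The product
formula is `dom_mul` and `mul_star_eq`. For the inequality suppose `nS u' < nS u` and `A = φ.re ≠ 0`
(if `A = 0` then `star φ = - φ`). With `N = ord P φ` and `ψ` from `isLead_spec`: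
`(X - a) ^ N * pp (ψ (y+h)^J) = 2 A * G - pp (u' (y+b)^N)` where `G = pp ((y+h)^J (y+b)^N)` attains
its norm at the centre (`v (G.eval a) = gc G`, stable under `dom_mul`). The last term is smaller
than the left side, so `2 A * G` has the norm of the left side, attained at an index
`≤ natDegree A < N` (`minIdx_mul`, `minIdx_zero`, `minIdx_le`), where the left side has
coefficient `0`: contradiction. -/
theorem split_J (hc : Crv f g) (hna : IsNonarchimedean v) (hr : 0 < r) {P : Pt f} (hP : P.y ≠ 0)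
    (hsp : gc v P.x r (f - h ^ 2) < v 4 * gc v P.x r h ^ 2)
    (hPh : v (h.eval P.x) = gc v P.x r h) (hPy : v (P.y - h.eval P.x) < v 2 * gc v P.x r h)
    (hb : nS v P.x r h (yy f (C P.y)) ≤ v 2 * gc v P.x r h)
    {φ : CR f} (hφ : φ ≠ 0) (hN : φ.re.natDegree < ord P φ) :
    ∃ J : ℕ, nS v P.x r h (φ * yy f h ^ J) * nS v P.x r h (star φ * yy f h ^ J) =
        gc v P.x r (nm φ) * (v 2 * gc v P.x r h) ^ (2 * J) ∧
      nS v P.x r h (φ * yy f h ^ J) ≤ nS v P.x r h (star φ * yy f h ^ J) := by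
  have hh : 0 < gc v P.x r h := by
    refine (gc_nonneg hr h).lt_of_ne fun h0 => ?_
    rw [← h0, zero_pow two_ne_zero, mul_zero] at hsp
    exact (gc_nonneg hr _).not_gt hsp
  have h2 : 0 < v 2 := v.pos two_ne_zero
  have hc0 := mul_pos h2 hh
  have h0 : v (P.x - P.x) ≤ r := by rw [sub_self, map_zero]; exact hr.le
  have hY : gc v P.x r (pm h (yy f h)) ≤ gc v P.x r (pp h (yy f h)) ∧ pp h (yy f h) ≠ 0 ∧
      v ((pp h (yy f h)).eval P.x) = gc v P.x r (pp h (yy f h)) := by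
    obtain ⟨e1, e2, e3⟩ := dom_yy_pow hna hr hsp 1
    rw [pow_one] at e1 e2 e3
    refine ⟨e2, e3, ?_⟩
    rw [e1, pow_one, ← hPh, ← map_mul]
    congr 1
    simp only [pp, yy, eval_add, one_mul]
    ring
  have hB : gc v P.x r (pm h (yy f (C P.y))) ≤ gc v P.x r (pp h (yy f (C P.y))) ∧
      pp h (yy f (C P.y)) ≠ 0 ∧
      v ((pp h (yy f (C P.y))).eval P.x) = gc v P.x r (pp h (yy f (C P.y))) := by
    have e1 : v ((pp h (yy f (C P.y))).eval P.x) = v 2 * gc v P.x r h := by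
      have e2 : (pp h (yy f (C P.y))).eval P.x = (P.y - h.eval P.x) + 2 * h.eval P.x := by
        simp only [pp, yy, eval_add, one_mul, eval_C]
        ring
      rw [e2, IsNonarchimedean.add_eq_right_of_lt hna (by rwa [map_mul, hPh]), map_mul, hPh]
    have e2 := v_eval_le_gc hna hr (pp h (yy f (C P.y))) h0
    rw [e1] at e2
    refine ⟨((le_max_right _ _).trans hb).trans e2, fun e3 => ?_,
      e1.trans (le_antisymm e2 ((le_max_left _ _).trans hb))⟩
    rw [e3, gc_zero] at e2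
    exact e2.not_gt hc0
  have hn := nm_ne_zero hc hφ
  obtain ⟨J1, d1⟩ := exists_dom hna hr hsp hn
  obtain ⟨J2, d2⟩ := exists_dom hna hr hsp (φ := star φ) (by rwa [nm_star])
  obtain ⟨J, hJ1, hJ2⟩ : ∃ J, J1 ≤ J ∧ J2 ≤ J := ⟨_, le_max_left _ _, le_max_right _ _⟩
  obtain ⟨u1, u2⟩ := d1 J hJ1
  obtain ⟨u3, u4⟩ := d2 J hJ2
  refine ⟨J, ?_⟩
  rw [nS, nS, max_eq_left u1, max_eq_left u3]
  refine ⟨?_, ?_⟩
  · rw [← (dom_mul hna hr hsp u1 u2 u3 u4).2.1, mul_mul_mul_comm, mul_star_eq, ← pow_add,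
      ← two_mul, pp_pol_mul, gc_mul hna hr, (dom_yy_pow hna hr hsp _).1]
  by_contra hlt
  rw [not_le] at hlt
  obtain ⟨-, ψ, hψ, -⟩ := isLead_spec hc hP hφ
  obtain ⟨N, hNd⟩ : ∃ N, N = ord P φ := ⟨_, rfl⟩
  rw [← hNd] at hψ hN
  have hBN := splitb_pow hna hr hsp hB N
  obtain ⟨-, g2, g3⟩ := splitb_mul hna hr hsp (splitb_pow hna hr hsp hY J) hBN
  have l1 := (dom_mul hna hr hsp u1 u2 hBN.1 hBN.2.1).2.1
  have l2 := (dom_mul hna hr hsp u3 u4 hBN.1 hBN.2.1).2.1
  have l3 : gc v P.x r (pp h (star φ * yy f h ^ J * yy f (C P.y) ^ N)) <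
      gc v P.x r (pp h (φ * yy f h ^ J * yy f (C P.y) ^ N)) := by
    rw [l1, l2]
    exact mul_lt_mul_of_pos_right hlt (gc_pos hr hBN.2.1)
  have l4 : pp h (φ * yy f h ^ J * yy f (C P.y) ^ N) +
      pp h (star φ * yy f h ^ J * yy f (C P.y) ^ N) =
      2 * φ.re * pp h (yy f h ^ J * yy f (C P.y) ^ N) := by
    rw [← pp_add, ← add_mul, ← add_mul, add_star_eq, mul_assoc, pp_pol_mul]
  have l5 : pp h (φ * yy f h ^ J * yy f (C P.y) ^ N) =
      (X - C P.x) ^ N * pp h (ψ * yy f h ^ J) := by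
    rw [← pp_pol_mul, ← mul_assoc, hψ, mul_right_comm]
  have l6 := gc_add_eq hna hr l3
  have l7 : 2 * φ.re ≠ 0 := fun e => by
    rw [l4, e, zero_mul, gc_zero] at l6
    exact ((gc_nonneg hr _).trans_lt l3).ne l6
  obtain ⟨i, hi⟩ := minIdx_exists (v := v) (a := P.x) hr (2 * φ.re)
  have l8 : i < N := (minIdx_le hr l7 hi).trans_lt (lt_of_le_of_lt (by
    have := natDegree_C_mul_le (2 : k) φ.re
    rwa [map_ofNat] at this) hN)
  have l9 := (minIdx_mul hna hr l7 g2 hi (minIdx_zero g3)).1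
  rw [← l4, l6, add_zero, map_add, coeff_add] at l9
  have l10 : (taylor P.x (pp h (φ * yy f h ^ J * yy f (C P.y) ^ N))).coeff i = 0 := by
    rw [l5, taylor_mul, taylor_pow, map_sub, taylor_X, taylor_C, add_sub_cancel_right,
      coeff_X_pow_mul', if_neg l8.not_ge]
  rw [l10, zero_add] at l9
  exact l3.not_ge (l9.le.trans (coeff_le_gc hr _ i))

end Pool.Agent.Lib.MP_830c64_nt
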