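import Pool.Agent.Lib.MP_830c64_nt.SplitB
import Pool.Agent.Lib.MP_830c64_nt.Ground

namespace Pool.Agent.Lib.MP_830c64_nt

open Polynomial
open scoped Classical

variable {k : Type*} [Field k] [CharZero k] [IsAlgClosed k] {f : k[X]} {g : ℕ}
  {v : AbsoluteValue k ℝ} {r : ℝ} {h : k[X]}

theorem splitc_neg (hna : IsNonarchimedean v) (hr : 0 < r) {a : k} (u : CR f) :
    nS v a r h (-u) = nS v a r h u := by
  have e : -u = pol f (-1) * u := by rw [map_neg, map_one, neg_one_mul]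
  rw [e, nS_pol_mul hna hr, gc_neg, gc_one, one_mul]

theorem splitc_rem (hna : IsNonarchimedean v) (hr : 0 < r) {a : k}
    (hsp : gc v a r (f - h ^ 2) < v 4 * gc v a r h ^ 2) {x₀ y₀ : k} {ψ ψ' : CR f} (W : CR f)
    {K : ℝ} (e : pol f (X - C x₀) * ψ' = ψ * yy f (C y₀))
    (hK : max (gc v a r h) (v y₀) ≤ K * max r (v (x₀ - a))) :
    nS v a r h (ψ' * W) ≤ K * nS v a r h (ψ * W) := by
  have e2 : pol f (X - C x₀) * (ψ' * W) = ψ * W * yy f (C y₀) := by
    linear_combination W * e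
  have h1 := nS_pol_mul (h := h) (a := a) hna hr (X - C x₀) (ψ' * W)
  rw [e2, gc_lin hr] at h1
  have h2 := (nS_mul_le hna hr hsp (ψ * W) (yy f (C y₀))).trans
    (mul_le_mul_of_nonneg_left ((nS_yy_C hna hr y₀).trans hK) (nS_nonneg hr _))
  have h3 : 0 < max r (v (x₀ - a)) := lt_max_of_lt_left hr
  refine le_of_mul_le_mul_left ?_ h3
  rw [← h1]
  exact h2.trans (le_of_eq (by ring))

theorem splitc_ev (hna : IsNonarchimedean v) (hr : 0 < r) {a : k} {Q : Pt f}
    (hx : v (Q.x - a) ≤ r) (hh : v (h.eval Q.x) = gc v a r h)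
    (hy : v (Q.y - h.eval Q.x) < v 2 * gc v a r h) (J : ℕ) (ψ : CR f) :
    v (ev Q ψ) ≤ nS v a r h (ψ * yy f h ^ J) / (v 2 * gc v a r h) ^ J := by
  have hη : 0 < v 2 * gc v a r h := (v.nonneg _).trans_lt hy
  have h0 : h ≠ 0 := by
    rintro rfl
    rw [gc_zero, mul_zero] at hη
    exact lt_irrefl _ hη
  have e1 : v (2 * h.eval Q.x) = v 2 * gc v a r h := by rw [map_mul, hh]
  have e2 : v (h.eval Q.x + Q.y) = v 2 * gc v a r h := by
    refine le_antisymm ?_ (not_lt.1 fun hlt => ?_)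
    · rw [show h.eval Q.x + Q.y = 2 * h.eval Q.x + (Q.y - h.eval Q.x) by ring]
      exact (hna _ _).trans (max_le e1.le hy.le)
    · have h1 := hna (h.eval Q.x + Q.y) (-(Q.y - h.eval Q.x))
      rw [v.map_neg, show h.eval Q.x + Q.y + -(Q.y - h.eval Q.x) = 2 * h.eval Q.x by ring,
        e1] at h1
      exact absurd h1 (not_le.2 (max_lt hlt hy))
  have h2 := nS_ev hna hr h0 hx hy.le (ψ * yy f h ^ J)
  rw [map_mul, map_pow, ev_yy, map_mul, map_pow, e2] at h2
  exact (le_div_iff₀ (pow_pos hη J)).2 h2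

theorem splitc_sum (hr : 0 < r) {a : k} {Q : Pt f} {c : ℝ} (hc : 1 ≤ c) (F : Multiset (Pt f))
    (hF : F.card ≤ g) (hd : ∀ R : Pt f, max r (v (R.x - a)) ≤ c * Hh v Q R) :
    (F.map fun R => Real.log (max r (v (R.x - a)))).sum ≤
      (F.map fun R => Real.log (Hh v Q R)).sum + g * Real.log c := by
  have h1 : (F.map fun R => Real.log (max r (v (R.x - a)))).sum ≤
      (F.map fun R => Real.log (Hh v Q R) + Real.log c).sum := by
    refine Multiset.sum_map_le_sum_map _ _ fun R _ => ?_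
    have h2 : 0 < Hh v Q R := lt_max_of_lt_left one_pos
    rw [← Real.log_mul h2.ne' (by linarith), mul_comm]
    exact Real.log_le_log (lt_max_of_lt_left hr) (hd R)
  rw [Multiset.sum_map_add, Multiset.map_const', Multiset.sum_replicate, nsmul_eq_mul] at h1
  have h3 : (F.card : ℝ) ≤ g := by exact_mod_cast hF
  linarith [mul_le_mul_of_nonneg_right h3 (Real.log_nonneg hc)]

/-- Two points on the same sheet. For `N > g` take `φ` from `rr_add` for `replicate N P` and `J`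
from `split_J` (`2 * natDegree re ≤ wt φ ≤ N + g`). Apply `sig_up_rep` at `Q` with
`ν ψ = nS (ψ * (y + h) ^ J) / η ^ J`, `η = v 2 * gc h`, and at `P.inv` with
`ν' ψ = ν (star ψ)` (`ev_inv_star`, `star_yy`, `sig_inv_left`); `v (h Q.x + Q.y) = η`. With
`s = log (ν φ) ≤ s' = log (ν' φ)` and `s + s' = log (gc (nm φ))`:
`2 s + 2 s' / (2 g) ≤ (1 + 1 / (2 g)) (s + s')`. Finish with `gc_nm`, `disc_cmp`,
`le_of_forall_nat`. -/
theorem split (hc : Crv f g) (hna : IsNonarchimedean v) (hr : 0 < r) {P Q : Pt f} (hP : P.y ≠ 0)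
    (hQ : Q.y ≠ 0) (hne : Q.x ≠ P.x) (hQx : v (Q.x - P.x) ≤ r)
    (hsp : gc v P.x r (f - h ^ 2) < v 4 * gc v P.x r h ^ 2)
    (hPh : v (h.eval P.x) = gc v P.x r h) (hPy : v (P.y - h.eval P.x) < v 2 * gc v P.x r h)
    (hQh : v (h.eval Q.x) = gc v P.x r h) (hQy : v (Q.y - h.eval Q.x) < v 2 * gc v P.x r h)
    (hb : nS v P.x r h (yy f (C P.y)) ≤ v 2 * gc v P.x r h) :
    -sig v Q P + Real.log (v (Q.x - P.x)) + sig v P P / (2 * g) ≤
      (1 + 1 / (2 * g)) * Real.log r := by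
  have hη : 0 < v 2 * gc v P.x r h := (v.nonneg _).trans_lt hPy
  have hPx : v (P.x - P.x) ≤ r := by
    rw [sub_self, map_zero]
    exact hr.le
  have hQP : Q ≠ P := fun e => hne (by rw [e])
  have hPi : P.inv.y ≠ 0 := neg_ne_zero.2 hP
  obtain ⟨c₀, -, hup⟩ := sig_up_rep hc v
  obtain ⟨c₁, hc₁, hd₁⟩ := disc_cmp hc hr v P.x Q (gc v P.x r h)
  obtain ⟨c₂, hc₂, hd₂⟩ := disc_cmp hc hr v P.x P.inv (gc v P.x r h)
  have hg : (1 : ℝ) ≤ g := by exact_mod_cast hc.pos
  obtain ⟨γ, hγ⟩ : ∃ γ : ℝ, γ = 1 / (2 * g) := ⟨_, rfl⟩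
  have hγ0 : 0 < γ := by
    rw [hγ]
    positivity
  have hγ1 : γ ≤ 1 := by
    rw [hγ, div_le_one (by positivity)]
    linarith
  rw [div_eq_mul_one_div (sig v P P), ← hγ]
  refine le_of_forall_nat (c := g * (c₀ + 3 * Real.log c₁) + γ * (g * (c₀ + 3 * Real.log c₂)))
    (g + 1) fun N hN => ?_
  obtain ⟨φ, F, hφ, hdv, hF⟩ := rr_add hc (Multiset.replicate N P) fun R hR => by
    rw [Multiset.eq_of_mem_replicate hR]
    exact hP
  have hord : φ.re.natDegree < ord P φ := by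
    have h1 := wt_re hc φ
    have h2 := card_dv hc hφ
    have h3 := count_dv hc hφ P
    rw [hdv, Multiset.card_add, Multiset.card_replicate] at h2
    rw [hdv, Multiset.count_add, Multiset.count_replicate_self] at h3
    omega
  obtain ⟨J, hJ1, hJ2⟩ := split_J hc hna hr hP hsp hPh hPy hb hφ hord
  have hηJ : 0 < (v 2 * gc v P.x r h) ^ J := pow_pos hη J
  obtain ⟨p₁, u₁⟩ := hup P Q φ N F
    (fun ψ => nS v P.x r h (ψ * yy f h ^ J) / (v 2 * gc v P.x r h) ^ J) c₁ hQ hQP hφ hdv hF hc₁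
    (fun ψ => div_nonneg (nS_nonneg hr _) hηJ.le) (splitc_ev hna hr hQx hQh hQy J)
    fun R _ ψ ψ' e => by
      rw [← mul_div_assoc]
      exact div_le_div_of_nonneg_right (splitc_rem hna hr hsp _ e (hd₁ R).2) hηJ.le
  obtain ⟨p₂, u₂⟩ := hup P P.inv φ N F
    (fun ψ => nS v P.x r h (star ψ * yy f h ^ J) / (v 2 * gc v P.x r h) ^ J) c₂ hPi (inv_ne hP)
    hφ hdv hF hc₂ (fun ψ => div_nonneg (nS_nonneg hr _) hηJ.le)
    (fun ψ => by
      have e := ev_inv_star P (star ψ)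
      rw [star_star] at e
      rw [e]
      exact splitc_ev hna hr hPx hPh hPy J _)
    fun R _ ψ ψ' e => by
      rw [← mul_div_assoc]
      refine div_le_div_of_nonneg_right ?_ hηJ.le
      have e2 : pol f (X - C R.x) * star ψ' = -star ψ * yy f (C (-R.y)) := by
        have e3 := congrArg star e
        rw [star_mul, star_mul, star_pol, star_yy, ← C_neg] at e3
        linear_combination e3
      have e4 := splitc_rem hna hr hsp (yy f h ^ J) e2 (K := c₂ * ww v P.inv R) (by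
        rw [v.map_neg]
        exact (hd₂ R).2)
      rwa [neg_mul, splitc_neg hna hr] at e4
  have e1 : P.inv.x - P.x = 0 := sub_self P.x
  rw [nz_of_ne (sub_ne_zero.2 hne)] at u₁
  rw [e1, nz_zero, map_one, Real.log_one, add_zero, sig_inv_left hc, neg_neg] at u₂
  have hs := Real.log_le_log p₁ (div_le_div_of_nonneg_right hJ2 hηJ.le)
  have hsum := Real.log_mul p₁.ne' p₂.ne'
  rw [div_mul_div_comm, hJ1, ← pow_add, ← two_mul, mul_div_assoc, div_self (pow_pos hη _).ne',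
    mul_one, gc_nm hc hna hr hφ hPx hdv] at hsum
  have m₁ := splitc_sum hr hc₁ F hF fun R => (hd₁ R).1
  have m₂ := splitc_sum hr hc₂ F hF fun R => (hd₂ R).1
  have k₁ := mul_le_mul_of_nonneg_left u₂ hγ0.le
  have k₂ := mul_le_mul_of_nonneg_left m₂ hγ0.le
  have k₃ := mul_le_mul_of_nonneg_left hs (sub_nonneg.2 hγ1)
  have k₄ := congrArg (fun t => γ * t) hsum
  linarith [u₁, k₁, k₂, k₃, k₄, m₁, hsum]

end Pool.Agent.Lib.MP_830c64_nt
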