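import Pool.Agent.Lib.MP_830c64_nt.Final

/-! The bound of `Narrow` for the definitions used in the final statement. -/

namespace Pool.Agent.Lib.MP_830c64_nt

open NumberField

theorem narrowClass_le (K : Type) [Field K] [NumberField K] :
    Finite (NarrowClass (𝓞 K) K) ∧
      twoTors (NarrowClass (𝓞 K) K) ≤ 2 ^ Module.finrank ℚ K * h2 K :=
  narrow_le K

end Pool.Agent.Lib.MP_830c64_nt
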