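import Pool.Agent.Lib.MP_830c64_nt.KeyK
import Pool.Agent.Lib.MP_830c64_nt.CvRR2

namespace Pool.Agent.Lib.MP_830c64_nt

open Polynomial
open scoped Classical

variable {k : Type*} [Field k] [CharZero k] [IsAlgClosed k] {f : k[X]} {g : ℕ}
  {v : AbsoluteValue k ℝ} {κ : ℝ}

theorem tate_sum {α : Type*} (t : α → ℝ) {B : ℝ} (hB : ∀ R, |t R| ≤ B) (F : Multiset α) :
    |(F.map t).sum| ≤ F.card * B := by
  induction F using Multiset.induction_on with
  | empty => simp
  | cons a F ih =>
    rw [Multiset.map_cons, Multiset.sum_cons, Multiset.card_cons]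
    push_cast
    have h1 := abs_add_le (t a) (F.map t).sum
    have h2 := hB a
    linarith

/-- A bounded function whose sum over every principal divisor vanishes is zero
(`rr_add` for `Multiset.replicate N R`; `dv_lin` at W-points). -/
theorem eq_zero_of_bdd (h : Crv f g) (t : Pt f → ℝ) {B : ℝ} (hB : ∀ R, |t R| ≤ B)
    (ht : ∀ φ : CR f, φ ≠ 0 → ((dv φ).map t).sum = 0) : t = 0 := by
  funext R
  show t R = 0
  by_cases hy : R.y = 0
  · have e := ht _ (pol_ne_zero (f := f) (X_sub_C_ne_zero R.x))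
    rw [dv_lin h R, inv_eq_of_y R hy] at e
    simp only [Multiset.map_cons, Multiset.sum_cons, Multiset.map_zero, Multiset.sum_zero] at e
    linarith
  · have hB0 : 0 ≤ B := (abs_nonneg _).trans (hB R)
    have key : ∀ N : ℕ, (N : ℝ) * |t R| ≤ g * B := by
      intro N
      obtain ⟨φ, F, h0, h1, h2⟩ := rr_add h (Multiset.replicate N R) fun P hP => by
        rw [Multiset.eq_of_mem_replicate hP]
        exact hy
      have e := ht φ h0
      rw [h1, Multiset.map_add, Multiset.sum_add, Multiset.map_replicate, Multiset.sum_replicate,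
        nsmul_eq_mul] at e
      have e' : (N : ℝ) * t R = -(F.map t).sum := by linarith
      have h3 := tate_sum t hB F
      have h4 : (F.card : ℝ) * B ≤ g * B :=
        mul_le_mul_of_nonneg_right (by exact_mod_cast h2) hB0
      calc (N : ℝ) * |t R| = |(N : ℝ) * t R| := by rw [abs_mul, Nat.abs_cast]
        _ = |(F.map t).sum| := by rw [e', abs_neg]
        _ ≤ g * B := h3.trans h4
    by_contra hne
    have hp : 0 < |t R| := abs_pos.2 hne
    obtain ⟨N, hN⟩ := exists_nat_gt (g * B / |t R|)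
    rw [div_lt_iff₀ hp] at hN
    exact absurd (key N) (not_le.2 hN)

theorem isSym_unique (h : Crv f g) {P : Pt f} {σ σ' : Pt f → ℝ} (h1 : IsSym v P σ)
    (h2 : IsSym v P σ') : σ = σ' := by
  obtain ⟨a1, B, b1⟩ := h1
  obtain ⟨a2, B', b2⟩ := h2
  have e := eq_zero_of_bdd h (fun R => σ R - σ' R) (B := B + B') (fun R => by
    have e1 := abs_le.1 (b1 R)
    have e2 := abs_le.1 (b2 R)
    exact abs_le.2 ⟨by linarith [e1.1, e2.2], by linarith [e1.2, e2.1]⟩) fun φ hφ => by
      rw [Multiset.sum_map_sub, a1 φ hφ, a2 φ hφ, sub_self]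
  funext R
  exact sub_eq_zero.1 (congrFun e R)

end Pool.Agent.Lib.MP_830c64_nt
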