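import Pool.Agent.Lib.MP_830c64_nt.Tate

namespace Pool.Agent.Lib.MP_830c64_nt

open Polynomial
open scoped Classical

variable {k : Type*} [Field k] [CharZero k] [IsAlgClosed k] {f : k[X]} {g : ℕ}
  {v : AbsoluteValue k ℝ} {κ : ℝ}

/-- The defect of reciprocity for the naive symbol. -/
noncomputable def tate2_d (v : AbsoluteValue k ℝ) (P : Pt f) (φ : CR f) : ℝ :=
  ((dv φ).map (sn v P)).sum - (Real.log (v (lead P.inv φ)) - Real.log (v (lead P φ)))

theorem tate2_inv_y {P : Pt f} (hy : P.y ≠ 0) : P.inv.y ≠ 0 := neg_ne_zero.2 hy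

theorem tate2_d_mul (h : Crv f g) {P : Pt f} (hy : P.y ≠ 0) {φ ψ : CR f} (hφ : φ ≠ 0)
    (hψ : ψ ≠ 0) : tate2_d v P (φ * ψ) = tate2_d v P φ + tate2_d v P ψ := by
  have hv : ∀ (Q : Pt f) (χ : CR f), v (lead Q χ) ≠ 0 := fun Q χ =>
    (v.pos (lead_ne_zero Q χ)).ne'
  unfold tate2_d
  rw [dv_mul h hφ hψ, lead_mul h hy hφ hψ, lead_mul h (tate2_inv_y hy) hφ hψ, Multiset.map_add,
    Multiset.sum_add, map_mul, map_mul, Real.log_mul (hv _ _) (hv _ _),
    Real.log_mul (hv _ _) (hv _ _)]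
  ring

theorem tate2_star_ne {φ : CR f} (hφ : φ ≠ 0) : star φ ≠ 0 := by
  intro e
  apply hφ
  have := congrArg star e
  rwa [star_star, star_zero] at this

theorem tate2_d_star (h : Crv f g) {P : Pt f} (hy : P.y ≠ 0) {φ : CR f} (hφ : φ ≠ 0) :
    tate2_d v P (star φ) = -tate2_d v P φ := by
  have e1 : lead P (star φ) = lead P.inv φ := by
    have := lead_star h (tate2_inv_y hy) hφ
    rwa [inv_inv] at this
  have e2 : ((dv φ).map Pt.inv).map (sn v P) = (dv φ).map fun R => -sn v P R := by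
    rw [Multiset.map_map]
    exact Multiset.map_congr rfl fun R _ => sn_inv_right hy R
  unfold tate2_d
  rw [dv_star h hφ, e1, lead_star h hy hφ, e2, Multiset.sum_map_neg]
  ring

theorem tate2_d_pol (h : Crv f g) {P : Pt f} (hy : P.y ≠ 0) {u : k[X]} (hu : u ≠ 0) :
    tate2_d v P (pol f u) = 0 := by
  have := tate2_d_star (v := v) h hy (pol_ne_zero (f := f) hu)
  rw [star_pol] at this
  linarith

theorem tate2_d_pow (h : Crv f g) {P : Pt f} (hy : P.y ≠ 0) {φ : CR f} (hφ : φ ≠ 0) (j : ℕ) :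
    tate2_d v P (φ ^ j) = j * tate2_d v P φ := by
  induction j with
  | zero =>
    have := tate2_d_pol (v := v) h hy (one_ne_zero (α := k[X]))
    rw [map_one] at this
    simp [this]
  | succ j ih =>
    rw [pow_succ, tate2_d_mul h hy (cr_pow_ne_zero h hφ j) hφ, ih]
    push_cast
    ring

/-- Removing a symmetric divisor does not change the defect. -/
theorem tate2_red (h : Crv f g) {P : Pt f} (hy : P.y ≠ 0) {φ : CR f} (hφ : φ ≠ 0)
    {D E : Multiset (Pt f)} (hD : dv φ = D + D.map Pt.inv + E) :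
    ∃ χ : CR f, χ ≠ 0 ∧ dv χ = E ∧ tate2_d v P χ = tate2_d v P φ := by
  obtain ⟨χ, hχ, e, hE⟩ := exists_dv_of_add h hφ hD
  refine ⟨χ, hχ, hE, ?_⟩
  have hu : aD D ≠ 0 := (aD_monic D).ne_zero
  rw [← e, tate2_d_mul h hy (pol_ne_zero hu) hχ, tate2_d_pol h hy hu, zero_add]

theorem tate2_cmp (h : Crv f g) {P : Pt f} (hy : P.y ≠ 0) {K : ℝ} {M : ℕ}
    (hK : ∀ φ : CR f, φ ≠ 0 → wt φ ≤ M → |tate2_d v P φ| ≤ K) {φ ψ : CR f} (hφ : φ ≠ 0)
    (hψ : ψ ≠ 0) {D F G : Multiset (Pt f)} (e1 : dv φ = D + F) (e2 : dv ψ = D + G)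
    (hc : F.card + G.card ≤ M) : |tate2_d v P φ - tate2_d v P ψ| ≤ K := by
  have hs := tate2_star_ne hψ
  have e : dv (φ * star ψ) = D + D.map Pt.inv + (F + G.map Pt.inv) := by
    rw [dv_mul h hφ hs, dv_star h hψ, e1, e2, Multiset.map_add]
    abel
  obtain ⟨χ, hχ, hE, hd⟩ := tate2_red (v := v) h hy (cr_mul_ne_zero h hφ hs) e
  rw [tate2_d_mul h hy hφ hs, tate2_d_star h hy hψ, ← sub_eq_add_neg] at hd
  rw [← hd]
  apply hK χ hχ
  rw [← card_dv h hχ, hE, Multiset.card_add, Multiset.card_map]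
  exact hc

theorem tate2_eq {α β c : ℝ} (hc : ∀ N : ℕ, |N * α - N * β| ≤ c) : α = β := by
  apply le_antisymm
  · exact le_of_forall_nat (c := c) 0 fun N _ => by have := (abs_le.1 (hc N)).2; linarith
  · exact le_of_forall_nat (c := c) 0 fun N _ => by have := (abs_le.1 (hc N)).1; linarith

theorem tate2_sum (τ : Multiset (Pt f) →+ ℝ) (D : Multiset (Pt f)) :
    (D.map fun R => τ {R}).sum = τ D := by
  induction D using Multiset.induction_on with
  | empty => simp
  | cons a D ih =>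
    rw [Multiset.map_cons, Multiset.sum_cons, ih, ← map_add, Multiset.singleton_add]

/-- The homogenised defect. -/
theorem tate2_tau (h : Crv f g) {P : Pt f} (hy : P.y ≠ 0) {K : ℝ}
    (hK : ∀ φ : CR f, φ ≠ 0 → wt φ ≤ 3 * g + 1 → |tate2_d v P φ| ≤ K) :
    ∃ τ : Multiset (Pt f) →+ ℝ, (∀ φ : CR f, φ ≠ 0 → τ (dv φ) = tate2_d v P φ) ∧
      ∀ R, |τ {R}| ≤ 2 * K := by
  have hex : ∀ D : Multiset (Pt f), ∃ (φ : CR f) (F : Multiset (Pt f)), φ ≠ 0 ∧
      dv φ = (D.filter fun R => R.y ≠ 0) + F ∧ F.card ≤ g := fun D =>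
    rr_add h _ fun R hR => (Multiset.mem_filter.1 hR).2
  choose Φ F hΦ hdv hF using hex
  have hq : ∀ a b, |tate2_d v P (Φ (a + b)) - tate2_d v P (Φ a) - tate2_d v P (Φ b)| ≤ K := by
    intro a b
    have e : dv (Φ a * Φ b) = ((a + b).filter fun R => R.y ≠ 0) + (F a + F b) := by
      rw [dv_mul h (hΦ a) (hΦ b), hdv, hdv, Multiset.filter_add]
      abel
    have := tate2_cmp h hy hK (hΦ (a + b)) (cr_mul_ne_zero h (hΦ a) (hΦ b)) (hdv (a + b)) e (by
      rw [Multiset.card_add]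
      have := hF a
      have := hF b
      have := hF (a + b)
      omega)
    rwa [tate2_d_mul h hy (hΦ a) (hΦ b), ← sub_sub] at this
  obtain ⟨τ, hτ⟩ := hyers (fun D => tate2_d v P (Φ D)) K hq
  refine ⟨τ, fun φ hφ => ?_, fun R => ?_⟩
  · set D' := (dv φ).filter fun R => R.y ≠ 0 with hD'
    set W := (dv φ).filter fun R => ¬ R.y ≠ 0 with hW
    have hs : D' + W = dv φ := Multiset.filter_add_not _ _
    have hWi : W.map Pt.inv = W := by
      conv_rhs => rw [← Multiset.map_id W]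
      refine Multiset.map_congr rfl fun R hR => ?_
      exact inv_eq_of_y R (not_not.1 (Multiset.mem_filter.1 hR).2)
    have e : dv (φ ^ 2) = W + W.map Pt.inv + 2 • D' := by
      rw [dv_pow h hφ, hWi, ← hs, two_nsmul, two_nsmul]
      abel
    obtain ⟨χ, hχ, hE, hd⟩ := tate2_red (v := v) h hy (cr_pow_ne_zero h hφ 2) e
    rw [tate2_d_pow h hy hφ] at hd
    have key : 2 * τ (dv φ) = 2 * tate2_d v P φ := by
      apply tate2_eq (c := 2 * K)
      intro N
      have e1 : dv (χ ^ N) = (((N * 2) • dv φ).filter fun R => R.y ≠ 0) + 0 := by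
        rw [dv_pow h hχ, hE, Multiset.filter_nsmul, add_zero, ← hD', mul_nsmul']
      have h1 := tate2_cmp h hy hK (hΦ ((N * 2) • dv φ)) (cr_pow_ne_zero h hχ N)
        (hdv _) e1 (by
          have := hF ((N * 2) • dv φ)
          rw [Multiset.card_zero]
          omega)
      have h2 := hτ ((N * 2) • dv φ)
      rw [tate2_d_pow h hy hχ, hd] at h1
      rw [map_nsmul, nsmul_eq_mul] at h2
      push_cast at h1 h2
      rw [abs_le] at h1 h2 ⊢
      constructor <;> nlinarith [h1.1, h1.2, h2.1, h2.2]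
    linarith
  · have h1 := hτ {R}
    have h2 := hK (Φ {R}) (hΦ _) (by
      rw [← card_dv h (hΦ _), hdv, Multiset.card_add]
      have h3 := hF {R}
      have h4 : (({R} : Multiset (Pt f)).filter fun R => R.y ≠ 0).card ≤ 1 :=
        (Multiset.card_le_card (Multiset.filter_le _ _)).trans (by simp)
      omega)
    rw [abs_le] at h1 h2 ⊢
    constructor <;> linarith [h1.1, h1.2, h2.1, h2.2]

/-- Let `d φ` be the defect in `key_K` (additive, `d (star φ) = - d φ`, `d (pol u) = 0`). If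
`dv φ = D + F`, `dv ψ = D + G` and `card F + card G ≤ 3 g` then `|d φ - d ψ| ≤ K`
(`exists_dv_of_add` for `φ * star ψ`). On the monoid of W-free multisets put `u D = d φ_D` with
`φ_D` from `rr_add`; `u` is quasi-additive, `hyers` gives `τ`; `τ D = d ψ` when `D = dv ψ`;
`|u {R}| ≤ K` by comparison with `dv_lin`. Put `σ R = sn P R - τ {R}` (`τ {R} := 0` at W-points).
For general `φ` write `dv φ = D + W` and use `φ ^ 2 / aD W`. -/
theorem isSym_exists (h : Crv f g) (hd : Dat v f κ) :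
    ∃ m : ℕ, ∀ P : Pt f, P.y ≠ 0 → ∃ σ : Pt f → ℝ,
      (∀ φ : CR f, φ ≠ 0 →
        ((dv φ).map σ).sum = Real.log (v (lead P.inv φ)) - Real.log (v (lead P φ))) ∧
      ∀ R, |σ R - sn v P R| ≤ m * Real.log κ := by
  obtain ⟨m, hm⟩ := key_K h hd (3 * g + 1)
  refine ⟨2 * m, fun P hy => ?_⟩
  obtain ⟨τ, h1, h2⟩ := tate2_tau (v := v) h hy (K := m * Real.log κ)
    fun φ hφ hw => hm P φ hy hφ hw
  refine ⟨fun R => sn v P R - τ {R}, fun φ hφ => ?_, fun R => ?_⟩
  · rw [Multiset.sum_map_sub, tate2_sum, h1 φ hφ]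
    unfold tate2_d
    ring
  · have := h2 R
    rw [sub_sub_cancel_left, abs_neg]
    push_cast
    linarith

end Pool.Agent.Lib.MP_830c64_nt
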